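import Pool.Agent.MP_927be3_nt.Defs
import Pool.Agent.MP_927be3_nt.Local
import Pool.Agent.MP_e4c747_an.Exp

/-! Definitions; p-adic decoupling for the moment curve and the Vinogradov mean value theorem. -/

section PartDefs

open Finset Polynomial

namespace Pool.Agent.MP_927be3_nt.W

/-- the standard additive character `x ↦ exp (2 π i x / q)` -/
noncomputable abbrev ch {q : ℕ} [NeZero q] (x : ZMod q) : ℂ := ZMod.stdAddChar x

/-- `exp (2 π i t)` -/
noncomputable def ee (t : ℝ) : ℂ := Complex.exp (2 * Real.pi * Complex.I * t)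

/-- triangular numbers -/
def tri (e : ℕ) : ℕ := e * (e + 1) / 2

/-- the `L^K` norm of a nonnegative function (counting measure) -/
noncomputable def lp {Y : Type} [Fintype Y] (K : ℕ) (g : Y → ℝ) : ℝ :=
  (∑ x, g x ^ K) ^ ((1 : ℝ) / K)

/-- the square of the `L^(2K)` norm -/
noncomputable def nu {Y : Type} [Fintype Y] (K : ℕ) (f : Y → ℂ) : ℝ :=
  (∑ x, ‖f x‖ ^ (2 * K)) ^ ((1 : ℝ) / K)

/-- the phase polynomial `∑ y i * φ i` -/
noncomputable def ph {q l : ℕ} (φ : Fin l → (ZMod q)[X]) (y : Fin l → ZMod q) : (ZMod q)[X] :=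
  ∑ i, C (y i) * φ i

/-- `g` is constant on the `p`-adic interval `a + p^n Z` (as a polynomial) -/
def Lev {q : ℕ} (p n : ℕ) (a : ℤ) (g : (ZMod q)[X]) : Prop :=
  g.comp (C (a : ZMod q) + C ((p : ZMod q) ^ n) * X) = C (g.eval (a : ZMod q))

/-- `f` has Fourier support in the anisotropic box over `a + p^n Z` -/
def Equi {q l : ℕ} [NeZero q] (φ : Fin l → (ZMod q)[X]) (p n : ℕ) (a : ℤ)
    (f : (Fin l → ZMod q) → ℂ) : Prop :=
  ∀ y, Lev p n a (ph φ y) → ∀ x, f (x + y) = ch ((ph φ y).eval (a : ZMod q)) * f x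

/-- pairwise incongruent modulo `p^n` -/
def Sep (p n : ℕ) (S : Finset ℤ) : Prop := ∀ a ∈ S, ∀ b ∈ S, (p : ℤ) ^ n ∣ a - b → a = b

/-- decoupling inequality with constant `A` for centres satisfying `U` -/
def Dec {q l : ℕ} [NeZero q] (φ : Fin l → (ZMod q)[X]) (p n K : ℕ) (U : ℤ → Prop) (A : ℝ) : Prop :=
  ∀ (S : Finset ℤ) (f : ℤ → (Fin l → ZMod q) → ℂ), Sep p n S → (∀ a ∈ S, U a) →
    (∀ a ∈ S, Equi φ p n a (f a)) → nu K (∑ a ∈ S, f a) ≤ A * ∑ a ∈ S, nu K (f a)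

/-- the moment curve `1, X, ..., X^k` -/
noncomputable def mom (q k : ℕ) : Fin (k + 1) → (ZMod q)[X] := fun i => X ^ (i : ℕ)

/-- decoupling for the moment curve -/
def DM (p k n : ℕ) (A : ℝ) : Prop :=
  ∀ (N q : ℕ) [NeZero q], q = p ^ N → k * n ≤ N → Dec (mom q k) p n (tri k) (fun _ => True) A

/-- nondegeneracy of the curve at `a` -/
def ND {q l : ℕ} (φ : Fin (l + 1) → (ZMod q)[X]) (a : ℤ) : Prop :=
  ∀ y, (X - C (a : ZMod q)) ^ (l + 1) ∣ ph φ y → y = 0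

/-- decoupling for all nondegenerate curves -/
def DG (p l n : ℕ) (A : ℝ) : Prop :=
  ∀ (N q : ℕ) [NeZero q], q = p ^ N → l * n ≤ N → ∀ φ : Fin (l + 1) → (ZMod q)[X],
    (∃ y, ph φ y = 1) → Dec φ p n (tri l) (ND φ) A

/-- subexponential growth of a family of constants -/
def SG (p : ℕ) (D : ℕ → ℝ → Prop) : Prop :=
  ∀ ε : ℝ, 0 < ε → ∃ A : ℝ, 1 ≤ A ∧ ∀ n : ℕ, D n (A * (p : ℝ) ^ (ε * n))

/-- the bilinear estimate -/
def Bil (p k l a b n : ℕ) (A : ℝ) : Prop :=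
  ∀ (N q : ℕ) [NeZero q], q = p ^ N → k * n ≤ N →
    ∀ (S S' : Finset ℤ) (f f' : ℤ → (Fin (k + 1) → ZMod q) → ℂ) (α β : ℤ),
      Sep p n S → Sep p n S' → (∀ x ∈ S, (p : ℤ) ^ a ∣ x - α) → (∀ x ∈ S', (p : ℤ) ^ b ∣ x - β) →
      ¬ (p : ℤ) ∣ α - β → (∀ x ∈ S, Equi (mom q k) p n x (f x)) →
      (∀ x ∈ S', Equi (mom q k) p n x (f' x)) →
      ∑ y, ‖(∑ x ∈ S, f x) y‖ ^ (2 * tri l) * ‖(∑ x ∈ S', f' x) y‖ ^ (2 * (tri k - tri l)) ≤
        A * (∑ x ∈ S, nu (tri k) (f x)) ^ tri l * (∑ x ∈ S', nu (tri k) (f' x)) ^ (tri k - tri l)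

/-- pairs of `K`-tuples from `S` -/
def Pairs {α : Type} [DecidableEq α] (K : ℕ) (S : Finset α) : Finset ((Fin K → α) × (Fin K → α)) :=
  Fintype.piFinset (fun _ => S) ×ˢ Fintype.piFinset (fun _ => S)

/-- Vinogradov's count of degree `e` at the critical exponent, variables in `[-H, H]` -/
noncomputable def Jv (e H : ℕ) : ℕ :=
  #{z ∈ Pairs (tri e) (Icc (-(H : ℤ)) H) |
    ∀ i : Fin e, ∑ r, z.1 r ^ ((i : ℕ) + 1) = ∑ r, z.2 r ^ ((i : ℕ) + 1)}

/-- equal sums of `w` powers, variables in `[0, P]` -/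
def Iw (k w P : ℕ) : ℕ := #{z ∈ Pairs w (range (P + 1)) | ∑ r, z.1 r ^ k = ∑ r, z.2 r ^ k}

/-- the `2 w`-th moment saves `P^j` -/
def Mom (k w j : ℕ) : Prop :=
  ∀ ε : ℝ, 0 < ε → ∃ A : ℝ, 0 < A ∧ ∀ P : ℕ, 1 ≤ P →
    (Iw k w P : ℝ) ≤ A * (P : ℝ) ^ ε * (P : ℝ) ^ (2 * w) / (P : ℝ) ^ j

/-- `a` is the class of an integer of size at most `D` -/
def Small {q : ℕ} (a : ZMod q) (D : ℝ) : Prop := ∃ e : ℤ, |(e : ℝ)| ≤ D ∧ (e : ZMod q) = a

/-- the Weyl sum -/
noncomputable def fw (k P : ℕ) {q : ℕ} [NeZero q] (a : ZMod q) : ℂ :=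
  ∑ x ∈ range (P + 1), ch (a * (x : ZMod q) ^ k)

/-- the Weyl sum over `x` coprime to `m` -/
noncomputable def fc (k P m : ℕ) {q : ℕ} [NeZero q] (a : ZMod q) : ℂ :=
  ∑ x ∈ (range (P + 1)).filter (fun x => Nat.Coprime x m), ch (a * (x : ZMod q) ^ k)

/-- the modulus is highly divisible -/
def Good (k P q : ℕ) : Prop := ∀ d : ℕ, 0 < d → d ≤ (8 * k * (P + 1)) ^ (2 * k) → d ∣ q

/-- major arcs of height `Q` -/
def Maj (k P : ℕ) {q : ℕ} (Q : ℝ) (a : ZMod q) : Prop :=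
  ∃ d : ℕ, 1 ≤ d ∧ (d : ℝ) ≤ Q ∧ Small ((d : ZMod q) * a) (Q * q / (P : ℝ) ^ k)

/-- the coefficients of `a (x + m h)^k` as a polynomial in `h` (degrees `1..k`) -/
def gam (k : ℕ) {q : ℕ} (a : ZMod q) (m x : ℕ) : Fin k → ZMod q := fun i =>
  (k.choose (i + 1) : ZMod q) * a * (x : ZMod q) ^ (k - (i + 1)) * (m : ZMod q) ^ ((i : ℕ) + 1)

/-- two coefficient vectors lie in the same cell at scale `H` -/
def Close {e q : ℕ} (H : ℕ) (γ γ' : Fin e → ZMod q) : Prop :=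
  ∀ i : Fin e, Small (γ i - γ' i) ((q : ℝ) / (H : ℝ) ^ ((i : ℕ) + 1))

/-- the triples `(a, m, x)` -/
def Tr {q : ℕ} (P : ℕ) (A : Finset (ZMod q)) (Ms : Finset ℕ) : Finset (ZMod q × ℕ × ℕ) :=
  (A ×ˢ Ms ×ˢ range (P + 1)).filter fun t => Nat.Coprime t.2.2 t.2.1

open Classical in
/-- the number of close pairs of triples -/
noncomputable def Bc (k P H : ℕ) {q : ℕ} (A : Finset (ZMod q)) (Ms : Finset ℕ) : ℕ :=
  #{z ∈ Tr P A Ms ×ˢ Tr P A Ms |
    Close H (gam k z.1.1 z.1.2.1 z.1.2.2) (gam k z.2.1 z.2.2.1 z.2.2.2)}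

/-- the level set of the Weyl sum -/
noncomputable def Lv (k P q : ℕ) [NeZero q] (V : ℝ) : Finset (ZMod q) :=
  univ.filter fun a => V ≤ ‖fw k P a‖

open Classical in
/-- the level set outside the major arcs of height `Q` -/
noncomputable def Lm (k P q : ℕ) [NeZero q] (V Q : ℝ) : Finset (ZMod q) :=
  univ.filter fun a => V ≤ ‖fw k P a‖ ∧ ¬ Maj k P Q a

/-- the level bound that gives a power saving on the minor arcs for the `s`-th moment -/
def LB (k s : ℕ) (c : ℝ) : Prop :=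
  ∃ δ A : ℝ, 0 < δ ∧ 0 < A ∧ ∃ P0 : ℕ, ∀ P : ℕ, P0 ≤ P → ∀ (q : ℕ) [NeZero q], Good k P q →
    ∀ V : ℝ, 1 ≤ V → V ≤ P + 1 →
      (#(Lm k P q V (V / c)) : ℝ) ≤ A * (P / V) ^ s * q / ((P : ℝ) ^ k * (P : ℝ) ^ δ)

/-- the level bound in the middle range -/
def Mid (k s t u m : ℕ) : Prop :=
  ∃ η A : ℝ, 0 < η ∧ 0 < A ∧ ∃ P0 : ℕ, ∀ P : ℕ, P0 ≤ P → ∀ (q : ℕ) [NeZero q], Good k P q →
    ∀ V : ℝ, 1 ≤ V → V ≤ P + 1 → (P : ℝ) ^ (1 - η) ≤ (P / V) ^ t →
      (P / V) ^ (s - u) ≤ (P : ℝ) ^ (m + η) →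
      (#(Lv k P q V) : ℝ) ≤ A * (P / V) ^ s * q / ((P : ℝ) ^ k * (P : ℝ) ^ η)

/-- the complete exponential sum -/
noncomputable def Sc (k d : ℕ) (b : ℤ) : ℂ := ∑ x ∈ range d, ee (b * (x : ℝ) ^ k / d)

/-- the smoothed Weyl sum -/
noncomputable def vv (k P : ℕ) {q : ℕ} [NeZero q] (β : ZMod q) : ℂ :=
  ∑ x ∈ range (P + 1), ∑ m ∈ Ico (x ^ k) ((x + 1) ^ k),
    ch (β * (m : ZMod q)) / (((x + 1) ^ k - x ^ k : ℕ) : ℂ)

/-- the constant in the major arc approximation -/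
def cM (k : ℕ) : ℝ := 2 * (2 + 19 * 2 ^ k)

/-- the core major arcs -/
def Core (k P Q0 : ℕ) {q : ℕ} (a : ZMod q) : Prop :=
  ∃ d b : ℕ, ∃ β : ℤ, 1 ≤ d ∧ d ≤ Q0 ∧ b < d ∧ Nat.Coprime b d ∧
    |(β : ℝ)| ≤ (Q0 : ℝ) * q / (P : ℝ) ^ k ∧ a = ((q / d : ℕ) : ZMod q) * b + β

/-- a term of the singular series -/
noncomputable def Aq (k s n d : ℕ) : ℂ :=
  ∑ b ∈ (range d).filter (fun b => Nat.Coprime b d), (Sc k d b / d) ^ s * ee (-(b * n / d))

/-- the truncated singular series -/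
noncomputable def SS (k s n Q0 : ℕ) : ℂ := ∑ d ∈ Icc 1 Q0, Aq k s n d

/-- the number of solutions of the congruence -/
noncomputable def Mn (k s n W : ℕ) : ℕ :=
  Nat.card {x : Fin s → ZMod W // ∑ i, x i ^ k = (n : ZMod W)}

/-- the exponent from which on units lift -/
def gm (p k : ℕ) : ℕ := padicValNat p k + if p = 2 then 2 else 1

/-- local solubility -/
def LocOK (k s : ℕ) : Prop :=
  ∀ p : ℕ, p.Prime → ∀ n : ℕ, ∃ (x : Fin s → ℤ) (i : Fin s), ¬ (p : ℤ) ∣ x i ∧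
    (p : ℤ) ^ gm p k ∣ ∑ j, x j ^ k - n

/-- the number of representations by `s` powers of integers in `[0, P]` -/
def Rep (k s P n : ℕ) : ℕ :=
  #{x ∈ Fintype.piFinset (fun _ : Fin s => range (P + 1)) | ∑ i, x i ^ k = n}

/-- the order of magnitude of the number of representations -/
def RepOK (k s : ℕ) : Prop :=
  ∃ c A : ℝ, 0 < c ∧ 0 < A ∧ ∃ P0 : ℕ, ∀ P n : ℕ, P0 ≤ P → P ^ k ≤ n → n < (P + 1) ^ k →
    c * (P : ℝ) ^ s / (P : ℝ) ^ k ≤ Rep k s P n ∧ (Rep k s P n : ℝ) ≤ A * (P : ℝ) ^ s / (P : ℝ) ^ k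

theorem norm_ch {q : ℕ} [NeZero q] (x : ZMod q) : ‖ch x‖ = 1 := AddChar.norm_apply _ _

theorem ch_add {q : ℕ} [NeZero q] (x y : ZMod q) : ch (x + y) = ch x * ch y :=
  AddChar.map_add_eq_mul _ _ _

theorem ch_zero {q : ℕ} [NeZero q] : ch (0 : ZMod q) = 1 := AddChar.map_zero_eq_one _

theorem ch_neg {q : ℕ} [NeZero q] (x : ZMod q) : ch (-x) = (starRingEnd ℂ) (ch x) :=
  AddChar.map_neg_eq_conj _ _

theorem ch_sub {q : ℕ} [NeZero q] (x y : ZMod q) :
    ch (x - y) = ch x * (starRingEnd ℂ) (ch y) := by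
  rw [sub_eq_add_neg, ch_add, ch_neg]

theorem ch_sum {q : ℕ} [NeZero q] {ι : Type} (s : Finset ι) (f : ι → ZMod q) :
    ch (∑ i ∈ s, f i) = ∏ i ∈ s, ch (f i) := by
  classical
  induction s using Finset.induction_on with
  | empty => simp
  | insert a s ha ih => rw [sum_insert ha, prod_insert ha, ch_add, ih]

theorem ch_orth {q : ℕ} [NeZero q] (b : ZMod q) :
    ∑ t : ZMod q, ch (t * b) = if b = 0 then (q : ℂ) else 0 := by
  rw [AddChar.sum_mulShift _ (ZMod.isPrimitive_stdAddChar q)]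
  simp

theorem ch_inj {q : ℕ} [NeZero q] {x y : ZMod q} (h : ch x = ch y) : x = y :=
  ZMod.injective_stdAddChar h

theorem ch_int {q : ℕ} [NeZero q] (j : ℤ) : ch (j : ZMod q) = ee ((j : ℝ) / q) := by
  rw [show ch (j : ZMod q) = _ from ZMod.stdAddChar_coe j, ee]
  congr 1
  push_cast
  ring

theorem ee_add (x y : ℝ) : ee (x + y) = ee x * ee y := by
  simp only [ee]
  rw [← Complex.exp_add]
  congr 1
  push_cast
  ring

theorem norm_ee (x : ℝ) : ‖ee x‖ = 1 := by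
  have : ee x = Complex.exp ((2 * Real.pi * x : ℝ) * Complex.I) := by
    simp only [ee]
    congr 1
    push_cast
    ring
  rw [this, Complex.norm_exp_ofReal_mul_I]

theorem ee_int (j : ℤ) : ee j = 1 := by
  simp only [ee]
  rw [← Complex.exp_int_mul_two_pi_mul_I j]
  congr 1
  push_cast
  ring

theorem two_mul_tri (e : ℕ) : 2 * tri e = e * (e + 1) :=
  Nat.mul_div_cancel' (Nat.even_mul_succ_self e).two_dvd

theorem tri_succ (e : ℕ) : tri (e + 1) = tri e + (e + 1) := by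
  have h1 := two_mul_tri e
  have h2 := two_mul_tri (e + 1)
  nlinarith

theorem tri_zero : tri 0 = 0 := rfl

theorem tri_one : tri 1 = 1 := rfl

theorem tri_lt {a b : ℕ} (h : a < b) : tri a < tri b := by
  have h1 := two_mul_tri a
  have h2 := two_mul_tri b
  nlinarith

theorem tri_le {a b : ℕ} (h : a ≤ b) : tri a ≤ tri b := by
  rcases h.eq_or_lt with h | h
  · rw [h]
  · exact (tri_lt h).le

theorem tri_pos {a : ℕ} (h : 1 ≤ a) : 1 ≤ tri a := tri_le h

theorem Small.mono {q : ℕ} {a : ZMod q} {D D' : ℝ} (h : Small a D) (hD : D ≤ D') : Small a D' := by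
  obtain ⟨e, h1, h2⟩ := h
  exact ⟨e, h1.trans hD, h2⟩

theorem Small.add {q : ℕ} {a b : ZMod q} {D D' : ℝ} (h : Small a D) (h' : Small b D') :
    Small (a + b) (D + D') := by
  obtain ⟨e, h1, h2⟩ := h
  obtain ⟨e', h1', h2'⟩ := h'
  refine ⟨e + e', ?_, by rw [Int.cast_add, h2, h2']⟩
  push_cast
  exact (abs_add_le _ _).trans (add_le_add h1 h1')

theorem Small.neg {q : ℕ} {a : ZMod q} {D : ℝ} (h : Small a D) : Small (-a) D := by
  obtain ⟨e, h1, h2⟩ := h
  exact ⟨-e, by simpa using h1, by rw [Int.cast_neg, h2]⟩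

theorem Small.mul {q : ℕ} {a : ZMod q} {D : ℝ} (h : Small a D) (c : ℤ) :
    Small ((c : ZMod q) * a) (|(c : ℝ)| * D) := by
  obtain ⟨e, h1, h2⟩ := h
  refine ⟨c * e, ?_, by rw [Int.cast_mul, h2]⟩
  push_cast
  rw [abs_mul]
  exact mul_le_mul_of_nonneg_left h1 (abs_nonneg _)

theorem Good.le {k P q : ℕ} [NeZero q] (hk : 1 ≤ k) (h : Good k P q) :
    (8 * k * (P + 1)) ^ (2 * k) ≤ q :=
  Nat.le_of_dvd (NeZero.pos q) (h _ (by positivity) le_rfl)

theorem exists_good (k P : ℕ) : ∃ q : ℕ, q ≠ 0 ∧ Good k P q :=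
  ⟨((8 * k * (P + 1)) ^ (2 * k)).factorial, Nat.factorial_ne_zero _,
    fun _ hd h => Nat.dvd_factorial hd h⟩

theorem norm_fw_le (k P : ℕ) {q : ℕ} [NeZero q] (a : ZMod q) : ‖fw k P a‖ ≤ P + 1 := by
  refine (norm_sum_le _ _).trans ?_
  simp

theorem Maj.mono {k P q : ℕ} {Q Q' : ℝ} {a : ZMod q} (h : Maj k P Q a) (hQ : Q ≤ Q') :
    Maj k P Q' a := by
  obtain ⟨d, h1, h2, h3⟩ := h
  refine ⟨d, h1, h2.trans hQ, h3.mono ?_⟩
  gcongr

end Pool.Agent.MP_927be3_nt.W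

end PartDefs

section PartDefs2

open Finset Polynomial

namespace Pool.Agent.MP_927be3_nt.W

/-- the exceptional set of the dilation argument -/
def Bad (k b P M : ℕ) {q : ℕ} (Ms : Finset ℕ) (a : ZMod q) : Prop :=
  ∃ m ∈ Ms, ∃ Δ : ℤ, Δ ≠ 0 ∧ |Δ| ≤ 4 * M * P ∧
    Small (((k.factorial * m ^ (2 * b) : ℕ) : ZMod q) * (Δ : ZMod q) * a)
      (6 * k.factorial * 2 ^ k * q * (M : ℝ) ^ (2 * b + 1) / (P : ℝ) ^ (k - 1))

/-- the number of large values among the shifts by fractions with denominator `m ^ b` -/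
noncomputable def Th (k b P : ℕ) {q : ℕ} [NeZero q] (Ms : Finset ℕ) (V : ℝ) (a : ZMod q) : ℕ :=
  ∑ m ∈ Ms, #((range (m ^ b)).filter fun n : ℕ =>
    V ≤ ‖fw k P (a + ((q / m ^ b : ℕ) : ZMod q) * (n : ZMod q))‖)

/-- primes larger than `k` in `[M, 4 M]` -/
def PrM (k M : ℕ) (Ms : Finset ℕ) : Prop := ∀ m ∈ Ms, m.Prime ∧ k < m ∧ M ≤ m ∧ m ≤ 4 * M

/-- the integers of size at most `q / 2` -/
noncomputable def Iq (q : ℕ) : Finset ℤ := Icc (-((q / 2 : ℕ) : ℤ)) ((q / 2 : ℕ) : ℤ)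

theorem ch_div {q m : ℕ} [NeZero q] (hd : m ∣ q) (j : ℤ) :
    ch (((q / m : ℕ) : ZMod q) * (j : ZMod q)) = ee ((j : ℝ) / m) := by
  obtain ⟨c, hc⟩ := hd
  have hq : q ≠ 0 := NeZero.ne q
  have hm : m ≠ 0 := fun h => hq (by rw [hc, h, zero_mul])
  have hc0 : c ≠ 0 := fun h => hq (by rw [hc, h, mul_zero])
  have h1 : q / m = c := by rw [hc]; exact Nat.mul_div_cancel_left c (Nat.pos_of_ne_zero hm)
  have h2 : ((c : ℕ) : ZMod q) * (j : ZMod q) = (((c : ℤ) * j : ℤ) : ZMod q) := by push_cast; ring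
  rw [h1, h2, ch_int]
  congr 1
  have h3 : (q : ℝ) = m * c := by exact_mod_cast hc
  have h4 : (m : ℝ) ≠ 0 := by exact_mod_cast hm
  have h5 : (c : ℝ) ≠ 0 := by exact_mod_cast hc0
  rw [h3]
  push_cast
  field_simp

end Pool.Agent.MP_927be3_nt.W

end PartDefs2

section PartNorm

open Finset Polynomial

namespace Pool.Agent.MP_927be3_nt.W

variable {Y : Type} [Fintype Y]

theorem lp_nonneg (K : ℕ) {g : Y → ℝ} (hg : ∀ x, 0 ≤ g x) : 0 ≤ lp K g :=
  Real.rpow_nonneg (sum_nonneg fun x _ => pow_nonneg (hg x) K) _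

theorem lp_pow {K : ℕ} (hK : 1 ≤ K) {g : Y → ℝ} (hg : ∀ x, 0 ≤ g x) :
    lp K g ^ K = ∑ x, g x ^ K := by
  rw [lp, one_div]
  exact Real.rpow_inv_natCast_pow (sum_nonneg fun x _ => pow_nonneg (hg x) K) (by omega)

theorem lp_le_iff {K : ℕ} (hK : 1 ≤ K) {g : Y → ℝ} (hg : ∀ x, 0 ≤ g x) {B : ℝ} (hB : 0 ≤ B) :
    lp K g ≤ B ↔ ∑ x, g x ^ K ≤ B ^ K := by
  rw [← lp_pow hK hg, pow_le_pow_iff_left₀ (lp_nonneg K hg) hB (by omega)]

theorem lp_mono (K : ℕ) {g h : Y → ℝ} (hg : ∀ x, 0 ≤ g x) (hgh : ∀ x, g x ≤ h x) :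
    lp K g ≤ lp K h :=
  Real.rpow_le_rpow (sum_nonneg fun x _ => pow_nonneg (hg x) K)
    (sum_le_sum fun x _ => pow_le_pow_left₀ (hg x) (hgh x) K) (by positivity)

theorem lp_smul {K : ℕ} (hK : 1 ≤ K) {g : Y → ℝ} (hg : ∀ x, 0 ≤ g x) {c : ℝ} (hc : 0 ≤ c) :
    lp K (fun x => c * g x) = c * lp K g := by
  have h1 : ∀ x, 0 ≤ c * g x := fun x => mul_nonneg hc (hg x)
  rw [← pow_left_inj₀ (lp_nonneg K h1) (mul_nonneg hc (lp_nonneg K hg)) (by omega : K ≠ 0),
    lp_pow hK h1, mul_pow, lp_pow hK hg, mul_sum]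
  simp only [mul_pow]

theorem lp_add {K : ℕ} (hK : 1 ≤ K) {g h : Y → ℝ} (hg : ∀ x, 0 ≤ g x) (hh : ∀ x, 0 ≤ h x) :
    lp K (fun x => g x + h x) ≤ lp K g + lp K h := by
  have := Real.Lp_add_le_of_nonneg (s := univ) (f := g) (g := h) (p := K) (by exact_mod_cast hK)
    (fun x _ => hg x) fun x _ => hh x
  simpa only [Real.rpow_natCast, lp] using this

theorem lp_sum {ι : Type} {K : ℕ} (hK : 1 ≤ K) (s : Finset ι) {g : ι → Y → ℝ}
    (hg : ∀ i ∈ s, ∀ x, 0 ≤ g i x) : lp K (fun x => ∑ i ∈ s, g i x) ≤ ∑ i ∈ s, lp K (g i) := by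
  classical
  induction s using Finset.induction_on with
  | empty =>
    rw [lp_le_iff hK (by simp) (by simp)]
    simp [show K ≠ 0 by omega]
  | insert a s ha ih =>
    simp only [sum_insert ha]
    have h1 : ∀ i ∈ s, ∀ x, 0 ≤ g i x := fun i hi => hg i (mem_insert_of_mem hi)
    exact (lp_add hK (hg a (mem_insert_self _ _)) fun x => sum_nonneg fun i hi => h1 i hi x).trans
      (add_le_add le_rfl (ih h1))

theorem nu_eq_lp (K : ℕ) (f : Y → ℂ) : nu K f = lp K (fun x => ‖f x‖ ^ 2) := by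
  simp only [nu, lp, pow_mul]

theorem nu_nonneg (K : ℕ) (f : Y → ℂ) : 0 ≤ nu K f := by
  rw [nu_eq_lp]
  exact lp_nonneg K fun x => by positivity

theorem nu_pow {K : ℕ} (hK : 1 ≤ K) (f : Y → ℂ) : nu K f ^ K = ∑ x, ‖f x‖ ^ (2 * K) := by
  rw [nu_eq_lp, lp_pow hK fun x => by positivity]
  simp only [pow_mul]

theorem nu_le_iff {K : ℕ} (hK : 1 ≤ K) (f : Y → ℂ) {B : ℝ} (hB : 0 ≤ B) :
    nu K f ≤ B ↔ ∑ x, ‖f x‖ ^ (2 * K) ≤ B ^ K := by
  rw [nu_eq_lp, lp_le_iff hK (fun x => by positivity) hB]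
  simp only [pow_mul]

theorem nu_sum_le_card {ι : Type} {K : ℕ} (hK : 1 ≤ K) (s : Finset ι) (f : ι → Y → ℂ) :
    nu K (∑ i ∈ s, f i) ≤ #s * ∑ i ∈ s, nu K (f i) := by
  simp only [nu_eq_lp]
  calc lp K (fun x => ‖(∑ i ∈ s, f i) x‖ ^ 2)
      ≤ lp K (fun x => #s * ∑ i ∈ s, ‖f i x‖ ^ 2) := lp_mono K (fun x => by positivity) fun x => by
        rw [Finset.sum_apply]
        exact (pow_le_pow_left₀ (norm_nonneg _) (norm_sum_le _ _) 2).trans
          sq_sum_le_card_mul_sum_sq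
    _ = #s * lp K (fun x => ∑ i ∈ s, ‖f i x‖ ^ 2) :=
        lp_smul hK (fun x => by positivity) (by positivity)
    _ ≤ _ := mul_le_mul_of_nonneg_left (lp_sum hK s fun i _ x => by positivity) (by positivity)

theorem holder_pow {r : ℕ} (hr : 1 ≤ r) {u v w : Y → ℝ} (hu : ∀ x, 0 ≤ u x) (hv : ∀ x, 0 ≤ v x)
    (hw : ∀ x, 0 ≤ w x) (h : ∀ x, u x ^ r = v x * w x ^ (r - 1)) :
    ∑ x, u x ≤ (∑ x, v x) ^ ((1 : ℝ) / r) * (∑ x, w x) ^ (((r : ℝ) - 1) / r) := by
  rcases hr.eq_or_lt with rfl | hr'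
  · simp only [pow_one, Nat.sub_self, pow_zero, mul_one] at h
    simp [h]
  have h1 : (1 : ℝ) < r := by exact_mod_cast hr'
  have h2 : (r : ℝ) - 1 ≠ 0 := by linarith
  have h3 : (r : ℝ) ≠ 0 := by linarith
  have hc : (r : ℝ).HolderConjugate (r / (r - 1)) := Real.HolderConjugate.conjExponent h1
  have key := Real.inner_le_Lp_mul_Lq_of_nonneg (s := univ) (f := fun x => v x ^ ((1 : ℝ) / r))
    (g := fun x => w x ^ (((r : ℝ) - 1) / r)) hc (fun x _ => Real.rpow_nonneg (hv x) _)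
    fun x _ => Real.rpow_nonneg (hw x) _
  have e1 : ∀ x, (v x ^ ((1 : ℝ) / r)) ^ (r : ℝ) = v x := fun x => by
    rw [← Real.rpow_mul (hv x), one_div_mul_cancel h3, Real.rpow_one]
  have e2 : ∀ x, (w x ^ (((r : ℝ) - 1) / r)) ^ ((r : ℝ) / (r - 1)) = w x := fun x => by
    rw [← Real.rpow_mul (hw x), show ((r : ℝ) - 1) / r * (r / (r - 1)) = 1 by field_simp,
      Real.rpow_one]
  have e3 : ∀ x, v x ^ ((1 : ℝ) / r) * w x ^ (((r : ℝ) - 1) / r) = u x := fun x => by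
    have : u x = (u x ^ r) ^ ((1 : ℝ) / r) := by
      rw [one_div, Real.pow_rpow_inv_natCast (hu x) (by omega)]
    rw [this, h, Real.mul_rpow (hv x) (pow_nonneg (hw x) _), ← Real.rpow_natCast,
      ← Real.rpow_mul (hw x), Nat.cast_sub hr, Nat.cast_one, mul_one_div]
  simp only [e1, e2, e3, one_div_div] at key
  exact key

end Pool.Agent.MP_927be3_nt.W

end PartNorm

section PartBasic

open Finset Polynomial

namespace Pool.Agent.MP_927be3_nt.W

theorem ph_add {q l : ℕ} (φ : Fin l → (ZMod q)[X]) (y z : Fin l → ZMod q) :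
    ph φ (y + z) = ph φ y + ph φ z := by
  simp only [ph, Pi.add_apply, C_add, add_mul, sum_add_distrib]

theorem ph_smul {q l : ℕ} (φ : Fin l → (ZMod q)[X]) (c : ZMod q) (y : Fin l → ZMod q) :
    ph φ (c • y) = C c * ph φ y := by
  simp only [ph, Pi.smul_apply, smul_eq_mul, C_mul, mul_sum, mul_assoc]

theorem ph_sub {q l : ℕ} (φ : Fin l → (ZMod q)[X]) (y z : Fin l → ZMod q) :
    ph φ (y - z) = ph φ y - ph φ z := by
  simp only [ph, Pi.sub_apply, C_sub, sub_mul, sum_sub_distrib]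

theorem ph_mom_coeff {q k : ℕ} (y : Fin (k + 1) → ZMod q) (i : Fin (k + 1)) :
    (ph (mom q k) y).coeff i = y i := by
  simp only [ph, mom, finsetSum_coeff, coeff_C_mul_X_pow]
  rw [sum_eq_single i]
  · simp
  · intro j _ hj
    rw [if_neg]
    intro h
    exact hj (Fin.ext h).symm
  · simp

theorem ph_mom_natDegree {q k : ℕ} (y : Fin (k + 1) → ZMod q) :
    (ph (mom q k) y).natDegree ≤ k := by
  refine natDegree_sum_le_of_forall_le _ _ fun i _ => ?_
  exact (natDegree_C_mul_X_pow_le _ _).trans (Nat.lt_succ_iff.1 i.2)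

theorem ph_mom_of_le {q k : ℕ} {g : (ZMod q)[X]} (hg : g.natDegree ≤ k) :
    ph (mom q k) (fun i => g.coeff i) = g := by
  ext j
  by_cases hj : j < k + 1
  · exact ph_mom_coeff (fun i => g.coeff i) ⟨j, hj⟩
  · rw [coeff_eq_zero_of_natDegree_lt (lt_of_le_of_lt (ph_mom_natDegree _) (by omega)),
      coeff_eq_zero_of_natDegree_lt (lt_of_le_of_lt hg (by omega))]

theorem lev_mono {q p n n' : ℕ} {a a' : ℤ} {g : (ZMod q)[X]} (h : Lev p n a g) (hn : n ≤ n')
    (ha : (p : ℤ) ^ n ∣ a' - a) : Lev p n' a' g ∧ g.eval (a' : ZMod q) = g.eval (a : ZMod q) := by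
  obtain ⟨u, hu⟩ := ha
  obtain ⟨d, rfl⟩ := Nat.exists_eq_add_of_le hn
  have ha' : (a' : ZMod q) = a + (p : ZMod q) ^ n * u := by
    have : a' = a + (p : ℤ) ^ n * u := by linarith
    rw [this]
    push_cast
    ring
  have h1 : g.eval (a' : ZMod q) = g.eval (a : ZMod q) := by
    have := congrArg (eval (u : ZMod q)) h
    simpa [eval_comp, ha'] using this
  refine ⟨?_, h1⟩
  have h2 := congrArg (fun r => r.comp (C (u : ZMod q) + C ((p : ZMod q) ^ d) * X)) h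
  simp only [comp_assoc, C_comp, add_comp, mul_comp, X_comp] at h2
  unfold Lev
  rw [h1, ← h2, ha']
  congr 1
  simp only [C_add, C_mul, pow_add]
  ring

theorem basic_comp {q : ℕ} (g : (ZMod q)[X]) (a c : ZMod q) (j : ℕ) :
    (g.comp (C a + C c * X)).coeff j = c ^ j * (taylor a g).coeff j := by
  have : g.comp (C a + C c * X) = (taylor a g).comp (C c * X) := by
    rw [taylor_apply, comp_assoc]
    congr 1
    simp only [add_comp, X_comp, C_comp]
    ring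
  rw [this, comp_C_mul_X_coeff, mul_comm]

theorem lev_iff {q p n : ℕ} {a : ℤ} {g : (ZMod q)[X]} :
    Lev p n a g ↔ ∀ j, 1 ≤ j → (p : ZMod q) ^ (j * n) * (taylor (a : ZMod q) g).coeff j = 0 := by
  unfold Lev
  constructor
  · intro h j hj
    have := congrArg (fun r => r.coeff j) h
    simp only [basic_comp] at this
    rw [coeff_C, if_neg (by omega), ← pow_mul, mul_comm n j] at this
    exact this
  · intro h
    ext j
    rw [basic_comp, coeff_C]
    split_ifs with hj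
    · subst hj
      simp [taylor_coeff_zero]
    · rw [← pow_mul, mul_comm n j]
      exact h j (by omega)

theorem lev_add {q p n : ℕ} {a : ℤ} {g h : (ZMod q)[X]} (hg : Lev p n a g) (hh : Lev p n a h) :
    Lev p n a (g + h) := by
  unfold Lev at *
  rw [add_comp, hg, hh, eval_add, C_add]

theorem lev_sub {q p n : ℕ} {a : ℤ} {g h : (ZMod q)[X]} (hg : Lev p n a g) (hh : Lev p n a h) :
    Lev p n a (g - h) := by
  unfold Lev at *
  rw [sub_comp, hg, hh, eval_sub, C_sub]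

theorem equi_mono {q l p n n' : ℕ} [NeZero q] {φ : Fin l → (ZMod q)[X]} {a a' : ℤ}
    {f : (Fin l → ZMod q) → ℂ} (h : Equi φ p n' a' f) (hn : n ≤ n') (ha : (p : ℤ) ^ n ∣ a' - a) :
    Equi φ p n a f := by
  intro y hy x
  obtain ⟨h1, h2⟩ := lev_mono hy hn ha
  rw [h y h1 x, h2]

theorem equi_sum {q l p n : ℕ} [NeZero q] {φ : Fin l → (ZMod q)[X]} {a : ℤ} {ι : Type}
    (s : Finset ι) {f : ι → (Fin l → ZMod q) → ℂ} (h : ∀ i ∈ s, Equi φ p n a (f i)) :
    Equi φ p n a (∑ i ∈ s, f i) := by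
  intro y hy x
  simp only [Finset.sum_apply, mul_sum]
  exact sum_congr rfl fun i hi => h i hi y hy x

theorem group (p n : ℕ) (S : Finset ℤ) : ∃ (T : Finset ℤ) (π : ℤ → ℤ), T ⊆ S ∧ Sep p n T ∧
    ∀ a ∈ S, π a ∈ T ∧ (p : ℤ) ^ n ∣ a - π a := by
  classical
  let σ : ℤ → ℤ := fun r => if h : ∃ b ∈ S, b % (p : ℤ) ^ n = r then h.choose else 0
  have hσ : ∀ a ∈ S, σ (a % (p : ℤ) ^ n) ∈ S ∧
      σ (a % (p : ℤ) ^ n) % (p : ℤ) ^ n = a % (p : ℤ) ^ n := by
    intro a ha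
    have h : ∃ b ∈ S, b % (p : ℤ) ^ n = a % (p : ℤ) ^ n := ⟨a, ha, rfl⟩
    simp only [σ, dif_pos h]
    exact h.choose_spec
  refine ⟨S.image fun a => σ (a % (p : ℤ) ^ n), fun a => σ (a % (p : ℤ) ^ n), ?_, ?_, ?_⟩
  · intro b hb
    obtain ⟨a, ha, rfl⟩ := mem_image.1 hb
    exact (hσ a ha).1
  · intro b hb c hc hbc
    obtain ⟨a, ha, rfl⟩ := mem_image.1 hb
    obtain ⟨a', ha', rfl⟩ := mem_image.1 hc
    have h2 : σ (a % (p : ℤ) ^ n) % (p : ℤ) ^ n = σ (a' % (p : ℤ) ^ n) % (p : ℤ) ^ n :=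
      (Int.emod_eq_emod_iff_emod_sub_eq_zero.2 (Int.emod_eq_zero_of_dvd hbc))
    rw [(hσ a ha).2, (hσ a' ha').2] at h2
    rw [h2]
  · intro a ha
    refine ⟨mem_image_of_mem _ ha, ?_⟩
    exact Int.dvd_of_emod_eq_zero (Int.emod_eq_emod_iff_emod_sub_eq_zero.1 (hσ a ha).2.symm)

theorem sep_card {p n : ℕ} (hp : 1 ≤ p) {S : Finset ℤ} (h : Sep p n S) : #S ≤ p ^ n := by
  have : NeZero (p ^ n) := ⟨pow_ne_zero _ (by omega)⟩
  have h1 : #S ≤ #(univ : Finset (ZMod (p ^ n))) := by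
    refine card_le_card_of_injOn (fun a : ℤ => (a : ZMod (p ^ n))) (fun _ _ => mem_coe.2 (mem_univ _)) ?_
    intro a ha b hb hab
    refine h a ha b hb ?_
    have := (ZMod.intCast_eq_intCast_iff_dvd_sub b a (p ^ n)).1 hab.symm
    simpa using this
  simpa using h1

theorem Sep.subset {p n : ℕ} {S T : Finset ℤ} (h : Sep p n S) (hT : T ⊆ S) : Sep p n T :=
  fun a ha b hb hab => h a (hT ha) b (hT hb) hab

theorem dec_mono {q l p n K : ℕ} [NeZero q] {φ : Fin l → (ZMod q)[X]} {U U' : ℤ → Prop}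
    {A A' : ℝ} (h : Dec φ p n K U A) (hU : ∀ a, U' a → U a) (hA : A ≤ A') : Dec φ p n K U' A' := by
  intro S f hS hSU hf
  refine (h S f hS (fun a ha => hU a (hSU a ha)) hf).trans ?_
  exact mul_le_mul_of_nonneg_right hA (sum_nonneg fun a _ => nu_nonneg _ _)

theorem dec_triv {q l p K : ℕ} [NeZero q] (φ : Fin l → (ZMod q)[X]) (hp : 1 ≤ p) (hK : 1 ≤ K)
    (n : ℕ) (U : ℤ → Prop) : Dec φ p n K U ((p : ℝ) ^ n) := by
  intro S f hS _ _
  refine (nu_sum_le_card hK S f).trans ?_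
  refine mul_le_mul_of_nonneg_right ?_ (sum_nonneg fun a _ => nu_nonneg _ _)
  exact_mod_cast sep_card hp hS

theorem two_stage {q l p n n1 K : ℕ} [NeZero q] {φ : Fin l → (ZMod q)[X]} {U : ℤ → Prop}
    {A1 A2 : ℝ} (hn : n1 ≤ n) (hA1 : 0 ≤ A1) (h1 : Dec φ p n1 K U A1)
    (h2 : ∀ a0, U a0 → Dec φ p n K (fun a => (p : ℤ) ^ n1 ∣ a - a0) A2) :
    Dec φ p n K U (A1 * A2) := by
  classical
  intro S f hS hU hf
  obtain ⟨T, π, hTS, hT, hπ⟩ := group p n1 S
  have hmap : ∀ a ∈ S, π a ∈ T := fun a ha => (hπ a ha).1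
  have hd : ∀ t, ∀ a ∈ S.filter (fun a => π a = t), (p : ℤ) ^ n1 ∣ a - t := by
    intro t a ha
    obtain ⟨ha1, ha2⟩ := mem_filter.1 ha
    rw [← ha2]
    exact (hπ a ha1).2
  have e1 := h1 T (fun t => ∑ a ∈ S.filter (fun a => π a = t), f a) hT
    (fun t ht => hU t (hTS ht))
    (fun t _ => equi_sum _ fun a ha => equi_mono (hf a (mem_filter.1 ha).1) hn (hd t a ha))
  rw [sum_fiberwise_of_maps_to hmap] at e1
  refine e1.trans ?_
  rw [mul_assoc]
  refine mul_le_mul_of_nonneg_left ?_ hA1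
  rw [← sum_fiberwise_of_maps_to hmap (fun a => nu K (f a)), mul_sum]
  refine sum_le_sum fun t ht => ?_
  exact h2 t (hU t (hTS ht)) _ f (hS.subset (filter_subset _ _)) (hd t)
    (fun a ha => hf a (mem_filter.1 ha).1)

theorem zmod_pow {p N q s : ℕ} (hp : 1 ≤ p) (hq : q = p ^ N) (hs : s ≤ N) {w : ZMod q}
    (h : (p : ZMod q) ^ s * w = 0) : ∃ v, w = (p : ZMod q) ^ (N - s) * v := by
  have : NeZero q := ⟨by rw [hq]; exact pow_ne_zero _ (by omega)⟩
  obtain ⟨m, rfl⟩ := ZMod.natCast_zmod_surjective w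
  have h1 : ((p ^ s * m : ℕ) : ZMod q) = 0 := by
    push_cast
    exact h
  rw [ZMod.natCast_eq_zero_iff, hq] at h1
  obtain ⟨d, rfl⟩ := Nat.exists_eq_add_of_le hs
  rw [pow_add] at h1
  obtain ⟨v, hv⟩ := Nat.dvd_of_mul_dvd_mul_left (pow_pos (by omega) s) h1
  refine ⟨v, ?_⟩
  rw [hv, Nat.add_sub_cancel_left]
  push_cast
  rfl

theorem isUnit_of_not_dvd {p N q : ℕ} (hp : p.Prime) (hq : q = p ^ N) {u : ℤ}
    (h : ¬ (p : ℤ) ∣ u) : IsUnit (u : ZMod q) := by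
  have h1 : IsCoprime u ((p : ℤ) ^ N) :=
    (((Nat.prime_iff_prime_int.1 hp).irreducible.coprime_iff_not_dvd.2 h).symm).pow_right
  obtain ⟨a, b, hab⟩ := h1
  have h2 := congrArg (fun z : ℤ => (z : ZMod q)) hab
  have h3 : ((p : ZMod q)) ^ N = 0 := by
    have : ((p ^ N : ℕ) : ZMod q) = 0 := by rw [← hq]; exact ZMod.natCast_self q
    exact_mod_cast this
  simp only [Int.cast_add, Int.cast_mul, Int.cast_pow, Int.cast_natCast, h3, mul_zero, add_zero,
    Int.cast_one] at h2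
  exact IsUnit.of_mul_eq_one_right _ h2

theorem dm_mono {p k n : ℕ} {A A' : ℝ} (h : DM p k n A) (hA : A ≤ A') : DM p k n A' :=
  fun N q _ hq hN => dec_mono (h N q hq hN) (fun _ h => h) hA

theorem dg_mono {p k n : ℕ} {A A' : ℝ} (h : DG p k n A) (hA : A ≤ A') : DG p k n A' :=
  fun N q _ hq hN φ h1 => dec_mono (h N q hq hN φ h1) (fun _ h => h) hA

theorem bil_mono {p k l a b n : ℕ} {A A' : ℝ} (h : Bil p k l a b n A) (hA : A ≤ A') :
    Bil p k l a b n A' := by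
  intro N q _ hq hN S S' f f' α β h1 h2 h3 h4 h5 h6 h7
  refine (h N q hq hN S S' f f' α β h1 h2 h3 h4 h5 h6 h7).trans ?_
  have e1 : 0 ≤ ∑ x ∈ S, nu (tri k) (f x) := sum_nonneg fun a _ => nu_nonneg _ _
  have e2 : 0 ≤ ∑ x ∈ S', nu (tri k) (f' x) := sum_nonneg fun a _ => nu_nonneg _ _
  gcongr

end Pool.Agent.MP_927be3_nt.W

end PartBasic

section PartTransfer

open Finset Polynomial

namespace Pool.Agent.MP_927be3_nt.W

open Classical in
theorem transfer_aux {Y Y' : Type} [AddCommGroup Y] [Fintype Y] [AddCommGroup Y'] [Fintype Y']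
    (ρ : Y →+ Y') {K : ℕ} (hK : 1 ≤ K) (F : Y → ℂ) (G : Y' → ℂ) (h1 : ∀ x, G (ρ x) = F x)
    (h2 : ∀ z, (¬ ∃ y, ρ y = z) → G z = 0) :
    nu K F = (#{y | ρ y = 0} : ℝ) ^ ((1 : ℝ) / K) * nu K G := by
  rw [nu, nu, ← Real.mul_rpow (Nat.cast_nonneg _) (sum_nonneg fun _ _ => by positivity), mul_sum,
    ← sum_fiberwise (s := univ) (g := ρ)]
  congr 1
  refine sum_congr rfl fun z _ => ?_
  rw [sum_congr rfl (g := fun _ => ‖G z‖ ^ (2 * K)) fun x hx => by
    rw [← h1, (mem_filter.1 hx).2], sum_const, nsmul_eq_mul]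
  by_cases hz : ∃ y, ρ y = z
  · rw [AddMonoidHom.card_fiber_eq_of_mem_range ρ (x := z) (y := 0) hz ⟨0, map_zero ρ⟩]
  · rw [h2 z hz, norm_zero, zero_pow (by omega), mul_zero, mul_zero]

theorem transfer {Y Y' : Type} [AddCommGroup Y] [Fintype Y] [AddCommGroup Y'] [Fintype Y']
    (ρ : Y →+ Y') {K : ℕ} (hK : 1 ≤ K) (S : Finset ℤ) (f : ℤ → Y → ℂ)
    (hker : ∀ a ∈ S, ∀ y, ρ y = 0 → ∀ x, f a (x + y) = f a x) :
    ∃ (g : ℤ → Y' → ℂ) (κ : ℝ), 0 < κ ∧ (∀ a ∈ S, nu K (f a) = κ * nu K (g a)) ∧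
      nu K (∑ a ∈ S, f a) = κ * nu K (∑ a ∈ S, g a) ∧
      ∀ a ∈ S, ∀ (y : Y) (c : ℂ), (∀ x, f a (x + y) = c * f a x) →
        ∀ z, g a (z + ρ y) = c * g a z := by
  classical
  let g : ℤ → Y' → ℂ := fun a z => if h : ∃ y, ρ y = z then f a h.choose else 0
  have h1 : ∀ a ∈ S, ∀ x, g a (ρ x) = f a x := by
    intro a ha x
    have h : ∃ y, ρ y = ρ x := ⟨x, rfl⟩
    have := hker a ha (h.choose - x) (by rw [map_sub, h.choose_spec, sub_self]) x
    rw [add_sub_cancel] at this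
    simp only [g, dif_pos h, this]
  have h2 : ∀ a z, (¬ ∃ y, ρ y = z) → g a z = 0 := fun a z h => dif_neg h
  refine ⟨g, _, Real.rpow_pos_of_pos (Nat.cast_pos.2 (card_pos.2 ⟨0, by simp⟩)) _,
    fun a ha => transfer_aux ρ hK _ _ (h1 a ha) (h2 a), transfer_aux ρ hK _ _ (fun x => ?_)
      fun z hz => ?_, fun a ha y c hc z => ?_⟩
  · rw [Finset.sum_apply, Finset.sum_apply]
    exact sum_congr rfl fun a ha => h1 a ha x
  · rw [Finset.sum_apply]
    exact sum_eq_zero fun a _ => h2 a z hz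
  · by_cases hz : ∃ x, ρ x = z
    · obtain ⟨x, rfl⟩ := hz
      rw [← map_add, h1 a ha, h1 a ha, hc]
    · rw [h2 a z hz, h2 a _ fun ⟨x, hx⟩ => hz ⟨x - y, by rw [map_sub, hx, add_sub_cancel_right]⟩,
        mul_zero]

open Classical in
theorem transfer_avg {Y W : Type} [AddCommGroup Y] [Fintype Y] [AddCommGroup W] [Fintype W]
    (ι : W →+ Y) (W0 : AddSubgroup W) {K : ℕ} (hK : 1 ≤ K) (g : Y → ℝ)
    (hg : ∀ w ∈ W0, ∀ x, g (x + ι w) = g x) (G : Y → ℂ) :
    ∑ x, g x / (#{w | w ∈ W0} : ℝ) * nu K (fun w => if w ∈ W0 then G (x + ι w) else 0) ^ K =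
      ∑ x, g x * ‖G x‖ ^ (2 * K) := by
  have hc : (#{w | w ∈ W0} : ℝ) ≠ 0 := (Nat.cast_pos.2 (card_pos.2 ⟨0, by simp⟩)).ne'
  have e : ∀ x, g x / (#{w | w ∈ W0} : ℝ) *
      nu K (fun w => if w ∈ W0 then G (x + ι w) else 0) ^ K =
      ∑ w with w ∈ W0, g (x + ι w) * ‖G (x + ι w)‖ ^ (2 * K) / (#{w | w ∈ W0} : ℝ) := by
    intro x
    rw [nu_pow hK, mul_sum, sum_filter]
    refine sum_congr rfl fun w _ => ?_
    split_ifs with hw
    · rw [hg w hw]; ring
    · rw [norm_zero, zero_pow (by omega), mul_zero]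
  have e' : ∀ w, ∑ x, g (x + ι w) * ‖G (x + ι w)‖ ^ (2 * K) / (#{w | w ∈ W0} : ℝ) =
      ∑ x, g x * ‖G x‖ ^ (2 * K) / (#{w | w ∈ W0} : ℝ) := fun w => Equiv.sum_comp
    (Equiv.addRight (ι w)) fun x => g x * ‖G x‖ ^ (2 * K) / (#{w | w ∈ W0} : ℝ)
  rw [sum_congr rfl fun x _ => e x, sum_comm, sum_congr rfl fun w _ => e' w, sum_const,
    nsmul_eq_mul, ← sum_div, mul_div_cancel₀ _ hc]

open Classical in
theorem weighted {Y W : Type} [AddCommGroup Y] [Fintype Y] [AddCommGroup W] [Fintype W]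
    (ι : W →+ Y) (W0 : AddSubgroup W) {K : ℕ} (hK : 1 ≤ K) (g : Y → ℝ) (hg0 : ∀ x, 0 ≤ g x)
    (hg : ∀ w ∈ W0, ∀ x, g (x + ι w) = g x) (T : Finset ℤ) (F : ℤ → Y → ℂ) {A : ℝ} (hA : 0 ≤ A)
    (hdec : ∀ x, nu K (∑ t ∈ T, fun w => if w ∈ W0 then F t (x + ι w) else 0) ≤
      A * ∑ t ∈ T, nu K (fun w => if w ∈ W0 then F t (x + ι w) else 0)) :
    ∑ x, g x * ‖(∑ t ∈ T, F t) x‖ ^ (2 * K) ≤
      (A * ∑ t ∈ T, (∑ x, g x * ‖F t x‖ ^ (2 * K)) ^ ((1 : ℝ) / K)) ^ K := by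
  have hK0 : K ≠ 0 := by omega
  set c : ℝ := ((#{w | w ∈ W0} : ℕ) : ℝ) with hc
  have h0 : ∀ x, 0 ≤ g x / c := fun x => div_nonneg (hg0 x) (Nat.cast_nonneg _)
  have hr : ∀ x, ((g x / c) ^ ((1 : ℝ) / K)) ^ K = g x / c := fun x => by
    rw [one_div, Real.rpow_inv_natCast_pow (h0 x) hK0]
  let h : ℤ → Y → ℝ := fun t x => (g x / c) ^ ((1 : ℝ) / K) *
    nu K (fun w => if w ∈ W0 then F t (x + ι w) else 0)
  have hh : ∀ t x, 0 ≤ h t x := fun t x =>
    mul_nonneg (Real.rpow_nonneg (h0 x) _) (nu_nonneg _ _)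
  have hs : ∀ x, 0 ≤ ∑ t ∈ T, h t x := fun x => sum_nonneg fun t _ => hh t x
  have e1 : ∀ t, lp K (h t) = (∑ x, g x * ‖F t x‖ ^ (2 * K)) ^ ((1 : ℝ) / K) := fun t => by
    rw [lp, ← transfer_avg ι W0 hK g hg (F t)]
    simp only [h, mul_pow, hr, ← hc]
  rw [← transfer_avg ι W0 hK g hg, ← sum_congr rfl fun t _ => e1 t]
  calc _ ≤ ∑ x, A ^ K * (∑ t ∈ T, h t x) ^ K := by
        refine sum_le_sum fun x _ => ?_
        have e2 : (fun w => if w ∈ W0 then (∑ t ∈ T, F t) (x + ι w) else 0) =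
            ∑ t ∈ T, fun w => if w ∈ W0 then F t (x + ι w) else 0 := by
          funext w
          rw [Finset.sum_apply, Finset.sum_apply]
          split_ifs <;> simp
        rw [e2, ← mul_sum, mul_pow, hr, mul_left_comm, ← mul_pow]
        exact mul_le_mul_of_nonneg_left (pow_le_pow_left₀ (nu_nonneg _ _) (hdec x) K) (h0 x)
    _ = (A * lp K fun x => ∑ t ∈ T, h t x) ^ K := by rw [mul_pow, lp_pow hK hs, mul_sum]
    _ ≤ _ := pow_le_pow_left₀ (mul_nonneg hA (lp_nonneg K hs))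
        (mul_le_mul_of_nonneg_left (lp_sum hK T fun t _ => hh t) hA) K

end Pool.Agent.MP_927be3_nt.W

end PartTransfer

section PartRescale

open Finset Polynomial

namespace Pool.Agent.MP_927be3_nt.W

/-- the affine change of variable on coefficient vectors -/
noncomputable def rescaleRho (q k : ℕ) (a c : ZMod q) :
    (Fin (k + 1) → ZMod q) →+ (Fin (k + 1) → ZMod q) where
  toFun y := fun i => ((ph (mom q k) y).comp (C a + C c * X)).coeff i
  map_zero' := by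
    funext i
    simp [ph]
  map_add' w w' := by
    funext i
    simp [ph_add]

theorem rescale_ph (q k : ℕ) (a c : ZMod q) (y : Fin (k + 1) → ZMod q) :
    ph (mom q k) (rescaleRho q k a c y) = (ph (mom q k) y).comp (C a + C c * X) := by
  refine ph_mom_of_le (natDegree_comp_le.trans ?_)
  have h1 : (C a + C c * X : (ZMod q)[X]).natDegree ≤ 1 := by
    rw [add_comm]
    exact natDegree_linear_le
  simpa using Nat.mul_le_mul (ph_mom_natDegree y) h1

theorem rescale_lift {p k n n0 N q : ℕ} (hp : 1 ≤ p) (hq : q = p ^ N)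
    (hN : k * n ≤ N) (hn : n0 ≤ n) (a0 a' : ℤ) (w : Fin (k + 1) → ZMod q)
    (hw : Lev p (n - n0) a' (ph (mom q k) w)) :
    ∃ y, rescaleRho q k a0 ((p : ZMod q) ^ n0) y = w ∧
      Lev p n (a0 + (p : ℤ) ^ n0 * a') (ph (mom q k) y) ∧
      (ph (mom q k) y).eval ((a0 + (p : ℤ) ^ n0 * a' : ℤ) : ZMod q) =
        (ph (mom q k) w).eval (a' : ZMod q) := by
  obtain ⟨d, rfl⟩ := Nat.exists_eq_add_of_le hn
  rw [Nat.add_sub_cancel_left, lev_iff] at hw
  set W := ph (mom q k) w with hW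
  have hv : ∀ i : Fin (k + 1), ∃ v : ZMod q,
      (taylor (a' : ZMod q) W).coeff i = (p : ZMod q) ^ ((i : ℕ) * n0) * v := by
    intro i
    rcases Nat.eq_zero_or_pos (i : ℕ) with h0 | h0
    · exact ⟨_, by rw [h0, zero_mul, pow_zero, one_mul]⟩
    · have hi : (i : ℕ) * (n0 + d) ≤ N :=
        (Nat.mul_le_mul_right _ (Nat.lt_succ_iff.1 i.2)).trans hN
      rw [mul_add] at hi
      obtain ⟨v, hv⟩ := zmod_pow hp hq (by omega) (hw i h0)
      obtain ⟨e, he⟩ := Nat.exists_eq_add_of_le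
        (show (i : ℕ) * n0 ≤ N - (i : ℕ) * d by omega)
      exact ⟨(p : ZMod q) ^ e * v, by rw [hv, he, pow_add, mul_assoc]⟩
  choose v hv using hv
  set V := ph (mom q k) v with hV
  have hVd : V.natDegree ≤ k := ph_mom_natDegree v
  have hc : ∀ j, (taylor (a' : ZMod q) W).coeff j = (p : ZMod q) ^ (j * n0) * V.coeff j := by
    intro j
    by_cases hj : j < k + 1
    · have := ph_mom_coeff v ⟨j, hj⟩
      rw [show V.coeff j = v ⟨j, hj⟩ from this]
      exact hv ⟨j, hj⟩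
    · rw [coeff_eq_zero_of_natDegree_lt (lt_of_le_of_lt hVd (by omega)), mul_zero]
      refine coeff_eq_zero_of_natDegree_lt ?_
      rw [natDegree_taylor]
      exact lt_of_le_of_lt (ph_mom_natDegree w) (by omega)
  set a : ZMod q := ((a0 + (p : ℤ) ^ n0 * a' : ℤ) : ZMod q) with ha
  have ha' : a = a0 + (p : ZMod q) ^ n0 * a' := by
    rw [ha]
    push_cast
    rfl
  have hG : ph (mom q k) (fun i => (taylor (-a) V).coeff i) = taylor (-a) V :=
    ph_mom_of_le (by rw [natDegree_taylor]; exact hVd)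
  have hT : taylor a (taylor (-a) V) = V := by
    rw [taylor_taylor, add_neg_cancel, taylor_zero]
  refine ⟨fun i => (taylor (-a) V).coeff i, ?_, ?_, ?_⟩
  · have e1 : V.comp (C ((p : ZMod q) ^ n0) * X) = taylor (a' : ZMod q) W := by
      ext j
      rw [comp_C_mul_X_coeff, hc, ← pow_mul, mul_comm, mul_comm n0]
    have e2 : (taylor (-a) V).comp (C (a0 : ZMod q) + C ((p : ZMod q) ^ n0) * X) =
        taylor (-(a' : ZMod q)) (V.comp (C ((p : ZMod q) ^ n0) * X)) := by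
      rw [taylor_apply, taylor_apply, comp_assoc, comp_assoc]
      congr 1
      simp only [add_comp, mul_comp, X_comp, C_comp, ha', C_neg, C_add, C_mul, neg_comp]
      ring
    rw [e1, taylor_taylor, neg_add_cancel, taylor_zero] at e2
    funext i
    show ((ph (mom q k) _).comp _).coeff i = _
    rw [hG, e2]
    exact ph_mom_coeff w i
  · rw [lev_iff, hG]
    intro j hj
    rw [← ha, hT, mul_add, pow_add, mul_comm ((p : ZMod q) ^ (j * n0)), mul_assoc, ← hc]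
    exact hw j hj
  · rw [hG, ← taylor_coeff_zero, ← taylor_coeff_zero, hT, hc, zero_mul, pow_zero, one_mul]

theorem rescale {p k n n0 N q : ℕ} [NeZero q] (hp : 1 ≤ p) (hk : 1 ≤ k) (hq : q = p ^ N)
    (hN : k * n ≤ N) (hn : n0 ≤ n) {A : ℝ} (h : DM p k (n - n0) A) (a0 : ℤ) :
    Dec (mom q k) p n (tri k) (fun a => (p : ℤ) ^ n0 ∣ a - a0) A := by
  classical
  intro S f hS hU hf
  obtain ⟨g, κ, hκ, h1, h2, h3⟩ := transfer (rescaleRho q k a0 ((p : ZMod q) ^ n0))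
    (tri_pos hk) S f (by
      intro a ha y hy x
      have e1 := rescale_ph q k a0 ((p : ZMod q) ^ n0) y
      rw [hy] at e1
      have e0 : ph (mom q k) 0 = 0 := by simp [ph]
      rw [e0] at e1
      have e2 : (ph (mom q k) y).eval (a0 : ZMod q) = 0 := by
        have := congrArg (eval 0) e1
        simpa [eval_comp] using this.symm
      have e3 : Lev p n0 a0 (ph (mom q k) y) := by
        unfold Lev
        rw [← e1, e2, C_0]
      obtain ⟨e4, e5⟩ := lev_mono e3 hn (hU a ha)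
      rw [hf a ha y e4 x, e5, e2, ch_zero, one_mul])
  have hp0 : (p : ℤ) ^ n0 ≠ 0 := pow_ne_zero _ (by exact_mod_cast (by omega : p ≠ 0))
  have hσ : ∀ a ∈ S, a0 + (p : ℤ) ^ n0 * ((a - a0) / (p : ℤ) ^ n0) = a := by
    intro a ha
    rw [Int.mul_ediv_cancel' (hU a ha)]
    ring
  have hinj : Set.InjOn (fun a => (a - a0) / (p : ℤ) ^ n0) S := by
    intro a ha b hb hab
    rw [← hσ a ha, ← hσ b hb]
    simp only at hab
    rw [hab]
  have e := h N q hq ((Nat.mul_le_mul_left _ (Nat.sub_le _ _)).trans hN)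
    (S.image fun a => (a - a0) / (p : ℤ) ^ n0) (fun a' => g (a0 + (p : ℤ) ^ n0 * a'))
    (by
      intro b hb c hc hbc
      obtain ⟨a, ha, rfl⟩ := mem_image.1 hb
      obtain ⟨a', ha', rfl⟩ := mem_image.1 hc
      have : a = a' := by
        refine hS a ha a' ha' ?_
        have e1 : a - a' = (p : ℤ) ^ n0 *
            ((a - a0) / (p : ℤ) ^ n0 - (a' - a0) / (p : ℤ) ^ n0) := by
          linear_combination hσ a' ha' - hσ a ha
        rw [e1, ← Nat.add_sub_cancel' hn, pow_add]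
        exact mul_dvd_mul_left _ hbc
      rw [this])
    (fun _ _ => trivial)
    (by
      intro b hb w hw z
      obtain ⟨a, ha, rfl⟩ := mem_image.1 hb
      obtain ⟨y, e1, e2, e3⟩ := rescale_lift hp hq hN hn a0 _ w hw
      rw [hσ a ha] at e2 e3
      rw [hσ a ha, ← e3]
      nth_rewrite 1 [← e1]
      exact h3 a ha y _ (hf a ha y e2) z)
  rw [sum_image hinj, sum_image hinj] at e
  rw [sum_congr rfl fun a ha => congrArg g (hσ a ha),
    sum_congr rfl fun a ha => congrArg (fun b => nu (tri k) (g b)) (hσ a ha)] at e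
  rw [h2, sum_congr rfl h1, ← mul_sum, mul_left_comm]
  exact mul_le_mul_of_nonneg_left e hκ.le

theorem dm_one {p : ℕ} (hp : 1 ≤ p) (n : ℕ) : DM p 1 n 1 := by
  classical
  intro N q _ hq hN S f hS _ hf
  rw [one_mul] at hN
  obtain ⟨d, rfl⟩ := Nat.exists_eq_add_of_le hN
  have hpN : (p : ZMod q) ^ (n + d) = 0 := by
    have : ((p ^ (n + d) : ℕ) : ZMod q) = 0 := by rw [← hq]; exact ZMod.natCast_self q
    exact_mod_cast this
  set y : Fin 2 → ZMod q := ![0, (p : ZMod q) ^ d] with hy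
  have hph : ph (mom q 1) y = C ((p : ZMod q) ^ d) * X := by
    simp [ph, mom, hy, Fin.sum_univ_two]
  have hlev : ∀ a : ℤ, Lev p n a (ph (mom q 1) y) := by
    intro a
    unfold Lev
    rw [hph]
    simp only [mul_comp, C_comp, X_comp, eval_mul, eval_C, eval_X, C_mul]
    have : C ((p : ZMod q) ^ d) * C ((p : ZMod q) ^ n) = 0 := by
      rw [← C_mul, ← pow_add, add_comm d n, hpN, C_0]
    linear_combination X * this
  have horth : ∀ a ∈ S, ∀ b ∈ S, a ≠ b → ∑ x, f a x * (starRingEnd ℂ) (f b x) = 0 := by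
    intro a ha b hb hab
    have e1 : ∑ x, f a x * (starRingEnd ℂ) (f b x) =
        ch ((p : ZMod q) ^ d * (a : ZMod q) - (p : ZMod q) ^ d * (b : ZMod q)) *
          ∑ x, f a x * (starRingEnd ℂ) (f b x) := by
      rw [mul_sum, ← Equiv.sum_comp (Equiv.addRight y)]
      refine sum_congr rfl fun x _ => ?_
      rw [Equiv.coe_addRight, hf a ha y (hlev a), hf b hb y (hlev b), hph, ch_sub, map_mul]
      simp only [eval_mul, eval_C, eval_X]
      ring
    by_contra h0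
    have e2 : ch ((p : ZMod q) ^ d * (a : ZMod q) - (p : ZMod q) ^ d * (b : ZMod q)) = ch (0 : ZMod q) := by
      rw [ch_zero]
      exact (mul_right_cancel₀ h0 (by rw [one_mul]; exact e1)).symm
    have e3 : (((p : ℤ) ^ d * (a - b) : ℤ) : ZMod q) = 0 := by
      push_cast
      rw [mul_sub]
      exact ch_inj e2
    rw [ZMod.intCast_zmod_eq_zero_iff_dvd, hq] at e3
    push_cast at e3
    rw [add_comm, pow_add] at e3
    exact hab (hS a ha b hb (Int.dvd_of_mul_dvd_mul_left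
      (pow_ne_zero _ (by exact_mod_cast (by omega : p ≠ 0))) e3))
  have hnu : ∀ g : (Fin (1 + 1) → ZMod q) → ℂ,
      (nu (tri 1) g : ℂ) = ∑ x, g x * (starRingEnd ℂ) (g x) := by
    intro g
    simp only [nu, tri_one, Nat.cast_one, div_one, Real.rpow_one, mul_one, Complex.mul_conj,
      Complex.normSq_eq_norm_sq]
    push_cast
    rfl
  refine le_of_eq ?_
  rw [one_mul]
  apply Complex.ofReal_injective
  push_cast
  simp only [hnu, Finset.sum_apply, map_sum, sum_mul_sum]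
  rw [sum_comm]
  refine sum_congr rfl fun a ha => ?_
  rw [sum_comm, sum_eq_single_of_mem a ha]
  exact fun b hb hba => horth a ha b hb (Ne.symm hba)

end Pool.Agent.MP_927be3_nt.W

end PartRescale

section PartGeneral

open Finset Polynomial

namespace Pool.Agent.MP_927be3_nt.W

theorem general_deg {q : ℕ} (l : ℕ) (a : ZMod q) (g : (ZMod q)[X]) :
    (g %ₘ (X - C a) ^ (l + 1)).natDegree ≤ l := by
  rcases subsingleton_or_nontrivial (ZMod q) with h | h
  · rw [Subsingleton.elim (g %ₘ (X - C a) ^ (l + 1)) 0]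
    simp
  · have hm : ((X - C a) ^ (l + 1)).Monic := (monic_X_sub_C a).pow _
    have hd : ((X - C a) ^ (l + 1)).natDegree = l + 1 := by
      rw [(monic_X_sub_C a).natDegree_pow, natDegree_X_sub_C, mul_one]
    have := natDegree_modByMonic_lt g hm (by
      intro h1
      rw [h1, natDegree_one] at hd
      omega)
    omega

/-- the coefficients of the remainder -/
noncomputable def generalRho {q l : ℕ} (φ : Fin (l + 1) → (ZMod q)[X]) (a : ZMod q) :
    (Fin (l + 1) → ZMod q) →+ (Fin (l + 1) → ZMod q) where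
  toFun y := fun i => (ph φ y %ₘ (X - C a) ^ (l + 1)).coeff i
  map_zero' := by
    funext i
    simp [ph]
  map_add' w w' := by
    funext i
    simp [ph_add, add_modByMonic]

theorem general_ph {q l : ℕ} (φ : Fin (l + 1) → (ZMod q)[X]) (a : ZMod q)
    (y : Fin (l + 1) → ZMod q) :
    ph (mom q l) (generalRho φ a y) = ph φ y %ₘ (X - C a) ^ (l + 1) :=
  ph_mom_of_le (general_deg l a _)

theorem general_kill {q p n l : ℕ} {a : ℤ} {W : (ZMod q)[X]} (hW : W.natDegree ≤ l)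
    (h : Lev p n a W) : C ((p : ZMod q) ^ (l * n)) * (W - C (W.eval (a : ZMod q))) = 0 := by
  rw [lev_iff] at h
  apply taylor_injective (a : ZMod q)
  rw [taylor_mul, taylor_C, map_sub, taylor_C, map_zero]
  ext j
  rw [coeff_C_mul, coeff_sub, coeff_zero]
  rcases Nat.eq_zero_or_pos j with rfl | hj
  · rw [taylor_coeff_zero, coeff_C_zero, sub_self, mul_zero]
  · rw [coeff_C_of_ne_zero (by omega), sub_zero]
    by_cases hl : j ≤ l
    · obtain ⟨e, rfl⟩ := Nat.exists_eq_add_of_le hl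
      rw [add_mul, pow_add, mul_comm ((p : ZMod q) ^ (j * n)), mul_assoc, h j hj, mul_zero]
    · rw [coeff_eq_zero_of_natDegree_lt (by rw [natDegree_taylor]; omega), mul_zero]

theorem general_lev {p l n n1 q : ℕ} (hn : n1 ≤ n) (hn1 : l * n ≤ (l + 1) * n1)
    {φ : Fin (l + 1) → (ZMod q)[X]} (h1 : ∃ y, ph φ y = 1) {a0 a : ℤ} (ha : ND φ a0)
    (haa : (p : ℤ) ^ n1 ∣ a - a0) (y : Fin (l + 1) → ZMod q)
    (h : Lev p n a (ph φ y %ₘ (X - C (a0 : ZMod q)) ^ (l + 1))) :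
    Lev p n a (ph φ y) ∧ (ph φ y).eval (a : ZMod q) =
      (ph φ y %ₘ (X - C (a0 : ZMod q)) ^ (l + 1)).eval (a : ZMod q) := by
  obtain ⟨y1, hy1⟩ := h1
  have hm : ((X - C (a0 : ZMod q)) ^ (l + 1)).Monic := (monic_X_sub_C _).pow _
  have hG := modByMonic_add_div (ph φ y) ((X - C (a0 : ZMod q)) ^ (l + 1))
  have hk := general_kill (general_deg l (a0 : ZMod q) (ph φ y)) h
  set W := ph φ y %ₘ (X - C (a0 : ZMod q)) ^ (l + 1) with hW
  set Q := ph φ y /ₘ (X - C (a0 : ZMod q)) ^ (l + 1) with hQ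
  have e1 : ph φ ((p : ZMod q) ^ (l * n) • (y - W.eval (a : ZMod q) • y1)) =
      (X - C (a0 : ZMod q)) ^ (l + 1) * (C ((p : ZMod q) ^ (l * n)) * Q) := by
    rw [ph_smul, ph_sub, ph_smul, hy1, ← hG]
    linear_combination hk
  have e2 : C ((p : ZMod q) ^ (l * n)) * Q = 0 := by
    rw [ha _ ⟨_, e1⟩] at e1
    have e0 : ph φ 0 = 0 := by simp [ph]
    rw [e0] at e1
    exact hm.mul_right_eq_zero_iff.1 e1.symm
  have e3 : ((X - C (a0 : ZMod q)) ^ (l + 1) * Q).eval (a0 : ZMod q) = 0 := by simp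
  have e4 : Lev p n1 a0 ((X - C (a0 : ZMod q)) ^ (l + 1) * Q) := by
    unfold Lev
    obtain ⟨e, he⟩ := Nat.exists_eq_add_of_le hn1
    have e5 := congrArg (fun r => r.comp (C (a0 : ZMod q) + C ((p : ZMod q) ^ n1) * X)) e2
    simp only [mul_comp, C_comp, zero_comp] at e5
    rw [e3, C_0, mul_comp, pow_comp, sub_comp, X_comp, C_comp, add_sub_cancel_left, mul_pow,
      ← C_pow, ← pow_mul, mul_comm n1, he, pow_add, C_mul]
    linear_combination (C ((p : ZMod q) ^ e) * X ^ (l + 1)) * e5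
  obtain ⟨e5, e6⟩ := lev_mono e4 hn haa
  refine ⟨hG ▸ lev_add h e5, ?_⟩
  conv_lhs => rw [← hG]
  rw [eval_add, e6, e3, add_zero]

theorem gen_local {p l n n1 N q : ℕ} [NeZero q] (hp : 1 ≤ p) (hl : 1 ≤ l) (hq : q = p ^ N)
    (hN : l * n ≤ N) (hn : n1 ≤ n) (hn1 : l * n ≤ (l + 1) * n1) {A : ℝ} (h : DM p l (n - n1) A)
    (φ : Fin (l + 1) → (ZMod q)[X]) (h1 : ∃ y, ph φ y = 1) {a0 : ℤ} (ha : ND φ a0) :
    Dec φ p n (tri l) (fun a => (p : ℤ) ^ n1 ∣ a - a0) A := by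
  classical
  intro S f hS hU hf
  have hker : ∀ y, generalRho φ a0 y = 0 → y = 0 := by
    intro y hy
    have e1 := general_ph φ a0 y
    have e0 : ph (mom q l) 0 = 0 := by simp [ph]
    rw [hy, e0] at e1
    exact ha y ((modByMonic_eq_zero_iff_dvd ((monic_X_sub_C _).pow _)).1 e1.symm)
  have hsur : Function.Surjective (generalRho φ a0) :=
    Finite.injective_iff_surjective.1 ((injective_iff_map_eq_zero _).2 hker)
  obtain ⟨g, κ, hκ, h1', h2, h3⟩ := transfer (generalRho φ a0) (tri_pos hl) S f (by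
    intro a _ y hy x
    rw [hker y hy, add_zero])
  have e := rescale hp hl hq hN hn h a0 S g hS hU (by
    intro a haS w hw z
    obtain ⟨y, rfl⟩ := hsur w
    rw [general_ph] at hw ⊢
    obtain ⟨e1, e2⟩ := general_lev hn hn1 h1 ha (hU a haS) y hw
    rw [← e2]
    exact h3 a haS y _ (hf a haS y e1) z)
  rw [h2, sum_congr rfl h1', ← mul_sum, mul_left_comm]
  exact mul_le_mul_of_nonneg_left e hκ.le

theorem sg_gen {p l : ℕ} (hp : 2 ≤ p) (hl : 1 ≤ l) (h : SG p (DM p l)) : SG p (DG p l) := by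
  intro ε hε
  obtain ⟨A0, hA0, h0⟩ := h (ε / 2) (by positivity)
  have hp1 : (1 : ℝ) < p := by exact_mod_cast hp
  have hp0 : (0 : ℝ) < p := by linarith
  obtain ⟨t0, ht0⟩ := pow_unbounded_of_one_lt A0
    (Real.one_lt_rpow hp1 (show 0 < ε / 2 by positivity))
  have ht1 : 1 ≤ t0 := by
    rcases Nat.eq_zero_or_pos t0 with rfl | h1
    · rw [pow_zero] at ht0
      linarith
    · exact h1
  refine ⟨(p : ℝ) ^ ((l + 1) * t0), one_le_pow₀ hp1.le, fun n => ?_⟩
  induction n using Nat.strong_induction_on with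
  | _ n ih =>
    intro N q _ hq hN φ h1
    rcases lt_or_ge n ((l + 1) * t0) with hn | hn
    · refine dec_mono (dec_triv φ (by omega) (tri_pos hl) n (ND φ)) (fun _ h => h) ?_
      exact (pow_le_pow_right₀ hp1.le hn.le).trans (le_mul_of_one_le_right (by positivity)
        (Real.one_le_rpow hp1.le (by positivity)))
    · set t := n / (l + 1) with ht
      have e1 : t0 ≤ t := (Nat.le_div_iff_mul_le (by omega)).2 (by rw [mul_comm]; exact hn)
      have e2 : (l + 1) * t ≤ n := Nat.mul_div_le n (l + 1)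
      have e3 : t ≤ n := Nat.div_le_self _ _
      obtain ⟨n1, hn1⟩ := Nat.exists_eq_add_of_le' e3
      have e4 : n - n1 = t := by omega
      have e5 : l * n ≤ (l + 1) * n1 := by nlinarith
      have e6 := two_stage (n := n) (by omega) (by positivity)
        (ih n1 (by omega) N q hq ((Nat.mul_le_mul_left _ (by omega)).trans hN) φ h1)
        (fun a0 ha => gen_local (by omega) hl hq hN (by omega) e5 (h0 (n - n1)) φ h1 ha)
      refine dec_mono e6 (fun _ h => h) ?_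
      have e7 : A0 ≤ (p : ℝ) ^ (ε / 2 * t) := by
        refine ht0.le.trans ?_
        rw [← Real.rpow_natCast, ← Real.rpow_mul hp0.le]
        refine Real.rpow_le_rpow_of_exponent_le hp1.le ?_
        exact mul_le_mul_of_nonneg_left (by exact_mod_cast e1) (by positivity)
      have e8 : (p : ℝ) ^ (ε * n) =
          (p : ℝ) ^ (ε * n1) * ((p : ℝ) ^ (ε / 2 * t) * (p : ℝ) ^ (ε / 2 * t)) := by
        rw [← Real.rpow_add hp0, ← Real.rpow_add hp0]
        congr 1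
        have : (n : ℝ) = n1 + t := by exact_mod_cast hn1
        rw [this]
        ring
      rw [e4, e8, mul_assoc]
      gcongr

end Pool.Agent.MP_927be3_nt.W

end PartGeneral

section PartKeyA

open Finset Polynomial

namespace Pool.Agent.MP_927be3_nt.W

/-- the projected curve -/
noncomputable def psi (q k l : ℕ) (b : ℤ) : Fin (l + 1) → (ZMod q)[X] :=
  Fin.cons 1 fun i : Fin l => (X - C (b : ZMod q)) ^ (k - l + 1) * X ^ (i : ℕ)

/-- the polynomial with the tail of `y` as coefficients -/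
noncomputable def keyaZ {q l : ℕ} (y : Fin (l + 1) → ZMod q) : (ZMod q)[X] :=
  ∑ i : Fin l, C (y i.succ) * X ^ (i : ℕ)

theorem keya_ph (q k l : ℕ) (b : ℤ) (y : Fin (l + 1) → ZMod q) :
    ph (psi q k l b) y = C (y 0) + (X - C (b : ZMod q)) ^ (k - l + 1) * keyaZ y := by
  simp only [ph, psi, keyaZ, Fin.sum_univ_succ, Fin.cons_zero, Fin.cons_succ, mul_one, mul_sum]
  congr 1
  exact sum_congr rfl fun i _ => by ring

theorem keya_coeff {q l : ℕ} (y : Fin (l + 1) → ZMod q) (i : Fin l) :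
    (keyaZ y).coeff i = y i.succ := by
  simp only [keyaZ, finsetSum_coeff, coeff_C_mul_X_pow]
  rw [sum_eq_single i]
  · simp
  · intro j _ hj
    rw [if_neg]
    intro h
    exact hj (Fin.ext h).symm
  · simp

theorem psi_one (q k l : ℕ) (b : ℤ) : ∃ y, ph (psi q k l b) y = 1 := by
  refine ⟨Fin.cons 1 0, ?_⟩
  rw [keya_ph]
  simp [keyaZ]

theorem psi_natDegree {q k l : ℕ} (hl : l ≤ k) (b : ℤ) (y : Fin (l + 1) → ZMod q) :
    (ph (psi q k l b) y).natDegree ≤ k := by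
  refine natDegree_sum_le_of_forall_le _ _ fun i _ => ?_
  refine (natDegree_C_mul_le _ _).trans ?_
  refine Fin.cases ?_ (fun i => ?_) i
  · simp [psi]
  · simp only [psi, Fin.cons_succ]
    refine natDegree_mul_le.trans ?_
    have h1 : ((X - C (b : ZMod q)) ^ (k - l + 1)).natDegree ≤ (k - l + 1) * 1 :=
      natDegree_pow_le_of_le _ (natDegree_X_sub_C_le _)
    have h2 : (X ^ (i : ℕ) : (ZMod q)[X]).natDegree ≤ i := natDegree_X_pow_le _
    have := i.2
    omega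

theorem psi_nd {p N q k l : ℕ} (hp : p.Prime) (hq : q = p ^ N) (hk : k < p) (hl : l ≤ k)
    {a b : ℤ} (hab : ¬ (p : ℤ) ∣ a - b) : ND (psi q k l b) a := by
  intro y hy
  rcases subsingleton_or_nontrivial (ZMod q) with hs | hs
  · exact Subsingleton.elim _ _
  have hdeg := psi_natDegree (q := q) hl b y
  have hw := keya_ph q k l b y
  generalize ph (psi q k l b) y = w at hy hdeg hw
  have d1 : (X - C (a : ZMod q)) ^ l ∣ derivative w := by
    obtain ⟨r, hr⟩ := hy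
    rw [hr, derivative_mul, derivative_X_sub_C_pow, Nat.add_sub_cancel]
    exact dvd_add ((dvd_mul_left _ _).mul_right _) ((pow_dvd_pow _ (Nat.le_succ l)).mul_right _)
  have d2 : (X - C (b : ZMod q)) ^ (k - l) ∣ derivative w := by
    rw [hw, derivative_add, derivative_C, zero_add, derivative_mul, derivative_X_sub_C_pow,
      Nat.add_sub_cancel]
    exact dvd_add ((dvd_mul_left _ _).mul_right _) ((pow_dvd_pow _ (Nat.le_succ _)).mul_right _)
  have hu : IsUnit ((a : ZMod q) - b) := by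
    have := isUnit_of_not_dvd hp hq hab
    simpa using this
  have d3 := (isCoprime_X_sub_C_of_isUnit_sub hu).pow.mul_dvd d1 d2
  have hm : ((X - C (a : ZMod q)) ^ l * (X - C (b : ZMod q)) ^ (k - l)).Monic :=
    ((monic_X_sub_C _).pow _).mul ((monic_X_sub_C _).pow _)
  have hmd : ((X - C (a : ZMod q)) ^ l * (X - C (b : ZMod q)) ^ (k - l)).natDegree = k := by
    rw [((monic_X_sub_C _).pow _).natDegree_mul ((monic_X_sub_C _).pow _),
      (monic_X_sub_C _).natDegree_pow, (monic_X_sub_C _).natDegree_pow, natDegree_X_sub_C,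
      natDegree_X_sub_C]
    omega
  have hd0 : derivative w = 0 := by
    by_contra h0
    have hw0 : w.natDegree ≠ 0 := fun h => h0 (derivative_of_natDegree_zero h)
    refine hm.not_dvd_of_natDegree_lt h0 ?_ d3
    rw [hmd]
    exact lt_of_lt_of_le (natDegree_derivative_lt hw0) hdeg
  have hc : w = C (w.coeff 0) := by
    ext j
    rcases j with _ | j
    · simp
    · rw [coeff_C_succ]
      by_cases hj : j + 1 ≤ k
      · have e := congrArg (fun r => r.coeff j) hd0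
        simp only [coeff_derivative, coeff_zero] at e
        have hu' : IsUnit (((j + 1 : ℕ) : ℤ) : ZMod q) := by
          refine isUnit_of_not_dvd hp hq fun h => ?_
          have := Int.le_of_dvd (by positivity) h
          omega
        push_cast at hu'
        exact (hu'.mul_left_eq_zero).1 e
      · exact coeff_eq_zero_of_natDegree_lt (by omega)
  have hw0 : w = 0 := by
    obtain ⟨r, hr⟩ := hy
    have e := congrArg (eval (a : ZMod q)) hr
    rw [hc] at e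
    simp only [eval_C, eval_mul, eval_pow, eval_sub, eval_X, sub_self,
      zero_pow (Nat.succ_ne_zero l), zero_mul] at e
    rw [hc, e, C_0]
  have hy0 : y 0 = 0 := by
    have e := congrArg (eval (b : ZMod q)) hw
    simp only [hw0, eval_zero, eval_add, eval_C, eval_mul, eval_pow, eval_sub, eval_X, sub_self,
      zero_pow (Nat.succ_ne_zero _), zero_mul, add_zero] at e
    exact e.symm
  have hz : keyaZ y = 0 := by
    rw [hw0, hy0, C_0, zero_add] at hw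
    exact (((monic_X_sub_C _).pow _).mul_right_eq_zero_iff).1 hw.symm
  funext i
  refine Fin.cases hy0 (fun i => ?_) i
  rw [← keya_coeff y i, hz, coeff_zero, Pi.zero_apply]

theorem psi_lev {p q k l a' bb : ℕ} {t b : ℤ} (hnd : ND (psi q k l b) t)
    (h : l * a' ≤ (k - l + 1) * bb) {y : Fin (l + 1) → ZMod q}
    (hy : Lev p a' t (ph (psi q k l b) y)) : Lev p bb b (ph (psi q k l b) y) := by
  set c := (ph (psi q k l b) y).eval (t : ZMod q) with hc
  have e0 : ph (psi q k l b) (Fin.cons c 0) = C c := by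
    rw [keya_ph]
    simp [keyaZ]
  have e1 := hnd (((p : ZMod q) ^ (l * a')) • (y - Fin.cons c 0)) (by
    rw [ph_smul, ph_sub, e0]
    have : X ^ (l + 1) ∣ taylor (t : ZMod q)
        (C ((p : ZMod q) ^ (l * a')) * (ph (psi q k l b) y - C c)) := by
      rw [X_pow_dvd_iff]
      intro j hj
      rw [taylor_mul, taylor_C, map_sub, taylor_C, coeff_C_mul, coeff_sub, coeff_C]
      split_ifs with hj0
      · subst hj0
        rw [taylor_coeff_zero, sub_self, mul_zero]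
      · obtain ⟨d, hd⟩ := Nat.exists_eq_add_of_le
          (Nat.mul_le_mul_right a' (show j ≤ l by omega))
        rw [sub_zero, hd, pow_add, mul_right_comm, lev_iff.1 hy j (by omega), zero_mul]
    obtain ⟨r, hr⟩ := this
    refine ⟨taylor (-(t : ZMod q)) r, ?_⟩
    have e := congrArg (taylor (-(t : ZMod q))) hr
    rw [taylor_taylor, neg_add_cancel, taylor_zero, taylor_mul, taylor_X_pow] at e
    rw [e, C_neg, sub_eq_add_neg X])
  have e2 : C ((p : ZMod q) ^ (l * a')) * keyaZ y = 0 := by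
    simp only [keyaZ, mul_sum]
    refine sum_eq_zero fun i _ => ?_
    have := congrFun e1 i.succ
    simp only [Pi.smul_apply, Pi.sub_apply, Fin.cons_succ, Pi.zero_apply, sub_zero,
      smul_eq_mul] at this
    rw [← mul_assoc, ← C_mul, this, C_0, zero_mul]
  obtain ⟨d, hd⟩ := Nat.exists_eq_add_of_le h
  have e3 := congrArg (fun r => r.comp (C (b : ZMod q) + C ((p : ZMod q) ^ bb) * X)) e2
  simp only [mul_comp, C_comp, zero_comp] at e3
  unfold Lev
  rw [keya_ph]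
  simp only [add_comp, C_comp, mul_comp, pow_comp, sub_comp, X_comp, add_sub_cancel_left, eval_add,
    eval_C, eval_mul, eval_pow, eval_sub, eval_X, sub_self, zero_pow (Nat.succ_ne_zero _), zero_mul,
    add_zero, mul_pow]
  rw [← C_pow, ← pow_mul, mul_comm bb, hd, pow_add, C_mul]
  linear_combination (C ((p : ZMod q) ^ d) * X ^ (k - l + 1)) * e3

end Pool.Agent.MP_927be3_nt.W

end PartKeyA

section PartKeyB

open Finset Polynomial

namespace Pool.Agent.MP_927be3_nt.W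

/-- the coefficients of the phase of the projected curve -/
noncomputable def keybIota (q k l : ℕ) (b : ℤ) :
    (Fin (l + 1) → ZMod q) →+ (Fin (k + 1) → ZMod q) where
  toFun w := fun i => (ph (psi q k l b) w).coeff i
  map_zero' := by
    funext i
    simp [ph]
  map_add' w w' := by
    funext i
    simp [ph_add]

theorem keyb_ph {q k l : ℕ} (hl : l ≤ k) (b : ℤ) (w : Fin (l + 1) → ZMod q) :
    ph (mom q k) (keybIota q k l b w) = ph (psi q k l b) w :=
  ph_mom_of_le (psi_natDegree hl b w)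

/-- the subgroup of the `w` whose phase is constant on an interval -/
def keybSub {q l : ℕ} (φ : Fin l → (ZMod q)[X]) (p n : ℕ) (a : ℤ) :
    AddSubgroup (Fin l → ZMod q) where
  carrier := {w | Lev p n a (ph φ w)}
  zero_mem' := by
    show Lev p n a (ph φ 0)
    simp [ph, Lev]
  add_mem' := by
    intro w w' h h'
    show Lev p n a (ph φ (w + w'))
    rw [ph_add]
    exact lev_add h h'
  neg_mem' := by
    intro w h
    show Lev p n a (ph φ (-w))
    rw [← zero_sub, ph_sub]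
    refine lev_sub ?_ h
    simp [ph, Lev]

theorem key {p k l a a' b n : ℕ} (hp : p.Prime) (hk : k < p) (hl : 1 ≤ l) (hlk : l < k)
    (ha : 1 ≤ a) (ha' : a' ≤ n) (hb : b ≤ n) (h : l * a' ≤ (k - l + 1) * b)
    {A B : ℝ} (hA : 0 ≤ A) (hB0 : 0 ≤ B) (hD : DG p l a' A) (hB : Bil p k l a' b n B) :
    Bil p k l a b n (A ^ tri l * B) := by
  classical
  intro N q _ hq hN S S' f f' α β hS hS' hα hβ hαβ hf hf'
  obtain ⟨T, π, hTS, hT, hπ⟩ := group p a' S
  have hL : 1 ≤ tri l := tri_pos hl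
  have hmap : ∀ x ∈ S, π x ∈ T := fun x hx => (hπ x hx).1
  have hd : ∀ t, ∀ x ∈ S.filter (fun x => π x = t), (p : ℤ) ^ a' ∣ x - t := by
    intro t x hx
    obtain ⟨hx1, hx2⟩ := mem_filter.1 hx
    rw [← hx2]
    exact (hπ x hx1).2
  have htβ : ∀ t ∈ T, ¬ (p : ℤ) ∣ t - β := by
    intro t ht h1
    have h2 : (p : ℤ) ∣ t - α := (dvd_pow_self _ (by omega)).trans (hα t (hTS ht))
    exact hαβ (by simpa using dvd_sub h1 h2)
  have hnd : ∀ t ∈ T, ND (psi q k l β) t := fun t ht => psi_nd hp hq hk hlk.le (htβ t ht)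
  set F : ℤ → (Fin (k + 1) → ZMod q) → ℂ := fun t => ∑ x ∈ S.filter (fun x => π x = t), f x
    with hF
  have hFe : ∀ t, Equi (mom q k) p a' t (F t) := fun t =>
    equi_sum _ fun x hx => equi_mono (hf x (mem_filter.1 hx).1) ha' (hd t x hx)
  have hF'e : Equi (mom q k) p b β (∑ x ∈ S', f' x) :=
    equi_sum _ fun x hx => equi_mono (hf' x hx) hb (hβ x hx)
  have e1 := weighted (keybIota q k l β) (keybSub (psi q k l β) p b β) hL
    (fun y => ‖(∑ x ∈ S', f' x) y‖ ^ (2 * (tri k - tri l))) (fun y => by positivity)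
    (fun w hw x => by
      rw [hF'e _ (by rw [keyb_ph hlk.le]; exact hw) x, norm_mul, norm_ch, one_mul])
    T F hA (fun x => by
      refine hD N q hq ?_ (psi q k l β) (psi_one q k l β) T _ hT hnd ?_
      · exact (Nat.mul_le_mul hlk.le ha').trans hN
      · intro t ht y hy w
        have hy0 : y ∈ keybSub (psi q k l β) p b β := psi_lev (hnd t ht) h hy
        beta_reduce
        by_cases hw : w ∈ keybSub (psi q k l β) p b β
        · rw [if_pos hw, if_pos (add_mem hw hy0), map_add, ← add_assoc,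
            hFe t _ (by rw [keyb_ph hlk.le]; exact hy), keyb_ph hlk.le]
        · rw [if_neg hw, if_neg, mul_zero]
          intro h1
          exact hw (by simpa using sub_mem h1 hy0))
  have e2 : ∑ t ∈ T, F t = ∑ x ∈ S, f x := sum_fiberwise_of_maps_to hmap f
  rw [e2] at e1
  have hE' : 0 ≤ ∑ x ∈ S', nu (tri k) (f' x) := sum_nonneg fun a _ => nu_nonneg _ _
  set E' := ∑ x ∈ S', nu (tri k) (f' x) with hE'd
  set c := (B * E' ^ (tri k - tri l)) ^ ((1 : ℝ) / tri l) with hc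
  have hc0 : 0 ≤ c := by positivity
  have hcL : c ^ tri l = B * E' ^ (tri k - tri l) := by
    rw [hc, one_div, Real.rpow_inv_natCast_pow (by positivity) (by omega)]
  have e3 : ∀ t ∈ T, (∑ y, ‖(∑ x ∈ S', f' x) y‖ ^ (2 * (tri k - tri l)) *
      ‖F t y‖ ^ (2 * tri l)) ^ ((1 : ℝ) / tri l) ≤
      c * ∑ x ∈ S.filter (fun x => π x = t), nu (tri k) (f x) := by
    intro t ht
    have hE : 0 ≤ ∑ x ∈ S.filter (fun x => π x = t), nu (tri k) (f x) :=
      sum_nonneg fun a _ => nu_nonneg _ _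
    have e4 := hB N q hq hN (S.filter fun x => π x = t) S' f f' t β
      (hS.subset (filter_subset _ _)) hS' (hd t) hβ (htβ t ht)
      (fun x hx => hf x (mem_filter.1 hx).1) hf'
    rw [one_div, Real.rpow_inv_le_iff_of_pos (sum_nonneg fun _ _ => by positivity) (by positivity)
      (by exact_mod_cast hL), Real.rpow_natCast, mul_pow, hcL]
    calc _ = ∑ y, ‖F t y‖ ^ (2 * tri l) * ‖(∑ x ∈ S', f' x) y‖ ^ (2 * (tri k - tri l)) :=
          sum_congr rfl fun y _ => mul_comm _ _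
      _ ≤ _ := e4
      _ = _ := by ring
  have e5 := sum_le_sum e3
  rw [← mul_sum, sum_fiberwise_of_maps_to hmap (fun x => nu (tri k) (f x))] at e5
  calc _ = ∑ y, ‖(∑ x ∈ S', f' x) y‖ ^ (2 * (tri k - tri l)) *
        ‖(∑ x ∈ S, f x) y‖ ^ (2 * tri l) := sum_congr rfl fun y _ => mul_comm _ _
    _ ≤ _ := e1
    _ ≤ (A * (c * ∑ x ∈ S, nu (tri k) (f x))) ^ tri l := by
        refine pow_le_pow_left₀ (mul_nonneg hA (sum_nonneg fun _ _ => ?_))
          (mul_le_mul_of_nonneg_left e5 hA) _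
        exact Real.rpow_nonneg (sum_nonneg fun _ _ => by positivity) _
    _ = _ := by
        rw [mul_pow, mul_pow, hcL]
        ring

end Pool.Agent.MP_927be3_nt.W

end PartKeyB

section PartBilin

open Finset Polynomial

namespace Pool.Agent.MP_927be3_nt.W

theorem bilin_exp (l d : ℕ) :
    (d + 1) * tri (l + 1) = (tri (l + 1 + d) - tri d) + d * tri l ∧
    (d + 1) * (tri (l + 1 + d) - tri (l + 1)) = tri d + d * (tri (l + 1 + d) - tri l) := by
  have h1 := two_mul_tri l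
  have h2 := two_mul_tri d
  have h3 := two_mul_tri (l + 1)
  have h4 := two_mul_tri (l + 1 + d)
  have h5 : tri d ≤ tri (l + 1 + d) := tri_le (by omega)
  have h6 : tri (l + 1) ≤ tri (l + 1 + d) := tri_le (by omega)
  have h7 : tri l ≤ tri (l + 1 + d) := tri_le (by omega)
  zify [h5, h6, h7] at h1 h2 h3 h4 ⊢
  have e : ((d : ℤ) + 1) * (2 * (tri (l + 1) : ℤ)) =
      (2 * (tri (l + 1 + d) : ℤ) - 2 * (tri d : ℤ)) + d * (2 * (tri l : ℤ)) := by
    rw [h1, h2, h3, h4]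
    ring
  constructor
  · linarith
  · linarith

theorem bilin_pow (l d : ℕ) (s t : ℝ) :
    (s ^ tri (l + 1) * t ^ (tri (l + 1 + d) - tri (l + 1))) ^ (d + 1) =
      (t ^ tri d * s ^ (tri (l + 1 + d) - tri d)) *
        (s ^ tri l * t ^ (tri (l + 1 + d) - tri l)) ^ d := by
  obtain ⟨e1, e2⟩ := bilin_exp l d
  rw [mul_pow, mul_pow, ← pow_mul, ← pow_mul, ← pow_mul, ← pow_mul, mul_comm (tri (l + 1)),
    mul_comm (tri (l + 1 + d) - tri (l + 1)), e1, e2, pow_add, pow_add, mul_comm (tri l) d,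
    mul_comm (tri (l + 1 + d) - tri l) d]
  ring

theorem bilin_root {d : ℕ} {X V W A1 A2 : ℝ} (hX : 0 ≤ X) (hV : 0 ≤ V) (hW : 0 ≤ W)
    (hA1 : 0 ≤ A1) (hA2 : 0 ≤ A2) (h : X ^ (d + 1) = V * W ^ d) :
    (A1 * V) ^ ((1 : ℝ) / (d + 1 : ℕ)) * (A2 * W) ^ ((((d + 1 : ℕ) : ℝ) - 1) / (d + 1 : ℕ)) =
      A1 ^ ((1 : ℝ) / (d + 1 : ℕ)) * A2 ^ ((((d + 1 : ℕ) : ℝ) - 1) / (d + 1 : ℕ)) * X := by
  have hX' : X = V ^ ((1 : ℝ) / (d + 1 : ℕ)) * W ^ ((((d + 1 : ℕ) : ℝ) - 1) / (d + 1 : ℕ)) := by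
    have e : (((d + 1 : ℕ) : ℝ) - 1) / (d + 1 : ℕ) = (d : ℝ) * ((1 : ℝ) / (d + 1 : ℕ)) := by
      push_cast
      ring
    rw [e, Real.rpow_mul hW, Real.rpow_natCast, ← Real.mul_rpow hV (pow_nonneg hW d), ← h,
      one_div, Real.pow_rpow_inv_natCast hX (Nat.succ_ne_zero d)]
  rw [Real.mul_rpow hA1 hV, Real.mul_rpow hA2 hW, hX']
  ring

theorem bilin_E_nonneg {Y : Type} [Fintype Y] (K : ℕ) (S : Finset ℤ) (f : ℤ → Y → ℂ) :
    0 ≤ ∑ x ∈ S, nu K (f x) := sum_nonneg fun _ _ => nu_nonneg _ _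

theorem bil_holder {p k l a b n : ℕ} (hl : 1 ≤ l) (hlk : l < k) {A1 A2 : ℝ} (hA1 : 0 ≤ A1)
    (hA2 : 0 ≤ A2) (h1 : Bil p k (k - l) b a n A1) (h2 : Bil p k (l - 1) a b n A2) :
    Bil p k l a b n (A1 ^ ((1 : ℝ) / (k - l + 1 : ℕ)) *
      A2 ^ ((((k - l + 1 : ℕ) : ℝ) - 1) / (k - l + 1 : ℕ))) := by
  obtain ⟨l, rfl⟩ : ∃ l', l = l' + 1 := ⟨l - 1, by omega⟩
  obtain ⟨d, rfl⟩ : ∃ d, k = l + 1 + d := ⟨k - (l + 1), by omega⟩
  have e1 : l + 1 + d - (l + 1) = d := by omega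
  have e2 : l + 1 - 1 = l := by omega
  rw [e1] at h1 ⊢
  rw [e2] at h2
  intro N q _ hq hN S S' f f' α β hS hS' hα hβ hαβ hf hf'
  have hβα : ¬ (p : ℤ) ∣ β - α := fun h => hαβ (by simpa using (dvd_neg.2 h))
  have H1 := h1 N q hq hN S' S f' f β α hS' hS hβ hα hβα hf' hf
  have H2 := h2 N q hq hN S S' f f' α β hS hS' hα hβ hαβ hf hf'
  set F := ∑ x ∈ S, f x
  set F' := ∑ x ∈ S', f' x
  have hE := bilin_E_nonneg (tri (l + 1 + d)) S f
  have hE' := bilin_E_nonneg (tri (l + 1 + d)) S' f'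
  set E := ∑ x ∈ S, nu (tri (l + 1 + d)) (f x)
  set E' := ∑ x ∈ S', nu (tri (l + 1 + d)) (f' x)
  have H := holder_pow (Y := Fin (l + 1 + d + 1) → ZMod q) (r := d + 1) (by omega)
    (u := fun y => ‖F y‖ ^ (2 * tri (l + 1)) * ‖F' y‖ ^ (2 * (tri (l + 1 + d) - tri (l + 1))))
    (v := fun y => ‖F' y‖ ^ (2 * tri d) * ‖F y‖ ^ (2 * (tri (l + 1 + d) - tri d)))
    (w := fun y => ‖F y‖ ^ (2 * tri l) * ‖F' y‖ ^ (2 * (tri (l + 1 + d) - tri l)))
    (fun y => by positivity) (fun y => by positivity) (fun y => by positivity) (fun y => by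
      simp only [pow_mul, Nat.add_sub_cancel]
      exact bilin_pow l d _ _)
  refine H.trans ?_
  have hr := bilin_root (d := d) (X := E ^ tri (l + 1) * E' ^ (tri (l + 1 + d) - tri (l + 1)))
    (V := E' ^ tri d * E ^ (tri (l + 1 + d) - tri d))
    (W := E ^ tri l * E' ^ (tri (l + 1 + d) - tri l)) (by positivity) (by positivity)
    (by positivity) hA1 hA2 (bilin_pow l d E E')
  rw [mul_assoc _ (E ^ tri (l + 1)), ← hr]
  have hd : (0 : ℝ) ≤ (((d + 1 : ℕ) : ℝ) - 1) / (d + 1 : ℕ) := by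
    push_cast
    have : (0 : ℝ) ≤ d := Nat.cast_nonneg d
    apply div_nonneg <;> linarith
  refine mul_le_mul (Real.rpow_le_rpow (sum_nonneg fun y _ => by positivity) ?_ (by positivity))
    (Real.rpow_le_rpow (sum_nonneg fun y _ => by positivity) ?_ hd)
    (Real.rpow_nonneg (sum_nonneg fun y _ => by positivity) _)
    (Real.rpow_nonneg (by positivity) _)
  · rw [← mul_assoc]
    exact H1
  · rw [← mul_assoc]
    exact H2

theorem bil_zero {p k a b n : ℕ} (hp : 1 ≤ p) (hk : 1 ≤ k) (hb : b ≤ n) {A : ℝ} (hA : 0 ≤ A)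
    (h : DM p k (n - b) A) : Bil p k 0 a b n (A ^ tri k) := by
  intro N q _ hq hN S S' f f' α β hS hS' hα hβ hαβ hf hf'
  have H := rescale hp hk hq hN hb h β S' f' hS' hβ hf'
  have hE' := bilin_E_nonneg (tri k) S' f'
  rw [nu_le_iff (tri_pos hk) _ (mul_nonneg hA hE'), mul_pow] at H
  simpa [tri_zero] using H

theorem bilin_hol {Y : Type} [Fintype Y] {L M : ℕ} (hK : 1 ≤ L + M) {g h : Y → ℝ}
    (hg : ∀ x, 0 ≤ g x) (hh : ∀ x, 0 ≤ h x) :
    ∑ x, g x ^ L * h x ^ M ≤ lp (L + M) g ^ L * lp (L + M) h ^ M := by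
  rcases Nat.eq_zero_or_pos L with rfl | hL
  · simp only [pow_zero, one_mul, zero_add] at hK ⊢
    exact (lp_pow hK hh).ge
  rcases Nat.eq_zero_or_pos M with rfl | hM
  · simp only [pow_zero, mul_one, add_zero] at hK ⊢
    exact (lp_pow hK hg).ge
  have hL' : (0 : ℝ) < L := by exact_mod_cast hL
  have hM' : (0 : ℝ) < M := by exact_mod_cast hM
  have hc : Real.HolderConjugate (((L + M : ℕ) : ℝ) / L) (((L + M : ℕ) : ℝ) / M) := by
    rw [Real.holderConjugate_iff]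
    push_cast
    constructor
    · rw [lt_div_iff₀ hL']
      linarith
    · field_simp
  have H := Real.inner_le_Lp_mul_Lq_of_nonneg univ hc (f := fun x => g x ^ L)
    (g := fun x => h x ^ M) (fun x _ => pow_nonneg (hg x) _) (fun x _ => pow_nonneg (hh x) _)
  have key : ∀ (J : ℕ) (u : Y → ℝ), (0 : ℝ) < J → (∀ x, 0 ≤ u x) →
      (∑ x, (u x ^ J) ^ (((L + M : ℕ) : ℝ) / J)) ^ (1 / (((L + M : ℕ) : ℝ) / J)) =
        lp (L + M) u ^ J := by
    intro J u hJ hu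
    have e1 : ∀ x, (u x ^ J) ^ (((L + M : ℕ) : ℝ) / J) = u x ^ (L + M) := by
      intro x
      rw [← Real.rpow_natCast (u x) J, ← Real.rpow_mul (hu x), mul_div_cancel₀ _ hJ.ne',
        Real.rpow_natCast]
    simp only [e1]
    rw [lp, ← Real.rpow_natCast _ J,
      ← Real.rpow_mul (sum_nonneg fun x _ => pow_nonneg (hu x) _)]
    congr 1
    rw [one_div_div]
    ring
  rw [key L g hL' hg, key M h hM' hh] at H
  exact H

theorem bil_base {p k l a b n : ℕ} (hk : 1 ≤ k) (hl : l ≤ k) {A : ℝ} (hA : 0 ≤ A)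
    (h : DM p k n A) : Bil p k l a b n (A ^ tri k) := by
  intro N q _ hq hN S S' f f' α β hS hS' hα hβ hαβ hf hf'
  have H1 := h N q hq hN S f hS (fun _ _ => trivial) hf
  have H2 := h N q hq hN S' f' hS' (fun _ _ => trivial) hf'
  have hE := bilin_E_nonneg (tri k) S f
  have hE' := bilin_E_nonneg (tri k) S' f'
  have e : tri l + (tri k - tri l) = tri k := Nat.add_sub_cancel' (tri_le hl)
  have H := bilin_hol (L := tri l) (M := tri k - tri l) (by rw [e]; exact tri_pos hk)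
    (g := fun y => ‖(∑ x ∈ S, f x) y‖ ^ 2) (h := fun y => ‖(∑ x ∈ S', f' x) y‖ ^ 2)
    (fun y => by positivity) (fun y => by positivity)
  rw [e, ← nu_eq_lp, ← nu_eq_lp] at H
  simp only [pow_mul]
  refine H.trans ?_
  calc _ ≤ (A * ∑ x ∈ S, nu (tri k) (f x)) ^ tri l *
        (A * ∑ x ∈ S', nu (tri k) (f' x)) ^ (tri k - tri l) :=
        mul_le_mul (pow_le_pow_left₀ (nu_nonneg _ _) H1 _) (pow_le_pow_left₀ (nu_nonneg _ _) H2 _)
          (pow_nonneg (nu_nonneg _ _) _) (pow_nonneg (mul_nonneg hA hE) _)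
    _ = _ := by
        rw [mul_pow, mul_pow]
        conv_rhs => rw [← e, pow_add, e]
        ring

theorem bilin_sum_pow {ι : Type} (T : Finset ι) {E : ι → ℝ} (hE : ∀ t ∈ T, 0 ≤ E t) {L : ℕ}
    (hL : 1 ≤ L) : ∑ t ∈ T, E t ^ L ≤ (∑ t ∈ T, E t) ^ L := by
  obtain ⟨L, rfl⟩ : ∃ L', L = L' + 1 := ⟨L - 1, by omega⟩
  rw [pow_succ', sum_mul]
  refine sum_le_sum fun t ht => ?_
  rw [pow_succ']
  exact mul_le_mul_of_nonneg_left
    (pow_le_pow_left₀ (hE t ht) (single_le_sum hE ht) _) (hE t ht)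

theorem bilin_norm_pow {T : Finset ℤ} (F : ℤ → ℂ) {c : ℝ} (hc : (#T : ℝ) ≤ c) (hc1 : 1 ≤ c)
    {L K : ℕ} (hL : 1 ≤ L) (hLK : L ≤ K) :
    ‖∑ t ∈ T, F t‖ ^ (2 * L) ≤ c ^ (2 * K) * ∑ t ∈ T, ‖F t‖ ^ (2 * L) := by
  obtain ⟨m, hm⟩ : ∃ m, 2 * L = m + 1 := ⟨2 * L - 1, by omega⟩
  rw [hm]
  calc _ ≤ (∑ t ∈ T, ‖F t‖) ^ (m + 1) :=
        pow_le_pow_left₀ (norm_nonneg _) (norm_sum_le _ _) _
    _ ≤ (#T : ℝ) ^ m * ∑ t ∈ T, ‖F t‖ ^ (m + 1) :=
        pow_sum_le_card_mul_sum_pow (fun _ _ => norm_nonneg _) m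
    _ ≤ _ := by
        refine mul_le_mul_of_nonneg_right ?_ (sum_nonneg fun _ _ => by positivity)
        exact (pow_le_pow_left₀ (Nat.cast_nonneg _) hc m).trans
          (pow_le_pow_right₀ hc1 (by omega))

theorem bil_triv {p k l a b n : ℕ} (hp : 1 ≤ p) (hl : 1 ≤ l) (hlk : l < k) (ha : 1 ≤ a)
    (hb : 1 ≤ b) {A : ℝ} (hA : 0 ≤ A) (h : Bil p k l a b n A) :
    Bil p k l 1 1 n ((p : ℝ) ^ (2 * tri k * (a + b)) * A) := by
  intro N q _ hq hN S S' f f' α β hS hS' hα hβ hαβ hf hf'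
  obtain ⟨T, π, hTS, hT, hπ⟩ := group p a S
  obtain ⟨T', π', hTS', hT', hπ'⟩ := group p b S'
  have hL : 1 ≤ tri l := tri_pos hl
  have hLK : tri l < tri k := tri_lt hlk
  have hM : 1 ≤ tri k - tri l := by omega
  have hp' : (1 : ℝ) ≤ p := by exact_mod_cast hp
  have hc : (#T : ℝ) ≤ (p : ℝ) ^ a := by exact_mod_cast sep_card hp hT
  have hc' : (#T' : ℝ) ≤ (p : ℝ) ^ b := by exact_mod_cast sep_card hp hT'
  set F : ℤ → (Fin (k + 1) → ZMod q) → ℂ := fun t => ∑ x ∈ S with π x = t, f x with hF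
  set F' : ℤ → (Fin (k + 1) → ZMod q) → ℂ := fun t => ∑ x ∈ S' with π' x = t, f' x with hF'
  set E : ℤ → ℝ := fun t => ∑ x ∈ S with π x = t, nu (tri k) (f x) with hE
  set E' : ℤ → ℝ := fun t => ∑ x ∈ S' with π' x = t, nu (tri k) (f' x) with hE'
  have e1 : ∑ x ∈ S, f x = ∑ t ∈ T, F t :=
    (sum_fiberwise_of_maps_to (fun x hx => (hπ x hx).1) _).symm
  have e2 : ∑ x ∈ S', f' x = ∑ t ∈ T', F' t :=
    (sum_fiberwise_of_maps_to (fun x hx => (hπ' x hx).1) _).symm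
  have e3 : ∑ x ∈ S, nu (tri k) (f x) = ∑ t ∈ T, E t :=
    (sum_fiberwise_of_maps_to (fun x hx => (hπ x hx).1) _).symm
  have e4 : ∑ x ∈ S', nu (tri k) (f' x) = ∑ t ∈ T', E' t :=
    (sum_fiberwise_of_maps_to (fun x hx => (hπ' x hx).1) _).symm
  have hE0 : ∀ t, 0 ≤ E t := fun t => bilin_E_nonneg _ _ _
  have hE0' : ∀ t, 0 ≤ E' t := fun t => bilin_E_nonneg _ _ _
  have H : ∀ t ∈ T, ∀ t' ∈ T', ∑ y, ‖F t y‖ ^ (2 * tri l) * ‖F' t' y‖ ^ (2 * (tri k - tri l)) ≤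
      A * E t ^ tri l * E' t' ^ (tri k - tri l) := by
    intro t ht t' ht'
    refine h N q hq hN _ _ f f' t t' (hS.subset (filter_subset _ _))
      (hS'.subset (filter_subset _ _)) ?_ ?_ ?_ (fun x hx => hf x (mem_filter.1 hx).1)
      (fun x hx => hf' x (mem_filter.1 hx).1)
    · intro x hx
      rw [← (mem_filter.1 hx).2]
      exact (hπ x (mem_filter.1 hx).1).2
    · intro x hx
      rw [← (mem_filter.1 hx).2]
      exact (hπ' x (mem_filter.1 hx).1).2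
    · intro hd
      have h1 := hα t (hTS ht)
      have h2 := hβ t' (hTS' ht')
      rw [pow_one] at h1 h2
      apply hαβ
      have : α - β = (t - t') - (t - α) + (t' - β) := by ring
      rw [this]
      exact (hd.sub h1).add h2
  rw [e1, e2, e3, e4]
  calc _ ≤ ∑ y, (((p : ℝ) ^ a) ^ (2 * tri k) * ∑ t ∈ T, ‖F t y‖ ^ (2 * tri l)) *
          (((p : ℝ) ^ b) ^ (2 * tri k) * ∑ t ∈ T', ‖F' t y‖ ^ (2 * (tri k - tri l))) := by
        refine sum_le_sum fun y _ => ?_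
        rw [Finset.sum_apply, Finset.sum_apply]
        exact mul_le_mul (bilin_norm_pow _ hc (one_le_pow₀ hp') hL hLK.le)
          (bilin_norm_pow _ hc' (one_le_pow₀ hp') hM (Nat.sub_le _ _)) (by positivity)
          (mul_nonneg (by positivity) (sum_nonneg fun _ _ => by positivity))
    _ = (p : ℝ) ^ (2 * tri k * (a + b)) * ∑ t ∈ T, ∑ t' ∈ T', ∑ y,
          ‖F t y‖ ^ (2 * tri l) * ‖F' t' y‖ ^ (2 * (tri k - tri l)) := by
        have e5 : (p : ℝ) ^ (2 * tri k * (a + b)) =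
            ((p : ℝ) ^ a) ^ (2 * tri k) * ((p : ℝ) ^ b) ^ (2 * tri k) := by
          rw [← pow_mul, ← pow_mul, ← pow_add]
          congr 1
          ring
        have e6 : ∑ t ∈ T, ∑ t' ∈ T', ∑ y,
            ‖F t y‖ ^ (2 * tri l) * ‖F' t' y‖ ^ (2 * (tri k - tri l)) =
            ∑ y, (∑ t ∈ T, ‖F t y‖ ^ (2 * tri l)) *
              ∑ t ∈ T', ‖F' t y‖ ^ (2 * (tri k - tri l)) := by
          simp only [sum_mul_sum]
          rw [sum_comm (s := univ)]
          exact sum_congr rfl fun t _ => sum_comm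
        rw [e5, e6, mul_sum]
        exact sum_congr rfl fun y _ => by ring
    _ ≤ (p : ℝ) ^ (2 * tri k * (a + b)) * ∑ t ∈ T, ∑ t' ∈ T',
          A * E t ^ tri l * E' t' ^ (tri k - tri l) :=
        mul_le_mul_of_nonneg_left
          (sum_le_sum fun t ht => sum_le_sum fun t' ht' => H t ht t' ht') (by positivity)
    _ = (p : ℝ) ^ (2 * tri k * (a + b)) * A * (∑ t ∈ T, E t ^ tri l) *
          ∑ t' ∈ T', E' t' ^ (tri k - tri l) := by
        rw [mul_assoc (_ * A), mul_assoc _ A, sum_mul_sum, mul_sum T _ A]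
        congr 1
        refine sum_congr rfl fun t _ => ?_
        rw [mul_sum]
        exact sum_congr rfl fun t' _ => by ring
    _ ≤ _ := by
        refine mul_le_mul (mul_le_mul_of_nonneg_left (bilin_sum_pow T (fun t _ => hE0 t) hL)
          (by positivity)) (bilin_sum_pow T' (fun t _ => hE0' t) hM)
          (sum_nonneg fun t _ => pow_nonneg (hE0' t) _)
          (mul_nonneg (by positivity) (pow_nonneg (sum_nonneg fun t _ => hE0 t) _))

end Pool.Agent.MP_927be3_nt.W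

end PartBilin

section PartBroad

open Finset Polynomial

namespace Pool.Agent.MP_927be3_nt.W

theorem broad_sq (T : Finset ℤ) (F : ℤ → ℂ) :
    ‖∑ t ∈ T, F t‖ ^ 2 ≤ ∑ t ∈ T, (‖F t‖ ^ 2 + ∑ t' ∈ T.erase t, ‖F t‖ * ‖F t'‖) := by
  calc _ ≤ (∑ t ∈ T, ‖F t‖) ^ 2 := pow_le_pow_left₀ (norm_nonneg _) (norm_sum_le _ _) _
    _ = _ := by
      rw [sq, sum_mul_sum]
      refine sum_congr rfl fun t ht => ?_
      rw [← add_sum_erase T _ ht, sq]

theorem broad_off {Y : Type} [Fintype Y] {L M : ℕ} (hK : 1 ≤ L + M) (F G : Y → ℂ) {B E E' : ℝ}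
    (hB : 0 ≤ B) (hE : 0 ≤ E) (hE' : 0 ≤ E')
    (h1 : ∑ y, ‖F y‖ ^ (2 * L) * ‖G y‖ ^ (2 * M) ≤ B * E ^ L * E' ^ M)
    (h2 : ∑ y, ‖G y‖ ^ (2 * L) * ‖F y‖ ^ (2 * M) ≤ B * E' ^ L * E ^ M) :
    lp (L + M) (fun y => ‖F y‖ * ‖G y‖) ≤ B ^ ((1 : ℝ) / (L + M : ℕ)) * ((E + E') / 2) := by
  rw [lp_le_iff hK (fun y => by positivity) (by positivity), mul_pow, one_div,
    Real.rpow_inv_natCast_pow hB (by omega)]
  have hcs := sum_mul_sq_le_sq_mul_sq univ (fun y => ‖F y‖ ^ L * ‖G y‖ ^ M)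
    (fun y => ‖G y‖ ^ L * ‖F y‖ ^ M)
  have e0 : ∀ y, (‖F y‖ * ‖G y‖) ^ (L + M) = (‖F y‖ ^ L * ‖G y‖ ^ M) * (‖G y‖ ^ L * ‖F y‖ ^ M) :=
    fun y => by ring
  have e1 : ∀ y, (‖F y‖ ^ L * ‖G y‖ ^ M) ^ 2 = ‖F y‖ ^ (2 * L) * ‖G y‖ ^ (2 * M) :=
    fun y => by ring
  have e2 : ∀ y, (‖G y‖ ^ L * ‖F y‖ ^ M) ^ 2 = ‖G y‖ ^ (2 * L) * ‖F y‖ ^ (2 * M) :=
    fun y => by ring
  simp only [e1, e2] at hcs
  simp only [e0]
  refine (pow_le_pow_iff_left₀ (sum_nonneg fun y _ => by positivity) (by positivity)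
    two_ne_zero).1 (hcs.trans ?_)
  calc _ ≤ (B * E ^ L * E' ^ M) * (B * E' ^ L * E ^ M) :=
        mul_le_mul h1 h2 (sum_nonneg fun y _ => by positivity) (by positivity)
    _ = B ^ 2 * (E * E') ^ (L + M) := by ring
    _ ≤ B ^ 2 * (((E + E') / 2) ^ 2) ^ (L + M) := by
        refine mul_le_mul_of_nonneg_left (pow_le_pow_left₀ (by positivity) ?_ _) (by positivity)
        nlinarith [sq_nonneg (E - E')]
    _ = _ := by rw [mul_pow, ← pow_mul, ← pow_mul, mul_comm 2]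

theorem broad {p k l n : ℕ} (hp : 1 ≤ p) (hk : 1 ≤ k) (hl : l ≤ k) (hn : 1 ≤ n) {A B : ℝ}
    (hA : 0 ≤ A) (hB0 : 0 ≤ B) (hD : DM p k (n - 1) A) (hB : Bil p k l 1 1 n B) :
    DM p k n (A + p * B ^ ((1 : ℝ) / tri k)) := by
  intro N q _ hq hN S f hS _ hf
  obtain ⟨T, π, -, hT, hπ⟩ := group p 1 S
  have hK : 1 ≤ tri k := tri_pos hk
  have e : tri l + (tri k - tri l) = tri k := Nat.add_sub_cancel' (tri_le hl)
  have hc : (#T : ℝ) ≤ p := by
    have := sep_card hp hT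
    rw [pow_one] at this
    exact_mod_cast this
  set F : ℤ → (Fin (k + 1) → ZMod q) → ℂ := fun t => ∑ x ∈ S with π x = t, f x with hF
  set E : ℤ → ℝ := fun t => ∑ x ∈ S with π x = t, nu (tri k) (f x) with hE
  have e1 : ∑ x ∈ S, f x = ∑ t ∈ T, F t :=
    (sum_fiberwise_of_maps_to (fun x hx => (hπ x hx).1) _).symm
  have e3 : ∑ x ∈ S, nu (tri k) (f x) = ∑ t ∈ T, E t :=
    (sum_fiberwise_of_maps_to (fun x hx => (hπ x hx).1) _).symm
  have hE0 : ∀ t, 0 ≤ E t := fun t => sum_nonneg fun _ _ => nu_nonneg _ _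
  have hdv : ∀ t, ∀ x ∈ S.filter (fun x => π x = t), (p : ℤ) ^ 1 ∣ x - t := by
    intro t x hx
    rw [← (mem_filter.1 hx).2]
    exact (hπ x (mem_filter.1 hx).1).2
  have hdiag : ∀ t, lp (tri k) (fun y => ‖F t y‖ ^ 2) ≤ A * E t := by
    intro t
    rw [← nu_eq_lp]
    exact rescale hp hk hq hN hn hD t _ f (hS.subset (filter_subset _ _)) (hdv t)
      (fun x hx => hf x (mem_filter.1 hx).1)
  have hbil : ∀ t ∈ T, ∀ t' ∈ T, t ≠ t' →
      ∑ y, ‖F t y‖ ^ (2 * tri l) * ‖F t' y‖ ^ (2 * (tri k - tri l)) ≤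
        B * E t ^ tri l * E t' ^ (tri k - tri l) := by
    intro t ht t' ht' hne
    refine hB N q hq hN _ _ f f t t' (hS.subset (filter_subset _ _))
      (hS.subset (filter_subset _ _)) (hdv t) (hdv t') (fun hd => hne (hT t ht t' ht' ?_))
      (fun x hx => hf x (mem_filter.1 hx).1) (fun x hx => hf x (mem_filter.1 hx).1)
    rwa [pow_one]
  have hoff : ∀ t ∈ T, ∀ t' ∈ T.erase t, lp (tri k) (fun y => ‖F t y‖ * ‖F t' y‖) ≤
      B ^ ((1 : ℝ) / tri k) * ((E t + E t') / 2) := by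
    intro t ht t' ht'
    obtain ⟨hne, ht'⟩ := mem_erase.1 ht'
    have := broad_off (L := tri l) (M := tri k - tri l) (by rw [e]; exact hK) (F t) (F t') hB0
      (hE0 t) (hE0 t') (hbil t ht t' ht' hne.symm) (hbil t' ht' t ht hne)
    rwa [e] at this
  have hr : 0 ≤ B ^ ((1 : ℝ) / tri k) := Real.rpow_nonneg hB0 _
  rw [e1, e3, nu_eq_lp]
  calc _ ≤ lp (tri k) (fun y => ∑ t ∈ T,
          (‖F t y‖ ^ 2 + ∑ t' ∈ T.erase t, ‖F t y‖ * ‖F t' y‖)) := by
        refine lp_mono _ (fun y => by positivity) fun y => ?_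
        rw [Finset.sum_apply]
        exact broad_sq T fun t => F t y
    _ ≤ ∑ t ∈ T, lp (tri k)
          (fun y => ‖F t y‖ ^ 2 + ∑ t' ∈ T.erase t, ‖F t y‖ * ‖F t' y‖) :=
        lp_sum hK T (g := fun t y => ‖F t y‖ ^ 2 + ∑ t' ∈ T.erase t, ‖F t y‖ * ‖F t' y‖)
          fun t _ y => add_nonneg (by positivity) (sum_nonneg fun _ _ => by positivity)
    _ ≤ ∑ t ∈ T, (A * E t + ∑ t' ∈ T, B ^ ((1 : ℝ) / tri k) * ((E t + E t') / 2)) := by
        refine sum_le_sum fun t ht => ?_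
        refine (lp_add hK (fun y => by positivity)
          (fun y => sum_nonneg fun _ _ => by positivity)).trans (add_le_add (hdiag t) ?_)
        refine (lp_sum hK (T.erase t) (g := fun t' y => ‖F t y‖ * ‖F t' y‖)
          fun _ _ y => by positivity).trans ((sum_le_sum (hoff t ht)).trans ?_)
        refine sum_le_sum_of_subset_of_nonneg (erase_subset _ _) fun t' _ _ => ?_
        have := hE0 t
        have := hE0 t'
        positivity
    _ = (A + #T * B ^ ((1 : ℝ) / tri k)) * ∑ t ∈ T, E t := by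
        simp only [← mul_sum, ← sum_div, sum_add_distrib, sum_const, nsmul_eq_mul]
        ring
    _ ≤ _ := by
        refine mul_le_mul_of_nonneg_right ?_ (sum_nonneg fun t _ => hE0 t)
        gcongr

end Pool.Agent.MP_927be3_nt.W

end PartBroad

section PartIterA

open Finset Polynomial

namespace Pool.Agent.MP_927be3_nt.W

/-- the weights of the iteration -/
noncomputable def wt (k : ℕ) : ℕ → ℕ → ℝ
  | 0, l => if l = 0 then 1 else 0
  | R + 1, l => if l = 0 then 1 else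
      wt k R (k - l) / l + ((k - l : ℕ) : ℝ) / ((k - l + 1 : ℕ) : ℝ) * wt k R (l - 1)

theorem itera_wt_zero (k R : ℕ) : wt k R 0 = 1 := by
  cases R <;> simp [wt]

theorem itera_wt_succ (k R : ℕ) {l : ℕ} (hl : 1 ≤ l) : wt k (R + 1) l =
    wt k R (k - l) / l + ((k - l : ℕ) : ℝ) / ((k - l + 1 : ℕ) : ℝ) * wt k R (l - 1) := by
  rw [wt, if_neg (by omega)]

theorem wt_sum {k : ℕ} (hk : 2 ≤ k) (R : ℕ) :
    ∑ l ∈ Ico 1 k, wt k R l = R * ((k : ℝ) - 1) / k := by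
  induction R with
  | zero =>
    rw [sum_eq_zero]
    · simp
    · intro l hl
      rw [wt, if_neg (by have := (mem_Ico.1 hl).1; omega)]
  | succ R ih =>
    rw [sum_congr rfl fun l hl => itera_wt_succ k R (mem_Ico.1 hl).1, sum_add_distrib]
    have h1 : ∑ l ∈ Ico 1 k, wt k R (k - l) / l = ∑ j ∈ Ico 1 k, wt k R j / ((k - j : ℕ) : ℝ) := by
      refine sum_nbij' (fun l => k - l) (fun l => k - l) ?_ ?_ ?_ ?_ ?_
      · intro l hl; simp only [mem_Ico] at *; omega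
      · intro l hl; simp only [mem_Ico] at *; omega
      · intro l hl; simp only [mem_Ico] at *; omega
      · intro l hl; simp only [mem_Ico] at *; omega
      · intro l hl
        simp only [mem_Ico] at hl
        rw [show k - (k - l) = l by omega]
    have h2 : ∑ l ∈ Ico 1 k, ((k - l : ℕ) : ℝ) / ((k - l + 1 : ℕ) : ℝ) * wt k R (l - 1) =
        ((k : ℝ) - 1) / k +
          ∑ j ∈ Ico 1 k, ((k - j - 1 : ℕ) : ℝ) / ((k - j : ℕ) : ℝ) * wt k R j := by
      obtain ⟨m, rfl⟩ : ∃ m, k = m + 2 := ⟨k - 2, by omega⟩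
      rw [sum_Ico_eq_sum_range, sum_Ico_eq_sum_range, show m + 2 - 1 = m + 1 by omega,
        sum_range_succ', sum_range_succ]
      rw [show m + 2 - (1 + m) - 1 = 0 by omega, show 1 + 0 - 1 = 0 by omega, itera_wt_zero,
        show m + 2 - (1 + 0) = m + 1 by omega]
      rw [sum_congr rfl (g := fun j => ((m + 2 - (1 + j) - 1 : ℕ) : ℝ) /
        ((m + 2 - (1 + j) : ℕ) : ℝ) * wt (m + 2) R (1 + j)) fun j hj => by
          have := mem_range.1 hj
          rw [show m + 2 - (1 + (j + 1)) = m + 2 - (1 + j) - 1 by omega,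
            show m + 2 - (1 + j) - 1 + 1 = m + 2 - (1 + j) by omega,
            show 1 + (j + 1) - 1 = 1 + j by omega]]
      push_cast
      ring
    have h3 : ∑ j ∈ Ico 1 k, wt k R j / ((k - j : ℕ) : ℝ) +
        ∑ j ∈ Ico 1 k, ((k - j - 1 : ℕ) : ℝ) / ((k - j : ℕ) : ℝ) * wt k R j =
        ∑ j ∈ Ico 1 k, wt k R j := by
      rw [← sum_add_distrib]
      refine sum_congr rfl fun j hj => ?_
      obtain ⟨d, hd⟩ : ∃ d, k - j = d + 1 := ⟨k - j - 1, by have := mem_Ico.1 hj; omega⟩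
      rw [hd, Nat.add_sub_cancel]
      push_cast
      have : (d : ℝ) + 1 ≠ 0 := by positivity
      field_simp
      ring
    rw [h1, h2]
    have : (k : ℝ) ≠ 0 := by positivity
    push_cast
    rw [add_mul, add_div, ← ih, ← h3]
    ring

theorem wt_exists {k : ℕ} (hk : 2 ≤ k) (R : ℕ) : ∃ l, 1 ≤ l ∧ l < k ∧ (R : ℝ) / k ≤ wt k R l := by
  have h : ∑ _l ∈ Ico 1 k, (R : ℝ) / k ≤ ∑ l ∈ Ico 1 k, wt k R l := by
    rw [wt_sum hk, sum_const, Nat.card_Ico, nsmul_eq_mul, Nat.cast_sub (by omega)]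
    apply le_of_eq
    push_cast
    ring
  obtain ⟨l, hl, h⟩ := exists_le_of_sum_le ⟨1, mem_Ico.2 ⟨le_rfl, by omega⟩⟩ h
  exact ⟨l, (mem_Ico.1 hl).1, (mem_Ico.1 hl).2, h⟩

theorem itera_unif {p k : ℕ} (hG : ∀ l, 1 ≤ l → l < k → SG p (DG p l)) {ε : ℝ} (hε : 0 < ε) :
    ∃ A : ℝ, 1 ≤ A ∧ ∀ l, 1 ≤ l → l < k → ∀ n : ℕ, DG p l n (A * (p : ℝ) ^ (ε * n)) := by
  have h : ∀ l, ∃ A : ℝ, 1 ≤ A ∧ (1 ≤ l → l < k → ∀ n : ℕ, DG p l n (A * (p : ℝ) ^ (ε * n))) := by
    intro l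
    by_cases hl : 1 ≤ l ∧ l < k
    · obtain ⟨A, hA, h⟩ := hG l hl.1 hl.2 ε hε
      exact ⟨A, hA, fun _ _ => h⟩
    · exact ⟨1, le_rfl, fun h1 h2 => absurd ⟨h1, h2⟩ hl⟩
  choose A hA h using h
  have h0 : 0 ≤ ∑ l ∈ range k, A l := sum_nonneg fun l _ => zero_le_one.trans (hA l)
  refine ⟨1 + ∑ l ∈ range k, A l, by linarith, fun l h1 h2 n => dg_mono (h l h1 h2 n) ?_⟩
  have : A l ≤ ∑ l ∈ range k, A l :=
    single_le_sum (f := A) (fun l _ => zero_le_one.trans (hA l)) (mem_range.2 h2)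
  have hp : (0 : ℝ) ≤ (p : ℝ) ^ (ε * n) := by positivity
  exact mul_le_mul_of_nonneg_right (by linarith) hp

theorem itera_key {p k l a b n : ℕ} (hp : p.Prime) (hk : k < p) (hl : 1 ≤ l) (hlk : l < k)
    (ha : 1 ≤ a) (hb : k * b ≤ n) {Ag A1 ε x : ℝ} (hAg : 1 ≤ Ag) (hA1 : 0 ≤ A1) (hε : 0 ≤ ε)
    (hD : ∀ m : ℕ, DG p l m (Ag * (p : ℝ) ^ (ε * m)))
    (hB : Bil p k l ((k - l + 1) * b / l) b n (A1 * (p : ℝ) ^ x)) :
    Bil p k l a b n (Ag ^ tri k * A1 * (p : ℝ) ^ (tri k * ε * n + x)) := by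
  have hp1 : (1 : ℝ) ≤ p := by exact_mod_cast hp.one_le
  have hp0 : (0 : ℝ) < p := by linarith
  have ha' : (k - l + 1) * b / l ≤ n :=
    (Nat.div_le_self _ _).trans ((Nat.mul_le_mul_right _ (by omega)).trans hb)
  have hb' : b ≤ n := le_trans (Nat.le_mul_of_pos_left _ (by omega)) hb
  refine bil_mono (key hp hk hl hlk ha ha' hb' (Nat.mul_div_le _ _) (by positivity)
    (by positivity) (hD _) hB) ?_
  have h1 : (1 : ℝ) ≤ (p : ℝ) ^ (ε * n) := Real.one_le_rpow hp1 (by positivity)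
  have h2 : (p : ℝ) ^ (ε * ((k - l + 1) * b / l : ℕ)) ≤ (p : ℝ) ^ (ε * n) :=
    Real.rpow_le_rpow_of_exponent_le hp1 (by gcongr)
  have h3 : (Ag * (p : ℝ) ^ (ε * ((k - l + 1) * b / l : ℕ))) ^ tri l ≤
      (Ag * (p : ℝ) ^ (ε * n)) ^ tri k :=
    (pow_le_pow_left₀ (by positivity) (by gcongr) _).trans
      (pow_le_pow_right₀ (one_le_mul_of_one_le_of_one_le hAg h1) (tri_le hlk.le))
  calc _ ≤ (Ag * (p : ℝ) ^ (ε * n)) ^ tri k * (A1 * (p : ℝ) ^ x) := by gcongr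
    _ = _ := by
      rw [mul_pow, ← Real.rpow_natCast ((p : ℝ) ^ (ε * n)), ← Real.rpow_mul hp0.le,
        Real.rpow_add hp0, show ε * n * (tri k : ℝ) = tri k * ε * n by ring]
      ring

theorem itera_mix {C P x y r : ℝ} (hC : 0 < C) (hP : 0 < P) (hr : 0 < r) :
    (C * P ^ x) ^ (1 / r) * (C * P ^ y) ^ ((r - 1) / r) = C * P ^ (x / r + y * ((r - 1) / r)) := by
  rw [Real.mul_rpow hC.le (by positivity), Real.mul_rpow hC.le (by positivity),
    ← Real.rpow_mul hP.le, ← Real.rpow_mul hP.le, Real.rpow_add hP, mul_mul_mul_comm,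
    ← Real.rpow_add hC, show 1 / r + (r - 1) / r = 1 by field_simp; ring, Real.rpow_one,
    mul_one_div]

theorem iter_step {p k : ℕ} (hp : p.Prime) (hk : 2 ≤ k) (hkp : k < p)
    (hG : ∀ l, 1 ≤ l → l < k → SG p (DG p l)) {lam A0 : ℝ} (hlam : 0 ≤ lam) (hA0 : 1 ≤ A0)
    (hD : ∀ n : ℕ, DM p k n (A0 * (p : ℝ) ^ (lam * n))) (R : ℕ) {ε : ℝ} (hε : 0 < ε) :
    ∃ A : ℝ, 1 ≤ A ∧ ∀ l b n : ℕ, 1 ≤ l → l < k → 1 ≤ b → k.factorial ^ (R + 1) ∣ b →
      k ^ (R + 1) * b ≤ n → Bil p k l ((k - l + 1) * b / l) b n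
        (A * (p : ℝ) ^ (tri k * lam * n + ε * n - tri k * lam * wt k R l * b)) := by
  have hp1 : (1 : ℝ) ≤ p := by exact_mod_cast hp.one_le
  have hp0 : (0 : ℝ) < p := by linarith
  have hpow : ∀ x : ℝ, (A0 * (p : ℝ) ^ x) ^ tri k = A0 ^ tri k * (p : ℝ) ^ (tri k * x) := by
    intro x
    rw [mul_pow, ← Real.rpow_natCast ((p : ℝ) ^ x), ← Real.rpow_mul hp0.le, mul_comm x]
  have hA0K : 1 ≤ A0 ^ tri k := one_le_pow₀ hA0
  induction R generalizing ε with
  | zero =>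
    refine ⟨A0 ^ tri k, hA0K, fun l b n hl hlk _ _ _ => ?_⟩
    refine bil_mono (bil_base (by omega) hlk.le (by positivity) (hD n)) ?_
    rw [hpow, wt, if_neg (by omega)]
    refine mul_le_mul_of_nonneg_left (Real.rpow_le_rpow_of_exponent_le hp1 ?_) (by positivity)
    have : 0 ≤ ε * n := by positivity
    linarith
  | succ R ih =>
    have hK : (0 : ℝ) < tri k := by exact_mod_cast tri_pos (show 1 ≤ k by omega)
    obtain ⟨A1, hA1, H1⟩ := ih (half_pos hε)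
    obtain ⟨Ag, hAg, HG⟩ := itera_unif hG (show 0 < ε / 2 / tri k by positivity)
    have hAgK : 1 ≤ Ag ^ tri k := one_le_pow₀ hAg
    have hC1 : 1 ≤ Ag ^ tri k * A1 := one_le_mul_of_one_le_of_one_le hAgK hA1
    have hC : 1 ≤ Ag ^ tri k * A1 * A0 ^ tri k := one_le_mul_of_one_le_of_one_le hC1 hA0K
    refine ⟨Ag ^ tri k * A1 * A0 ^ tri k, hC, fun l b n hl hlk hb hdvd hn => ?_⟩
    -- a general form of the step: IH followed by the key lemma
    have step : ∀ l' a' b' : ℕ, 1 ≤ l' → l' < k → 1 ≤ a' → 1 ≤ b' → k.factorial ^ (R + 1) ∣ b' →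
        k ^ (R + 1) * b' ≤ n → Bil p k l' a' b' n (Ag ^ tri k * A1 * A0 ^ tri k *
          (p : ℝ) ^ (tri k * lam * n + ε * n - tri k * lam * wt k R l' * b')) := by
      intro l' a' b' h1 h2 h3 h4 h5 h6
      have h7 : k * b' ≤ n :=
        (Nat.mul_le_mul_right _ (Nat.le_self_pow (by omega) k)).trans h6
      refine bil_mono (itera_key hp hkp h1 h2 h3 h7 hAg (by linarith) (by positivity)
        (HG l' h1 h2) (H1 l' b' n h1 h2 h4 h5 h6)) ?_
      rw [show (tri k : ℝ) * (ε / 2 / tri k) * n + (tri k * lam * n + ε / 2 * n -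
          tri k * lam * wt k R l' * b') = tri k * lam * n + ε * n - tri k * lam * wt k R l' * b' by
        field_simp; ring]
      refine mul_le_mul_of_nonneg_right ?_ (by positivity)
      exact le_mul_of_one_le_right (by linarith) hA0K
    obtain ⟨c, hc⟩ := hdvd
    obtain ⟨d, hd⟩ : l ∣ k.factorial := Nat.dvd_factorial hl hlk.le
    have hbl : b = l * (k.factorial ^ (R + 1) * (d * c)) := by
      rw [hc, pow_succ (k.factorial) (R + 1)]
      nth_rewrite 2 [hd]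
      ring
    have ha : (k - l + 1) * b / l = (k - l + 1) * (k.factorial ^ (R + 1) * (d * c)) := by
      rw [hbl, mul_left_comm, Nat.mul_div_cancel_left _ hl]
    have hla : l * ((k - l + 1) * b / l) = (k - l + 1) * b := by
      rw [ha, mul_left_comm, ← hbl]
    set a := (k - l + 1) * b / l with ha0
    have ha1 : 1 ≤ a := by
      rcases Nat.eq_zero_or_pos a with h | h
      · rw [h, mul_zero] at hla
        have : 0 < (k - l + 1) * b := Nat.mul_pos (by omega) hb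
        omega
      · exact h
    have hak : a ≤ k * b := (Nat.div_le_self _ _).trans (Nat.mul_le_mul_right _ (by omega))
    have hb2 : k ^ (R + 1) * b ≤ n :=
      (Nat.mul_le_mul_right _ (Nat.pow_le_pow_right (by omega) (Nat.le_succ _))).trans hn
    have F1 := step (k - l) b a (by omega) (by omega) hb ha1
      (by rw [ha]; exact Dvd.intro ((k - l + 1) * (d * c)) (by ring))
      (le_trans (by rw [pow_succ k (R + 1), mul_assoc]; exact Nat.mul_le_mul_left _ hak) hn)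
    have F2 : Bil p k (l - 1) a b n (Ag ^ tri k * A1 * A0 ^ tri k *
        (p : ℝ) ^ (tri k * lam * n + ε * n - tri k * lam * wt k R (l - 1) * b)) := by
      rcases Nat.eq_or_lt_of_le hl with h | h
      · have hbn : b ≤ n := le_trans (Nat.le_mul_of_pos_left _ (by positivity)) hn
        rw [← h, Nat.sub_self, itera_wt_zero]
        refine bil_mono (bil_zero hp.one_le (by omega) hbn (by positivity) (hD (n - b))) ?_
        rw [hpow, Nat.cast_sub hbn]
        refine mul_le_mul (le_mul_of_one_le_left (by linarith) hC1)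
          (Real.rpow_le_rpow_of_exponent_le hp1 ?_) (by positivity) (by linarith)
        have : 0 ≤ ε * n := by positivity
        linarith
      · exact step (l - 1) a b (by omega) (by omega) ha1 hb
          (Dvd.intro (k.factorial * c) (by rw [hc]; ring)) hb2
    refine bil_mono (bil_holder hl hlk (by positivity) (by positivity) F1 F2) (le_of_eq ?_)
    have hr : (0 : ℝ) < ((k - l + 1 : ℕ) : ℝ) := by positivity
    rw [itera_mix (by linarith) hp0 hr, itera_wt_succ k R hl]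
    congr 2
    have hla' : (l : ℝ) * a = ((k - l + 1 : ℕ) : ℝ) * b := by exact_mod_cast hla
    have hl0 : (0 : ℝ) < l := by exact_mod_cast hl
    have e1 : (a : ℝ) = ((k - l + 1 : ℕ) : ℝ) * b / l := by
      rw [← hla']; field_simp
    have e2 : ((k - l : ℕ) : ℝ) = ((k - l + 1 : ℕ) : ℝ) - 1 := by push_cast; ring
    rw [e1, e2]
    field_simp
    ring

end Pool.Agent.MP_927be3_nt.W

end PartIterA

section PartIterB

open Finset Polynomial

namespace Pool.Agent.MP_927be3_nt.W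

theorem iterb_triv {p k : ℕ} (hp : 1 ≤ p) (hk : 1 ≤ k) (n : ℕ) : DM p k n ((p : ℝ) ^ n) :=
  fun _ _ _ _ _ => dec_triv _ hp (tri_pos hk) n _

theorem iterb_ind {p k Z : ℕ} (hp : p.Prime) (hk : 1 ≤ k) {μ A1 : ℝ} (hμ : 0 < μ) (hA1 : 1 ≤ A1)
    (hB : ∀ n, Z ≤ n → ∃ l, l ≤ k ∧ Bil p k l 1 1 n (A1 * (p : ℝ) ^ (tri k * (μ * n)))) :
    ∃ A : ℝ, 1 ≤ A ∧ ∀ n : ℕ, DM p k n (A * (p : ℝ) ^ (μ * n)) := by
  have hp1 : (1 : ℝ) < p := by exact_mod_cast hp.one_lt
  have hp0 : (0 : ℝ) < p := by linarith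
  have hK : (1 : ℝ) ≤ tri k := by exact_mod_cast tri_pos hk
  have hθ0 : 0 < (p : ℝ) ^ (-μ) := by positivity
  have hθ : (p : ℝ) ^ (-μ) < 1 := Real.rpow_lt_one_of_one_lt_of_neg hp1 (by linarith)
  set θ := (p : ℝ) ^ (-μ) with hθd
  have hZ : (1 : ℝ) ≤ (p : ℝ) ^ Z := one_le_pow₀ hp1.le
  have hq : 0 ≤ p * A1 / (1 - θ) := div_nonneg (by positivity) (by linarith)
  set A := (p : ℝ) ^ Z + p * A1 / (1 - θ) with hA
  have hA2 : p * A1 ≤ A * (1 - θ) := by
    have : p * A1 / (1 - θ) * (1 - θ) = p * A1 := div_mul_cancel₀ _ (by linarith)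
    rw [hA, add_mul, this]
    have : 0 ≤ (p : ℝ) ^ Z * (1 - θ) := mul_nonneg (by linarith) (by linarith)
    linarith
  have triv : ∀ n, n ≤ Z → DM p k n (A * (p : ℝ) ^ (μ * n)) := by
    intro n hn
    refine dm_mono (iterb_triv hp.one_le hk n) ?_
    have h1 : (p : ℝ) ^ n ≤ (p : ℝ) ^ Z := pow_le_pow_right₀ hp1.le hn
    have h2 : (1 : ℝ) ≤ (p : ℝ) ^ (μ * n) := Real.one_le_rpow hp1.le (by positivity)
    calc (p : ℝ) ^ n ≤ A := by linarith
      _ ≤ _ := le_mul_of_one_le_right (by linarith) h2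
  refine ⟨A, by linarith, fun n => ?_⟩
  induction n with
  | zero => exact triv 0 (Nat.zero_le _)
  | succ n ih =>
    rcases le_total (n + 1) Z with h | h
    · exact triv _ h
    obtain ⟨l, hl, hb⟩ := hB (n + 1) h
    have hA0 : 0 ≤ A := by linarith
    refine dm_mono (broad hp.one_le hk hl (Nat.succ_pos n) (by positivity) (by positivity)
      (show DM p k (n + 1 - 1) _ from ih) hb) ?_
    have e1 : (p : ℝ) ^ (μ * n) = θ * (p : ℝ) ^ (μ * (n + 1 : ℕ)) := by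
      rw [hθd, ← Real.rpow_add hp0]
      congr 1
      push_cast
      ring
    have e2 : (A1 * (p : ℝ) ^ (tri k * (μ * (n + 1 : ℕ)))) ^ ((1 : ℝ) / tri k) ≤
        A1 * (p : ℝ) ^ (μ * (n + 1 : ℕ)) := by
      rw [Real.mul_rpow (by linarith) (by positivity), ← Real.rpow_mul hp0.le,
        show (tri k : ℝ) * (μ * (n + 1 : ℕ)) * (1 / tri k) = μ * (n + 1 : ℕ) by field_simp]
      refine mul_le_mul_of_nonneg_right ?_ (by positivity)
      calc A1 ^ ((1 : ℝ) / tri k) ≤ A1 ^ (1 : ℝ) :=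
            Real.rpow_le_rpow_of_exponent_le hA1 (by rw [div_le_one (by linarith)]; exact hK)
        _ = A1 := Real.rpow_one _
    rw [e1]
    have hx : 0 < (p : ℝ) ^ (μ * (n + 1 : ℕ)) := by positivity
    set x := (p : ℝ) ^ (μ * (n + 1 : ℕ))
    have e3 := mul_le_mul_of_nonneg_left e2 hp0.le
    have e4 := mul_le_mul_of_nonneg_right hA2 hx.le
    nlinarith

theorem improve {p k : ℕ} (hp : p.Prime) (hk : 2 ≤ k) (hkp : k < p)
    (hG : ∀ l, 1 ≤ l → l < k → SG p (DG p l)) {lam0 : ℝ} (h0 : 0 < lam0) :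
    ∃ c : ℝ, 0 < c ∧ ∀ lam A0 : ℝ, lam0 ≤ lam → 1 ≤ A0 →
      (∀ n : ℕ, DM p k n (A0 * (p : ℝ) ^ (lam * n))) →
      ∃ A : ℝ, 1 ≤ A ∧ ∀ n : ℕ, DM p k n (A * (p : ℝ) ^ ((lam - c) * n)) := by
  have hp1 : (1 : ℝ) ≤ p := by exact_mod_cast hp.one_le
  have hp0 : (0 : ℝ) < p := by linarith
  have hK : (1 : ℝ) ≤ tri k := by exact_mod_cast tri_pos (show 1 ≤ k by omega)
  have hk0 : (0 : ℝ) < k := by positivity
  obtain ⟨R, hR⟩ := exists_nat_ge ((2 * (k + 1) + 1) * k / lam0)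
  have hR' : 2 * (k + 1) + 1 ≤ lam0 * (R / k) := by
    rw [div_le_iff₀ h0] at hR
    rw [mul_div_assoc', le_div_iff₀ hk0]
    linarith
  set Z := (k * k.factorial) ^ (R + 1) with hZ
  have hZ0 : 0 < Z := by have := k.factorial_pos; positivity
  have hZ1 : (0 : ℝ) < Z := by exact_mod_cast hZ0
  refine ⟨min (lam0 / 2) (1 / (4 * tri k * Z)), lt_min (by linarith) (by positivity),
    fun lam A0 hlam hA0 hD => ?_⟩
  have c1 : min (lam0 / 2) (1 / (4 * tri k * Z)) ≤ lam0 / 2 := min_le_left _ _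
  have c2 : min (lam0 / 2) (1 / (4 * tri k * Z)) ≤ 1 / (4 * tri k * Z) := min_le_right _ _
  set c := min (lam0 / 2) (1 / (4 * tri k * Z))
  obtain ⟨A1, hA1, H⟩ := iter_step hp hk hkp hG (by linarith) hA0 hD R
    (show (0 : ℝ) < 1 / (4 * Z) by positivity)
  refine iterb_ind (Z := Z) hp (by omega) (by linarith) hA1 fun n hn => ?_
  obtain ⟨l, hl, hlk, hw⟩ := wt_exists hk R
  refine ⟨l, hlk.le, ?_⟩
  have hq : 1 ≤ n / Z := (Nat.one_le_div_iff hZ0).2 hn
  set b := k.factorial ^ (R + 1) * (n / Z) with hb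
  have hf : k ≤ k.factorial ^ (R + 1) :=
    (Nat.self_le_factorial k).trans (Nat.le_self_pow (by omega) _)
  have hbq : n / Z ≤ b := Nat.le_mul_of_pos_left _ (by omega)
  have hbk : k ≤ b := hf.trans (Nat.le_mul_of_pos_right _ hq)
  have hbn : k ^ (R + 1) * b ≤ n := by
    rw [hb, ← mul_assoc, ← mul_pow, ← hZ]
    exact Nat.mul_div_le _ _
  have ha1 : 1 ≤ (k - l + 1) * b / l :=
    (Nat.one_le_div_iff hl).2 (le_trans (by omega) (Nat.le_mul_of_pos_left b (Nat.succ_pos _)))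
  have hak : (k - l + 1) * b / l ≤ k * b :=
    (Nat.div_le_self _ _).trans (Nat.mul_le_mul_right _ (by omega))
  refine bil_mono (bil_triv hp.one_le hl hlk ha1 (by omega) (by positivity)
    (H l b n hl hlk (by omega) (Dvd.intro _ rfl) hbn)) ?_
  rw [← Real.rpow_natCast, mul_left_comm, ← Real.rpow_add hp0]
  refine mul_le_mul_of_nonneg_left (Real.rpow_le_rpow_of_exponent_le hp1 ?_) (by linarith)
  set a := (k - l + 1) * b / l
  have hak' : (a : ℝ) ≤ k * b := by exact_mod_cast hak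
  have hn2 : (n : ℝ) ≤ 2 * Z * b := by
    have h1 : n < Z * (n / Z + 1) := Nat.lt_mul_div_succ n hZ0
    have h2 : Z * (n / Z + 1) ≤ Z * (2 * b) := Nat.mul_le_mul_left _ (by omega)
    have h3 : n ≤ 2 * Z * b := by nlinarith
    exact_mod_cast h3
  have hb0 : (0 : ℝ) ≤ b := by positivity
  have hn0 : (0 : ℝ) ≤ n := by positivity
  have w1 : 2 * (k + 1) + 1 ≤ lam * wt k R l :=
    hR'.trans (mul_le_mul hlam hw (by positivity) (by linarith))
  have w2 : tri k * (2 * (k + 1) + 1) * b ≤ tri k * lam * wt k R l * b := by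
    rw [mul_assoc (tri k : ℝ) lam]
    gcongr
  have w3 : 1 / (4 * (Z : ℝ)) * n ≤ b / 2 := by
    rw [one_div_mul_eq_div, div_le_iff₀ (by positivity)]
    linarith
  have w4 : tri k * c * n ≤ 1 / (4 * (Z : ℝ)) * n := by
    refine mul_le_mul_of_nonneg_right ?_ hn0
    calc tri k * c ≤ tri k * (1 / (4 * tri k * Z)) := by gcongr
      _ = _ := by field_simp
  have w5 : (tri k : ℝ) * a ≤ tri k * (k * b) := by gcongr
  have w6 : (b : ℝ) ≤ tri k * b := le_mul_of_one_le_left hb0 hK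
  push_cast
  nlinarith

theorem sg_step {p k : ℕ} (hp : p.Prime) (hk : 2 ≤ k) (hkp : k < p)
    (hG : ∀ l, 1 ≤ l → l < k → SG p (DG p l)) : SG p (DM p k) := by
  intro ε hε
  have hp1 : (1 : ℝ) ≤ p := by exact_mod_cast hp.one_le
  obtain ⟨c, hc, H⟩ := improve hp hk hkp hG hε
  have mono : ∀ {A x y : ℝ}, 1 ≤ A → x ≤ y → (∀ n : ℕ, DM p k n (A * (p : ℝ) ^ (x * n))) →
      ∀ n : ℕ, DM p k n (A * (p : ℝ) ^ (y * n)) := by
    intro A x y hA hxy h n
    refine dm_mono (h n) (mul_le_mul_of_nonneg_left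
      (Real.rpow_le_rpow_of_exponent_le hp1 ?_) (by linarith))
    exact mul_le_mul_of_nonneg_right hxy (Nat.cast_nonneg n)
  have key : ∀ i : ℕ, ∃ A : ℝ, 1 ≤ A ∧
      ∀ n : ℕ, DM p k n (A * (p : ℝ) ^ (max ε (1 - i * c) * n)) := by
    intro i
    induction i with
    | zero =>
      refine ⟨1, le_rfl, mono (x := 1) le_rfl (by simp) fun n => ?_⟩
      rw [one_mul, one_mul, Real.rpow_natCast]
      exact iterb_triv hp.one_le (by omega) n
    | succ i ih =>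
      obtain ⟨A, hA, h⟩ := ih
      obtain ⟨A', hA', h'⟩ := H _ A (le_max_left _ _) hA h
      refine ⟨A', hA', mono hA' ?_ h'⟩
      rcases le_total ε (1 - i * c) with h1 | h1
      · rw [max_eq_right h1]
        refine le_trans (le_of_eq ?_) (le_max_right _ _)
        push_cast
        ring
      · rw [max_eq_left h1]
        exact le_trans (by linarith) (le_max_left _ _)
  obtain ⟨i, hi⟩ := exists_nat_ge (1 / c)
  obtain ⟨A, hA, h⟩ := key i
  rw [div_le_iff₀ hc] at hi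
  rw [max_eq_left (by linarith)] at h
  exact ⟨A, hA, h⟩

theorem decoupling {p : ℕ} (hp : p.Prime) (k : ℕ) (hk : 1 ≤ k) (hkp : k < p) : SG p (DM p k) := by
  induction k using Nat.strong_induction_on with
  | _ k ih =>
    rcases Nat.eq_or_lt_of_le hk with h | h
    · subst h
      intro ε hε
      refine ⟨1, le_rfl, fun n => dm_mono (dm_one hp.one_le n) ?_⟩
      rw [one_mul]
      exact Real.one_le_rpow (by exact_mod_cast hp.one_le) (by positivity)
    · exact sg_step hp h hkp fun l h1 h2 => sg_gen hp.two_le h1 (ih l h2 h1 (by omega))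

theorem decouplingG {p : ℕ} (hp : p.Prime) (k : ℕ) (hk : 1 ≤ k) (hkp : k < p) : SG p (DG p k) :=
  sg_gen hp.two_le hk (decoupling hp k hk hkp)

end Pool.Agent.MP_927be3_nt.W

end PartIterB

section PartCount

open Finset Polynomial

namespace Pool.Agent.MP_927be3_nt.W

theorem count_orth {q l : ℕ} [NeZero q] (b : Fin l → ZMod q) :
    ∑ y : Fin l → ZMod q, ch (∑ i, y i * b i) = if ∀ i, b i = 0 then (q : ℂ) ^ l else 0 := by
  simp_rw [ch_sum]
  have := Finset.prod_univ_sum (fun _ : Fin l => (univ : Finset (ZMod q)))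
    (fun i t => ch (t * b i))
  rw [Fintype.piFinset_univ] at this
  rw [← this]
  simp_rw [ch_orth]
  split_ifs with h
  · simp [h]
  · obtain ⟨i, hi⟩ := not_forall.1 h
    exact prod_eq_zero (mem_univ i) (if_neg hi)

theorem count_eval {q l : ℕ} (φ : Fin l → (ZMod q)[X]) (y : Fin l → ZMod q) (a : ZMod q) :
    (ph φ y).eval a = ∑ i, y i * (φ i).eval a := by
  simp [ph, eval_finsetSum]

theorem count_pow {q l K : ℕ} [NeZero q] (φ : Fin l → (ZMod q)[X]) (S : Finset ℤ)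
    (y : Fin l → ZMod q) :
    (∑ a ∈ S, ch ((ph φ y).eval (a : ZMod q))) ^ K =
      ∑ x ∈ Fintype.piFinset (fun _ : Fin K => S),
        ch (∑ i, y i * ∑ r, (φ i).eval (x r : ZMod q)) := by
  rw [Finset.sum_pow']
  refine sum_congr rfl fun x _ => ?_
  rw [← ch_sum]
  congr 1
  simp_rw [count_eval, mul_sum]
  exact sum_comm

theorem count_mean {q l K : ℕ} [NeZero q] (φ : Fin l → (ZMod q)[X]) (S : Finset ℤ) :
    ∑ y : Fin l → ZMod q, ‖∑ a ∈ S, ch ((ph φ y).eval (a : ZMod q))‖ ^ (2 * K) =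
      (#{z ∈ Pairs K S | ∀ i, ∑ r, (φ i).eval (z.1 r : ZMod q) =
        ∑ r, (φ i).eval (z.2 r : ZMod q)} : ℝ) * (q : ℝ) ^ l := by
  apply Complex.ofReal_injective
  push_cast
  have h1 : ∀ y : Fin l → ZMod q, ((‖∑ a ∈ S, ch ((ph φ y).eval (a : ZMod q))‖ : ℝ) : ℂ) ^ (2 * K) =
      ∑ z ∈ Pairs K S, ch (∑ i, y i * (∑ r, (φ i).eval (z.1 r : ZMod q) -
        ∑ r, (φ i).eval (z.2 r : ZMod q))) := by
    intro y
    rw [pow_mul, ← Complex.mul_conj', mul_pow, ← map_pow, count_pow, map_sum, sum_mul_sum, Pairs,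
      sum_product]
    refine sum_congr rfl fun x _ => sum_congr rfl fun x' _ => ?_
    rw [← ch_sub, ← sum_sub_distrib]
    simp_rw [mul_sub]
  simp_rw [h1]
  rw [sum_comm]
  simp_rw [count_orth, sub_eq_zero]
  rw [← sum_filter, sum_const, nsmul_eq_mul]

theorem count_le {q l p n K : ℕ} [NeZero q] {φ : Fin l → (ZMod q)[X]} {U : ℤ → Prop} {A : ℝ}
    (hK : 1 ≤ K) (hA : 0 ≤ A) (h : Dec φ p n K U A) (S : Finset ℤ) (hS : Sep p n S)
    (hU : ∀ a ∈ S, U a) :
    (#{z ∈ Pairs K S | ∀ i, ∑ r, (φ i).eval (z.1 r : ZMod q) = ∑ r, (φ i).eval (z.2 r : ZMod q)} : ℝ)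
      ≤ A ^ K * (#S : ℝ) ^ K := by
  have hq : (0 : ℝ) < (q : ℝ) ^ l := pow_pos (by exact_mod_cast NeZero.pos q) _
  have h1 := h S (fun a y => ch ((ph φ y).eval (a : ZMod q))) hS hU (fun a _ y _ x => by
    beta_reduce
    rw [ph_add, eval_add, ch_add, mul_comm])
  have h2 : ∀ a : ℤ, nu K (fun y : Fin l → ZMod q => ch ((ph φ y).eval (a : ZMod q))) =
      ((q : ℝ) ^ l) ^ ((1 : ℝ) / K) := by
    intro a
    simp [nu, ZMod.card]
  simp_rw [h2] at h1
  rw [sum_const, nsmul_eq_mul, nu_le_iff hK _ (by positivity)] at h1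
  simp_rw [Finset.sum_apply] at h1
  rw [count_mean, mul_pow, mul_pow, one_div, Real.rpow_inv_natCast_pow hq.le (by omega),
    ← mul_assoc] at h1
  exact le_of_mul_le_mul_right h1 hq

theorem vmvt {e : ℕ} (he : 1 ≤ e) {ε : ℝ} (hε : 0 < ε) :
    ∃ A : ℝ, 0 < A ∧ ∀ H : ℕ, 1 ≤ H → (Jv e H : ℝ) ≤ A * (H : ℝ) ^ ε * (H : ℝ) ^ tri e := by
  obtain ⟨p, hpe, hp⟩ := Nat.exists_infinite_primes (e + 1)
  have hK : 1 ≤ tri e := tri_pos he
  have hK0 : (0 : ℝ) < tri e := by exact_mod_cast hK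
  have hp0 : (0 : ℝ) < p := by exact_mod_cast hp.pos
  obtain ⟨A0, hA0, hD⟩ := decoupling hp e he hpe (ε / tri e) (by positivity)
  refine ⟨A0 ^ tri e * (2 * p) ^ ε * 3 ^ tri e, by positivity, fun H hH => ?_⟩
  set n := Nat.log p (2 * H) + 1 with hn
  have h1 : 2 * H < p ^ n := Nat.lt_pow_succ_log_self hp.one_lt _
  have h2 : p ^ n ≤ 2 * p * H := by
    have := Nat.pow_log_le_self p (show 2 * H ≠ 0 by omega)
    rw [hn, pow_succ]
    nlinarith [hp.pos]
  have : NeZero (p ^ (e * n)) := ⟨pow_ne_zero _ hp.ne_zero⟩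
  have hS : Sep p n (Icc (-(H : ℤ)) H) := by
    intro a ha b hb hd
    rw [mem_Icc] at ha hb
    have h3 : (2 * H : ℤ) < (p : ℤ) ^ n := by exact_mod_cast h1
    have := Int.eq_zero_of_abs_lt_dvd hd (by rw [abs_lt]; constructor <;> linarith [ha.1, hb.2])
    linarith
  have h3 := count_le hK (by positivity) (hD n (e * n) (p ^ (e * n)) rfl le_rfl) _ hS
    (fun _ _ => trivial)
  have h4 : Jv e H ≤ #{z ∈ Pairs (tri e) (Icc (-(H : ℤ)) (H : ℤ) : Finset ℤ) |
      ∀ i, ∑ r, (mom (p ^ (e * n)) e i).eval ((z.1 r : ℤ) : ZMod (p ^ (e * n))) =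
        ∑ r, (mom (p ^ (e * n)) e i).eval ((z.2 r : ℤ) : ZMod (p ^ (e * n)))} := by
    refine card_le_card fun z hz => ?_
    obtain ⟨hz1, hz2⟩ := mem_filter.1 hz
    refine mem_filter.2 ⟨hz1, fun i => ?_⟩
    simp only [mom, eval_pow, eval_X]
    refine Fin.cases ?_ (fun j => ?_) i
    · simp
    · have := congrArg (Int.cast : ℤ → ZMod (p ^ (e * n))) (hz2 j)
      push_cast at this
      simpa using this
  have h5 : (#(Icc (-(H : ℤ)) H) : ℝ) ≤ 3 * H := by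
    have : #(Icc (-(H : ℤ)) H) ≤ 3 * H := by
      rw [Int.card_Icc]
      omega
    exact_mod_cast this
  have h6 : ((p : ℝ) ^ (ε / tri e * n)) ^ tri e ≤ (2 * p) ^ ε * (H : ℝ) ^ ε := by
    rw [← Real.rpow_natCast, ← Real.rpow_mul hp0.le,
      show ε / tri e * n * tri e = n * ε by field_simp, Real.rpow_mul hp0.le, Real.rpow_natCast,
      ← Real.mul_rpow (by positivity) (by positivity)]
    exact Real.rpow_le_rpow (by positivity) (by exact_mod_cast h2) hε.le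
  calc (Jv e H : ℝ) ≤ _ := Nat.cast_le.2 h4
    _ ≤ _ := h3
    _ ≤ (A0 ^ tri e * ((2 * p) ^ ε * (H : ℝ) ^ ε)) * (3 * H) ^ tri e := by
      rw [mul_pow]
      gcongr
    _ = _ := by
      rw [mul_pow]
      ring

end Pool.Agent.MP_927be3_nt.W

end PartCount
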