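import Pool.Agent.MP_927be3_nt.Up.A

/-! Moments of Weyl sums, the double large sieve, mean values at well spaced points. -/

section PartJlineA

open Finset Polynomial

namespace Pool.Agent.MP_927be3_nt.W

/-- the incomplete system -/
noncomputable def chi (q k j : ℕ) : Fin (j + 1) → (ZMod q)[X] :=
  fun i => if (i : ℕ) = j then X ^ k else X ^ (i : ℕ)

theorem chi_nd {p N q k j : ℕ} (hp : p.Prime) (hq : q = p ^ N) (hk : k < p) (hj : j ≤ k)
    {a : ℤ} (ha : ¬ (p : ℤ) ∣ a) : ND (chi q k j) a := by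
  intro y hy
  rw [X_sub_C_pow_dvd_iff, ← taylor_apply, X_pow_dvd_iff] at hy
  have hlast : y (Fin.last j) = 0 := by
    have h1 := hy j (Nat.lt_succ_self j)
    rw [taylor_coeff, ph, map_sum, eval_finsetSum, Fin.sum_univ_castSucc] at h1
    have h2 : ∑ i : Fin j, eval (a : ZMod q)
        (hasseDeriv j (C (y i.castSucc) * chi q k j i.castSucc)) = 0 := by
      refine sum_eq_zero fun i _ => ?_
      have hi : (i : ℕ) < j := i.2
      simp only [chi, Fin.val_castSucc, if_neg hi.ne, C_mul_X_pow_eq_monomial, hasseDeriv_monomial,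
        Nat.choose_eq_zero_of_lt hi]
      simp
    rw [h2, zero_add] at h1
    simp only [chi, Fin.val_last, if_true, C_mul_X_pow_eq_monomial, hasseDeriv_monomial,
      eval_monomial] at h1
    have u1 : IsUnit ((k.choose j : ℕ) : ZMod q) := by
      have : ¬ (p : ℤ) ∣ ((k.choose j : ℕ) : ℤ) := by
        rw [Int.natCast_dvd_natCast]
        intro h
        have h3 : p ∣ k.factorial := by
          rw [← Nat.choose_mul_factorial_mul_factorial hj, mul_assoc]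
          exact h.mul_right _
        rw [hp.dvd_factorial] at h3
        omega
      simpa using isUnit_of_not_dvd hp hq this
    have u2 : IsUnit ((a : ZMod q) ^ (k - j)) := (isUnit_of_not_dvd hp hq ha).pow _
    rw [u2.mul_left_eq_zero, u1.mul_right_eq_zero] at h1
    exact h1
  have e : ph (chi q k j) y = ph (mom q j) y := by
    simp only [ph, Fin.sum_univ_castSucc, hlast, map_zero, zero_mul, add_zero]
    refine sum_congr rfl fun i _ => ?_
    have hi : (i : ℕ) < j := i.2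
    simp only [chi, mom, Fin.val_castSucc, if_neg hi.ne]
  rw [e] at hy
  have h0 : taylor (a : ZMod q) (ph (mom q j) y) = 0 := by
    ext d
    rcases Nat.lt_or_ge d (j + 1) with h | h
    · simpa using hy d h
    · rw [coeff_zero]
      refine coeff_eq_zero_of_natDegree_lt ?_
      rw [natDegree_taylor]
      exact (ph_mom_natDegree y).trans_lt h
  have h1 : ph (mom q j) y = 0 := taylor_injective (a : ZMod q) (by rw [h0, map_zero])
  funext i
  rw [← ph_mom_coeff y i, h1, coeff_zero, Pi.zero_apply]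

theorem unit_sys {p k j : ℕ} (hp : p.Prime) (hk : k < p) (hj1 : 1 ≤ j) (hj : j ≤ k) {ε : ℝ}
    (hε : 0 < ε) : ∃ A : ℝ, 0 < A ∧ ∀ P : ℕ, 1 ≤ P →
      (#{z ∈ Pairs (tri j) ((range (P + 1)).filter fun x => ¬ p ∣ x) |
        (∑ r, z.1 r ^ k = ∑ r, z.2 r ^ k) ∧
          ∀ i : Fin (j - 1), ∑ r, z.1 r ^ ((i : ℕ) + 1) = ∑ r, z.2 r ^ ((i : ℕ) + 1)} : ℝ) ≤
        A * (P : ℝ) ^ ε * (P : ℝ) ^ tri j := by
  have hK : 1 ≤ tri j := tri_pos hj1
  have hK' : (0 : ℝ) < tri j := by exact_mod_cast hK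
  have hp0 : (0 : ℝ) < p := by exact_mod_cast hp.pos
  obtain ⟨A0, hA0, hD⟩ := decouplingG hp j hj1 (by omega) (ε / tri j) (by positivity)
  refine ⟨A0 ^ tri j * (p : ℝ) ^ ε, by positivity, fun P hP => ?_⟩
  set n := Nat.log p P + 1 with hn
  have hPn : P < p ^ n := Nat.lt_pow_succ_log_self hp.one_lt P
  have hnP : p ^ n ≤ p * P := by
    rw [hn, pow_succ']
    exact Nat.mul_le_mul_left _ (Nat.pow_log_le_self p (by omega))
  have : NeZero (p ^ (j * n)) := ⟨pow_ne_zero _ hp.ne_zero⟩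
  set S0 := (range (P + 1)).filter fun x => ¬ p ∣ x with hS0
  set S : Finset ℤ := S0.image (fun x : ℕ => (x : ℤ)) with hS
  have h1 : ∃ y, ph (chi (p ^ (j * n)) k j) y = 1 := by
    refine ⟨Pi.single 0 1, ?_⟩
    rw [ph, sum_eq_single 0]
    · have : ¬ (0 = j) := by omega
      simp [chi, this]
    · intro b _ hb
      simp [Pi.single_eq_of_ne hb]
    · simp
  have hdec := hD n (j * n) (p ^ (j * n)) rfl le_rfl (chi _ k j) h1
  have hsep : Sep p n S := by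
    intro a ha b hb hab
    obtain ⟨a, ha', rfl⟩ := mem_image.1 ha
    obtain ⟨b, hb', rfl⟩ := mem_image.1 hb
    have h2 := mem_range.1 (mem_filter.1 ha').1
    have h3 := mem_range.1 (mem_filter.1 hb').1
    have h4 : ((P : ℕ) : ℤ) < (p : ℤ) ^ n := by exact_mod_cast hPn
    have := Int.eq_zero_of_abs_lt_dvd hab (by rw [abs_lt]; constructor <;> omega)
    omega
  have hU : ∀ a ∈ S, ND (chi (p ^ (j * n)) k j) a := by
    intro a ha
    obtain ⟨a, ha', rfl⟩ := mem_image.1 ha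
    exact chi_nd hp rfl hk hj (by rw [Int.natCast_dvd_natCast]; exact (mem_filter.1 ha').2)
  have H := count_le hK (by positivity) hdec S hsep hU
  have hcard : (#S : ℝ) ≤ P := by
    have : S0 ⊆ Icc 1 P := by
      intro x hx
      obtain ⟨h2, h3⟩ := mem_filter.1 hx
      have := mem_range.1 h2
      have : x ≠ 0 := fun h => h3 (h ▸ dvd_zero p)
      rw [mem_Icc]
      omega
    have h2 : #S ≤ #(Icc 1 P) := card_image_le.trans (card_le_card this)
    rw [Nat.card_Icc, Nat.add_sub_cancel] at h2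
    exact_mod_cast h2
  refine le_trans ?_ (H.trans ?_)
  · refine Nat.cast_le.2 (card_le_card_of_injOn
      (fun z => (fun r => (z.1 r : ℤ), fun r => (z.2 r : ℤ))) ?_ ?_)
    · intro z hz
      obtain ⟨hz1, hz2, hz3⟩ := mem_filter.1 (mem_coe.1 hz)
      simp only [Pairs, mem_product, Fintype.mem_piFinset] at hz1
      refine mem_coe.2 (mem_filter.2 ⟨?_, fun i => ?_⟩)
      · simp only [Pairs, mem_product, Fintype.mem_piFinset]
        exact ⟨fun r => mem_image_of_mem _ (hz1.1 r), fun r => mem_image_of_mem _ (hz1.2 r)⟩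
      · simp only [chi, Int.cast_natCast]
        split_ifs with h
        · simp only [eval_pow, eval_X]
          exact_mod_cast congrArg (fun m : ℕ => (m : ZMod (p ^ (j * n)))) hz2
        · simp only [eval_pow, eval_X]
          rcases Nat.eq_zero_or_pos i with h0 | h0
          · simp [h0]
          · have h5 := hz3 ⟨i - 1, by have := i.2; omega⟩
            simp only [Nat.sub_add_cancel h0] at h5
            exact_mod_cast congrArg (fun m : ℕ => (m : ZMod (p ^ (j * n)))) h5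
    · intro z _ z' _ h
      simp only [Prod.mk.injEq] at h
      refine Prod.ext (funext fun r => ?_) (funext fun r => ?_)
      · exact_mod_cast congrFun h.1 r
      · exact_mod_cast congrFun h.2 r
  · have e : (A0 * (p : ℝ) ^ (ε / tri j * n)) ^ tri j = A0 ^ tri j * ((p : ℝ) ^ n) ^ ε := by
      rw [mul_pow, ← Real.rpow_natCast ((p : ℝ) ^ _), ← Real.rpow_mul hp0.le,
        ← Real.rpow_natCast (p : ℝ) n, ← Real.rpow_mul hp0.le]
      congr 2
      field_simp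
    have h2 : ((p : ℝ) ^ n) ^ ε ≤ (p : ℝ) ^ ε * (P : ℝ) ^ ε := by
      rw [← Real.mul_rpow hp0.le (Nat.cast_nonneg _)]
      exact Real.rpow_le_rpow (by positivity) (by exact_mod_cast hnP) hε.le
    rw [e, mul_assoc (A0 ^ tri j) ((p : ℝ) ^ ε)]
    gcongr

theorem jlinea_pairs {α γ : Type} [DecidableEq γ] (X : Finset α) (g : α → γ) (T : Finset γ)
    (hT : ∀ x ∈ X, g x ∈ T) :
    #{z ∈ X ×ˢ X | g z.1 = g z.2} = ∑ c ∈ T, #{x ∈ X | g x = c} ^ 2 := by
  classical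
  rw [card_eq_sum_card_fiberwise (f := fun z => g z.1) (t := T)
    (fun z hz => hT _ (mem_product.1 (mem_filter.1 (mem_coe.1 hz)).1).1)]
  refine sum_congr rfl fun c _ => ?_
  rw [sq, ← card_product]
  congr 1
  ext z
  simp only [mem_filter, mem_product]
  constructor
  · rintro ⟨⟨⟨h1, h2⟩, h3⟩, h4⟩
    exact ⟨⟨h1, h4⟩, h2, h3 ▸ h4⟩
  · rintro ⟨⟨h1, h4⟩, h2, h3⟩
    exact ⟨⟨⟨h1, h2⟩, h4.trans h3.symm⟩, h4⟩

theorem jlinea_refine {α β γ : Type} [DecidableEq β] [DecidableEq γ] (X : Finset α) (s : α → γ)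
    (h : α → β) (H : Finset β) (hH : ∀ x ∈ X, h x ∈ H) :
    #{z ∈ X ×ˢ X | s z.1 = s z.2} ≤ #H * #{z ∈ X ×ˢ X | s z.1 = s z.2 ∧ h z.1 = h z.2} := by
  classical
  have e1 := jlinea_pairs X s (X.image s) (fun x hx => mem_image_of_mem _ hx)
  have e2 := jlinea_pairs X (fun x => (s x, h x)) (X.image s ×ˢ H)
    (fun x hx => mem_product.2 ⟨mem_image_of_mem _ hx, hH x hx⟩)
  simp only [Prod.mk.injEq] at e2
  rw [e1, e2, sum_product, mul_sum]
  refine sum_le_sum fun c _ => ?_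
  rw [card_eq_sum_card_fiberwise (f := h) (t := H)
    (fun x hx => hH _ (mem_filter.1 (mem_coe.1 hx)).1)]
  refine sq_sum_le_card_mul_sum_sq.trans (le_of_eq ?_)
  congr 1
  refine sum_congr rfl fun b _ => ?_
  simp only [filter_filter, Prod.mk.injEq]

theorem jlinea_tri (m : ℕ) : ∑ i : Fin m, ((i : ℕ) + 1) = tri m := by
  induction m with
  | zero => rfl
  | succ m ih => rw [Fin.sum_univ_castSucc, tri_succ, ← ih]; simp

theorem unit_eq {p k j : ℕ} (hp : p.Prime) (hk : k < p) (hj1 : 1 ≤ j) (hj : j ≤ k) {ε : ℝ}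
    (hε : 0 < ε) : ∃ A : ℝ, 0 < A ∧ ∀ P : ℕ, 1 ≤ P →
      (#{z ∈ Pairs (tri j) ((range (P + 1)).filter fun x => ¬ p ∣ x) |
        ∑ r, z.1 r ^ k = ∑ r, z.2 r ^ k} : ℝ) ≤ A * (P : ℝ) ^ ε * (P : ℝ) ^ (j ^ 2) := by
  obtain ⟨A, hA, H⟩ := unit_sys hp hk hj1 hj hε
  refine ⟨((tri j : ℝ) + 1) ^ (j - 1) * A, by positivity, fun P hP => ?_⟩
  have H1 := H P hP
  set S0 := (range (P + 1)).filter fun x => ¬ p ∣ x with hS0
  have H2 := jlinea_refine (Fintype.piFinset fun _ : Fin (tri j) => S0) (fun x => ∑ r, x r ^ k)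
    (fun x => fun i : Fin (j - 1) => ∑ r, x r ^ ((i : ℕ) + 1))
    (Fintype.piFinset fun i : Fin (j - 1) => range (tri j * P ^ ((i : ℕ) + 1) + 1)) (by
      intro x hx
      rw [Fintype.mem_piFinset] at hx ⊢
      intro i
      rw [mem_range, Nat.lt_succ_iff]
      calc _ ≤ ∑ _r : Fin (tri j), P ^ ((i : ℕ) + 1) := by
            refine sum_le_sum fun r _ => Nat.pow_le_pow_left ?_ _
            exact Nat.lt_succ_iff.1 (mem_range.1 (mem_filter.1 (hx r)).1)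
        _ = _ := by simp)
  simp only [funext_iff] at H2
  have H3 : #(Fintype.piFinset fun i : Fin (j - 1) => range (tri j * P ^ ((i : ℕ) + 1) + 1)) ≤
      (tri j + 1) ^ (j - 1) * P ^ tri (j - 1) := by
    rw [Fintype.card_piFinset, ← jlinea_tri (j - 1), ← prod_pow_eq_pow_sum]
    calc _ ≤ ∏ i : Fin (j - 1), ((tri j + 1) * P ^ ((i : ℕ) + 1)) := by
          refine prod_le_prod' fun i _ => ?_
          have : 1 ≤ P ^ ((i : ℕ) + 1) := Nat.one_le_pow _ _ hP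
          rw [card_range]
          nlinarith
      _ = _ := by rw [prod_mul_distrib]; simp
  have e : j ^ 2 = tri (j - 1) + tri j := by
    obtain ⟨m, rfl⟩ : ∃ m, j = m + 1 := ⟨j - 1, by omega⟩
    have h1 := two_mul_tri m
    have h2 := two_mul_tri (m + 1)
    rw [Nat.add_sub_cancel]
    nlinarith
  have H4 := H2.trans (Nat.mul_le_mul_right _ H3)
  have H5 := (Nat.cast_le (α := ℝ)).2 H4
  push_cast at H5
  refine le_trans H5 ?_
  calc _ ≤ ((tri j : ℝ) + 1) ^ (j - 1) * (P : ℝ) ^ tri (j - 1) *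
        (A * (P : ℝ) ^ ε * (P : ℝ) ^ tri j) := mul_le_mul_of_nonneg_left H1 (by positivity)
    _ = _ := by rw [e, pow_add]; ring

end Pool.Agent.MP_927be3_nt.W

end PartJlineA

section PartFour

open Finset Polynomial

namespace Pool.Agent.MP_927be3_nt.W

theorem four_pow {k w q : ℕ} [NeZero q] (S : Finset ℕ) (a : ZMod q) :
    (∑ x ∈ S, ch (a * (x : ZMod q) ^ k)) ^ w =
      ∑ x ∈ Fintype.piFinset (fun _ : Fin w => S), ch (a * ((∑ r, x r ^ k : ℕ) : ZMod q)) := by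
  rw [Finset.sum_pow']
  refine sum_congr rfl fun x _ => ?_
  rw [← ch_sum]
  congr 1
  push_cast
  rw [mul_sum]

theorem four_lt {k w P q : ℕ} (hq : w * P ^ k < q) {S : Finset ℕ} (hS : ∀ x ∈ S, x ≤ P)
    {x : Fin w → ℕ} (hx : x ∈ Fintype.piFinset (fun _ : Fin w => S)) : ∑ r, x r ^ k < q := by
  refine lt_of_le_of_lt ?_ hq
  have : ∑ r, x r ^ k ≤ ∑ _r : Fin w, P ^ k :=
    sum_le_sum fun r _ => Nat.pow_le_pow_left (hS _ (Fintype.mem_piFinset.1 hx r)) k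
  simpa using this

theorem four_orth {q : ℕ} [NeZero q] {m n : ℕ} (hm : m < q) (hn : n < q) :
    ∑ a : ZMod q, ch (a * (m : ZMod q)) * ch (-(a * (n : ZMod q))) =
      if m = n then (q : ℂ) else 0 := by
  have h1 : ∀ a : ZMod q, ch (a * (m : ZMod q)) * ch (-(a * (n : ZMod q))) =
      ch (a * ((m : ZMod q) - (n : ZMod q))) := by
    intro a
    rw [← ch_add]
    congr 1
    ring
  simp only [h1]
  rw [ch_orth]
  have h2 : (m : ZMod q) - (n : ZMod q) = 0 ↔ m = n := by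
    rw [sub_eq_zero, ZMod.natCast_eq_natCast_iff', Nat.mod_eq_of_lt hm, Nat.mod_eq_of_lt hn]
  simp only [h2]

theorem four_mom {k w P q : ℕ} [NeZero q] (hq : w * P ^ k < q) (S : Finset ℕ)
    (hS : ∀ x ∈ S, x ≤ P) :
    ∑ a : ZMod q, ‖∑ x ∈ S, ch (a * (x : ZMod q) ^ k)‖ ^ (2 * w) =
      q * (#{z ∈ Pairs w S | ∑ r, z.1 r ^ k = ∑ r, z.2 r ^ k} : ℝ) := by
  have h1 : ∀ a : ZMod q, ((‖∑ x ∈ S, ch (a * (x : ZMod q) ^ k)‖ ^ (2 * w) : ℝ) : ℂ) =
      ∑ z ∈ Pairs w S, ch (a * ((∑ r, z.1 r ^ k : ℕ) : ZMod q)) *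
        ch (-(a * ((∑ r, z.2 r ^ k : ℕ) : ZMod q))) := by
    intro a
    have h2 : ((‖∑ x ∈ S, ch (a * (x : ZMod q) ^ k)‖ ^ (2 * w) : ℝ) : ℂ) =
        (∑ x ∈ S, ch (a * (x : ZMod q) ^ k)) ^ w *
          (starRingEnd ℂ) ((∑ x ∈ S, ch (a * (x : ZMod q) ^ k)) ^ w) := by
      rw [Complex.mul_conj', norm_pow, ← Complex.ofReal_pow, ← pow_mul, mul_comm w 2]
    rw [h2, four_pow, map_sum, sum_mul_sum, Pairs, sum_product]
    refine sum_congr rfl fun x _ => sum_congr rfl fun y _ => ?_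
    rw [ch_neg]
  apply Complex.ofReal_injective
  rw [Complex.ofReal_sum]
  simp only [h1]
  rw [sum_comm]
  have h3 : ∀ z ∈ Pairs w S, ∑ a : ZMod q, ch (a * ((∑ r, z.1 r ^ k : ℕ) : ZMod q)) *
      ch (-(a * ((∑ r, z.2 r ^ k : ℕ) : ZMod q))) =
        if ∑ r, z.1 r ^ k = ∑ r, z.2 r ^ k then (q : ℂ) else 0 := by
    intro z hz
    rw [Pairs, mem_product] at hz
    exact four_orth (four_lt hq hS hz.1) (four_lt hq hS hz.2)
  rw [sum_congr rfl h3, ← sum_filter, sum_const, nsmul_eq_mul]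
  push_cast
  ring

theorem four_rep {k s P n q : ℕ} [NeZero q] (hq : s * P ^ k < q) (hn : n < q) :
    ∑ a : ZMod q, fw k P a ^ s * ch (-(a * (n : ZMod q))) = q * (Rep k s P n : ℂ) := by
  simp only [fw, four_pow, sum_mul]
  rw [sum_comm]
  have h3 : ∀ x ∈ Fintype.piFinset (fun _ : Fin s => range (P + 1)),
      ∑ a : ZMod q, ch (a * ((∑ r, x r ^ k : ℕ) : ZMod q)) * ch (-(a * (n : ZMod q))) =
        if ∑ r, x r ^ k = n then (q : ℂ) else 0 := fun x hx =>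
    four_orth (four_lt hq (fun y hy => Nat.lt_succ_iff.1 (mem_range.1 hy)) hx) hn
  rw [sum_congr rfl h3, ← sum_filter, sum_const, nsmul_eq_mul, Rep]
  ring

theorem four_good {k P q : ℕ} [NeZero q] (hk : 1 ≤ k) (hP : 1 ≤ P) (h : Good k P q) :
    P * P ^ k < q := by
  refine lt_of_lt_of_le ?_ (h.le hk)
  have h1 : P * P ^ k ≤ P ^ (2 * k) := by
    rw [← pow_succ']
    exact Nat.pow_le_pow_right hP (by omega)
  refine lt_of_le_of_lt h1 (Nat.pow_lt_pow_left ?_ (by omega))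
  nlinarith

theorem level3 {k w j : ℕ} (hk : 1 ≤ k) (h : Mom k w j) {ε : ℝ} (hε : 0 < ε) :
    ∃ A : ℝ, 0 < A ∧ ∀ P : ℕ, 1 ≤ P → w ≤ P → ∀ (q : ℕ) [NeZero q], Good k P q → ∀ V : ℝ, 0 < V →
      (#(Lv k P q V) : ℝ) ≤ A * (P : ℝ) ^ ε * (P / V) ^ (2 * w) * q / (P : ℝ) ^ j := by
  obtain ⟨A, hA, hI⟩ := h ε hε
  refine ⟨A, hA, fun P hP hw q _ hG V hV => ?_⟩
  have hq : w * P ^ k < q :=
    lt_of_le_of_lt (Nat.mul_le_mul_right _ hw) (four_good hk hP hG)
  have h1 := four_mom hq (range (P + 1)) (fun y hy => Nat.lt_succ_iff.1 (mem_range.1 hy))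
  have h2 : (#(Lv k P q V) : ℝ) * V ^ (2 * w) ≤ q * (Iw k w P : ℝ) := by
    rw [Iw, ← h1]
    calc (#(Lv k P q V) : ℝ) * V ^ (2 * w) = ∑ _a ∈ Lv k P q V, V ^ (2 * w) := by
          rw [sum_const, nsmul_eq_mul]
      _ ≤ ∑ a ∈ Lv k P q V, ‖fw k P a‖ ^ (2 * w) :=
          sum_le_sum fun a ha => pow_le_pow_left₀ hV.le (mem_filter.1 ha).2 _
      _ ≤ ∑ a : ZMod q, ‖fw k P a‖ ^ (2 * w) :=
          sum_le_sum_of_subset_of_nonneg (subset_univ _) fun _ _ _ => by positivity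
      _ = _ := rfl
  have h3 := hI P hP
  have hV2 : 0 < V ^ (2 * w) := by positivity
  have h4 : (#(Lv k P q V) : ℝ) ≤ q * (Iw k w P : ℝ) / V ^ (2 * w) := by
    rw [le_div_iff₀ hV2]
    exact h2
  refine h4.trans ?_
  calc (q : ℝ) * (Iw k w P : ℝ) / V ^ (2 * w)
      ≤ q * (A * (P : ℝ) ^ ε * (P : ℝ) ^ (2 * w) / (P : ℝ) ^ j) / V ^ (2 * w) := by gcongr
    _ = _ := by
      rw [div_pow]
      ring

theorem four_icc {D : ℝ} (hD : 0 ≤ D) : (#(Icc (-⌊D⌋) ⌊D⌋) : ℝ) ≤ 2 * D + 1 := by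
  have h0 : 0 ≤ ⌊D⌋ := Int.floor_nonneg.2 hD
  have h1 : ((#(Icc (-⌊D⌋) ⌊D⌋) : ℕ) : ℤ) = 2 * ⌊D⌋ + 1 := by
    rw [Int.card_Icc, Int.toNat_of_nonneg (by omega)]
    ring
  have h2 : (#(Icc (-⌊D⌋) ⌊D⌋) : ℝ) = 2 * (⌊D⌋ : ℝ) + 1 := by exact_mod_cast h1
  rw [h2]
  have := Int.floor_le D
  linarith

theorem four_mem {D : ℝ} {e : ℤ} (h : |(e : ℝ)| ≤ D) : e ∈ Icc (-⌊D⌋) ⌊D⌋ := by
  rw [abs_le] at h
  rw [mem_Icc]
  refine ⟨?_, Int.le_floor.2 h.2⟩
  have : -e ≤ ⌊D⌋ := Int.le_floor.2 (by push_cast; linarith [h.1])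
  omega

open Classical in
theorem small_card {q : ℕ} [NeZero q] (b : ZMod q) {D : ℝ} (hD : 0 ≤ D) :
    (#{a : ZMod q | Small (b - a) D} : ℝ) ≤ 2 * D + 1 := by
  refine le_trans ?_ (four_icc hD)
  have h1 : ({a : ZMod q | Small (b - a) D} : Finset (ZMod q)) ⊆
      (Icc (-⌊D⌋) ⌊D⌋).image fun e : ℤ => b - (e : ZMod q) := by
    intro a ha
    obtain ⟨e, h1, h2⟩ := (mem_filter.1 ha).2
    exact mem_image.2 ⟨e, four_mem h1, by rw [h2]; ring⟩
  exact_mod_cast (card_le_card h1).trans card_image_le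

theorem four_fib {q : ℕ} [NeZero q] {w : ℤ} (hw : w ≠ 0) (c : ZMod q) :
    #{a : ZMod q | (w : ZMod q) * a = c} ≤ Int.gcd w q := by
  have hg : 0 < Int.gcd w q := Int.gcd_pos_of_ne_zero_left _ hw
  rcases ({a : ZMod q | (w : ZMod q) * a = c} : Finset (ZMod q)).eq_empty_or_nonempty with h | h
  · rw [h]
    simp
  obtain ⟨a0, ha0⟩ := h
  have h0 := (mem_filter.1 ha0).2
  refine le_trans ?_ (IsAddCyclic.card_nsmul_eq_zero_le (α := ZMod q) hg)
  refine card_le_card_of_injOn (fun a => a - a0) ?_ fun a _ b _ hab => sub_left_injective hab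
  intro a ha
  have h1 := (mem_filter.1 (mem_coe.1 ha)).2
  refine mem_coe.2 (mem_filter.2 ⟨mem_univ _, ?_⟩)
  have h2 : ((Int.gcd w q : ℕ) : ZMod q) = (w : ZMod q) * (Int.gcdA w q : ZMod q) := by
    have := congrArg (fun z : ℤ => (z : ZMod q)) (Int.gcd_eq_gcd_ab w q)
    simpa using this
  rw [nsmul_eq_mul, h2]
  linear_combination (Int.gcdA w q : ZMod q) * (h1 - h0)

open Classical in
theorem small_mul_card {q : ℕ} [NeZero q] {w : ℤ} (hw : w ≠ 0) {D : ℝ} (hD : 0 ≤ D) :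
    (#{a : ZMod q | Small ((w : ZMod q) * a) D} : ℝ) ≤ 2 * D + |(w : ℝ)| := by
  have hg : 0 < Int.gcd w q := Int.gcd_pos_of_ne_zero_left _ hw
  have hgr : (0 : ℝ) < Int.gcd w q := by exact_mod_cast hg
  have hgw : ((Int.gcd w q : ℕ) : ℝ) ≤ |(w : ℝ)| := by
    have h1 : ((Int.gcd w q : ℕ) : ℤ) ≤ |w| :=
      Int.le_of_dvd (abs_pos.2 hw) ((dvd_abs _ _).2 (Int.gcd_dvd_left w q))
    exact_mod_cast h1
  have h1 : ({a : ZMod q | Small ((w : ZMod q) * a) D} : Finset (ZMod q)) ⊆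
      (Icc (-⌊D / Int.gcd w q⌋) ⌊D / Int.gcd w q⌋).biUnion fun m : ℤ =>
        {a : ZMod q | (w : ZMod q) * a = ((Int.gcd w q * m : ℤ) : ZMod q)} := by
    intro a ha
    obtain ⟨e, h1, h2⟩ := (mem_filter.1 ha).2
    have h3 : ((Int.gcd w q : ℕ) : ℤ) ∣ e := by
      have h4 : ((e - w * (a.val : ℤ) : ℤ) : ZMod q) = 0 := by
        push_cast
        rw [h2, ZMod.natCast_zmod_val, sub_self]
      have h5 := (ZMod.intCast_zmod_eq_zero_iff_dvd _ _).1 h4
      have h6 := (Int.gcd_dvd_right w q).trans h5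
      have h7 := h6.add ((Int.gcd_dvd_left w q).mul_right (a.val : ℤ))
      simpa using h7
    obtain ⟨m, hm⟩ := h3
    refine mem_biUnion.2 ⟨m, four_mem ?_, mem_filter.2 ⟨mem_univ _, by rw [← hm, h2]⟩⟩
    rw [le_div_iff₀ hgr]
    rw [hm] at h1
    push_cast at h1
    rw [abs_mul, abs_of_pos hgr] at h1
    linarith
  have h2 := (card_le_card h1).trans (card_biUnion_le_card_mul _ _ (Int.gcd w q)
    fun m _ => four_fib hw _)
  have h3 : (#{a : ZMod q | Small ((w : ZMod q) * a) D} : ℝ) ≤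
      (#(Icc (-⌊D / Int.gcd w q⌋) ⌊D / Int.gcd w q⌋) : ℝ) * Int.gcd w q := by exact_mod_cast h2
  have h4 := four_icc (div_nonneg hD hgr.le)
  calc _ ≤ _ := h3
    _ ≤ (2 * (D / Int.gcd w q) + 1) * Int.gcd w q := by gcongr
    _ = 2 * D + Int.gcd w q := by field_simp
    _ ≤ _ := by linarith

open Classical in
theorem maj_card {k P q : ℕ} [NeZero q] (hk : 1 ≤ k) (hP : 1 ≤ P) (h : Good k P q) {Q : ℝ}
    (hQ : 0 ≤ Q) : (#{a : ZMod q | Maj k P Q a} : ℝ) ≤ 3 * Q ^ 2 * q / (P : ℝ) ^ k := by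
  have hPk : (0 : ℝ) < (P : ℝ) ^ k := by positivity
  have hq : (P : ℝ) ^ k ≤ q := by
    have h1 := four_good hk hP h
    have h2 : P ^ k ≤ P * P ^ k := Nat.le_mul_of_pos_left _ hP
    exact_mod_cast h2.trans h1.le
  have hQ2 : Q ≤ Q * q / (P : ℝ) ^ k := by
    rw [le_div_iff₀ hPk]
    gcongr
  have h1 : ({a : ZMod q | Maj k P Q a} : Finset (ZMod q)) ⊆
      (Icc 1 ⌊Q⌋₊).biUnion fun d : ℕ =>
        {a : ZMod q | Small (((d : ℤ) : ZMod q) * a) (Q * q / (P : ℝ) ^ k)} := by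
    intro a ha
    obtain ⟨d, h1, h2, h3⟩ := (mem_filter.1 ha).2
    exact mem_biUnion.2 ⟨d, mem_Icc.2 ⟨h1, Nat.le_floor h2⟩,
      mem_filter.2 ⟨mem_univ _, by simpa using h3⟩⟩
  have h2 : (#{a : ZMod q | Maj k P Q a} : ℝ) ≤ ∑ d ∈ Icc 1 ⌊Q⌋₊,
      (#{a : ZMod q | Small (((d : ℤ) : ZMod q) * a) (Q * q / (P : ℝ) ^ k)} : ℝ) := by
    exact_mod_cast (card_le_card h1).trans card_biUnion_le
  have h3 : ∀ d ∈ Icc 1 ⌊Q⌋₊,
      (#{a : ZMod q | Small (((d : ℤ) : ZMod q) * a) (Q * q / (P : ℝ) ^ k)} : ℝ) ≤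
        3 * (Q * q / (P : ℝ) ^ k) := by
    intro d hd
    rw [mem_Icc] at hd
    have h4 := small_mul_card (q := q) (w := (d : ℤ)) (by omega) (hQ.trans hQ2)
    have h5 : (d : ℝ) ≤ Q := (Nat.cast_le.2 hd.2).trans (Nat.floor_le hQ)
    have h6 : |((d : ℤ) : ℝ)| = d := by simp
    rw [h6] at h4
    linarith
  refine h2.trans ((sum_le_sum h3).trans ?_)
  rw [sum_const, nsmul_eq_mul, Nat.card_Icc, Nat.add_sub_cancel]
  calc (⌊Q⌋₊ : ℝ) * (3 * (Q * q / (P : ℝ) ^ k)) ≤ Q * (3 * (Q * q / (P : ℝ) ^ k)) := by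
        gcongr
        exact Nat.floor_le hQ
    _ = _ := by ring

end Pool.Agent.MP_927be3_nt.W

end PartFour

section PartJlineB

open Finset Polynomial

namespace Pool.Agent.MP_927be3_nt.W

/-- the class of `x`: zero, or one more than the exponent of `p` -/
def jlineb_cl (p x : ℕ) : ℕ := if x = 0 then 0 else x.factorization p + 1

theorem jlineb_cl_lt {p P x : ℕ} (hp : p.Prime) (hx : x ≤ P) :
    jlineb_cl p x < Nat.log 2 P + 2 := by
  unfold jlineb_cl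
  split_ifs with h
  · omega
  · have h1 : 2 ^ x.factorization p ≤ P :=
      (Nat.pow_le_pow_left hp.two_le _).trans ((Nat.ordProj_le p h).trans hx)
    have := Nat.le_log_of_pow_le one_lt_two h1
    omega

theorem jlineb_zero (p k w P : ℕ) :
    #{z ∈ Pairs w ((range (P + 1)).filter fun x => jlineb_cl p x = 0) |
      ∑ r, z.1 r ^ k = ∑ r, z.2 r ^ k} ≤ 1 := by
  refine card_le_one.2 fun z hz z' hz' => ?_
  have key : ∀ x ∈ (range (P + 1)).filter (fun x => jlineb_cl p x = 0), x = 0 := by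
    intro x hx
    have := (mem_filter.1 hx).2
    unfold jlineb_cl at this
    split_ifs at this with h
    exact h
  have h1 := (mem_filter.1 hz).1
  have h2 := (mem_filter.1 hz').1
  simp only [Pairs, mem_product, Fintype.mem_piFinset] at h1 h2
  refine Prod.ext (funext fun r => ?_) (funext fun r => ?_)
  · rw [key _ (h1.1 r), key _ (h2.1 r)]
  · rw [key _ (h1.2 r), key _ (h2.2 r)]

theorem jlineb_succ {p : ℕ} (hp : p.Prime) (k w P e : ℕ) :
    #{z ∈ Pairs w ((range (P + 1)).filter fun x => jlineb_cl p x = e + 1) |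
      ∑ r, z.1 r ^ k = ∑ r, z.2 r ^ k} ≤
    #{z ∈ Pairs w ((range (P + 1)).filter fun x => ¬ p ∣ x) |
      ∑ r, z.1 r ^ k = ∑ r, z.2 r ^ k} := by
  have key : ∀ x ∈ (range (P + 1)).filter (fun x => jlineb_cl p x = e + 1),
      p ^ e * (x / p ^ e) = x ∧ x / p ^ e ∈ (range (P + 1)).filter fun x => ¬ p ∣ x := by
    intro x hx
    obtain ⟨h1, h2⟩ := mem_filter.1 hx
    unfold jlineb_cl at h2
    have h : x ≠ 0 := fun h => by simp [h] at h2
    rw [if_neg h] at h2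
    have h3 : x.factorization p = e := by omega
    rw [← h3]
    exact ⟨Nat.ordProj_mul_ordCompl_eq_self x p, mem_filter.2
      ⟨mem_range.2 ((Nat.div_le_self _ _).trans_lt (mem_range.1 h1)), Nat.not_dvd_ordCompl hp h⟩⟩
  refine card_le_card_of_injOn (fun z => (fun r => z.1 r / p ^ e, fun r => z.2 r / p ^ e)) ?_ ?_
  · intro z hz
    obtain ⟨h1, h2⟩ := mem_filter.1 (mem_coe.1 hz)
    simp only [Pairs, mem_product, Fintype.mem_piFinset] at h1
    refine mem_coe.2 (mem_filter.2 ⟨?_, ?_⟩)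
    · simp only [Pairs, mem_product, Fintype.mem_piFinset]
      exact ⟨fun r => (key _ (h1.1 r)).2, fun r => (key _ (h1.2 r)).2⟩
    · refine Nat.eq_of_mul_eq_mul_left (pow_pos (pow_pos hp.pos e) k) ?_
      simp only [mul_sum, ← mul_pow]
      simp only [fun r => (key _ (h1.1 r)).1, fun r => (key _ (h1.2 r)).1]
      exact h2
  · intro z hz z' hz' h
    have h1 := (mem_filter.1 (mem_coe.1 hz)).1
    have h2 := (mem_filter.1 (mem_coe.1 hz')).1
    simp only [Pairs, mem_product, Fintype.mem_piFinset] at h1 h2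
    simp only [Prod.mk.injEq] at h
    refine Prod.ext (funext fun r => ?_) (funext fun r => ?_)
    · rw [← (key _ (h1.1 r)).1, ← (key _ (h2.1 r)).1, congrFun h.1 r]
    · rw [← (key _ (h1.2 r)).1, ← (key _ (h2.2 r)).1, congrFun h.2 r]

theorem jlineb_split {p k w P : ℕ} (hp : p.Prime) (hw : 1 ≤ w) {B : ℝ} (hB : 0 ≤ B)
    (h : ∀ e, (#{z ∈ Pairs w ((range (P + 1)).filter fun x => jlineb_cl p x = e) |
      ∑ r, z.1 r ^ k = ∑ r, z.2 r ^ k} : ℝ) ≤ B) :
    (Iw k w P : ℝ) ≤ ((Nat.log 2 P + 2 : ℕ) : ℝ) ^ (2 * w) * B := by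
  set q := w * P ^ k + 1 with hq
  have : NeZero q := ⟨by omega⟩
  have hq0 : (0 : ℝ) < q := by exact_mod_cast (show 0 < q by omega)
  set L := Nat.log 2 P + 2 with hL
  set F : ℕ → ZMod q → ℂ := fun e a =>
    ∑ x ∈ (range (P + 1)).filter (fun x => jlineb_cl p x = e), ch (a * (x : ZMod q) ^ k) with hF
  set M : ℝ := (q * B) ^ ((w : ℝ)⁻¹) with hM
  have hM0 : 0 ≤ M := Real.rpow_nonneg (by positivity) _
  have hMw : M ^ w = q * B := Real.rpow_inv_natCast_pow (by positivity) (by omega)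
  have h1 : ∀ e, nu w (F e) ≤ M := by
    intro e
    rw [nu_le_iff hw _ hM0, hMw, four_mom (k := k) (w := w) (P := P) (Nat.lt_succ_self _) _
      (fun x hx => Nat.lt_succ_iff.1 (mem_range.1 (mem_filter.1 hx).1))]
    exact mul_le_mul_of_nonneg_left (h e) hq0.le
  have h2 : nu w (∑ e ∈ range L, F e) ≤ (L : ℝ) ^ 2 * M := by
    refine (nu_sum_le_card hw _ _).trans ?_
    rw [card_range, sq, mul_assoc]
    refine mul_le_mul_of_nonneg_left ?_ (Nat.cast_nonneg _)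
    simpa using sum_le_card_nsmul (range L) (fun e => nu w (F e)) M fun e _ => h1 e
  have h3 : ∀ a, (∑ e ∈ range L, F e) a = ∑ x ∈ range (P + 1), ch (a * (x : ZMod q) ^ k) := by
    intro a
    rw [Finset.sum_apply]
    exact sum_fiberwise_of_maps_to (fun x hx => mem_range.2
      (jlineb_cl_lt hp (Nat.lt_succ_iff.1 (mem_range.1 hx)))) _
  rw [nu_le_iff hw _ (by positivity), mul_pow, hMw, ← pow_mul] at h2
  simp only [h3] at h2
  rw [four_mom (k := k) (w := w) (P := P) (Nat.lt_succ_self _) _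
    (fun x hx => Nat.lt_succ_iff.1 (mem_range.1 hx)), mul_left_comm] at h2
  exact le_of_mul_le_mul_left h2 hq0

theorem jlineb_log {δ : ℝ} (hδ : 0 < δ) {P : ℕ} (hP : 1 ≤ P) :
    ((Nat.log 2 P + 2 : ℕ) : ℝ) ≤ (2 / δ + 2) * (P : ℝ) ^ δ := by
  have hP' : (1 : ℝ) ≤ P := by exact_mod_cast hP
  have h1 : (2 : ℝ) ^ Nat.log 2 P ≤ P := by exact_mod_cast Nat.pow_log_le_self 2 (by omega)
  have h2 := Real.log_le_log (by positivity) h1
  rw [Real.log_pow] at h2
  have h3 := Real.log_le_rpow_div (Nat.cast_nonneg P) hδ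
  have h4 := Real.log_two_gt_d9
  have h5 : (1 : ℝ) ≤ (P : ℝ) ^ δ := Real.one_le_rpow hP' hδ.le
  have h6 : (0 : ℝ) ≤ Nat.log 2 P := Nat.cast_nonneg _
  have h7 : (2 / δ + 2) * (P : ℝ) ^ δ = 2 * ((P : ℝ) ^ δ / δ) + 2 * (P : ℝ) ^ δ := by ring
  push_cast
  nlinarith

theorem jline {k j : ℕ} (hj1 : 1 ≤ j) (hj : j ≤ k) : Mom k (tri j) j := by
  intro ε hε
  obtain ⟨p, hpk, hp⟩ := Nat.exists_infinite_primes (k + 1)
  have hw : 1 ≤ tri j := tri_pos hj1
  have hw' : (0 : ℝ) < tri j := by exact_mod_cast hw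
  obtain ⟨A, hA, H⟩ := unit_eq hp hpk hj1 hj (half_pos hε)
  set δ : ℝ := ε / (4 * tri j) with hδ
  have hδ0 : 0 < δ := by positivity
  refine ⟨(2 / δ + 2) ^ (2 * tri j) * (A + 1), by positivity, fun P hP => ?_⟩
  have hP' : (1 : ℝ) ≤ P := by exact_mod_cast hP
  have hP0 : (0 : ℝ) < P := by linarith
  have h5 : (1 : ℝ) ≤ (P : ℝ) ^ (ε / 2) * (P : ℝ) ^ (j ^ 2) :=
    one_le_mul_of_one_le_of_one_le (Real.one_le_rpow hP' (half_pos hε).le) (one_le_pow₀ hP')
  have h1 := jlineb_split (k := k) (P := P) hp hw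
    (B := (A + 1) * ((P : ℝ) ^ (ε / 2) * (P : ℝ) ^ (j ^ 2))) (by positivity) (by
      intro e
      rcases e with _ | e
      · have h2 := (Nat.cast_le (α := ℝ)).2 (jlineb_zero p k (tri j) P)
        rw [Nat.cast_one] at h2
        nlinarith
      · have h2 := ((Nat.cast_le (α := ℝ)).2 (jlineb_succ hp k (tri j) P e)).trans (H P hP)
        rw [mul_assoc] at h2
        nlinarith)
  refine h1.trans ?_
  have e1 : ((P : ℝ) ^ δ) ^ (2 * tri j) = (P : ℝ) ^ (ε / 2) := by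
    rw [← Real.rpow_natCast, ← Real.rpow_mul hP0.le, hδ]
    congr 1
    push_cast
    field_simp
    ring
  have e2 : (P : ℝ) ^ ε = (P : ℝ) ^ (ε / 2) * (P : ℝ) ^ (ε / 2) := by
    rw [← Real.rpow_add hP0, add_halves]
  have e3 : (P : ℝ) ^ (2 * tri j) = (P : ℝ) ^ (j ^ 2) * (P : ℝ) ^ j := by
    rw [two_mul_tri, ← pow_add]
    congr 1
    ring
  calc _ ≤ ((2 / δ + 2) * (P : ℝ) ^ δ) ^ (2 * tri j) *
        ((A + 1) * ((P : ℝ) ^ (ε / 2) * (P : ℝ) ^ (j ^ 2))) :=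
        mul_le_mul_of_nonneg_right (pow_le_pow_left₀ (Nat.cast_nonneg _) (jlineb_log hδ0 hP) _)
          (by positivity)
    _ = _ := by
        rw [mul_pow, e1, e2, e3]
        field_simp

end Pool.Agent.MP_927be3_nt.W

end PartJlineB

section PartHuaA

open Finset Polynomial

namespace Pool.Agent.MP_927be3_nt.W

/-- iterated differences -/
def dd : List ℤ → (ℤ → ℤ) → ℤ → ℤ
  | [], g => g
  | h :: hs, g => fun x => dd hs g (x + h) - dd hs g x

/-- the domain of the iterated difference -/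
def ds : List ℤ → Finset ℤ → Finset ℤ
  | [], S => S
  | h :: hs, S => (ds hs S).filter fun x => x + h ∈ ds hs S

theorem ds_subset (hs : List ℤ) (S : Finset ℤ) : ds hs S ⊆ S := by
  induction hs with
  | nil => exact Subset.refl _
  | cons h hs ih => exact (filter_subset _ _).trans ih

theorem huaa_sq {q : ℕ} [NeZero q] (a : ZMod q) (G : ℤ → ℤ) {X : ℕ} (S : Finset ℤ)
    (hS : S ⊆ Icc (0 : ℤ) X) :
    ((‖∑ x ∈ S, ch (a * (G x : ZMod q))‖ ^ 2 : ℝ) : ℂ) =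
      ∑ h ∈ Icc (-(X : ℤ)) X, ∑ x ∈ S.filter (fun x => x + h ∈ S),
        ch (a * ((G (x + h) - G x : ℤ) : ZMod q)) := by
  have h1 : ∀ z : ℂ, ((‖z‖ ^ 2 : ℝ) : ℂ) = z * (starRingEnd ℂ) z := fun z => by
    rw [Complex.mul_conj, Complex.normSq_eq_norm_sq]
  rw [h1, map_sum, sum_mul_sum, sum_comm]
  simp_rw [sum_filter]
  rw [sum_comm (s := Icc (-(X : ℤ)) X)]
  refine sum_congr rfl fun x hx => ?_
  rw [← sum_filter]
  symm
  refine sum_bij' (fun h _ => x + h) (fun y _ => y - x) ?_ ?_ ?_ ?_ ?_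
  · intro h hh
    exact (mem_filter.1 hh).2
  · intro y hy
    have h2 := mem_Icc.1 (hS hy)
    have h3 := mem_Icc.1 (hS hx)
    refine mem_filter.2 ⟨mem_Icc.2 ⟨by omega, by omega⟩, by simpa using hy⟩
  · intro h _
    simp
  · intro y _
    simp
  · intro h _
    rw [← ch_sub]
    congr 1
    push_cast
    ring

theorem huaa_pi {M : Type} [AddCommMonoid M] (I : Finset ℤ) (j : ℕ) (F : List ℤ → M) :
    ∑ h ∈ Fintype.piFinset (fun _ : Fin (j + 1) => I), F (List.ofFn h) =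
      ∑ h ∈ Fintype.piFinset (fun _ : Fin j => I), ∑ h0 ∈ I, F (h0 :: List.ofFn h) := by
  rw [← sum_product']
  refine sum_bij' (fun h _ => (Fin.tail h, h 0)) (fun z _ => Fin.cons z.2 z.1) ?_ ?_ ?_ ?_ ?_
  · intro h hh
    have := Fintype.mem_piFinset.1 hh
    exact mem_product.2 ⟨Fintype.mem_piFinset.2 fun i => this _, this _⟩
  · intro z hz
    obtain ⟨h1, h2⟩ := mem_product.1 hz
    refine Fintype.mem_piFinset.2 fun i => ?_
    refine Fin.cases ?_ (fun i => ?_) i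
    · simpa using h2
    · simpa using Fintype.mem_piFinset.1 h1 i
  · intro h _
    exact Fin.cons_self_tail h
  · intro z _
    simp
  · intro h _
    rw [List.ofFn_succ]
    rfl

theorem huaa_step {q : ℕ} [NeZero q] (a : ZMod q) (g : ℤ → ℤ) (X : ℕ) (j : ℕ) :
    (∑ h ∈ Fintype.piFinset (fun _ : Fin (j + 1) => Icc (-(X : ℤ)) X),
        ∑ x ∈ ds (List.ofFn h) (Icc (0 : ℤ) X), ch (a * (dd (List.ofFn h) g x : ZMod q))).re =
      ∑ h ∈ Fintype.piFinset (fun _ : Fin j => Icc (-(X : ℤ)) X),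
        ‖∑ x ∈ ds (List.ofFn h) (Icc (0 : ℤ) X), ch (a * (dd (List.ofFn h) g x : ZMod q))‖ ^ 2 := by
  rw [huaa_pi (Icc (-(X : ℤ)) X) j
    (fun l => ∑ x ∈ ds l (Icc (0 : ℤ) X), ch (a * (dd l g x : ZMod q))), Complex.re_sum]
  refine sum_congr rfl fun h _ => ?_
  have := huaa_sq a (dd (List.ofFn h) g) (ds (List.ofFn h) (Icc (0 : ℤ) X)) (ds_subset _ _)
  have h2 := congrArg Complex.re this
  rw [Complex.ofReal_re] at h2
  rw [h2]
  rfl

theorem huaa_iter {q : ℕ} [NeZero q] (a : ZMod q) (g : ℤ → ℤ) {X : ℕ} (hX : 1 ≤ X) (j : ℕ) :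
    ‖∑ x ∈ Icc (0 : ℤ) X, ch (a * (g x : ZMod q))‖ ^ (2 ^ (j + 1)) ≤
      (3 * X : ℝ) ^ (2 ^ (j + 1) - (j + 1) - 1) *
      ∑ h ∈ Fintype.piFinset (fun _ : Fin j => Icc (-(X : ℤ)) X),
        ‖∑ x ∈ ds (List.ofFn h) (Icc (0 : ℤ) X), ch (a * (dd (List.ofFn h) g x : ZMod q))‖ ^ 2 := by
  induction j with
  | zero => simp [ds, dd]
  | succ j ih =>
    rw [← huaa_step] at ih
    set I := Fintype.piFinset (fun _ : Fin (j + 1) => Icc (-(X : ℤ)) X) with hI
    set T : (Fin (j + 1) → ℤ) → ℂ := fun h =>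
      ∑ x ∈ ds (List.ofFn h) (Icc (0 : ℤ) X), ch (a * (dd (List.ofFn h) g x : ZMod q)) with hT
    have hX' : (1 : ℝ) ≤ X := by exact_mod_cast hX
    have h1 : (∑ h ∈ I, T h).re ≤ ∑ h ∈ I, ‖T h‖ :=
      (Complex.re_le_norm _).trans (norm_sum_le _ _)
    have h2 : (∑ h ∈ I, ‖T h‖) ^ 2 ≤ #I * ∑ h ∈ I, ‖T h‖ ^ 2 := sq_sum_le_card_mul_sum_sq
    have h3 : (#I : ℝ) ≤ (3 * X : ℝ) ^ (j + 1) := by
      have : #I = (2 * X + 1) ^ (j + 1) := by
        rw [hI, Fintype.card_piFinset]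
        simp only [Int.card_Icc, prod_const, card_univ, Fintype.card_fin]
        congr 1
        omega
      rw [this]
      push_cast
      gcongr
      linarith
    have h4 : 2 ^ (j + 1 + 1) - (j + 1 + 1) - 1 = (2 ^ (j + 1) - (j + 1) - 1) * 2 + (j + 1) := by
      have := Nat.lt_two_pow_self (n := j + 1)
      rw [pow_succ 2 (j + 1)]
      omega
    have h5 : 0 ≤ ∑ h ∈ I, ‖T h‖ ^ 2 := sum_nonneg fun _ _ => by positivity
    have h6 := ih.trans (mul_le_mul_of_nonneg_left h1 (by positivity))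
    rw [h4, pow_succ 2 (j + 1), pow_mul, pow_add (3 * X : ℝ), pow_mul (3 * X : ℝ), mul_assoc]
    refine (pow_le_pow_left₀ (by positivity) h6 2).trans ?_
    rw [mul_pow]
    exact mul_le_mul_of_nonneg_left (h2.trans (mul_le_mul_of_nonneg_right h3 h5)) (by positivity)

theorem weyl_iter {q : ℕ} [NeZero q] (a : ZMod q) (g : ℤ → ℤ) {X : ℕ} (hX : 1 ≤ X) (j : ℕ)
    (hj : 1 ≤ j) :
    ‖∑ x ∈ Icc (0 : ℤ) X, ch (a * (g x : ZMod q))‖ ^ (2 ^ j) ≤ (3 * X : ℝ) ^ (2 ^ j - j - 1) *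
      (∑ h ∈ Fintype.piFinset (fun _ : Fin j => Icc (-(X : ℤ)) X),
        ∑ x ∈ ds (List.ofFn h) (Icc (0 : ℤ) X), ch (a * (dd (List.ofFn h) g x : ZMod q))).re := by
  obtain ⟨j, rfl⟩ : ∃ i, j = i + 1 := ⟨j - 1, by omega⟩
  rw [huaa_step]
  exact huaa_iter a g hX j

theorem huaa_diff (G : ℤ[X]) (h : ℤ) (d : ℕ) (hd : G.natDegree ≤ d + 1) :
    (taylor h G - G).natDegree ≤ d ∧
      (taylor h G - G).coeff d = (d + 1 : ℕ) * h * G.coeff (d + 1) := by
  constructor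
  · rw [natDegree_le_iff_coeff_eq_zero]
    intro n hn
    have h1 : (hasseDeriv n G).natDegree < 1 := by
      have := natDegree_hasseDeriv_le G n
      omega
    rw [coeff_sub, taylor_coeff, eval_eq_sum_range' h1]
    simp [hasseDeriv_coeff]
  · have h1 : (hasseDeriv d G).natDegree < 2 := by
      have := natDegree_hasseDeriv_le G d
      omega
    rw [coeff_sub, taylor_coeff, eval_eq_sum_range' h1]
    simp [hasseDeriv_coeff, sum_range_succ, add_comm 1 d]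
    ring

theorem dd_pow (k : ℕ) (hs : List ℤ) (h : hs.length ≤ k) : ∃ G : ℤ[X],
    G.natDegree ≤ k - hs.length ∧
    G.coeff (k - hs.length) = (k.descFactorial hs.length : ℤ) * hs.prod ∧
    ∀ x, dd hs (fun y => y ^ k) x = G.eval x := by
  induction hs with
  | nil => exact ⟨X ^ k, by simp, by simp, fun x => by simp [dd]⟩
  | cons t hs ih =>
    rw [List.length_cons] at h ⊢
    obtain ⟨G, h1, h2, h3⟩ := ih (by omega)
    have he : k - hs.length = k - (hs.length + 1) + 1 := by omega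
    obtain ⟨h4, h5⟩ := huaa_diff G t (k - (hs.length + 1)) (he ▸ h1)
    refine ⟨taylor t G - G, h4, ?_, fun x => ?_⟩
    · rw [h5, ← he, h2, Nat.descFactorial_succ, List.prod_cons]
      push_cast
      ring
    · simp only [dd, h3, eval_sub, taylor_eval]

theorem huaa_poly (k : ℕ) (hs : List ℤ) : ∃ G : ℤ[X], ∀ x, dd hs (fun y => y ^ k) x = G.eval x := by
  induction hs with
  | nil => exact ⟨X ^ k, fun x => by simp [dd]⟩
  | cons t hs ih =>
    obtain ⟨G, h3⟩ := ih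
    exact ⟨taylor t G - G, fun x => by simp only [dd, h3, eval_sub, taylor_eval]⟩

theorem dd_dvd (k : ℕ) (hs : List ℤ) (h : ℤ) (hh : h ∈ hs) (x : ℤ) :
    h ∣ dd hs (fun y => y ^ k) x := by
  induction hs generalizing x with
  | nil => simp at hh
  | cons t hs ih =>
    rcases List.mem_cons.1 hh with rfl | hh
    · obtain ⟨G, h3⟩ := huaa_poly k hs
      simp only [dd, h3]
      simpa using sub_dvd_eval_sub (x + h) x G
    · exact dvd_sub (ih hh _) (ih hh _)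

theorem dd_abs (k : ℕ) (hs : List ℤ) {X : ℕ} {x : ℤ} (hx : x ∈ ds hs (Icc (0 : ℤ) X)) :
    |dd hs (fun y => y ^ k) x| ≤ 2 ^ hs.length * (X : ℤ) ^ k := by
  induction hs generalizing x with
  | nil =>
    have := mem_Icc.1 hx
    simp only [dd, List.length_nil, pow_zero, one_mul]
    rw [abs_of_nonneg (pow_nonneg this.1 _)]
    exact pow_le_pow_left₀ this.1 this.2 _
  | cons t hs ih =>
    obtain ⟨h1, h2⟩ := mem_filter.1 hx
    have h3 := ih h1
    have h4 := ih h2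
    simp only [dd, List.length_cons, pow_succ]
    have := abs_sub (dd hs (fun y => y ^ k) (x + t)) (dd hs (fun y => y ^ k) x)
    linarith

end Pool.Agent.MP_927be3_nt.W

end PartHuaA

section PartHuaB

open Finset Polynomial

namespace Pool.Agent.MP_927be3_nt.W

theorem huab_roots {k j : ℕ} (hj : j < k) (h : Fin j → ℤ) (hh : ∀ i, h i ≠ 0) (n : ℤ)
    (S : Finset ℤ) (hS : ∀ x ∈ S, dd (List.ofFn h) (fun y => y ^ k) x = n) : #S ≤ k := by
  obtain ⟨G, h1, h2, h3⟩ := dd_pow k (List.ofFn h) (by simp; omega)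
  rw [List.length_ofFn] at h1 h2
  have h4 : (G - C n).coeff (k - j) ≠ 0 := by
    rw [coeff_sub, coeff_C, if_neg (by omega), sub_zero, h2, List.prod_ofFn]
    refine mul_ne_zero ?_ (prod_ne_zero_iff.2 fun i _ => hh i)
    have : k.descFactorial j ≠ 0 := fun h0 => by
      have := Nat.descFactorial_eq_zero_iff_lt.1 h0
      omega
    exact_mod_cast this
  have h5 : G - C n ≠ 0 := fun h0 => h4 (by rw [h0, coeff_zero])
  have h6 : (G - C n).natDegree ≤ k := by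
    rw [natDegree_sub_C]
    omega
  refine (card_le_degree_of_subset_roots (p := G - C n) fun x hx => ?_).trans h6
  rw [mem_roots h5, IsRoot, eval_sub, eval_C, ← h3, hS x hx, sub_self]

theorem huab_card {α β : Type} (A : Finset α) (B : Finset β) (p : α × β → Prop)
    [DecidablePred p] : #{z ∈ A ×ˢ B | p z} = ∑ h ∈ A, #{x ∈ B | p (h, x)} := by
  simp only [card_filter, sum_product]

theorem huab_div {k j : ℕ} {ε : ℝ} (hε : 0 < ε) : ∃ A : ℝ, 0 < A ∧
    ∀ P : ℕ, 1 ≤ P → ∀ n : ℕ, n ≠ 0 → n ≤ 2 ^ j * P ^ k →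
      (#n.divisors : ℝ) ^ j ≤ A * (P : ℝ) ^ ε := by
  obtain ⟨s, hs⟩ := exists_nat_ge ((k : ℝ) / ε)
  obtain ⟨C, hC, h⟩ := Pool.Agent.MP_e4c747_an.divisor_bound (j * (s + 1))
  have hC' : (1 : ℝ) ≤ C := by exact_mod_cast hC
  have h2 : (1 : ℝ) ≤ C * 2 ^ j := one_le_mul_of_one_le_of_one_le hC' (one_le_pow₀ one_le_two)
  refine ⟨C * 2 ^ j, by positivity, fun P hP n hn hle => ?_⟩
  have hP' : (1 : ℝ) ≤ P := by exact_mod_cast hP
  refine le_of_pow_le_pow_left₀ (Nat.succ_ne_zero s) (by positivity) ?_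
  have h3 : ((#n.divisors : ℝ) ^ j) ^ (s + 1) ≤ C * (2 ^ j * (P : ℝ) ^ k) := by
    rw [← pow_mul]
    exact_mod_cast (h n hn).trans (Nat.mul_le_mul_left _ hle)
  have h4 : (P : ℝ) ^ k ≤ ((P : ℝ) ^ ε) ^ (s + 1) := by
    rw [← Real.rpow_natCast, ← Real.rpow_mul_natCast (by positivity)]
    refine Real.rpow_le_rpow_of_exponent_le hP' ?_
    rw [div_le_iff₀ hε] at hs
    push_cast
    nlinarith
  refine h3.trans ?_
  rw [← mul_assoc, Nat.succ_eq_add_one, mul_pow]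
  exact mul_le_mul (le_self_pow₀ h2 (Nat.succ_ne_zero s)) h4 (by positivity) (by positivity)

theorem huab_zero {k j : ℕ} (hj : j < k) {P : ℕ} (hP : 1 ≤ P) :
    #{z ∈ Fintype.piFinset (fun _ : Fin j => Icc (-(P : ℤ)) P) ×ˢ Icc (0 : ℤ) P |
        z.2 ∈ ds (List.ofFn z.1) (Icc (0 : ℤ) P) ∧ dd (List.ofFn z.1) (fun y => y ^ k) z.2 = 0}
        ≤ (j + k) * (3 * P) ^ j := by
  rw [huab_card]
  set I := Icc (-(P : ℤ)) P with hI
  have hc : #I ≤ 3 * P := by
    rw [hI, Int.card_Icc]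
    omega
  have h0 : (0 : ℤ) ∈ I := by simp [hI]
  have h1 : ∀ h ∈ Fintype.piFinset (fun _ : Fin j => I), #{x ∈ Icc (0 : ℤ) P |
      x ∈ ds (List.ofFn h) (Icc (0 : ℤ) P) ∧ dd (List.ofFn h) (fun y => y ^ k) x = 0} ≤
        (∑ i, if h i = 0 then 3 * P else 0) + k := by
    intro h _
    by_cases hh : ∀ i, h i ≠ 0
    · exact (huab_roots hj h hh 0 _ fun x hx => (mem_filter.1 hx).2.2).trans (Nat.le_add_left _ _)
    · push Not at hh
      obtain ⟨i, hi⟩ := hh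
      have h2 : (if h i = 0 then 3 * P else 0) ≤ ∑ i, if h i = 0 then 3 * P else 0 :=
        single_le_sum (f := fun i => if h i = 0 then 3 * P else 0) (fun _ _ => Nat.zero_le _)
          (mem_univ i)
      rw [if_pos hi] at h2
      refine (card_filter_le _ _).trans ?_
      rw [Int.card_Icc]
      omega
  refine (sum_le_sum h1).trans ?_
  rw [sum_add_distrib, sum_comm, add_mul, sum_const, smul_eq_mul, Fintype.card_piFinset_const]
  refine add_le_add ?_ ?_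
  · refine (sum_le_card_nsmul _ _ ((3 * P) ^ j) fun i _ => ?_).trans (by simp)
    rw [← sum_filter, sum_const, smul_eq_mul, Fintype.card_filter_piFinset_const_eq_of_mem _ _ h0,
      Fintype.card_fin]
    have : j = j - 1 + 1 := by have := i.2; omega
    conv_rhs => rw [this, pow_succ]
    exact Nat.mul_le_mul_right _ (Nat.pow_le_pow_left hc _)
  · rw [mul_comm]
    exact Nat.mul_le_mul_left _ (Nat.pow_le_pow_left hc _)

theorem huab_ne {k j : ℕ} (hj : j < k) (P : ℕ) {n : ℤ} (hn : n ≠ 0) :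
    #{z ∈ Fintype.piFinset (fun _ : Fin j => Icc (-(P : ℤ)) P) ×ˢ Icc (0 : ℤ) P |
        z.2 ∈ ds (List.ofFn z.1) (Icc (0 : ℤ) P) ∧ dd (List.ofFn z.1) (fun y => y ^ k) z.2 = n}
        ≤ (2 * #n.natAbs.divisors) ^ j * k := by
  rw [huab_card]
  set D : Finset ℤ := n.natAbs.divisors.image (fun d : ℕ => (d : ℤ)) ∪
    n.natAbs.divisors.image (fun d : ℕ => -(d : ℤ)) with hD
  have hc : #D ≤ 2 * #n.natAbs.divisors := by
    refine (card_union_le _ _).trans ?_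
    rw [two_mul]
    exact add_le_add card_image_le card_image_le
  have hm : ∀ d : ℤ, d ∣ n → d ∈ D := by
    intro d hd
    have h1 : d.natAbs ∈ n.natAbs.divisors :=
      Nat.mem_divisors.2 ⟨Int.natAbs_dvd_natAbs.2 hd, Int.natAbs_ne_zero.2 hn⟩
    rcases Int.natAbs_eq d with h | h
    · exact mem_union_left _ (mem_image.2 ⟨_, h1, h.symm⟩)
    · exact mem_union_right _ (mem_image.2 ⟨_, h1, h.symm⟩)
  have h1 : ∀ h ∈ Fintype.piFinset (fun _ : Fin j => Icc (-(P : ℤ)) P), #{x ∈ Icc (0 : ℤ) P |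
      x ∈ ds (List.ofFn h) (Icc (0 : ℤ) P) ∧ dd (List.ofFn h) (fun y => y ^ k) x = n} ≤
        if h ∈ Fintype.piFinset (fun _ : Fin j => D) then k else 0 := by
    intro h _
    rcases ({x ∈ Icc (0 : ℤ) P | x ∈ ds (List.ofFn h) (Icc (0 : ℤ) P) ∧
      dd (List.ofFn h) (fun y => y ^ k) x = n} : Finset ℤ).eq_empty_or_nonempty with h0 | ⟨x, hx⟩
    · rw [h0]
      simp
    · have h2 : ∀ i, h i ∣ n := fun i => by
        rw [← (mem_filter.1 hx).2.2]
        exact dd_dvd k _ _ (by simp [List.mem_ofFn]) x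
      rw [if_pos (Fintype.mem_piFinset.2 fun i => hm _ (h2 i))]
      refine huab_roots hj h (fun i h0 => hn ?_) n _ fun x hx => (mem_filter.1 hx).2.2
      have := h2 i
      rwa [h0, zero_dvd_iff] at this
  refine (sum_le_sum h1).trans ?_
  rw [← sum_filter, sum_const, smul_eq_mul]
  refine Nat.mul_le_mul_right _ ((card_le_card fun h hh => (mem_filter.1 hh).2).trans ?_)
  rw [Fintype.card_piFinset_const]
  exact Nat.pow_le_pow_left hc _

theorem hua_fibre {k j : ℕ} (hj : j < k) {ε : ℝ} (hε : 0 < ε) : ∃ A : ℝ, 0 < A ∧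
    ∀ P : ℕ, 1 ≤ P → ∀ n : ℤ,
      (#{z ∈ Fintype.piFinset (fun _ : Fin j => Icc (-(P : ℤ)) P) ×ˢ Icc (0 : ℤ) P |
        z.2 ∈ ds (List.ofFn z.1) (Icc (0 : ℤ) P) ∧ dd (List.ofFn z.1) (fun y => y ^ k) z.2 = n} : ℝ)
        ≤ if n = 0 then A * (P : ℝ) ^ j else A * (P : ℝ) ^ ε := by
  obtain ⟨A, hA, h⟩ := huab_div (k := k) (j := j) hε
  refine ⟨(j + k) * 3 ^ j + 2 ^ j * k * A + 1, by positivity, fun P hP n => ?_⟩
  split_ifs with hn
  · subst hn
    have h1 : _ ≤ (((j + k) * (3 * P) ^ j : ℕ) : ℝ) := Nat.cast_le.2 (huab_zero hj hP)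
    refine h1.trans ?_
    push_cast
    rw [mul_pow, ← mul_assoc]
    gcongr
    have : 0 ≤ 2 ^ j * k * A := by positivity
    linarith
  · rcases ({z ∈ Fintype.piFinset (fun _ : Fin j => Icc (-(P : ℤ)) P) ×ˢ Icc (0 : ℤ) P |
        z.2 ∈ ds (List.ofFn z.1) (Icc (0 : ℤ) P) ∧ dd (List.ofFn z.1) (fun y => y ^ k) z.2 = n} :
        Finset _).eq_empty_or_nonempty with h0 | ⟨z, hz⟩
    · rw [h0, card_empty, Nat.cast_zero]
      positivity
    · have h2 := dd_abs k _ (mem_filter.1 hz).2.1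
      rw [(mem_filter.1 hz).2.2, List.length_ofFn, ← Int.natCast_natAbs] at h2
      have h3 := h P hP n.natAbs (Int.natAbs_ne_zero.2 hn) (by exact_mod_cast h2)
      have h1 : _ ≤ (((2 * #n.natAbs.divisors) ^ j * k : ℕ) : ℝ) :=
        Nat.cast_le.2 (huab_ne hj P hn)
      refine h1.trans ?_
      push_cast
      rw [mul_pow]
      calc (2 : ℝ) ^ j * (#n.natAbs.divisors : ℝ) ^ j * k ≤ 2 ^ j * (A * (P : ℝ) ^ ε) * k := by
            gcongr
        _ = 2 ^ j * k * A * (P : ℝ) ^ ε := by ring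
        _ ≤ _ := by
            gcongr
            have : (0 : ℝ) ≤ (j + k) * 3 ^ j := by positivity
            linarith

theorem huab_expand {q : ℕ} [NeZero q] (a : ZMod q) (k w : ℕ) (S : Finset ℕ) :
    ((‖∑ x ∈ S, ch (a * (x : ZMod q) ^ k)‖ ^ (2 * w) : ℝ) : ℂ) =
      ∑ z ∈ Pairs w S, ch (a * (((∑ r, z.1 r ^ k : ℕ) - (∑ r, z.2 r ^ k : ℕ) : ℤ) : ZMod q)) := by
  have h1 : ∀ z : ℂ, ((‖z‖ ^ (2 * w) : ℝ) : ℂ) = z ^ w * (starRingEnd ℂ) (z ^ w) := fun z => by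
    rw [Complex.mul_conj, Complex.normSq_eq_norm_sq, norm_pow, ← pow_mul, mul_comm]
  have h2 : (∑ x ∈ S, ch (a * (x : ZMod q) ^ k)) ^ w =
      ∑ y ∈ Fintype.piFinset (fun _ : Fin w => S), ch (a * ((∑ r, y r ^ k : ℕ) : ZMod q)) := by
    rw [← Fin.prod_const, prod_univ_sum]
    refine sum_congr rfl fun y _ => ?_
    rw [← ch_sum]
    congr 1
    push_cast
    rw [mul_sum]
  rw [h1, h2, map_sum, sum_mul_sum, Pairs, sum_product]
  refine sum_congr rfl fun y _ => sum_congr rfl fun z _ => ?_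
  rw [← ch_sub]
  congr 1
  push_cast
  ring

theorem huab_count {k j w P : ℕ} (hP : 1 ≤ P) (hj : 1 ≤ j) (hw : 2 ^ j = 2 * w) :
    (Iw k (2 * w) P : ℝ) ≤ (3 * P : ℝ) ^ (2 ^ j - j - 1) * ∑ y ∈ Pairs w (range (P + 1)),
      (#{z ∈ Fintype.piFinset (fun _ : Fin j => Icc (-(P : ℤ)) P) ×ˢ Icc (0 : ℤ) P |
        z.2 ∈ ds (List.ofFn z.1) (Icc (0 : ℤ) P) ∧ dd (List.ofFn z.1) (fun y => y ^ k) z.2 =
          (∑ r, y.2 r ^ k : ℕ) - (∑ r, y.1 r ^ k : ℕ)} : ℝ) := by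
  obtain ⟨q, hq⟩ : ∃ q, q = 4 * (w * P ^ k) + 1 := ⟨_, rfl⟩
  have : NeZero q := ⟨by omega⟩
  have hq0 : (0 : ℝ) < q := by exact_mod_cast NeZero.pos q
  have h1 := four_mom (k := k) (w := 2 * w) (P := P) (q := q) (by rw [mul_assoc]; omega)
    (range (P + 1)) (fun x hx => by have := mem_range.1 hx; omega)
  set Z := {z ∈ Fintype.piFinset (fun _ : Fin j => Icc (-(P : ℤ)) P) ×ˢ Icc (0 : ℤ) P |
    z.2 ∈ ds (List.ofFn z.1) (Icc (0 : ℤ) P)} with hZ
  set W : ZMod q → ℂ := fun a =>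
    ∑ z ∈ Z, ch (a * (dd (List.ofFn z.1) (fun y => y ^ k) z.2 : ZMod q)) with hW
  set F : ZMod q → ℝ := fun a => ‖∑ x ∈ range (P + 1), ch (a * (x : ZMod q) ^ k)‖ with hF
  have h2 : ∀ a, F a ^ (2 * w) ≤ (3 * P : ℝ) ^ (2 ^ j - j - 1) * (W a).re := by
    intro a
    have h3 := weyl_iter a (fun y => y ^ k) hP j hj
    have h4 : ∑ x ∈ Icc (0 : ℤ) P, ch (a * ((x ^ k : ℤ) : ZMod q)) =
        ∑ x ∈ range (P + 1), ch (a * (x : ZMod q) ^ k) := by
      symm
      refine sum_bij' (fun x _ => (x : ℤ)) (fun x _ => x.toNat) ?_ ?_ ?_ ?_ ?_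
      · intro x hx
        have := mem_range.1 hx
        exact mem_Icc.2 ⟨by omega, by omega⟩
      · intro x hx
        have := mem_Icc.1 hx
        exact mem_range.2 (by omega)
      · intro x _
        simp
      · intro x hx
        have := mem_Icc.1 hx
        omega
      · intro x _
        simp
    have h5 : W a = ∑ h ∈ Fintype.piFinset (fun _ : Fin j => Icc (-(P : ℤ)) P),
        ∑ x ∈ ds (List.ofFn h) (Icc (0 : ℤ) P),
          ch (a * (dd (List.ofFn h) (fun y => y ^ k) x : ZMod q)) := by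
      simp only [hW, hZ, sum_filter, sum_product]
      refine sum_congr rfl fun h _ => ?_
      rw [← sum_filter, filter_mem_eq_inter, inter_eq_right.2 (ds_subset _ _)]
    rw [h4, ← h5] at h3
    rw [← hw]
    exact h3
  have h6 : ∑ a, W a * ((F a ^ (2 * w) : ℝ) : ℂ) = ∑ y ∈ Pairs w (range (P + 1)), ∑ z ∈ Z,
      if dd (List.ofFn z.1) (fun y => y ^ k) z.2 =
        (∑ r, y.2 r ^ k : ℕ) - (∑ r, y.1 r ^ k : ℕ) then (q : ℂ) else 0 := by
    simp only [hF, huab_expand, hW, sum_mul_sum, ← ch_add, ← mul_add]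
    rw [sum_comm, sum_comm (s := Pairs w (range (P + 1)))]
    refine sum_congr rfl fun z hz => ?_
    rw [sum_comm]
    refine sum_congr rfl fun y hy => ?_
    rw [ch_orth, ← Int.cast_add]
    refine if_congr ?_ rfl rfl
    have h7 := dd_abs k _ (mem_filter.1 hz).2
    rw [List.length_ofFn] at h7
    have h8 : ∀ u ∈ Fintype.piFinset (fun _ : Fin w => range (P + 1)),
        ∑ r, u r ^ k ≤ w * P ^ k := by
      intro u hu
      refine (sum_le_card_nsmul _ _ (P ^ k) fun r _ => ?_).trans (by simp)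
      have := mem_range.1 (Fintype.mem_piFinset.1 hu r)
      exact Nat.pow_le_pow_left (by omega) _
    have h9 := h8 _ (mem_product.1 hy).1
    have h10 := h8 _ (mem_product.1 hy).2
    have h11 : (2 : ℤ) ^ j * (P : ℤ) ^ k = 2 * ((w * P ^ k : ℕ) : ℤ) := by
      have : (2 : ℤ) ^ j = 2 * w := by exact_mod_cast hw
      rw [this]
      push_cast
      ring
    rw [h11, abs_le] at h7
    rw [ZMod.intCast_zmod_eq_zero_iff_dvd]
    generalize dd (List.ofFn z.1) (fun y => y ^ k) z.2 = d at h7 ⊢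
    generalize ∑ r, y.1 r ^ k = u at h9 ⊢
    generalize ∑ r, y.2 r ^ k = v at h10 ⊢
    constructor
    · intro h
      have := Int.eq_zero_of_abs_lt_dvd h (by rw [abs_lt]; omega)
      omega
    · intro h
      rw [h]
      simp
  refine le_of_mul_le_mul_left ?_ hq0
  rw [Iw, ← h1]
  have h12 : ∀ a, F a ^ (2 * (2 * w)) ≤
      (3 * P : ℝ) ^ (2 ^ j - j - 1) * (W a * ((F a ^ (2 * w) : ℝ) : ℂ)).re := by
    intro a
    rw [Complex.re_mul_ofReal, two_mul (2 * w), pow_add, ← mul_assoc]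
    exact mul_le_mul_of_nonneg_right (h2 a) (by positivity)
  refine (sum_le_sum fun a _ => h12 a).trans (le_of_eq ?_)
  rw [← mul_sum, ← Complex.re_sum, h6, mul_left_comm, Complex.re_sum]
  congr 1
  rw [mul_sum]
  refine sum_congr rfl fun y _ => ?_
  rw [← sum_filter, sum_const, hZ, filter_filter, nsmul_eq_mul, mul_comm]
  simp

theorem hua {k j : ℕ} (hj1 : 1 ≤ j) (hj : j ≤ k) : Mom k (2 ^ (j - 1)) j := by
  induction j, hj1 using Nat.le_induction with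
  | base =>
    intro ε hε
    refine ⟨2, two_pos, fun P hP => ?_⟩
    have hP' : (1 : ℝ) ≤ P := by exact_mod_cast hP
    have h1 : Iw k 1 P ≤ P + 1 := by
      rw [← card_range (P + 1)]
      refine card_le_card_of_injOn (fun z => z.1 0) ?_ ?_
      · intro z hz
        exact Fintype.mem_piFinset.1 (mem_product.1 (mem_filter.1 hz).1).1 0
      · intro z hz z' hz' h
        have h2 := (mem_filter.1 hz).2
        have h3 := (mem_filter.1 hz').2
        simp only [Fin.sum_univ_one] at h2 h3 h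
        have h4 := Nat.pow_left_injective (by omega) h2
        have h5 := Nat.pow_left_injective (by omega) h3
        refine Prod.ext (funext fun r => ?_) (funext fun r => ?_)
        · rw [Subsingleton.elim r 0, h]
        · rw [Subsingleton.elim r 0, ← h4, ← h5, h]
    have h2 : (Iw k 1 P : ℝ) ≤ P + 1 := by exact_mod_cast h1
    have h3 : 1 ≤ (P : ℝ) ^ ε := Real.one_le_rpow hP' hε.le
    simp only [le_refl, tsub_eq_zero_of_le, pow_zero, mul_one, pow_one]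
    rw [le_div_iff₀ (by positivity)]
    nlinarith [mul_le_mul_of_nonneg_right h3 (sq_nonneg (P : ℝ))]
  | succ j hj1 ih =>
    intro ε hε
    obtain ⟨A, hA, h1⟩ := ih (by omega) ε hε
    obtain ⟨B, hB, h2⟩ := hua_fibre (k := k) (j := j) (by omega) hε
    set w := 2 ^ (j - 1) with hw
    have hw2 : 2 ^ j = 2 * w := by
      rw [hw, ← pow_succ']
      congr 1
      omega
    refine ⟨3 ^ (2 ^ j - j - 1) * (B * A + B * 2 ^ (2 * w)), by positivity, fun P hP => ?_⟩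
    have hP' : (1 : ℝ) ≤ P := by exact_mod_cast hP
    rw [Nat.add_sub_cancel, hw2]
    refine (huab_count hP hj1 hw2).trans ?_
    have h3 : ∀ y ∈ Pairs w (range (P + 1)),
        (#{z ∈ Fintype.piFinset (fun _ : Fin j => Icc (-(P : ℤ)) P) ×ˢ Icc (0 : ℤ) P |
        z.2 ∈ ds (List.ofFn z.1) (Icc (0 : ℤ) P) ∧ dd (List.ofFn z.1) (fun y => y ^ k) z.2 =
          (∑ r, y.2 r ^ k : ℕ) - (∑ r, y.1 r ^ k : ℕ)} : ℝ) ≤
        (if ∑ r, y.1 r ^ k = ∑ r, y.2 r ^ k then B * (P : ℝ) ^ j else 0) + B * (P : ℝ) ^ ε := by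
      intro y _
      refine (h2 P hP ((∑ r, y.2 r ^ k : ℕ) - (∑ r, y.1 r ^ k : ℕ))).trans ?_
      by_cases h : ∑ r, y.1 r ^ k = ∑ r, y.2 r ^ k
      · rw [if_pos h, if_pos (by rw [h, sub_self])]
        exact le_add_of_nonneg_right (by positivity)
      · rw [if_neg h, if_neg (by omega), zero_add]
    have h4 : (#(Pairs w (range (P + 1))) : ℝ) ≤ 2 ^ (2 * w) * (P : ℝ) ^ (2 * w) := by
      rw [Pairs, card_product, Fintype.card_piFinset_const, card_range, ← pow_add, ← two_mul,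
        ← mul_pow]
      push_cast
      gcongr
      linarith
    have h5 := h1 P hP
    rw [le_div_iff₀ (by positivity)] at h5
    have h6 : 2 * (2 * w) = (2 * w - j - 1) + 2 * w + (j + 1) := by
      have := Nat.lt_two_pow_self (n := j)
      omega
    refine (mul_le_mul_of_nonneg_left (sum_le_sum h3) (by positivity)).trans ?_
    rw [sum_add_distrib, ← sum_filter, sum_const, sum_const, nsmul_eq_mul, nsmul_eq_mul, hw2, h6,
      pow_add (P : ℝ) _ (j + 1), ← mul_assoc _ _ ((P : ℝ) ^ (j + 1)),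
      mul_div_cancel_right₀ _ (by positivity : (P : ℝ) ^ (j + 1) ≠ 0), mul_pow, pow_add]
    have h7 : (Iw k w P : ℝ) * (B * (P : ℝ) ^ j) ≤ B * (A * (P : ℝ) ^ ε * (P : ℝ) ^ (2 * w)) := by
      rw [mul_left_comm]
      gcongr
    have h8 : (#(Pairs w (range (P + 1))) : ℝ) * (B * (P : ℝ) ^ ε) ≤
        2 ^ (2 * w) * (P : ℝ) ^ (2 * w) * (B * (P : ℝ) ^ ε) := by gcongr
    refine (mul_le_mul_of_nonneg_left (add_le_add h7 h8) (by positivity)).trans (le_of_eq ?_)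
    ring

end Pool.Agent.MP_927be3_nt.W

end PartHuaB

section PartDls

open Finset Polynomial

namespace Pool.Agent.MP_927be3_nt.W

theorem dls_cs {Y : Type} [Fintype Y] (C R : Y → ℂ) :
    ‖∑ y, C y * R y‖ ^ 2 ≤ (∑ y, ‖C y‖ ^ 2) * ∑ y, ‖R y‖ ^ 2 := by
  refine le_trans ?_ (Finset.sum_mul_sq_le_sq_mul_sq univ (fun y => ‖C y‖) (fun y => ‖R y‖))
  refine pow_le_pow_left₀ (norm_nonneg _) ((norm_sum_le _ _).trans (le_of_eq ?_)) 2
  simp only [norm_mul]

open Classical in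
theorem dls_orth {q e : ℕ} [NeZero q] (b : Fin e → ZMod q) :
    ∑ y : Fin e → ZMod q, ch (∑ i, y i * b i) = if b = 0 then (q : ℂ) ^ e else 0 := by
  have h1 : ∑ y : Fin e → ZMod q, ch (∑ i, y i * b i) = ∏ i, ∑ t : ZMod q, ch (t * b i) := by
    rw [Finset.prod_univ_sum, Fintype.piFinset_univ]
    exact sum_congr rfl fun y _ => ch_sum _ _
  rw [h1]
  simp only [ch_orth]
  split_ifs with hb
  · simp [hb]
  · obtain ⟨i, hi⟩ := Function.ne_iff.mp hb
    exact prod_eq_zero (mem_univ i) (if_neg hi)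

open Classical in
theorem dls_R {q e : ℕ} [NeZero q] {η : Type} (Hs : Finset η) (m : η → Fin e → ZMod q)
    (r : η → ℂ) :
    ∑ y : Fin e → ZMod q, ‖∑ h ∈ Hs, r h * ch (∑ i, y i * m h i)‖ ^ 2 ≤
      (q : ℝ) ^ e * ∑ h ∈ Hs, ∑ h' ∈ Hs, if m h = m h' then ‖r h‖ * ‖r h'‖ else 0 := by
  have h1 : ((∑ y : Fin e → ZMod q, ‖∑ h ∈ Hs, r h * ch (∑ i, y i * m h i)‖ ^ 2 : ℝ) : ℂ) =
      ∑ h ∈ Hs, ∑ h' ∈ Hs, r h * (starRingEnd ℂ) (r h') *
        if m h - m h' = 0 then (q : ℂ) ^ e else 0 := by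
    push_cast
    simp only [← Complex.mul_conj', map_sum, sum_mul_sum, ← dls_orth]
    simp only [mul_sum (s := (univ : Finset (Fin e → ZMod q)))]
    rw [sum_comm]
    refine sum_congr rfl fun h _ => ?_
    rw [sum_comm]
    refine sum_congr rfl fun h' _ => sum_congr rfl fun y _ => ?_
    simp only [Pi.sub_apply, mul_sub, sum_sub_distrib, ch_sub, map_mul]
    ring
  have h2 : (0 : ℝ) ≤ ∑ y : Fin e → ZMod q, ‖∑ h ∈ Hs, r h * ch (∑ i, y i * m h i)‖ ^ 2 :=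
    sum_nonneg fun _ _ => by positivity
  rw [← Real.norm_of_nonneg h2, ← Complex.norm_real, h1, mul_sum]
  refine (norm_sum_le _ _).trans (sum_le_sum fun h _ => ?_)
  rw [mul_sum]
  refine (norm_sum_le _ _).trans (sum_le_sum fun h' _ => le_of_eq ?_)
  simp only [sub_eq_zero]
  split_ifs
  · simp only [norm_mul, norm_pow, Complex.norm_natCast, Complex.norm_conj]
    ring
  · simp

theorem dls_C {Y σ : Type} [Fintype Y] [DecidableEq Y] (S : Finset σ) (g : σ → Y) (c : σ → ℂ) :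
    ∑ y, ‖∑ s ∈ S, if g s = y then c s else 0‖ ^ 2 ≤
      ∑ s ∈ S, ∑ s' ∈ S, if g s = g s' then ‖c s‖ * ‖c s'‖ else 0 := by
  have h1 : ∀ y, ‖∑ s ∈ S, if g s = y then c s else 0‖ ^ 2 ≤
      ∑ s ∈ S, ∑ s' ∈ S, if g s = y then (if g s = g s' then ‖c s‖ * ‖c s'‖ else 0) else 0 := by
    intro y
    have h2 : ‖∑ s ∈ S, if g s = y then c s else 0‖ ≤ ∑ s ∈ S, if g s = y then ‖c s‖ else 0 := by
      refine (norm_sum_le _ _).trans (sum_le_sum fun s _ => le_of_eq ?_)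
      split_ifs <;> simp
    refine (pow_le_pow_left₀ (norm_nonneg _) h2 2).trans (le_of_eq ?_)
    rw [sq, sum_mul_sum]
    refine sum_congr rfl fun s _ => sum_congr rfl fun s' _ => ?_
    by_cases h : g s = y
    · subst h
      by_cases h' : g s' = g s
      · simp [h']
      · simp [h', Ne.symm h']
    · simp [h]
  refine (sum_le_sum fun y _ => h1 y).trans (le_of_eq ?_)
  rw [sum_comm]
  refine sum_congr rfl fun s _ => ?_
  rw [sum_comm]
  refine sum_congr rfl fun s' _ => ?_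
  simp

theorem dls_re {q : ℕ} [NeZero q] {j : ℤ} (hj : 6 * |j| ≤ q) :
    (1 / 2 : ℝ) ≤ (ch (j : ZMod q)).re := by
  have hq : (0 : ℝ) < q := by exact_mod_cast NeZero.pos q
  have h1 : ee ((j : ℝ) / q) = Complex.exp ((2 * Real.pi * ((j : ℝ) / q) : ℝ) * Complex.I) := by
    simp only [ee]
    congr 1
    push_cast
    ring
  rw [ch_int, h1, Complex.exp_ofReal_mul_I_re, ← Real.cos_abs, ← Real.cos_pi_div_three]
  have hπ := Real.pi_pos
  refine Real.cos_le_cos_of_nonneg_of_le_pi (abs_nonneg _) (by linarith) ?_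
  have h2 : (6 : ℝ) * |(j : ℝ)| ≤ q := by exact_mod_cast hj
  rw [abs_mul, abs_div, abs_of_pos hq, abs_of_pos (by positivity : 0 < 2 * Real.pi)]
  have h3 : |(j : ℝ)| / q ≤ 1 / 6 := by
    rw [div_le_iff₀ hq]
    linarith
  nlinarith

theorem dls_lam1 {q : ℕ} [NeZero q] {N D : ℕ} {n : ℤ} (hn : |n| ≤ N) (h1 : 6 * D * N ≤ q) :
    (2 * D + 1 : ℝ) / 2 ≤ ‖∑ u ∈ Icc (-(D : ℤ)) D, ch ((u : ZMod q) * (n : ZMod q))‖ := by
  refine le_trans ?_ (Complex.re_le_norm _)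
  rw [Complex.re_sum]
  have h2 : ∀ u ∈ Icc (-(D : ℤ)) D, (1 / 2 : ℝ) ≤ (ch ((u : ZMod q) * (n : ZMod q))).re := by
    intro u hu
    rw [← Int.cast_mul]
    refine dls_re ?_
    have h3 : |u| ≤ D := abs_le.mpr (mem_Icc.mp hu)
    have h4 : |u| * |n| ≤ D * N := mul_le_mul h3 hn (abs_nonneg _) (by positivity)
    have h5 : (6 * D * N : ℤ) ≤ q := by exact_mod_cast h1
    rw [abs_mul]
    linarith
  refine le_trans (le_of_eq ?_) (sum_le_sum h2)
  rw [sum_const, Int.card_Icc, nsmul_eq_mul]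
  have : ((D : ℤ) + 1 - -(D : ℤ)).toNat = 2 * D + 1 := by omega
  rw [this]
  push_cast
  ring

theorem dls_inj {q N : ℕ} (h : 2 * N < q) {a b : ℤ} (ha : |a| ≤ N) (hb : |b| ≤ N)
    (hab : (a : ZMod q) = b) : a = b := by
  have h1 : (q : ℤ) ∣ b - a := (ZMod.intCast_eq_intCast_iff_dvd_sub a b q).mp hab
  have h2 : |b - a| < q := by
    have : (2 * N : ℤ) < q := by exact_mod_cast h
    have h3 := abs_sub b a
    linarith
  have := Int.eq_zero_of_abs_lt_dvd h1 h2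
  omega

/-- the box of shifts -/
noncomputable def dlsU {e : ℕ} (D : Fin e → ℕ) : Finset (Fin e → ℤ) :=
  Fintype.piFinset fun i => Icc (-(D i : ℤ)) (D i)

theorem dls_mem {e : ℕ} {D : Fin e → ℕ} {u : Fin e → ℤ} (hu : u ∈ dlsU D) (i : Fin e) :
    |u i| ≤ D i :=
  abs_le.mpr (mem_Icc.mp (Fintype.mem_piFinset.mp hu i))

theorem dls_card {e : ℕ} (D : Fin e → ℕ) : (#(dlsU D) : ℝ) = ∏ i, (2 * D i + 1 : ℝ) := by
  rw [dlsU, Fintype.card_piFinset]
  push_cast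
  refine prod_congr rfl fun i _ => ?_
  rw [Int.card_Icc]
  have : ((D i : ℤ) + 1 - -(D i : ℤ)).toNat = 2 * D i + 1 := by omega
  rw [this]
  push_cast
  ring

open Classical in
theorem dls_cnt {q e : ℕ} {D : Fin e → ℕ} (h3 : ∀ i, 2 * D i < q) (a b : Fin e → ZMod q)
    {w : ℝ} (hw : 0 ≤ w) :
    (∑ u ∈ dlsU D, ∑ u' ∈ dlsU D,
      if (fun i => a i + (u i : ZMod q)) = (fun i => b i + (u' i : ZMod q)) then w else 0) ≤
      (∏ i, (2 * D i + 1 : ℝ)) * if ∀ i, Small (a i - b i) (2 * D i) then w else 0 := by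
  rw [← dls_card, ← nsmul_eq_mul, ← sum_const]
  refine sum_le_sum fun u hu => ?_
  by_cases h : ∃ v ∈ dlsU D, (fun i => a i + (u i : ZMod q)) = (fun i => b i + (v i : ZMod q))
  · obtain ⟨v, hv, h⟩ := h
    have hs : ∀ i, Small (a i - b i) (2 * D i) := by
      intro i
      refine ⟨v i - u i, ?_, ?_⟩
      · have h4 : |v i - u i| ≤ 2 * D i := by
          have h5 := abs_sub (v i) (u i)
          have h6 := dls_mem hu i
          have h7 := dls_mem hv i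
          linarith
        exact_mod_cast h4
      · have h4 := congrFun h i
        push_cast
        linear_combination -h4
    rw [if_pos hs, sum_eq_single v, if_pos h]
    · intro v' hv' hne
      refine if_neg fun h' => hne ?_
      funext i
      refine dls_inj (h3 i) (dls_mem hv' i) (dls_mem hv i) ?_
      have h4 := congrFun h i
      have h5 := congrFun h' i
      linear_combination h4 - h5
    · exact fun h' => absurd hv h'
  · rw [sum_eq_zero fun v hv => if_neg fun h' => h ⟨v, hv, h'⟩]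
    split_ifs
    · exact hw
    · exact le_rfl

open Classical in
theorem dls {q e : ℕ} [NeZero q] {τ η : Type} (T : Finset τ) (Hs : Finset η)
    (γ : τ → Fin e → ZMod q) (n : η → Fin e → ℤ) (c : τ → ℂ) (r : η → ℂ) (N D : Fin e → ℕ)
    (hn : ∀ h ∈ Hs, ∀ i, |n h i| ≤ N i) (h1 : ∀ i, 6 * D i * N i ≤ q) (h2 : ∀ i, 2 * N i < q)
    (h3 : ∀ i, 2 * D i < q) :
    ‖∑ t ∈ T, ∑ h ∈ Hs, c t * r h * ch (∑ i, γ t i * (n h i : ZMod q))‖ ^ 2 ≤
      4 ^ e * (∏ i, (q : ℝ) / (2 * D i + 1)) *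
        (∑ t ∈ T, ∑ t' ∈ T,
          if ∀ i, Small (γ t i - γ t' i) (2 * D i) then ‖c t‖ * ‖c t'‖ else 0) *
        (∑ h ∈ Hs, ∑ h' ∈ Hs, if n h = n h' then ‖r h‖ * ‖r h'‖ else 0) := by
  set L : ℝ := ∏ i, (2 * D i + 1 : ℝ) with hL
  have hL0 : 0 < L := prod_pos fun i _ => by positivity
  let lam : η → ℂ := fun h => ∑ u ∈ dlsU D, ch (∑ i, (u i : ZMod q) * (n h i : ZMod q))
  have hlam : ∀ h ∈ Hs, L / 2 ^ e ≤ ‖lam h‖ := by
    intro h hh
    have h4 : lam h = ∏ i, ∑ u ∈ Icc (-(D i : ℤ)) (D i), ch ((u : ZMod q) * (n h i : ZMod q)) := by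
      rw [Finset.prod_univ_sum]
      exact sum_congr rfl fun y _ => ch_sum _ _
    have h5 : L / 2 ^ e = ∏ i, (2 * D i + 1 : ℝ) / 2 := by
      rw [prod_div_distrib, prod_const, card_univ, Fintype.card_fin]
    rw [h4, h5, norm_prod]
    exact prod_le_prod (fun i _ => by positivity) fun i _ => dls_lam1 (hn h hh i) (h1 i)
  have hΛ : 0 < L / 2 ^ e := by positivity
  let g : τ × (Fin e → ℤ) → Fin e → ZMod q := fun s i => γ s.1 i + (s.2 i : ZMod q)
  let R : (Fin e → ZMod q) → ℂ := fun y =>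
    ∑ h ∈ Hs, r h / lam h * ch (∑ i, y i * (n h i : ZMod q))
  have e1 : ∑ t ∈ T, ∑ h ∈ Hs, c t * r h * ch (∑ i, γ t i * (n h i : ZMod q)) =
      ∑ y, (∑ s ∈ T ×ˢ dlsU D, if g s = y then c s.1 else 0) * R y := by
    simp only [sum_mul]
    rw [sum_comm (s := univ), sum_product]
    refine sum_congr rfl fun t _ => ?_
    simp only [ite_mul, zero_mul]
    simp only [Finset.sum_ite_eq, mem_univ, if_true]
    simp only [R, mul_sum]
    rw [sum_comm (s := dlsU D)]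
    refine sum_congr rfl fun h hh => ?_
    have h4 : lam h ≠ 0 := norm_pos_iff.mp (hΛ.trans_le (hlam h hh))
    have h5 : ∀ u : Fin e → ℤ, ch (∑ i, g (t, u) i * (n h i : ZMod q)) =
        ch (∑ i, γ t i * (n h i : ZMod q)) * ch (∑ i, (u i : ZMod q) * (n h i : ZMod q)) := by
      intro u
      rw [← ch_add, ← sum_add_distrib]
      simp only [g, add_mul]
    simp only [h5, ← mul_assoc, ← mul_sum]
    change _ = _ * lam h
    field_simp
  have e2 : ∑ y, ‖∑ s ∈ T ×ˢ dlsU D, if g s = y then c s.1 else 0‖ ^ 2 ≤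
      L * ∑ t ∈ T, ∑ t' ∈ T,
        if ∀ i, Small (γ t i - γ t' i) (2 * D i) then ‖c t‖ * ‖c t'‖ else 0 := by
    refine (dls_C (T ×ˢ dlsU D) g fun s => c s.1).trans ?_
    rw [sum_product, mul_sum]
    refine sum_le_sum fun t _ => ?_
    simp only [sum_product]
    rw [sum_comm, mul_sum]
    exact sum_le_sum fun t' _ => dls_cnt h3 (γ t) (γ t') (by positivity)
  have e3 : ∑ y, ‖R y‖ ^ 2 ≤ (q : ℝ) ^ e * ((2 ^ e / L) ^ 2 *
      ∑ h ∈ Hs, ∑ h' ∈ Hs, if n h = n h' then ‖r h‖ * ‖r h'‖ else 0) := by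
    refine (dls_R Hs (fun h i => (n h i : ZMod q)) fun h => r h / lam h).trans ?_
    refine mul_le_mul_of_nonneg_left ?_ (by positivity)
    rw [mul_sum]
    refine sum_le_sum fun h hh => ?_
    rw [mul_sum]
    refine sum_le_sum fun h' hh' => ?_
    have h4 : ∀ x ∈ Hs, ‖r x / lam x‖ ≤ 2 ^ e / L * ‖r x‖ := by
      intro x hx
      rw [norm_div]
      refine (div_le_div_of_nonneg_left (norm_nonneg _) hΛ (hlam x hx)).trans (le_of_eq ?_)
      field_simp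
    by_cases h5 : n h = n h'
    · rw [if_pos h5, if_pos (by rw [h5])]
      refine (mul_le_mul (h4 h hh) (h4 h' hh') (norm_nonneg _) (by positivity)).trans
        (le_of_eq ?_)
      ring
    · rw [if_neg h5, if_neg, mul_zero]
      intro h6
      exact h5 (funext fun i => dls_inj (h2 i) (hn h hh i) (hn h' hh' i) (congrFun h6 i))
  rw [e1]
  refine (dls_cs _ _).trans ((mul_le_mul e2 e3 (sum_nonneg fun _ _ => by positivity)
    (mul_nonneg hL0.le (sum_nonneg fun _ _ => sum_nonneg fun _ _ => ?_))).trans (le_of_eq ?_))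
  · split_ifs
    · positivity
    · exact le_rfl
  · rw [prod_div_distrib, prod_const, card_univ, Fintype.card_fin, ← hL,
      show (4 : ℝ) ^ e = (2 ^ e) ^ 2 by rw [← pow_mul, mul_comm, pow_mul]; norm_num]
    field_simp

end Pool.Agent.MP_927be3_nt.W

end PartDls

section PartLsieve

open Finset Polynomial

namespace Pool.Agent.MP_927be3_nt.W

theorem lsieve_sep {q R D : ℕ} [NeZero q] (hD : 2 * D * R ^ 2 < q) {z z' : ℕ × ℕ}
    (hz : 1 ≤ z.1 ∧ z.1 ≤ R ∧ z.2 < z.1 ∧ Nat.Coprime z.2 z.1 ∧ z.1 ∣ q)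
    (hz' : 1 ≤ z'.1 ∧ z'.1 ≤ R ∧ z'.2 < z'.1 ∧ Nat.Coprime z'.2 z'.1 ∧ z'.1 ∣ q)
    (h : Small (((q / z.1 : ℕ) : ZMod q) * (z.2 : ZMod q) -
      ((q / z'.1 : ℕ) : ZMod q) * (z'.2 : ZMod q)) (2 * (D : ℝ))) : z = z' := by
  obtain ⟨m, n⟩ := z
  obtain ⟨m', n'⟩ := z'
  obtain ⟨h1, h2, h3, h4, a, ha⟩ := hz
  obtain ⟨h1', h2', h3', h4', a', ha'⟩ := hz'
  simp only at h1 h2 h3 h4 ha h1' h2' h3' h4' ha' h
  have hq : 0 < q := Nat.pos_of_ne_zero (NeZero.ne q)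
  have e1 : q / m = a := by rw [ha]; exact Nat.mul_div_cancel_left a (by omega)
  have e2 : q / m' = a' := by rw [ha']; exact Nat.mul_div_cancel_left a' (by omega)
  rw [e1, e2] at h
  obtain ⟨e, he, hz⟩ := h
  have he' : |e| ≤ 2 * (D : ℤ) := by exact_mod_cast he
  have hd : (q : ℤ) ∣ e - ((a : ℤ) * n - (a' : ℤ) * n') := by
    rw [← ZMod.intCast_zmod_eq_zero_iff_dvd]
    push_cast
    rw [hz, sub_self]
  have haz : (q : ℤ) = m * a := by exact_mod_cast ha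
  have haz' : (q : ℤ) = m' * a' := by exact_mod_cast ha'
  have hd2 : (q : ℤ) ∣ e * (m * m') := by
    have h5 : e * (m * m') = (e - ((a : ℤ) * n - (a' : ℤ) * n')) * (m * m') +
        q * ((n : ℤ) * m' - n' * m) := by
      have h6 : (q : ℤ) * ((n : ℤ) * m' - n' * m) = (m * a) * (n * m') - (m' * a') * (n' * m) := by
        rw [← haz, ← haz']; ring
      rw [h6]; ring
    rw [h5]
    exact dvd_add (dvd_mul_of_dvd_left hd _) (dvd_mul_right _ _)
  have hmm : (m : ℤ) * m' ≤ (R : ℤ) ^ 2 := by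
    have : m * m' ≤ R ^ 2 := by rw [sq]; exact Nat.mul_le_mul h2 h2'
    exact_mod_cast this
  have hmm0 : (0 : ℤ) < (m : ℤ) * m' := by
    have : 0 < m * m' := Nat.mul_pos h1 h1'
    exact_mod_cast this
  have hlt : |e * (m * m')| < q := by
    rw [abs_mul, abs_of_pos hmm0]
    have h7 : ((2 * D * R ^ 2 : ℕ) : ℤ) < q := by exact_mod_cast hD
    push_cast at h7
    calc |e| * (m * m') ≤ 2 * D * (R : ℤ) ^ 2 :=
          mul_le_mul he' hmm hmm0.le (by positivity)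
      _ < q := h7
  have h0 : e * (m * m') = 0 := Int.eq_zero_of_abs_lt_dvd hd2 hlt
  have he0 : e = 0 := by
    rcases mul_eq_zero.mp h0 with h | h
    · exact h
    · exact absurd h hmm0.ne'
  subst he0
  have ha0 : 0 < a := Nat.pos_of_ne_zero (by rintro rfl; omega)
  have ha0' : 0 < a' := Nat.pos_of_ne_zero (by rintro rfl; omega)
  have b1 : a * n < q := by rw [ha, mul_comm m a]; exact Nat.mul_lt_mul_of_pos_left h3 ha0
  have b2 : a' * n' < q := by rw [ha', mul_comm m' a']; exact Nat.mul_lt_mul_of_pos_left h3' ha0'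
  have b1z : (a : ℤ) * n < q := by exact_mod_cast b1
  have b2z : (a' : ℤ) * n' < q := by exact_mod_cast b2
  have b3 : (0 : ℤ) ≤ (a : ℤ) * n := by positivity
  have b4 : (0 : ℤ) ≤ (a' : ℤ) * n' := by positivity
  have h8 : 0 - ((a : ℤ) * n - (a' : ℤ) * n') = 0 :=
    Int.eq_zero_of_abs_lt_dvd hd (by rw [abs_lt]; constructor <;> linarith)
  have h9 : a * n = a' * n' := by
    have : (a : ℤ) * n = (a' : ℤ) * n' := by linarith
    exact_mod_cast this
  have h10 : n * m' = n' * m := by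
    have : q * (n * m') = q * (n' * m) := by
      calc q * (n * m') = m * a * (n * m') := by rw [← ha]
        _ = m * m' * (a * n) := by ring
        _ = m * m' * (a' * n') := by rw [h9]
        _ = m' * a' * (n' * m) := by ring
        _ = q * (n' * m) := by rw [← ha']
    exact Nat.eq_of_mul_eq_mul_left hq this
  have d1 : m ∣ m' := h4.symm.dvd_of_dvd_mul_left ⟨n', by rw [h10]; ring⟩
  have d2 : m' ∣ m := h4'.symm.dvd_of_dvd_mul_left ⟨n, by rw [← h10]; ring⟩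
  have hm : m = m' := Nat.dvd_antisymm d1 d2
  subst hm
  have hn : n = n' := Nat.eq_of_mul_eq_mul_right h1 h10
  rw [hn]

theorem lsieve {q P R : ℕ} [NeZero q] (hq : 2 * P < q) (F : Finset (ℕ × ℕ))
    (hF : ∀ z ∈ F, 1 ≤ z.1 ∧ z.1 ≤ R ∧ z.2 < z.1 ∧ Nat.Coprime z.2 z.1 ∧ z.1 ∣ q) (c : ℕ → ℂ) :
    ∑ z ∈ F, ‖∑ x ∈ range (P + 1),
        c x * ch (((q / z.1 : ℕ) : ZMod q) * (z.2 : ZMod q) * (x : ZMod q))‖ ^ 2 ≤
      24 * ((P : ℝ) + 1 + (R : ℝ) ^ 2) * ∑ x ∈ range (P + 1), ‖c x‖ ^ 2 := by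
  classical
  have hq0 : 0 < q := Nat.pos_of_ne_zero (NeZero.ne q)
  obtain ⟨K, hK⟩ : ∃ K : ℕ, K = P + 1 + R ^ 2 := ⟨_, rfl⟩
  have hK0 : 0 < 6 * K := by omega
  obtain ⟨D, hD⟩ : ∃ D : ℕ, D = q / (6 * K) := ⟨_, rfl⟩
  have hD1 : 6 * K * D ≤ q := by rw [hD]; exact Nat.mul_div_le q (6 * K)
  have hD2 : q < 6 * K * (D + 1) := by rw [hD]; exact Nat.lt_mul_div_succ q hK0
  have hKP : D * P ≤ D * K := Nat.mul_le_mul_left D (by omega)
  have hKR : D * R ^ 2 ≤ D * K := Nat.mul_le_mul_left D (by omega)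
  have hK1 : D * 1 ≤ D * K := Nat.mul_le_mul_left D (by omega)
  have c1 : 6 * D * P ≤ q := by nlinarith
  have c3 : 2 * D < q := by nlinarith
  have c4 : 2 * D * R ^ 2 < q := by nlinarith
  obtain ⟨S, hS⟩ : ∃ S : ℕ × ℕ → ℂ, S = fun z => ∑ x ∈ range (P + 1),
      c x * ch (((q / z.1 : ℕ) : ZMod q) * (z.2 : ZMod q) * (x : ZMod q)) := ⟨_, rfl⟩
  have hSz : ∀ z, ∑ x ∈ range (P + 1),
      c x * ch (((q / z.1 : ℕ) : ZMod q) * (z.2 : ZMod q) * (x : ZMod q)) = S z := by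
    intro z; rw [hS]
  simp only [hSz]
  have key := dls (q := q) (e := 1) F (range (P + 1))
    (fun z _ => ((q / z.1 : ℕ) : ZMod q) * (z.2 : ZMod q)) (fun x _ => (x : ℤ))
    (fun z => (starRingEnd ℂ) (S z)) c (fun _ => P) (fun _ => D)
    (by
      intro x hx _
      have : x ≤ P := Nat.lt_succ_iff.mp (mem_range.mp hx)
      rw [abs_of_nonneg (by positivity)]
      exact_mod_cast this)
    (fun _ => c1) (fun _ => hq) (fun _ => c3)
  have l1 : ∑ z ∈ F, ∑ x ∈ range (P + 1), (starRingEnd ℂ) (S z) * c x *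
      ch (∑ _i : Fin 1, ((q / z.1 : ℕ) : ZMod q) * (z.2 : ZMod q) * (((x : ℤ) : ℤ) : ZMod q)) =
      ((∑ z ∈ F, ‖S z‖ ^ 2 : ℝ) : ℂ) := by
    push_cast
    refine sum_congr rfl fun z _ => ?_
    rw [← Complex.conj_mul', ← hSz z, mul_sum]
    refine sum_congr rfl fun x _ => ?_
    simp only [Finset.univ_unique, sum_singleton]
    ring
  have l2 : (∑ z ∈ F, ∑ z' ∈ F,
      if ∀ _i : Fin 1, Small (((q / z.1 : ℕ) : ZMod q) * (z.2 : ZMod q) -
        ((q / z'.1 : ℕ) : ZMod q) * (z'.2 : ZMod q)) (2 * (D : ℝ))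
      then ‖(starRingEnd ℂ) (S z)‖ * ‖(starRingEnd ℂ) (S z')‖ else 0) ≤ ∑ z ∈ F, ‖S z‖ ^ 2 := by
    refine sum_le_sum fun z hz => ?_
    calc _ ≤ ∑ z' ∈ F, if z = z' then ‖S z‖ ^ 2 else 0 := by
          refine sum_le_sum fun z' hz' => ?_
          split_ifs with g1 g2 g2
          · subst g2; simp [sq]
          · exact absurd (lsieve_sep c4 (hF z hz) (hF z' hz') (g1 0)) g2
          · positivity
          · exact le_rfl
      _ = ‖S z‖ ^ 2 := by rw [sum_ite_eq]; simp [hz]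
  have l3 : (∑ x ∈ range (P + 1), ∑ x' ∈ range (P + 1),
      if (fun _ : Fin 1 => (x : ℤ)) = (fun _ : Fin 1 => (x' : ℤ)) then ‖c x‖ * ‖c x'‖ else 0) ≤
      ∑ x ∈ range (P + 1), ‖c x‖ ^ 2 := by
    refine sum_le_sum fun x hx => ?_
    calc _ ≤ ∑ x' ∈ range (P + 1), if x = x' then ‖c x‖ ^ 2 else 0 := by
          refine sum_le_sum fun x' _ => ?_
          split_ifs with g1 g2 g2
          · subst g2; simp [sq]
          · exact absurd (by exact_mod_cast congrFun g1 0) g2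
          · positivity
          · exact le_rfl
      _ = ‖c x‖ ^ 2 := by rw [sum_ite_eq]; simp only [hx, if_true]
  have l4 : (∏ _i : Fin 1, (q : ℝ) / (2 * (D : ℝ) + 1)) ≤ 6 * ((P : ℝ) + 1 + (R : ℝ) ^ 2) := by
    simp only [Finset.univ_unique, prod_singleton]
    rw [div_le_iff₀ (by positivity)]
    have g1 : q ≤ 6 * K * (2 * D + 1) := by nlinarith
    have g2 : (q : ℝ) ≤ 6 * (K : ℝ) * (2 * D + 1) := by exact_mod_cast g1
    rw [hK] at g2
    push_cast at g2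
    exact g2
  rw [l1] at key
  obtain ⟨A, hA⟩ : ∃ A : ℝ, A = ∑ z ∈ F, ‖S z‖ ^ 2 := ⟨_, rfl⟩
  obtain ⟨B, hB⟩ : ∃ B : ℝ, B = ∑ x ∈ range (P + 1), ‖c x‖ ^ 2 := ⟨_, rfl⟩
  rw [← hA] at key l2 ⊢
  rw [← hB] at l3 ⊢
  have hA0 : 0 ≤ A := by rw [hA]; positivity
  have hB0 : 0 ≤ B := by rw [hB]; positivity
  rw [Complex.norm_real, Real.norm_of_nonneg hA0] at key
  have k2 : A ^ 2 ≤ 4 ^ 1 * (6 * ((P : ℝ) + 1 + (R : ℝ) ^ 2)) * A * B := by
    refine key.trans ?_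
    refine mul_le_mul (mul_le_mul (mul_le_mul_of_nonneg_left l4 (by positivity)) l2 ?_
      (by positivity)) l3 ?_ (by positivity)
    · refine sum_nonneg fun _ _ => sum_nonneg fun _ _ => ?_
      split_ifs <;> positivity
    · refine sum_nonneg fun _ _ => sum_nonneg fun _ _ => ?_
      split_ifs <;> positivity
  rcases hA0.eq_or_lt with h0 | h0
  · rw [← h0]; positivity
  · have k3 : A * A ≤ A * (24 * ((P : ℝ) + 1 + (R : ℝ) ^ 2) * B) := by nlinarith
    exact le_of_mul_le_mul_left k3 h0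

end Pool.Agent.MP_927be3_nt.W

end PartLsieve

section PartMv

open Finset Polynomial

namespace Pool.Agent.MP_927be3_nt.W

theorem mv_orth (H : ℕ) {h y : ℤ} (hh : h ∈ Icc (-(H : ℤ)) H) (hy : y ∈ Icc (-(H : ℤ)) H) :
    ∑ r : ZMod (2 * H + 1), ch (r * ((h : ZMod (2 * H + 1)) - (y : ZMod (2 * H + 1)))) =
      if y = h then ((2 * H + 1 : ℕ) : ℂ) else 0 := by
  rw [ch_orth]
  refine if_congr ?_ rfl rfl
  rw [sub_eq_zero, ZMod.intCast_eq_intCast_iff_dvd_sub]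
  rw [mem_Icc] at hh hy
  constructor
  · intro h1
    have h2 := Int.eq_zero_of_abs_lt_dvd h1 (by rw [abs_lt]; push_cast; constructor <;> omega)
    omega
  · rintro rfl
    simp

theorem mv_geom {q : ℕ} [NeZero q] {r : ZMod q} (hr : r ≠ 0) (lo hi : ℤ) :
    ‖∑ y ∈ Icc lo hi, ch (-(r * (y : ZMod q)))‖ ≤ 2 * q / Pool.Agent.MP_e4c747_an.nrm r := by
  have h1 : ∑ y ∈ Icc lo hi, ch (-(r * (y : ZMod q))) =
      (starRingEnd ℂ) (∑ j ∈ range (hi + 1 - lo).toNat, ch (r * (lo : ZMod q) + r * (j : ZMod q))) := by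
    rw [map_sum, Int.Icc_eq_finset_map, sum_map]
    refine sum_congr rfl fun j _ => ?_
    rw [← ch_neg]
    congr 1
    simp only [Function.Embedding.trans_apply, Nat.castEmbedding_apply, addLeftEmbedding_apply]
    push_cast
    ring
  rw [h1, Complex.norm_conj]
  exact Pool.Agent.MP_e4c747_an.geom_le hr _ _

theorem complete_sum (H : ℕ) : ∃ W : ZMod (2 * H + 1) → ℝ, (∀ r, 0 ≤ W r) ∧
    ∑ r, W r ≤ 5 + 4 * Real.log (2 * H + 1) ∧
    ∀ (lo hi : ℤ) (z : ℤ → ℂ), -(H : ℤ) ≤ lo → hi ≤ H →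
      ‖∑ h ∈ Icc lo hi, z h‖ ≤
        ∑ r, W r * ‖∑ h ∈ Icc (-(H : ℤ)) H, ch (r * (h : ZMod (2 * H + 1))) * z h‖ := by
  refine ⟨fun r => if r = 0 then 1 else 2 / (Pool.Agent.MP_e4c747_an.nrm r : ℝ),
    fun r => by beta_reduce; split_ifs <;> positivity, ?_, fun lo hi z hlo hhi => ?_⟩
  · rw [← add_sum_erase _ _ (mem_univ 0), if_pos rfl,
      sum_congr rfl fun r hr => if_neg (mem_erase.1 hr).1]
    have h1 := Pool.Agent.MP_e4c747_an.sum_nrm_le (univ.erase (0 : ZMod (2 * H + 1))) (2 * H + 1)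
      (fun x hx => ⟨(mem_erase.1 hx).1,
        (Pool.Agent.MP_e4c747_an.nrm_le x).trans (Nat.div_le_self _ _)⟩)
      (fun r => 2 / (r : ℝ)) (fun r => by positivity)
    have h2 := Pool.Agent.MP_e4c747_an.harm_le (2 * H + 1)
    have h3 : ∑ r ∈ Icc 1 (2 * H + 1), (2 / (r : ℝ)) = 2 * ∑ r ∈ Icc 1 (2 * H + 1), (1 / r : ℝ) := by
      rw [mul_sum]
      exact sum_congr rfl fun r _ => by ring
    push_cast at h2
    linarith
  · have hL : ((2 * H + 1 : ℕ) : ℂ) ≠ 0 := Nat.cast_ne_zero.2 (Nat.succ_ne_zero _)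
    have hL' : (0 : ℝ) < ((2 * H + 1 : ℕ) : ℝ) := by positivity
    have hsub : Icc lo hi ⊆ Icc (-(H : ℤ)) H := Icc_subset_Icc hlo hhi
    have h1 : ∑ h ∈ Icc lo hi, z h = ∑ r : ZMod (2 * H + 1),
        ((∑ y ∈ Icc lo hi, ch (-(r * (y : ZMod (2 * H + 1))))) / ((2 * H + 1 : ℕ) : ℂ)) *
          ∑ h ∈ Icc (-(H : ℤ)) H, ch (r * (h : ZMod (2 * H + 1))) * z h := by
      have h2 : ∀ r : ZMod (2 * H + 1),
          ((∑ y ∈ Icc lo hi, ch (-(r * (y : ZMod (2 * H + 1))))) / ((2 * H + 1 : ℕ) : ℂ)) *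
            ∑ h ∈ Icc (-(H : ℤ)) H, ch (r * (h : ZMod (2 * H + 1))) * z h =
          ∑ y ∈ Icc lo hi, ∑ h ∈ Icc (-(H : ℤ)) H,
            ch (r * ((h : ZMod (2 * H + 1)) - (y : ZMod (2 * H + 1)))) *
              (z h / ((2 * H + 1 : ℕ) : ℂ)) := by
        intro r
        rw [sum_div, sum_mul_sum]
        refine sum_congr rfl fun y _ => sum_congr rfl fun h _ => ?_
        rw [mul_sub, sub_eq_add_neg, ch_add]
        ring
      rw [sum_congr rfl fun r _ => h2 r, sum_comm]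
      refine sum_congr rfl fun y hy => ?_
      rw [sum_comm, sum_congr rfl fun h hh => by rw [← sum_mul, mv_orth H hh (hsub hy)]]
      simp only [ite_mul, zero_mul]
      rw [sum_ite_eq, if_pos (hsub hy)]
      field_simp
    rw [h1]
    refine (norm_sum_le _ _).trans (sum_le_sum fun r _ => ?_)
    rw [norm_mul]
    refine mul_le_mul_of_nonneg_right ?_ (norm_nonneg _)
    rw [norm_div, Complex.norm_natCast, div_le_iff₀ hL']
    beta_reduce
    split_ifs with hr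
    · refine (norm_sum_le _ _).trans ?_
      simp only [norm_ch, sum_const, nsmul_eq_mul, mul_one, one_mul]
      have h3 := card_le_card hsub
      rw [Int.card_Icc (-(H : ℤ)) H] at h3
      exact_mod_cast h3.trans (by omega)
    · refine (mv_geom hr lo hi).trans (le_of_eq ?_)
      ring

theorem mv_prod (H : ℝ) (e : ℕ) : ∏ i : Fin e, H ^ ((i : ℕ) + 1) = H ^ tri e := by
  induction e with
  | zero => simp [tri_zero]
  | succ e ih =>
    rw [Fin.prod_univ_castSucc, tri_succ, pow_add H (tri e), ← ih]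
    simp

theorem mv_pow {q e K : ℕ} [NeZero q] (S : Finset ℤ) (g : Fin e → ZMod q) (ρ : ℤ → ℂ) :
    (∑ h ∈ S, ρ h * ch (∑ i, g i * (h : ZMod q) ^ ((i : ℕ) + 1))) ^ K =
      ∑ x ∈ Fintype.piFinset (fun _ : Fin K => S), (∏ r, ρ (x r)) *
        ch (∑ i, g i * ((∑ r, x r ^ ((i : ℕ) + 1) : ℤ) : ZMod q)) := by
  rw [sum_pow']
  refine sum_congr rfl fun x _ => ?_
  rw [prod_mul_distrib, ← ch_sum, sum_comm]
  congr 2
  refine sum_congr rfl fun i _ => ?_
  push_cast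
  rw [mul_sum]

theorem mv_div {q N : ℕ} (hN : 0 < N) : (q : ℝ) / (2 * ((q / (6 * N) : ℕ) : ℝ) + 1) ≤ 6 * N := by
  rw [div_le_iff₀ (by positivity)]
  have h1 : q < 6 * N * (q / (6 * N) + 1) := Nat.lt_mul_div_succ q (by omega)
  have h2 : q ≤ 6 * N * (2 * (q / (6 * N)) + 1) :=
    h1.le.trans (Nat.mul_le_mul_left _ (by omega))
  exact_mod_cast h2

open Classical in
theorem mv0 {q e H : ℕ} [NeZero q] (he : 1 ≤ e) (hH : 1 ≤ H) (hq : 2 * tri e * H ^ e < q)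
    {τ : Type} (T : Finset τ) (γ : τ → Fin e → ZMod q) (ρ : ℤ → ℂ) (hρ : ∀ h, ‖ρ h‖ ≤ 1) :
    (∑ t ∈ T, ‖∑ h ∈ Icc (-(H : ℤ)) H,
        ρ h * ch (∑ i, γ t i * (h : ZMod q) ^ ((i : ℕ) + 1))‖) ^ (2 * tri e) ≤
      (24 * tri e : ℝ) ^ e * (H : ℝ) ^ tri e * Jv e H * (#T : ℝ) ^ (2 * tri e - 2) *
        #{z ∈ T ×ˢ T | Close H (γ z.1) (γ z.2)} := by
  have hK : 1 ≤ tri e := tri_pos he
  have hH0 : (0 : ℝ) < H := by exact_mod_cast hH
  have hN : ∀ i : Fin e, 0 < tri e * H ^ ((i : ℕ) + 1) := fun i => by positivity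
  obtain ⟨S, hS⟩ : ∃ S : τ → ℂ, ∀ t, S t = ∑ h ∈ Icc (-(H : ℤ)) H,
      ρ h * ch (∑ i, γ t i * (h : ZMod q) ^ ((i : ℕ) + 1)) := ⟨_, fun _ => rfl⟩
  simp only [← hS]
  choose c c1 c2 using fun t => Complex.exists_norm_eq_mul_self (S t ^ tri e)
  have h1 : (∑ t ∈ T, ‖S t‖) ^ tri e ≤ (#T : ℝ) ^ (tri e - 1) * ∑ t ∈ T, ‖S t‖ ^ tri e := by
    have h2 := pow_sum_le_card_mul_sum_pow (s := T) (f := fun t => ‖S t‖)
      (fun t _ => norm_nonneg _) (tri e - 1)
    rwa [Nat.sub_add_cancel hK] at h2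
  have h2 : ∑ t ∈ T, ‖S t‖ ^ tri e = ‖∑ t ∈ T,
      ∑ x ∈ Fintype.piFinset (fun _ : Fin (tri e) => Icc (-(H : ℤ)) H), c t * (∏ r, ρ (x r)) *
        ch (∑ i, γ t i * ((∑ r, x r ^ ((i : ℕ) + 1) : ℤ) : ZMod q))‖ := by
    have h3 : ∑ t ∈ T,
        ∑ x ∈ Fintype.piFinset (fun _ : Fin (tri e) => Icc (-(H : ℤ)) H), c t * (∏ r, ρ (x r)) *
          ch (∑ i, γ t i * ((∑ r, x r ^ ((i : ℕ) + 1) : ℤ) : ZMod q)) =
        ((∑ t ∈ T, ‖S t‖ ^ tri e : ℝ) : ℂ) := by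
      rw [Complex.ofReal_sum]
      refine sum_congr rfl fun t _ => ?_
      rw [← norm_pow, c2 t, hS t, mv_pow, mul_sum]
      exact sum_congr rfl fun x _ => mul_assoc _ _ _
    rw [h3, Complex.norm_real, Real.norm_of_nonneg (by positivity)]
  have h3 := dls T (Fintype.piFinset (fun _ : Fin (tri e) => Icc (-(H : ℤ)) H)) γ
    (fun x i => ∑ r, x r ^ ((i : ℕ) + 1)) c (fun x => ∏ r, ρ (x r))
    (fun i => tri e * H ^ ((i : ℕ) + 1)) (fun i => q / (6 * (tri e * H ^ ((i : ℕ) + 1))))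
    (fun x hx i => by
      refine (abs_sum_le_sum_abs _ _).trans ?_
      have h4 : ∀ r, |x r ^ ((i : ℕ) + 1)| ≤ (H : ℤ) ^ ((i : ℕ) + 1) := fun r => by
        rw [abs_pow]
        exact pow_le_pow_left₀ (abs_nonneg _)
          (abs_le.2 (mem_Icc.1 (Fintype.mem_piFinset.1 hx r))) _
      refine (sum_le_sum fun r _ => h4 r).trans (le_of_eq ?_)
      simp)
    (fun i => by
      rw [mul_right_comm]
      exact Nat.mul_div_le _ _)
    (fun i => by
      refine lt_of_le_of_lt ?_ hq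
      rw [mul_assoc]
      exact Nat.mul_le_mul_left _ (Nat.mul_le_mul_left _ (Nat.pow_le_pow_right hH i.2)))
    (fun i => by
      have h4 := Nat.mul_div_le q (6 * (tri e * H ^ ((i : ℕ) + 1)))
      have h5 := hN i
      have h6 := NeZero.pos q
      generalize q / (6 * (tri e * H ^ ((i : ℕ) + 1))) = D at h4 ⊢
      nlinarith)
  rw [← h2] at h3
  have h4 : ∏ i : Fin e, (q : ℝ) / (2 * ((q / (6 * (tri e * H ^ ((i : ℕ) + 1))) : ℕ) : ℝ) + 1) ≤
      (6 * tri e : ℝ) ^ e * (H : ℝ) ^ tri e := by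
    refine (prod_le_prod (fun i _ => by positivity) fun i _ => mv_div (hN i)).trans (le_of_eq ?_)
    rw [← mv_prod, ← Fin.prod_const, ← prod_mul_distrib]
    refine prod_congr rfl fun i _ => ?_
    push_cast
    ring
  have h5 : (∑ t ∈ T, ∑ t' ∈ T, if ∀ i, Small (γ t i - γ t' i)
      (2 * ((q / (6 * (tri e * H ^ ((i : ℕ) + 1))) : ℕ) : ℝ)) then ‖c t‖ * ‖c t'‖ else 0) ≤
      (#{z ∈ T ×ˢ T | Close H (γ z.1) (γ z.2)} : ℝ) := by
    rw [← sum_product', card_filter]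
    push_cast
    refine sum_le_sum fun z _ => ?_
    split_ifs with a1 a2 a2
    · rw [c1, c1, one_mul]
    · refine absurd (fun i => (a1 i).mono ?_) a2
      rw [le_div_iff₀ (by positivity)]
      have h6 := Nat.mul_div_le q (6 * (tri e * H ^ ((i : ℕ) + 1)))
      generalize q / (6 * (tri e * H ^ ((i : ℕ) + 1))) = D at h6 ⊢
      have h7 : 2 * D * H ^ ((i : ℕ) + 1) ≤ q := by
        refine le_trans ?_ h6
        generalize H ^ ((i : ℕ) + 1) = Y
        nlinarith [Nat.mul_le_mul_left (D * Y) hK]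
      exact_mod_cast h7
    · exact zero_le_one
    · exact le_rfl
  have h6 : (∑ x ∈ Fintype.piFinset (fun _ : Fin (tri e) => Icc (-(H : ℤ)) H),
      ∑ x' ∈ Fintype.piFinset (fun _ : Fin (tri e) => Icc (-(H : ℤ)) H),
        if (fun i : Fin e => ∑ r, x r ^ ((i : ℕ) + 1)) = (fun i : Fin e => ∑ r, x' r ^ ((i : ℕ) + 1))
          then ‖∏ r, ρ (x r)‖ * ‖∏ r, ρ (x' r)‖ else 0) ≤ (Jv e H : ℝ) := by
    have h7 : ∀ x : Fin (tri e) → ℤ, ‖∏ r, ρ (x r)‖ ≤ 1 := fun x => by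
      rw [norm_prod]
      exact prod_le_one (fun r _ => norm_nonneg _) fun r _ => hρ _
    rw [← sum_product', Jv, Pairs, card_filter]
    push_cast
    refine sum_le_sum fun z _ => ?_
    split_ifs with a1 a2 a2
    · exact mul_le_one₀ (h7 _) (norm_nonneg _) (h7 _)
    · exact absurd (fun i => congrFun a1 i) a2
    · exact zero_le_one
    · exact le_rfl
  have h7 : (∑ t ∈ T, ‖S t‖ ^ tri e) ^ 2 ≤ 4 ^ e * ((6 * tri e : ℝ) ^ e * (H : ℝ) ^ tri e) *
      (#{z ∈ T ×ˢ T | Close H (γ z.1) (γ z.2)} : ℝ) * (Jv e H : ℝ) := by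
    refine h3.trans (mul_le_mul (mul_le_mul (mul_le_mul_of_nonneg_left h4 (by positivity)) ?_ ?_
      (by positivity)) ?_ ?_ (by positivity))
    · convert h5
    · exact sum_nonneg fun _ _ => sum_nonneg fun _ _ => by split_ifs <;> positivity
    · convert h6
    · exact sum_nonneg fun _ _ => sum_nonneg fun _ _ => by split_ifs <;> positivity
  calc (∑ t ∈ T, ‖S t‖) ^ (2 * tri e) = ((∑ t ∈ T, ‖S t‖) ^ tri e) ^ 2 := by
        rw [← pow_mul, mul_comm]
    _ ≤ ((#T : ℝ) ^ (tri e - 1) * ∑ t ∈ T, ‖S t‖ ^ tri e) ^ 2 :=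
        pow_le_pow_left₀ (by positivity) h1 2
    _ = (#T : ℝ) ^ (2 * tri e - 2) * (∑ t ∈ T, ‖S t‖ ^ tri e) ^ 2 := by
        rw [mul_pow, ← pow_mul, show (tri e - 1) * 2 = 2 * tri e - 2 by omega]
    _ ≤ (#T : ℝ) ^ (2 * tri e - 2) * (4 ^ e * ((6 * tri e : ℝ) ^ e * (H : ℝ) ^ tri e) *
        (#{z ∈ T ×ˢ T | Close H (γ z.1) (γ z.2)} : ℝ) * (Jv e H : ℝ)) :=
        mul_le_mul_of_nonneg_left h7 (by positivity)
    _ = _ := by
        rw [show (24 * tri e : ℝ) = 4 * (6 * tri e) by ring, mul_pow 4]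
        ring

theorem mv_log {K : ℕ} (hK : 1 ≤ K) {ε : ℝ} (hε : 0 < ε) : ∃ c : ℝ, 0 < c ∧ ∀ H : ℕ, 1 ≤ H →
    (5 + 4 * Real.log (2 * H + 1)) ^ K ≤ c * (H : ℝ) ^ ε := by
  have hK0 : (0 : ℝ) < K := by exact_mod_cast hK
  have hδ : 0 < ε / K := by positivity
  refine ⟨(5 + 4 * (3 ^ (ε / K) / (ε / K))) ^ K, by positivity, fun H hH => ?_⟩
  have hH1 : (1 : ℝ) ≤ H := by exact_mod_cast hH
  have h1 : 1 ≤ (H : ℝ) ^ (ε / K) := Real.one_le_rpow hH1 hδ.le
  have h2 : Real.log (2 * H + 1) ≤ 3 ^ (ε / K) / (ε / K) * (H : ℝ) ^ (ε / K) := by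
    refine (Real.log_le_rpow_div (by positivity) hδ).trans ?_
    rw [div_mul_eq_mul_div _ (ε / K), ← Real.mul_rpow (by norm_num) (by positivity)]
    gcongr
    linarith
  have h3 : 0 ≤ Real.log (2 * H + 1) := Real.log_nonneg (by linarith)
  have h4 : (H : ℝ) ^ ε = ((H : ℝ) ^ (ε / K)) ^ K := by
    rw [← Real.rpow_mul_natCast (by positivity), div_mul_cancel₀ _ hK0.ne']
  rw [h4, ← mul_pow]
  refine pow_le_pow_left₀ (by positivity) ?_ K
  nlinarith

open Classical in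
theorem mv {e : ℕ} (he : 1 ≤ e) {ε : ℝ} (hε : 0 < ε) : ∃ A : ℝ, 0 < A ∧
    ∀ (q H : ℕ) [NeZero q], 1 ≤ H → 2 * tri e * H ^ e < q →
      ∀ (τ : Type) (T : Finset τ) (γ : τ → Fin e → ZMod q) (lo hi : τ → ℤ),
        (∀ t ∈ T, -(H : ℤ) ≤ lo t ∧ hi t ≤ H) →
        (∑ t ∈ T, ‖∑ h ∈ Icc (lo t) (hi t),
            ch (∑ i, γ t i * (h : ZMod q) ^ ((i : ℕ) + 1))‖) ^ (2 * tri e) ≤
          A * (H : ℝ) ^ ε * (H : ℝ) ^ (2 * tri e) * (#T : ℝ) ^ (2 * tri e - 2) *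
            #{z ∈ T ×ˢ T | Close H (γ z.1) (γ z.2)} := by
  have hK : 1 ≤ tri e := tri_pos he
  have hK0 : (0 : ℝ) < tri e := by exact_mod_cast hK
  obtain ⟨A, hA, h1⟩ := vmvt he (half_pos hε)
  obtain ⟨c, hc, h2⟩ := mv_log (K := 2 * tri e) (by omega) (half_pos hε)
  refine ⟨c * (24 * tri e : ℝ) ^ e * A, by positivity, fun q H _ hH hq τ T γ lo hi hT => ?_⟩
  have hH0 : (0 : ℝ) < H := by exact_mod_cast hH
  obtain ⟨W, w0, w1, w2⟩ := complete_sum H
  obtain ⟨F, hF⟩ : ∃ F : ZMod (2 * H + 1) → ℝ, ∀ r, F r = ∑ t ∈ T, ‖∑ h ∈ Icc (-(H : ℤ)) H,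
      ch (r * (h : ZMod (2 * H + 1))) * ch (∑ i, γ t i * (h : ZMod q) ^ ((i : ℕ) + 1))‖ :=
    ⟨_, fun _ => rfl⟩
  obtain ⟨r0, -, hr0⟩ := exists_max_image univ F univ_nonempty
  have hF0 : 0 ≤ F r0 := by rw [hF]; positivity
  have h3 : ∑ t ∈ T, ‖∑ h ∈ Icc (lo t) (hi t), ch (∑ i, γ t i * (h : ZMod q) ^ ((i : ℕ) + 1))‖ ≤
      (5 + 4 * Real.log (2 * H + 1)) * F r0 := by
    refine (sum_le_sum fun t ht => w2 _ _ _ (hT t ht).1 (hT t ht).2).trans ?_
    rw [sum_comm]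
    refine le_trans (sum_le_sum fun r _ => ?_) ((sum_mul univ W (F r0)).symm.le.trans
      (mul_le_mul_of_nonneg_right w1 hF0))
    rw [← mul_sum, ← hF]
    exact mul_le_mul_of_nonneg_left (hr0 r (mem_univ _)) (w0 r)
  have h4 := mv0 he hH hq T γ (fun h => ch (r0 * (h : ZMod (2 * H + 1)))) fun h => (norm_ch _).le
  rw [← hF] at h4
  refine (pow_le_pow_left₀ (by positivity) h3 _).trans ?_
  rw [mul_pow]
  refine (mul_le_mul (h2 H hH) h4 (by positivity) (by positivity)).trans ?_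
  have h5 : (H : ℝ) ^ ε = (H : ℝ) ^ (ε / 2) * (H : ℝ) ^ (ε / 2) := by
    rw [← Real.rpow_add hH0, add_halves]
  have h6 := h1 H hH
  calc _ ≤ c * (H : ℝ) ^ (ε / 2) * ((24 * tri e : ℝ) ^ e * (H : ℝ) ^ tri e *
        (A * (H : ℝ) ^ (ε / 2) * (H : ℝ) ^ tri e) * (#T : ℝ) ^ (2 * tri e - 2) *
        #{z ∈ T ×ˢ T | Close H (γ z.1) (γ z.2)}) := by gcongr
    _ = _ := by
      rw [h5, two_mul (tri e), pow_add]
      ring

end Pool.Agent.MP_927be3_nt.W

end PartMv
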