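import Pool.Agent.MP_927be3_nt.Up.B

/-! The dilation argument on the minor arcs. -/

section PartStep

open Finset Polynomial

namespace Pool.Agent.MP_927be3_nt.W

theorem fc_one (k P : ℕ) {q : ℕ} [NeZero q] (a : ZMod q) : fc k P 1 a = fw k P a := by
  simp [fc, fw]

theorem fw_le_fc (k P : ℕ) {q m : ℕ} [NeZero q] (hm : m.Prime) (a : ZMod q) :
    ‖fw k P a‖ ≤ ‖fc k P m a‖ + ((P : ℝ) / m + 1) := by
  have h1 : fw k P a = fc k P m a +
      ∑ x ∈ (range (P + 1)).filter (fun x => ¬ Nat.Coprime x m), ch (a * (x : ZMod q) ^ k) := by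
    rw [fw, fc, sum_filter_add_sum_filter_not]
  have h2 : #((range (P + 1)).filter (fun x => ¬ Nat.Coprime x m)) ≤ P / m + 1 := by
    rw [← card_range (P / m + 1)]
    refine card_le_card_of_injOn (fun x => x / m) ?_ ?_
    · intro x hx
      simp only [coe_filter, mem_range, Set.mem_ofPred_eq] at hx
      simp only [coe_range, Set.mem_Iio]
      exact Nat.lt_succ_of_le (Nat.div_le_div_right (Nat.lt_succ_iff.mp hx.1))
    · intro x hx y hy hxy
      simp only [coe_filter, mem_range, Set.mem_ofPred_eq] at hx hy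
      have hx' : m ∣ x := by
        by_contra h
        exact hx.2 ((hm.coprime_iff_not_dvd.mpr h).symm)
      have hy' : m ∣ y := by
        by_contra h
        exact hy.2 ((hm.coprime_iff_not_dvd.mpr h).symm)
      have e1 := Nat.mul_div_cancel' hx'
      have e2 := Nat.mul_div_cancel' hy'
      simp only at hxy
      rw [← e1, ← e2, hxy]
  have h3 : ‖∑ x ∈ (range (P + 1)).filter (fun x => ¬ Nat.Coprime x m),
      ch (a * (x : ZMod q) ^ k)‖ ≤ (P : ℝ) / m + 1 := by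
    refine (norm_sum_le _ _).trans ?_
    simp only [norm_ch, sum_const, nsmul_eq_mul, mul_one]
    calc (#((range (P + 1)).filter (fun x => ¬ Nat.Coprime x m)) : ℝ)
        ≤ ((P / m + 1 : ℕ) : ℝ) := by exact_mod_cast h2
      _ ≤ (P : ℝ) / m + 1 := by
          push_cast
          gcongr
          exact Nat.cast_div_le
  rw [h1]
  exact (norm_add_le _ _).trans (by gcongr)

theorem step_poly (k : ℕ) {q : ℕ} (a : ZMod q) (m x : ℕ) (h : ZMod q) :
    a * ((x : ZMod q) + m * h) ^ k =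
      a * (x : ZMod q) ^ k + ∑ i, gam k a m x i * h ^ ((i : ℕ) + 1) := by
  rw [add_comm (x : ZMod q), add_pow, sum_range_succ', mul_add, mul_sum, add_comm]
  congr 1
  · simp
  · rw [← Fin.sum_univ_eq_sum_range
      (fun i => a * (((m : ZMod q) * h) ^ (i + 1) * (x : ZMod q) ^ (k - (i + 1)) *
        (k.choose (i + 1) : ZMod q))) k]
    refine sum_congr rfl fun i _ => ?_
    simp only [gam]
    ring

theorem step_inner {k P m q x : ℕ} [NeZero q] (hm : 1 ≤ m) (hx : x ≤ P) (a : ZMod q) :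
    ‖∑ h ∈ Icc (-((x / m : ℕ) : ℤ)) (((P - x) / m : ℕ) : ℤ),
        ch (∑ i, gam k a m x i * (h : ZMod q) ^ ((i : ℕ) + 1))‖ =
      ‖∑ y ∈ (range (P + 1)).filter (fun y => y % m = x % m), ch (a * (y : ZMod q) ^ k)‖ := by
  have hm0 : (0 : ℤ) < m := by exact_mod_cast hm
  have e1 : (m : ℤ) * ((x / m : ℕ) : ℤ) + ((x % m : ℕ) : ℤ) = x := by
    exact_mod_cast Nat.div_add_mod x m
  have e2 : (m : ℤ) * (((P - x) / m : ℕ) : ℤ) + (((P - x) % m : ℕ) : ℤ) = (P : ℤ) - x := by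
    rw [← Nat.cast_sub hx]
    exact_mod_cast Nat.div_add_mod (P - x) m
  have e3 : ((x % m : ℕ) : ℤ) < m := by exact_mod_cast Nat.mod_lt x hm
  have e4 : (((P - x) % m : ℕ) : ℤ) < m := by exact_mod_cast Nat.mod_lt (P - x) hm
  have e5 : (0 : ℤ) ≤ ((x % m : ℕ) : ℤ) := Nat.cast_nonneg _
  have e6 : (0 : ℤ) ≤ (((P - x) % m : ℕ) : ℤ) := Nat.cast_nonneg _
  have key : ∑ y ∈ (range (P + 1)).filter (fun y => y % m = x % m), ch (a * (y : ZMod q) ^ k) =
      ch (a * (x : ZMod q) ^ k) * ∑ h ∈ Icc (-((x / m : ℕ) : ℤ)) (((P - x) / m : ℕ) : ℤ),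
        ch (∑ i, gam k a m x i * (h : ZMod q) ^ ((i : ℕ) + 1)) := by
    rw [mul_sum]
    symm
    have hpos : ∀ h ∈ Icc (-((x / m : ℕ) : ℤ)) (((P - x) / m : ℕ) : ℤ),
        0 ≤ (x : ℤ) + m * h ∧ (x : ℤ) + m * h ≤ P := by
      intro h hh
      rw [mem_Icc] at hh
      have a1 := mul_le_mul_of_nonneg_left hh.1 hm0.le
      have a2 := mul_le_mul_of_nonneg_left hh.2 hm0.le
      constructor <;> nlinarith
    refine sum_bij (fun h _ => ((x : ℤ) + m * h).toNat) ?_ ?_ ?_ ?_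
    · intro h hh
      obtain ⟨p1, p2⟩ := hpos h hh
      rw [mem_filter, mem_range]
      refine ⟨by omega, ?_⟩
      have : (((((x : ℤ) + m * h).toNat % m : ℕ)) : ℤ) = ((x % m : ℕ) : ℤ) := by
        push_cast
        rw [Int.toNat_of_nonneg p1, Int.add_mul_emod_self_left]
      exact_mod_cast this
    · intro h hh h' hh' he
      obtain ⟨p1, -⟩ := hpos h hh
      obtain ⟨p1', -⟩ := hpos h' hh'
      have : (x : ℤ) + m * h = (x : ℤ) + m * h' := by
        rw [← Int.toNat_of_nonneg p1, ← Int.toNat_of_nonneg p1']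
        exact congrArg _ he
      exact mul_left_cancel₀ hm0.ne' (add_left_cancel this)
    · intro y hy
      rw [mem_filter, mem_range] at hy
      have f1 : (m : ℤ) * ((y / m : ℕ) : ℤ) + ((y % m : ℕ) : ℤ) = y := by
        exact_mod_cast Nat.div_add_mod y m
      have f2 : ((y % m : ℕ) : ℤ) = ((x % m : ℕ) : ℤ) := by rw [hy.2]
      have f3 : (y : ℤ) ≤ P := by exact_mod_cast Nat.lt_succ_iff.mp hy.1
      have f4 : (0 : ℤ) ≤ ((y / m : ℕ) : ℤ) := Nat.cast_nonneg _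
      have f5 : (x : ℤ) + m * (((y / m : ℕ) : ℤ) - ((x / m : ℕ) : ℤ)) = y := by
        rw [mul_sub]
        linarith
      refine ⟨((y / m : ℕ) : ℤ) - ((x / m : ℕ) : ℤ), ?_, ?_⟩
      · rw [mem_Icc]
        refine ⟨by linarith, ?_⟩
        by_contra hc
        have hc' : (((P - x) / m : ℕ) : ℤ) + 1 ≤ ((y / m : ℕ) : ℤ) - ((x / m : ℕ) : ℤ) := by
          omega
        have a1 := mul_le_mul_of_nonneg_left hc' hm0.le
        nlinarith
      · simp only [f5, Int.toNat_natCast]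
    · intro h hh
      obtain ⟨p1, -⟩ := hpos h hh
      have : ((((x : ℤ) + m * h).toNat : ℕ) : ZMod q) = (x : ZMod q) + m * (h : ZMod q) := by
        have h0 : ((((x : ℤ) + m * h).toNat : ℕ) : ZMod q) =
            ((((x : ℤ) + m * h).toNat : ℤ) : ZMod q) := (Int.cast_natCast _).symm
        rw [h0, Int.toNat_of_nonneg p1]
        push_cast
        ring
      rw [this, step_poly, ch_add]
  rw [key, norm_mul, norm_ch, one_mul]

theorem step_count {P m c : ℕ} (hm : 1 ≤ m) (hmP : m ≤ P + 1) (hc : c < m) :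
    ((P : ℝ) + 1) / (2 * m) ≤ #((range (P + 1)).filter (fun y => y % m = c)) := by
  have h1 : (P + 1) / m ≤ #((range (P + 1)).filter (fun y => y % m = c)) := by
    conv_lhs => rw [← card_range ((P + 1) / m)]
    refine card_le_card_of_injOn (fun j => c + m * j) ?_ ?_
    · intro j hj
      simp only [coe_range, Set.mem_Iio] at hj
      simp only [coe_filter, mem_range, Set.mem_ofPred_eq]
      refine ⟨?_, by rw [Nat.add_mul_mod_self_left, Nat.mod_eq_of_lt hc]⟩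
      have a1 : m * (j + 1) ≤ m * ((P + 1) / m) := Nat.mul_le_mul_left _ hj
      have a2 : m * ((P + 1) / m) ≤ P + 1 := Nat.mul_div_le _ _
      nlinarith
    · intro j _ j' _ he
      simp only at he
      exact Nat.eq_of_mul_eq_mul_left hm (Nat.add_left_cancel he)
  have h2 : P + 1 ≤ 2 * m * ((P + 1) / m) := by
    have a1 := Nat.div_add_mod (P + 1) m
    have a2 := Nat.mod_lt (P + 1) hm
    have a3 : 1 ≤ (P + 1) / m := Nat.div_pos hmP hm
    have a4 : m * 1 ≤ m * ((P + 1) / m) := Nat.mul_le_mul_left _ a3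
    nlinarith
  have hm0 : (0 : ℝ) < m := by exact_mod_cast hm
  rw [div_le_iff₀ (by positivity)]
  have h3 : P + 1 ≤ #((range (P + 1)).filter (fun y => y % m = c)) * (2 * m) := by
    calc P + 1 ≤ 2 * m * ((P + 1) / m) := h2
      _ ≤ 2 * m * #((range (P + 1)).filter (fun y => y % m = c)) := Nat.mul_le_mul_left _ h1
      _ = _ := by ring
  exact_mod_cast h3

theorem step_cop {x m : ℕ} : Nat.Coprime (x % m) m ↔ Nat.Coprime x m := by
  simp only [Nat.Coprime]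
  rw [(Nat.mod_modEq x m).gcd_eq]

theorem step_fib {P m : ℕ} (hm : 1 ≤ m) {R : Type} [AddCommMonoid R] (f : ℕ → R) :
    ∑ x ∈ (range (P + 1)).filter (fun x => Nat.Coprime x m), f x =
      ∑ c ∈ (range m).filter (fun c => Nat.Coprime c m),
        ∑ y ∈ (range (P + 1)).filter (fun y => y % m = c), f y := by
  rw [← sum_fiberwise_of_maps_to (s := (range (P + 1)).filter (fun x => Nat.Coprime x m))
    (t := (range m).filter (fun c => Nat.Coprime c m)) (g := fun x => x % m)]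
  · refine sum_congr rfl fun c hc => sum_congr ?_ fun _ _ => rfl
    rw [mem_filter] at hc
    ext y
    simp only [mem_filter]
    constructor
    · rintro ⟨⟨h1, -⟩, h2⟩
      exact ⟨h1, h2⟩
    · rintro ⟨h1, h2⟩
      exact ⟨⟨h1, step_cop.mp (h2 ▸ hc.2)⟩, h2⟩
  · intro x hx
    rw [mem_filter] at hx ⊢
    exact ⟨mem_range.mpr (Nat.mod_lt x hm), step_cop.mpr hx.2⟩

theorem step1 {k P m q : ℕ} [NeZero q] (hm : 1 ≤ m) (hmP : m ≤ P + 1) (a : ZMod q) :
    ((P : ℝ) + 1) / (2 * m) * ‖fc k P m a‖ ≤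
      ∑ x ∈ (range (P + 1)).filter (fun x => Nat.Coprime x m),
        ‖∑ h ∈ Icc (-((x / m : ℕ) : ℤ)) (((P - x) / m : ℕ) : ℤ),
          ch (∑ i, gam k a m x i * (h : ZMod q) ^ ((i : ℕ) + 1))‖ := by
  rw [sum_congr rfl fun x hx =>
    step_inner hm (Nat.lt_succ_iff.mp (mem_range.mp (mem_filter.mp hx).1)) a]
  rw [step_fib hm, fc, step_fib hm]
  refine (mul_le_mul_of_nonneg_left (norm_sum_le _ _) (by positivity)).trans ?_
  rw [mul_sum]
  refine sum_le_sum fun c hc => ?_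
  rw [mem_filter, mem_range] at hc
  rw [sum_congr rfl (g := fun _ => ‖∑ y ∈ (range (P + 1)).filter (fun y => y % m = c),
    ch (a * (y : ZMod q) ^ k)‖) fun y hy => by rw [(mem_filter.mp hy).2]]
  rw [sum_const, nsmul_eq_mul]
  exact mul_le_mul_of_nonneg_right (step_count hm hmP hc.1) (norm_nonneg _)

theorem step_tr {q P : ℕ} (S : Finset (ZMod q)) (Ms : Finset ℕ) (f : ZMod q × ℕ × ℕ → ℝ) :
    ∑ t ∈ Tr P S Ms, f t = ∑ a ∈ S, ∑ m ∈ Ms,
      ∑ x ∈ (range (P + 1)).filter (fun x => Nat.Coprime x m), f (a, m, x) := by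
  rw [Tr, sum_filter, sum_product]
  refine sum_congr rfl fun a _ => ?_
  rw [sum_product]
  refine sum_congr rfl fun m _ => ?_
  rw [sum_filter]

theorem step_q {k P H q : ℕ} [NeZero q] (hk : 1 ≤ k) (hH : H ≤ P) (hq : Good k P q) :
    2 * tri k * H ^ k < q := by
  refine lt_of_lt_of_le ?_ (hq.le hk)
  rw [two_mul_tri, mul_pow]
  have h1 : k * (k + 1) < (8 * k) ^ (2 * k) := by
    calc k * (k + 1) < (8 * k) ^ 2 := by nlinarith
      _ ≤ (8 * k) ^ (2 * k) := Nat.pow_le_pow_right (by omega) (by omega)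
  have h2 : H ^ k ≤ (P + 1) ^ (2 * k) := by
    calc H ^ k ≤ (P + 1) ^ k := Nat.pow_le_pow_left (by omega) _
      _ ≤ (P + 1) ^ (2 * k) := Nat.pow_le_pow_right (by omega) (by omega)
  calc k * (k + 1) * H ^ k ≤ k * (k + 1) * (P + 1) ^ (2 * k) := Nat.mul_le_mul_left _ h2
    _ < (8 * k) ^ (2 * k) * (P + 1) ^ (2 * k) := Nat.mul_lt_mul_of_pos_right h1 (by positivity)

theorem step2 {k : ℕ} (hk : 1 ≤ k) {ε : ℝ} (hε : 0 < ε) : ∃ A : ℝ, 0 < A ∧
    ∀ (P M q : ℕ) [NeZero q], 1 ≤ M → 4 * M ≤ P → Good k P q →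
      ∀ (S : Finset (ZMod q)) (Ms : Finset ℕ) (V : ℝ), 0 ≤ V →
        (∀ m ∈ Ms, M ≤ m ∧ m ≤ 4 * M) → (∀ a ∈ S, ∀ m ∈ Ms, V ≤ ‖fc k P m a‖) →
        ((#S : ℝ) * #Ms * P) ^ 2 * (V / P) ^ (2 * tri k) ≤
          A * (P : ℝ) ^ ε * Bc k P (P / M) S Ms := by
  obtain ⟨A, hA, hmv⟩ := mv hk hε
  refine ⟨8 ^ (2 * tri k) * A, by positivity, ?_⟩
  intro P M q _ hM hMP hq S Ms V hV hMs hS
  have hH : 1 ≤ P / M := Nat.div_pos (by omega) hM
  have hHP : P / M ≤ P := Nat.div_le_self _ _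
  have hMH : M * (P / M) ≤ P := Nat.mul_div_le _ _
  have hK : 1 ≤ tri k := tri_pos hk
  have h1 := hmv q (P / M) hH (step_q hk hHP hq) (ZMod q × ℕ × ℕ) (Tr P S Ms)
    (fun t => gam k t.1 t.2.1 t.2.2) (fun t => -((t.2.2 / t.2.1 : ℕ) : ℤ))
    (fun t => (((P - t.2.2) / t.2.1 : ℕ) : ℤ)) (by
      intro t ht
      simp only [Tr, mem_filter, mem_product, mem_range] at ht
      obtain ⟨⟨-, hm, hx⟩, -⟩ := ht
      have a1 : t.2.2 / t.2.1 ≤ P / M := Nat.div_le_div (by omega) (hMs _ hm).1 (by omega)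
      have a2 : (P - t.2.2) / t.2.1 ≤ P / M := Nat.div_le_div (by omega) (hMs _ hm).1 (by omega)
      exact ⟨neg_le_neg (by exact_mod_cast a1), by exact_mod_cast a2⟩)
  replace h1 : _ ≤ A * ((P / M : ℕ) : ℝ) ^ ε * ((P / M : ℕ) : ℝ) ^ (2 * tri k) *
      (#(Tr P S Ms) : ℝ) ^ (2 * tri k - 2) * Bc k P (P / M) S Ms := h1
  rw [step_tr] at h1
  set X : ℝ := (#S : ℝ) * #Ms * ((P : ℝ) + 1) with hX
  have hM0 : (0 : ℝ) < M := by exact_mod_cast hM
  have hP0 : (0 : ℝ) < P := by exact_mod_cast (show 0 < P by omega)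
  have hH0 : (0 : ℝ) < ((P / M : ℕ) : ℝ) := by exact_mod_cast hH
  have hT : (#(Tr P S Ms) : ℝ) ≤ X := by
    have : #(Tr P S Ms) ≤ #S * #Ms * (P + 1) := by
      refine (card_filter_le _ _).trans ?_
      rw [card_product, card_product, card_range, mul_assoc]
    rw [hX]
    exact_mod_cast this
  have h2 : X * (V / (8 * M)) ≤ ∑ a ∈ S, ∑ m ∈ Ms,
      ∑ x ∈ (range (P + 1)).filter (fun x => Nat.Coprime x m),
        ‖∑ h ∈ Icc (-((x / m : ℕ) : ℤ)) (((P - x) / m : ℕ) : ℤ),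
          ch (∑ i, gam k a m x i * (h : ZMod q) ^ ((i : ℕ) + 1))‖ := by
    have : X * (V / (8 * M)) = ∑ _a ∈ S, ∑ _m ∈ Ms, ((P : ℝ) + 1) / (8 * M) * V := by
      simp only [sum_const, nsmul_eq_mul, hX]
      ring
    rw [this]
    refine sum_le_sum fun a ha => sum_le_sum fun m hm => ?_
    obtain ⟨b1, b2⟩ := hMs m hm
    refine le_trans ?_ (step1 (by omega) (by omega) a)
    have b3 : (0 : ℝ) < m := by exact_mod_cast (show 0 < m by omega)
    have b4 : (m : ℝ) ≤ 4 * M := by exact_mod_cast b2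
    refine mul_le_mul ?_ (hS a ha m hm) hV (by positivity)
    exact div_le_div_of_nonneg_left (by positivity) (by positivity) (by linarith)
  have hX0 : 0 ≤ X := by positivity
  have h3 : (X * (V / (8 * M))) ^ (2 * tri k) ≤ A * ((P / M : ℕ) : ℝ) ^ ε *
      ((P / M : ℕ) : ℝ) ^ (2 * tri k) * X ^ (2 * tri k - 2) * Bc k P (P / M) S Ms := by
    refine (pow_le_pow_left₀ (by positivity) h2 _).trans (h1.trans ?_)
    gcongr
  have hY : ((#S : ℝ) * #Ms * P) ^ 2 ≤ X ^ 2 := by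
    rw [hX]
    gcongr
    linarith
  rcases hX0.eq_or_lt with h0 | h0
  · rw [← h0] at hY
    have : ((#S : ℝ) * #Ms * P) ^ 2 = 0 := le_antisymm (by simpa using hY) (by positivity)
    rw [this, zero_mul]
    positivity
  · have hXp : X ^ (2 * tri k) = X ^ (2 * tri k - 2) * X ^ 2 := by
      rw [← pow_add]
      congr 1
      omega
    have h4 : X ^ 2 * (V / (8 * M)) ^ (2 * tri k) ≤ A * ((P / M : ℕ) : ℝ) ^ ε *
        ((P / M : ℕ) : ℝ) ^ (2 * tri k) * Bc k P (P / M) S Ms := by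
      refine le_of_mul_le_mul_left ?_ (pow_pos h0 (2 * tri k - 2))
      rw [mul_pow, hXp] at h3
      calc _ = X ^ (2 * tri k - 2) * X ^ 2 * (V / (8 * M)) ^ (2 * tri k) := by ring
        _ ≤ _ := h3
        _ = _ := by ring
    have h5 : V / P * ((P / M : ℕ) : ℝ) ≤ 8 * (V / (8 * M)) := by
      have a1 : (M : ℝ) * ((P / M : ℕ) : ℝ) ≤ P := by exact_mod_cast hMH
      have a2 : 8 * (V / (8 * M)) = V / M := by field_simp
      rw [a2, div_mul_eq_mul_div, div_le_div_iff₀ hP0 hM0, mul_assoc]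
      exact mul_le_mul_of_nonneg_left (by linarith) hV
    have h6 : (V / P) ^ (2 * tri k) * ((P / M : ℕ) : ℝ) ^ (2 * tri k) ≤
        8 ^ (2 * tri k) * (V / (8 * M)) ^ (2 * tri k) := by
      rw [← mul_pow, ← mul_pow]
      exact pow_le_pow_left₀ (by positivity) h5 _
    have h7 : ((P / M : ℕ) : ℝ) ^ ε ≤ (P : ℝ) ^ ε :=
      Real.rpow_le_rpow hH0.le (by exact_mod_cast hHP) hε.le
    refine le_of_mul_le_mul_right ?_ (pow_pos hH0 (2 * tri k))
    calc ((#S : ℝ) * #Ms * P) ^ 2 * (V / P) ^ (2 * tri k) * ((P / M : ℕ) : ℝ) ^ (2 * tri k)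
        = ((#S : ℝ) * #Ms * P) ^ 2 * ((V / P) ^ (2 * tri k) * ((P / M : ℕ) : ℝ) ^ (2 * tri k)) := by
          ring
      _ ≤ X ^ 2 * (8 ^ (2 * tri k) * (V / (8 * M)) ^ (2 * tri k)) := by gcongr
      _ = 8 ^ (2 * tri k) * (X ^ 2 * (V / (8 * M)) ^ (2 * tri k)) := by ring
      _ ≤ 8 ^ (2 * tri k) * (A * (P : ℝ) ^ ε *
            ((P / M : ℕ) : ℝ) ^ (2 * tri k) * Bc k P (P / M) S Ms) := by
          refine mul_le_mul_of_nonneg_left (h4.trans ?_) (by positivity)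
          gcongr
      _ = _ := by ring

end Pool.Agent.MP_927be3_nt.W

end PartStep

section PartGeom

open Finset Polynomial

namespace Pool.Agent.MP_927be3_nt.W

theorem geom_chain {m x : ℤ} (f : ℕ → ℤ) (L : ℕ) (h : ∀ l < L, m * f (l + 1) = x * f l) :
    m ^ L * f L = x ^ L * f 0 := by
  induction L with
  | zero => simp
  | succ n ih =>
    have h1 := ih fun l hl => h l (by omega)
    have h2 := h n (by omega)
    calc m ^ (n + 1) * f (n + 1) = m ^ n * (m * f (n + 1)) := by ring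
      _ = x * (m ^ n * f n) := by rw [h2]; ring
      _ = x ^ (n + 1) * f 0 := by rw [h1]; ring

theorem geom {q : ℕ} [NeZero q] (z : ZMod q) {m x : ℕ} (L : ℕ) (hm : 1 ≤ m)
    (hc : Nat.Coprime x m) (E : ℕ → ℝ)
    (hS : ∀ l ≤ L, Small (z * (m : ZMod q) ^ (L - l) * (x : ZMod q) ^ l) (E l))
    (hE : ∀ l < L, x * E l + m * E (l + 1) < q) : Small z (E 0 / (m : ℝ) ^ L) := by
  obtain ⟨z0, rfl⟩ := ZMod.intCast_surjective z
  choose! η hη1 hη2 using hS
  have hq : (q : ℤ) ≠ 0 := by exact_mod_cast NeZero.ne q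
  have hW : ∀ l ≤ L, ∃ w : ℤ, z0 * (m : ℤ) ^ (L - l) * (x : ℤ) ^ l - η l = q * w := by
    intro l hl
    apply (ZMod.intCast_zmod_eq_zero_iff_dvd _ q).1
    push_cast
    rw [hη2 l hl, sub_self]
  choose! W hW using hW
  have hZ : ∀ l < L, (m : ℤ) * (z0 * (m : ℤ) ^ (L - (l + 1)) * (x : ℤ) ^ (l + 1)) =
      x * (z0 * (m : ℤ) ^ (L - l) * (x : ℤ) ^ l) := by
    intro l hl
    rw [show L - l = L - (l + 1) + 1 by omega]
    ring
  have step : ∀ l < L, (m : ℤ) * η (l + 1) = x * η l := by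
    intro l hl
    have hdvd : (q : ℤ) ∣ m * η (l + 1) - x * η l := by
      refine ⟨x * W l - m * W (l + 1), ?_⟩
      have h1 := hW l hl.le
      have h2 := hW (l + 1) hl
      have h3 := hZ l hl
      linear_combination h3 + x * h1 - m * h2
    have hlt : |(m : ℤ) * η (l + 1) - x * η l| < q := by
      have h1 := hη1 l hl.le
      have h2 := hη1 (l + 1) hl
      have h3 := hE l hl
      have h4 : |(m : ℝ) * η (l + 1) - x * η l| < q := by
        refine lt_of_le_of_lt (abs_sub _ _) (lt_of_le_of_lt ?_ h3)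
        rw [abs_mul, abs_mul, Nat.abs_cast, Nat.abs_cast, add_comm]
        gcongr
      exact_mod_cast h4
    have := Int.eq_zero_of_abs_lt_dvd hdvd hlt
    linarith
  have stepW : ∀ l < L, (m : ℤ) * W (l + 1) = x * W l := by
    intro l hl
    apply mul_left_cancel₀ hq
    have h1 := hW l hl.le
    have h2 := hW (l + 1) hl
    have h3 := hZ l hl
    have h4 := step l hl
    linear_combination h3 + x * h1 - m * h2 - h4
  have hco : IsCoprime ((m : ℤ) ^ L) ((x : ℤ) ^ L) :=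
    (Nat.isCoprime_iff_coprime.2 hc.symm).pow
  obtain ⟨e, he⟩ : (m : ℤ) ^ L ∣ η 0 :=
    hco.dvd_of_dvd_mul_left ⟨η L, (geom_chain η L step).symm⟩
  obtain ⟨w, hw⟩ : (m : ℤ) ^ L ∣ W 0 :=
    hco.dvd_of_dvd_mul_left ⟨W L, (geom_chain W L stepW).symm⟩
  have hm0 : (0 : ℝ) < (m : ℝ) ^ L := by positivity
  have hmz : (m : ℤ) ^ L ≠ 0 := by positivity
  refine ⟨e, ?_, ?_⟩
  · rw [le_div_iff₀ hm0]
    have h1 := hη1 0 (Nat.zero_le _)
    rw [he] at h1
    push_cast at h1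
    rwa [abs_mul, abs_of_pos hm0, mul_comm] at h1
  · have h1 := hW 0 (Nat.zero_le _)
    rw [he, hw] at h1
    have h2 : z0 = e + q * w := by
      apply mul_left_cancel₀ hmz
      simp only [Nat.sub_zero, pow_zero, mul_one] at h1
      linear_combination h1
    rw [h2]
    simp

theorem close_fac {k q H : ℕ} {a a' : ZMod q} {m x m' x' : ℕ}
    (h : Close H (gam k a m x) (gam k a' m' x')) {l : ℕ} (hl : l < k) :
    Small ((k.factorial : ZMod q) * (a * (m : ZMod q) ^ (k - l) * (x : ZMod q) ^ l -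
      a' * (m' : ZMod q) ^ (k - l) * (x' : ZMod q) ^ l))
      (k.factorial * q / (H : ℝ) ^ (k - l)) := by
  have h1 := (h ⟨k - l - 1, by omega⟩).mul (((k - l).factorial * l.factorial : ℕ) : ℤ)
  have e1 : k - l - 1 + 1 = k - l := by omega
  have e2 : k - (k - l) = l := by omega
  have h2 : k.choose (k - l) * (k - l).factorial * l.factorial = k.factorial := by
    have := Nat.choose_mul_factorial_mul_factorial (Nat.sub_le k l)
    rwa [e2] at this
  have h3 : (k - l).factorial * l.factorial ≤ k.factorial := by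
    rw [← h2, mul_assoc]
    exact Nat.le_mul_of_pos_left _ (Nat.choose_pos (Nat.sub_le k l))
  simp only [gam, e1, e2] at h1
  have h4 : (k.factorial : ZMod q) =
      (k.choose (k - l) : ZMod q) * ((k - l).factorial : ZMod q) * (l.factorial : ZMod q) := by
    rw [← h2]
    push_cast
    ring
  convert h1.mono (D' := k.factorial * q / (H : ℝ) ^ (k - l)) ?_ using 1
  · rw [h4]
    push_cast
    ring
  · rw [Int.cast_natCast, Nat.abs_cast, mul_div_assoc]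
    have h5 : (((k - l).factorial * l.factorial : ℕ) : ℝ) ≤ k.factorial := by exact_mod_cast h3
    gcongr

theorem geom_H {P M : ℕ} (hM : 1 ≤ M) (hMP : M ≤ P) :
    (1 : ℝ) ≤ (P / M : ℕ) ∧ (P : ℝ) ≤ 2 * (P / M : ℕ) * M := by
  have h1 : 1 ≤ P / M := (Nat.le_div_iff_mul_le hM).2 (by omega)
  have h2 := Nat.lt_mul_div_succ P hM
  have h3 : P ≤ 2 * (P / M) * M := by nlinarith
  exact ⟨by exact_mod_cast h1, by exact_mod_cast h3⟩

theorem geom_six {H M c x m : ℝ} (hH : 1 ≤ H) (hc : 0 ≤ c) (hx : x ≤ 2 * H * M)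
    (hm : m ≤ 4 * M) (n : ℕ) :
    x * (c / H ^ (n + 1)) + m * (c / H ^ n) ≤ 6 * M * c / H ^ n := by
  have hH0 : 0 < H := by linarith
  have h1 : x * (c / H ^ (n + 1)) ≤ 2 * H * M * (c / H ^ (n + 1)) := by gcongr
  have h2 : m * (c / H ^ n) ≤ 4 * M * (c / H ^ n) := by gcongr
  have h3 : 2 * H * M * (c / H ^ (n + 1)) + 4 * M * (c / H ^ n) = 6 * M * c / H ^ n := by
    field_simp
    ring
  linarith

theorem close_diag {k b P M m x q : ℕ} [NeZero q] (hb : 1 ≤ b) (hbk : b ≤ k) (hM : 1 ≤ M)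
    (hMP : M ≤ P) (hm : M ≤ m) (hm4 : m ≤ 4 * M) (hx : x ≤ P) (hc : Nat.Coprime x m)
    (hH : 6 * k.factorial * M < (P / M) ^ b) {a a' : ZMod q}
    (h : Close (P / M) (gam k a m x) (gam k a' m x)) :
    Small (((k.factorial * m ^ b : ℕ) : ZMod q) * (a - a'))
      ((k.factorial * m ^ b : ℕ) * (2 ^ k * q / (P : ℝ) ^ k)) := by
  obtain ⟨hH1, hP⟩ := geom_H hM hMP
  have hHb : (6 * k.factorial * M : ℝ) < ((P / M : ℕ) : ℝ) ^ b := by exact_mod_cast hH
  generalize P / M = H at *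
  have hq : (0 : ℝ) < q := by exact_mod_cast NeZero.pos q
  have hxr : (x : ℝ) ≤ 2 * H * M := le_trans (by exact_mod_cast hx) hP
  have hmr : (m : ℝ) ≤ 4 * M := by exact_mod_cast hm4
  have hMm : (M : ℝ) ≤ m := by exact_mod_cast hm
  have hM1 : (1 : ℝ) ≤ M := by exact_mod_cast hM
  have hP0 : (0 : ℝ) < P := by exact_mod_cast (by omega : 0 < P)
  have hH0 : (0 : ℝ) < H := by linarith
  have hm0 : (0 : ℝ) < m := by linarith
  have key := geom (((k.factorial * m ^ b : ℕ) : ZMod q) * (a - a')) (k - b) (hM.trans hm) hc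
    (fun l => k.factorial * q / (H : ℝ) ^ (k - l)) (fun l hl => by
      convert close_fac h (l := l) (by omega) using 1
      rw [show k - l = b + (k - b - l) by omega]
      push_cast
      ring) (fun l hl => by
      obtain ⟨n, hn⟩ : ∃ n, k - l = b + n + 1 := ⟨k - l - b - 1, by omega⟩
      rw [hn, show k - (l + 1) = b + n by omega]
      refine lt_of_le_of_lt (geom_six hH1 (by positivity) hxr hmr _) ?_
      rw [div_lt_iff₀ (by positivity)]
      have h1 : (H : ℝ) ^ b ≤ (H : ℝ) ^ (b + n) := pow_le_pow_right₀ hH1 (by omega)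
      nlinarith)
  refine key.mono ?_
  have h1 : (P : ℝ) ^ k ≤ (2 * H * m) ^ k := by
    gcongr
    refine hP.trans ?_
    gcongr
  have h2 : (m : ℝ) ^ k = m ^ b * m ^ (k - b) := by rw [← pow_add]; congr 1; omega
  have h3 : (k.factorial * q / (H : ℝ) ^ (k - 0)) / (m : ℝ) ^ (k - b) =
      (k.factorial * m ^ b : ℕ) * (2 ^ k * q / (2 * H * m : ℝ) ^ k) := by
    rw [Nat.sub_zero, mul_pow, mul_pow, h2]
    push_cast
    field_simp
  rw [h3]
  gcongr

theorem close_off {k b P M m x m' x' q : ℕ} [NeZero q] (hb : 1 ≤ b) (hbk : 2 * b + 1 ≤ k)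
    (hM : 1 ≤ M) (hMP : M ≤ P) (hm : M ≤ m) (hm4 : m ≤ 4 * M) (hm' : m' ≤ 4 * M) (hx : x ≤ P)
    (hx' : x' ≤ P) (hc : Nat.Coprime x m) (hH : 6 * k.factorial * M < (P / M) ^ b)
    {a a' : ZMod q} (h : Close (P / M) (gam k a m x) (gam k a' m' x')) :
    Small (((k.factorial * m ^ (2 * b) : ℕ) : ZMod q) *
        (((m' : ℤ) * x - (x' : ℤ) * m : ℤ) : ZMod q) * a)
      (6 * k.factorial * 2 ^ k * q * (M : ℝ) ^ (2 * b + 1) / (P : ℝ) ^ (k - 1)) := by
  obtain ⟨hH1, hP⟩ := geom_H hM hMP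
  have hHb : (6 * k.factorial * M : ℝ) < ((P / M : ℕ) : ℝ) ^ b := by exact_mod_cast hH
  generalize P / M = H at *
  have hq : (0 : ℝ) < q := by exact_mod_cast NeZero.pos q
  have hxr : (x : ℝ) ≤ 2 * H * M := le_trans (by exact_mod_cast hx) hP
  have hxr' : (x' : ℝ) ≤ 2 * H * M := le_trans (by exact_mod_cast hx') hP
  have hmr : (m : ℝ) ≤ 4 * M := by exact_mod_cast hm4
  have hmr' : (m' : ℝ) ≤ 4 * M := by exact_mod_cast hm'
  have hMm : (M : ℝ) ≤ m := by exact_mod_cast hm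
  have hM1 : (1 : ℝ) ≤ M := by exact_mod_cast hM
  have hP0 : (0 : ℝ) < P := by exact_mod_cast (by omega : 0 < P)
  have hH0 : (0 : ℝ) < H := by linarith
  have hm0 : (0 : ℝ) < m := by linarith
  have hf : (1 : ℝ) ≤ k.factorial := by exact_mod_cast k.factorial_pos
  have key := geom (((k.factorial * m ^ (2 * b) : ℕ) : ZMod q) *
        (((m' : ℤ) * x - (x' : ℤ) * m : ℤ) : ZMod q) * a) (k - 1 - 2 * b) (hM.trans hm) hc
    (fun l => 6 * M * (k.factorial * q) / (H : ℝ) ^ (k - 1 - l)) (fun l hl => by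
      obtain ⟨n, hn⟩ : ∃ n, k - 1 - 2 * b - l = n := ⟨_, rfl⟩
      have h1 := (close_fac h (l := l) (by omega)).mul (x' : ℤ)
      have h2 := (close_fac h (l := l + 1) (by omega)).mul (m' : ℤ)
      rw [show k - l = 2 * b + n + 1 by omega] at h1
      rw [show k - (l + 1) = 2 * b + n by omega] at h2
      rw [hn, show k - 1 - l = 2 * b + n by omega]
      convert (h1.neg.add h2).mono ?_ using 1
      · push_cast
        ring
      · rw [Int.cast_natCast, Int.cast_natCast, Nat.abs_cast, Nat.abs_cast]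
        exact geom_six hH1 (by positivity) hxr' hmr' _) (fun l hl => by
      obtain ⟨n, hn⟩ : ∃ n, k - 1 - l = 2 * b + n + 1 := ⟨k - 1 - l - 2 * b - 1, by omega⟩
      rw [hn, show k - 1 - (l + 1) = 2 * b + n by omega]
      refine lt_of_le_of_lt (geom_six hH1 (by positivity) hxr hmr _) ?_
      rw [div_lt_iff₀ (by positivity)]
      have h1 : (H : ℝ) ^ (2 * b) ≤ (H : ℝ) ^ (2 * b + n) := pow_le_pow_right₀ hH1 (by omega)
      have h2 : (6 * k.factorial * M : ℝ) ^ 2 < (H : ℝ) ^ (2 * b) := by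
        rw [mul_comm 2 b, pow_mul]
        gcongr
      have h3 : 6 * M * (6 * M * k.factorial : ℝ) ≤ (6 * k.factorial * M : ℝ) ^ 2 := by
        have : (36 * M ^ 2 * k.factorial : ℝ) * 1 ≤ 36 * M ^ 2 * k.factorial * k.factorial := by
          gcongr
        nlinarith
      have h4 : 6 * M * (6 * M * k.factorial : ℝ) * q < (H : ℝ) ^ (2 * b + n) * q := by
        gcongr
        linarith
      nlinarith)
  refine key.mono ?_
  obtain ⟨n, rfl⟩ : ∃ n, k = 2 * b + n + 1 := ⟨k - 2 * b - 1, by omega⟩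
  rw [show 2 * b + n + 1 - 1 - 0 = 2 * b + n by omega, show 2 * b + n + 1 - 1 - 2 * b = n by omega,
    Nat.add_sub_cancel]
  generalize ((2 * b + n + 1).factorial : ℝ) = F at *
  have h1 : (P : ℝ) ^ (2 * b + n) ≤ (2 * H * M) ^ (2 * b + n) := by gcongr
  have h2 : 6 * M * (F * q) / (H : ℝ) ^ (2 * b + n) / (m : ℝ) ^ n ≤
      6 * M * (F * q) / (H : ℝ) ^ (2 * b + n) / (M : ℝ) ^ n := by gcongr
  have h3 : 6 * M * (F * q) / (H : ℝ) ^ (2 * b + n) / (M : ℝ) ^ n =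
      6 * F * 2 ^ (2 * b + n) * q * (M : ℝ) ^ (2 * b + 1) / (2 * H * M : ℝ) ^ (2 * b + n) := by
    rw [mul_pow, mul_pow]
    field_simp
    ring
  have h4 : (2 : ℝ) ^ (2 * b + n) ≤ 2 ^ (2 * b + n + 1) :=
    pow_le_pow_right₀ (by norm_num) (Nat.le_succ _)
  have h5 : (0 : ℝ) ≤ 2 ^ (2 * b + n + 1) := by positivity
  refine h2.trans (h3.trans_le ?_)
  generalize (2 : ℝ) ^ (2 * b + n + 1) = t at *
  gcongr

theorem small_div {q w : ℕ} [NeZero q] (hw : 1 ≤ w) (hd : w ∣ q) {d : ZMod q} {D : ℝ}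
    (h : Small ((w : ZMod q) * d) (w * D)) :
    ∃ (β : ℤ) (n : ℕ), |(β : ℝ)| ≤ D ∧ n < w ∧
      d = (β : ZMod q) + ((q / w : ℕ) : ZMod q) * (n : ZMod q) := by
  obtain ⟨d0, rfl⟩ := ZMod.intCast_surjective d
  obtain ⟨e, he1, he2⟩ := h
  obtain ⟨c, hc⟩ := hd
  have hw0 : (w : ℤ) ≠ 0 := by exact_mod_cast (by omega : w ≠ 0)
  have hwp : (0 : ℤ) < w := by exact_mod_cast hw
  have hqz : (q : ℤ) = w * c := by exact_mod_cast hc
  obtain ⟨t, ht⟩ : (q : ℤ) ∣ w * d0 - e := by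
    apply (ZMod.intCast_zmod_eq_zero_iff_dvd _ q).1
    push_cast
    rw [he2, sub_self]
  have hqw : q / w = c := by rw [hc]; exact Nat.mul_div_cancel_left c hw
  have h0 := Int.emod_nonneg t hw0
  have h1 := Int.emod_lt_of_pos t hwp
  refine ⟨d0 - c * t, (t % w).toNat, ?_, by omega, ?_⟩
  · have h2 : e = w * (d0 - c * t) := by rw [hqz] at ht; linear_combination -ht
    have hwr : (0 : ℝ) < w := by exact_mod_cast hw
    rw [h2, Int.cast_mul, abs_mul, Int.cast_natCast, Nat.abs_cast] at he1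
    exact le_of_mul_le_mul_left he1 hwr
  · have h2 : d0 = (d0 - c * t) + c * ((t % w).toNat : ℤ) + q * (t / w) := by
      rw [Int.toNat_of_nonneg h0, hqz]
      have := Int.emod_add_mul_ediv t w
      linear_combination (-c : ℤ) * this
    rw [hqw]
    conv_lhs => rw [h2]
    rw [Int.cast_add, Int.cast_add, Int.cast_mul (q : ℤ), Int.cast_natCast, ZMod.natCast_self,
      zero_mul, add_zero, Int.cast_mul (c : ℤ) ((t % w).toNat : ℤ), Int.cast_natCast,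
      Int.cast_natCast]

theorem split_frac {q c u : ℕ} (hc : 1 ≤ c) (hu : 1 ≤ u) (hco : Nat.Coprime c u)
    (hd : c * u ∣ q) (n : ℕ) : ∃ n1 n2 : ℕ, n1 < c ∧ n2 < u ∧
      ((q / (c * u) : ℕ) : ZMod q) * (n : ZMod q) =
        ((q / c : ℕ) : ZMod q) * (n1 : ZMod q) + ((q / u : ℕ) : ZMod q) * (n2 : ZMod q) := by
  obtain ⟨r, hr⟩ := hd
  obtain ⟨A, B, hAB⟩ := Nat.isCoprime_iff_coprime.2 hco
  have hcp : (0 : ℤ) < c := by exact_mod_cast hc
  have hup : (0 : ℤ) < u := by exact_mod_cast hu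
  have e1 : q / (c * u) = r := by rw [hr]; exact Nat.mul_div_cancel_left r (by positivity)
  have e2 : q / c = u * r := by rw [hr, mul_assoc]; exact Nat.mul_div_cancel_left _ hc
  have e3 : q / u = c * r := by
    rw [hr, mul_comm c u, mul_assoc]; exact Nat.mul_div_cancel_left _ hu
  have h0 := Int.emod_nonneg (n * B) hcp.ne'
  have h1 := Int.emod_lt_of_pos (n * B) hcp
  have h2 := Int.emod_nonneg (n * A) hup.ne'
  have h3 := Int.emod_lt_of_pos (n * A) hup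
  refine ⟨(n * B % c).toNat, (n * A % u).toNat, by omega, by omega, ?_⟩
  have hqz : (q : ℤ) = c * u * r := by exact_mod_cast hr
  have h4 : (r : ℤ) * n = (u * r : ℕ) * ((n * B % c).toNat : ℤ) +
      (c * r : ℕ) * ((n * A % u).toNat : ℤ) + q * (n * B / c + n * A / u) := by
    rw [Int.toNat_of_nonneg h0, Int.toNat_of_nonneg h2, hqz]
    have h5 := Int.emod_add_mul_ediv (n * B) c
    have h6 := Int.emod_add_mul_ediv (n * A) u
    push_cast
    linear_combination (-r * n : ℤ) * hAB - u * r * h5 - c * r * h6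
  have h5 := congrArg (Int.cast : ℤ → ZMod q) h4
  rw [Int.cast_add, Int.cast_add, Int.cast_mul (q : ℤ), Int.cast_natCast, ZMod.natCast_self,
    zero_mul, add_zero] at h5
  simp only [Int.cast_mul, Int.cast_natCast] at h5
  rw [e1, e2, e3]
  exact h5

end Pool.Agent.MP_927be3_nt.W

end PartGeom

section PartBad

open Finset Polynomial

namespace Pool.Agent.MP_927be3_nt.W

theorem bad_union {α ι : Type} [Fintype α] (T : Finset ι) (p : α → Prop) [DecidablePred p]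
    (r : ι → α → Prop) [∀ i, DecidablePred (r i)] (g : α → ℝ) (hg : ∀ a, 0 ≤ g a)
    (h : ∀ a, p a → ∃ i ∈ T, r i a) :
    ∑ a with p a, g a ≤ ∑ i ∈ T, ∑ a with r i a, g a := by
  simp_rw [sum_filter]
  rw [sum_comm]
  refine sum_le_sum fun a _ => ?_
  have h0 : ∀ i ∈ T, 0 ≤ if r i a then g a else 0 := fun i _ => by
    split_ifs
    exacts [hg a, le_rfl]
  by_cases hp : p a
  · obtain ⟨i, hi, hr⟩ := h a hp
    have := single_le_sum h0 hi
    rw [if_pos hr] at this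
    rwa [if_pos hp]
  · rw [if_neg hp]
    exact sum_nonneg h0

theorem bad_orth {q w : ℕ} [NeZero q] (hw : 1 ≤ w) (hd : w ∣ q) (j : ℤ) :
    ∑ n ∈ range w, ch (((q / w : ℕ) : ZMod q) * (n : ZMod q) * (j : ZMod q)) =
      if (w : ℤ) ∣ j then (w : ℂ) else 0 := by
  have : NeZero w := ⟨by omega⟩
  have h1 : ∀ n : ℕ, ch (((q / w : ℕ) : ZMod q) * (n : ZMod q) * (j : ZMod q)) =
      ch ((n : ZMod w) * (j : ZMod w)) := by
    intro n
    have a1 := ch_div hd ((n : ℤ) * j)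
    have a2 := ch_int (q := w) ((n : ℤ) * j)
    push_cast at a1 a2
    rw [mul_assoc, a1, a2]
  simp_rw [h1]
  rw [← if_congr (ZMod.intCast_zmod_eq_zero_iff_dvd j w) rfl rfl, ← ch_orth]
  refine sum_nbij' (fun n => (n : ZMod w)) ZMod.val ?_ ?_ ?_ ?_ ?_
  · intro n _; exact mem_univ _
  · intro t _; exact mem_range.2 (ZMod.val_lt t)
  · intro n hn; exact ZMod.val_cast_of_lt (mem_range.1 hn)
  · intro t _; exact ZMod.natCast_zmod_val t
  · intro n _; rfl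

theorem bad_shift {k P q w : ℕ} [NeZero q] (hw : 1 ≤ w) (hd : w ∣ q) (c : ZMod q) :
    ∑ n ∈ range w, ‖fw k P (c + ((q / w : ℕ) : ZMod q) * (n : ZMod q))‖ ^ 2 ≤
      w * #((range (P + 1) ×ˢ range (P + 1)).filter fun z : ℕ × ℕ =>
          (w : ℤ) ∣ (z.1 : ℤ) ^ k - (z.2 : ℤ) ^ k) := by
  have h1 : ∀ n : ℕ, ((‖fw k P (c + ((q / w : ℕ) : ZMod q) * (n : ZMod q))‖ : ℝ) : ℂ) ^ 2 =
      ∑ z ∈ range (P + 1) ×ˢ range (P + 1),
        ch (c * (((z.1 : ℤ) ^ k - (z.2 : ℤ) ^ k : ℤ) : ZMod q)) *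
        ch (((q / w : ℕ) : ZMod q) * (n : ZMod q) *
          (((z.1 : ℤ) ^ k - (z.2 : ℤ) ^ k : ℤ) : ZMod q)) := by
    intro n
    rw [← Complex.mul_conj', fw, map_sum, sum_mul_sum, sum_product]
    refine sum_congr rfl fun x _ => sum_congr rfl fun y _ => ?_
    rw [← ch_sub, ← ch_add]
    congr 1
    push_cast
    ring
  have h2 : ((∑ n ∈ range w, ‖fw k P (c + ((q / w : ℕ) : ZMod q) * (n : ZMod q))‖ ^ 2 : ℝ) : ℂ) =
      ∑ z ∈ range (P + 1) ×ˢ range (P + 1),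
        ch (c * (((z.1 : ℤ) ^ k - (z.2 : ℤ) ^ k : ℤ) : ZMod q)) *
        if (w : ℤ) ∣ (z.1 : ℤ) ^ k - (z.2 : ℤ) ^ k then (w : ℂ) else 0 := by
    rw [Complex.ofReal_sum]
    simp_rw [Complex.ofReal_pow, h1]
    rw [sum_comm]
    refine sum_congr rfl fun z _ => ?_
    rw [← mul_sum, bad_orth hw hd]
  have h3 := congrArg norm h2
  rw [Complex.norm_real, Real.norm_of_nonneg (sum_nonneg fun _ _ => by positivity)] at h3
  rw [h3]
  refine (norm_sum_le _ _).trans (le_of_eq ?_)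
  rw [card_filter]
  push_cast
  rw [mul_sum]
  refine sum_congr rfl fun z _ => ?_
  rw [norm_mul, norm_ch, one_mul]
  split_ifs <;> simp

open Classical in
theorem arc_sq {k P q w : ℕ} [NeZero q] (hw : 1 ≤ w) (hd : w ∣ q) {D : ℝ} (hD : 0 ≤ D) :
    ∑ a : ZMod q with Small ((w : ZMod q) * a) D, ‖fw k P a‖ ^ 2 ≤
      (2 * D + w) *
        #((range (P + 1) ×ˢ range (P + 1)).filter fun z : ℕ × ℕ =>
          (w : ℤ) ∣ (z.1 : ℤ) ^ k - (z.2 : ℤ) ^ k) := by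
  have hw0 : (0 : ℝ) < w := by exact_mod_cast hw
  set B := ⌊D / w⌋₊ with hB
  have hB1 : (B : ℝ) ≤ D / w := Nat.floor_le (by positivity)
  refine (bad_union (Icc (-(B : ℤ)) B ×ˢ range w) _
    (fun i a => a = (i.1 : ZMod q) + ((q / w : ℕ) : ZMod q) * (i.2 : ZMod q)) _
    (fun _ => by positivity) fun a ha => ?_).trans ?_
  · obtain ⟨β, n, h1, h2, h3⟩ := small_div (D := D / w) hw hd (by
      rwa [mul_div_cancel₀ _ hw0.ne'])
    refine ⟨(β, n), mem_product.2 ⟨?_, mem_range.2 h2⟩, h3⟩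
    have : (β.natAbs : ℝ) ≤ D / w := by rwa [Nat.cast_natAbs, Int.cast_abs]
    have := Nat.le_floor this
    rw [mem_Icc]
    constructor <;> omega
  simp_rw [filter_eq', mem_univ, if_true, sum_singleton]
  rw [sum_product]
  refine (sum_le_sum fun (β : ℤ) _ => bad_shift (k := k) (P := P) hw hd ((β : ℤ) : ZMod q)).trans ?_
  rw [sum_const, nsmul_eq_mul, ← mul_assoc]
  refine mul_le_mul_of_nonneg_right ?_ (Nat.cast_nonneg _)
  have : #(Icc (-(B : ℤ)) B) = 2 * B + 1 := by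
    rw [Int.card_Icc]
    omega
  rw [this]
  push_cast
  rw [le_div_iff₀ hw0] at hB1
  linarith

theorem bad_tau (k : ℕ) {ε : ℝ} (hε : 0 < ε) : ∃ C : ℝ, 0 < C ∧ ∀ P : ℕ, 1 ≤ P →
    ∀ (T : Finset ℤ) (j : ℤ), j ≠ 0 → |j| ≤ (P : ℤ) ^ k →
      (#(T.filter fun Δ => Δ ∣ j) : ℝ) ≤ C * (P : ℝ) ^ ε := by
  obtain ⟨s, hs⟩ := exists_nat_ge (k / ε)
  obtain ⟨C, hC, H⟩ := Pool.Agent.MP_e4c747_an.divisor_bound (s + 1)
  have hC1 : (1 : ℝ) ≤ C := by exact_mod_cast hC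
  refine ⟨2 * C, by positivity, fun P hP T j hj hjP => ?_⟩
  have hP1 : (1 : ℝ) ≤ P := by exact_mod_cast hP
  have h1 : #(T.filter fun Δ => Δ ∣ j) ≤ 2 * #j.natAbs.divisors := by
    have : T.filter (fun Δ => Δ ∣ j) ⊆ j.natAbs.divisors.image (fun d : ℕ => (d : ℤ)) ∪
        j.natAbs.divisors.image (fun d : ℕ => -(d : ℤ)) := by
      intro Δ hΔ
      have h2 : Δ.natAbs ∈ j.natAbs.divisors :=
        Nat.mem_divisors.2 ⟨Int.natAbs_dvd_natAbs.2 (mem_filter.1 hΔ).2, by omega⟩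
      rcases Int.natAbs_eq Δ with h | h
      · exact mem_union_left _ (mem_image.2 ⟨_, h2, h.symm⟩)
      · exact mem_union_right _ (mem_image.2 ⟨_, h2, h.symm⟩)
    have h3 := (card_le_card this).trans (card_union_le _ _)
    have h4 := card_image_le (s := j.natAbs.divisors) (f := fun d : ℕ => (d : ℤ))
    have h5 := card_image_le (s := j.natAbs.divisors) (f := fun d : ℕ => -(d : ℤ))
    omega
  have h2 : (#j.natAbs.divisors : ℝ) ≤ C * (P : ℝ) ^ ε := by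
    refine le_of_pow_le_pow_left₀ (n := s + 1) (by omega) (by positivity) ?_
    have a1 : (#j.natAbs.divisors : ℝ) ^ (s + 1) ≤ C * j.natAbs := by
      exact_mod_cast H j.natAbs (by omega)
    have a2 : (j.natAbs : ℝ) ≤ (P : ℝ) ^ k := by
      have : j.natAbs ≤ P ^ k := by
        have : (j.natAbs : ℤ) ≤ ((P ^ k : ℕ) : ℤ) := by
          rw [Int.natCast_natAbs]; push_cast; exact hjP
        exact_mod_cast this
      exact_mod_cast this
    have a3 : (P : ℝ) ^ k ≤ ((P : ℝ) ^ ε) ^ (s + 1) := by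
      rw [← Real.rpow_natCast, ← Real.rpow_natCast, ← Real.rpow_mul (by linarith)]
      refine Real.rpow_le_rpow_of_exponent_le hP1 ?_
      rw [div_le_iff₀ hε] at hs
      push_cast
      nlinarith
    have a4 : (C : ℝ) ≤ (C : ℝ) ^ (s + 1) := le_self_pow₀ hC1 (by omega)
    rw [mul_pow]
    exact a1.trans (mul_le_mul a4 (a2.trans a3) (by positivity) (by positivity))
  have h3 : (#(T.filter fun Δ => Δ ∣ j) : ℝ) ≤ 2 * #j.natAbs.divisors := by exact_mod_cast h1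
  linarith

theorem bad_count {k : ℕ} (hk : 1 ≤ k) {ε : ℝ} (hε : 0 < ε) : ∃ C : ℝ, 0 < C ∧ ∀ P M : ℕ, 1 ≤ P →
    1 ≤ M → ∀ T : Finset ℤ, #T ≤ 8 * M * P →
      ∑ Δ ∈ T, (#((range (P + 1) ×ˢ range (P + 1)).filter fun z : ℕ × ℕ =>
        Δ ∣ (z.1 : ℤ) ^ k - (z.2 : ℤ) ^ k) : ℝ) ≤ C * M * (P : ℝ) ^ 2 * (P : ℝ) ^ ε := by
  obtain ⟨C, hC, H⟩ := bad_tau k hε
  refine ⟨16 + 4 * C, by positivity, fun P M hP hM T hT => ?_⟩
  have hP1 : (1 : ℝ) ≤ P := by exact_mod_cast hP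
  have hM1 : (1 : ℝ) ≤ M := by exact_mod_cast hM
  have hε1 : (1 : ℝ) ≤ (P : ℝ) ^ ε := Real.one_le_rpow hP1 hε.le
  have hT' : (#T : ℝ) ≤ 8 * M * P := by exact_mod_cast hT
  have h1 : ∑ Δ ∈ T, (#((range (P + 1) ×ˢ range (P + 1)).filter fun z : ℕ × ℕ =>
      Δ ∣ (z.1 : ℤ) ^ k - (z.2 : ℤ) ^ k) : ℝ) = ∑ z ∈ range (P + 1) ×ˢ range (P + 1),
        (#(T.filter fun Δ => Δ ∣ (z.1 : ℤ) ^ k - (z.2 : ℤ) ^ k) : ℝ) := by
    simp_rw [card_filter]
    push_cast
    exact sum_comm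
  have h2 : ∀ z ∈ range (P + 1) ×ˢ range (P + 1),
      (#(T.filter fun Δ => Δ ∣ (z.1 : ℤ) ^ k - (z.2 : ℤ) ^ k) : ℝ) ≤
        (if z.1 = z.2 then (8 * M * P : ℝ) else 0) + C * (P : ℝ) ^ ε := by
    rintro ⟨x, y⟩ hz
    obtain ⟨hx, hy⟩ := mem_product.1 hz
    rw [mem_range] at hx hy
    split_ifs with h
    · have : (#(T.filter fun Δ => Δ ∣ (x : ℤ) ^ k - (y : ℤ) ^ k) : ℝ) ≤ #T := by
        exact_mod_cast card_filter_le _ _
      have : 0 ≤ C * (P : ℝ) ^ ε := by positivity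
      linarith
    · rw [zero_add]
      refine H P hP T _ (fun h0 => h ?_) ?_
      · have : x ^ k = y ^ k := by exact_mod_cast sub_eq_zero.1 h0
        exact Nat.pow_left_injective (by omega) this
      · have a1 : (x : ℤ) ^ k ≤ (P : ℤ) ^ k := pow_le_pow_left₀ (by positivity) (by omega) _
        have a2 : (y : ℤ) ^ k ≤ (P : ℤ) ^ k := pow_le_pow_left₀ (by positivity) (by omega) _
        have a3 : (0 : ℤ) ≤ (x : ℤ) ^ k := by positivity
        have a4 : (0 : ℤ) ≤ (y : ℤ) ^ k := by positivity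
        rw [abs_le]
        constructor <;> linarith
  rw [h1]
  refine (sum_le_sum h2).trans ?_
  rw [sum_add_distrib, sum_product, sum_const, card_product, card_range, nsmul_eq_mul]
  have h3 : ∑ x ∈ range (P + 1), ∑ y ∈ range (P + 1), (if x = y then (8 * M * P : ℝ) else 0) =
      (P + 1) * (8 * M * P) := by
    rw [sum_congr rfl (g := fun _ => (8 * M * P : ℝ)) fun x hx => by rw [sum_ite_eq, if_pos hx]]
    simp
  rw [h3]
  push_cast
  have b1 : ((P : ℝ) + 1) * (8 * M * P) ≤ 16 * M * (P : ℝ) ^ 2 * (P : ℝ) ^ ε := by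
    calc ((P : ℝ) + 1) * (8 * M * P) ≤ (2 * P) * (8 * M * P) := by gcongr; linarith
      _ = 16 * M * (P : ℝ) ^ 2 * 1 := by ring
      _ ≤ _ := by gcongr
  have b2 : ((P : ℝ) + 1) * (P + 1) * (C * (P : ℝ) ^ ε) ≤ 4 * C * M * (P : ℝ) ^ 2 * (P : ℝ) ^ ε := by
    calc ((P : ℝ) + 1) * (P + 1) * (C * (P : ℝ) ^ ε) ≤ (2 * P) * (2 * P) * (C * (P : ℝ) ^ ε) := by
          gcongr <;> linarith
      _ = 4 * C * 1 * (P : ℝ) ^ 2 * (P : ℝ) ^ ε := by ring
      _ ≤ _ := by gcongr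
  linarith

open Classical in
theorem bad_sum {k b : ℕ} (hb : 1 ≤ b) (hbk : 2 * b + 1 ≤ k) {ε : ℝ} (hε : 0 < ε) :
    ∃ A : ℝ, 0 < A ∧ ∀ (P M q : ℕ) [NeZero q], 1 ≤ M → 4 * M ≤ P → Good k P q →
      ∀ Ms : Finset ℕ, (∀ m ∈ Ms, M ≤ m ∧ m ≤ 4 * M) →
        ∑ a : ZMod q with Bad k b P M Ms a, ‖fw k P a‖ ^ 2 ≤
          A * (P : ℝ) ^ ε * q * (M : ℝ) ^ (2 * b + 3) * (P : ℝ) ^ 3 / (P : ℝ) ^ k := by
  obtain ⟨C, hC, H⟩ := bad_count (show 1 ≤ k by omega) hε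
  have hf : 0 < k.factorial := k.factorial_pos
  refine ⟨4 * (3 * (6 * k.factorial * 2 ^ k)) * C, by positivity,
    fun P M q _ hM hMP hG Ms hMs => ?_⟩
  have hP : 1 ≤ P := by omega
  have hP0 : (0 : ℝ) < P := by exact_mod_cast hP
  set D : ℝ := 6 * k.factorial * 2 ^ k * q * (M : ℝ) ^ (2 * b + 1) / (P : ℝ) ^ (k - 1) with hD
  have hD0 : 0 ≤ D := by positivity
  set T : Finset ℤ := (Icc (-(4 * M * P : ℤ)) (4 * M * P)).erase 0 with hT
  have hTc : #T ≤ 8 * M * P := by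
    rw [hT, card_erase_of_mem (mem_Icc.2 ⟨by
      have : (0 : ℤ) ≤ 4 * M * P := by positivity
      linarith, by positivity⟩), Int.card_Icc]
    have : (4 * M * P + 1 - -(4 * M * P) : ℤ) = ((8 * M * P + 1 : ℕ) : ℤ) := by
      push_cast; ring
    rw [this, Int.toNat_natCast]
    omega
  refine (bad_union (Ms ×ˢ T) _ (fun i a =>
    Small (((k.factorial * i.1 ^ (2 * b) * i.2.natAbs : ℕ) : ZMod q) * a) D) _
    (fun _ => by positivity) fun a ha => ?_).trans ?_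
  · obtain ⟨m, hm, Δ, h0, h1, h2⟩ := ha
    refine ⟨(m, Δ), mem_product.2 ⟨hm, mem_erase.2 ⟨h0, mem_Icc.2 (abs_le.1 h1)⟩⟩, ?_⟩
    rw [Nat.cast_mul _ Δ.natAbs]
    rcases Int.natAbs_eq Δ with h | h
    · rw [h, Int.cast_natCast] at h2
      exact h2
    · rw [h, Int.cast_neg, Int.cast_natCast] at h2
      have := h2.neg
      rwa [mul_neg, neg_mul, neg_neg] at this
  have key : ∀ m ∈ Ms, ∀ Δ ∈ T, ∑ a : ZMod q with
      Small (((k.factorial * m ^ (2 * b) * Δ.natAbs : ℕ) : ZMod q) * a) D, ‖fw k P a‖ ^ 2 ≤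
      3 * D * #((range (P + 1) ×ˢ range (P + 1)).filter fun z : ℕ × ℕ =>
        Δ ∣ (z.1 : ℤ) ^ k - (z.2 : ℤ) ^ k) := by
    intro m hm Δ hΔ
    obtain ⟨h0, h1⟩ := mem_erase.1 hΔ
    obtain ⟨m1, m2⟩ := hMs m hm
    have h2 : Δ.natAbs ≤ 4 * M * P := by
      have : (Δ.natAbs : ℤ) ≤ ((4 * M * P : ℕ) : ℤ) := by
        rw [Int.natCast_natAbs]; push_cast; exact abs_le.2 (mem_Icc.1 h1)
      exact_mod_cast this
    have hw : 1 ≤ k.factorial * m ^ (2 * b) * Δ.natAbs :=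
      Nat.mul_pos (Nat.mul_pos hf (pow_pos (by omega) _)) (by omega)
    have h3 : k.factorial * m ^ (2 * b) * Δ.natAbs ≤ k.factorial * (4 * M) ^ (2 * b + 1) * P := by
      rw [pow_succ, mul_assoc, mul_assoc, mul_assoc]
      gcongr
    have hq := hG.le (show 1 ≤ k by omega)
    have hd : k.factorial * m ^ (2 * b) * Δ.natAbs ∣ q := by
      refine hG _ hw (h3.trans ?_)
      calc k.factorial * (4 * M) ^ (2 * b + 1) * P ≤ k ^ k * P ^ (2 * b + 1) * P := by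
            gcongr
            exact Nat.factorial_le_pow k
        _ = k ^ k * P ^ (2 * b + 2) := by ring
        _ ≤ (8 * k) ^ (2 * k) * (P + 1) ^ (2 * k) := by
            refine Nat.mul_le_mul ?_ ?_
            · exact (Nat.pow_le_pow_left (by omega) _).trans
                (Nat.pow_le_pow_right (by omega) (by omega))
            · exact (Nat.pow_le_pow_left (by omega) _).trans
                (Nat.pow_le_pow_right (by omega) (by omega))
        _ = _ := by rw [← mul_pow]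
    have h4 : ((k.factorial * m ^ (2 * b) * Δ.natAbs : ℕ) : ℝ) ≤ D := by
      rw [hD, le_div_iff₀ (by positivity)]
      have a1 : 4 ^ (2 * b + 1) * P ^ k ≤ q := by
        refine le_trans ?_ hq
        rw [mul_pow]
        refine Nat.mul_le_mul ?_ ?_
        · exact (Nat.pow_le_pow_left (by omega) _).trans
            (Nat.pow_le_pow_right (by omega) (by omega))
        · exact (Nat.pow_le_pow_left (by omega) _).trans
            (Nat.pow_le_pow_right (by omega) (by omega))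
      have a2 : k.factorial * m ^ (2 * b) * Δ.natAbs * P ^ (k - 1) ≤
          6 * k.factorial * 2 ^ k * q * M ^ (2 * b + 1) := by
        calc _ ≤ k.factorial * (4 * M) ^ (2 * b + 1) * P * P ^ (k - 1) := by gcongr
          _ = k.factorial * (4 ^ (2 * b + 1) * P ^ k) * M ^ (2 * b + 1) := by
            rw [mul_assoc _ P, ← pow_succ', Nat.sub_add_cancel (by omega), mul_pow]
            ring
          _ ≤ (6 * k.factorial * 2 ^ k) * q * M ^ (2 * b + 1) := by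
            gcongr
            calc k.factorial = 1 * k.factorial * 1 := by ring
              _ ≤ _ := by gcongr; exacts [by norm_num, Nat.one_le_two_pow]
      exact_mod_cast a2
    refine (arc_sq hw hd hD0).trans (mul_le_mul (by linarith) ?_ (by positivity) (by positivity))
    refine Nat.cast_le.2 (card_le_card fun z hz => ?_)
    refine mem_filter.2 ⟨(mem_filter.1 hz).1, dvd_trans ?_ (mem_filter.1 hz).2⟩
    rw [Nat.cast_mul _ Δ.natAbs]
    exact Dvd.dvd.mul_left (Int.dvd_natAbs.2 dvd_rfl) _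
  rw [sum_product]
  have h5 : ∀ m ∈ Ms, ∑ Δ ∈ T, ∑ a : ZMod q with
      Small (((k.factorial * m ^ (2 * b) * Δ.natAbs : ℕ) : ZMod q) * a) D, ‖fw k P a‖ ^ 2 ≤
      3 * D * (C * M * (P : ℝ) ^ 2 * (P : ℝ) ^ ε) := by
    intro m hm
    refine (sum_le_sum (key m hm)).trans ?_
    rw [← mul_sum]
    exact mul_le_mul_of_nonneg_left (H P M hP hM T hTc) (by positivity)
  refine (sum_le_sum h5).trans ?_
  rw [sum_const, nsmul_eq_mul]
  have h6 : (#Ms : ℝ) ≤ 4 * M := by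
    have : #Ms ≤ #(Icc 1 (4 * M)) := card_le_card fun m hm =>
      mem_Icc.2 ⟨hM.trans (hMs m hm).1, (hMs m hm).2⟩
    rw [Nat.card_Icc] at this
    exact_mod_cast this
  refine (mul_le_mul_of_nonneg_right h6 (by positivity)).trans (le_of_eq ?_)
  have h7 : (P : ℝ) ^ k = (P : ℝ) ^ (k - 1) * P := by
    rw [← pow_succ, Nat.sub_add_cancel (by omega)]
  rw [hD, h7]
  field_simp
  ring

end Pool.Agent.MP_927be3_nt.W

end PartBad

section PartCoreII

open Finset Polynomial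

namespace Pool.Agent.MP_927be3_nt.W

theorem coreii_eq {m x m' x' : ℕ} (hm : m.Prime) (hm' : m'.Prime) (hc : Nat.Coprime x m)
    (h : m' * x = x' * m) : m = m' ∧ x = x' := by
  have h1 : m ∣ m' := by
    have : m ∣ m' * x := ⟨x', by rw [h]; ring⟩
    exact Nat.Coprime.dvd_of_dvd_mul_right hc.symm this
  have h2 : m = m' := (Nat.prime_dvd_prime_iff_eq hm hm').1 h1
  subst h2
  exact ⟨rfl, Nat.eq_of_mul_eq_mul_left hm.pos (by rw [h]; ring)⟩

theorem coreii_dvd {k b P m q : ℕ} (hk : 1 ≤ k) (hbk : b ≤ k) (hm : 1 ≤ m) (hmP : m ≤ P)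
    (hG : Good k P q) : k.factorial * m ^ b ∣ q := by
  refine hG _ (by positivity) ?_
  have h1 : k.factorial ≤ (8 * k * (P + 1)) ^ k :=
    (Nat.factorial_le_pow k).trans (Nat.pow_le_pow_left (by nlinarith) k)
  have h2 : m ^ b ≤ (8 * k * (P + 1)) ^ k :=
    (Nat.pow_le_pow_right hm hbk).trans (Nat.pow_le_pow_left (by nlinarith) k)
  rw [two_mul k, pow_add]
  exact Nat.mul_le_mul h1 h2

theorem coreii_pair {k b P M q : ℕ} [NeZero q] (hb : 1 ≤ b) (hbk : 2 * b + 1 ≤ k) (hM : 1 ≤ M)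
    (h4 : 4 * M ≤ P) (hG : Good k P q) (hH : 6 * k.factorial * M < (P / M) ^ b) {Ms : Finset ℕ}
    (hMs : PrM k M Ms) {a a' : ZMod q} {m x m' x' : ℕ} (hm : m ∈ Ms) (hm' : m' ∈ Ms)
    (hx : x ≤ P) (hx' : x' ≤ P) (hc : Nat.Coprime x m) (hB : ¬ Bad k b P M Ms a)
    (h : Close (P / M) (gam k a m x) (gam k a' m' x')) :
    m = m' ∧ x = x' ∧ ∃ (β : ℤ) (n1 n2 : ℕ), |(β : ℝ)| ≤ 2 ^ k * q / (P : ℝ) ^ k ∧
      n1 < k.factorial ∧ n2 < m ^ b ∧
      a = a' + (β : ZMod q) + ((q / k.factorial : ℕ) : ZMod q) * (n1 : ZMod q) +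
        ((q / m ^ b : ℕ) : ZMod q) * (n2 : ZMod q) := by
  obtain ⟨hp, hkm, hMm, hm4⟩ := hMs m hm
  obtain ⟨hp', -, -, hm4'⟩ := hMs m' hm'
  have hMP : M ≤ P := by omega
  have h1 := close_off hb hbk hM hMP hMm hm4 hm4' hx hx' hc hH h
  have h2 : (m' : ℤ) * x - (x' : ℤ) * m = 0 := by
    by_contra h0
    refine hB ⟨m, hm, _, h0, ?_, h1⟩
    have e1 : (m' : ℤ) * x ≤ 4 * M * P := by exact_mod_cast Nat.mul_le_mul hm4' hx
    have e2 : (x' : ℤ) * m ≤ 4 * M * P := by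
      have := Nat.mul_le_mul hm4 hx'
      rw [mul_comm m x'] at this
      exact_mod_cast this
    have e3 : (0 : ℤ) ≤ (m' : ℤ) * x := by positivity
    have e4 : (0 : ℤ) ≤ (x' : ℤ) * m := by positivity
    rw [abs_le]
    constructor <;> linarith
  have h3 : m' * x = x' * m := by exact_mod_cast sub_eq_zero.1 h2
  obtain ⟨rfl, rfl⟩ := coreii_eq hp hp' hc h3
  refine ⟨rfl, rfl, ?_⟩
  have h5 := close_diag hb (by omega) hM hMP hMm hm4 hx hc hH h
  have hd : k.factorial * m ^ b ∣ q := coreii_dvd (by omega) (by omega) hp.pos (by omega) hG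
  obtain ⟨β, n, hβ, -, he⟩ := small_div (Nat.one_le_iff_ne_zero.2 (by
    have := hp.pos
    positivity)) hd h5
  have hco : Nat.Coprime k.factorial (m ^ b) := by
    refine Nat.Coprime.pow_right b (Nat.Coprime.symm ?_)
    rw [hp.coprime_iff_not_dvd, hp.dvd_factorial]
    omega
  obtain ⟨n1, n2, hn1, hn2, hs⟩ := split_frac (q := q) (Nat.factorial_pos k)
    (Nat.one_le_iff_ne_zero.2 (by
      have := hp.pos
      positivity)) hco hd n
  refine ⟨β, n1, n2, hβ, hn1, hn2, ?_⟩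
  rw [hs] at he
  linear_combination he

theorem bc_le {k b P M q : ℕ} [NeZero q] (hb : 1 ≤ b) (hbk : 2 * b + 1 ≤ k) (hM : 1 ≤ M)
    (h4 : 4 * M ≤ P) (hG : Good k P q) (hH : 6 * k.factorial * M < (P / M) ^ b) {Ms : Finset ℕ}
    (hMs : PrM k M Ms) (S : Finset (ZMod q)) {V Θ : ℝ}
    (hS : ∀ a ∈ S, V ≤ ‖fw k P a‖ ∧ ¬ Bad k b P M Ms a)
    (hΘ : ∀ a : ZMod q, (Th k b P Ms V a : ℝ) ≤ Θ) :
    (Bc k P (P / M) S Ms : ℝ) ≤
      (P + 1) * #S * k.factorial * (2 * (2 ^ k * q / (P : ℝ) ^ k) + 1) * Θ := by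
  classical
  set D : ℝ := 2 ^ k * q / (P : ℝ) ^ k with hD
  have hD0 : 0 ≤ D := by positivity
  set I : Finset (ℕ × ZMod q × ℤ × ℕ) :=
    range (P + 1) ×ˢ S ×ˢ Icc (-(⌊D⌋₊ : ℤ)) (⌊D⌋₊ : ℤ) ×ˢ range k.factorial with hI
  set c : ℕ × ZMod q × ℤ × ℕ → ZMod q := fun i =>
    i.2.1 + (i.2.2.1 : ZMod q) + ((q / k.factorial : ℕ) : ZMod q) * (i.2.2.2 : ZMod q) with hc
  set F : ℕ × ZMod q × ℤ × ℕ → ℕ → Finset ℕ := fun i m => (range (m ^ b)).filter fun n : ℕ =>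
    V ≤ ‖fw k P (c i + ((q / m ^ b : ℕ) : ZMod q) * (n : ZMod q))‖ with hF
  set g : ℕ × ZMod q × ℤ × ℕ → ℕ → ℕ → (ZMod q × ℕ × ℕ) × (ZMod q × ℕ × ℕ) := fun i m n =>
    ((c i + ((q / m ^ b : ℕ) : ZMod q) * (n : ZMod q), m, i.1), (i.2.1, m, i.1)) with hg
  have h1 : Bc k P (P / M) S Ms ≤
      #(I.biUnion fun i => Ms.biUnion fun m => (F i m).image (g i m)) := by
    unfold Bc
    refine card_le_card ?_
    rintro ⟨⟨a, m, x⟩, ⟨a', m', x'⟩⟩ hz
    simp only [Tr, mem_filter, mem_product, mem_range] at hz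
    obtain ⟨⟨⟨⟨ha, hm, hx⟩, hco⟩, ⟨ha', hm', hx'⟩, -⟩, hcl⟩ := hz
    obtain ⟨rfl, rfl, β, n1, n2, hβ, hn1, hn2, he⟩ := coreii_pair hb hbk hM h4 hG hH hMs hm hm'
      (by omega) (by omega) hco (hS a ha).2 hcl
    have hβ' : β.natAbs ≤ ⌊D⌋₊ := by
      refine Nat.le_floor ?_
      rw [Nat.cast_natAbs, Int.cast_abs]
      exact hβ
    simp only [mem_biUnion, mem_image]
    refine ⟨(x, a', β, n1), ?_, m, hm, n2, ?_, ?_⟩
    · simp only [hI, mem_product, mem_range, mem_Icc]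
      refine ⟨hx, ha', ?_, hn1⟩
      omega
    · simp only [hF, hc, mem_filter, mem_range]
      refine ⟨hn2, ?_⟩
      rw [← he]
      exact (hS a ha).1
    · simp only [hg, hc]
      rw [← he]
  have h2 : #(I.biUnion fun i => Ms.biUnion fun m => (F i m).image (g i m)) ≤
      ∑ i ∈ I, Th k b P Ms V (c i) := by
    refine card_biUnion_le.trans (sum_le_sum fun i _ => ?_)
    refine card_biUnion_le.trans (sum_le_sum fun m _ => ?_)
    exact card_image_le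
  have h3 : (Bc k P (P / M) S Ms : ℝ) ≤ ∑ i ∈ I, (Th k b P Ms V (c i) : ℝ) := by
    exact_mod_cast h1.trans h2
  have h5 : ∑ i ∈ I, (Th k b P Ms V (c i) : ℝ) ≤ #I * Θ := by
    have := sum_le_card_nsmul I (fun i => (Th k b P Ms V (c i) : ℝ)) Θ fun i _ => hΘ _
    rwa [nsmul_eq_mul] at this
  have hΘ0 : 0 ≤ Θ := (Nat.cast_nonneg _).trans (hΘ 0)
  have h6 : #I = (P + 1) * (#S * ((2 * ⌊D⌋₊ + 1) * k.factorial)) := by
    simp only [hI, card_product, card_range, Int.card_Icc]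
    congr 3
    omega
  have h7 : (#I : ℝ) ≤ (P + 1) * #S * k.factorial * (2 * D + 1) := by
    rw [h6]
    push_cast
    have := Nat.floor_le hD0
    calc ((P : ℝ) + 1) * (#S * ((2 * (⌊D⌋₊ : ℝ) + 1) * k.factorial))
        = (P + 1) * #S * k.factorial * (2 * (⌊D⌋₊ : ℝ) + 1) := by ring
      _ ≤ _ := by gcongr
  exact h3.trans (h5.trans (mul_le_mul_of_nonneg_right h7 hΘ0))

theorem levelII_core {k b : ℕ} (hb : 1 ≤ b) (hbk : 2 * b + 1 ≤ k) {ε : ℝ} (hε : 0 < ε) :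
    ∃ A : ℝ, 0 < A ∧ ∀ (P M q : ℕ) [NeZero q], 1 ≤ M → 4 * M ≤ P → Good k P q →
      6 * k.factorial * M < (P / M) ^ b → ∀ Ms : Finset ℕ, PrM k M Ms → Ms.Nonempty →
      ∀ V Θ : ℝ, 2 * ((P : ℝ) / M + 1) ≤ V → (∀ a : ZMod q, (Th k b P Ms V a : ℝ) ≤ Θ) →
        (#(Lv k P q V) : ℝ) ≤ A * (P : ℝ) ^ ε * q *
          ((P / V) ^ (2 * tri k) * Θ / ((#Ms : ℝ) ^ 2 * (P : ℝ) ^ (k + 1)) +
            (M : ℝ) ^ (2 * b + 3) * (P / V) ^ 2 * P / (P : ℝ) ^ k) := by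
  classical
  have hk : 1 ≤ k := by omega
  obtain ⟨A1, hA1, H1⟩ := bad_sum hb hbk hε
  obtain ⟨A2, hA2, H2⟩ := step2 hk hε
  set A3 : ℝ := A2 * (6 * k.factorial * 2 ^ k * 2 ^ (2 * tri k)) with hA3
  have hA30 : 0 < A3 := by positivity
  refine ⟨A1 + A3, by positivity, ?_⟩
  intro P M q _ hM h4 hG hH Ms hMs hne V Θ hV hΘ
  have hP : (1 : ℝ) ≤ P := by exact_mod_cast (by omega : 1 ≤ P)
  have hM' : (1 : ℝ) ≤ M := by exact_mod_cast hM
  have hV0 : 0 < V := lt_of_lt_of_le (by positivity) hV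
  have hΘ0 : 0 ≤ Θ := (Nat.cast_nonneg _).trans (hΘ 0)
  have hc : (0 : ℝ) < #Ms := by exact_mod_cast hne.card_pos
  have hMs' : ∀ m ∈ Ms, M ≤ m ∧ m ≤ 4 * M := fun m hm => (hMs m hm).2.2
  have hPe : 0 < (P : ℝ) ^ ε := by positivity
  have hq : (P : ℝ) ^ k ≤ q := by
    have h1 := hG.le hk
    have h2 : P ^ k ≤ (8 * k * (P + 1)) ^ (2 * k) :=
      (Nat.pow_le_pow_left (by nlinarith) k).trans (Nat.pow_le_pow_right (by positivity) (by omega))
    exact_mod_cast h2.trans h1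
  set B := (Lv k P q V).filter (Bad k b P M Ms) with hB
  set S := (Lv k P q V).filter (fun a => ¬ Bad k b P M Ms a) with hS
  have hsum : (#(Lv k P q V) : ℝ) = #B + #S := by
    exact_mod_cast (card_filter_add_card_filter_not (s := Lv k P q V) (Bad k b P M Ms)).symm
  have hBle : (#B : ℝ) ≤ A1 * (P : ℝ) ^ ε * q *
      ((M : ℝ) ^ (2 * b + 3) * (P / V) ^ 2 * P / (P : ℝ) ^ k) := by
    have e1 : (#B : ℝ) * V ^ 2 ≤ ∑ a ∈ B, ‖fw k P a‖ ^ 2 := by
      rw [← nsmul_eq_mul]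
      refine card_nsmul_le_sum _ _ _ fun a ha => ?_
      simp only [hB, Lv, mem_filter] at ha
      exact pow_le_pow_left₀ hV0.le ha.1.2 2
    have e2 : ∑ a ∈ B, ‖fw k P a‖ ^ 2 ≤
        ∑ a : ZMod q with Bad k b P M Ms a, ‖fw k P a‖ ^ 2 := by
      refine sum_le_sum_of_subset_of_nonneg (fun a ha => ?_) fun _ _ _ => by positivity
      simp only [hB, mem_filter] at ha
      simp only [mem_filter, mem_univ, true_and]
      exact ha.2
    have e3 := e1.trans (e2.trans (H1 P M q hM h4 hG Ms hMs'))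
    rw [← le_div_iff₀ (by positivity)] at e3
    refine e3.trans (le_of_eq ?_)
    field_simp
  have hSle : (#S : ℝ) ≤ A3 * (P : ℝ) ^ ε * q *
      ((P / V) ^ (2 * tri k) * Θ / ((#Ms : ℝ) ^ 2 * (P : ℝ) ^ (k + 1))) := by
    have hS1 : ∀ a ∈ S, V ≤ ‖fw k P a‖ ∧ ¬ Bad k b P M Ms a := fun a ha => by
      simp only [hS, Lv, mem_filter] at ha
      exact ⟨ha.1.2, ha.2⟩
    have e1 := H2 P M q hM h4 hG S Ms (V / 2) (by positivity) hMs' fun a ha m hm => by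
      have f1 := fw_le_fc k P (hMs m hm).1 a
      have f2 : (M : ℝ) ≤ m := by exact_mod_cast (hMs' m hm).1
      have f3 : (P : ℝ) / m ≤ P / M := by gcongr
      have f4 := (hS1 a ha).1
      linarith
    have e2 := bc_le hb hbk hM h4 hG hH hMs S hS1 hΘ
    have e3 : (1 : ℝ) ≤ 2 ^ k * q / (P : ℝ) ^ k := by
      rw [le_div_iff₀ (by positivity)]
      have : (1 : ℝ) ≤ 2 ^ k := one_le_pow₀ (by norm_num)
      have : (0 : ℝ) ≤ q := by positivity
      nlinarith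
    have e4 : (Bc k P (P / M) S Ms : ℝ) ≤
        (2 * P) * #S * k.factorial * (3 * (2 ^ k * q / (P : ℝ) ^ k)) * Θ := by
      refine e2.trans ?_
      gcongr <;> linarith
    have e5 := e1.trans (mul_le_mul_of_nonneg_left e4 (by positivity))
    rcases Nat.eq_zero_or_pos #S with h0 | h0
    · rw [h0]
      push_cast
      positivity
    have h0' : (0 : ℝ) < #S := by exact_mod_cast h0
    have e6 : ((#S : ℝ) * #Ms * P) ^ 2 * (V / 2 / P) ^ (2 * tri k) =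
        #S * (#S * ((#Ms * P) ^ 2 * (V / 2 / P) ^ (2 * tri k))) := by ring
    rw [e6, ← le_div_iff₀' h0', ← le_div_iff₀ (by positivity)] at e5
    refine e5.trans (le_of_eq ?_)
    rw [hA3, div_pow, div_pow, div_pow]
    field_simp
    ring
  rw [hsum]
  have t1 : 0 ≤ (P / V) ^ (2 * tri k) * Θ / ((#Ms : ℝ) ^ 2 * (P : ℝ) ^ (k + 1)) := by positivity
  have t2 : 0 ≤ (M : ℝ) ^ (2 * b + 3) * (P / V) ^ 2 * P / (P : ℝ) ^ k := by positivity
  have t3 : 0 ≤ (P : ℝ) ^ ε * q := by positivity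
  have t4 := mul_nonneg (mul_nonneg hA1.le t3) t1
  have t5 := mul_nonneg (mul_nonneg hA30.le t3) t2
  nlinarith

end Pool.Agent.MP_927be3_nt.W

end PartCoreII

section PartLevI

open Finset Polynomial

namespace Pool.Agent.MP_927be3_nt.W

theorem levi_card {B : ℝ} (hB : 0 ≤ B) : (#(Icc ⌊-B⌋ ⌊B⌋) : ℝ) ≤ 2 * B + 2 := by
  have h1 : ⌊-B⌋ ≤ ⌊B⌋ + 1 := (Int.floor_mono (by linarith)).trans (Int.le_add_one le_rfl)
  have h2 : ((#(Icc ⌊-B⌋ ⌊B⌋) : ℤ) : ℝ) = ((⌊B⌋ + 1 - ⌊-B⌋ : ℤ) : ℝ) := by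
    rw [Int.card_Icc_of_le _ _ h1]
  push_cast at h2
  linarith [Int.floor_le B, Int.lt_floor_add_one (-B)]

theorem levi_mem {B t : ℝ} (h : |t| ≤ B) : ⌊t⌋ ∈ Icc ⌊-B⌋ ⌊B⌋ :=
  mem_Icc.2 ⟨Int.floor_mono (abs_le.1 h).1, Int.floor_mono (abs_le.1 h).2⟩

open Classical in
theorem few_small {k P q : ℕ} [NeZero q] (hk : 1 ≤ k) (hP : 1 ≤ P) {Q : ℝ} (hQ : 0 < Q)
    (hQP : Q ≤ P) {a : ZMod q} (ha : ¬ Maj k P Q a) :
    (#((Icc (-(P : ℤ)) P).filter fun y : ℤ =>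
      Small ((k : ZMod q) * a * (y : ZMod q)) ((k + 1) * q * P / (P : ℝ) ^ k)) : ℝ) ≤
      (2 * k + 3) * (2 * k + 5) * (P / Q) ^ 2 := by
  have hq : (0 : ℝ) < q := by exact_mod_cast NeZero.pos q
  have hP0 : (0 : ℝ) < P := by exact_mod_cast hP
  have hPk : (0 : ℝ) < (P : ℝ) ^ k := by positivity
  have hu : (1 : ℝ) ≤ P / Q := (one_le_div hQ).2 hQP
  have hex : ∀ y : ℤ, ∃ e : ℤ,
      Small ((k : ZMod q) * a * (y : ZMod q)) ((k + 1) * q * P / (P : ℝ) ^ k) →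
        |(e : ℝ)| ≤ (k + 1) * q * P / (P : ℝ) ^ k ∧
          (e : ZMod q) = (k : ZMod q) * a * (y : ZMod q) := fun y => by
    by_cases h : Small ((k : ZMod q) * a * (y : ZMod q)) ((k + 1) * q * P / (P : ℝ) ^ k)
    · obtain ⟨e, he⟩ := h
      exact ⟨e, fun _ => he⟩
    · exact ⟨0, fun h' => absurd h' h⟩
  choose e he using hex
  have key : ∀ y y' : ℤ, y' < y → (e y : ZMod q) = (k : ZMod q) * a * (y : ZMod q) →
      (e y' : ZMod q) = (k : ZMod q) * a * (y' : ZMod q) →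
      ⌊(k : ℝ) * y / Q⌋ = ⌊(k : ℝ) * y' / Q⌋ →
      ⌊(e y : ℝ) * ((P : ℝ) ^ k / (Q * q))⌋ = ⌊(e y' : ℝ) * ((P : ℝ) ^ k / (Q * q))⌋ → False := by
    intro y y' hlt e1 e2 h1 h2
    have h3 := Int.abs_sub_lt_one_of_floor_eq_floor h1
    have h4 := Int.abs_sub_lt_one_of_floor_eq_floor h2
    obtain ⟨n, hn⟩ := Int.eq_ofNat_of_zero_le (sub_nonneg.2 hlt.le)
    have hn0 : 1 ≤ n := by omega
    have hn' : (y : ℝ) - y' = n := by exact_mod_cast hn
    refine ha ⟨k * n, Nat.mul_pos hk hn0, ?_, e y - e y', ?_, ?_⟩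
    · rw [← sub_div, ← mul_sub, hn', abs_of_nonneg (by positivity), div_lt_one hQ] at h3
      push_cast
      exact h3.le
    · rw [← sub_mul, abs_mul, abs_of_pos (a := (P : ℝ) ^ k / (Q * q)) (by positivity),
        ← mul_div_assoc, div_lt_one (by positivity)] at h4
      rw [le_div_iff₀ hPk]
      push_cast
      exact h4.le
    · have h5 : (y : ZMod q) - (y' : ZMod q) = (n : ZMod q) := by
        rw [← Int.cast_sub, hn, Int.cast_natCast]
      rw [Int.cast_sub, e1, e2, ← mul_sub, h5]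
      push_cast
      ring
  have h1 := card_le_card_of_injOn
    (s := (Icc (-(P : ℤ)) P).filter fun y : ℤ =>
      Small ((k : ZMod q) * a * (y : ZMod q)) ((k + 1) * q * P / (P : ℝ) ^ k))
    (t := Icc ⌊-(k * ((P : ℝ) / Q))⌋ ⌊k * ((P : ℝ) / Q)⌋ ×ˢ
      Icc ⌊-((k + 1) * ((P : ℝ) / Q))⌋ ⌊(k + 1) * ((P : ℝ) / Q)⌋)
    (fun y => (⌊(k : ℝ) * y / Q⌋, ⌊(e y : ℝ) * ((P : ℝ) ^ k / (Q * q))⌋))
    (fun y hy => by
      obtain ⟨h1, h2⟩ := mem_filter.1 (mem_coe.1 hy)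
      have h3 : |(y : ℝ)| ≤ P := by exact_mod_cast abs_le.2 (mem_Icc.1 h1)
      refine mem_coe.2 (mem_product.2 ⟨levi_mem ?_, levi_mem ?_⟩)
      · rw [abs_div, abs_mul, abs_of_pos hQ, Nat.abs_cast, mul_div_assoc]
        gcongr
      · rw [abs_mul, abs_of_pos (a := (P : ℝ) ^ k / (Q * q)) (by positivity)]
        refine (mul_le_mul_of_nonneg_right (he y h2).1 (by positivity)).trans (le_of_eq ?_)
        field_simp)
    (fun y hy y' hy' h => by
      obtain ⟨-, h2⟩ := mem_filter.1 (mem_coe.1 hy)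
      obtain ⟨-, h2'⟩ := mem_filter.1 (mem_coe.1 hy')
      obtain ⟨h3, h4⟩ := Prod.ext_iff.1 h
      by_contra hne
      rcases lt_or_gt_of_ne hne with h5 | h5
      · exact key y' y h5 (he y' h2').2 (he y h2).2 h3.symm h4.symm
      · exact key y y' h5 (he y h2).2 (he y' h2').2 h3 h4)
  rw [card_product] at h1
  refine (Nat.cast_le.2 h1).trans ?_
  rw [Nat.cast_mul]
  have h2 := levi_card (B := k * ((P : ℝ) / Q)) (by positivity)
  have h3 := levi_card (B := (k + 1) * ((P : ℝ) / Q)) (by positivity)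
  calc _ ≤ ((2 * k + 3) * ((P : ℝ) / Q)) * ((2 * k + 5) * ((P : ℝ) / Q)) :=
        mul_le_mul (h2.trans (by linarith)) (h3.trans (by linarith)) (by positivity)
          (by positivity)
    _ = _ := by ring

theorem levi_close {k P q : ℕ} (hk : 2 ≤ k) (hP : 1 ≤ P) {a a' : ZMod q} {x x' : ℕ} (hx : x' ≤ P)
    (h : Close P (gam k a 1 x) (gam k a' 1 x')) :
    Small (a - a') (q / (P : ℝ) ^ k) ∧
      Small ((k : ZMod q) * a * (((x : ℤ) - x' : ℤ) : ZMod q)) ((k + 1) * q * P / (P : ℝ) ^ k) := by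
  obtain ⟨j, rfl⟩ : ∃ j, k = j + 2 := ⟨k - 2, by omega⟩
  have h1 := h ⟨j + 1, by omega⟩
  have h2 := h ⟨j, by omega⟩
  simp only [gam, Nat.cast_one, one_pow, mul_one, show j + 1 + 1 = j + 2 from rfl,
    Nat.choose_self, Nat.sub_self, pow_zero, one_mul] at h1
  simp only [gam, Nat.cast_one, one_pow, mul_one, show j + 2 - (j + 1) = 1 by omega, pow_one,
    show (j + 2).choose (j + 1) = j + 2 from Nat.choose_succ_self_right (j + 1)] at h2
  refine ⟨h1, ?_⟩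
  have h3 := h2.add (h1.mul (-(((j + 2) * x' : ℕ) : ℤ)))
  have hP0 : (0 : ℝ) < P := by exact_mod_cast hP
  have hx' : (x' : ℝ) ≤ P := by exact_mod_cast hx
  convert h3.mono ?_ using 1
  · push_cast
    ring
  · rw [Int.cast_neg, abs_neg, Int.cast_natCast, Nat.abs_cast]
    push_cast
    calc _ ≤ (q : ℝ) / P ^ (j + 1) + (j + 2) * P * (q / P ^ (j + 2)) := by gcongr
      _ = _ := by field_simp; ring

open Classical in
theorem levi_Bc {k P q : ℕ} [NeZero q] (hk : 2 ≤ k) (hP : 1 ≤ P) {Q : ℝ} (hQ : 0 < Q)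
    (hQP : Q ≤ P) (S : Finset (ZMod q)) (hS : ∀ a ∈ S, ¬ Maj k P Q a) :
    (Bc k P P S {1} : ℝ) ≤ #S * (P + 1) *
      ((2 * (q / (P : ℝ) ^ k) + 1) * ((2 * k + 3) * (2 * k + 5) * (P / Q) ^ 2)) := by
  have hT : (#(Tr P S {1}) : ℝ) ≤ #S * (P + 1) := by
    have := card_filter_le (S ×ˢ ({1} : Finset ℕ) ×ˢ range (P + 1))
      fun t => Nat.Coprime t.2.2 t.2.1
    rw [card_product, card_product, card_singleton, card_range, one_mul] at this
    exact_mod_cast this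
  have hm : ∀ t ∈ Tr P S {1}, t.1 ∈ S ∧ t.2.1 = 1 ∧ t.2.2 ≤ P := fun t ht => by
    have := (mem_filter.1 ht).1
    simp only [mem_product, mem_singleton, mem_range] at this
    exact ⟨this.1, this.2.1, by omega⟩
  rw [Bc, card_eq_sum_card_fiberwise (f := Prod.fst) (t := Tr P S {1})
    fun z hz => (mem_product.1 (mem_filter.1 (mem_coe.1 hz)).1).1, Nat.cast_sum]
  refine (sum_le_card_nsmul _ _ ((2 * (q / (P : ℝ) ^ k) + 1) *
    ((2 * k + 3) * (2 * k + 5) * (P / Q) ^ 2)) fun t ht => ?_).trans ?_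
  · obtain ⟨t1, t2, t3⟩ := hm t ht
    refine le_trans ?_ (mul_le_mul (small_card t.1 (D := q / (P : ℝ) ^ k) (by positivity))
      (few_small (by omega) hP hQ hQP (hS _ t1)) (by positivity) (by positivity))
    rw [← Nat.cast_mul, ← card_product, Nat.cast_le]
    refine card_le_card_of_injOn (fun z => (z.2.1, (t.2.2 : ℤ) - z.2.2.2)) (fun z hz => ?_)
      fun z hz z' hz' h => ?_
    · obtain ⟨h1, h2⟩ := mem_filter.1 (mem_coe.1 hz)
      obtain ⟨h3, h4⟩ := mem_filter.1 h1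
      obtain ⟨-, s2, s3⟩ := hm _ (mem_product.1 h3).2
      rw [h2, t2, s2] at h4
      obtain ⟨h5, h6⟩ := levi_close hk hP s3 h4
      exact mem_coe.2 (mem_product.2 ⟨mem_filter.2 ⟨mem_univ _, h5⟩,
        mem_filter.2 ⟨mem_Icc.2 ⟨by dsimp only; omega, by dsimp only; omega⟩, h6⟩⟩)
    · obtain ⟨h1, h2⟩ := mem_filter.1 (mem_coe.1 hz)
      obtain ⟨h1', h2'⟩ := mem_filter.1 (mem_coe.1 hz')
      obtain ⟨-, s2, -⟩ := hm _ (mem_product.1 (mem_filter.1 h1).1).2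
      obtain ⟨-, s2', -⟩ := hm _ (mem_product.1 (mem_filter.1 h1').1).2
      obtain ⟨h3, h4⟩ := Prod.ext_iff.1 h
      dsimp only at h3 h4
      exact Prod.ext (h2.trans h2'.symm) (Prod.ext h3 (Prod.ext (s2.trans s2'.symm) (by omega)))
  · rw [nsmul_eq_mul]
    gcongr

theorem levelI {k : ℕ} (hk : 2 ≤ k) {ε : ℝ} (hε : 0 < ε) : ∃ A : ℝ, 0 < A ∧
    ∀ (P q : ℕ) [NeZero q], 4 ≤ P → Good k P q → ∀ V Q : ℝ, 0 < V → 0 < Q → Q ≤ P →
      (#(Lm k P q V Q) : ℝ) ≤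
        A * (P : ℝ) ^ ε * (P / V) ^ (2 * tri k) * (P / Q) ^ 2 * q / (P : ℝ) ^ (k + 1) := by
  obtain ⟨A, hA, h⟩ := step2 (k := k) (by omega) hε
  refine ⟨A * (6 * ((2 * k + 3) * (2 * k + 5))), by positivity,
    fun P q _ hP hG V Q hV hQ hQP => ?_⟩
  have hm : ∀ a ∈ Lm k P q V Q, V ≤ ‖fw k P a‖ ∧ ¬ Maj k P Q a := fun a ha => by
    simpa [Lm] using ha
  have h1 := h P 1 q le_rfl (by omega) hG (Lm k P q V Q) {1} V hV.le
    (fun m hm => by rw [mem_singleton.1 hm]; omega)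
    (fun a ha m hm' => by rw [mem_singleton.1 hm', fc_one]; exact (hm a ha).1)
  rw [Nat.div_one, card_singleton, Nat.cast_one, mul_one] at h1
  have h2 := levi_Bc hk (by omega) hQ hQP (Lm k P q V Q) fun a ha => (hm a ha).2
  have hP1 : (1 : ℝ) ≤ P := by exact_mod_cast (by omega : 1 ≤ P)
  have hP0 : (0 : ℝ) < P := by linarith
  have hq : (1 : ℝ) ≤ q / (P : ℝ) ^ k := by
    rw [one_le_div (by positivity)]
    have h3 : P ^ k ≤ q := le_trans ((Nat.pow_le_pow_left (by nlinarith) k).trans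
      (Nat.pow_le_pow_right (by positivity) (by omega))) (hG.le (by omega))
    exact_mod_cast h3
  have hs : (0 : ℝ) ≤ #(Lm k P q V Q) := Nat.cast_nonneg _
  generalize (#(Lm k P q V Q) : ℝ) = s at h1 h2 hs
  rcases hs.eq_or_lt with h0 | h0
  · rw [← h0]
    positivity
  have h3 : (s * P) ^ 2 * (V / P) ^ (2 * tri k) ≤ A * (P : ℝ) ^ ε * (s * (2 * P) *
      ((3 * (q / (P : ℝ) ^ k)) * ((2 * k + 3) * (2 * k + 5) * (P / Q) ^ 2))) := by
    refine h1.trans (mul_le_mul_of_nonneg_left (h2.trans ?_) (by positivity))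
    gcongr <;> linarith
  have h4 : (V / P) ^ (2 * tri k) * (P / V) ^ (2 * tri k) = 1 := by
    rw [← mul_pow, div_mul_div_cancel₀ hP0.ne', div_self hV.ne', one_pow]
  have h5 := mul_le_mul_of_nonneg_right h3
    (show 0 ≤ (P / V) ^ (2 * tri k) / (s * P ^ 2) by positivity)
  calc s = (s * P) ^ 2 * ((V / P) ^ (2 * tri k) * (P / V) ^ (2 * tri k)) / (s * P ^ 2) := by
        rw [h4]; field_simp
    _ = _ := by ring
    _ ≤ _ := h5
    _ = _ := by field_simp; ring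

end Pool.Agent.MP_927be3_nt.W

end PartLevI

section PartTheta

open Finset Polynomial

namespace Pool.Agent.MP_927be3_nt.W

theorem theta_ch {q m : ℕ} [NeZero q] [NeZero m] (hd : m ∣ q) (n : ℤ) (x e : ℕ) :
    ch (((q / m : ℕ) : ZMod q) * (n : ZMod q) * (x : ZMod q) ^ e) =
      ch ((n : ZMod m) * (x : ZMod m) ^ e) := by
  have h1 := ch_div hd (n * (x : ℤ) ^ e)
  have h2 := ch_int (q := m) (n * (x : ℤ) ^ e)
  push_cast at h1 h2
  rw [h2, ← h1, mul_assoc]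

theorem theta_chn {q m : ℕ} [NeZero q] [NeZero m] (hd : m ∣ q) (n x e : ℕ) :
    ch (((q / m : ℕ) : ZMod q) * (n : ZMod q) * (x : ZMod q) ^ e) =
      ch ((n : ZMod m) * (x : ZMod m) ^ e) := by
  have := theta_ch hd (n : ℤ) x e
  simpa using this

theorem theta_sum {m : ℕ} [NeZero m] {β : Type} [AddCommMonoid β] (f : ZMod m → β) :
    ∑ n ∈ range m, f (n : ZMod m) = ∑ y : ZMod m, f y := by
  refine Finset.sum_bij' (fun n _ => (n : ZMod m)) (fun y _ => y.val) (fun _ _ => mem_univ _)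
    (fun y _ => mem_range.2 (ZMod.val_lt y)) (fun n hn => ZMod.val_cast_of_lt (mem_range.1 hn))
    (fun y _ => ZMod.natCast_zmod_val y) (fun _ _ => rfl)

theorem theta_parseval {m : ℕ} [NeZero m] (H : ZMod m → ℂ) :
    ∑ n : ZMod m, ‖∑ t : ZMod m, ch (n * t) * H t‖ ^ 2 = m * ∑ t : ZMod m, ‖H t‖ ^ 2 := by
  have h1 : ∀ n : ZMod m, ((‖∑ t : ZMod m, ch (n * t) * H t‖ : ℝ) : ℂ) ^ 2 =
      ∑ t : ZMod m, ∑ s : ZMod m, ch (n * (t - s)) * (H t * (starRingEnd ℂ) (H s)) := by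
    intro n
    rw [← Complex.mul_conj', map_sum, Finset.sum_mul_sum]
    refine sum_congr rfl fun t _ => sum_congr rfl fun s _ => ?_
    rw [mul_sub, ch_sub, map_mul]
    ring
  have h2 : ((∑ n : ZMod m, ‖∑ t : ZMod m, ch (n * t) * H t‖ ^ 2 : ℝ) : ℂ) =
      ((m * ∑ t : ZMod m, ‖H t‖ ^ 2 : ℝ) : ℂ) := by
    push_cast
    simp only [h1]
    rw [sum_comm, mul_sum]
    refine sum_congr rfl fun t _ => ?_
    rw [sum_comm]
    simp only [← sum_mul, ch_orth, sub_eq_zero]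
    rw [sum_eq_single t]
    · rw [if_pos rfl, Complex.mul_conj']
    · intro s _ hs
      rw [if_neg (Ne.symm hs), zero_mul]
    · intro h
      exact absurd (mem_univ t) h
  exact_mod_cast h2

theorem theta_pow {m k : ℕ} [Fact m.Prime] (hk : 1 ≤ k) (G : ZMod m → ℂ) :
    ∑ n : ZMod m, ‖∑ y : ZMod m, ch (n * y ^ k) * G y‖ ^ 2 ≤
      k * (m * ∑ y : ZMod m, ‖G y‖ ^ 2) := by
  have h1 : ∀ n : ZMod m, ∑ y : ZMod m, ch (n * y ^ k) * G y =
      ∑ t : ZMod m, ch (n * t) * ∑ y ∈ univ.filter (fun y : ZMod m => y ^ k = t), G y := by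
    intro n
    rw [← Finset.sum_fiberwise_of_maps_to (t := univ) (g := fun y : ZMod m => y ^ k)
      (fun _ _ => mem_univ _)]
    refine sum_congr rfl fun t _ => ?_
    rw [mul_sum]
    exact sum_congr rfl fun y hy => by rw [(mem_filter.1 hy).2]
  simp only [h1]
  rw [theta_parseval, mul_left_comm]
  refine mul_le_mul_of_nonneg_left ?_ (Nat.cast_nonneg _)
  rw [← Finset.sum_fiberwise_of_maps_to (s := univ) (t := univ) (g := fun y : ZMod m => y ^ k)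
      (fun _ _ => mem_univ _) (fun y => ‖G y‖ ^ 2), mul_sum]
  refine sum_le_sum fun t _ => ?_
  calc ‖∑ y ∈ univ.filter (fun y : ZMod m => y ^ k = t), G y‖ ^ 2
      ≤ (∑ y ∈ univ.filter (fun y : ZMod m => y ^ k = t), ‖G y‖) ^ 2 := by
        gcongr
        exact norm_sum_le _ _
    _ ≤ #(univ.filter (fun y : ZMod m => y ^ k = t)) *
          ∑ y ∈ univ.filter (fun y : ZMod m => y ^ k = t), ‖G y‖ ^ 2 := sq_sum_le_card_mul_sum_sq
    _ ≤ _ := by
        gcongr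
        exact_mod_cast card_roots_le hk t

theorem theta_G {m : ℕ} [NeZero m] (s : Finset ℕ) (c : ℕ → ℂ) (ψ : ZMod m → ℂ) :
    ∑ y : ZMod m, ψ y * (∑ x ∈ s.filter (fun x : ℕ => (x : ZMod m) = y), c x -
        (∑ x ∈ s, c x) / m) =
      ∑ x ∈ s, c x * ψ x - (∑ y : ZMod m, ψ y) / m * ∑ x ∈ s, c x := by
  simp only [mul_sub, sum_sub_distrib]
  congr 1
  · rw [← Finset.sum_fiberwise_of_maps_to (s := s) (t := univ) (g := fun x : ℕ => (x : ZMod m))
      (fun _ _ => mem_univ _)]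
    refine sum_congr rfl fun y _ => ?_
    rw [mul_sum]
    exact sum_congr rfl fun x hx => by rw [(mem_filter.1 hx).2, mul_comm]
  · rw [← sum_mul]
    ring

theorem var_bound {k P q m : ℕ} [NeZero q] (hk : 1 ≤ k) (hm : m.Prime) (hd : m ∣ q) (c : ℕ → ℂ) :
    ∑ n ∈ range m, ‖∑ x ∈ range (P + 1),
          c x * ch (((q / m : ℕ) : ZMod q) * (n : ZMod q) * (x : ZMod q) ^ k) -
        (∑ y ∈ range m, ch (((q / m : ℕ) : ZMod q) * (n : ZMod q) * (y : ZMod q) ^ k)) / m *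
          ∑ x ∈ range (P + 1), c x‖ ^ 2 ≤
      k * ∑ r ∈ Ico 1 m, ‖∑ x ∈ range (P + 1),
        c x * ch (((q / m : ℕ) : ZMod q) * (r : ZMod q) * (x : ZMod q))‖ ^ 2 := by
  have : Fact m.Prime := ⟨hm⟩
  set G : ZMod m → ℂ := fun y => ∑ x ∈ (range (P + 1)).filter (fun x : ℕ => (x : ZMod m) = y), c x -
        (∑ x ∈ range (P + 1), c x) / m with hG
  have hm0 : (m : ℂ) ≠ 0 := by exact_mod_cast hm.ne_zero
  have h1 : ∀ n : ℕ, ∑ x ∈ range (P + 1),
          c x * ch (((q / m : ℕ) : ZMod q) * (n : ZMod q) * (x : ZMod q) ^ k) -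
        (∑ y ∈ range m, ch (((q / m : ℕ) : ZMod q) * (n : ZMod q) * (y : ZMod q) ^ k)) / m *
          ∑ x ∈ range (P + 1), c x = ∑ y : ZMod m, ch ((n : ZMod m) * y ^ k) * G y := by
    intro n
    simp only [theta_chn hd]
    rw [theta_sum (fun y : ZMod m => ch ((n : ZMod m) * y ^ k)), hG,
      theta_G (range (P + 1)) c (fun y : ZMod m => ch ((n : ZMod m) * y ^ k))]
  have h2 : ∀ r ∈ Ico 1 m, ∑ x ∈ range (P + 1),
        c x * ch (((q / m : ℕ) : ZMod q) * (r : ZMod q) * (x : ZMod q)) =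
      ∑ y : ZMod m, ch ((r : ZMod m) * y) * G y := by
    intro r hr
    have h3 : ∀ x : ℕ, ch (((q / m : ℕ) : ZMod q) * (r : ZMod q) * (x : ZMod q)) =
        ch ((r : ZMod m) * (x : ZMod m)) := fun x => by
      simpa only [pow_one] using theta_chn hd r x 1
    have hr0 : (r : ZMod m) ≠ 0 := by
      rw [Ne, ZMod.natCast_eq_zero_iff]
      intro h
      have := Nat.le_of_dvd (mem_Ico.1 hr).1 h
      have := (mem_Ico.1 hr).2
      omega
    have h4 : ∑ y : ZMod m, ch ((r : ZMod m) * y) = 0 := by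
      simp only [mul_comm (r : ZMod m)]
      rw [ch_orth, if_neg hr0]
    simp only [h3]
    rw [hG, theta_G (range (P + 1)) c (fun y : ZMod m => ch ((r : ZMod m) * y)), h4]
    simp
  have h5 : ∑ y : ZMod m, ch (((0 : ℕ) : ZMod m) * y) * G y = 0 := by
    rw [hG, theta_G (range (P + 1)) c (fun y : ZMod m => ch (((0 : ℕ) : ZMod m) * y))]
    simp [hm0]
  simp only [h1]
  rw [theta_sum (fun n : ZMod m => ‖∑ y : ZMod m, ch (n * y ^ k) * G y‖ ^ 2),
    sum_congr (s₁ := Ico 1 m) rfl fun r hr => by rw [h2 r hr]]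
  refine (theta_pow hk G).trans (le_of_eq ?_)
  congr 1
  rw [← theta_parseval, ← theta_sum (fun n : ZMod m => ‖∑ y : ZMod m, ch (n * y) * G y‖ ^ 2),
    range_eq_Ico, sum_eq_sum_Ico_succ_bot hm.pos, h5]
  simp

theorem gauss_sq {k q m : ℕ} [NeZero q] (hk : 1 ≤ k) (hm : m.Prime) (hd : m ∣ q) {n : ℤ}
    (hn : ¬ (m : ℤ) ∣ n) :
    ‖∑ y ∈ range m, ch (((q / m : ℕ) : ZMod q) * (n : ZMod q) * (y : ZMod q) ^ k)‖ ^ 2 ≤
      2 * (k : ℝ) ^ 2 * m := by
  have : Fact m.Prime := ⟨hm⟩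
  simp only [theta_ch hd]
  rw [theta_sum (fun y : ZMod m => ch ((n : ZMod m) * y ^ k))]
  exact ES_sq_le hk (t := (n : ZMod m)) (by rwa [Ne, ZMod.intCast_zmod_eq_zero_iff_dvd])

theorem theta_one {k P q m : ℕ} [NeZero q] (hk : 1 ≤ k) (hm : m.Prime) (hd : m ∣ q) {V : ℝ}
    (hV : 0 < V) (hmV : 8 * (k : ℝ) ^ 2 * ((P : ℝ) + 1) ^ 2 ≤ V ^ 2 * m) (a : ZMod q) :
    (#((range m).filter fun n : ℕ =>
        V ≤ ‖fw k P (a + ((q / m : ℕ) : ZMod q) * (n : ZMod q))‖) : ℝ) ≤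
      1 + 4 / V ^ 2 * (k * ∑ r ∈ Ico 1 m, ‖∑ x ∈ range (P + 1),
        ch (a * (x : ZMod q) ^ k) *
          ch (((q / m : ℕ) : ZMod q) * (r : ZMod q) * (x : ZMod q))‖ ^ 2) := by
  have hv := var_bound (P := P) hk hm hd (fun x : ℕ => ch (a * (x : ZMod q) ^ k))
  set T : ℕ → ℝ := fun n => ‖∑ x ∈ range (P + 1), ch (a * (x : ZMod q) ^ k) *
          ch (((q / m : ℕ) : ZMod q) * (n : ZMod q) * (x : ZMod q) ^ k) -
        (∑ y ∈ range m, ch (((q / m : ℕ) : ZMod q) * (n : ZMod q) * (y : ZMod q) ^ k)) / m *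
          ∑ x ∈ range (P + 1), ch (a * (x : ZMod q) ^ k)‖ ^ 2 with hT
  have hm0 : (0 : ℝ) < m := by exact_mod_cast hm.pos
  have key : ∀ n ∈ range m, (if V ≤ ‖fw k P (a + ((q / m : ℕ) : ZMod q) * (n : ZMod q))‖
      then (1 : ℝ) else 0) ≤ (if n = 0 then 1 else 0) + 4 / V ^ 2 * T n := by
    intro n hn
    have hT0 : 0 ≤ 4 / V ^ 2 * T n := by positivity
    by_cases h0 : n = 0
    · rw [if_pos h0]
      split_ifs <;> linarith
    rw [if_neg h0, zero_add]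
    split_ifs with hb
    swap
    · exact hT0
    have hg := gauss_sq hk hm hd (n := (n : ℤ)) (by
      rw [Int.natCast_dvd_natCast]
      intro h
      have := Nat.le_of_dvd (Nat.pos_of_ne_zero h0) h
      have := mem_range.1 hn
      omega)
    rw [Int.cast_natCast] at hg
    have hf : fw k P (a + ((q / m : ℕ) : ZMod q) * (n : ZMod q)) =
        ∑ x ∈ range (P + 1), ch (a * (x : ZMod q) ^ k) *
          ch (((q / m : ℕ) : ZMod q) * (n : ZMod q) * (x : ZMod q) ^ k) := by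
      unfold fw
      exact sum_congr rfl fun x _ => by rw [add_mul, ch_add]
    rw [hf] at hb
    have hs : ‖∑ x ∈ range (P + 1), ch (a * (x : ZMod q) ^ k)‖ ≤ P + 1 := norm_fw_le k P a
    set S1 := ∑ x ∈ range (P + 1), ch (a * (x : ZMod q) ^ k) *
          ch (((q / m : ℕ) : ZMod q) * (n : ZMod q) * (x : ZMod q) ^ k)
    set S2 := ∑ y ∈ range m, ch (((q / m : ℕ) : ZMod q) * (n : ZMod q) * (y : ZMod q) ^ k)
    set S3 := ∑ x ∈ range (P + 1), ch (a * (x : ZMod q) ^ k)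
    have h1 : ‖S2 / m * S3‖ ^ 2 ≤ (V / 2) ^ 2 := by
      rw [norm_mul, norm_div, Complex.norm_natCast, mul_pow, div_pow]
      calc ‖S2‖ ^ 2 / (m : ℝ) ^ 2 * ‖S3‖ ^ 2
          ≤ 2 * (k : ℝ) ^ 2 * m / (m : ℝ) ^ 2 * ((P : ℝ) + 1) ^ 2 := by gcongr
        _ = 8 * (k : ℝ) ^ 2 * ((P : ℝ) + 1) ^ 2 / (4 * m) := by field_simp; ring
        _ ≤ V ^ 2 * m / (4 * m) := by gcongr
        _ = (V / 2) ^ 2 := by field_simp; ring
    have h2 : ‖S2 / m * S3‖ ≤ V / 2 := (pow_le_pow_iff_left₀ (norm_nonneg _) (by positivity)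
      two_ne_zero).1 h1
    have h3 : V / 2 ≤ ‖S1 - S2 / m * S3‖ := by
      have := norm_sub_norm_le S1 (S2 / m * S3)
      linarith
    have h4 : (V / 2) ^ 2 ≤ T n := by
      simp only [hT]
      gcongr
    calc (1 : ℝ) = 4 / V ^ 2 * (V / 2) ^ 2 := by field_simp; ring
      _ ≤ _ := by gcongr
  rw [natCast_card_filter]
  refine (sum_le_sum key).trans ?_
  rw [sum_add_distrib, ← mul_sum, sum_ite_eq', if_pos (mem_range.2 hm.pos)]
  gcongr

theorem theta1 {k : ℕ} (hk : 1 ≤ k) : ∃ A : ℝ, 0 < A ∧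
    ∀ (P M q : ℕ) [NeZero q], 1 ≤ M → 4 * M ≤ P → M ^ 2 ≤ P → Good k P q →
      ∀ Ms : Finset ℕ, PrM k M Ms → ∀ V : ℝ, 0 < V → A * (P / V) ^ 2 ≤ M →
        ∀ a : ZMod q, (Th k 1 P Ms V a : ℝ) ≤ #Ms + A * (P / V) ^ 2 := by
  have hk1 : (1 : ℝ) ≤ k := by exact_mod_cast hk
  refine ⟨4000 * (k : ℝ) ^ 2, by positivity, fun P M q _ hM hMP hM2 hG Ms hMs V hV hA a => ?_⟩
  have hbig : 8 * (P + 1) ≤ (8 * k * (P + 1)) ^ (2 * k) := by
    calc 8 * (P + 1) ≤ 8 * k * (P + 1) := by nlinarith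
      _ ≤ _ := Nat.le_self_pow (by omega) _
  have hdv : ∀ m ∈ Ms, m ∣ q := fun m hm =>
    hG m (hMs m hm).1.pos (by have := (hMs m hm).2.2.2; omega)
  have hq : 2 * P < q := by have := hG.le hk; omega
  have hP1 : (1 : ℝ) ≤ P := by exact_mod_cast (by omega : 1 ≤ P)
  have hM2' : (M : ℝ) ^ 2 ≤ P := by exact_mod_cast hM2
  have hA' : 4000 * (k : ℝ) ^ 2 * (P : ℝ) ^ 2 ≤ V ^ 2 * M := by
    rw [div_pow, ← mul_div_assoc, div_le_iff₀ (by positivity)] at hA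
    linarith
  have hls := lsieve (R := 4 * M) hq
    ((Ms ×ˢ range (4 * M)).filter fun z => 1 ≤ z.2 ∧ z.2 < z.1) (fun z hz => by
      obtain ⟨h1, h2, h3⟩ := mem_filter.1 hz
      have h4 := hMs z.1 (mem_product.1 h1).1
      exact ⟨h4.1.pos, h4.2.2.2, h3,
        (Nat.coprime_of_lt_prime (by omega) h3 h4.1).symm, hdv _ (mem_product.1 h1).1⟩)
    (fun x : ℕ => ch (a * (x : ZMod q) ^ k))
  rw [sum_finset_product _ Ms (fun m => Ico 1 m) (fun z => by
    simp only [mem_filter, mem_product, mem_range, mem_Ico]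
    constructor
    · exact fun h => ⟨h.1.1, h.2⟩
    · refine fun h => ⟨⟨h.1, ?_⟩, h.2⟩
      have := (hMs _ h.1).2.2.2
      omega)] at hls
  simp only [norm_ch, one_pow, sum_const, card_range, nsmul_eq_mul, mul_one] at hls
  push_cast at hls
  unfold Th
  simp only [pow_one]
  push_cast
  refine (sum_le_sum fun m hm => theta_one hk (hMs m hm).1 (hdv m hm) hV ?_ a).trans ?_
  · have h1 : (M : ℝ) ≤ m := by exact_mod_cast (hMs m hm).2.2.1
    calc 8 * (k : ℝ) ^ 2 * ((P : ℝ) + 1) ^ 2 ≤ 8 * (k : ℝ) ^ 2 * (2 * P) ^ 2 := by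
          gcongr; linarith
      _ ≤ 4000 * (k : ℝ) ^ 2 * (P : ℝ) ^ 2 := by nlinarith [mul_nonneg (sq_nonneg (k : ℝ)) (sq_nonneg (P : ℝ))]
      _ ≤ V ^ 2 * M := hA'
      _ ≤ _ := by gcongr
  rw [sum_add_distrib, ← mul_sum, ← mul_sum, sum_const, nsmul_eq_mul, mul_one]
  refine add_le_add le_rfl ?_
  calc _ ≤ 4 / V ^ 2 * (k * (24 * ((P : ℝ) + 1 + (4 * M) ^ 2) * (P + 1))) := by gcongr
    _ ≤ 4 / V ^ 2 * ((k : ℝ) ^ 2 * (24 * (18 * P) * (2 * P))) := by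
        gcongr
        · nlinarith
        · nlinarith
        · linarith
    _ = 3456 * (k : ℝ) ^ 2 * (P / V) ^ 2 := by field_simp; ring
    _ ≤ _ := by gcongr; norm_num

end Pool.Agent.MP_927be3_nt.W

end PartTheta

section PartWeyl

open Finset Polynomial

namespace Pool.Agent.MP_927be3_nt.W

theorem weyl_per {m : ℕ} (f : ℕ → ℂ) (hf : ∀ x, f (x + m) = f x) (t r : ℕ) :
    ∑ x ∈ range (m * t + r), f x = t * ∑ x ∈ range m, f x + ∑ x ∈ range r, f x := by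
  induction t with
  | zero => simp
  | succ t ih =>
    have h1 : m * (t + 1) + r = m + (m * t + r) := by ring
    rw [h1, sum_range_add]
    have h2 : ∑ x ∈ range (m * t + r), f (m + x) = ∑ x ∈ range (m * t + r), f x :=
      sum_congr rfl fun x _ => by rw [add_comm, hf]
    rw [h2, ih]
    push_cast
    ring

theorem weyl_kill {q w : ℕ} (hd : w ∣ q) : ((q / w : ℕ) : ZMod q) * (w : ZMod q) = 0 := by
  rw [← Nat.cast_mul, Nat.div_mul_cancel hd, ZMod.natCast_self]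

theorem weyl_one {k P q m : ℕ} [NeZero q] (hk : 1 ≤ k) (hm : m.Prime) (hd : m ∣ q) {n : ℤ}
    (hn : ¬ (m : ℤ) ∣ n) :
    ‖fw k P (((q / m : ℕ) : ZMod q) * (n : ZMod q))‖ ≤ 2 * k * ((P : ℝ) + 1) / √m + m := by
  have hm0 : 0 < m := hm.pos
  have hmR : (0 : ℝ) < m := by exact_mod_cast hm0
  have hs : 0 < √(m : ℝ) := Real.sqrt_pos.2 hmR
  have hss : √(m : ℝ) * √(m : ℝ) = m := Real.mul_self_sqrt hmR.le
  set f : ℕ → ℂ := fun y =>
    ch (((q / m : ℕ) : ZMod q) * (n : ZMod q) * (y : ZMod q) ^ k) with hf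
  have hper : ∀ x, f (x + m) = f x := by
    intro x
    obtain ⟨c, hc⟩ := sub_dvd_pow_sub_pow ((x : ZMod q) + m) (x : ZMod q) k
    have h1 : ((x : ZMod q) + m) ^ k = (x : ZMod q) ^ k + m * c := by
      rw [add_sub_cancel_left] at hc
      linear_combination hc
    have h2 := weyl_kill hd
    simp only [hf]
    congr 1
    push_cast
    rw [h1]
    linear_combination (n : ZMod q) * c * h2
  have hG : ‖∑ y ∈ range m, f y‖ ≤ 2 * k * √(m : ℝ) := by
    have h1 : ‖∑ y ∈ range m, f y‖ ^ 2 ≤ 2 * (k : ℝ) ^ 2 * m := gauss_sq hk hm hd hn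
    refine le_of_sq_le_sq ?_ (by positivity)
    have h2 : (2 * k * √(m : ℝ)) ^ 2 = 4 * (k : ℝ) ^ 2 * m := by
      linear_combination 4 * (k : ℝ) ^ 2 * hss
    rw [h2]
    have h3 : 0 ≤ (k : ℝ) ^ 2 * m := by positivity
    linarith
  have hdm : P + 1 = m * ((P + 1) / m) + (P + 1) % m := (Nat.div_add_mod _ _).symm
  have hfw : fw k P (((q / m : ℕ) : ZMod q) * (n : ZMod q)) = ∑ x ∈ range (P + 1), f x := rfl
  rw [hfw, hdm, weyl_per f hper]
  have hr : ‖∑ x ∈ range ((P + 1) % m), f x‖ ≤ m := by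
    refine (norm_sum_le _ _).trans ?_
    have h1 : ∑ x ∈ range ((P + 1) % m), ‖f x‖ = (((P + 1) % m : ℕ) : ℝ) := by
      simp [hf]
    rw [h1]
    exact_mod_cast (Nat.mod_lt _ hm0).le
  have ht : (((P + 1) / m : ℕ) : ℝ) ≤ ((P : ℝ) + 1) / m := by
    have := @Nat.cast_div_le ℝ _ _ _ (P + 1) m
    push_cast at this
    exact this
  refine (norm_add_le _ _).trans (add_le_add ?_ hr)
  rw [norm_mul, Complex.norm_natCast]
  calc _ ≤ ((P : ℝ) + 1) / m * (2 * k * √(m : ℝ)) := by gcongr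
    _ = _ := by
      rw [div_mul_eq_mul_div, div_eq_div_iff hmR.ne' hs.ne']
      linear_combination 2 * (k : ℝ) * ((P : ℝ) + 1) * hss

theorem weyl_class {P m : ℕ} (y : ZMod m) :
    #((range (P + 1)).filter fun x : ℕ => (x : ZMod m) = y) ≤ P / m + 1 := by
  rw [← card_range (P / m + 1)]
  refine card_le_card_of_injOn (fun x => x / m) ?_ ?_
  · intro x hx
    have h1 := mem_range.1 (mem_filter.1 (mem_coe.1 hx)).1
    exact mem_coe.2 (mem_range.2 (Nat.lt_succ_of_le (Nat.div_le_div_right (by omega))))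
  · intro x hx x' hx' h
    have h1 := (mem_filter.1 (mem_coe.1 hx)).2
    have h2 := (mem_filter.1 (mem_coe.1 hx')).2
    have h3 : x % m = x' % m := (ZMod.natCast_eq_natCast_iff' _ _ _).1 (h1.trans h2.symm)
    have h4 : x / m = x' / m := h
    rw [← Nat.div_add_mod x m, ← Nat.div_add_mod x' m, h3, h4]

theorem weyl_red {q m H : ℕ} [NeZero q] (hd : m ∣ q) (hH : 1 ≤ H) {r : ℤ}
    (h : Small (((q / m : ℕ) : ZMod q) * (r : ZMod q)) ((q : ℝ) / H)) :
    ∃ e ∈ Icc (-((m / H : ℕ) : ℤ)) ((m / H : ℕ) : ℤ), (e : ZMod m) = (r : ZMod m) := by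
  obtain ⟨c, hc⟩ := hd
  have hq : q ≠ 0 := NeZero.ne q
  have hm : m ≠ 0 := fun h => hq (by rw [hc, h, zero_mul])
  have hc0 : c ≠ 0 := fun h => hq (by rw [hc, h, mul_zero])
  have h1 : q / m = c := by rw [hc]; exact Nat.mul_div_cancel_left c (Nat.pos_of_ne_zero hm)
  obtain ⟨e, he, h2⟩ := h
  rw [h1] at h2
  have h3 : (e : ZMod q) = (((c : ℤ) * r : ℤ) : ZMod q) := by rw [h2]; push_cast; ring
  obtain ⟨w, hw⟩ := (ZMod.intCast_eq_intCast_iff_dvd_sub _ _ _).1 h3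
  have h4 : e = c * (r - m * w) := by
    have : (q : ℤ) = m * c := by exact_mod_cast hc
    rw [this] at hw
    linear_combination -hw
  refine ⟨r - m * w, ?_, by push_cast; simp⟩
  have hHR : (0 : ℝ) < H := by exact_mod_cast hH
  have hcR : (0 : ℝ) < c := by exact_mod_cast Nat.pos_of_ne_zero hc0
  have h5 : (|r - m * w| : ℤ) * H ≤ m := by
    have h6 : (q : ℝ) = m * c := by exact_mod_cast hc
    rw [h4, h6, le_div_iff₀ hHR] at he
    push_cast at he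
    rw [abs_mul, abs_of_pos hcR] at he
    have h7 : |(r : ℝ) - m * w| * H ≤ m := by
      refine le_of_mul_le_mul_left ?_ hcR
      linarith
    exact_mod_cast h7
  have h8 : (|r - m * w| : ℤ) ≤ ((m / H : ℕ) : ℤ) := by
    rw [Int.natCast_div]
    exact Int.le_ediv_of_mul_le (by exact_mod_cast hH) h5
  exact mem_Icc.2 (abs_le.1 h8)

open Classical in
theorem weyl_cnt {k j P q m H x : ℕ} [NeZero q] (hj : 1 ≤ j) (hjk : j ≤ k) (hm : m.Prime)
    (hd : m ∣ q) (hH : 1 ≤ H) (hHm : H ≤ m) (hmP : m ≤ P) {u : ℤ} (hu : ¬ (m : ℤ) ∣ u) :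
    (#((range (P + 1)).filter fun x' : ℕ => Small (((q / m : ℕ) : ZMod q) * (u : ZMod q) *
      ((x : ZMod q) ^ j - (x' : ZMod q) ^ j)) ((q : ℝ) / H)) : ℝ) ≤ 6 * k * P / H := by
  have : Fact m.Prime := ⟨hm⟩
  have hu0 : (u : ZMod m) ≠ 0 := fun h => hu ((ZMod.intCast_zmod_eq_zero_iff_dvd _ _).1 h)
  have hsub : ((range (P + 1)).filter fun x' : ℕ => Small (((q / m : ℕ) : ZMod q) * (u : ZMod q) *
      ((x : ZMod q) ^ j - (x' : ZMod q) ^ j)) ((q : ℝ) / H)) ⊆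
      (Icc (-((m / H : ℕ) : ℤ)) ((m / H : ℕ) : ℤ)).biUnion fun e =>
        (univ.filter fun y : ZMod m => y ^ j = (x : ZMod m) ^ j - (e : ZMod m) / u).biUnion
          fun y => (range (P + 1)).filter fun x' : ℕ => (x' : ZMod m) = y := by
    intro x' hx'
    obtain ⟨h1, h2⟩ := mem_filter.1 hx'
    have h3 : ((q / m : ℕ) : ZMod q) * (u : ZMod q) * ((x : ZMod q) ^ j - (x' : ZMod q) ^ j) =
        ((q / m : ℕ) : ZMod q) * ((u * ((x : ℤ) ^ j - (x' : ℤ) ^ j) : ℤ) : ZMod q) := by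
      push_cast
      ring
    rw [h3] at h2
    obtain ⟨e, he, h4⟩ := weyl_red hd hH h2
    refine mem_biUnion.2 ⟨e, he, mem_biUnion.2 ⟨(x' : ZMod m), mem_filter.2 ⟨mem_univ _, ?_⟩,
      mem_filter.2 ⟨h1, rfl⟩⟩⟩
    rw [h4]
    push_cast
    field_simp
    ring
  have hcard := (card_le_card hsub).trans (card_biUnion_le_card_mul _ _ (k * (P / m + 1))
    fun e _ => (card_biUnion_le_card_mul _ _ (P / m + 1) fun y _ => weyl_class y).trans
      (Nat.mul_le_mul_right _ ((card_roots_le hj _).trans hjk)))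
  have hI : #(Icc (-((m / H : ℕ) : ℤ)) ((m / H : ℕ) : ℤ)) = 2 * (m / H) + 1 := by
    rw [Int.card_Icc]
    omega
  rw [hI] at hcard
  have hHR : (0 : ℝ) < H := by exact_mod_cast hH
  have hmR : (0 : ℝ) < m := by exact_mod_cast hm.pos
  have h1 : ((m / H : ℕ) : ℝ) ≤ (m : ℝ) / H := Nat.cast_div_le
  have h2 : ((P / m : ℕ) : ℝ) ≤ (P : ℝ) / m := Nat.cast_div_le
  have h3 : (1 : ℝ) ≤ (m : ℝ) / H := by
    rw [le_div_iff₀ hHR, one_mul]
    exact_mod_cast hHm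
  have h4 : (1 : ℝ) ≤ (P : ℝ) / m := by
    rw [le_div_iff₀ hmR, one_mul]
    exact_mod_cast hmP
  calc _ ≤ (((2 * (m / H) + 1) * (k * (P / m + 1)) : ℕ) : ℝ) := by exact_mod_cast hcard
    _ = (2 * ((m / H : ℕ) : ℝ) + 1) * (k * (((P / m : ℕ) : ℝ) + 1)) := by push_cast; ring
    _ ≤ (3 * ((m : ℝ) / H)) * (k * (2 * ((P : ℝ) / m))) := by gcongr <;> linarith
    _ = _ := by field_simp; ring

theorem weyl_gam {k e q m x : ℕ} (hek : e < k) (hd : m ^ (e + 1) ∣ q) (n h : ZMod q) :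
    ∑ i, gam k (((q / m ^ (e + 1) : ℕ) : ZMod q) * n) m x i * h ^ ((i : ℕ) + 1) =
      ∑ i : Fin e, gam k (((q / m ^ (e + 1) : ℕ) : ZMod q) * n) m x (Fin.castLE hek.le i) *
        h ^ ((i : ℕ) + 1) := by
  set a := ((q / m ^ (e + 1) : ℕ) : ZMod q) * n with ha
  set g : ℕ → ZMod q := fun i => (k.choose (i + 1) : ZMod q) * a * (x : ZMod q) ^ (k - (i + 1)) *
    (m : ZMod q) ^ (i + 1) * h ^ (i + 1) with hg
  have h1 : ∑ i, gam k a m x i * h ^ ((i : ℕ) + 1) = ∑ i ∈ range k, g i :=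
    Fin.sum_univ_eq_sum_range g k
  have h2 : ∑ i : Fin e, gam k a m x (Fin.castLE hek.le i) * h ^ ((i : ℕ) + 1) =
      ∑ i ∈ range e, g i := Fin.sum_univ_eq_sum_range g e
  rw [h1, h2]
  refine (sum_subset (range_subset_range.2 hek.le) fun i _ hi => ?_).symm
  obtain ⟨t, rfl⟩ : ∃ t, i = e + t := ⟨i - e, by have := mt mem_range.2 hi; omega⟩
  have h3 := weyl_kill hd
  push_cast at h3
  simp only [hg, ha]
  linear_combination (k.choose (e + t + 1) : ZMod q) * n * (x : ZMod q) ^ (k - (e + t + 1)) *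
    (m : ZMod q) ^ t * h ^ (e + t + 1) * h3

open Classical in
theorem weyl_close {k e P q m H : ℕ} [NeZero q] (he : 1 ≤ e) (hek : e < k) (hm : m.Prime)
    (hkm : k < m) (hd : m ^ (e + 1) ∣ q) (hH : 1 ≤ H) (hHm : H ≤ m) (hmP : m ≤ P) {n : ℤ}
    (hn : ¬ (m : ℤ) ∣ n) (T : Finset ℕ) (hT : T ⊆ range (P + 1)) :
    (#{z ∈ T ×ˢ T | Close H
        (fun i : Fin e => gam k (((q / m ^ (e + 1) : ℕ) : ZMod q) * (n : ZMod q)) m z.1
          (Fin.castLE hek.le i))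
        (fun i : Fin e => gam k (((q / m ^ (e + 1) : ℕ) : ZMod q) * (n : ZMod q)) m z.2
          (Fin.castLE hek.le i))} : ℝ) ≤ (P + 1) * (6 * k * P / H) := by
  obtain ⟨d, rfl⟩ : ∃ d, e = d + 1 := ⟨e - 1, by omega⟩
  have hd1 : m ∣ q := (dvd_pow_self m (by omega)).trans hd
  have hu : ¬ (m : ℤ) ∣ (k.choose (d + 1) : ℤ) * n := by
    intro h
    rcases (Nat.prime_iff_prime_int.1 hm).dvd_or_dvd h with h | h
    · have h1 : m ∣ k.choose (d + 1) := by exact_mod_cast h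
      have h2 : m ∣ k.factorial := by
        rw [← Nat.choose_mul_factorial_mul_factorial hek.le, mul_assoc]
        exact h1.mul_right _
      have := (hm.dvd_factorial).1 h2
      omega
    · exact hn h
  have hqm : q / m ^ (d + 1 + 1) * m ^ (d + 1) = q / m := by
    obtain ⟨c, hc⟩ := hd
    have h0 : 0 < m := hm.pos
    rw [hc, Nat.mul_div_cancel_left _ (by positivity), pow_succ' m (d + 1), mul_assoc,
      Nat.mul_div_cancel_left _ h0, mul_comm]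
  have hqm' : ((q / m ^ (d + 1 + 1) : ℕ) : ZMod q) * (m : ZMod q) ^ (d + 1) =
      ((q / m : ℕ) : ZMod q) := by
    rw [← hqm]
    push_cast
    rfl
  have hHR : (1 : ℝ) ≤ H := by exact_mod_cast hH
  rw [card_filter, sum_product]
  push_cast
  refine (sum_le_card_nsmul _ _ (6 * k * P / H : ℝ) fun x _ => ?_).trans ?_
  · refine le_trans ?_ (weyl_cnt (x := x) (j := k - (d + 1)) (by omega) (Nat.sub_le _ _) hm hd1 hH
      hHm hmP hu)
    rw [sum_boole]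
    refine Nat.cast_le.2 (card_le_card fun x' hx' => ?_)
    obtain ⟨h1, h2⟩ := mem_filter.1 hx'
    refine mem_filter.2 ⟨hT h1, ?_⟩
    have h3 := h2 (Fin.last d)
    simp only [gam, Fin.val_castLE, Fin.val_last] at h3
    convert h3.mono (D' := (q : ℝ) / H) ?_ using 1
    · push_cast
      rw [← hqm']
      ring
    · exact div_le_div_of_nonneg_left (Nat.cast_nonneg _) (by linarith)
        (le_self_pow₀ hHR (by omega))
  · rw [nsmul_eq_mul]
    have h1 : (#T : ℝ) ≤ P + 1 := by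
      have := card_le_card hT
      rw [card_range] at this
      exact_mod_cast this
    gcongr

theorem weyl_fc {k e : ℕ} (he : 1 ≤ e) (hek : e < k) : ∃ A : ℝ, 0 < A ∧
    ∀ (P M m q : ℕ) [NeZero q], 1 ≤ M → 4 * M ≤ P → P ≤ M ^ 2 → Good k P q → m.Prime → k < m →
      M ≤ m → m ≤ 4 * M → ∀ n : ℤ, ¬ (m : ℤ) ∣ n →
        ‖fc k P m (((q / m ^ (e + 1) : ℕ) : ZMod q) * (n : ZMod q))‖ ^ (2 * tri e) *
          ((P / M : ℕ) : ℝ) ^ (1 / 2 : ℝ) ≤ A * (8 * (P : ℝ)) ^ (2 * tri e) := by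
  classical
  obtain ⟨A, hA, hmv⟩ := mv he (ε := 1 / 2) (by norm_num)
  have hk : 1 ≤ k := by omega
  refine ⟨6 * k * A, by positivity, fun P M m q _ hM h4 hPM hG hm hkm hMm hm4 n hn => ?_⟩
  set H := P / M with hHdef
  set a := ((q / m ^ (e + 1) : ℕ) : ZMod q) * (n : ZMod q) with ha
  have hH : 1 ≤ H := (Nat.le_div_iff_mul_le hM).2 (by omega)
  have hHM : H ≤ M := Nat.div_le_of_le_mul (by nlinarith)
  have hHP : H ≤ P := Nat.div_le_self _ _
  have hMH : M * H ≤ P := Nat.mul_div_le _ _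
  have hmP : m ≤ P := hm4.trans h4
  have hbig : k * k * P ^ k < (8 * k * (P + 1)) ^ (2 * k) := by
    rw [mul_pow]
    have h1 : k * k ≤ (8 * k) ^ (2 * k) :=
      calc k * k ≤ (8 * k) ^ 2 := by nlinarith
        _ ≤ _ := Nat.pow_le_pow_right (by omega) (by omega)
    have h2 : P ^ k < (P + 1) ^ (2 * k) :=
      calc P ^ k < (P + 1) ^ k := Nat.pow_lt_pow_left (by omega) (by omega)
        _ ≤ _ := Nat.pow_le_pow_right (by omega) (by omega)
    exact Nat.mul_lt_mul_of_le_of_lt h1 h2 (by positivity)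
  have hd : m ^ (e + 1) ∣ q := by
    refine hG _ (pow_pos hm.pos _) (le_trans ?_ hbig.le)
    calc m ^ (e + 1) ≤ P ^ (e + 1) := Nat.pow_le_pow_left hmP _
      _ ≤ P ^ k := Nat.pow_le_pow_right (by omega) hek
      _ ≤ _ := Nat.le_mul_of_pos_left _ (by positivity)
  have hq : 2 * tri e * H ^ e < q := by
    refine lt_of_le_of_lt ?_ (hbig.trans_le (hG.le hk))
    rw [two_mul_tri]
    exact Nat.mul_le_mul (Nat.mul_le_mul hek.le hek)
      ((Nat.pow_le_pow_left hHP _).trans (Nat.pow_le_pow_right (by omega) hek.le))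
  set T := (range (P + 1)).filter (fun x => Nat.Coprime x m) with hT
  have hTs : T ⊆ range (P + 1) := filter_subset _ _
  have h1 := hmv q H hH hq ℕ T (fun x i => gam k a m x (Fin.castLE hek.le i))
    (fun x => -((x / m : ℕ) : ℤ)) (fun x => (((P - x) / m : ℕ) : ℤ)) (fun x hx => by
      have h0 : x ≤ P := Nat.lt_succ_iff.1 (mem_range.1 (hTs hx))
      have h2 : x / m ≤ H := Nat.div_le_div h0 hMm (by omega)
      have h3 : (P - x) / m ≤ H := Nat.div_le_div (Nat.sub_le _ _) hMm (by omega)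
      constructor <;> omega)
  have h2 := step1 (k := k) (P := P) hm.one_le (by omega) a
  simp only [ha, weyl_gam hek hd] at h2
  have h3 := weyl_close he hek hm hkm hd hH (hHM.trans hMm) hmP hn T hTs
  have h4' : (#T : ℝ) ≤ P + 1 := by
    have := card_le_card hTs
    rw [card_range] at this
    exact_mod_cast this
  obtain ⟨K, hK⟩ : ∃ K, 2 * tri e = K + 2 := ⟨2 * tri e - 2, by have := tri_pos he; omega⟩
  have hHR : (0 : ℝ) < H := by exact_mod_cast hH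
  have hmR : (0 : ℝ) < m := by exact_mod_cast hm.pos
  have h5 : (((P : ℝ) + 1) / (2 * m) * ‖fc k P m a‖) ^ (2 * tri e) ≤
      A * (H : ℝ) ^ (1 / 2 : ℝ) * (H : ℝ) ^ (2 * tri e) * ((P : ℝ) + 1) ^ (2 * tri e - 2) *
        ((P + 1) * (6 * k * P / H)) := by
    refine (pow_le_pow_left₀ (by positivity) h2 _).trans (h1.trans ?_)
    gcongr
  set s := (H : ℝ) ^ (1 / 2 : ℝ) with hs
  have hs0 : 0 < s := Real.rpow_pos_of_pos hHR _
  have hss : s * s = H := by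
    rw [hs, ← Real.rpow_add hHR]
    norm_num
  rw [hK] at h5 ⊢
  rw [Nat.add_sub_cancel, mul_pow, div_pow, div_mul_eq_mul_div,
    div_le_iff₀ (by positivity)] at h5
  have h6 : 2 * (m : ℝ) * H ≤ 8 * P := by
    have : 2 * m * H ≤ 8 * P := by nlinarith
    exact_mod_cast this
  have h7 : (H : ℝ) ^ (K + 2) * (2 * (m : ℝ)) ^ (K + 2) ≤ (8 * (P : ℝ)) ^ (K + 2) := by
    rw [← mul_pow]
    exact pow_le_pow_left₀ (by positivity) (by linarith) _
  refine le_of_mul_le_mul_left ?_ (by positivity : (0 : ℝ) < ((P : ℝ) + 1) ^ (K + 2))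
  calc ((P : ℝ) + 1) ^ (K + 2) * (‖fc k P m a‖ ^ (K + 2) * s)
      = ((P : ℝ) + 1) ^ (K + 2) * ‖fc k P m a‖ ^ (K + 2) * s := by ring
    _ ≤ A * s * (H : ℝ) ^ (K + 2) * ((P : ℝ) + 1) ^ K * ((P + 1) * (6 * k * P / H)) *
        (2 * (m : ℝ)) ^ (K + 2) * s := by gcongr
    _ = 6 * k * A * ((H : ℝ) ^ (K + 2) * (2 * (m : ℝ)) ^ (K + 2)) *
        (((P : ℝ) + 1) ^ (K + 1) * P) * (s * s / H) := by ring
    _ ≤ 6 * k * A * (8 * (P : ℝ)) ^ (K + 2) * (((P : ℝ) + 1) ^ (K + 1) * (P + 1)) *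
        (s * s / H) := by gcongr; linarith
    _ = _ := by rw [hss, div_self hHR.ne']; ring

theorem weyl_hi {k e : ℕ} (he : 1 ≤ e) (hek : e < k) : ∃ A : ℝ, 0 < A ∧
    ∀ (P M m q : ℕ) [NeZero q], 1 ≤ M → 4 * M ≤ P → P ≤ M ^ 2 → Good k P q → m.Prime → k < m →
      M ≤ m → m ≤ 4 * M → ∀ n : ℤ, ¬ (m : ℤ) ∣ n →
        ‖fw k P (((q / m ^ (e + 1) : ℕ) : ZMod q) * (n : ZMod q))‖ ≤
          A * P / ((P : ℝ) / M) ^ (1 / (2 * ((e : ℝ) + 1) ^ 2)) := by
  obtain ⟨A, hA, hfc⟩ := weyl_fc he hek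
  refine ⟨8 * (2 * A + 1) + 2, by positivity,
    fun P M m q _ hM h4 hPM hG hm hkm hMm hm4 n hn => ?_⟩
  have h1 := hfc P M m q hM h4 hPM hG hm hkm hMm hm4 n hn
  have h2 := fw_le_fc k P hm (((q / m ^ (e + 1) : ℕ) : ZMod q) * (n : ZMod q))
  set F := ‖fc k P m (((q / m ^ (e + 1) : ℕ) : ZMod q) * (n : ZMod q))‖ with hF
  have hF0 : 0 ≤ F := norm_nonneg _
  have hMR : (0 : ℝ) < M := by exact_mod_cast hM
  have hH : 1 ≤ P / M := (Nat.le_div_iff_mul_le hM).2 (by omega)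
  have hHR : (1 : ℝ) ≤ ((P / M : ℕ) : ℝ) := by exact_mod_cast hH
  set R := (P : ℝ) / M with hR
  have hR1 : 1 ≤ R := hHR.trans Nat.cast_div_le
  have hR2 : R ≤ 4 * ((P / M : ℕ) : ℝ) := by
    rw [hR, div_le_iff₀ hMR]
    have h3 : P ≤ 4 * (P / M) * M := by
      have := Nat.lt_mul_div_succ P hM
      nlinarith
    exact_mod_cast h3
  have hR3 : R * R ≤ P := by
    rw [hR, div_mul_div_comm, div_le_iff₀ (by positivity)]
    have h3 : P * P ≤ P * (M * M) := Nat.mul_le_mul_left _ (by nlinarith)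
    exact_mod_cast h3
  set θ : ℝ := 1 / (2 * ((e : ℝ) + 1) ^ 2) with hθ
  have he0 : (0 : ℝ) ≤ e := Nat.cast_nonneg _
  have hθ1 : θ ≤ 1 := by
    rw [hθ, div_le_one (by positivity)]
    nlinarith
  have hθ2 : θ * ((2 * tri e : ℕ) : ℝ) ≤ 1 / 2 := by
    rw [two_mul_tri, hθ, div_mul_eq_mul_div, div_le_div_iff₀ (by positivity) (by norm_num)]
    push_cast
    nlinarith
  have hρ : 0 < R ^ θ := Real.rpow_pos_of_pos (by linarith) _
  have h5 : R ^ θ ≤ R := by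
    conv_rhs => rw [← Real.rpow_one R]
    exact Real.rpow_le_rpow_of_exponent_le hR1 hθ1
  have h6 : (R ^ θ) ^ (2 * tri e) ≤ 2 * ((P / M : ℕ) : ℝ) ^ (1 / 2 : ℝ) := by
    rw [← Real.rpow_mul_natCast (by linarith)]
    calc _ ≤ R ^ (1 / 2 : ℝ) := Real.rpow_le_rpow_of_exponent_le hR1 hθ2
      _ ≤ (4 * ((P / M : ℕ) : ℝ)) ^ (1 / 2 : ℝ) :=
        Real.rpow_le_rpow (by linarith) hR2 (by norm_num)
      _ = _ := by
        rw [Real.mul_rpow (by norm_num) (by linarith), show (4 : ℝ) = 2 ^ (2 : ℝ) by norm_num,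
          ← Real.rpow_mul (by norm_num)]
        norm_num
  have hK : 2 * tri e ≠ 0 := by have := tri_pos he; omega
  have h7 : F * R ^ θ ≤ (2 * A + 1) * (8 * P) := by
    refine (pow_le_pow_iff_left₀ (by positivity) (by positivity) hK).1 ?_
    rw [mul_pow, mul_pow (2 * A + 1)]
    calc _ ≤ F ^ (2 * tri e) * (2 * ((P / M : ℕ) : ℝ) ^ (1 / 2 : ℝ)) := by gcongr
      _ ≤ 2 * A * (8 * (P : ℝ)) ^ (2 * tri e) := by linarith
      _ ≤ (2 * A + 1) * (8 * (P : ℝ)) ^ (2 * tri e) := by gcongr; linarith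
      _ ≤ _ := by
        gcongr
        exact le_self_pow₀ (by linarith) hK
  have h8 : (P : ℝ) / m ≤ R := by
    rw [hR]
    gcongr
  rw [le_div_iff₀ hρ]
  calc _ ≤ (F + (R + R)) * R ^ θ := by gcongr; linarith
    _ = F * R ^ θ + 2 * (R * R ^ θ) := by ring
    _ ≤ (2 * A + 1) * (8 * P) + 2 * (R * R) := by gcongr
    _ ≤ _ := by linarith

end Pool.Agent.MP_927be3_nt.W

end PartWeyl

section PartThetaB

open Finset Polynomial

namespace Pool.Agent.MP_927be3_nt.W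

theorem thetab_dvd {k b P M m q : ℕ} (hb : 1 ≤ b) (hbk : b ≤ k) (h4 : 4 * M ≤ P)
    (hG : Good k P q) (hm : m.Prime) (hm4 : m ≤ 4 * M) : m ^ b ∣ q := by
  refine hG _ (pow_pos hm.pos _) ?_
  have h1 : m ≤ 8 * k * (P + 1) := by nlinarith
  calc m ^ b ≤ (8 * k * (P + 1)) ^ b := Nat.pow_le_pow_left h1 _
    _ ≤ (8 * k * (P + 1)) ^ (2 * k) := Nat.pow_le_pow_right (hm.pos.trans_le h1) (by omega)

theorem thetab_fac (m b : ℕ) {n : ℤ} (hn : ¬ (m : ℤ) ^ b ∣ n) :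
    ∃ v : ℕ, v < b ∧ ∃ n' : ℤ, ¬ (m : ℤ) ∣ n' ∧ n = (m : ℤ) ^ v * n' := by
  induction b with
  | zero => simp at hn
  | succ b ih =>
    by_cases h : (m : ℤ) ^ b ∣ n
    · obtain ⟨n', rfl⟩ := h
      refine ⟨b, Nat.lt_succ_self b, n', fun h' => hn ?_, rfl⟩
      rw [pow_succ]
      exact mul_dvd_mul_left _ h'
    · obtain ⟨v, hv, h'⟩ := ih h
      exact ⟨v, hv.trans (Nat.lt_succ_self b), h'⟩

theorem thetab_div {m q b v : ℕ} (hm : 0 < m) (hd : m ^ b ∣ q) (hv : v ≤ b) :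
    q / m ^ b * m ^ v = q / m ^ (b - v) := by
  obtain ⟨c, rfl⟩ := hd
  obtain ⟨d, rfl⟩ := Nat.exists_eq_add_of_le hv
  rw [Nat.mul_div_cancel_left c (pow_pos hm _), Nat.add_sub_cancel_left, pow_add,
    show m ^ v * m ^ d * c = m ^ d * (c * m ^ v) by ring,
    Nat.mul_div_cancel_left _ (pow_pos hm _)]

theorem thetab_all {k : ℕ} (hk : 1 ≤ k) (e : ℕ) (hek : e < k) : ∃ A : ℝ, 0 < A ∧
    ∀ (P M m q : ℕ) [NeZero q], 1 ≤ M → 4 * M ≤ P → P ≤ M ^ 2 → Good k P q → m.Prime → k < m →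
      M ≤ m → m ≤ 4 * M → ∀ n : ℤ, ¬ (m : ℤ) ∣ n →
        ‖fw k P (((q / m ^ (e + 1) : ℕ) : ZMod q) * (n : ZMod q))‖ ≤
          A * P / ((P : ℝ) / M) ^ (1 / (2 * ((e : ℝ) + 1) ^ 2)) := by
  rcases Nat.eq_zero_or_pos e with rfl | he
  · refine ⟨4 * k + 4, by positivity, ?_⟩
    intro P M m q _ hM h4 hP hG hm hkm hMm hm4 n hn
    have hd : m ∣ q := by simpa using thetab_dvd le_rfl hk h4 hG hm hm4
    have h := weyl_one (P := P) hk hm hd hn
    rw [zero_add, pow_one]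
    refine h.trans ?_
    have hM0 : (0 : ℝ) < M := by exact_mod_cast hM
    have h4' : 4 * (M : ℝ) ≤ P := by exact_mod_cast h4
    have hM1 : (1 : ℝ) ≤ M := by exact_mod_cast hM
    have hP' : (P : ℝ) ≤ (M : ℝ) ^ 2 := by exact_mod_cast hP
    have hMm' : (M : ℝ) ≤ m := by exact_mod_cast hMm
    have hm4' : (m : ℝ) ≤ 4 * M := by exact_mod_cast hm4
    have hk' : (0 : ℝ) ≤ k := Nat.cast_nonneg k
    have he : (1 / (2 * (((0 : ℕ) : ℝ) + 1) ^ 2) : ℝ) = 1 / 2 := by norm_num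
    rw [he, ← Real.sqrt_eq_rpow]
    set Z : ℝ := (P : ℝ) / M with hZ
    have hZ1 : 1 ≤ Z := by rw [hZ, le_div_iff₀ hM0]; linarith
    have hZM : Z ≤ M := by rw [hZ, div_le_iff₀ hM0]; nlinarith
    have hs0 : 0 < √Z := Real.sqrt_pos.2 (by linarith)
    have hs1 : √Z ≤ √m := Real.sqrt_le_sqrt (by linarith)
    have hs2 : √Z ≤ Z := by
      rw [Real.sqrt_le_left (by linarith)]; nlinarith
    have hPZ : (P : ℝ) = Z * M := by rw [hZ]; field_simp
    have h1 : 2 * k * ((P : ℝ) + 1) / √m ≤ 4 * k * P / √Z := by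
      have : 2 * k * ((P : ℝ) + 1) ≤ 4 * k * P := by nlinarith
      calc 2 * k * ((P : ℝ) + 1) / √m ≤ 2 * k * ((P : ℝ) + 1) / √Z := by gcongr
        _ ≤ 4 * k * P / √Z := by gcongr
    have h2 : (m : ℝ) ≤ 4 * P / √Z := by
      rw [le_div_iff₀ hs0]
      calc (m : ℝ) * √Z ≤ 4 * M * Z := by gcongr
        _ = 4 * P := by rw [hPZ]; ring
    calc _ ≤ 4 * k * P / √Z + 4 * P / √Z := add_le_add h1 h2
      _ = _ := by ring
  · exact weyl_hi he hek

theorem weyl_level {k b : ℕ} (hb : 1 ≤ b) (hbk : b ≤ k) : ∃ A : ℝ, 0 < A ∧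
    ∀ (P M m q : ℕ) [NeZero q], 1 ≤ M → 4 * M ≤ P → P ≤ M ^ 2 → Good k P q → m.Prime → k < m →
      M ≤ m → m ≤ 4 * M → ∀ n : ℤ, ¬ (m : ℤ) ^ b ∣ n →
        ‖fw k P (((q / m ^ b : ℕ) : ZMod q) * (n : ZMod q))‖ ≤
          A * P / ((P : ℝ) / M) ^ (1 / (2 * (b : ℝ) ^ 2)) := by
  have hk : 1 ≤ k := hb.trans hbk
  choose A hA0 hA using fun e : Fin k => thetab_all hk e e.2
  have hne : (univ : Finset (Fin k)).Nonempty := ⟨⟨0, hk⟩, mem_univ _⟩
  refine ⟨∑ e, A e, sum_pos (fun e _ => hA0 e) hne, ?_⟩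
  intro P M m q _ hM h4 hP hG hm hkm hMm hm4 n hn
  obtain ⟨v, hv, n', hn', rfl⟩ := thetab_fac m b hn
  have hd := thetab_dvd hb hbk h4 hG hm hm4
  have he : b - v - 1 < k := by omega
  have h := hA ⟨b - v - 1, he⟩ P M m q hM h4 hP hG hm hkm hMm hm4 n' hn'
  have he1 : b - v - 1 + 1 = b - v := by omega
  simp only [he1] at h
  have h1 : ((q / m ^ b : ℕ) : ZMod q) * (((m : ℤ) ^ v * n' : ℤ) : ZMod q) =
      ((q / m ^ (b - v) : ℕ) : ZMod q) * (n' : ZMod q) := by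
    rw [← thetab_div hm.pos hd hv.le]
    push_cast
    ring
  rw [h1]
  refine h.trans ?_
  have hM0 : (0 : ℝ) < M := by exact_mod_cast hM
  have h4' : 4 * (M : ℝ) ≤ P := by exact_mod_cast h4
  have hZ1 : 1 ≤ (P : ℝ) / M := by rw [le_div_iff₀ hM0]; linarith
  have hAe : A ⟨b - v - 1, he⟩ ≤ ∑ e, A e :=
    single_le_sum (fun e _ => (hA0 e).le) (mem_univ _)
  have hb' : ((b - v - 1 : ℕ) : ℝ) + 1 ≤ b := by
    have : b - v - 1 + 1 ≤ b := by omega
    exact_mod_cast this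
  have hexp : (1 / (2 * (b : ℝ) ^ 2) : ℝ) ≤ 1 / (2 * (((b - v - 1 : ℕ) : ℝ) + 1) ^ 2) := by
    gcongr
  have hr := Real.rpow_le_rpow_of_exponent_le hZ1 hexp
  have hr0 : 0 < ((P : ℝ) / M) ^ (1 / (2 * (b : ℝ) ^ 2) : ℝ) :=
    Real.rpow_pos_of_pos (by linarith) _
  have hA1 := (hA0 ⟨b - v - 1, he⟩).le
  have hA2 : 0 ≤ ∑ e, A e := hA1.trans hAe
  gcongr

theorem thetab_hm {k P q : ℕ} [NeZero q] {ι : Type} (T : Finset ι) (t : ι → ZMod q) {V : ℝ}
    (hV : 0 < V) (h1 : ∀ i ∈ T, V ≤ ‖fw k P (t i)‖)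
    (h2 : ∀ i ∈ T, ∀ j ∈ T, i ≠ j → ‖fw k P (t i - t j)‖ ≤ V ^ 2 / (2 * ((P : ℝ) + 1))) :
    (#T : ℝ) ≤ 2 * ((P : ℝ) + 1) ^ 2 / V ^ 2 := by
  classical
  have hσ : ∀ i, ∃ s : ℂ, ‖s‖ ≤ 1 ∧ s * fw k P (t i) = (‖fw k P (t i)‖ : ℂ) := by
    intro i
    by_cases h : fw k P (t i) = 0
    · exact ⟨0, by simp, by simp [h]⟩
    · have h0 : ‖fw k P (t i)‖ ≠ 0 := norm_ne_zero_iff.2 h
      refine ⟨(‖fw k P (t i)‖ : ℂ) / fw k P (t i), ?_, div_mul_cancel₀ _ h⟩
      rw [norm_div, Complex.norm_real, norm_norm, div_self h0]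
  choose σ hσ1 hσ2 using hσ
  set g : ℕ → ℂ := fun x => ∑ i ∈ T, σ i * ch (t i * (x : ZMod q) ^ k) with hg
  have hP0 : (0 : ℝ) < (P : ℝ) + 1 := by positivity
  have e1 : (#T : ℝ) * V ≤ ∑ x ∈ range (P + 1), ‖g x‖ := by
    have e2 : ∑ x ∈ range (P + 1), g x = ((∑ i ∈ T, ‖fw k P (t i)‖ : ℝ) : ℂ) := by
      simp only [hg]
      rw [sum_comm]
      push_cast
      refine sum_congr rfl fun i _ => ?_
      rw [← hσ2 i, fw, mul_sum]
    calc (#T : ℝ) * V = ∑ _i ∈ T, V := by simp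
      _ ≤ ∑ i ∈ T, ‖fw k P (t i)‖ := sum_le_sum h1
      _ ≤ ‖∑ x ∈ range (P + 1), g x‖ := by
          rw [e2, Complex.norm_real]; exact le_abs_self _
      _ ≤ _ := norm_sum_le _ _
  have e3 : (∑ x ∈ range (P + 1), ‖g x‖) ^ 2 ≤ ((P : ℝ) + 1) * ∑ x ∈ range (P + 1), ‖g x‖ ^ 2 := by
    have := sq_sum_le_card_mul_sum_sq (s := range (P + 1)) (f := fun x => ‖g x‖)
    simpa using this
  have e4 : ((∑ x ∈ range (P + 1), ‖g x‖ ^ 2 : ℝ) : ℂ) =
      ∑ i ∈ T, ∑ j ∈ T, σ i * (starRingEnd ℂ) (σ j) * fw k P (t i - t j) := by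
    push_cast
    have : ∀ x : ℕ, ((‖g x‖ : ℂ)) ^ 2 = ∑ i ∈ T, ∑ j ∈ T,
        σ i * (starRingEnd ℂ) (σ j) * ch ((t i - t j) * (x : ZMod q) ^ k) := by
      intro x
      rw [← Complex.mul_conj', hg]
      simp only [map_sum, map_mul]
      rw [sum_mul_sum]
      refine sum_congr rfl fun i _ => sum_congr rfl fun j _ => ?_
      rw [sub_mul, ch_sub]
      ring
    simp only [this]
    rw [sum_comm]
    refine sum_congr rfl fun i _ => ?_
    rw [sum_comm]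
    refine sum_congr rfl fun j _ => ?_
    rw [fw, mul_sum]
  have e5 : ∑ x ∈ range (P + 1), ‖g x‖ ^ 2 ≤
      #T * (((P : ℝ) + 1) + #T * (V ^ 2 / (2 * ((P : ℝ) + 1)))) := by
    calc ∑ x ∈ range (P + 1), ‖g x‖ ^ 2 ≤ ‖((∑ x ∈ range (P + 1), ‖g x‖ ^ 2 : ℝ) : ℂ)‖ := by
          rw [Complex.norm_real]; exact le_abs_self _
      _ ≤ ∑ i ∈ T, ‖∑ j ∈ T, σ i * (starRingEnd ℂ) (σ j) * fw k P (t i - t j)‖ := by
          rw [e4]; exact norm_sum_le _ _
      _ ≤ ∑ _i ∈ T, (((P : ℝ) + 1) + #T * (V ^ 2 / (2 * ((P : ℝ) + 1)))) := by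
          refine sum_le_sum fun i hi => (norm_sum_le _ _).trans ?_
          have hb : ∀ j ∈ T, ‖σ i * (starRingEnd ℂ) (σ j) * fw k P (t i - t j)‖ ≤
              (if i = j then ((P : ℝ) + 1) else 0) + V ^ 2 / (2 * ((P : ℝ) + 1)) := by
            intro j hj
            have hn : ‖σ i * (starRingEnd ℂ) (σ j) * fw k P (t i - t j)‖ ≤
                ‖fw k P (t i - t j)‖ := by
              rw [norm_mul, norm_mul, Complex.norm_conj]
              have := mul_le_one₀ (hσ1 i) (norm_nonneg (σ j)) (hσ1 j)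
              exact mul_le_of_le_one_left (norm_nonneg _) this
            refine hn.trans ?_
            split_ifs with hij
            · have := norm_fw_le k P (t i - t j)
              have h0 : 0 ≤ V ^ 2 / (2 * ((P : ℝ) + 1)) := by positivity
              linarith
            · rw [zero_add]; exact h2 i hi j hj hij
          refine (sum_le_sum hb).trans ?_
          rw [sum_add_distrib, sum_ite_eq, if_pos hi]
          simp
      _ = _ := by rw [sum_const, nsmul_eq_mul]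
  rcases Nat.eq_zero_or_pos #T with h0 | h0
  · rw [h0, Nat.cast_zero]; positivity
  have hT : (0 : ℝ) < #T := by exact_mod_cast h0
  have e6 : ((#T : ℝ) * V) ^ 2 ≤
      ((P : ℝ) + 1) * (#T * (((P : ℝ) + 1) + #T * (V ^ 2 / (2 * ((P : ℝ) + 1))))) :=
    (pow_le_pow_left₀ (by positivity) e1 2).trans (e3.trans (by gcongr))
  have e7 : ((P : ℝ) + 1) * (#T * (((P : ℝ) + 1) + #T * (V ^ 2 / (2 * ((P : ℝ) + 1))))) =
      #T * (((P : ℝ) + 1) ^ 2 + #T * V ^ 2 / 2) := by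
    field_simp
  rw [e7] at e6
  rw [le_div_iff₀ (by positivity)]
  have e8 : (#T : ℝ) * (#T * V ^ 2) ≤ #T * (((P : ℝ) + 1) ^ 2 + #T * V ^ 2 / 2) := by
    calc _ = ((#T : ℝ) * V) ^ 2 := by ring
      _ ≤ _ := e6
  have e9 := le_of_mul_le_mul_left e8 hT
  linarith

theorem hm_bound {k P q : ℕ} [NeZero q] (T : Finset (ZMod q)) {V : ℝ} (hV : 0 < V)
    (h1 : ∀ t ∈ T, V ≤ ‖fw k P t‖)
    (h2 : ∀ t ∈ T, ∀ t' ∈ T, t ≠ t' → ‖fw k P (t - t')‖ ≤ V ^ 2 / (2 * ((P : ℝ) + 1))) :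
    (#T : ℝ) ≤ 2 * ((P : ℝ) + 1) ^ 2 / V ^ 2 :=
  thetab_hm T id hV h1 h2

theorem thetab {k b : ℕ} (hb : 1 ≤ b) (hbk : b ≤ k) : ∃ A : ℝ, 0 < A ∧
    ∀ (P M q : ℕ) [NeZero q], 1 ≤ M → 4 * M ≤ P → P ≤ M ^ 2 → Good k P q →
      ∀ Ms : Finset ℕ, PrM k M Ms → ∀ V : ℝ, 0 < V →
        A * (P / V) ^ 2 ≤ ((P : ℝ) / M) ^ (1 / (2 * (b : ℝ) ^ 2)) →
        ∀ a : ZMod q, (Th k b P Ms V a : ℝ) ≤ 8 * #Ms * (P / V) ^ 2 := by
  obtain ⟨A, hA0, hA⟩ := weyl_level hb hbk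
  refine ⟨4 * A, by positivity, ?_⟩
  intro P M q _ hM h4 hP hG Ms hMs V hV hAV a
  have hP1 : (1 : ℝ) ≤ P := by
    have : 1 ≤ P := by omega
    exact_mod_cast this
  have key : ∀ m ∈ Ms, (#((range (m ^ b)).filter fun n : ℕ =>
      V ≤ ‖fw k P (a + ((q / m ^ b : ℕ) : ZMod q) * (n : ZMod q))‖) : ℝ) ≤ 8 * (P / V) ^ 2 := by
    intro m hm
    obtain ⟨hp, hkm, hMm, hm4⟩ := hMs m hm
    refine (thetab_hm (k := k) (P := P) _
      (fun n : ℕ => a + ((q / m ^ b : ℕ) : ZMod q) * (n : ZMod q)) hV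
      (fun i hi => (mem_filter.1 hi).2) ?_).trans ?_
    · intro i hi j hj hij
      have hi' := mem_range.1 (mem_filter.1 hi).1
      have hj' := mem_range.1 (mem_filter.1 hj).1
      have hnd : ¬ (m : ℤ) ^ b ∣ (i : ℤ) - j := by
        intro hd
        have h0 : (i : ℤ) - j = 0 := by
          refine Int.eq_zero_of_abs_lt_dvd hd ?_
          have hi2 : (i : ℤ) < (m : ℤ) ^ b := by exact_mod_cast hi'
          have hj2 : (j : ℤ) < (m : ℤ) ^ b := by exact_mod_cast hj'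
          rw [abs_lt]
          constructor <;> omega
        omega
      have h := hA P M m q hM h4 hP hG hp hkm hMm hm4 _ hnd
      have e : a + ((q / m ^ b : ℕ) : ZMod q) * (i : ZMod q) -
          (a + ((q / m ^ b : ℕ) : ZMod q) * (j : ZMod q)) =
          ((q / m ^ b : ℕ) : ZMod q) * (((i : ℤ) - j : ℤ) : ZMod q) := by
        rw [Int.cast_sub, Int.cast_natCast, Int.cast_natCast]
        ring
      rw [e]
      refine h.trans ?_
      have h0 : 0 < 4 * A * ((P : ℝ) / V) ^ 2 := by positivity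
      calc _ ≤ A * P / (4 * A * ((P : ℝ) / V) ^ 2) := by gcongr
        _ = V ^ 2 / (2 * (2 * (P : ℝ))) := by field_simp; ring
        _ ≤ _ := by gcongr; linarith
    · rw [div_pow, ← mul_div_assoc]
      gcongr ?_ / _
      nlinarith
  rw [Th]
  push_cast
  calc _ ≤ ∑ _m ∈ Ms, 8 * ((P : ℝ) / V) ^ 2 := sum_le_sum key
    _ = _ := by rw [sum_const, nsmul_eq_mul]; ring

end Pool.Agent.MP_927be3_nt.W

end PartThetaB

section PartPrimes

open Finset Polynomial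

namespace Pool.Agent.MP_927be3_nt.W

theorem primes_aux1 (M : ℕ) :
    Chebyshev.theta ((4 * M : ℕ) : ℝ) - Chebyshev.theta (M : ℝ) ≤
      Real.log (4 * M) * #((Icc M (4 * M)).filter Nat.Prime) := by
  rw [Chebyshev.theta_eq_sum_Icc, Chebyshev.theta_eq_sum_Icc, Nat.floor_natCast, Nat.floor_natCast,
    sub_le_iff_le_add]
  have hsub : (Icc 0 (4 * M)).filter Nat.Prime ⊆
      (Icc M (4 * M)).filter Nat.Prime ∪ (Icc 0 M).filter Nat.Prime := by
    intro p hp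
    simp only [mem_filter, mem_Icc, mem_union] at hp ⊢
    rcases le_total M p with h | h
    · exact Or.inl ⟨⟨h, hp.1.2⟩, hp.2⟩
    · exact Or.inr ⟨⟨hp.1.1, h⟩, hp.2⟩
  have hnn : ∀ p : ℕ, 0 ≤ Real.log (p : ℝ) := fun p => Real.log_natCast_nonneg p
  refine (sum_le_sum_of_subset_of_nonneg hsub fun p _ _ => hnn p).trans ?_
  have hu := sum_union_inter (s₁ := (Icc M (4 * M)).filter Nat.Prime)
    (s₂ := (Icc 0 M).filter Nat.Prime) (f := fun p : ℕ => Real.log (p : ℝ))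
  have hi : 0 ≤ ∑ p ∈ (Icc M (4 * M)).filter Nat.Prime ∩ (Icc 0 M).filter Nat.Prime,
      Real.log (p : ℝ) := sum_nonneg fun p _ => hnn p
  have hb : ∑ p ∈ (Icc M (4 * M)).filter Nat.Prime, Real.log (p : ℝ) ≤
      Real.log (4 * M) * #((Icc M (4 * M)).filter Nat.Prime) := by
    rw [mul_comm (Real.log _), ← nsmul_eq_mul]
    refine sum_le_card_nsmul _ _ _ fun p hp => ?_
    simp only [mem_filter, mem_Icc] at hp
    have h1 : (0 : ℝ) < p := by exact_mod_cast hp.2.pos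
    have h2 : (p : ℝ) ≤ 4 * M := by exact_mod_cast hp.1.2
    exact Real.log_le_log h1 h2
  linarith

theorem primes_many : ∃ M0 : ℕ, ∀ M : ℕ, M0 ≤ M →
    (M : ℝ) ≤ Real.log (4 * M) * #((Icc M (4 * M)).filter Nat.Prime) := by
  obtain ⟨C, hC⟩ := Chebyshev.psi_sub_theta_le_mul_sqrt
  refine ⟨⌈(3 * (6 + 2 * |C|)) ^ 2⌉₊ + 1, fun M hM => ?_⟩
  have hM1 : 1 ≤ M := by omega
  have hM1' : (1 : ℝ) ≤ M := by exact_mod_cast hM1
  have hM2 : (3 * (6 + 2 * |C|)) ^ 2 ≤ (M : ℝ) :=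
    (Nat.le_ceil _).trans (by exact_mod_cast (by omega))
  refine le_trans ?_ (primes_aux1 M)
  have h1 := Chebyshev.psi_ge (4 * M)
  have h2 := hC ((4 * M : ℕ) : ℝ)
  have h3 := Chebyshev.theta_le_log4_mul_x (x := (M : ℝ)) (by positivity)
  have h4 : Real.log 4 = 2 * Real.log 2 := by
    rw [show (4 : ℝ) = 2 ^ 2 by norm_num, Real.log_pow]; norm_num
  obtain ⟨t, ht0, ht⟩ : ∃ t : ℝ, 0 ≤ t ∧ (M : ℝ) = t ^ 2 :=
    ⟨√M, Real.sqrt_nonneg _, (Real.sq_sqrt (by positivity)).symm⟩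
  have hA : 0 ≤ |C| := abs_nonneg C
  have ht1 : 3 * (6 + 2 * |C|) ≤ t :=
    (pow_le_pow_iff_left₀ (by positivity) ht0 two_ne_zero).1 (ht ▸ hM2)
  have h5 : √((4 * M : ℕ) : ℝ) = 2 * t := by
    rw [Nat.cast_mul, ht, show ((4 : ℕ) : ℝ) * t ^ 2 = (2 * t) ^ 2 by push_cast; ring,
      Real.sqrt_sq (by positivity)]
  have h6 : Real.log (((4 * M : ℕ) : ℝ) + 1) ≤ 6 * t := by
    have h7 : ((4 * M : ℕ) : ℝ) + 1 ≤ (3 * t) ^ 2 := by push_cast; nlinarith
    have h8 : 0 < 3 * t := by linarith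
    refine (Real.log_le_log (by positivity) h7).trans ?_
    rw [Real.log_pow]
    have := Real.log_le_sub_one_of_pos h8
    push_cast
    linarith
  have h9 : C * (2 * t) ≤ |C| * (2 * t) :=
    mul_le_mul_of_nonneg_right (le_abs_self C) (by positivity)
  have h10 := Real.log_two_gt_d9
  have h11 : (6 + 2 * |C|) * t ≤ t ^ 2 / 3 := by nlinarith
  rw [h5] at h2
  rw [h4] at h3
  have h12 : (((4 * M : ℕ) : ℝ)) = 4 * M := by push_cast; ring
  have h13 : (M : ℝ) * 0.69 ≤ M * Real.log 2 :=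
    mul_le_mul_of_nonneg_left (by linarith) (by positivity)
  have h14 : ((4 * M : ℕ) : ℝ) * Real.log 2 = 4 * (M * Real.log 2) := by rw [h12]; ring
  nlinarith

theorem primes_eps (k : ℕ) {ε : ℝ} (hε : 0 < ε) : ∃ A : ℝ, 1 ≤ A ∧ ∀ M : ℕ, A ≤ M →
    ∃ Ms : Finset ℕ, PrM k M Ms ∧ Ms.Nonempty ∧ (M : ℝ) ≤ A * (M : ℝ) ^ ε * #Ms := by
  obtain ⟨M0, h0⟩ := primes_many
  have hp : 0 ≤ (4 : ℝ) ^ ε / ε := by positivity
  have hk0 : (0 : ℝ) ≤ k := by positivity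
  have hM0 : (0 : ℝ) ≤ M0 := by positivity
  refine ⟨1 + k + M0 + 4 ^ ε / ε, by linarith, fun M hM => ?_⟩
  have hk : k < M := by exact_mod_cast (show (k : ℝ) < M by linarith)
  have hM' : M0 ≤ M := by exact_mod_cast (show (M0 : ℝ) ≤ M by linarith)
  have hpos : (0 : ℝ) < M := by linarith
  have h1 := h0 M hM'
  refine ⟨(Icc M (4 * M)).filter Nat.Prime, fun m hm => ?_, ?_, h1.trans ?_⟩
  · simp only [mem_filter, mem_Icc] at hm
    exact ⟨hm.2, by omega, hm.1.1, hm.1.2⟩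
  · rw [nonempty_iff_ne_empty]
    intro h
    rw [h, card_empty, Nat.cast_zero, mul_zero] at h1
    linarith
  · refine mul_le_mul_of_nonneg_right ?_ (by positivity)
    refine (Real.log_le_rpow_div (by positivity) hε).trans ?_
    rw [Real.mul_rpow (by norm_num) hpos.le, mul_div_right_comm]
    exact mul_le_mul_of_nonneg_right (by linarith) (by positivity)

end Pool.Agent.MP_927be3_nt.W

end PartPrimes
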