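import Pool.Agent.MP_927be3_nt.Up.C

/-! Level sets; major arc approximation. -/

section PartLevII

open Finset Polynomial

namespace Pool.Agent.MP_927be3_nt.W

theorem levii_ceil {M : ℝ} (hM : 1 ≤ M) :
    1 ≤ ⌈M⌉₊ ∧ M ≤ ⌈M⌉₊ ∧ (⌈M⌉₊ : ℝ) ≤ 2 * M := by
  refine ⟨Nat.one_le_ceil_iff.2 (by linarith), Nat.le_ceil M, ?_⟩
  have := Nat.ceil_lt_add_one (a := M) (by linarith)
  linarith

theorem levii_gen {k b : ℕ} (hb : 1 ≤ b) (hbk : 2 * b + 1 ≤ k) {ε : ℝ} (hε : 0 < ε) :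
    ∃ A : ℝ, 4 ≤ A ∧ ∀ (P q : ℕ) [NeZero q], Good k P q → ∀ V M T : ℝ, 0 < V → A ≤ M → 0 ≤ T →
      4 * (P / V) ^ 2 ≤ M → 4 * ⌈M⌉₊ ≤ P → 6 * k.factorial * ⌈M⌉₊ < (P / ⌈M⌉₊) ^ b →
      (∀ Ms : Finset ℕ, PrM k ⌈M⌉₊ Ms →
        ∀ a : ZMod q, (Th k b P Ms V a : ℝ) ≤ (#Ms + M) * T) →
      (#(Lv k P q V) : ℝ) ≤ A * (P : ℝ) ^ ε * q *
        ((P / V) ^ (2 * tri k) * T / (M * (P : ℝ) ^ (k + 1)) +
          M ^ (2 * b + 3) * (P / V) ^ 2 * P / (P : ℝ) ^ k) := by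
  obtain ⟨A0, hA0, H0⟩ := levelII_core hb hbk (ε := ε / 2) (by positivity)
  obtain ⟨Ap, hAp, Hp⟩ := primes_eps k (ε := ε / 4) (by positivity)
  set C : ℝ := 2 * Ap ^ 2 + 2 ^ (2 * b + 3) with hC
  have hC0 : 0 < C := by positivity
  have hAC : 0 < A0 * C := by positivity
  refine ⟨4 + Ap + A0 * C, by linarith, ?_⟩
  intro P q _ hG V M T hV hM hT hY h4 hH hTh
  have hM1 : 1 ≤ M := by linarith
  obtain ⟨m1, m2, m3⟩ := levii_ceil hM1
  set N := ⌈M⌉₊ with hN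
  have hP : (1 : ℝ) ≤ P := by exact_mod_cast (by omega : 1 ≤ P)
  have hN1 : (1 : ℝ) ≤ N := by exact_mod_cast m1
  have hNP : (N : ℝ) ≤ P := by exact_mod_cast (by omega : N ≤ P)
  obtain ⟨Ms, hMs, hne, hc⟩ := Hp N (by linarith)
  have hc1 : (1 : ℝ) ≤ #Ms := by exact_mod_cast hne.card_pos
  have hV2 : 2 * ((P : ℝ) / N + 1) ≤ V := by
    have e1 : (1 : ℝ) ≤ P / N := by rw [le_div_iff₀ (by linarith)]; linarith
    have e2 : (P : ℝ) / N ≤ P / M := by gcongr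
    have e3 : 4 * ((P : ℝ) / V) ≤ M := by
      have := two_mul_le_add_sq ((P : ℝ) / V) 1
      linarith
    have e4 : (P : ℝ) / M ≤ V / 4 := by
      rw [div_le_iff₀ (by linarith)]
      rw [← mul_div_assoc, div_le_iff₀ hV] at e3
      linarith
    linarith
  have h1 := H0 P N q m1 h4 hG hH Ms hMs hne V _ hV2 (hTh Ms hMs)
  set E : ℝ := (P : ℝ) ^ (ε / 4) with hE
  have hE1 : 1 ≤ E := Real.one_le_rpow hP (by positivity)
  have hE2 : (P : ℝ) ^ (ε / 2) = E ^ 2 := by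
    rw [hE, ← Real.rpow_natCast, ← Real.rpow_mul (by linarith)]
    congr 1
    push_cast
    ring
  have hE4 : (P : ℝ) ^ ε = E ^ 2 * E ^ 2 := by
    rw [← hE2, ← Real.rpow_add (by linarith)]
    congr 1
    ring
  have hE3 : 1 ≤ E ^ 2 := one_le_pow₀ hE1
  have hc2 : M ≤ Ap * E * #Ms := by
    refine m2.trans (hc.trans ?_)
    have : (N : ℝ) ^ (ε / 4) ≤ E := Real.rpow_le_rpow (by linarith) hNP (by positivity)
    gcongr
  have hu : 1 ≤ Ap * E := one_le_mul_of_one_le_of_one_le hAp hE1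
  have h2 : ((#Ms : ℝ) + M) / (#Ms : ℝ) ^ 2 ≤ 2 * (Ap * E) ^ 2 / M := by
    rw [div_le_div_iff₀ (by positivity) (by linarith)]
    have e1 : M * M ≤ (Ap * E * #Ms) * (Ap * E * #Ms) := by gcongr
    have e2 : (#Ms : ℝ) ≤ Ap * E * #Ms := le_mul_of_one_le_left (by positivity) hu
    have e3 : (#Ms : ℝ) * M ≤ (Ap * E * #Ms) * (Ap * E * #Ms) := by gcongr
    linarith
  have h3 : (P / V) ^ (2 * tri k) * ((#Ms + M) * T) / ((#Ms : ℝ) ^ 2 * (P : ℝ) ^ (k + 1)) ≤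
      C * E ^ 2 * ((P / V) ^ (2 * tri k) * T / (M * (P : ℝ) ^ (k + 1))) := by
    have e1 : (P / V) ^ (2 * tri k) * ((#Ms + M) * T) / ((#Ms : ℝ) ^ 2 * (P : ℝ) ^ (k + 1)) =
        ((#Ms + M) / (#Ms : ℝ) ^ 2) * ((P / V) ^ (2 * tri k) * T / (P : ℝ) ^ (k + 1)) := by
      field_simp
    have e2 : C * E ^ 2 * ((P / V) ^ (2 * tri k) * T / (M * (P : ℝ) ^ (k + 1))) =
        (C * E ^ 2 / M) * ((P / V) ^ (2 * tri k) * T / (P : ℝ) ^ (k + 1)) := by
      field_simp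
    rw [e1, e2]
    refine mul_le_mul_of_nonneg_right (h2.trans ?_) (by positivity)
    have e3 : 2 * (Ap * E) ^ 2 ≤ C * E ^ 2 := by
      have : (0 : ℝ) ≤ 2 ^ (2 * b + 3) * E ^ 2 := by positivity
      rw [hC]
      linarith
    gcongr
  have h5 : (N : ℝ) ^ (2 * b + 3) * (P / V) ^ 2 * P / (P : ℝ) ^ k ≤
      C * E ^ 2 * (M ^ (2 * b + 3) * (P / V) ^ 2 * P / (P : ℝ) ^ k) := by
    have e1 : (N : ℝ) ^ (2 * b + 3) ≤ C * E ^ 2 * M ^ (2 * b + 3) := by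
      refine (pow_le_pow_left₀ (by linarith) m3 _).trans ?_
      rw [mul_pow]
      refine mul_le_mul_of_nonneg_right ?_ (by positivity)
      have : (2 : ℝ) ^ (2 * b + 3) ≤ C := le_add_of_nonneg_left (by positivity)
      exact this.trans (le_mul_of_one_le_right hC0.le hE3)
    calc (N : ℝ) ^ (2 * b + 3) * (P / V) ^ 2 * P / (P : ℝ) ^ k
        ≤ (C * E ^ 2 * M ^ (2 * b + 3)) * (P / V) ^ 2 * P / (P : ℝ) ^ k := by gcongr
      _ = _ := by ring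
  refine h1.trans ?_
  rw [hE2, hE4]
  calc A0 * E ^ 2 * q * ((P / V) ^ (2 * tri k) * ((#Ms + M) * T) /
          ((#Ms : ℝ) ^ 2 * (P : ℝ) ^ (k + 1)) +
        (N : ℝ) ^ (2 * b + 3) * (P / V) ^ 2 * P / (P : ℝ) ^ k)
      ≤ A0 * E ^ 2 * q * (C * E ^ 2 * ((P / V) ^ (2 * tri k) * T / (M * (P : ℝ) ^ (k + 1))) +
        C * E ^ 2 * (M ^ (2 * b + 3) * (P / V) ^ 2 * P / (P : ℝ) ^ k)) := by gcongr
    _ = (A0 * C) * (E ^ 2 * E ^ 2) * q * ((P / V) ^ (2 * tri k) * T / (M * (P : ℝ) ^ (k + 1)) +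
        M ^ (2 * b + 3) * (P / V) ^ 2 * P / (P : ℝ) ^ k) := by ring
    _ ≤ _ := by
      gcongr
      linarith

theorem levelII {k : ℕ} (hk : 3 ≤ k) {ε : ℝ} (hε : 0 < ε) : ∃ A : ℝ, 0 < A ∧
    ∀ (P q : ℕ) [NeZero q], Good k P q → ∀ V M : ℝ, 0 < V → V ≤ P + 1 → A ≤ M →
      A * (P / V) ^ 2 ≤ M → A * M ^ 2 ≤ P →
      (#(Lv k P q V) : ℝ) ≤ A * (P : ℝ) ^ ε * q *
        ((P / V) ^ (2 * tri k) / (M * (P : ℝ) ^ (k + 1)) +
          M ^ 5 * (P / V) ^ 2 * P / (P : ℝ) ^ k) := by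
  obtain ⟨A0, hA0, H0⟩ := levii_gen (k := k) (b := 1) le_rfl (by omega) hε
  obtain ⟨At, hAt, Ht⟩ := theta1 (k := k) (by omega)
  have hf : (1 : ℝ) ≤ k.factorial := by exact_mod_cast Nat.factorial_pos k
  refine ⟨A0 + At + 4 * (6 * k.factorial + 1), by linarith, ?_⟩
  intro P q _ hG V M hV _ hM hY hP
  have hM1 : 1 ≤ M := by linarith
  obtain ⟨m1, m2, m3⟩ := levii_ceil hM1
  have hY0 : 0 ≤ ((P : ℝ) / V) ^ 2 := by positivity
  have h1 : (6 * k.factorial + 1) * ⌈M⌉₊ ^ 2 ≤ P := by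
    have e1 : ((⌈M⌉₊ : ℝ)) ^ 2 ≤ (2 * M) ^ 2 := pow_le_pow_left₀ (by positivity) m3 2
    have e2 : (6 * (k.factorial : ℝ) + 1) * (⌈M⌉₊ : ℝ) ^ 2 ≤ P := by
      have e3 : 0 ≤ (A0 + At) * M ^ 2 := by
        have : 0 ≤ A0 + At := by linarith
        positivity
      have e4 := mul_le_mul_of_nonneg_left e1 (by linarith : 0 ≤ 6 * (k.factorial : ℝ) + 1)
      linarith
    exact_mod_cast e2
  have hf' := Nat.factorial_pos k
  have g1 : ⌈M⌉₊ ≤ ⌈M⌉₊ ^ 2 := Nat.le_self_pow (by norm_num) _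
  have g2 : ⌈M⌉₊ ^ 2 ≤ k.factorial * ⌈M⌉₊ ^ 2 := Nat.le_mul_of_pos_left _ hf'
  have h2 : 4 * ⌈M⌉₊ ≤ P := by linarith
  have h3 : ⌈M⌉₊ ^ 2 ≤ P := by linarith [Nat.zero_le (k.factorial * ⌈M⌉₊ ^ 2)]
  have h4 : 6 * k.factorial * ⌈M⌉₊ < (P / ⌈M⌉₊) ^ 1 := by
    rw [pow_one, Nat.lt_iff_add_one_le, Nat.le_div_iff_mul_le m1]
    linarith
  have g3 : ∀ c : ℝ, c ≤ A0 + At + 4 * (6 * k.factorial + 1) → c * ((P : ℝ) / V) ^ 2 ≤ M :=
    fun c hc => (mul_le_mul_of_nonneg_right hc hY0).trans hY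
  have h5 := H0 P q hG V M 1 hV (by linarith) zero_le_one (g3 _ (by linarith)) h2 h4
    fun Ms hMs a => by
      have e1 := g3 At (by linarith)
      have := Ht P _ q m1 h2 h3 hG Ms hMs V hV (by linarith) a
      linarith
  rw [mul_one] at h5
  refine h5.trans ?_
  gcongr
  linarith

theorem levelIIb {k b : ℕ} (hb : 1 ≤ b) (hbk : 2 * b + 1 ≤ k) {ε : ℝ} (hε : 0 < ε) :
    ∃ A : ℝ, 0 < A ∧ ∀ (P q : ℕ) [NeZero q], Good k P q → ∀ V M : ℝ, 0 < V → V ≤ P + 1 →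
      A ≤ M → (P : ℝ) ≤ M ^ 2 → A * M ^ (b + 1) ≤ (P : ℝ) ^ b →
      A * (P / V) ^ 2 ≤ (P / M) ^ (1 / (2 * (b : ℝ) ^ 2)) →
      (#(Lv k P q V) : ℝ) ≤ A * (P : ℝ) ^ ε * q *
        ((P / V) ^ (2 * tri k + 2) / (M * (P : ℝ) ^ (k + 1)) +
          M ^ (2 * b + 3) * (P / V) ^ 2 * P / (P : ℝ) ^ k) := by
  obtain ⟨A0, hA0, H0⟩ := levii_gen hb hbk hε
  obtain ⟨At, hAt, Ht⟩ := thetab (k := k) hb (by omega)
  have hf : (1 : ℝ) ≤ k.factorial := by exact_mod_cast Nat.factorial_pos k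
  have p8 : (0 : ℝ) < 8 ^ b := by positivity
  have p4 : (0 : ℝ) < 12 * k.factorial * 4 ^ b := by positivity
  set A : ℝ := 8 * A0 + 2 * At + 8 ^ b + 12 * k.factorial * 4 ^ b with hA
  refine ⟨A, by linarith, ?_⟩
  intro P q _ hG V M hV _ hM hP hb1 hY
  have hM1 : 1 ≤ M := by linarith
  obtain ⟨m1, m2, m3⟩ := levii_ceil hM1
  set N := ⌈M⌉₊ with hN
  have hY0 : 0 ≤ ((P : ℝ) / V) ^ 2 := by positivity
  have hMb : 0 < M ^ b := by positivity
  have h1 : 8 * M ≤ P := by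
    refine le_of_pow_le_pow_left₀ (n := b) (by omega) (by positivity) ?_
    refine le_trans ?_ hb1
    rw [mul_pow, pow_succ]
    have e1 : (8 : ℝ) ^ b ≤ A := by linarith
    have e2 : M ^ b ≤ M ^ b * M := le_mul_of_one_le_right hMb.le hM1
    gcongr
  have h2 : 4 * N ≤ P := by
    have : (4 : ℝ) * N ≤ P := by linarith
    exact_mod_cast this
  have h3 : P ≤ N ^ 2 := by
    have : (P : ℝ) ≤ (N : ℝ) ^ 2 := hP.trans (pow_le_pow_left₀ (by linarith) m2 2)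
    exact_mod_cast this
  have h4 : 6 * k.factorial * N < (P / N) ^ b := by
    have e1 : 1 ≤ P / N := (Nat.le_div_iff_mul_le m1).2 (by omega)
    have e2 : P ≤ 2 * (P / N) * N := by
      have := Nat.lt_mul_div_succ P m1
      have := Nat.mul_le_mul_left N e1
      linarith
    have e3 : (P : ℝ) ≤ 4 * M * (P / N : ℕ) := by
      have f1 : (P : ℝ) ≤ 2 * (P / N : ℕ) * N := by exact_mod_cast e2
      have f2 := mul_le_mul_of_nonneg_left m3 (by positivity : (0 : ℝ) ≤ (P / N : ℕ))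
      linarith
    have e4 := hb1.trans (pow_le_pow_left₀ (by positivity) e3 b)
    rw [mul_pow, mul_pow, pow_succ] at e4
    have e5 : A * M ≤ 4 ^ b * ((P / N : ℕ) : ℝ) ^ b := by
      refine le_of_mul_le_mul_left ?_ hMb
      linarith
    have e6 : 12 * k.factorial * 4 ^ b * M < A * M := by
      refine mul_lt_mul_of_pos_right ?_ (by linarith)
      linarith
    have e7 : 12 * k.factorial * M < ((P / N : ℕ) : ℝ) ^ b := by
      refine lt_of_mul_lt_mul_left (a := (4 : ℝ) ^ b) ?_ (by positivity)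
      linarith
    have e8 : 6 * (k.factorial : ℝ) * N < ((P / N : ℕ) : ℝ) ^ b := by
      have := mul_le_mul_of_nonneg_left m3 (by linarith : (0 : ℝ) ≤ k.factorial)
      linarith
    exact_mod_cast e8
  set r : ℝ := 1 / (2 * (b : ℝ) ^ 2) with hr
  have hb' : (1 : ℝ) ≤ b := by exact_mod_cast hb
  have r0 : 0 ≤ r := by positivity
  have r1 : r ≤ 1 := by
    rw [hr, div_le_one (by positivity)]
    have := one_le_pow₀ (n := 2) hb'
    linarith
  have z1 : (1 : ℝ) ≤ P / M := by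
    rw [le_div_iff₀ (by linarith)]
    linarith
  have h5 : A * ((P : ℝ) / V) ^ 2 ≤ M := by
    refine hY.trans ((Real.rpow_le_self_of_one_le z1 r1).trans ?_)
    rw [div_le_iff₀ (by linarith)]
    linarith
  have h6 : At * ((P : ℝ) / V) ^ 2 ≤ ((P : ℝ) / N) ^ r := by
    have e1 : (P : ℝ) / M ≤ 2 * (P / N) := by
      rw [← mul_div_assoc, div_le_div_iff₀ (by linarith) (by linarith)]
      have := mul_le_mul_of_nonneg_left m3 (by positivity : (0 : ℝ) ≤ P)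
      linarith
    have e2 := Real.rpow_le_rpow (by linarith) e1 r0
    rw [Real.mul_rpow (by norm_num) (by positivity)] at e2
    have e3 : (2 : ℝ) ^ r ≤ 2 := Real.rpow_le_self_of_one_le (by norm_num) r1
    have e4 : 0 ≤ ((P : ℝ) / N) ^ r := by positivity
    have e5 := mul_le_mul_of_nonneg_right (by linarith : 2 * At ≤ A) hY0
    have e6 := mul_le_mul_of_nonneg_right e3 e4
    linarith
  have h7 := H0 P q hG V M (8 * (P / V) ^ 2) hV (by linarith) (by positivity)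
    ((mul_le_mul_of_nonneg_right (by linarith) hY0).trans h5) h2 h4
    fun Ms hMs a => by
      have := Ht P _ q m1 h2 h3 hG Ms hMs V hV h6 a
      have := mul_nonneg (by linarith : 0 ≤ M) hY0
      linarith
  refine h7.trans ?_
  have t1 : 0 ≤ M ^ (2 * b + 3) * (P / V) ^ 2 * P / (P : ℝ) ^ k := by positivity
  calc A0 * (P : ℝ) ^ ε * q * ((P / V) ^ (2 * tri k) * (8 * (P / V) ^ 2) / (M * (P : ℝ) ^ (k + 1)) +
        M ^ (2 * b + 3) * (P / V) ^ 2 * P / (P : ℝ) ^ k)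
      ≤ A0 * (P : ℝ) ^ ε * q * ((P / V) ^ (2 * tri k) * (8 * (P / V) ^ 2) /
          (M * (P : ℝ) ^ (k + 1)) + 8 * (M ^ (2 * b + 3) * (P / V) ^ 2 * P / (P : ℝ) ^ k)) := by
        gcongr
        linarith
    _ = (8 * A0) * (P : ℝ) ^ ε * q * ((P / V) ^ (2 * tri k + 2) / (M * (P : ℝ) ^ (k + 1)) +
        M ^ (2 * b + 3) * (P / V) ^ 2 * P / (P : ℝ) ^ k) := by ring
    _ ≤ _ := by
      gcongr
      linarith

end Pool.Agent.MP_927be3_nt.W

end PartLevII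

section PartGlue

open Finset Polynomial

namespace Pool.Agent.MP_927be3_nt.W

theorem glue_lm_le (k P q : ℕ) [NeZero q] (V Q : ℝ) :
    (#(Lm k P q V Q) : ℝ) ≤ #(Lv k P q V) := by
  refine Nat.cast_le.2 (card_le_card fun a ha => ?_)
  simp only [Lm, Lv, mem_filter, mem_univ, true_and] at ha ⊢
  exact ha.1

open Classical in
theorem glue_lm_split (k P q : ℕ) [NeZero q] (V Q Q' : ℝ) :
    (#(Lm k P q V Q) : ℝ) ≤ #(Lm k P q V Q') + #{a : ZMod q | Maj k P Q' a} := by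
  rw [← Nat.cast_add]
  refine Nat.cast_le.2 ((card_le_card fun a ha => ?_).trans (card_union_le _ _))
  simp only [Lm, mem_filter, mem_univ, true_and, mem_union] at ha ⊢
  by_cases h : Maj k P Q' a
  · exact Or.inr h
  · exact Or.inl ⟨ha.1, h⟩

/-- the lower bound for `Y ^ s` in the regime of the trivial major arc count -/
theorem glue_pow {s t : ℕ} (hs : 2 * t + 4 < s) {P Y θ : ℝ} (hP : 1 ≤ P) (hY : 0 ≤ Y)
    (hθ : θ * (2 * s + t + 2) ≤ 1) (h : P ^ (1 - 2 * θ) ≤ Y ^ (t + 2)) :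
    P ^ 2 * P ^ θ ≤ Y ^ s := by
  have hP0 : 0 < P := by linarith
  have hs' : (2 * t + 5 : ℝ) ≤ s := by exact_mod_cast hs
  refine le_of_pow_le_pow_left₀ (n := t + 2) (by omega) (by positivity) ?_
  calc (P ^ 2 * P ^ θ) ^ (t + 2) = P ^ ((2 + θ) * ((t + 2 : ℕ) : ℝ)) := by
        rw [Real.rpow_mul hP0.le, Real.rpow_natCast, Real.rpow_add hP0, Real.rpow_two]
    _ ≤ P ^ ((1 - 2 * θ) * (s : ℝ)) := by
        refine Real.rpow_le_rpow_of_exponent_le hP ?_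
        push_cast
        nlinarith
    _ = (P ^ (1 - 2 * θ)) ^ s := by rw [Real.rpow_mul hP0.le, Real.rpow_natCast]
    _ ≤ (Y ^ (t + 2)) ^ s := by gcongr
    _ = (Y ^ s) ^ (t + 2) := by rw [← pow_mul, ← pow_mul, mul_comm]

theorem lb_glue {k s t w j : ℕ} (hk : 2 ≤ k) (hst : s + t = k * (k + 1)) (ht : 1 ≤ t)
    (hs : 2 * t + 4 < s) (hM : Mom k w j) (hw : 2 * w < s) (hj : j < k)
    (h : Mid k s t (2 * w) (k - j)) {c : ℝ} (hc : 2 ≤ c) : LB k s c := by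
  obtain ⟨η, AM, hη, hAM, P0, hMid⟩ := h
  obtain ⟨θ, hθ0, hθη, hθs⟩ : ∃ θ : ℝ, 0 < θ ∧ 2 * θ ≤ η ∧ θ * (2 * s + t + 2) ≤ 1 := by
    refine ⟨min (η / 2) (1 / (2 * s + t + 2)), lt_min (by linarith) (by positivity), ?_, ?_⟩
    · have := min_le_left (η / 2) (1 / (2 * s + t + 2 : ℝ))
      linarith
    · rw [← le_div_iff₀ (by positivity)]
      exact min_le_right _ _
  obtain ⟨A3, hA3, h3⟩ := level3 (by omega) hM hθ0
  obtain ⟨A1, hA1, h1⟩ := levelI hk hθ0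
  have hc0 : 0 < c := by linarith
  refine ⟨θ, A3 + AM + A1 * c ^ 2 + A1 + 3, hθ0, by positivity, P0 + w + 4, ?_⟩
  intro P hP q _ hG V hV1 hVP
  have hP4 : (4 : ℝ) ≤ P := by exact_mod_cast (show 4 ≤ P by omega)
  have hP1 : (1 : ℝ) ≤ P := by linarith
  have hP0 : (0 : ℝ) < P := by linarith
  have hV0 : 0 < V := by linarith
  have hq0 : (0 : ℝ) < q := by exact_mod_cast NeZero.pos q
  have htri : 2 * tri k = s + t := by rw [two_mul_tri, hst]
  have e3 := h3 P (by omega) (by omega) q hG V hV0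
  have eM := hMid P (by omega) q hG V hV1 hVP
  have eI := h1 P q (by omega) hG V (V / c) hV0 (by positivity)
    (by rw [div_le_iff₀ hc0]; nlinarith)
  have eP := h1 P q (by omega) hG V P hV0 hP0 le_rfl
  have eJ := maj_card (k := k) (by omega) (show 1 ≤ P by omega) hG hP0.le
  have eL := glue_lm_le k P q V (V / c)
  have eS := glue_lm_split k P q V (V / c) P
  have hPV : (P : ℝ) / (V / c) = c * (P / V) := by field_simp
  rw [htri, hPV] at eI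
  rw [htri, div_self hP0.ne', one_pow, mul_one] at eP
  have hY : 0 < (P : ℝ) / V := by positivity
  generalize (P : ℝ) / V = Y at *
  generalize (#(Lm k P q V (V / c)) : ℝ) = N at *
  have hT : 0 < (P : ℝ) ^ θ := by positivity
  have hη2 : (P : ℝ) ^ θ * (P : ℝ) ^ θ ≤ (P : ℝ) ^ η := by
    rw [← Real.rpow_add hP0]
    exact Real.rpow_le_rpow_of_exponent_le hP1 (by linarith)
  have hT1 : 1 ≤ (P : ℝ) ^ θ := Real.one_le_rpow hP1 hθ0.le
  set R : ℝ := Y ^ s * q / ((P : ℝ) ^ k * (P : ℝ) ^ θ) with hR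
  have hR0 : 0 ≤ R := by positivity
  have goal : ∀ B : ℝ, N ≤ B * R → B ≤ A3 + AM + A1 * c ^ 2 + A1 + 3 →
      N ≤ (A3 + AM + A1 * c ^ 2 + A1 + 3) * Y ^ s * q / ((P : ℝ) ^ k * (P : ℝ) ^ θ) := by
    intro B hB hB'
    calc N ≤ B * R := hB
      _ ≤ (A3 + AM + A1 * c ^ 2 + A1 + 3) * R := by gcongr
      _ = _ := by rw [hR]; ring
  have hA1c : 0 < A1 * c ^ 2 := by positivity
  -- a bound `Y ^ u ≤ P / (T * T)` turns the first level bound into a multiple of `R`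
  have key : ∀ Z : ℝ, Z * ((P : ℝ) ^ θ * (P : ℝ) ^ θ) ≤ P →
      (P : ℝ) ^ θ * (Y ^ s * Z) * q / (P : ℝ) ^ (k + 1) ≤ R := by
    intro Z hZ
    rw [hR, div_le_div_iff₀ (by positivity) (by positivity)]
    calc (P : ℝ) ^ θ * (Y ^ s * Z) * q * ((P : ℝ) ^ k * (P : ℝ) ^ θ)
        = (Y ^ s * q * (P : ℝ) ^ k) * (Z * ((P : ℝ) ^ θ * (P : ℝ) ^ θ)) := by ring
      _ ≤ (Y ^ s * q * (P : ℝ) ^ k) * P := by gcongr
      _ = _ := by ring
  by_cases c3 : Y ^ (s - 2 * w) ≤ (P : ℝ) ^ (((k - j : ℕ) : ℝ) + η)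
  · by_cases c2 : (P : ℝ) ^ (1 - η) ≤ Y ^ t
    · refine goal AM ((eL.trans (eM c2 c3)).trans ?_) (by linarith)
      rw [hR, ← mul_div_assoc, ← mul_assoc]
      have : (P : ℝ) ^ θ ≤ (P : ℝ) ^ η := Real.rpow_le_rpow_of_exponent_le hP1 (by linarith)
      gcongr
    · by_cases c1 : (P : ℝ) ^ (1 - 2 * θ) ≤ Y ^ (t + 2)
      · have hs2 := glue_pow hs hP1 hY.le hθs c1
        have k1 : Y ^ t * ((P : ℝ) ^ θ * (P : ℝ) ^ θ) ≤ P := by
          calc Y ^ t * ((P : ℝ) ^ θ * (P : ℝ) ^ θ) ≤ (P : ℝ) ^ (1 - η) * (P : ℝ) ^ η := by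
                have := (not_le.1 c2).le
                gcongr
            _ = P := by rw [← Real.rpow_add hP0, sub_add_cancel, Real.rpow_one]
        have k2 : 3 * (P : ℝ) ^ 2 * q / (P : ℝ) ^ k ≤ 3 * R := by
          rw [hR, ← mul_div_assoc, div_le_div_iff₀ (by positivity) (by positivity)]
          calc 3 * (P : ℝ) ^ 2 * q * ((P : ℝ) ^ k * (P : ℝ) ^ θ)
              = 3 * q * (P : ℝ) ^ k * ((P : ℝ) ^ 2 * (P : ℝ) ^ θ) := by ring
            _ ≤ 3 * q * (P : ℝ) ^ k * Y ^ s := by gcongr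
            _ = _ := by ring
        have k3 : A1 * (P : ℝ) ^ θ * Y ^ (s + t) * q / (P : ℝ) ^ (k + 1) ≤ A1 * R := by
          calc _ = A1 * ((P : ℝ) ^ θ * (Y ^ s * Y ^ t) * q / (P : ℝ) ^ (k + 1)) := by ring
            _ ≤ A1 * R := by gcongr; exact key _ k1
        refine goal (A1 + 3) ?_ (by linarith)
        linarith
      · have k1 : Y ^ (t + 2) * ((P : ℝ) ^ θ * (P : ℝ) ^ θ) ≤ P := by
          calc Y ^ (t + 2) * ((P : ℝ) ^ θ * (P : ℝ) ^ θ)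
              ≤ (P : ℝ) ^ (1 - 2 * θ) * ((P : ℝ) ^ θ * (P : ℝ) ^ θ) := by
                have := (not_le.1 c1).le
                gcongr
            _ = P := by
                rw [← Real.rpow_add hP0, ← Real.rpow_add hP0,
                  show 1 - 2 * θ + (θ + θ) = 1 by ring, Real.rpow_one]
        refine goal (A1 * c ^ 2) (eI.trans ?_) (by linarith)
        calc _ = A1 * c ^ 2 *
              ((P : ℝ) ^ θ * (Y ^ s * Y ^ (t + 2)) * q / (P : ℝ) ^ (k + 1)) := by ring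
          _ ≤ A1 * c ^ 2 * R := by gcongr; exact key _ k1
  · refine goal A3 ((eL.trans e3).trans ?_) (by linarith)
    have k1 : (P : ℝ) ^ (k - j) * ((P : ℝ) ^ θ * (P : ℝ) ^ θ) ≤ Y ^ (s - 2 * w) := by
      refine le_trans ?_ (not_le.1 c3).le
      rw [Real.rpow_add hP0, Real.rpow_natCast]
      gcongr
    have k2 : (P : ℝ) ^ k = (P : ℝ) ^ j * (P : ℝ) ^ (k - j) := by
      rw [← pow_add, Nat.add_sub_cancel' hj.le]
    have k3 : Y ^ s = Y ^ (2 * w) * Y ^ (s - 2 * w) := by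
      rw [← pow_add, Nat.add_sub_cancel' hw.le]
    rw [hR, ← mul_div_assoc, div_le_div_iff₀ (by positivity) (by positivity), k2, k3]
    calc _ = A3 * Y ^ (2 * w) * q * (P : ℝ) ^ j *
          ((P : ℝ) ^ (k - j) * ((P : ℝ) ^ θ * (P : ℝ) ^ θ)) := by ring
      _ ≤ A3 * Y ^ (2 * w) * q * (P : ℝ) ^ j * Y ^ (s - 2 * w) := by gcongr
      _ = _ := by ring

theorem lb_mono {k s s' : ℕ} {c : ℝ} (h : LB k s c) (hs : s ≤ s') : LB k s' c := by
  obtain ⟨δ, A, hδ, hA, P0, h⟩ := h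
  refine ⟨δ, A * 2 ^ (s' - s), hδ, by positivity, P0 + 1, ?_⟩
  intro P hP q _ hG V hV1 hVP
  have hP1 : (1 : ℝ) ≤ P := by exact_mod_cast (show 1 ≤ P by omega)
  have hV0 : 0 < V := by linarith
  refine (h P (by omega) q hG V hV1 hVP).trans ?_
  have h2 : 1 ≤ 2 * ((P : ℝ) / V) := by
    rw [← mul_div_assoc, le_div_iff₀ hV0]
    linarith
  have h3 : ((P : ℝ) / V) ^ s ≤ 2 ^ (s' - s) * ((P : ℝ) / V) ^ s' := by
    calc ((P : ℝ) / V) ^ s = 1 * ((P : ℝ) / V) ^ s := (one_mul _).symm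
      _ ≤ (2 * ((P : ℝ) / V)) ^ (s' - s) * ((P : ℝ) / V) ^ s := by
          gcongr
          exact one_le_pow₀ h2
      _ = 2 ^ (s' - s) * ((P : ℝ) / V) ^ s' := by
          rw [mul_pow, mul_assoc, ← pow_add, Nat.sub_add_cancel hs]
  rw [mul_assoc A (2 ^ (s' - s))]
  gcongr

end Pool.Agent.MP_927be3_nt.W

end PartGlue

section PartMidA

open Finset Polynomial

namespace Pool.Agent.MP_927be3_nt.W

theorem mida_real {s t w m σ η : ℝ} (hη : 0 < η) (hs : η * s ≤ 1 / 100) (ht : 1 ≤ t)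
    (hw : w ≤ s) (hm : 0 ≤ m) (h1 : 4 * m + 1 ≤ w) (h2 : 2 * m * t + 1 ≤ 3 * w)
    (h3 : 7 * t + 6 ≤ 3 * s) (h4 : t + 13 ≤ s) (a1 : 1 - η ≤ t * σ) (a2 : w * σ ≤ m + η) :
    0 ≤ σ ∧ η + 2 * (max (2 * σ) (t * σ - 1) + 2 * η) ≤ 1 ∧
      5 * (max (2 * σ) (t * σ - 1) + 2 * η) + 2 * σ + 1 + 2 * η ≤ s * σ := by
  have hw0 : 0 < w := by linarith
  have e1 : η * w ≤ 1 / 100 := le_trans (mul_le_mul_of_nonneg_left hw hη.le) hs
  have e2 : η * t ≤ 1 / 100 := le_trans (mul_le_mul_of_nonneg_left (by linarith) hη.le) hs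
  have e3 : η ≤ 1 / 100 := by nlinarith
  have f1 : 0 ≤ σ := by
    by_contra h
    push Not at h
    nlinarith
  have f2 : 4 * σ + 5 * η ≤ 1 := by
    by_contra h
    push Not at h
    have := mul_lt_mul_of_pos_left h hw0
    nlinarith
  have f3 : 2 * (t * σ) + 9 * η ≤ 3 := by
    by_contra h
    push Not at h
    have b1 := mul_lt_mul_of_pos_left h hw0
    have b2 := mul_le_mul_of_nonneg_left a2 (by linarith : 0 ≤ t)
    nlinarith
  have f4 : 13 * η ≤ σ := by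
    by_contra h
    push Not at h
    have := mul_lt_mul_of_pos_left h (by linarith : 0 < t)
    nlinarith
  have g1 : (t + 13) * σ ≤ s * σ := mul_le_mul_of_nonneg_right h4 f1
  have g2 : (7 * t + 6) * σ ≤ 3 * s * σ := mul_le_mul_of_nonneg_right h3 f1
  refine ⟨f1, ?_, ?_⟩
  · rcases le_total (2 * σ) (t * σ - 1) with h | h
    · rw [max_eq_right h]; linarith
    · rw [max_eq_left h]; linarith
  · rcases le_total (2 * σ) (t * σ - 1) with h | h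
    · rw [max_eq_right h]; nlinarith
    · rw [max_eq_left h]; nlinarith

theorem mida_fin {x σ g η : ℝ} {k s t : ℕ} (hx : 1 < x) (h1 : t * σ - 1 + 2 * η ≤ g)
    (h2 : 5 * g + 2 * σ + 1 + 2 * η ≤ s * σ) :
    x ^ η * ((x ^ σ) ^ (s + t) / (x ^ g * x ^ (k + 1)) + (x ^ g) ^ 5 * (x ^ σ) ^ 2 * x / x ^ k) ≤
      2 * (x ^ σ) ^ s / (x ^ k * x ^ η) := by
  have h0 : 0 < x := by linarith
  have e0 : (x ^ σ) ^ s / (x ^ k * x ^ η) = x ^ (σ * s - (k + η)) := by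
    rw [Real.rpow_sub h0, Real.rpow_add h0, Real.rpow_mul h0.le, Real.rpow_natCast,
      Real.rpow_natCast]
  have e1 : x ^ η * ((x ^ σ) ^ (s + t) / (x ^ g * x ^ (k + 1))) =
      x ^ (η + (σ * ((s + t : ℕ) : ℝ) - (g + ((k + 1 : ℕ) : ℝ)))) := by
    rw [Real.rpow_add h0, Real.rpow_sub h0, Real.rpow_add h0, Real.rpow_mul h0.le,
      Real.rpow_natCast, Real.rpow_natCast]
  have e2 : x ^ η * ((x ^ g) ^ 5 * (x ^ σ) ^ 2 * x / x ^ k) =
      x ^ (η + (g * (5 : ℕ) + σ * (2 : ℕ) + 1 - k)) := by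
    rw [Real.rpow_add h0, Real.rpow_sub h0, Real.rpow_add h0, Real.rpow_add h0,
      Real.rpow_mul h0.le, Real.rpow_mul h0.le, Real.rpow_natCast, Real.rpow_natCast,
      Real.rpow_natCast, Real.rpow_one]
  rw [mul_add, e1, e2, mul_div_assoc, e0, two_mul]
  refine add_le_add (Real.rpow_le_rpow_of_exponent_le hx.le ?_)
    (Real.rpow_le_rpow_of_exponent_le hx.le ?_)
  · push_cast; linarith
  · push_cast; linarith

theorem mid_explicit {k s t u m : ℕ} (hk : 3 ≤ k) (hst : s + t = k * (k + 1)) (ht : 1 ≤ t)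
    (h1 : 4 * m + u < s) (h2 : 2 * m * t + 3 * u < 3 * s) (h3 : 7 * t + 6 ≤ 3 * s)
    (h4 : t + 12 < s) : Mid k s t u m := by
  have hs0 : (0 : ℝ) < s := by exact_mod_cast (by omega : 0 < s)
  set η : ℝ := 1 / (100 * s) with hηd
  have hη : 0 < η := by positivity
  have hηs : η * s ≤ 1 / 100 := by
    rw [hηd]; field_simp; exact le_rfl
  obtain ⟨A, hA, H⟩ := levelII hk hη
  obtain ⟨P0, hP0⟩ := Filter.eventually_atTop.1
    (((tendsto_rpow_atTop hη).comp tendsto_natCast_atTop_atTop).eventually_ge_atTop A)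
  refine ⟨η, 2 * A, hη, by positivity, max P0 2, fun P hP q _ hG V hV1 hV2 a1 a2 => ?_⟩
  have hAP : A ≤ (P : ℝ) ^ η := hP0 P (le_trans (le_max_left _ _) hP)
  have hx : (1 : ℝ) < P := by exact_mod_cast (by have := le_trans (le_max_right _ _) hP; omega)
  have h0 : (0 : ℝ) < P := by linarith
  have hY : (0 : ℝ) < P / V := by positivity
  obtain ⟨σ, hσ⟩ : ∃ σ : ℝ, (P : ℝ) ^ σ = P / V := ⟨_, Real.rpow_logb h0 hx.ne' hY⟩
  have H' := H P q hG V
  rw [← hσ] at a1 a2 H' ⊢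
  rw [← Real.rpow_natCast, ← Real.rpow_mul h0.le, Real.rpow_le_rpow_left_iff hx] at a1 a2
  have hus : u ≤ s := by omega
  have c1 : 4 * (m : ℝ) + 1 ≤ ((s - u : ℕ) : ℝ) := by exact_mod_cast (by omega)
  have c2 : 2 * (m : ℝ) * t + 1 ≤ 3 * ((s - u : ℕ) : ℝ) := by exact_mod_cast (by omega)
  have c3 : 7 * (t : ℝ) + 6 ≤ 3 * s := by exact_mod_cast h3
  have c4 : (t : ℝ) + 13 ≤ s := by exact_mod_cast (by omega)
  obtain ⟨f1, f2, f3⟩ := mida_real (σ := σ) hη hηs (by exact_mod_cast ht)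
    (by exact_mod_cast Nat.sub_le s u) (Nat.cast_nonneg m) c1 c2 c3 c4 (by linarith)
    (by linarith)
  have l1 := le_max_left (2 * σ) (t * σ - 1)
  have l2 := le_max_right (2 * σ) (t * σ - 1)
  set g := max (2 * σ) (t * σ - 1) + 2 * η with hg
  have b1 : A ≤ (P : ℝ) ^ g := hAP.trans (Real.rpow_le_rpow_of_exponent_le hx.le (by linarith))
  have b2 : A * ((P : ℝ) ^ σ) ^ 2 ≤ (P : ℝ) ^ g := by
    refine (mul_le_mul_of_nonneg_right hAP (by positivity)).trans ?_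
    rw [← Real.rpow_natCast, ← Real.rpow_mul h0.le, ← Real.rpow_add h0]
    exact Real.rpow_le_rpow_of_exponent_le hx.le (by push_cast; linarith)
  have b3 : A * ((P : ℝ) ^ g) ^ 2 ≤ P := by
    refine (mul_le_mul_of_nonneg_right hAP (by positivity)).trans ?_
    rw [← Real.rpow_natCast, ← Real.rpow_mul h0.le, ← Real.rpow_add h0]
    refine le_trans (Real.rpow_le_rpow_of_exponent_le hx.le ?_) (Real.rpow_one _).le
    push_cast; linarith
  have K := H' _ (by linarith) hV2 b1 b2 b3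
  rw [two_mul_tri, ← hst] at K
  have F := mida_fin (k := k) (s := s) (t := t) (σ := σ) (g := g) (η := η) hx (by linarith) f3
  have hq : (0 : ℝ) ≤ A * q := by positivity
  refine K.trans ?_
  have := mul_le_mul_of_nonneg_left F hq
  refine le_trans (le_of_eq ?_) (this.trans (le_of_eq ?_))
  · ring
  · ring

end Pool.Agent.MP_927be3_nt.W

end PartMidA

section PartMidB

open Finset Polynomial

namespace Pool.Agent.MP_927be3_nt.W

theorem midb_ev {a b : ℝ} (c : ℝ) (h : a < b) :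
    ∀ᶠ η in nhdsWithin (0 : ℝ) (Set.Ioi 0), a + c * η ≤ b := by
  have h1 : Filter.Tendsto (fun η : ℝ => a + c * η) (nhds 0) (nhds (a + c * 0)) :=
    (by fun_prop : Continuous fun η : ℝ => a + c * η).tendsto 0
  rw [mul_zero, add_zero] at h1
  exact (h1.eventually (eventually_le_nhds h)).filter_mono nhdsWithin_le_nhds

theorem midb_big (A : ℝ) {η : ℝ} (hη : 0 < η) :
    ∃ P0 : ℕ, ∀ P : ℕ, P0 ≤ P → 2 ≤ P ∧ A ≤ (P : ℝ) ^ η := by
  have h1 : Filter.Tendsto (fun P : ℕ => (P : ℝ) ^ η) Filter.atTop Filter.atTop :=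
    (tendsto_rpow_atTop hη).comp tendsto_natCast_atTop_atTop
  exact Filter.eventually_atTop.1
    ((Filter.eventually_ge_atTop 2).and (h1.eventually_ge_atTop A))

theorem mid_gen {k s t u m b : ℕ} {g : ℝ} (hb : 1 ≤ b) (hbk : 2 * b + 1 ≤ k)
    (hst : s + t = k * (k + 1)) (ht : 1 ≤ t) (hu : u < s) (hg1 : 1 / 2 ≤ g)
    (hg2 : g * (b + 1) < b) (h1 : ((t : ℝ) + 2) * m < (1 + g) * ((s : ℝ) - u))
    (h2 : 4 * (b : ℝ) ^ 2 * m < (1 - g) * ((s : ℝ) - u))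
    (h3 : ((2 * b + 3) * g + 1) * t + 2 < (s : ℝ)) : Mid k s t u m := by
  have hb0 : (0 : ℝ) < b := by exact_mod_cast hb
  have ht0 : (0 : ℝ) < t := by exact_mod_cast ht
  have hD : (0 : ℝ) < (s : ℝ) - u := sub_pos.2 (by exact_mod_cast hu)
  have h2' : 2 * (m : ℝ) < ((s : ℝ) - u) * ((1 - g) * (1 / (2 * (b : ℝ) ^ 2))) := by
    rw [mul_one_div, ← mul_div_assoc, lt_div_iff₀ (by positivity)]
    linarith
  have h3' : ((2 * b + 3) * g + 1) * t < (s : ℝ) - 2 := by linarith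
  have hs2 : (0 : ℝ) < (s : ℝ) - 2 := lt_trans (by positivity) h3'
  obtain ⟨η, ⟨⟨⟨⟨e1, e2⟩, e3⟩, e4⟩, e5⟩, hη⟩ :=
    ((((((midb_ev 1 (show (0 : ℝ) < g by linarith)).and (midb_ev 1 hg2)).and
      (midb_ev ((s : ℝ) - u + 2) h2')).and (midb_ev ((t : ℝ) + 2 + 2 * ((s : ℝ) - u)) h1)).and
      (midb_ev (2 * (t : ℝ) + ((s : ℝ) - 2)) h3')).and self_mem_nhdsWithin).exists
  have hη : 0 < η := hη
  obtain ⟨A, hA, hL⟩ := levelIIb hb hbk hη
  obtain ⟨P0, hP0⟩ := midb_big A hη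
  refine ⟨η, 2 * A, hη, by positivity, P0, fun P hP q _ hG V hV1 hV2 c1 c2 => ?_⟩
  obtain ⟨hP2, hAP⟩ := hP0 P hP
  have hP1 : (1 : ℝ) < P := by exact_mod_cast hP2
  have hPp : (0 : ℝ) < P := by linarith
  have hV0 : 0 < V := by linarith
  have hY0 : 0 < (P : ℝ) / V := by positivity
  obtain ⟨σ, hσ⟩ : ∃ σ : ℝ, (P : ℝ) ^ σ = P / V := ⟨_, Real.rpow_logb hPp hP1.ne' hY0⟩
  have hpw : ∀ (x : ℝ) (n : ℕ), ((P : ℝ) ^ x) ^ n = (P : ℝ) ^ (x * n) := fun x n => by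
    rw [Real.rpow_mul hPp.le, Real.rpow_natCast]
  have hle : ∀ x y : ℝ, x ≤ y → (P : ℝ) ^ x ≤ (P : ℝ) ^ y := fun x y h =>
    Real.rpow_le_rpow_of_exponent_le hP1.le h
  have hA' : ∀ x y : ℝ, η + x ≤ y → A * (P : ℝ) ^ x ≤ (P : ℝ) ^ y := fun x y h => by
    refine le_trans ?_ (hle _ _ h)
    rw [Real.rpow_add hPp]
    exact mul_le_mul_of_nonneg_right hAP (by positivity)
  rw [← hσ, hpw, Real.rpow_le_rpow_left_iff hP1] at c1 c2
  rw [Nat.cast_sub hu.le] at c2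
  have d1 : η + σ * (2 : ℕ) ≤ (1 - g) * (1 / (2 * (b : ℝ) ^ 2)) := by
    refine le_of_mul_le_mul_left ?_ hD
    push_cast
    linarith
  have d2 : ((t : ℝ) + 2) * σ + 2 * η ≤ 1 + g := by
    refine le_of_mul_le_mul_left ?_ hD
    have := mul_le_mul_of_nonneg_left c2 (by positivity : (0 : ℝ) ≤ (t : ℝ) + 2)
    linarith
  have d3 : (2 * b + 3) * g + 1 + 2 * η ≤ ((s : ℝ) - 2) * σ := by
    refine le_of_mul_le_mul_left ?_ ht0
    have := mul_le_mul_of_nonneg_left c1 hs2.le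
    linarith
  have hst' : ((2 * tri k + 2 : ℕ) : ℝ) = (s : ℝ) + t + 2 := by
    rw [two_mul_tri, ← hst]
    push_cast
    ring
  have key := hL P q hG V ((P : ℝ) ^ g) hV0 hV2 (hAP.trans (hle _ _ (by linarith)))
    (by
      rw [hpw]
      refine le_trans (le_of_eq (Real.rpow_one _).symm) (hle _ _ ?_)
      push_cast
      linarith)
    (by
      rw [hpw, ← Real.rpow_natCast (P : ℝ) b]
      refine hA' _ _ ?_
      push_cast
      linarith)
    (by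
      have : (P : ℝ) / (P : ℝ) ^ g = (P : ℝ) ^ (1 - g) := by
        rw [Real.rpow_sub hPp, Real.rpow_one]
      rw [← hσ, hpw, this, ← Real.rpow_mul hPp.le]
      exact hA' _ _ d1)
  have hR : ((P : ℝ) / V) ^ s / ((P : ℝ) ^ k * (P : ℝ) ^ η) = (P : ℝ) ^ (σ * s - (k + η)) := by
    rw [← hσ, hpw, Real.rpow_sub hPp, Real.rpow_add hPp, Real.rpow_natCast]
  have t1 : (P : ℝ) ^ η * (((P : ℝ) / V) ^ (2 * tri k + 2) / ((P : ℝ) ^ g * (P : ℝ) ^ (k + 1))) ≤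
      ((P : ℝ) / V) ^ s / ((P : ℝ) ^ k * (P : ℝ) ^ η) := by
    rw [hR, ← hσ, hpw, ← Real.rpow_natCast (P : ℝ) (k + 1), ← Real.rpow_add hPp,
      ← Real.rpow_sub hPp, ← Real.rpow_add hPp, hst']
    refine hle _ _ ?_
    push_cast
    linarith
  have t2 : (P : ℝ) ^ η * (((P : ℝ) ^ g) ^ (2 * b + 3) * ((P : ℝ) / V) ^ 2 * P / (P : ℝ) ^ k) ≤
      ((P : ℝ) / V) ^ s / ((P : ℝ) ^ k * (P : ℝ) ^ η) := by
    rw [hR, ← hσ, hpw, hpw, ← Real.rpow_natCast (P : ℝ) k, ← Real.rpow_add hPp,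
      ← Real.rpow_add_one hPp.ne', ← Real.rpow_sub hPp, ← Real.rpow_add hPp]
    refine hle _ _ ?_
    push_cast
    linarith
  refine key.trans ?_
  have hq : (0 : ℝ) ≤ A * q := by positivity
  have := mul_le_mul_of_nonneg_left (add_le_add t1 t2) hq
  calc _ = _ := by ring
    _ ≤ _ := this
    _ = _ := by ring

end Pool.Agent.MP_927be3_nt.W

end PartMidB

section PartMinor

open Finset Polynomial

namespace Pool.Agent.MP_927be3_nt.W

theorem minor_log {δ : ℝ} (hδ : 0 < δ) {P : ℕ} (hP : 1 ≤ P) :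
    ((Nat.log 2 (P + 1) + 1 : ℕ) : ℝ) ≤ (2 + 4 / δ) * (P : ℝ) ^ (δ / 2) := by
  have hP' : (1 : ℝ) ≤ P := by exact_mod_cast hP
  have h1 : 2 ^ Nat.log 2 (P + 1) ≤ 2 * P :=
    (Nat.pow_log_le_self 2 (by omega)).trans (by omega)
  have h2 : (2 : ℝ) ^ Nat.log 2 (P + 1) ≤ 2 * P := by exact_mod_cast h1
  have h3 := Real.log_le_log (by positivity) h2
  rw [Real.log_pow, Real.log_mul (by norm_num) (by positivity)] at h3
  have h4 := Real.log_le_rpow_div (x := P) (by positivity) (half_pos hδ)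
  have h5 := Real.log_two_gt_d9
  have h6 : (1 : ℝ) ≤ (P : ℝ) ^ (δ / 2) := Real.one_le_rpow hP' (half_pos hδ).le
  have h7 : (P : ℝ) ^ (δ / 2) / (δ / 2) = (4 / δ * (P : ℝ) ^ (δ / 2)) / 2 := by
    field_simp
    ring
  rw [h7] at h4
  have h8 : (0 : ℝ) ≤ 4 / δ * (P : ℝ) ^ (δ / 2) := by positivity
  push_cast
  have h9 : ((Nat.log 2 (P + 1) : ℝ) - 1) ≤ 4 / δ * (P : ℝ) ^ (δ / 2) := by
    by_contra hc
    push Not at hc
    nlinarith
  nlinarith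

open Classical in
theorem minor_point {k s P q : ℕ} [NeZero q] {c : ℝ} (hc : 0 < c) (a : ZMod q)
    (ha : ¬ Maj k P (‖fw k P a‖ / c) a) :
    ‖fw k P a‖ ^ s ≤ 1 + ∑ i ∈ range (Nat.log 2 (P + 1) + 1),
      if a ∈ Lm k P q (2 ^ i) (2 ^ i / c) then (2 * (2 : ℝ) ^ i) ^ s else 0 := by
  have hnn : (0 : ℝ) ≤ ∑ i ∈ range (Nat.log 2 (P + 1) + 1),
      if a ∈ Lm k P q (2 ^ i) (2 ^ i / c) then (2 * (2 : ℝ) ^ i) ^ s else 0 :=
    sum_nonneg fun i _ => by split_ifs <;> positivity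
  rcases lt_or_ge ‖fw k P a‖ 1 with h | h
  · have := pow_le_one₀ (n := s) (norm_nonneg _) h.le
    linarith
  · set N := ⌊‖fw k P a‖⌋₊ with hN
    have hN1 : 1 ≤ N := Nat.le_floor (by exact_mod_cast h)
    have hN2 : N ≤ P + 1 := Nat.floor_le_of_le (by exact_mod_cast norm_fw_le k P a)
    have h1 : (2 : ℝ) ^ Nat.log 2 N ≤ ‖fw k P a‖ := by
      have : 2 ^ Nat.log 2 N ≤ N := Nat.pow_log_le_self 2 (by omega)
      have h' : (2 : ℝ) ^ Nat.log 2 N ≤ N := by exact_mod_cast this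
      exact h'.trans (Nat.floor_le (norm_nonneg _))
    have h2 : ‖fw k P a‖ ≤ 2 * (2 : ℝ) ^ Nat.log 2 N := by
      have : N + 1 ≤ 2 ^ (Nat.log 2 N + 1) := Nat.lt_pow_succ_log_self (by norm_num) N
      have h' : (N : ℝ) + 1 ≤ 2 ^ (Nat.log 2 N + 1) := by exact_mod_cast this
      have h'' := Nat.lt_floor_add_one ‖fw k P a‖
      rw [pow_succ] at h'
      linarith
    have hi : Nat.log 2 N ∈ range (Nat.log 2 (P + 1) + 1) :=
      mem_range.2 (Nat.lt_succ_of_le (Nat.log_mono_right hN2))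
    have hm : a ∈ Lm k P q (2 ^ Nat.log 2 N) (2 ^ Nat.log 2 N / c) := by
      simp only [Lm, mem_filter, mem_univ, true_and]
      exact ⟨h1, fun hM => ha (hM.mono (by gcongr))⟩
    have h3 := single_le_sum (f := fun i => if a ∈ Lm k P q (2 ^ i) (2 ^ i / c) then
      (2 * (2 : ℝ) ^ i) ^ s else 0) (fun i _ => by split_ifs <;> positivity) hi
    simp only [hm, if_true] at h3
    have h4 := pow_le_pow_left₀ (norm_nonneg _) h2 s
    linarith

open Classical in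
theorem minor_sum {k s : ℕ} {c : ℝ} (hc : 0 < c) (hs : k + 1 ≤ s) (h : LB k s c) {η : ℝ}
    (hη : 0 < η) : ∃ P0 : ℕ, ∀ P : ℕ, P0 ≤ P → ∀ (q : ℕ) [NeZero q], Good k P q →
      ∑ a : ZMod q with ¬ Maj k P (‖fw k P a‖ / c) a, ‖fw k P a‖ ^ s ≤
        η * q * (P : ℝ) ^ s / (P : ℝ) ^ k := by
  obtain ⟨δ, A, hδ, hA, P0, h⟩ := h
  have ht : Filter.Tendsto (fun P : ℕ => (P : ℝ) ^ (δ / 2)) Filter.atTop Filter.atTop :=
    (tendsto_rpow_atTop (half_pos hδ)).comp tendsto_natCast_atTop_atTop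
  obtain ⟨P1, h1⟩ := Filter.eventually_atTop.1
    (ht.eventually_ge_atTop ((2 + 4 / δ) * 2 ^ s * A / (η / 2)))
  obtain ⟨P2, h2⟩ := exists_nat_ge (2 / η)
  refine ⟨max (max P0 P1) (max P2 1), fun P hP q _ hq => ?_⟩
  have hP0 : P0 ≤ P := (le_max_left _ _).trans ((le_max_left _ _).trans hP)
  have hP1 : P1 ≤ P := (le_max_right _ _).trans ((le_max_left _ _).trans hP)
  have hP2 : P2 ≤ P := (le_max_left _ _).trans ((le_max_right _ _).trans hP)
  have hP3 : 1 ≤ P := (le_max_right _ _).trans ((le_max_right _ _).trans hP)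
  have hP' : (1 : ℝ) ≤ P := by exact_mod_cast hP3
  have hq0 : (0 : ℝ) < q := by exact_mod_cast NeZero.pos q
  set L := Nat.log 2 (P + 1) + 1 with hL
  set T : ℝ := q * (P : ℝ) ^ s / (P : ℝ) ^ k with hT
  have hT0 : 0 < T := by positivity
  have hr : (0 : ℝ) < (P : ℝ) ^ (δ / 2) := by positivity
  have hrr : (P : ℝ) ^ δ = (P : ℝ) ^ (δ / 2) * (P : ℝ) ^ (δ / 2) := by
    rw [← Real.rpow_add (by positivity), add_halves]
  have hlev : ∀ i ∈ range L, ∑ a : ZMod q,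
      (if a ∈ Lm k P q (2 ^ i) (2 ^ i / c) then (2 * (2 : ℝ) ^ i) ^ s else 0) ≤
        2 ^ s * A * T / (P : ℝ) ^ δ := by
    intro i hi
    have hi1 : 2 ^ i ≤ P + 1 :=
      (Nat.pow_le_pow_right (by norm_num) (Nat.le_of_lt_succ (mem_range.1 hi))).trans
        (Nat.pow_log_le_self 2 (by omega))
    have h3 := h P hP0 q hq (2 ^ i) (one_le_pow₀ (by norm_num)) (by exact_mod_cast hi1)
    rw [sum_ite_mem, univ_inter, sum_const, nsmul_eq_mul]
    refine (mul_le_mul_of_nonneg_right h3 (by positivity)).trans (le_of_eq ?_)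
    rw [hT, div_pow, mul_pow]
    field_simp
  have hq1 : (q : ℝ) ≤ η / 2 * T := by
    have h3 : (P : ℝ) ^ k * P ≤ (P : ℝ) ^ s := by
      rw [← pow_succ]
      exact pow_le_pow_right₀ hP' hs
    have h4 : 2 / η ≤ P := h2.trans (by exact_mod_cast hP2)
    rw [div_le_iff₀ hη] at h4
    have h5 : q * (P : ℝ) ≤ T := by
      rw [hT, le_div_iff₀ (by positivity), mul_assoc, mul_comm (P : ℝ)]
      exact mul_le_mul_of_nonneg_left h3 hq0.le
    have h6 : η / 2 * (q * (P : ℝ)) ≤ η / 2 * T := mul_le_mul_of_nonneg_left h5 (half_pos hη).le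
    nlinarith
  have hq2 : (L : ℝ) * (2 ^ s * A * T / (P : ℝ) ^ δ) ≤ η / 2 * T := by
    have h3 := minor_log hδ hP3
    have h4 := h1 P hP1
    rw [div_le_iff₀ (half_pos hη)] at h4
    calc (L : ℝ) * (2 ^ s * A * T / (P : ℝ) ^ δ)
        ≤ ((2 + 4 / δ) * (P : ℝ) ^ (δ / 2)) * (2 ^ s * A * T / (P : ℝ) ^ δ) :=
          mul_le_mul_of_nonneg_right h3 (by positivity)
      _ = ((2 + 4 / δ) * 2 ^ s * A) * T / (P : ℝ) ^ (δ / 2) := by
          rw [hrr]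
          field_simp
      _ ≤ ((P : ℝ) ^ (δ / 2) * (η / 2)) * T / (P : ℝ) ^ (δ / 2) := by gcongr
      _ = η / 2 * T := by field_simp
  calc ∑ a : ZMod q with ¬ Maj k P (‖fw k P a‖ / c) a, ‖fw k P a‖ ^ s
      ≤ ∑ a : ZMod q with ¬ Maj k P (‖fw k P a‖ / c) a, (1 + ∑ i ∈ range L,
          if a ∈ Lm k P q (2 ^ i) (2 ^ i / c) then (2 * (2 : ℝ) ^ i) ^ s else 0) :=
        sum_le_sum fun a ha => minor_point hc a (mem_filter.1 ha).2
    _ ≤ ∑ a : ZMod q, (1 + ∑ i ∈ range L,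
          if a ∈ Lm k P q (2 ^ i) (2 ^ i / c) then (2 * (2 : ℝ) ^ i) ^ s else 0) := by
        refine sum_le_sum_of_subset_of_nonneg (filter_subset _ _) fun a _ _ => ?_
        have : (0 : ℝ) ≤ ∑ i ∈ range L,
            if a ∈ Lm k P q (2 ^ i) (2 ^ i / c) then (2 * (2 : ℝ) ^ i) ^ s else 0 :=
          sum_nonneg fun i _ => by split_ifs <;> positivity
        linarith
    _ = q + ∑ i ∈ range L, ∑ a : ZMod q,
          (if a ∈ Lm k P q (2 ^ i) (2 ^ i / c) then (2 * (2 : ℝ) ^ i) ^ s else 0) := by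
        rw [sum_add_distrib, sum_comm]
        simp [ZMod.card]
    _ ≤ q + ∑ _i ∈ range L, 2 ^ s * A * T / (P : ℝ) ^ δ := by
        have := sum_le_sum hlev
        linarith
    _ ≤ η / 2 * T + η / 2 * T := by
        rw [sum_const, card_range, nsmul_eq_mul]
        linarith
    _ = η * q * (P : ℝ) ^ s / (P : ℝ) ^ k := by
        rw [hT]
        ring

end Pool.Agent.MP_927be3_nt.W

end PartMinor

section PartApprox

open Finset Polynomial

namespace Pool.Agent.MP_927be3_nt.W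

theorem approx_blocks {d : ℕ} (hd : 1 ≤ d) (g φ ψ : ℕ → ℂ) (w : ℕ → ℝ) (hg : ∀ x, ‖g x‖ = 1)
    (hp : ∀ t x, g (d * t + x) = g x)
    (hφ : ∀ a x b, a ≤ x → x < b → ‖φ x - φ a‖ ≤ w b - w a)
    (hψ : ∀ a x b, a ≤ x → x < b → ‖ψ x - φ a‖ ≤ w b - w a) (t : ℕ) :
    ‖∑ x ∈ range (d * t), (g x * φ x - (∑ y ∈ range d, g y) / d * ψ x)‖ ≤
      2 * d * (w (d * t) - w 0) := by
  have hd' : (0 : ℝ) < d := by exact_mod_cast hd
  have hd'' : (d : ℂ) ≠ 0 := by exact_mod_cast hd'.ne'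
  have hS : ‖(∑ y ∈ range d, g y) / d‖ ≤ 1 := by
    rw [norm_div, Complex.norm_natCast, div_le_one hd']
    exact (norm_sum_le _ _).trans (by simp [hg])
  induction t with
  | zero => simp
  | succ t ih =>
    rw [mul_add_one, sum_range_add]
    refine (norm_add_le _ _).trans ?_
    have e : ∑ x ∈ range d, (g (d * t + x) * φ (d * t + x) -
        (∑ y ∈ range d, g y) / d * ψ (d * t + x)) = ∑ x ∈ range d,
        (g x * (φ (d * t + x) - φ (d * t)) -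
          (∑ y ∈ range d, g y) / d * (ψ (d * t + x) - φ (d * t))) := by
      simp only [hp, mul_sub, sum_sub_distrib, ← sum_mul, sum_const, card_range, nsmul_eq_mul]
      field_simp
      ring
    have h2 : ∀ x ∈ range d, ‖g x * (φ (d * t + x) - φ (d * t)) -
        (∑ y ∈ range d, g y) / d * (ψ (d * t + x) - φ (d * t))‖ ≤
        2 * (w (d * t + d) - w (d * t)) := fun x hx => by
      have h3 := hφ (d * t) (d * t + x) (d * t + d) (by omega) (by simpa using hx)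
      have h4 := hψ (d * t) (d * t + x) (d * t + d) (by omega) (by simpa using hx)
      refine (norm_sub_le _ _).trans ?_
      rw [norm_mul, norm_mul, hg, one_mul]
      have h5 := mul_le_of_le_one_left (norm_nonneg (ψ (d * t + x) - φ (d * t))) hS
      linarith
    have h6 := (norm_sum_le _ _).trans (sum_le_sum h2)
    rw [sum_const, card_range, nsmul_eq_mul, ← e] at h6
    linarith

theorem approx_lip {q : ℕ} [NeZero q] (β : ℤ) {a m b : ℕ} (h1 : a ≤ m) (h2 : m ≤ b) :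
    ‖ch ((β : ZMod q) * (m : ZMod q)) - ch ((β : ZMod q) * (a : ZMod q))‖ ≤
      2 * Real.pi * |(β : ℝ)| / q * b - 2 * Real.pi * |(β : ℝ)| / q * a := by
  obtain ⟨c, rfl⟩ := Nat.exists_eq_add_of_le h1
  have hq : (0 : ℝ) < q := by exact_mod_cast NeZero.pos q
  have hp := Real.pi_pos
  have e : ch ((β : ZMod q) * (c : ZMod q)) =
      Complex.exp (Complex.I * (2 * Real.pi * (β * c / q) : ℝ)) := by
    rw [show (β : ZMod q) * (c : ZMod q) = ((β * c : ℤ) : ZMod q) by push_cast; rfl, ch_int, ee]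
    congr 1
    push_cast
    ring
  rw [Nat.cast_add, mul_add, ch_add, ← mul_sub_one, norm_mul, norm_ch, one_mul, e]
  refine Real.norm_exp_I_mul_ofReal_sub_one_le.trans ?_
  have h3 : (c : ℝ) ≤ b - a := by
    rw [le_sub_iff_add_le']
    exact_mod_cast h2
  rw [Real.norm_eq_abs, abs_mul, abs_of_pos Real.two_pi_pos, abs_div, abs_mul, Nat.abs_cast,
    Nat.abs_cast, ← mul_sub]
  calc _ = 2 * Real.pi * |(β : ℝ)| / q * c := by ring
    _ ≤ _ := by gcongr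

theorem approx_avg {a b : ℕ} (h : a < b) (f : ℕ → ℂ) (z : ℂ) {r : ℝ}
    (hf : ∀ m ∈ Ico a b, ‖f m - z‖ ≤ r) : ‖∑ m ∈ Ico a b, f m / ((b - a : ℕ) : ℂ) - z‖ ≤ r := by
  have h1 : (0 : ℝ) < (b - a : ℕ) := by exact_mod_cast Nat.sub_pos_of_lt h
  have h2 : ((b - a : ℕ) : ℂ) ≠ 0 := by exact_mod_cast h1.ne'
  have e : ∑ m ∈ Ico a b, f m / ((b - a : ℕ) : ℂ) - z =
      (∑ m ∈ Ico a b, (f m - z)) / ((b - a : ℕ) : ℂ) := by
    rw [sum_sub_distrib, sum_const, Nat.card_Ico, nsmul_eq_mul, ← sum_div]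
    field_simp
  rw [e, norm_div, Complex.norm_natCast, div_le_iff₀ h1]
  refine (norm_sum_le _ _).trans ((sum_le_sum hf).trans ?_)
  rw [sum_const, Nat.card_Ico, nsmul_eq_mul, mul_comm]

theorem approx {k P q d : ℕ} [NeZero q] (hk : 1 ≤ k) (hd : 1 ≤ d) (hdq : d ∣ q) (b : ℕ) (β : ℤ) :
    ‖fw k P (((q / d : ℕ) : ZMod q) * (b : ZMod q) + (β : ZMod q)) -
        Sc k d b / d * vv k P (β : ZMod q)‖ ≤
      2 * d + 19 * d * |(β : ℝ)| * ((P : ℝ) + 1) ^ k / q := by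
  have hq : (0 : ℝ) < q := by exact_mod_cast NeZero.pos q
  have hd' : (0 : ℝ) < d := by exact_mod_cast hd
  have hp := Real.pi_pos
  have hlt : ∀ x : ℕ, x ^ k < (x + 1) ^ k := fun x => Nat.pow_lt_pow_left x.lt_succ_self (by omega)
  let g : ℕ → ℂ := fun x => ee (((b : ℤ) : ℝ) * (x : ℝ) ^ k / d)
  let φ : ℕ → ℂ := fun x => ch ((β : ZMod q) * ((x ^ k : ℕ) : ZMod q))
  let ψ : ℕ → ℂ := fun x => ∑ m ∈ Ico (x ^ k) ((x + 1) ^ k),
    ch ((β : ZMod q) * (m : ZMod q)) / (((x + 1) ^ k - x ^ k : ℕ) : ℂ)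
  have hg : ∀ x, ‖g x‖ = 1 := fun x => norm_ee _
  have e : fw k P (((q / d : ℕ) : ZMod q) * (b : ZMod q) + (β : ZMod q)) -
      Sc k d b / d * vv k P (β : ZMod q) =
      ∑ x ∈ range (P + 1), (g x * φ x - (∑ y ∈ range d, g y) / d * ψ x) := by
    rw [sum_sub_distrib, ← mul_sum]
    refine congrArg₂ _ (sum_congr rfl fun x _ => ?_) rfl
    have h := ch_div hdq ((b : ℤ) * x ^ k)
    push_cast at h
    simp only [g, φ]
    push_cast
    rw [add_mul, ch_add, mul_assoc, h]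
  have h1 := approx_blocks hd g φ ψ (fun x => 2 * Real.pi * |(β : ℝ)| / q * (x ^ k : ℕ)) hg
    (fun t x => by
      obtain ⟨c, hc⟩ : (d : ℤ) ∣ (d * t + x : ℕ) ^ k - (x : ℤ) ^ k :=
        Dvd.dvd.trans (by simp) (sub_dvd_pow_sub_pow _ _ k)
      have h : ((d * t + x : ℕ) : ℝ) ^ k = x ^ k + d * c := by
        exact_mod_cast sub_eq_iff_eq_add'.1 hc
      simp only [g]
      rw [h, show ((b : ℤ) : ℝ) * ((x : ℝ) ^ k + d * c) / d =
        ((b : ℤ) : ℝ) * (x : ℝ) ^ k / d + ((b * c : ℤ) : ℝ) by push_cast; field_simp, ee_add, ee_int,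
        mul_one])
    (fun a x c h1 h2 => approx_lip β (Nat.pow_le_pow_left h1 k) (Nat.pow_le_pow_left h2.le k))
    (fun a x c h1 h2 => approx_avg (hlt x) _ _ fun m hm => approx_lip β
      ((Nat.pow_le_pow_left h1 k).trans (mem_Ico.1 hm).1)
      ((mem_Ico.1 hm).2.le.trans (Nat.pow_le_pow_left h2 k))) ((P + 1) / d)
  have hS : ‖(∑ y ∈ range d, g y) / d‖ ≤ 1 := by
    rw [norm_div, Complex.norm_natCast, div_le_one hd']
    exact (norm_sum_le _ _).trans (by simp [hg])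
  have h2 : ∀ x, ‖g x * φ x - (∑ y ∈ range d, g y) / d * ψ x‖ ≤ 2 := fun x => by
    have h3 : ‖ψ x - 0‖ ≤ 1 := approx_avg (hlt x) _ _ fun m _ => by rw [sub_zero, norm_ch]
    rw [sub_zero] at h3
    refine (norm_sub_le _ _).trans ?_
    rw [norm_mul, norm_mul, hg, norm_ch]
    linarith [mul_le_one₀ hS (norm_nonneg _) h3]
  rw [e, ← Nat.div_add_mod (P + 1) d, sum_range_add]
  refine (norm_add_le _ _).trans ((add_le_add h1 ((norm_sum_le _ _).trans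
    (sum_le_sum fun x _ => h2 _))).trans ?_)
  have h4 : (((P + 1) % d : ℕ) : ℝ) ≤ d := by exact_mod_cast (Nat.mod_lt _ hd).le
  have h5 : (((d * ((P + 1) / d)) ^ k : ℕ) : ℝ) ≤ ((P : ℝ) + 1) ^ k := by
    exact_mod_cast Nat.pow_le_pow_left (Nat.mul_div_le _ _) k
  have h6 : 2 * d * (2 * Real.pi * |(β : ℝ)| / q * (((d * ((P + 1) / d)) ^ k : ℕ) : ℝ)) ≤
      19 * d * |(β : ℝ)| * ((P : ℝ) + 1) ^ k / q :=
    calc _ = 4 * Real.pi * d * |(β : ℝ)| * (((d * ((P + 1) / d)) ^ k : ℕ) : ℝ) / q := by ring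
      _ ≤ _ := by gcongr; linarith [Real.pi_le_four]
  rw [sum_const, card_range, nsmul_eq_mul, zero_pow (by omega), Nat.cast_zero, mul_zero, sub_zero]
  linarith

theorem maj_decomp {k P q : ℕ} [NeZero q] (hk : 1 ≤ k) (hG : Good k P q) {Q : ℝ}
    (hQ : Q ≤ P + 1) {a : ZMod q} (h : Maj k P Q a) : ∃ d b : ℕ, ∃ β : ℤ, 1 ≤ d ∧ (d : ℝ) ≤ Q ∧
      b < d ∧ Nat.Coprime b d ∧ d * |(β : ℝ)| ≤ Q * q / (P : ℝ) ^ k ∧
      a = ((q / d : ℕ) : ZMod q) * (b : ZMod q) + (β : ZMod q) := by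
  obtain ⟨w, h1, h2, h3⟩ := h
  have hw : (0 : ℝ) < w := by exact_mod_cast h1
  have h4 : w ≤ P + 1 := by exact_mod_cast h2.trans hQ
  have hd : w ∣ q := hG w h1 (h4.trans ((Nat.le_mul_of_pos_left _ (by omega)).trans
    (Nat.le_self_pow (by omega) _)))
  obtain ⟨β, n, b1, b2, b3⟩ := small_div (d := a) (D := Q * q / (P : ℝ) ^ k / w) h1 hd
    (by rwa [mul_div_cancel₀ _ hw.ne'])
  obtain ⟨g, b, d, hg, hc, rfl, rfl⟩ := Nat.exists_coprime' (Nat.gcd_pos_of_pos_right n h1)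
  have hd0 : 0 < d := Nat.pos_of_mul_pos_right h1
  have h5 : (d : ℝ) ≤ (d * g : ℕ) := by exact_mod_cast Nat.le_mul_of_pos_right d hg
  refine ⟨d, b, β, hd0, h5.trans h2, lt_of_mul_lt_mul_right b2 g.zero_le, hc,
    (mul_le_mul_of_nonneg_right h5 (abs_nonneg _)).trans ((le_div_iff₀' hw).1 b1), ?_⟩
  obtain ⟨c, hc'⟩ := hd
  have e1 : q / (d * g) = c := by rw [hc', Nat.mul_div_cancel_left c h1]
  have e2 : q / d = g * c := by rw [hc', mul_assoc, Nat.mul_div_cancel_left _ hd0]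
  rw [b3, e1, e2]
  push_cast
  ring

end Pool.Agent.MP_927be3_nt.W

end PartApprox

section PartVb

open Finset Polynomial

namespace Pool.Agent.MP_927be3_nt.W

theorem vb_term (k x : ℕ) {q : ℕ} [NeZero q] (β : ZMod q) :
    ‖∑ m ∈ Ico (x ^ k) ((x + 1) ^ k),
      ch (β * (m : ZMod q)) / (((x + 1) ^ k - x ^ k : ℕ) : ℂ)‖ ≤ 1 := by
  refine (norm_sum_le _ _).trans ?_
  simp only [norm_div, norm_ch, Complex.norm_natCast, sum_const, Nat.card_Ico, nsmul_eq_mul]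
  rw [mul_one_div]
  exact div_self_le_one _

theorem vb_range (k X : ℕ) {q : ℕ} [NeZero q] (β : ZMod q) :
    ‖∑ x ∈ range X, ∑ m ∈ Ico (x ^ k) ((x + 1) ^ k),
      ch (β * (m : ZMod q)) / (((x + 1) ^ k - x ^ k : ℕ) : ℂ)‖ ≤ X := by
  refine (norm_sum_le _ _).trans ?_
  refine (sum_le_sum fun x _ => vb_term k x β).trans ?_
  simp

theorem vv_le (k P : ℕ) {q : ℕ} [NeZero q] (β : ZMod q) : ‖vv k P β‖ ≤ P + 1 := by
  have := vb_range k (P + 1) β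
  push_cast at this ⊢
  exact this

theorem vb_geom {q : ℕ} [NeZero q] (β : ℤ) (h0 : β ≠ 0) (h : 2 * |β| ≤ q) (n : ℕ) :
    ‖∑ j ∈ range n, ch ((β : ZMod q) * (j : ZMod q))‖ ≤ 2 * q / |(β : ℝ)| := by
  have hb : ((β.natAbs : ℕ) : ℝ) = |(β : ℝ)| := by
    rw [Nat.cast_natAbs, Int.cast_abs]
  have hb2 : 2 * β.natAbs ≤ q := by
    have : ((2 * β.natAbs : ℕ) : ℤ) ≤ q := by
      push_cast
      exact h
    exact_mod_cast this
  have key : ‖∑ j ∈ range n, ch (((β.natAbs : ℕ) : ZMod q) * (j : ZMod q))‖ ≤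
      2 * q / |(β : ℝ)| := by
    rw [← hb]
    exact MP_e4c747_an.kl_zmod (fun j : ℕ => ((β.natAbs : ℕ) : ZMod q) * (j : ZMod q))
      (fun _ => β.natAbs) n (Nat.cast_pos.2 (Int.natAbs_pos.2 h0))
      (fun j _ => by push_cast; ring) le_rfl (fun _ _ => le_rfl) (fun _ _ => hb2)
  rcases Int.natAbs_eq β with h1 | h1
  · have h2 : (β : ZMod q) = ((β.natAbs : ℕ) : ZMod q) := by
      conv_lhs => rw [h1, Int.cast_natCast]
    rw [h2]
    exact key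
  · have h2 : (β : ZMod q) = -((β.natAbs : ℕ) : ZMod q) := by
      conv_lhs => rw [h1, Int.cast_neg, Int.cast_natCast]
    rw [← Complex.norm_conj, map_sum] at key
    refine le_of_eq_of_le ?_ key
    congr 1
    refine sum_congr rfl fun j _ => ?_
    rw [← ch_neg, h2]
    congr 1
    ring

theorem vb_abel (G : ℕ → ℂ) (w : ℕ → ℝ) (B : ℝ) (X : ℕ) (hG : ∀ n, ‖G n‖ ≤ B)
    (hw : ∀ n, X ≤ n → 0 ≤ w n) (hm : ∀ n, X ≤ n → w (n + 1) ≤ w n) (N : ℕ) (hN : X ≤ N) :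
    ‖∑ x ∈ Ico X N, (G (x + 1) - G x) * (w x : ℂ)‖ ≤ 2 * B * w X := by
  have key : ∀ N, X ≤ N → ‖∑ x ∈ Ico X N, (G (x + 1) - G x) * (w x : ℂ) - G N * (w N : ℂ)‖ ≤
      B * (2 * w X - w N) := by
    intro N hN
    induction N, hN using Nat.le_induction with
    | base =>
      rw [Ico_self, sum_empty, zero_sub, norm_neg, norm_mul, Complex.norm_real,
        Real.norm_of_nonneg (hw X le_rfl)]
      have := mul_le_mul_of_nonneg_right (hG X) (hw X le_rfl)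
      linarith
    | succ n hn ih =>
      rw [sum_Ico_succ_top hn]
      have e : ∑ x ∈ Ico X n, (G (x + 1) - G x) * (w x : ℂ) + (G (n + 1) - G n) * (w n : ℂ) -
          G (n + 1) * (w (n + 1) : ℂ) =
          (∑ x ∈ Ico X n, (G (x + 1) - G x) * (w x : ℂ) - G n * (w n : ℂ)) +
            G (n + 1) * ((w n - w (n + 1) : ℝ) : ℂ) := by
        push_cast
        ring
      rw [e]
      refine (norm_add_le _ _).trans ?_
      have h1 : 0 ≤ w n - w (n + 1) := sub_nonneg.2 (hm n hn)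
      rw [norm_mul, Complex.norm_real, Real.norm_of_nonneg h1]
      have := mul_le_mul_of_nonneg_right (hG (n + 1)) h1
      linarith
  have h1 := key N hN
  have h2 : ‖G N * (w N : ℂ)‖ ≤ B * w N := by
    rw [norm_mul, Complex.norm_real, Real.norm_of_nonneg (hw N hN)]
    exact mul_le_mul_of_nonneg_right (hG N) (hw N hN)
  have h3 := norm_add_le (∑ x ∈ Ico X N, (G (x + 1) - G x) * (w x : ℂ) - G N * (w N : ℂ))
    (G N * (w N : ℂ))
  rw [sub_add_cancel] at h3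
  linarith

theorem vb_mono (k : ℕ) {x y : ℝ} (hx : 0 ≤ x) (h : x ≤ y) :
    (x + 1) ^ k - x ^ k ≤ (y + 1) ^ k - y ^ k := by
  induction k with
  | zero => simp
  | succ k ih =>
    have h1 : 0 ≤ (x + 1) ^ k - x ^ k := sub_nonneg.2 (by gcongr; linarith)
    have h2 : x ^ k ≤ y ^ k := by gcongr
    have h3 : (x + 1) * ((x + 1) ^ k - x ^ k) ≤ (y + 1) * ((y + 1) ^ k - y ^ k) :=
      mul_le_mul (by linarith) ih h1 (by linarith)
    calc (x + 1) ^ (k + 1) - x ^ (k + 1) = (x + 1) * ((x + 1) ^ k - x ^ k) + x ^ k := by ring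
      _ ≤ (y + 1) * ((y + 1) ^ k - y ^ k) + y ^ k := add_le_add h3 h2
      _ = _ := by ring

theorem vb_low (k : ℕ) {x : ℝ} (hx : 0 ≤ x) : x ^ k ≤ (x + 1) ^ (k + 1) - x ^ (k + 1) := by
  have h1 : 0 ≤ (x + 1) ^ k - x ^ k := sub_nonneg.2 (by gcongr; linarith)
  have h2 : 0 ≤ (x + 1) * ((x + 1) ^ k - x ^ k) := mul_nonneg (by linarith) h1
  calc x ^ k ≤ (x + 1) * ((x + 1) ^ k - x ^ k) + x ^ k := by linarith
    _ = _ := by ring

theorem vb_main (k P X : ℕ) (hX : 1 ≤ X) {q : ℕ} [NeZero q] (β : ZMod q) (B : ℝ)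
    (hB : ∀ n, ‖∑ j ∈ range n, ch (β * (j : ZMod q))‖ ≤ B) :
    ‖vv (k + 1) P β‖ ≤ X + 2 * B / (X : ℝ) ^ k := by
  have hB0 : 0 ≤ B := (norm_nonneg _).trans (hB 0)
  have hX0 : (0 : ℝ) < X := by exact_mod_cast hX
  rcases le_total (P + 1) X with h | h
  · have h1 := vv_le (k + 1) P β
    have h2 : (P : ℝ) + 1 ≤ X := by exact_mod_cast h
    have h3 : 0 ≤ 2 * B / (X : ℝ) ^ k := by positivity
    linarith
  · unfold vv
    rw [← sum_range_add_sum_Ico _ h]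
    refine (norm_add_le _ _).trans (add_le_add (vb_range (k + 1) X β) ?_)
    have hpos : ∀ n : ℕ, X ≤ n → (0 : ℝ) < ((n : ℝ) + 1) ^ (k + 1) - (n : ℝ) ^ (k + 1) := by
      intro n hn
      have h1 : (0 : ℝ) < n := hX0.trans_le (by exact_mod_cast hn)
      exact (pow_pos h1 k).trans_le (vb_low k h1.le)
    have key := vb_abel (fun n => ∑ j ∈ range (n ^ (k + 1)), ch (β * (j : ZMod q)))
      (fun n => (((n : ℝ) + 1) ^ (k + 1) - (n : ℝ) ^ (k + 1))⁻¹) B X (fun n => hB _)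
      (fun n hn => (inv_pos.2 (hpos n hn)).le)
      (fun n hn => by
        refine inv_anti₀ (hpos n hn) ?_
        push_cast
        exact vb_mono (k + 1) (Nat.cast_nonneg n) (by linarith)) (P + 1) h
    refine le_trans (le_of_eq ?_) (key.trans ?_)
    · congr 1
      refine sum_congr rfl fun x _ => ?_
      have hle : x ^ (k + 1) ≤ (x + 1) ^ (k + 1) := Nat.pow_le_pow_left (Nat.le_succ x) _
      rw [← sum_div, sum_Ico_eq_sub _ hle, div_eq_mul_inv, Nat.cast_sub hle]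
      push_cast
      rfl
    · rw [div_eq_mul_inv]
      exact mul_le_mul_of_nonneg_left (inv_anti₀ (pow_pos hX0 k) (vb_low k hX0.le))
        (by positivity)

theorem vbound {k : ℕ} (hk : 1 ≤ k) : ∃ A : ℝ, 0 < A ∧ ∀ (P q : ℕ) [NeZero q] (β : ℤ), β ≠ 0 →
    2 * |β| ≤ q → ‖vv k P (β : ZMod q)‖ ^ k ≤ A * q / |(β : ℝ)| := by
  obtain ⟨k, rfl⟩ : ∃ j, k = j + 1 := ⟨k - 1, by omega⟩
  refine ⟨10 ^ (k + 1), by positivity, fun P q _ β h0 h => ?_⟩
  have hb : (0 : ℝ) < |(β : ℝ)| := abs_pos.2 (by exact_mod_cast h0)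
  obtain ⟨T, hT⟩ : ∃ T : ℝ, T = q / |(β : ℝ)| := ⟨_, rfl⟩
  have hT2 : 2 ≤ T := by
    rw [hT, le_div_iff₀ hb]
    exact_mod_cast h
  have hex : ∃ X : ℕ, T ≤ ((X : ℝ) + 1) ^ (k + 1) := by
    refine ⟨⌈T⌉₊, ?_⟩
    have h1 : T ≤ (⌈T⌉₊ : ℝ) + 1 := by linarith [Nat.le_ceil T]
    exact h1.trans (le_self_pow₀ (by linarith) (Nat.succ_ne_zero k))
  classical
  have hs := Nat.find_spec hex
  obtain ⟨Y, hY⟩ : ∃ Y, Nat.find hex = Y + 1 := by
    refine Nat.exists_eq_succ_of_ne_zero fun h1 => ?_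
    rw [h1] at hs
    simp at hs
    linarith
  have hmin := Nat.find_min hex (m := Y) (by omega)
  rw [hY] at hs
  push Not at hmin
  have hm := vb_main k P (Y + 2) (by omega) (β : ZMod q) (2 * T)
    (fun n => by rw [hT, ← mul_div_assoc]; exact vb_geom β h0 h n)
  push_cast at hs hm
  have hY0 : (0 : ℝ) ≤ Y := Nat.cast_nonneg Y
  have h1 : 2 * (2 * T) / ((Y : ℝ) + 2) ^ k ≤ 4 * ((Y : ℝ) + 2) := by
    rw [div_le_iff₀ (by positivity)]
    have : ((Y : ℝ) + 1 + 1) ^ (k + 1) = ((Y : ℝ) + 2) * ((Y : ℝ) + 2) ^ k := by ring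
    linarith
  have h2 : ‖vv (k + 1) P (β : ZMod q)‖ ≤ 10 * ((Y : ℝ) + 1) := by linarith
  calc ‖vv (k + 1) P (β : ZMod q)‖ ^ (k + 1) ≤ (10 * ((Y : ℝ) + 1)) ^ (k + 1) := by gcongr
    _ = 10 ^ (k + 1) * ((Y : ℝ) + 1) ^ (k + 1) := mul_pow _ _ _
    _ ≤ 10 ^ (k + 1) * T := by gcongr
    _ = _ := by rw [hT, mul_div_assoc]

theorem vb_inv (S : Finset ℤ) (B : ℝ) (hB : 0 < B) (hS : ∀ β ∈ S, B < |(β : ℝ)|) :
    ∑ β ∈ S, (|(β : ℝ)| ^ 2)⁻¹ ≤ 4 / B := by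
  obtain ⟨N, hN⟩ : ∃ N : ℕ, ∀ β ∈ S, β.natAbs < N :=
    ⟨S.sup Int.natAbs + 1, fun β hβ => Nat.lt_succ_of_le (le_sup (f := Int.natAbs) hβ)⟩
  have hb : ∀ β : ℤ, ((β.natAbs : ℕ) : ℝ) = |(β : ℝ)| := fun β => by
    rw [Nat.cast_natAbs, Int.cast_abs]
  have h1 := MP_e4c747_an.sum_comp_le S (Ioo ⌊B⌋₊ N) Int.natAbs
    (fun β hβ => mem_Ioo.2 ⟨(Nat.floor_lt hB.le).2 (by rw [hb]; exact hS β hβ), hN β hβ⟩)
    (D := 2) (fun r _ => by
      have : #{a ∈ S | a.natAbs = r} ≤ 2 := by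
        refine le_trans (card_le_card (t := {(r : ℤ), -(r : ℤ)}) fun x hx => ?_) card_le_two
        have h := (mem_filter.1 hx).2
        simp only [mem_insert, mem_singleton]
        omega
      exact_mod_cast this)
    (fun r : ℕ => ((r : ℝ) ^ 2)⁻¹) (fun r _ => by positivity)
  simp only [hb] at h1
  have h2 := sum_Ioo_inv_sq_le (α := ℝ) ⌊B⌋₊ N
  have h3 : 2 / ((⌊B⌋₊ : ℝ) + 1) ≤ 2 / B :=
    div_le_div_of_nonneg_left (by norm_num) hB (Nat.lt_floor_add_one B).le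
  have h4 : 4 / B = 2 * (2 / B) := by ring
  linarith

open Classical in
theorem vtail {k s : ℕ} (hk : 1 ≤ k) (hs : 2 * k ≤ s) : ∃ A : ℝ, 0 < A ∧
    ∀ (P q : ℕ) [NeZero q], 1 ≤ P → P ^ k ≤ q → ∀ R : ℝ, 1 ≤ R →
      ∑ β ∈ (Iq q).filter (fun β : ℤ => R * q / (P : ℝ) ^ k < |(β : ℝ)|),
          ‖vv k P (β : ZMod q)‖ ^ s ≤
        A * q * (P : ℝ) ^ s / ((P : ℝ) ^ k * R) := by
  obtain ⟨A, hA, h⟩ := vbound hk
  obtain ⟨t, rfl⟩ := Nat.exists_eq_add_of_le hs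
  refine ⟨4 * 2 ^ t * A ^ 2, by positivity, fun P q _ hP hq R hR => ?_⟩
  have hP1 : (1 : ℝ) ≤ P := by exact_mod_cast hP
  have hq0 : (0 : ℝ) < q := Nat.cast_pos.2 (NeZero.pos q)
  have hB : 0 < R * q / (P : ℝ) ^ k := by positivity
  have h1 := vb_inv ((Iq q).filter (fun β : ℤ => R * q / (P : ℝ) ^ k < |(β : ℝ)|)) _ hB
    (fun β hβ => (mem_filter.1 hβ).2)
  have h2 : ∀ β ∈ (Iq q).filter (fun β : ℤ => R * q / (P : ℝ) ^ k < |(β : ℝ)|),
      ‖vv k P (β : ZMod q)‖ ^ (2 * k + t) ≤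
        ((2 * (P : ℝ)) ^ t * (A * q) ^ 2) * (|(β : ℝ)| ^ 2)⁻¹ := by
    intro β hβ
    obtain ⟨h3, h4⟩ := mem_filter.1 hβ
    have h0 : β ≠ 0 := by
      rintro rfl
      simp only [Int.cast_zero, abs_zero] at h4
      linarith
    have h5 : 2 * |β| ≤ q := by
      have := abs_le.2 (mem_Icc.1 h3)
      omega
    have h6 := h P q β h0 h5
    have h7 : ‖vv k P (β : ZMod q)‖ ≤ 2 * (P : ℝ) := (vv_le k P _).trans (by linarith)
    calc ‖vv k P (β : ZMod q)‖ ^ (2 * k + t) =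
          ‖vv k P (β : ZMod q)‖ ^ t * (‖vv k P (β : ZMod q)‖ ^ k) ^ 2 := by ring
      _ ≤ (2 * (P : ℝ)) ^ t * (A * q / |(β : ℝ)|) ^ 2 := by gcongr
      _ = _ := by rw [div_pow, div_eq_mul_inv, mul_assoc]
  refine (sum_le_sum h2).trans ?_
  rw [← mul_sum]
  refine (mul_le_mul_of_nonneg_left h1 (by positivity)).trans (le_of_eq ?_)
  field_simp
  ring

theorem vsum {k s : ℕ} (hk : 1 ≤ k) (hs : 2 * k ≤ s) : ∃ A : ℝ, 0 < A ∧
    ∀ (P q : ℕ) [NeZero q], 1 ≤ P → P ^ k ≤ q →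
      ∑ β ∈ Iq q, ‖vv k P (β : ZMod q)‖ ^ s ≤ A * q * (P : ℝ) ^ s / (P : ℝ) ^ k := by
  classical
  obtain ⟨A, hA, h⟩ := vtail hk hs
  refine ⟨A + 3 * 2 ^ s, by positivity, fun P q _ hP hq => ?_⟩
  have h1 := h P q hP hq 1 le_rfl
  have hP1 : (1 : ℝ) ≤ P := by exact_mod_cast hP
  have hq1 : (P : ℝ) ^ k ≤ q := by exact_mod_cast hq
  obtain ⟨T, hT⟩ : ∃ T : ℝ, T = q / (P : ℝ) ^ k := ⟨_, rfl⟩
  have hT1 : 1 ≤ T := by
    rw [hT, le_div_iff₀ (by positivity)]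
    linarith
  rw [← sum_filter_add_sum_filter_not (Iq q)
    (fun β : ℤ => 1 * (q : ℝ) / (P : ℝ) ^ k < |(β : ℝ)|)]
  have h2 : (#((Iq q).filter fun β : ℤ => ¬ 1 * (q : ℝ) / (P : ℝ) ^ k < |(β : ℝ)|) : ℝ) ≤
      3 * T := by
    have h3 : ((Iq q).filter fun β : ℤ => ¬ 1 * (q : ℝ) / (P : ℝ) ^ k < |(β : ℝ)|) ⊆
        Icc (-(⌊T⌋₊ : ℤ)) (⌊T⌋₊ : ℤ) := by
      intro β hβ
      have h4 := (mem_filter.1 hβ).2
      rw [one_mul, ← hT, not_lt, ← Int.cast_abs, ← Nat.cast_natAbs] at h4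
      have h5 : β.natAbs ≤ ⌊T⌋₊ := Nat.le_floor h4
      rw [mem_Icc]
      omega
    have h4 := card_le_card h3
    rw [Int.card_Icc] at h4
    have h5 : #((Iq q).filter fun β : ℤ => ¬ 1 * (q : ℝ) / (P : ℝ) ^ k < |(β : ℝ)|) ≤
        2 * ⌊T⌋₊ + 1 := by omega
    have h6 : (#((Iq q).filter fun β : ℤ => ¬ 1 * (q : ℝ) / (P : ℝ) ^ k < |(β : ℝ)|) : ℝ) ≤
        2 * (⌊T⌋₊ : ℝ) + 1 := by exact_mod_cast h5
    have h7 := Nat.floor_le (a := T) (by linarith)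
    linarith
  have h3 : ∑ β ∈ (Iq q).filter (fun β : ℤ => ¬ 1 * (q : ℝ) / (P : ℝ) ^ k < |(β : ℝ)|),
      ‖vv k P (β : ZMod q)‖ ^ s ≤ 3 * T * (2 * (P : ℝ)) ^ s := by
    refine (sum_le_card_nsmul _ _ ((2 * (P : ℝ)) ^ s) fun β _ => ?_).trans ?_
    · have h7 : ‖vv k P (β : ZMod q)‖ ≤ 2 * (P : ℝ) := (vv_le k P _).trans (by linarith)
      gcongr
    · rw [nsmul_eq_mul]
      gcongr
  refine (add_le_add h1 h3).trans (le_of_eq ?_)
  rw [hT]
  field_simp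
  ring

end Pool.Agent.MP_927be3_nt.W

end PartVb

section PartScA

open Finset Polynomial

namespace Pool.Agent.MP_927be3_nt.W

theorem sca_range {d : ℕ} [NeZero d] (f : ZMod d → ℂ) :
    ∑ x ∈ range d, f (x : ZMod d) = ∑ x : ZMod d, f x := by
  refine Finset.sum_nbij' (fun x => (x : ZMod d)) (fun x => x.val) ?_ ?_ ?_ ?_ ?_
  · intro x _; exact mem_univ _
  · intro x _; exact mem_range.2 (ZMod.val_lt x)
  · intro x hx; exact ZMod.val_cast_of_lt (mem_range.1 hx)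
  · intro x _; exact ZMod.natCast_zmod_val x
  · intro x _; rfl

theorem sca_term (k d : ℕ) [NeZero d] (b : ℤ) (x : ℕ) :
    ee (b * (x : ℝ) ^ k / d) = ch ((b : ZMod d) * (x : ZMod d) ^ k) := by
  have h := ch_int (q := d) (b * (x : ℤ) ^ k)
  push_cast at h
  exact h.symm

theorem sc_le (k d : ℕ) (b : ℤ) : ‖Sc k d b‖ ≤ d := by
  refine (norm_sum_le _ _).trans ?_
  simp [norm_ee]

theorem sc_eq (k d : ℕ) [NeZero d] (b : ℤ) :
    Sc k d b = ∑ x : ZMod d, ch ((b : ZMod d) * x ^ k) := by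
  rw [Sc, ← sca_range]
  exact sum_congr rfl fun x _ => sca_term k d b x

theorem sc_period (k d c : ℕ) (hd : 1 ≤ d) (b : ℤ) :
    ∑ x ∈ range (c * d), ee (b * (x : ℝ) ^ k / d) = c * Sc k d b := by
  have : NeZero d := ⟨by omega⟩
  induction c with
  | zero => simp
  | succ c ih =>
    rw [Nat.succ_mul, sum_range_add, ih, Sc]
    have h : ∑ x ∈ range d, ee (b * ((c * d + x : ℕ) : ℝ) ^ k / d)
        = ∑ x ∈ range d, ee (b * (x : ℝ) ^ k / d) := by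
      refine sum_congr rfl fun x _ => ?_
      rw [sca_term, sca_term]
      congr 2
      push_cast
      simp
    rw [h]
    push_cast
    ring

theorem sca_pow {R : Type} [CommRing R] {u v : R} (h : u * v = 0) {k : ℕ} (hk : 1 ≤ k) :
    (u + v) ^ k = u ^ k + v ^ k := by
  induction k, hk using Nat.le_induction with
  | base => simp
  | succ n hn ih =>
    obtain ⟨m, rfl⟩ : ∃ m, n = m + 1 := ⟨n - 1, by omega⟩
    rw [pow_succ, ih]
    linear_combination (u ^ m + v ^ m) * h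

theorem sca_crt {d1 d2 : ℕ} [NeZero (d1 * d2)] (h : Nat.Coprime d1 d2) (f : ZMod (d1 * d2) → ℂ) :
    ∑ x : ZMod (d1 * d2), f x =
      ∑ z ∈ range d1 ×ˢ range d2, f ((d2 * z.1 + d1 * z.2 : ℕ) : ZMod (d1 * d2)) := by
  have hinj : Set.InjOn (fun z : ℕ × ℕ => ((d2 * z.1 + d1 * z.2 : ℕ) : ZMod (d1 * d2)))
      (range d1 ×ˢ range d2 : Finset (ℕ × ℕ)) := by
    intro z hz w hw e
    rw [mem_coe, mem_product, mem_range, mem_range] at hz hw
    have e1 : d2 * z.1 + d1 * z.2 ≡ d2 * w.1 + d1 * w.2 [MOD d1 * d2] :=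
      (ZMod.natCast_eq_natCast_iff _ _ _).1 e
    have e2 : d2 * z.1 ≡ d2 * w.1 [MOD d1] := by
      have h1 := e1.of_mul_right d2
      simpa [Nat.ModEq] using h1
    have e3 : d1 * z.2 ≡ d1 * w.2 [MOD d2] := by
      have h1 := e1.of_mul_left d1
      simpa [Nat.ModEq] using h1
    have e4 := Nat.ModEq.cancel_left_of_coprime h e2
    have e5 := Nat.ModEq.cancel_left_of_coprime h.symm e3
    exact Prod.ext (Nat.ModEq.eq_of_lt_of_lt e4 hz.1 hw.1) (Nat.ModEq.eq_of_lt_of_lt e5 hz.2 hw.2)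
  have himg : (range d1 ×ˢ range d2).image
      (fun z : ℕ × ℕ => ((d2 * z.1 + d1 * z.2 : ℕ) : ZMod (d1 * d2))) = univ := by
    apply eq_univ_of_card
    rw [card_image_of_injOn hinj, card_product, card_range, card_range, ZMod.card]
  rw [← himg, sum_image hinj]

theorem sc_mul {k d1 d2 : ℕ} (hk : 1 ≤ k) (h1 : 1 ≤ d1) (h2 : 1 ≤ d2) (h : Nat.Coprime d1 d2)
    (b : ℤ) : Sc k (d1 * d2) b =
      Sc k d1 (b * (d2 : ℤ) ^ (k - 1)) * Sc k d2 (b * (d1 : ℤ) ^ (k - 1)) := by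
  have : NeZero (d1 * d2) := ⟨Nat.mul_ne_zero (by omega) (by omega)⟩
  rw [sc_eq, sca_crt h, Sc, Sc, sum_mul_sum, sum_product]
  refine sum_congr rfl fun x _ => sum_congr rfl fun y _ => ?_
  have e0 : ((d2 * x : ℕ) : ZMod (d1 * d2)) * ((d1 * y : ℕ) : ZMod (d1 * d2)) = 0 := by
    rw [← Nat.cast_mul, ZMod.natCast_eq_zero_iff]
    exact ⟨x * y, by ring⟩
  rw [Nat.cast_add, sca_pow e0 hk, mul_add, ch_add, ← sca_term, ← sca_term]
  obtain ⟨m, rfl⟩ : ∃ m, k = m + 1 := ⟨k - 1, by omega⟩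
  have h3 : (d1 : ℝ) ≠ 0 := by positivity
  have h4 : (d2 : ℝ) ≠ 0 := by positivity
  simp only [Nat.add_sub_cancel]
  congr 2
  · push_cast
    field_simp
    ring
  · push_cast
    field_simp
    ring

theorem sc_prime {k p : ℕ} (hk : 1 ≤ k) (hp : p.Prime) {b : ℤ} (hb : ¬ (p : ℤ) ∣ b) :
    ‖Sc k p b‖ ^ 2 ≤ 2 * (k : ℝ) ^ 2 * p := by
  have : Fact p.Prime := ⟨hp⟩
  rw [sc_eq]
  exact ES_sq_le (p := p) hk (t := (b : ZMod p))
    (fun h => hb ((ZMod.intCast_zmod_eq_zero_iff_dvd b p).1 h))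

theorem sca_lin {R : Type} [CommRing R] (x : R) {w : R} (h : w * w = 0) (m : ℕ) :
    (x + w) ^ (m + 1) = x ^ (m + 1) + (m + 1) * x ^ m * w := by
  induction m with
  | zero => simp
  | succ m ih =>
    rw [pow_succ, ih]
    push_cast
    linear_combination ((m + 1) * x ^ m) * h

theorem sca_dvd {m p l : ℕ} (hm : 1 ≤ m) (hp : p.Prime) (hl : padicValNat p (m + 1) + 1 ≤ l)
    {b : ℤ} (hb : ¬ (p : ℤ) ∣ b) (x : ℕ) :
    ((p ^ l : ℕ) : ℤ) ∣ b * ((m + 1) * (x : ℤ) ^ m * (p : ℤ) ^ (l - padicValNat p (m + 1) - 1))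
      ↔ p ∣ x := by
  have : Fact p.Prime := ⟨hp⟩
  set t := padicValNat p (m + 1) with ht
  obtain ⟨c, hc⟩ : p ^ t ∣ m + 1 := pow_padicValNat_dvd
  have hc0 : ¬ p ∣ c := by
    rintro ⟨e, he⟩
    refine pow_succ_padicValNat_not_dvd (p := p) (n := m + 1) (by omega) ⟨e, ?_⟩
    rw [← ht, pow_succ, hc, he]
    ring
  obtain ⟨r, rfl⟩ : ∃ r, l = t + 1 + r := ⟨l - (t + 1), by omega⟩
  have hr : t + 1 + r - t - 1 = r := by omega
  have hc' : ((m : ℤ) + 1) = (p : ℤ) ^ t * c := by exact_mod_cast hc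
  have hp' : Prime (p : ℤ) := Nat.prime_iff_prime_int.1 hp
  have hp0 : (p : ℤ) ^ (t + r) ≠ 0 := pow_ne_zero _ hp'.ne_zero
  rw [hr, hc']
  have e1 : ((p ^ (t + 1 + r) : ℕ) : ℤ) = (p : ℤ) ^ (t + r) * p := by
    push_cast
    ring
  have e2 : b * ((p : ℤ) ^ t * c * (x : ℤ) ^ m * (p : ℤ) ^ r)
      = (p : ℤ) ^ (t + r) * (b * c * (x : ℤ) ^ m) := by ring
  rw [e1, e2, mul_dvd_mul_iff_left hp0]
  constructor
  · intro h
    rcases hp'.dvd_or_dvd h with h | h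
    · rcases hp'.dvd_or_dvd h with h | h
      · exact absurd h hb
      · exact absurd (Int.natCast_dvd_natCast.1 h) hc0
    · exact Int.natCast_dvd_natCast.1 (hp'.dvd_of_dvd_pow h)
  · intro h
    exact Dvd.dvd.mul_left (dvd_pow (Int.natCast_dvd_natCast.2 h) (by omega)) _

theorem sca_mult {p : ℕ} (hp : 0 < p) (n : ℕ) (g : ℕ → ℂ) :
    ∑ x ∈ range (p * n), (if p ∣ x then g x else 0) = ∑ y ∈ range n, g (p * y) := by
  rw [← sum_filter]
  symm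
  refine Finset.sum_nbij' (fun y => p * y) (fun x => x / p) ?_ ?_ ?_ ?_ ?_
  · intro y hy
    exact mem_filter.2 ⟨mem_range.2 (Nat.mul_lt_mul_of_pos_left (mem_range.1 hy) hp),
      Dvd.intro _ rfl⟩
  · intro x hx
    exact mem_range.2 (Nat.div_lt_of_lt_mul (mem_range.1 (mem_filter.1 hx).1))
  · intro y _; exact Nat.mul_div_cancel_left y hp
  · intro x hx; exact Nat.mul_div_cancel' (mem_filter.1 hx).2
  · intro y _; rfl

theorem sc_red {k p l : ℕ} (hk : 2 ≤ k) (hp : p.Prime) (hl : 2 * padicValNat p k + 2 ≤ l) {b : ℤ}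
    (hb : ¬ (p : ℤ) ∣ b) :
    Sc k (p ^ l) b = ∑ y ∈ range (p ^ (l - 1)), ee (b * ((p : ℝ) * y) ^ k / (p : ℝ) ^ l) := by
  obtain ⟨m, rfl⟩ : ∃ m, k = m + 1 := ⟨k - 1, by omega⟩
  have : NeZero (p ^ l) := ⟨pow_ne_zero _ hp.ne_zero⟩
  set r := l - padicValNat p (m + 1) - 1 with hr
  set u : ZMod (p ^ l) := (p : ZMod (p ^ l)) ^ r with hu
  have hu2 : u * u = 0 := by
    rw [hu, ← pow_add, ← Nat.cast_pow, ZMod.natCast_eq_zero_iff]
    exact pow_dvd_pow _ (by omega)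
  have h1 : ∀ z : ZMod (p ^ l), Sc (m + 1) (p ^ l) b = ∑ x : ZMod (p ^ l),
      ch ((b : ZMod (p ^ l)) * x ^ (m + 1)) * ch (z * ((b : ZMod (p ^ l)) * (((m : ZMod (p ^ l)) + 1) * x ^ m * u))) := by
    intro z
    rw [sc_eq, ← Equiv.sum_comp (Equiv.addRight (u * z))]
    refine sum_congr rfl fun x _ => ?_
    have h2 : (u * z) * (u * z) = 0 := by linear_combination (z * z) * hu2
    rw [Equiv.coe_addRight, sca_lin x h2, ← ch_add]
    congr 1
    ring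
  have h3 : ((p ^ l : ℕ) : ℂ) * Sc (m + 1) (p ^ l) b = ((p ^ l : ℕ) : ℂ) *
      ∑ x ∈ range (p ^ l), if p ∣ x then ee (b * (x : ℝ) ^ (m + 1) / (p ^ l : ℕ)) else 0 := by
    have h4 : ((p ^ l : ℕ) : ℂ) * Sc (m + 1) (p ^ l) b
        = ∑ _z : ZMod (p ^ l), Sc (m + 1) (p ^ l) b := by
      rw [sum_const, card_univ, ZMod.card, nsmul_eq_mul]
    rw [h4, sum_congr rfl fun z _ => h1 z, sum_comm, ← sca_range, mul_sum]
    refine sum_congr rfl fun x _ => ?_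
    rw [← mul_sum, ch_orth, sca_term]
    have h5 := sca_dvd (m := m) (l := l) (by omega) hp (by omega) hb x
    rw [← ZMod.intCast_zmod_eq_zero_iff_dvd] at h5
    push_cast at h5
    by_cases hx : p ∣ x
    · rw [if_pos hx, if_pos (h5.2 hx), mul_comm]
    · rw [if_neg hx, if_neg (fun h => hx (h5.1 h)), mul_zero, mul_zero]
  have h6 : ((p ^ l : ℕ) : ℂ) ≠ 0 := Nat.cast_ne_zero.2 (NeZero.ne _)
  rw [mul_left_cancel₀ h6 h3]
  obtain ⟨n, rfl⟩ : ∃ n, l = n + 1 := ⟨l - 1, by omega⟩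
  rw [show range (p ^ (n + 1)) = range (p * p ^ n) by rw [pow_succ'], sca_mult hp.pos]
  refine sum_congr rfl fun y _ => ?_
  push_cast
  rfl

theorem sc_low {k p l : ℕ} (hk : 2 ≤ k) (hp : p.Prime) (hl : 2 * padicValNat p k + 2 ≤ l)
    (hlk : l ≤ k) {b : ℤ} (hb : ¬ (p : ℤ) ∣ b) : Sc k (p ^ l) b = (p : ℂ) ^ (l - 1) := by
  rw [sc_red hk hp hl hb]
  have h1 : ∀ y ∈ range (p ^ (l - 1)), ee (b * ((p : ℝ) * y) ^ k / (p : ℝ) ^ l) = 1 := by
    intro y _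
    obtain ⟨c, rfl⟩ : ∃ c, k = l + c := ⟨k - l, by omega⟩
    have h2 : (p : ℝ) ≠ 0 := Nat.cast_ne_zero.2 hp.ne_zero
    rw [← ee_int (b * (p : ℤ) ^ c * (y : ℤ) ^ (l + c))]
    congr 1
    push_cast
    field_simp
    ring
  rw [sum_congr rfl h1]
  simp

theorem sc_high {k p l : ℕ} (hk : 2 ≤ k) (hp : p.Prime) (hl : 2 * padicValNat p k + 2 ≤ l)
    (hlk : k ≤ l) {b : ℤ} (hb : ¬ (p : ℤ) ∣ b) :
    Sc k (p ^ l) b = (p : ℂ) ^ (k - 1) * Sc k (p ^ (l - k)) b := by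
  rw [sc_red hk hp hl hb]
  obtain ⟨c, rfl⟩ : ∃ c, l = k + c := ⟨l - k, by omega⟩
  have h1 : k + c - 1 = (k - 1) + c := by omega
  have h2 : (p : ℝ) ≠ 0 := Nat.cast_ne_zero.2 hp.ne_zero
  rw [h1, pow_add p, Nat.add_sub_cancel_left, ← Nat.cast_pow (α := ℂ),
    ← sc_period k (p ^ c) (p ^ (k - 1)) (Nat.one_le_pow _ _ hp.pos) b]
  refine sum_congr rfl fun y _ => ?_
  congr 1
  push_cast
  field_simp
  ring

end Pool.Agent.MP_927be3_nt.W

end PartScA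

section PartScB

open Finset Polynomial

namespace Pool.Agent.MP_927be3_nt.W

theorem scb_triv {k : ℕ} (hk : 1 ≤ k) (d : ℕ) (b : ℤ) {c : ℝ} (hc : (d : ℝ) ≤ c) :
    ‖Sc k d b‖ ^ k ≤ c * (d : ℝ) ^ (k - 1) := by
  calc ‖Sc k d b‖ ^ k ≤ (d : ℝ) ^ k := pow_le_pow_left₀ (norm_nonneg _) (sc_le k d b) k
    _ = d * (d : ℝ) ^ (k - 1) := by rw [← pow_succ', Nat.sub_add_cancel hk]
    _ ≤ _ := by gcongr

theorem scb_big {k p : ℕ} (hk : 3 ≤ k) (hp : p.Prime) (h : 8 * k ^ 6 < p) {b : ℤ}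
    (hb : ¬ (p : ℤ) ∣ b) : ‖Sc k p b‖ ^ k ≤ (p : ℝ) ^ (k - 1) := by
  have h1 := sc_prime (k := k) (by omega) hp hb
  have hk1 : (3 : ℝ) ≤ k := by exact_mod_cast hk
  have h2 : (2 * (k : ℝ) ^ 2) ^ 3 ≤ p := by
    have : ((8 * k ^ 6 : ℕ) : ℝ) ≤ p := by exact_mod_cast h.le
    push_cast at this
    exact le_of_eq_of_le (by ring) this
  have h3 : (1 : ℝ) ≤ 2 * (k : ℝ) ^ 2 := by nlinarith
  have h4 : (2 * (k : ℝ) ^ 2) ^ k ≤ (p : ℝ) ^ (k - 2) :=
    calc (2 * (k : ℝ) ^ 2) ^ k ≤ (2 * (k : ℝ) ^ 2) ^ (3 * (k - 2)) :=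
          pow_le_pow_right₀ h3 (by omega)
      _ = ((2 * (k : ℝ) ^ 2) ^ 3) ^ (k - 2) := pow_mul _ _ _
      _ ≤ _ := by gcongr
  refine (pow_le_pow_iff_left₀ (by positivity) (by positivity) two_ne_zero).1 ?_
  calc (‖Sc k p b‖ ^ k) ^ 2 = (‖Sc k p b‖ ^ 2) ^ k := by rw [← pow_mul, ← pow_mul, mul_comm]
    _ ≤ (2 * (k : ℝ) ^ 2 * p) ^ k := by gcongr
    _ = (2 * (k : ℝ) ^ 2) ^ k * (p : ℝ) ^ k := mul_pow _ _ _
    _ ≤ (p : ℝ) ^ (k - 2) * (p : ℝ) ^ k := by gcongr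
    _ = _ := by
      rw [← pow_add, ← pow_mul]
      congr 1
      omega

theorem scb_one (k p : ℕ) (hk : 3 ≤ k) :
    (1 : ℝ) ≤ if p ≤ 8 * k ^ 6 then (8 * (k : ℝ) ^ 6) else 1 := by
  split_ifs
  · have hk1 : (1 : ℝ) ≤ k := by exact_mod_cast (by omega : 1 ≤ k)
    have := one_le_pow₀ (n := 6) hk1
    linarith
  · exact le_rfl

theorem sc_pp {k p : ℕ} (hk : 3 ≤ k) (hp : p.Prime) (l : ℕ) {b : ℤ} (hb : ¬ (p : ℤ) ∣ b) :
    ‖Sc k (p ^ l) b‖ ^ k ≤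
      (if p ≤ 8 * k ^ 6 then (8 * (k : ℝ) ^ 6) else 1) * ((p : ℝ) ^ l) ^ (k - 1) := by
  have hc := scb_one k p hk
  have hp1 : (1 : ℝ) ≤ p := by exact_mod_cast hp.one_le
  induction l using Nat.strong_induction_on with
  | _ l ih =>
  by_cases hl : 2 * padicValNat p k + 2 ≤ l
  · rcases le_total k l with hkl | hkl
    · rw [sc_high (by omega) hp hl hkl hb, norm_mul, norm_pow, Complex.norm_natCast, mul_pow]
      have h1 := ih (l - k) (by omega)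
      have h2 : ((p : ℝ) ^ l) ^ (k - 1) = ((p : ℝ) ^ (k - 1)) ^ k * ((p : ℝ) ^ (l - k)) ^ (k - 1) := by
        rw [← pow_mul _ (k - 1) k, mul_comm (k - 1) k, pow_mul, ← mul_pow, ← pow_add,
          Nat.add_sub_cancel' hkl]
      rw [h2, mul_left_comm]
      gcongr
    · rw [sc_low (by omega) hp hl hkl hb, norm_pow, Complex.norm_natCast, ← pow_mul, ← pow_mul]
      have h1 : (l - 1) * k ≤ l * (k - 1) := by
        rw [Nat.sub_one_mul, Nat.mul_sub_one]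
        omega
      exact (pow_le_pow_right₀ hp1 h1).trans (le_mul_of_one_le_left (by positivity) hc)
  · have key : ∀ c : ℝ, (p : ℝ) ^ l ≤ c → ‖Sc k (p ^ l) b‖ ^ k ≤ c * ((p : ℝ) ^ l) ^ (k - 1) := by
      intro c h
      have := scb_triv (k := k) (by omega) (p ^ l) b (c := c) (by exact_mod_cast h)
      exact_mod_cast this
    rcases Nat.eq_zero_or_pos l with h0 | h0
    · exact key _ (by rw [h0, pow_zero]; exact hc)
    have hk6 : k ^ 3 ≤ 8 * k ^ 6 :=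
      (Nat.pow_le_pow_right (by omega) (by norm_num)).trans (Nat.le_mul_of_pos_left _ (by norm_num))
    by_cases hpk : p ∣ k
    · have h1 : p ≤ k := Nat.le_of_dvd (by omega) hpk
      have h2 : p ^ padicValNat p k ≤ k := Nat.le_of_dvd (by omega) pow_padicValNat_dvd
      have h3 : p ^ l ≤ 8 * k ^ 6 :=
        calc p ^ l ≤ p ^ (padicValNat p k + padicValNat p k + 1) :=
              Nat.pow_le_pow_right hp.pos (by omega)
          _ = p ^ padicValNat p k * p ^ padicValNat p k * p := by rw [pow_succ, pow_add]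
          _ ≤ k * k * k := by gcongr
          _ = k ^ 3 := by ring
          _ ≤ _ := hk6
      have h4 : p ≤ 8 * k ^ 6 := (Nat.le_self_pow h0.ne' p).trans h3
      refine key _ ?_
      rw [if_pos h4]
      exact_mod_cast h3
    · have h1 : l = 1 := by
        rw [padicValNat.eq_zero_of_not_dvd hpk] at hl
        omega
      subst h1
      by_cases h4 : p ≤ 8 * k ^ 6
      · refine key _ ?_
        rw [if_pos h4, pow_one]
        exact_mod_cast h4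
      · rw [if_neg h4, one_mul, pow_one, pow_one]
        exact scb_big hk hp (not_le.1 h4) hb

theorem scb_prod {k : ℕ} (hk : 3 ≤ k) (d : ℕ) : 1 ≤ d → ∀ b : ℤ, IsCoprime b (d : ℤ) →
    ‖Sc k d b‖ ^ k ≤ (∏ p ∈ d.primeFactors, if p ≤ 8 * k ^ 6 then (8 * (k : ℝ) ^ 6) else 1) *
      (d : ℝ) ^ (k - 1) := by
  induction d using Nat.recOnPosPrimePosCoprime with
  | prime_pow p n hp hn =>
    intro _ b hb
    rw [Nat.primeFactors_prime_pow hn.ne' hp, prod_singleton, Nat.cast_pow]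
    refine sc_pp hk hp n fun h => ?_
    have h1 : (p : ℤ) ∣ ((p ^ n : ℕ) : ℤ) := by exact_mod_cast dvd_pow_self p hn.ne'
    have h2 := hb.isUnit_of_dvd' h h1
    exact (Nat.prime_iff_prime_int.1 hp).not_isUnit h2
  | zero => intro h; omega
  | one =>
    intro _ b _
    simpa using scb_triv (k := k) (by omega) 1 b (c := 1) (by simp)
  | coprime a c ha hc hac iha ihc =>
    intro _ b hb
    rw [Nat.cast_mul] at hb
    have hac' : IsCoprime (a : ℤ) (c : ℤ) := Nat.isCoprime_iff_coprime.2 hac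
    have h1 := iha ha.le (b * (c : ℤ) ^ (k - 1)) (hb.of_mul_right_left.mul_left hac'.symm.pow_left)
    have h2 := ihc hc.le (b * (a : ℤ) ^ (k - 1)) (hb.of_mul_right_right.mul_left hac'.pow_left)
    rw [sc_mul (by omega) ha.le hc.le hac, norm_mul, mul_pow, hac.primeFactors_mul,
      prod_union hac.disjoint_primeFactors, Nat.cast_mul, mul_pow, mul_mul_mul_comm]
    exact mul_le_mul h1 h2 (by positivity) ((pow_nonneg (norm_nonneg _) _).trans h1)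

theorem sc_bound {k : ℕ} (hk : 3 ≤ k) : ∃ A : ℝ, 0 < A ∧ ∀ d : ℕ, 1 ≤ d → ∀ b : ℤ,
    IsCoprime b (d : ℤ) → ‖Sc k d b‖ ^ k ≤ A * (d : ℝ) ^ (k - 1) := by
  have h1 : (1 : ℝ) ≤ 8 * (k : ℝ) ^ 6 := by simpa using scb_one k 0 hk
  refine ⟨(8 * (k : ℝ) ^ 6) ^ (8 * k ^ 6 + 1), by positivity, fun d hd b hb => ?_⟩
  refine (scb_prod hk d hd b hb).trans (mul_le_mul_of_nonneg_right ?_ (by positivity))
  rw [← prod_filter, prod_const]
  refine pow_le_pow_right₀ h1 ?_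
  rw [← card_range (8 * k ^ 6 + 1)]
  exact card_le_card fun p hp => mem_range.2 (Nat.lt_succ_of_le (mem_filter.1 hp).2)

theorem sc_pow {k s : ℕ} (hk : 3 ≤ k) (hs : 3 * k ≤ s) : ∃ A : ℝ, 0 < A ∧ ∀ d b : ℕ, 1 ≤ d →
    Nat.Coprime b d → ‖Sc k d b / d‖ ^ s ≤ A / (d : ℝ) ^ 3 := by
  obtain ⟨A, hA, h⟩ := sc_bound hk
  refine ⟨A ^ 3, by positivity, fun d b hd hb => ?_⟩
  have hd0 : (0 : ℝ) < d := by exact_mod_cast hd
  have h1 := h d hd b (Nat.isCoprime_iff_coprime.2 hb)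
  rw [norm_div, Complex.norm_natCast]
  have h2 : ‖Sc k d b‖ / d ≤ 1 := (div_le_one hd0).2 (sc_le k d b)
  have h3 : (‖Sc k d b‖ / d) ^ k ≤ A / d := by
    have h4 : (d : ℝ) ^ k = (d : ℝ) ^ (k - 1) * d := by
      rw [← pow_succ, Nat.sub_add_cancel (by omega)]
    rw [div_pow, h4, div_le_div_iff₀ (by positivity) hd0, ← mul_assoc]
    gcongr
  calc (‖Sc k d b‖ / d) ^ s ≤ (‖Sc k d b‖ / d) ^ (k * 3) :=
        pow_le_pow_of_le_one (by positivity) h2 (by omega)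
    _ = ((‖Sc k d b‖ / d) ^ k) ^ 3 := pow_mul _ _ _
    _ ≤ (A / d) ^ 3 := by gcongr
    _ = _ := div_pow _ _ _

theorem aq_le {k s : ℕ} (hk : 3 ≤ k) (hs : 3 * k ≤ s) : ∃ A : ℝ, 0 < A ∧ ∀ n d : ℕ, 1 ≤ d →
    ‖Aq k s n d‖ ≤ A / (d : ℝ) ^ 2 := by
  obtain ⟨A, hA, h⟩ := sc_pow hk hs
  refine ⟨A, hA, fun n d hd => ?_⟩
  have hd0 : (0 : ℝ) < d := by exact_mod_cast hd
  refine (norm_sum_le_of_le _ (n := fun _ => A / (d : ℝ) ^ 3) fun b hb => ?_).trans ?_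
  · rw [norm_mul, norm_ee, mul_one, norm_pow]
    exact h d b hd (mem_filter.1 hb).2
  · rw [sum_const, nsmul_eq_mul]
    have h1 : (#((range d).filter fun b => Nat.Coprime b d) : ℝ) ≤ d := by
      exact_mod_cast (card_filter_le _ _).trans (card_range d).le
    calc _ ≤ d * (A / (d : ℝ) ^ 3) := by gcongr
      _ = _ := by field_simp

end Pool.Agent.MP_927be3_nt.W

end PartScB

section PartTail

open Finset Polynomial

namespace Pool.Agent.MP_927be3_nt.W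

theorem tail_sum {α β : Type} [DecidableEq α] (S : Finset α) (T : Finset β) (φ : β → α)
    (f : α → ℝ) (g : β → ℝ) (hg : ∀ t ∈ T, 0 ≤ g t)
    (h : ∀ a ∈ S, ∃ t ∈ T, φ t = a ∧ f a ≤ g t) : ∑ a ∈ S, f a ≤ ∑ t ∈ T, g t := by
  calc ∑ a ∈ S, f a ≤ ∑ a ∈ S, ∑ t ∈ T with φ t = a, g t := by
        refine sum_le_sum fun a ha => ?_
        obtain ⟨t, ht, e, hle⟩ := h a ha
        exact hle.trans (single_le_sum (f := g) (fun u hu => hg u (mem_filter.1 hu).1)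
          (mem_filter.2 ⟨ht, e⟩))
    _ = ∑ t ∈ T with φ t ∈ S, g t := sum_fiberwise_eq_sum_filter T S φ g
    _ ≤ _ := sum_le_sum_of_subset_of_nonneg (filter_subset _ _) fun t ht _ => hg t ht

theorem tail_le {k P : ℕ} (hk : 1 ≤ k) : (P + 1) ^ k ≤ (8 * k * (P + 1)) ^ (2 * k) :=
  (Nat.pow_le_pow_left (Nat.le_mul_of_pos_left _ (by omega)) k).trans
    (Nat.pow_le_pow_right (by positivity) (by omega))

theorem tail_pt {k P q : ℕ} [NeZero q] (hk : 1 ≤ k) (hP : 1 ≤ P) (hG : Good k P q) {a : ZMod q}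
    (h : Maj k P (‖fw k P a‖ / cM k) a) : ∃ d b : ℕ, ∃ β : ℤ, 1 ≤ d ∧ d ≤ P + 1 ∧ b < d ∧
      Nat.Coprime b d ∧ β ∈ Iq q ∧ a = ((q / d : ℕ) : ZMod q) * (b : ZMod q) + (β : ZMod q) ∧
      ‖fw k P a‖ ≤ 2 * (‖Sc k d b / d‖ * ‖vv k P (β : ZMod q)‖) := by
  have hF := norm_fw_le k P a
  have hF0 := norm_nonneg (fw k P a)
  have h2k : (0 : ℝ) < 2 ^ k := by positivity
  have hc : cM k = 2 * (2 + 19 * 2 ^ k) := rfl
  have hc4 : (4 : ℝ) ≤ cM k := by rw [hc]; linarith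
  have hP1 : (1 : ℝ) ≤ P := by exact_mod_cast hP
  have hq : (0 : ℝ) < q := by exact_mod_cast NeZero.pos q
  obtain ⟨Q, hQ⟩ : ∃ Q, Q = ‖fw k P a‖ / cM k := ⟨_, rfl⟩
  rw [← hQ] at h
  have hQF : ‖fw k P a‖ = Q * cM k := by rw [hQ]; field_simp
  have hQ0 : 0 ≤ Q := by rw [hQ]; positivity
  have hQ4 : 4 * Q ≤ P + 1 := by nlinarith
  obtain ⟨d, b, β, hd, hdQ, hb, hco, hβ, e⟩ := maj_decomp hk hG (by linarith : Q ≤ P + 1) h
  have hdP : d ≤ P + 1 := by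
    have : (d : ℝ) ≤ ((P + 1 : ℕ) : ℝ) := by push_cast; linarith
    exact_mod_cast this
  have hd1 : (1 : ℝ) ≤ d := by exact_mod_cast hd
  have hdq : d ∣ q := hG d hd
    (hdP.trans ((Nat.le_self_pow (by omega) _).trans (tail_le hk)))
  have hPk : (P : ℝ) ≤ (P : ℝ) ^ k := le_self_pow₀ hP1 (by omega)
  have hPk0 : (0 : ℝ) < (P : ℝ) ^ k := by positivity
  rw [le_div_iff₀ hPk0] at hβ
  have hab := abs_nonneg (β : ℝ)
  refine ⟨d, b, β, hd, hdP, hb, hco, ?_, e, ?_⟩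
  · have h1 : |(β : ℝ)| * P ≤ d * |(β : ℝ)| * (P : ℝ) ^ k :=
      mul_le_mul (le_mul_of_one_le_left hab hd1) hPk (by linarith) (by positivity)
    have h2 : 2 * Q * q ≤ P * q := mul_le_mul_of_nonneg_right (by linarith) hq.le
    have h3 : (2 * |(β : ℝ)|) * P ≤ q * P := by nlinarith
    have h4 : 2 * |(β : ℝ)| ≤ q := le_of_mul_le_mul_right h3 (by linarith)
    have h5 : 2 * |β| ≤ (q : ℤ) := by exact_mod_cast h4
    have h6 := le_abs_self β
    have h7 := neg_abs_le β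
    simp only [Iq, mem_Icc]
    omega
  · have h1 := approx (P := P) hk hd hdq b β
    rw [← e] at h1
    have h2 : ((P : ℝ) + 1) ^ k ≤ 2 ^ k * (P : ℝ) ^ k := by
      rw [← mul_pow]; exact pow_le_pow_left₀ (by linarith) (by linarith) k
    have h3 : 19 * d * |(β : ℝ)| * ((P : ℝ) + 1) ^ k / q ≤ 19 * 2 ^ k * Q := by
      rw [div_le_iff₀ hq]
      have a1 := mul_le_mul_of_nonneg_left h2 (show 0 ≤ (d : ℝ) * |(β : ℝ)| by positivity)
      have a2 := mul_le_mul_of_nonneg_left hβ h2k.le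
      nlinarith
    have h4 := norm_add_le (fw k P a - Sc k d b / d * vv k P (β : ZMod q))
      (Sc k d b / d * vv k P (β : ZMod q))
    rw [sub_add_cancel, norm_mul] at h4
    rw [hc] at hQF
    nlinarith

open Classical in
theorem tail {k s : ℕ} (hk : 3 ≤ k) (hs : 3 * k ≤ s) : ∃ A : ℝ, 0 < A ∧
    ∀ (Q0 P q : ℕ) [NeZero q], 1 ≤ Q0 → 1 ≤ P → Good k P q →
      ∑ a : ZMod q with Maj k P (‖fw k P a‖ / cM k) a ∧ ¬ Core k P Q0 a, ‖fw k P a‖ ^ s ≤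
        A * q * (P : ℝ) ^ s / ((P : ℝ) ^ k * Q0) := by
  obtain ⟨A0, hA0, h0⟩ := sc_pow hk hs
  obtain ⟨A1, hA1, h1⟩ := vsum (k := k) (s := s) (by omega) (by omega)
  obtain ⟨A2, hA2, h2⟩ := vtail (k := k) (s := s) (by omega) (by omega)
  refine ⟨2 ^ s * A0 * (2 * A1 + 2 * A2), by positivity, fun Q0 P q _ hQ0 hP hG => ?_⟩
  have hPq : P ^ k ≤ q :=
    (Nat.pow_le_pow_left (Nat.le_succ P) k).trans ((tail_le (by omega)).trans (hG.le (by omega)))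
  have hQ1 : (1 : ℝ) ≤ Q0 := by exact_mod_cast hQ0
  have hP0 : (0 : ℝ) < P := by exact_mod_cast hP
  have b1 := h1 P q hP hPq
  have b2 := h2 P q hP hPq Q0 hQ1
  obtain ⟨Z, hZ⟩ : ∃ Z : ℝ, Z = q * (P : ℝ) ^ s / ((P : ℝ) ^ k * Q0) := ⟨_, rfl⟩
  have hZ0 : 0 ≤ Z := by rw [hZ]; positivity
  have e1 : A1 * q * (P : ℝ) ^ s / (P : ℝ) ^ k = A1 * Z * Q0 := by rw [hZ]; field_simp
  have e2 : A2 * q * (P : ℝ) ^ s / ((P : ℝ) ^ k * Q0) = A2 * Z := by rw [hZ]; field_simp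
  have e3 : 2 ^ s * A0 * (2 * A1 + 2 * A2) * q * (P : ℝ) ^ s / ((P : ℝ) ^ k * Q0) =
      2 ^ s * A0 * (2 * (A1 * Z) + 2 * (A2 * Z)) := by rw [hZ]; field_simp
  rw [e1] at b1
  rw [e2, sum_filter] at b2
  rw [e3]
  refine (tail_sum _ ((Icc 1 (P + 1)).sigma fun d => range d ×ˢ Iq q)
    (fun t => ((q / t.1 : ℕ) : ZMod q) * (t.2.1 : ZMod q) + (t.2.2 : ZMod q)) _
    (fun t => 2 ^ s * A0 / (t.1 : ℝ) ^ 3 *
      ((if Q0 < t.1 then ‖vv k P (t.2.2 : ZMod q)‖ ^ s else 0) +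
        if (Q0 : ℝ) * q / (P : ℝ) ^ k < |(t.2.2 : ℝ)| then ‖vv k P (t.2.2 : ZMod q)‖ ^ s else 0))
    (fun t _ => by positivity) ?_).trans ?_
  · intro a ha
    obtain ⟨hM, hC⟩ := (mem_filter.1 ha).2
    obtain ⟨d, b, β, hd, hdP, hb, hco, hβ, e, hle⟩ := tail_pt (by omega) hP hG hM
    refine ⟨⟨d, b, β⟩, ?_, e.symm, ?_⟩
    · simp only [mem_sigma, mem_Icc, mem_product, mem_range]
      exact ⟨⟨hd, hdP⟩, hb, hβ⟩
    have c1 := pow_le_pow_left₀ (norm_nonneg _) hle s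
    rw [mul_pow, mul_pow] at c1
    have hv : 0 ≤ ‖vv k P (β : ZMod q)‖ ^ s := by positivity
    have c2 := mul_le_mul_of_nonneg_left (mul_le_mul_of_nonneg_right (h0 d b hd hco) hv)
      (show (0 : ℝ) ≤ 2 ^ s by positivity)
    have c3 : ‖vv k P (β : ZMod q)‖ ^ s ≤ (if Q0 < d then ‖vv k P (β : ZMod q)‖ ^ s else 0) +
        if (Q0 : ℝ) * q / (P : ℝ) ^ k < |(β : ℝ)| then ‖vv k P (β : ZMod q)‖ ^ s else 0 := by
      split_ifs with p1 p2 p2
      · linarith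
      · linarith
      · linarith
      · exact absurd ⟨d, b, β, hd, not_lt.1 p1, hb, hco, not_lt.1 p2, e⟩ hC
    refine (c1.trans c2).trans ?_
    have c4 := mul_le_mul_of_nonneg_left c3 (show (0 : ℝ) ≤ 2 ^ s * A0 / (d : ℝ) ^ 3 by positivity)
    refine le_trans (le_of_eq ?_) c4
    ring
  · rw [sum_sigma]
    have s1 : ∑ d ∈ Icc 1 (P + 1), (if Q0 < d then ((d : ℝ) ^ 2)⁻¹ else 0) ≤ 2 / Q0 := by
      rw [← sum_filter]
      have : (Icc 1 (P + 1)).filter (fun d => Q0 < d) = Ioo Q0 (P + 2) := by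
        ext d; simp only [mem_filter, mem_Icc, mem_Ioo]; omega
      rw [this]
      refine (sum_Ioo_inv_sq_le Q0 (P + 2)).trans ?_
      gcongr
      linarith
    have s2 : ∑ d ∈ Icc 1 (P + 1), ((d : ℝ) ^ 2)⁻¹ ≤ 2 := by
      have : Icc 1 (P + 1) = Ioo 0 (P + 2) := by
        ext d; simp only [mem_Icc, mem_Ioo]; omega
      rw [this]
      simpa using sum_Ioo_inv_sq_le (α := ℝ) 0 (P + 2)
    calc _ ≤ ∑ d ∈ Icc 1 (P + 1), 2 ^ s * A0 * (A1 * Z * Q0 *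
          (if Q0 < d then ((d : ℝ) ^ 2)⁻¹ else 0) + A2 * Z * ((d : ℝ) ^ 2)⁻¹) := by
          refine sum_le_sum fun d hd => ?_
          have hd0 : (0 : ℝ) < d := by exact_mod_cast (mem_Icc.1 hd).1
          rw [sum_product]
          simp only [sum_const, card_range, nsmul_eq_mul]
          rw [← mul_sum, sum_add_distrib]
          have c1 : ∑ β ∈ Iq q, (if Q0 < d then ‖vv k P (β : ZMod q)‖ ^ s else 0) ≤
              if Q0 < d then A1 * Z * Q0 else 0 := by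
            split_ifs
            · exact b1
            · simp
          have c2 := mul_le_mul_of_nonneg_left (add_le_add c1 b2)
            (show (0 : ℝ) ≤ d * (2 ^ s * A0 / (d : ℝ) ^ 3) by positivity)
          rw [← mul_assoc]
          refine c2.trans (le_of_eq ?_)
          split_ifs
          · field_simp
          · field_simp
            ring
      _ ≤ _ := by
          rw [← mul_sum, sum_add_distrib, ← mul_sum, ← mul_sum]
          refine mul_le_mul_of_nonneg_left ?_ (by positivity)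
          have c1 := mul_le_mul_of_nonneg_left s1 (show 0 ≤ A1 * Z * Q0 by positivity)
          have c2 := mul_le_mul_of_nonneg_left s2 (show 0 ≤ A2 * Z by positivity)
          have c3 : A1 * Z * Q0 * (2 / Q0) = 2 * (A1 * Z) := by field_simp
          linarith

end Pool.Agent.MP_927be3_nt.W

end PartTail
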