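import Pool.Agent.MP_927be3_nt.Up.D

/-! Singular integral, singular series, the circle method. -/

section PartCoreA

open Finset Polynomial

namespace Pool.Agent.MP_927be3_nt.W

theorem corea_inj {k P Q0 q : ℕ} [NeZero q] (hP : 2 * Q0 ^ 3 < P ^ k) {d d' b b' : ℕ} {β β' : ℤ}
    (h1 : 1 ≤ d) (h2 : d ≤ Q0) (h1' : 1 ≤ d') (h2' : d' ≤ Q0) (hd : d ∣ q) (hd' : d' ∣ q)
    (hb : b < d) (hb' : b' < d') (hc : Nat.Coprime b d) (hc' : Nat.Coprime b' d')
    (hβ : |(β : ℝ)| ≤ (Q0 : ℝ) * q / (P : ℝ) ^ k) (hβ' : |(β' : ℝ)| ≤ (Q0 : ℝ) * q / (P : ℝ) ^ k)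
    (h : ((q / d : ℕ) : ZMod q) * (b : ZMod q) + (β : ZMod q) =
      ((q / d' : ℕ) : ZMod q) * (b' : ZMod q) + (β' : ZMod q)) : d = d' ∧ b = b' ∧ β = β' := by
  obtain ⟨c, hcq⟩ := hd
  obtain ⟨c', hcq'⟩ := hd'
  have hq : 0 < q := NeZero.pos q
  have e1 : q / d = c := by rw [hcq]; exact Nat.mul_div_cancel_left c h1
  have e2 : q / d' = c' := by rw [hcq']; exact Nat.mul_div_cancel_left c' h1'
  rw [e1, e2] at h
  have hz : (((β - β') * d * d' : ℤ) : ZMod q) = 0 := by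
    have a1 : (d : ZMod q) * c = 0 := by rw [← Nat.cast_mul, ← hcq, ZMod.natCast_self]
    have a2 : (d' : ZMod q) * c' = 0 := by rw [← Nat.cast_mul, ← hcq', ZMod.natCast_self]
    push_cast
    linear_combination (d : ZMod q) * d' * h - (b : ZMod q) * d' * a1 + (b' : ZMod q) * d * a2
  rw [ZMod.intCast_zmod_eq_zero_iff_dvd] at hz
  have hPk : (2 : ℝ) * (Q0 : ℝ) ^ 3 < (P : ℝ) ^ k := by exact_mod_cast hP
  have hP0 : (0 : ℝ) < (P : ℝ) ^ k := lt_of_le_of_lt (by positivity) hPk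
  have hqR : (0 : ℝ) < q := by exact_mod_cast hq
  have hlt : |(β - β') * d * d'| < (q : ℤ) := by
    have a1 : |(β : ℝ) - β'| ≤ 2 * ((Q0 : ℝ) * q / (P : ℝ) ^ k) := by
      have := abs_sub (β : ℝ) β'
      linarith
    have a2 : (d : ℝ) ≤ Q0 := by exact_mod_cast h2
    have a3 : (d' : ℝ) ≤ Q0 := by exact_mod_cast h2'
    have a4 : |((β : ℝ) - β') * d * d'| ≤ 2 * ((Q0 : ℝ) * q / (P : ℝ) ^ k) * Q0 * Q0 := by
      rw [abs_mul, abs_mul, Nat.abs_cast, Nat.abs_cast]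
      gcongr
    have a5 : 2 * ((Q0 : ℝ) * q / (P : ℝ) ^ k) * Q0 * Q0 < q := by
      rw [show 2 * ((Q0 : ℝ) * q / (P : ℝ) ^ k) * Q0 * Q0 = (2 * (Q0 : ℝ) ^ 3) * q / (P : ℝ) ^ k by
        ring, div_lt_iff₀ hP0]
      nlinarith
    have a6 : |((β : ℝ) - β') * d * d'| < q := a4.trans_lt a5
    exact_mod_cast a6
  have hz0 := Int.eq_zero_of_abs_lt_dvd hz hlt
  have hββ : β = β' := by
    have a1 : (d : ℤ) ≠ 0 := by omega
    have a2 : (d' : ℤ) ≠ 0 := by omega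
    have := (mul_eq_zero.1 hz0).resolve_right a2
    have := (mul_eq_zero.1 this).resolve_right a1
    omega
  subst hββ
  have h3 : ((c * b : ℕ) : ZMod q) = ((c' * b' : ℕ) : ZMod q) := by
    push_cast
    exact add_right_cancel h
  have hc0 : 0 < c := Nat.pos_of_ne_zero (by rintro rfl; omega)
  have hc0' : 0 < c' := Nat.pos_of_ne_zero (by rintro rfl; omega)
  have l1 : c * b < q := by rw [hcq]; nlinarith
  have l2 : c' * b' < q := by rw [hcq']; nlinarith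
  rw [ZMod.natCast_eq_natCast_iff'] at h3
  rw [Nat.mod_eq_of_lt l1, Nat.mod_eq_of_lt l2] at h3
  have h4 : b * d' = b' * d := by
    have a1 : q * (b * d') = q * (b' * d) := by
      calc q * (b * d') = d * d' * (c * b) := by rw [hcq]; ring
        _ = d * d' * (c' * b') := by rw [h3]
        _ = q * (b' * d) := by rw [hcq']; ring
    exact Nat.eq_of_mul_eq_mul_left hq a1
  have h5 : d = d' := by
    apply Nat.dvd_antisymm
    · exact hc.symm.dvd_of_dvd_mul_left ⟨b', by rw [h4]; ring⟩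
    · exact hc'.symm.dvd_of_dvd_mul_left ⟨b, by rw [← h4]; ring⟩
  subst h5
  exact ⟨rfl, Nat.eq_of_mul_eq_mul_right h1 h4, rfl⟩

theorem corea_mem {x : ℝ} (hx : 0 ≤ x) (β : ℤ) :
    β ∈ Icc (-(⌊x⌋₊ : ℤ)) (⌊x⌋₊ : ℤ) ↔ |(β : ℝ)| ≤ x := by
  rw [mem_Icc, ← abs_le, ← Int.cast_abs, ← Int.le_floor, Int.natCast_floor_eq_floor hx]

theorem corea_pow {u v : ℂ} {M : ℝ} (hu : ‖u‖ ≤ M) (hv : ‖v‖ ≤ M) (s : ℕ) :
    ‖u ^ (s + 1) - v ^ (s + 1)‖ ≤ (s + 1) * M ^ s * ‖u - v‖ := by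
  have hM : 0 ≤ M := (norm_nonneg _).trans hu
  induction s with
  | zero => simp
  | succ s ih =>
    have e : u ^ (s + 1 + 1) - v ^ (s + 1 + 1) =
        u * (u ^ (s + 1) - v ^ (s + 1)) + (u - v) * v ^ (s + 1) := by ring
    rw [e]
    refine (norm_add_le _ _).trans ?_
    rw [norm_mul, norm_mul, norm_pow]
    have a1 : ‖u‖ * ‖u ^ (s + 1) - v ^ (s + 1)‖ ≤ M * ((s + 1) * M ^ s * ‖u - v‖) := by gcongr
    have a2 : ‖u - v‖ * ‖v‖ ^ (s + 1) ≤ ‖u - v‖ * M ^ (s + 1) := by gcongr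
    push_cast
    calc _ ≤ M * ((s + 1) * M ^ s * ‖u - v‖) + ‖u - v‖ * M ^ (s + 1) := add_le_add a1 a2
      _ = _ := by ring

theorem corea_term {k t Q0 P q n d b : ℕ} [NeZero q] (hk : 1 ≤ k) (hP : 1 ≤ P) (h1 : 1 ≤ d)
    (h2 : d ≤ Q0) (hd : d ∣ q) {β : ℤ} (hβ : |(β : ℝ)| ≤ (Q0 : ℝ) * q / (P : ℝ) ^ k) :
    ‖fw k P (((q / d : ℕ) : ZMod q) * (b : ZMod q) + (β : ZMod q)) ^ (t + 1) *
        ch (-((((q / d : ℕ) : ZMod q) * (b : ZMod q) + (β : ZMod q)) * (n : ZMod q))) -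
      (Sc k d b / d) ^ (t + 1) * ee (-(b * n / d)) *
        (vv k P (β : ZMod q) ^ (t + 1) * ch (-((β : ZMod q) * (n : ZMod q))))‖ ≤
      (t + 1) * (2 * (P : ℝ)) ^ t * (2 * Q0 + 19 * 2 ^ k * (Q0 : ℝ) ^ 2) := by
  have hq : (0 : ℝ) < q := by exact_mod_cast NeZero.pos q
  have hPR : (1 : ℝ) ≤ P := by exact_mod_cast hP
  have hdR : (d : ℝ) ≤ Q0 := by exact_mod_cast h2
  have hd1 : (1 : ℝ) ≤ d := by exact_mod_cast h1
  have e1 : ch (-((((q / d : ℕ) : ZMod q) * (b : ZMod q) + (β : ZMod q)) * (n : ZMod q))) =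
      ee (-(b * n / d)) * ch (-((β : ZMod q) * (n : ZMod q))) := by
    have a1 := ch_div hd (-((b : ℤ) * n))
    have a2 : (((-((b : ℤ) * n) : ℤ) : ℝ)) / d = -((b : ℝ) * n / d) := by push_cast; ring
    rw [a2] at a1
    rw [← a1, ← ch_add]
    congr 1
    push_cast
    ring
  rw [e1]
  set u := fw k P (((q / d : ℕ) : ZMod q) * (b : ZMod q) + (β : ZMod q)) with hu
  have e2 : u ^ (t + 1) * (ee (-(b * n / d)) * ch (-((β : ZMod q) * (n : ZMod q)))) -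
      (Sc k d b / d) ^ (t + 1) * ee (-(b * n / d)) *
        (vv k P (β : ZMod q) ^ (t + 1) * ch (-((β : ZMod q) * (n : ZMod q)))) =
      (u ^ (t + 1) - (Sc k d b / d * vv k P (β : ZMod q)) ^ (t + 1)) *
        (ee (-(b * n / d)) * ch (-((β : ZMod q) * (n : ZMod q)))) := by
    rw [mul_pow]; ring
  rw [e2, norm_mul, norm_mul, norm_ee, norm_ch, mul_one, mul_one]
  have b1 : ‖u‖ ≤ 2 * (P : ℝ) := (norm_fw_le k P _).trans (by linarith)
  have b2 : ‖Sc k d b / d * vv k P (β : ZMod q)‖ ≤ 2 * (P : ℝ) := by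
    rw [norm_mul, norm_div, Complex.norm_natCast]
    have c1 : ‖Sc k d b‖ / d ≤ 1 := by
      rw [div_le_one (by linarith)]
      exact sc_le k d b
    have c2 := vv_le k P (β : ZMod q)
    calc _ ≤ 1 * ((P : ℝ) + 1) := by gcongr
      _ ≤ _ := by linarith
  refine (corea_pow b1 b2 t).trans ?_
  have b3 := approx (P := P) hk h1 hd b β
  refine mul_le_mul_of_nonneg_left (b3.trans ?_) (by positivity)
  have c1 : ((P : ℝ) + 1) ^ k ≤ 2 ^ k * (P : ℝ) ^ k := by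
    rw [← mul_pow]
    gcongr
    linarith
  have c2 : 19 * d * |(β : ℝ)| * ((P : ℝ) + 1) ^ k / q ≤
      19 * Q0 * ((Q0 : ℝ) * q / (P : ℝ) ^ k) * (2 ^ k * (P : ℝ) ^ k) / q := by gcongr
  have c3 : 19 * Q0 * ((Q0 : ℝ) * q / (P : ℝ) ^ k) * (2 ^ k * (P : ℝ) ^ k) / q =
      19 * 2 ^ k * (Q0 : ℝ) ^ 2 := by
    field_simp
  linarith

theorem corea_le {k P : ℕ} (hk : 1 ≤ k) :
    P ≤ (8 * k * (P + 1)) ^ (2 * k) ∧ P ^ k ≤ (8 * k * (P + 1)) ^ (2 * k) := by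
  have a1 : P + 1 ≤ 8 * k * (P + 1) := Nat.le_mul_of_pos_left _ (by omega)
  constructor
  · exact le_trans (by omega) (Nat.le_self_pow (by omega) _)
  · calc P ^ k ≤ (8 * k * (P + 1)) ^ k := Nat.pow_le_pow_left (by omega) _
      _ ≤ _ := Nat.pow_le_pow_right (by omega) (by omega)

open Classical in
theorem core_sum {k P Q0 q : ℕ} [NeZero q] (hP : 2 * Q0 ^ 3 < P ^ k)
    (hq : ∀ d, 1 ≤ d → d ≤ Q0 → d ∣ q) (F : ZMod q → ℂ) :
    ∑ a : ZMod q with Core k P Q0 a, F a =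
      ∑ d ∈ Icc 1 Q0, ∑ b ∈ (range d).filter (fun b => Nat.Coprime b d),
        ∑ β ∈ Icc (-(⌊(Q0 : ℝ) * q / (P : ℝ) ^ k⌋₊ : ℤ)) (⌊(Q0 : ℝ) * q / (P : ℝ) ^ k⌋₊ : ℤ),
          F (((q / d : ℕ) : ZMod q) * (b : ZMod q) + (β : ZMod q)) := by
  have hx : (0 : ℝ) ≤ (Q0 : ℝ) * q / (P : ℝ) ^ k := by positivity
  simp_rw [← sum_product']
  rw [sum_sigma']
  symm
  refine sum_bij (fun x _ => ((q / x.1 : ℕ) : ZMod q) * (x.2.1 : ZMod q) + (x.2.2 : ZMod q))
    ?_ ?_ ?_ (fun _ _ => rfl)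
  · rintro ⟨d, b, β⟩ hm
    simp only [mem_sigma, mem_product, mem_filter, mem_range, corea_mem hx] at hm
    simp only [mem_filter, mem_univ, true_and]
    have := mem_Icc.1 hm.1
    exact ⟨d, b, β, this.1, this.2, hm.2.1.1, hm.2.1.2, hm.2.2, rfl⟩
  · rintro ⟨d, b, β⟩ hm ⟨d', b', β'⟩ hm' h
    simp only [mem_sigma, mem_product, mem_filter, mem_range, corea_mem hx] at hm hm'
    have a1 := mem_Icc.1 hm.1
    have a2 := mem_Icc.1 hm'.1
    obtain ⟨rfl, rfl, rfl⟩ := corea_inj hP a1.1 a1.2 a2.1 a2.2 (hq _ a1.1 a1.2) (hq _ a2.1 a2.2)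
      hm.2.1.1 hm'.2.1.1 hm.2.1.2 hm'.2.1.2 hm.2.2 hm'.2.2 h
    rfl
  · intro a ha
    simp only [mem_filter, mem_univ, true_and] at ha
    obtain ⟨d, b, β, h1, h2, h3, h4, h5, h6⟩ := ha
    refine ⟨⟨d, b, β⟩, ?_, h6.symm⟩
    simp only [mem_sigma, mem_product, mem_filter, mem_range, corea_mem hx]
    exact ⟨mem_Icc.2 ⟨h1, h2⟩, ⟨h3, h4⟩, h5⟩

open Classical in
theorem core_main {k s Q0 : ℕ} (hk : 1 ≤ k) (hs : 1 ≤ s) (hQ : 1 ≤ Q0) : ∃ A : ℝ, 0 < A ∧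
    ∃ P0 : ℕ, ∀ (P q n : ℕ) [NeZero q], P0 ≤ P → Good k P q →
      ‖∑ a : ZMod q with Core k P Q0 a, fw k P a ^ s * ch (-(a * (n : ZMod q))) -
        SS k s n Q0 *
          ∑ β ∈ Icc (-(⌊(Q0 : ℝ) * q / (P : ℝ) ^ k⌋₊ : ℤ)) (⌊(Q0 : ℝ) * q / (P : ℝ) ^ k⌋₊ : ℤ),
            vv k P (β : ZMod q) ^ s * ch (-((β : ZMod q) * (n : ZMod q)))‖ ≤
        A * q * (P : ℝ) ^ s / ((P : ℝ) ^ k * P) := by
  obtain ⟨t, rfl⟩ : ∃ t, s = t + 1 := ⟨s - 1, by omega⟩
  have hQR : (1 : ℝ) ≤ Q0 := by exact_mod_cast hQ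
  refine ⟨3 * (Q0 : ℝ) ^ 3 * ((t + 1) * 2 ^ t * (2 * Q0 + 19 * 2 ^ k * (Q0 : ℝ) ^ 2)),
    by positivity, 2 * Q0 ^ 3 + 1, fun P q n _ hP hG => ?_⟩
  have hP1 : 1 ≤ P := by omega
  have hPR : (1 : ℝ) ≤ P := by exact_mod_cast hP1
  have hQP : Q0 ≤ P := by
    have : Q0 ≤ Q0 ^ 3 := Nat.le_self_pow (by omega) _
    omega
  have hPk : 2 * Q0 ^ 3 < P ^ k := lt_of_lt_of_le (by omega) (Nat.le_self_pow (by omega) P)
  have hq : ∀ d, 1 ≤ d → d ≤ Q0 → d ∣ q := fun d h1 h2 =>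
    hG d h1 (h2.trans (hQP.trans (corea_le hk).1))
  have hx : (0 : ℝ) ≤ (Q0 : ℝ) * q / (P : ℝ) ^ k := by positivity
  have hPq : (P : ℝ) ^ k ≤ q := by exact_mod_cast (corea_le hk).2.trans (hG.le hk)
  set x := (Q0 : ℝ) * q / (P : ℝ) ^ k with hxd
  have hx1 : 1 ≤ x := by
    rw [hxd, le_div_iff₀ (by positivity)]
    have : (0 : ℝ) ≤ q := by positivity
    nlinarith
  set E := ((t : ℝ) + 1) * (2 * (P : ℝ)) ^ t * (2 * Q0 + 19 * 2 ^ k * (Q0 : ℝ) ^ 2) with hE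
  have hE0 : 0 ≤ E := by positivity
  rw [core_sum hPk hq, SS, sum_mul, ← sum_sub_distrib]
  have hcard : (#(Icc (-(⌊x⌋₊ : ℤ)) (⌊x⌋₊ : ℤ)) : ℝ) ≤ 3 * x := by
    have a1 : #(Icc (-(⌊x⌋₊ : ℤ)) (⌊x⌋₊ : ℤ)) = 2 * ⌊x⌋₊ + 1 := by
      rw [Int.card_Icc]; omega
    have a2 := Nat.floor_le hx
    rw [a1]
    push_cast
    linarith
  have key : ∀ d ∈ Icc 1 Q0,
      ‖∑ b ∈ (range d).filter (fun b => Nat.Coprime b d),
        ∑ β ∈ Icc (-(⌊x⌋₊ : ℤ)) (⌊x⌋₊ : ℤ),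
          fw k P (((q / d : ℕ) : ZMod q) * (b : ZMod q) + (β : ZMod q)) ^ (t + 1) *
            ch (-((((q / d : ℕ) : ZMod q) * (b : ZMod q) + (β : ZMod q)) * (n : ZMod q))) -
        Aq k (t + 1) n d * ∑ β ∈ Icc (-(⌊x⌋₊ : ℤ)) (⌊x⌋₊ : ℤ),
          vv k P (β : ZMod q) ^ (t + 1) * ch (-((β : ZMod q) * (n : ZMod q)))‖ ≤
        Q0 * (3 * x * E) := by
    intro d hd
    obtain ⟨h1, h2⟩ := mem_Icc.1 hd
    rw [Aq, sum_mul, ← sum_sub_distrib]
    refine (norm_sum_le _ _).trans ((sum_le_card_nsmul _ _ (3 * x * E) fun b _ => ?_).trans ?_)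
    · rw [mul_sum, ← sum_sub_distrib]
      refine (norm_sum_le _ _).trans ((sum_le_card_nsmul _ _ E fun β hβ => ?_).trans ?_)
      · exact corea_term hk hP1 h1 h2 (hq d h1 h2) ((corea_mem hx β).1 hβ)
      · rw [nsmul_eq_mul]
        gcongr
    · rw [nsmul_eq_mul]
      have a1 : #((range d).filter (fun b => Nat.Coprime b d)) ≤ Q0 :=
        (card_filter_le _ _).trans (by rw [card_range]; exact h2)
      have a2 : (#((range d).filter (fun b => Nat.Coprime b d)) : ℝ) ≤ Q0 := by exact_mod_cast a1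
      gcongr
  refine (norm_sum_le _ _).trans ((sum_le_card_nsmul _ _ _ key).trans (le_of_eq ?_))
  rw [nsmul_eq_mul, Nat.card_Icc, Nat.add_sub_cancel, hE, hxd, mul_pow]
  field_simp
  ring

end Pool.Agent.MP_927be3_nt.W

end PartCoreA

section PartSint

open Finset Polynomial

namespace Pool.Agent.MP_927be3_nt.W

theorem sint_diff {k : ℕ} (N : ℕ) :
    ((((N + 1) ^ k - N ^ k : ℕ)) : ℝ) ≤ k * ((N : ℝ) + 1) ^ (k - 1) := by
  have h1 : N ^ k ≤ (N + 1) ^ k := Nat.pow_le_pow_left (Nat.le_succ N) k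
  rw [Nat.cast_sub h1]
  push_cast
  have h2 := abs_pow_sub_pow_le ((N : ℝ) + 1) (N : ℝ) k
  have h3 : (0 : ℝ) ≤ N := Nat.cast_nonneg N
  rw [abs_of_nonneg (show (0 : ℝ) ≤ (N : ℝ) + 1 by linarith), abs_of_nonneg h3,
    max_eq_left (by linarith), show (N : ℝ) + 1 - N = 1 by ring, abs_one, one_mul] at h2
  exact (le_abs_self _).trans h2

theorem sint_aux {k : ℕ} (hk : 1 ≤ k) (N : ℕ) : ∃ wt : ℕ → ℝ,
    (∀ m < N ^ k, 1 / (k * (N : ℝ) ^ (k - 1)) ≤ wt m) ∧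
    ∀ (q : ℕ) [NeZero q] (β : ZMod q),
      ∑ x ∈ range N, ∑ m ∈ Ico (x ^ k) ((x + 1) ^ k),
        ch (β * (m : ZMod q)) / (((x + 1) ^ k - x ^ k : ℕ) : ℂ) =
      ∑ m ∈ range (N ^ k), (wt m : ℂ) * ch (β * (m : ZMod q)) := by
  have hk0 : k ≠ 0 := by omega
  have hkR : (0 : ℝ) < k := by exact_mod_cast hk
  induction N with
  | zero => exact ⟨fun _ => 0, by simp [zero_pow hk0], by simp [zero_pow hk0]⟩
  | succ N ih =>
    obtain ⟨wt, h1, h2⟩ := ih
    have hlt : N ^ k < (N + 1) ^ k := Nat.pow_lt_pow_left (Nat.lt_succ_self N) hk0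
    refine ⟨fun m => if m < N ^ k then wt m else 1 / (((N + 1) ^ k - N ^ k : ℕ) : ℝ), ?_, ?_⟩
    · intro m _
      dsimp only
      split_ifs with h
      · refine le_trans ?_ (h1 m h)
        have hN : N ≠ 0 := by
          rintro rfl
          simp [zero_pow hk0] at h
        have hN' : (0 : ℝ) < N := by exact_mod_cast Nat.pos_of_ne_zero hN
        apply one_div_le_one_div_of_le (by positivity)
        push_cast
        gcongr
        linarith
      · have hp : (0 : ℝ) < (((N + 1) ^ k - N ^ k : ℕ) : ℝ) := by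
          exact_mod_cast Nat.sub_pos_of_lt hlt
        apply one_div_le_one_div_of_le hp
        push_cast [-Nat.cast_sub]
        exact sint_diff N
    · intro q _ β
      rw [sum_range_succ, h2 q β, ← sum_range_add_sum_Ico _ hlt.le]
      congr 1
      · refine sum_congr rfl fun m hm => ?_
        dsimp only
        rw [if_pos (mem_range.1 hm)]
      · refine sum_congr rfl fun m hm => ?_
        dsimp only
        rw [if_neg (not_lt.2 (mem_Ico.1 hm).1)]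
        push_cast [-Nat.cast_sub]
        ring

theorem vv_eq {k : ℕ} (hk : 1 ≤ k) (P : ℕ) : ∃ wt : ℕ → ℝ,
    (∀ m < (P + 1) ^ k, 1 / (k * ((P : ℝ) + 1) ^ (k - 1)) ≤ wt m) ∧
    ∀ (q : ℕ) [NeZero q] (β : ZMod q),
      vv k P β = ∑ m ∈ range ((P + 1) ^ k), (wt m : ℂ) * ch (β * (m : ZMod q)) := by
  obtain ⟨wt, h1, h2⟩ := sint_aux hk (P + 1)
  refine ⟨wt, fun m hm => ?_, fun q _ β => h2 q β⟩
  have := h1 m hm
  push_cast at this
  exact this

theorem sint_expand {q : ℕ} [NeZero q] (s M n : ℕ) (wt : ℕ → ℝ) :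
    ∑ β : ZMod q, (∑ m ∈ range M, (wt m : ℂ) * ch (β * (m : ZMod q))) ^ s *
        ch (-(β * (n : ZMod q))) =
      q * ((∑ f ∈ Fintype.piFinset (fun _ : Fin s => range M),
        if (∑ i, (f i : ZMod q)) - (n : ZMod q) = 0 then ∏ i, wt (f i) else 0 : ℝ) : ℂ) := by
  have h1 : ∀ β : ZMod q, (∑ m ∈ range M, (wt m : ℂ) * ch (β * (m : ZMod q))) ^ s *
      ch (-(β * (n : ZMod q))) = ∑ f ∈ Fintype.piFinset (fun _ : Fin s => range M),
        (∏ i, (wt (f i) : ℂ)) * ch (β * ((∑ i, (f i : ZMod q)) - (n : ZMod q))) := by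
    intro β
    rw [Finset.sum_pow', sum_mul]
    refine sum_congr rfl fun f _ => ?_
    rw [prod_mul_distrib, ← ch_sum, mul_assoc, ← ch_add, ← mul_sum]
    congr 2
    ring
  simp_rw [h1]
  rw [sum_comm]
  push_cast
  rw [mul_sum]
  refine sum_congr rfl fun f _ => ?_
  rw [← mul_sum, ch_orth]
  split_ifs
  · push_cast
    ring
  · simp

theorem sint_lower {q : ℕ} (s M n : ℕ) (wt : ℕ → ℝ) (w : ℝ) (hw : 0 ≤ w) (hn : n < M)
    (h : ∀ m < M, w ≤ wt m) :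
    ((n : ℝ) / (s + 1)) ^ s * w ^ (s + 1) ≤
      ∑ f ∈ Fintype.piFinset (fun _ : Fin (s + 1) => range M),
        if (∑ i, (f i : ZMod q)) - (n : ZMod q) = 0 then ∏ i, wt (f i) else 0 := by
  classical
  set T := Fintype.piFinset (fun _ : Fin s => range (n / (s + 1) + 1)) with hT
  let φ : (Fin s → ℕ) → (Fin (s + 1) → ℕ) := fun g => Fin.cons (n - ∑ i, g i) g
  have hφ : Function.Injective φ := by
    intro g g' hg
    funext i
    have := congrFun hg i.succ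
    simpa [φ] using this
  have hsum : ∀ g ∈ T, ∑ i, g i ≤ n := by
    intro g hg
    have h1 : ∀ i, g i ≤ n / (s + 1) := fun i =>
      Nat.lt_succ_iff.1 (mem_range.1 (Fintype.mem_piFinset.1 hg i))
    calc ∑ i, g i ≤ ∑ _i : Fin s, n / (s + 1) := sum_le_sum fun i _ => h1 i
      _ = s * (n / (s + 1)) := by simp
      _ ≤ (s + 1) * (n / (s + 1)) := Nat.mul_le_mul_right _ (Nat.le_succ s)
      _ ≤ n := Nat.mul_div_le n (s + 1)
  have hmem : ∀ g ∈ T, ∀ i, φ g i < M := by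
    intro g hg i
    refine Fin.cases ?_ (fun j => ?_) i
    · simp only [φ, Fin.cons_zero]
      omega
    · simp only [φ, Fin.cons_succ]
      have h1 : g j ≤ ∑ i, g i := single_le_sum (fun i _ => Nat.zero_le (g i)) (mem_univ j)
      have h2 := hsum g hg
      omega
  have hsub : T.image φ ⊆ Fintype.piFinset (fun _ : Fin (s + 1) => range M) := by
    intro f hf
    obtain ⟨g, hg, rfl⟩ := mem_image.1 hf
    exact Fintype.mem_piFinset.2 fun i => mem_range.2 (hmem g hg i)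
  refine le_trans ?_ (sum_le_sum_of_subset_of_nonneg hsub ?_)
  · rw [sum_image fun g _ g' _ hg => hφ hg]
    have h1 : ∀ g ∈ T, w ^ (s + 1) ≤
        if (∑ i, (φ g i : ZMod q)) - (n : ZMod q) = 0 then ∏ i, wt (φ g i) else 0 := by
      intro g hg
      have h2 : ∑ i, φ g i = n := by
        rw [Fin.sum_univ_succ]
        simp only [φ, Fin.cons_zero, Fin.cons_succ]
        have := hsum g hg
        omega
      rw [if_pos (by rw [← Nat.cast_sum, h2, sub_self])]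
      calc w ^ (s + 1) = ∏ _i : Fin (s + 1), w := by simp
        _ ≤ _ := prod_le_prod (fun _ _ => hw) fun i _ => h _ (hmem g hg i)
    refine le_trans ?_ (card_nsmul_le_sum T _ _ h1)
    rw [nsmul_eq_mul]
    refine mul_le_mul_of_nonneg_right ?_ (by positivity)
    rw [hT, Fintype.card_piFinset]
    simp only [card_range, prod_const, card_univ, Fintype.card_fin]
    push_cast
    gcongr
    have h3 : n < (n / (s + 1) + 1) * (s + 1) := by
      have := Nat.lt_div_mul_add (a := n) (Nat.succ_pos s)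
      simp only [Nat.succ_eq_add_one] at this
      nlinarith
    rw [div_le_iff₀ (by positivity)]
    exact_mod_cast h3.le
  · intro f hf _
    split_ifs
    · exact prod_nonneg fun i _ =>
        hw.trans (h _ (mem_range.1 (Fintype.mem_piFinset.1 hf i)))
    · exact le_rfl

theorem sint_full {k s : ℕ} (hk : 1 ≤ k) (hs : 1 ≤ s) : ∃ c : ℝ, 0 < c ∧
    ∀ (P n q : ℕ) [NeZero q], 1 ≤ P → P ^ k ≤ n → n < (P + 1) ^ k → s * (P + 1) ^ k < q →
      ∃ J : ℝ, c * (P : ℝ) ^ s / (P : ℝ) ^ k ≤ J ∧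
        ∑ β : ZMod q, vv k P β ^ s * ch (-(β * (n : ZMod q))) = q * (J : ℂ) := by
  obtain ⟨t, rfl⟩ : ∃ t, s = t + 1 := ⟨s - 1, by omega⟩
  obtain ⟨j, rfl⟩ : ∃ j, k = j + 1 := ⟨k - 1, by omega⟩
  refine ⟨1 / (((t : ℝ) + 1) ^ t * (((j : ℝ) + 1) * 2 ^ j) ^ (t + 1)), by positivity, ?_⟩
  intro P n q _ hP h1 h2 _
  obtain ⟨wt, hw1, hw2⟩ := vv_eq hk P
  have hP' : (1 : ℝ) ≤ P := by exact_mod_cast hP
  refine ⟨_, ?_, by simp_rw [hw2 q]; exact sint_expand (t + 1) _ n wt⟩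
  refine le_trans ?_ (sint_lower t _ n wt (1 / (((j : ℝ) + 1) * (2 * (P : ℝ)) ^ j))
    (by positivity) h2 fun m hm => le_trans ?_ (hw1 m hm))
  · have h3 : (P : ℝ) ^ (j + 1) ≤ n := by exact_mod_cast h1
    calc 1 / (((t : ℝ) + 1) ^ t * (((j : ℝ) + 1) * 2 ^ j) ^ (t + 1)) * (P : ℝ) ^ (t + 1) /
          (P : ℝ) ^ (j + 1)
        = ((P : ℝ) ^ (j + 1) / (t + 1)) ^ t *
            (1 / (((j : ℝ) + 1) * (2 * (P : ℝ)) ^ j)) ^ (t + 1) := by
          simp only [div_pow, mul_pow, one_pow]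
          field_simp
          ring
      _ ≤ _ := by gcongr
  · apply one_div_le_one_div_of_le (by positivity)
    simp only [Nat.add_sub_cancel]
    push_cast
    gcongr
    linarith

theorem sint_inj {q : ℕ} [NeZero q] (T : Finset (ZMod q)) (U : Finset ℤ) (F : ZMod q → ℝ)
    (hF : ∀ a, 0 ≤ F a) (h : ∀ a ∈ T, a.valMinAbs ∈ U) :
    ∑ a ∈ T, F a ≤ ∑ b ∈ U, F (b : ZMod q) := by
  classical
  have h1 : ∑ b ∈ T.image ZMod.valMinAbs, F (b : ZMod q) = ∑ a ∈ T, F a := by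
    rw [sum_image fun a _ b _ hab => ZMod.injective_valMinAbs hab]
    simp
  rw [← h1]
  refine sum_le_sum_of_subset_of_nonneg ?_ fun b _ _ => hF _
  intro b hb
  obtain ⟨a, ha, rfl⟩ := mem_image.1 hb
  exact h a ha

theorem sint_mem_Iq {q : ℕ} [NeZero q] (a : ZMod q) : a.valMinAbs ∈ Iq q := by
  have h := ZMod.natAbs_valMinAbs_le a
  simp only [Iq, mem_Icc]
  omega

theorem sint_Icc {q : ℕ} [NeZero q] (B : ℕ) (hB : 2 * B < q) (G : ZMod q → ℂ) :
    ∑ β ∈ Icc (-(B : ℤ)) (B : ℤ), G (β : ZMod q) =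
      ∑ a ∈ univ.filter (fun a : ZMod q => |a.valMinAbs| ≤ B), G a := by
  have h1 : ∀ β ∈ Icc (-(B : ℤ)) (B : ℤ), (β : ZMod q).valMinAbs = β := by
    intro β hβ
    rw [mem_Icc] at hβ
    rw [ZMod.valMinAbs_spec]
    refine ⟨rfl, ?_, ?_⟩ <;> omega
  refine sum_nbij' (fun β => (β : ZMod q)) ZMod.valMinAbs ?_ ?_ h1 ?_ fun _ _ => rfl
  · intro β hβ
    simp only [mem_filter, mem_univ, true_and]
    rw [h1 β hβ, abs_le]
    exact mem_Icc.1 hβ
  · intro a ha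
    exact mem_Icc.2 (abs_le.1 (mem_filter.1 ha).2)
  · intro a _
    exact ZMod.coe_valMinAbs a

theorem sint {k s : ℕ} (hk : 1 ≤ k) (hs : 2 * k ≤ s) : ∃ c A : ℝ, 0 < c ∧ 0 < A ∧
    ∀ (P n q : ℕ) [NeZero q], 1 ≤ P → P ^ k ≤ n → n < (P + 1) ^ k → s * (P + 1) ^ k < q →
      ∃ J : ℝ, c * (P : ℝ) ^ s / (P : ℝ) ^ k ≤ J ∧ J ≤ A * (P : ℝ) ^ s / (P : ℝ) ^ k ∧
        ∀ R : ℝ, 1 ≤ R → 3 * R ≤ (P : ℝ) ^ k →
          ‖∑ β ∈ Icc (-(⌊R * q / (P : ℝ) ^ k⌋₊ : ℤ)) (⌊R * q / (P : ℝ) ^ k⌋₊ : ℤ),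
              vv k P (β : ZMod q) ^ s * ch (-((β : ZMod q) * (n : ZMod q))) - q * (J : ℂ)‖ ≤
            A * q * (P : ℝ) ^ s / ((P : ℝ) ^ k * R) := by
  classical
  have hs1 : 1 ≤ s := by omega
  obtain ⟨c, hc, h1⟩ := sint_full hk hs1
  obtain ⟨A1, hA1, h2⟩ := vsum hk hs
  obtain ⟨A2, hA2, h3⟩ := vtail hk hs
  refine ⟨c, A1 + A2, hc, by positivity, ?_⟩
  intro P n q _ hP hn1 hn2 hq
  obtain ⟨J, hJ1, hJ2⟩ := h1 P n q hP hn1 hn2 hq
  have hP' : (0 : ℝ) < P := by exact_mod_cast hP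
  have hq0 : 0 < q := NeZero.pos q
  have hq' : (0 : ℝ) < q := by exact_mod_cast hq0
  have hPq : P ^ k ≤ q := by
    have := Nat.le_mul_of_pos_left ((P + 1) ^ k) hs1
    omega
  have hnorm : ∀ a : ZMod q, ‖vv k P a ^ s * ch (-(a * (n : ZMod q)))‖ = ‖vv k P a‖ ^ s := by
    intro a
    rw [norm_mul, norm_ch, mul_one, norm_pow]
  refine ⟨J, hJ1, ?_, ?_⟩
  · have h4 : (q : ℝ) * J ≤ A1 * q * (P : ℝ) ^ s / (P : ℝ) ^ k := by
      calc (q : ℝ) * J ≤ ‖(q : ℂ) * (J : ℂ)‖ := by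
            rw [norm_mul, Complex.norm_natCast, Complex.norm_real, Real.norm_eq_abs]
            exact mul_le_mul_of_nonneg_left (le_abs_self J) hq'.le
        _ ≤ ∑ a : ZMod q, ‖vv k P a‖ ^ s := by
            rw [← hJ2]
            exact (norm_sum_le _ _).trans (le_of_eq (sum_congr rfl fun a _ => hnorm a))
        _ ≤ ∑ β ∈ Iq q, ‖vv k P (β : ZMod q)‖ ^ s :=
            sint_inj univ (Iq q) (fun a => ‖vv k P a‖ ^ s) (fun a => by positivity)
              fun a _ => sint_mem_Iq a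
        _ ≤ _ := h2 P q hP hPq
    have h5 : J ≤ A1 * (P : ℝ) ^ s / (P : ℝ) ^ k := by
      refine le_of_mul_le_mul_left (h4.trans (le_of_eq ?_)) hq'
      ring
    refine h5.trans ?_
    gcongr
    linarith
  · intro R hR hR3
    set B := ⌊R * q / (P : ℝ) ^ k⌋₊ with hB
    have hB1 : (B : ℝ) ≤ R * q / (P : ℝ) ^ k := Nat.floor_le (by positivity)
    have hB2 : R * q / (P : ℝ) ^ k < B + 1 := Nat.lt_floor_add_one _
    have hB3 : 3 * B ≤ q := by
      have h4 : R * q / (P : ℝ) ^ k ≤ q / 3 := by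
        rw [div_le_div_iff₀ (by positivity) (by norm_num)]
        nlinarith
      have h5 : (3 : ℝ) * B ≤ q := by linarith
      exact_mod_cast h5
    rw [sint_Icc B (by omega) (fun a => vv k P a ^ s * ch (-(a * (n : ZMod q)))), ← hJ2,
      ← sum_filter_add_sum_filter_not univ (fun a : ZMod q => |a.valMinAbs| ≤ B),
      sub_add_cancel_left, norm_neg]
    refine (norm_sum_le _ _).trans ?_
    rw [sum_congr rfl fun a _ => hnorm a]
    refine (sint_inj _ ((Iq q).filter (fun β : ℤ => R * q / (P : ℝ) ^ k < |(β : ℝ)|))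
      (fun a => ‖vv k P a‖ ^ s) (fun a => by positivity) ?_).trans
      ((h3 P q hP hPq R hR).trans ?_)
    · intro a ha
      refine mem_filter.2 ⟨sint_mem_Iq a, hB2.trans_le ?_⟩
      have h4 : (B : ℤ) + 1 ≤ |a.valMinAbs| := not_le.1 (mem_filter.1 ha).2
      exact_mod_cast h4
    · gcongr
      linarith

end Pool.Agent.MP_927be3_nt.W

end PartSint

section PartSingA

open Finset Polynomial

namespace Pool.Agent.MP_927be3_nt.W

theorem mn_four {k s n W : ℕ} (hW : 1 ≤ W) :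
    (W : ℂ) * Mn k s n W = ∑ t ∈ range W, Sc k W t ^ s * ee (-(t * n / W)) := by
  have : NeZero W := ⟨by omega⟩
  have h1 : ∀ t ∈ range W, Sc k W t ^ s * ee (-(t * n / W)) =
      ∑ x : Fin s → ZMod W, ch ((t : ZMod W) * (∑ i, x i ^ k - (n : ZMod W))) := by
    intro t _
    have h2 : ee (-(t * n / W)) = ch (-((t : ZMod W) * (n : ZMod W))) := by
      have := ch_int (q := W) (-(t * n : ℤ))
      push_cast at this
      rw [this, neg_div]
    rw [sc_eq, h2, ← Fin.prod_const, Fintype.prod_sum, sum_mul]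
    refine sum_congr rfl fun x _ => ?_
    rw [mul_sub, sub_eq_add_neg, ch_add, mul_sum, ch_sum, Int.cast_natCast]
  have h3 : ∀ f : ZMod W → ℂ, ∑ t ∈ range W, f t = ∑ t, f t := fun f =>
    sum_nbij' (fun t => (t : ZMod W)) ZMod.val (by simp) (fun t _ => by simpa using ZMod.val_lt t)
      (fun t ht => ZMod.val_cast_of_lt (by simpa using ht)) (by simp) (by simp)
  rw [sum_congr rfl h1,
    h3 fun t => ∑ x : Fin s → ZMod W, ch (t * (∑ i, x i ^ k - (n : ZMod W))), sum_comm]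
  simp only [ch_orth, sub_eq_zero]
  rw [Mn, Nat.card_eq_fintype_card, Fintype.card_subtype, card_filter]
  push_cast
  rw [mul_sum]
  exact sum_congr rfl fun x _ => by split_ifs <;> simp

theorem singa_sc (k : ℕ) {c d : ℕ} (hc : 1 ≤ c) (hd : 1 ≤ d) (b : ℕ) :
    Sc k (c * d) ((c * b : ℕ) : ℤ) = c * Sc k d b := by
  rw [← sc_period k d c hd, Sc]
  refine sum_congr rfl fun x _ => ?_
  congr 1
  have : (c : ℝ) ≠ 0 := by positivity
  push_cast
  field_simp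

theorem aq_sum {k s n W : ℕ} (hs : 1 ≤ s) (hW : 1 ≤ W) :
    ∑ d ∈ W.divisors, Aq k s n d = (Mn k s n W : ℂ) / (W : ℂ) ^ (s - 1) := by
  have hW0 : (W : ℂ) ≠ 0 := by exact_mod_cast (by omega : W ≠ 0)
  obtain ⟨r, rfl⟩ : ∃ r, s = r + 1 := ⟨s - 1, by omega⟩
  rw [Nat.add_sub_cancel, ← mul_div_mul_left _ _ hW0, mn_four hW, ← pow_succ',
    ← Nat.sum_div_divisors W (Aq k (r + 1) n), sum_div,
    ← sum_fiberwise_of_maps_to (s := range W) (t := W.divisors) (g := fun t => Nat.gcd t W)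
      fun t _ => Nat.mem_divisors.2 ⟨Nat.gcd_dvd_right _ _, by omega⟩]
  refine sum_congr rfl fun c hc => ?_
  obtain ⟨d, rfl⟩ := Nat.dvd_of_mem_divisors hc
  have hc1 : 0 < c := Nat.pos_of_mul_pos_right hW
  have hd1 : 0 < d := Nat.pos_of_mul_pos_left hW
  rw [Nat.mul_div_cancel_left _ hc1, Aq]
  refine sum_nbij' (fun b => c * b) (fun t => t / c) ?_ ?_ ?_ ?_ ?_
  · intro b hb
    simp only [mem_filter, mem_range] at hb ⊢
    exact ⟨Nat.mul_lt_mul_of_pos_left hb.1 hc1, by rw [Nat.gcd_mul_left, hb.2, mul_one]⟩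
  · intro t ht
    simp only [mem_filter, mem_range] at ht ⊢
    obtain ⟨b, rfl⟩ : c ∣ t := ht.2 ▸ Nat.gcd_dvd_left _ _
    rw [Nat.mul_div_cancel_left _ hc1]
    refine ⟨Nat.lt_of_mul_lt_mul_left ht.1, ?_⟩
    have := ht.2
    rw [Nat.gcd_mul_left] at this
    exact Nat.eq_of_mul_eq_mul_left hc1 (by rw [this, mul_one])
  · intro b _
    exact Nat.mul_div_cancel_left _ hc1
  · intro t ht
    simp only [mem_filter, mem_range] at ht
    exact Nat.mul_div_cancel' (ht.2 ▸ Nat.gcd_dvd_left _ _)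
  · intro b _
    have h1 : (c : ℝ) ≠ 0 := by positivity
    have h2 : (c : ℂ) ≠ 0 := by exact_mod_cast hc1.ne'
    have h3 : (d : ℂ) ≠ 0 := by exact_mod_cast hd1.ne'
    have h4 : (((c * b : ℕ) : ℝ) * n / (c * d : ℕ)) = b * n / d := by
      push_cast
      field_simp
    rw [singa_sc k hc1 hd1, h4, mul_div_right_comm _ (ee _), ← div_pow]
    push_cast
    rw [mul_div_mul_left _ _ h2]

theorem mn_mul (k s n : ℕ) {a b : ℕ} (h : Nat.Coprime a b) :
    Mn k s n (a * b) = Mn k s n a * Mn k s n b := by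
  unfold Mn
  rw [← Nat.card_prod]
  let e := ZMod.chineseRemainder h
  refine Nat.card_congr
    { toFun := fun x => (⟨fun i => (e (x.1 i)).1, ?_⟩, ⟨fun i => (e (x.1 i)).2, ?_⟩)
      invFun := fun y => ⟨fun i => e.symm (y.1.1 i, y.2.1 i), ?_⟩
      left_inv := fun x => by ext i; simp
      right_inv := fun y => by ext i <;> simp }
  · have := congrArg (fun z => (e z).1) x.2
    simpa [map_sum, Prod.fst_sum] using this
  · have := congrArg (fun z => (e z).2) x.2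
    simpa [map_sum, Prod.snd_sum] using this
  · apply e.injective
    rw [map_sum, map_natCast]
    simp only [map_pow, RingEquiv.apply_symm_apply]
    ext
    · simpa [Prod.fst_sum] using y.1.2
    · simpa [Prod.snd_sum] using y.2.2

end Pool.Agent.MP_927be3_nt.W

end PartSingA

section PartLift

open Finset Polynomial

namespace Pool.Agent.MP_927be3_nt.W

theorem lift_p {p j : ℕ} (hp : p.Prime) (hj : (if p = 2 then 2 else 1) ≤ j) (y w : ℤ) :
    ∃ c : ℤ, (y + p ^ j * w) ^ p = y ^ p + p ^ (j + 1) * (w * y ^ (p - 1) + p * c) := by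
  rcases hp.eq_two_or_odd' with rfl | h
  · obtain ⟨i, rfl⟩ := Nat.exists_eq_add_of_le' (show 2 ≤ j by simpa using hj)
    exact ⟨2 ^ i * w ^ 2, by push_cast; ring⟩
  obtain ⟨i, rfl⟩ := Nat.exists_eq_add_of_le' (show 1 ≤ j by split_ifs at hj <;> omega)
  obtain ⟨c, hc⟩ := odd_sq_dvd_geom_sum₂_sub y (p ^ i * w) h
  have h1 := geom_sum₂_mul (y + p * (p ^ i * w)) y p
  rw [sub_eq_iff_eq_add.mp hc] at h1
  refine ⟨c * w, ?_⟩
  rw [show y + (p : ℤ) ^ (i + 1) * w = y + p * (p ^ i * w) by ring]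
  linear_combination -h1

theorem lift_pow {p r : ℕ} (hp : p.Prime) (hr : (if p = 2 then 2 else 1) ≤ r) (x z : ℤ) (t : ℕ) :
    ∃ c : ℤ, (x + p ^ r * z) ^ p ^ t =
      x ^ p ^ t + p ^ (t + r) * (z * x ^ (p ^ t - 1) + p * c) := by
  induction t with
  | zero => exact ⟨0, by simp⟩
  | succ t ih =>
    obtain ⟨c, hc⟩ := ih
    obtain ⟨d, hd⟩ := lift_p hp (hr.trans (Nat.le_add_left r t)) (x ^ p ^ t)
      (z * x ^ (p ^ t - 1) + p * c)
    refine ⟨c * (x ^ p ^ t) ^ (p - 1) + d, ?_⟩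
    have h1 : p ^ t * p - 1 = p ^ t - 1 + p ^ t * (p - 1) := by
      obtain ⟨a, ha⟩ := Nat.exists_eq_add_of_le' (Nat.one_le_pow t p hp.pos)
      obtain ⟨b, rfl⟩ := Nat.exists_eq_add_of_le' hp.one_le
      rw [ha, Nat.add_sub_cancel, Nat.add_sub_cancel]
      exact Nat.sub_eq_of_eq_add (by ring)
    rw [pow_succ p t, pow_mul, hc, hd, h1, pow_add x, pow_mul, pow_mul]
    ring

theorem lift_step {p k l : ℕ} (hp : p.Prime) (hk : 1 ≤ k) (hl : gm p k ≤ l) {x c : ℤ}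
    (hx : ¬ (p : ℤ) ∣ x) (h : (p : ℤ) ^ l ∣ x ^ k - c) :
    ∃ y : ℤ, ¬ (p : ℤ) ∣ y ∧ (p : ℤ) ^ (l + 1) ∣ y ^ k - c := by
  have := Fact.mk hp
  have hp' := Nat.prime_iff_prime_int.mp hp
  obtain ⟨m, hm⟩ : p ^ padicValNat p k ∣ k := pow_padicValNat_dvd
  have h1 : ¬ p ∣ m := fun ⟨u, hu⟩ =>
    pow_succ_padicValNat_not_dvd (p := p) (n := k) (by omega)
      ⟨u, by rw [pow_succ, mul_assoc, ← hu, ← hm]⟩
  rw [gm] at hl
  generalize padicValNat p k = t at hm hl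
  obtain ⟨r, rfl⟩ := Nat.exists_eq_add_of_le (Nat.le_of_add_right_le hl)
  have hr := Nat.le_of_add_le_add_left hl
  have hr1 : r ≠ 0 := by split_ifs at hr <;> omega
  obtain ⟨e, he⟩ := h
  obtain ⟨u, v, huv⟩ := (hp'.coprime_iff_not_dvd
    (n := m * (x ^ p ^ t) ^ (m - 1) * x ^ (p ^ t - 1))).mpr fun h2 =>
      (hp'.dvd_or_dvd h2).elim (fun h3 => (hp'.dvd_or_dvd h3).elim
        (fun h4 => h1 (by exact_mod_cast h4))
        fun h4 => hx (hp'.dvd_of_dvd_pow (hp'.dvd_of_dvd_pow h4)))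
        fun h3 => hx (hp'.dvd_of_dvd_pow h3)
  obtain ⟨d, hd⟩ := lift_pow hp hr x (-e * v) t
  refine ⟨x + p ^ r * (-e * v), fun h2 => hx
    ((dvd_add_left ((dvd_pow_self _ hr1).mul_right _)).mp h2), ?_⟩
  obtain ⟨f, hf⟩ := sq_dvd_add_pow_sub_sub
    ((p : ℤ) ^ (t + r) * (-e * v * x ^ (p ^ t - 1) + p * d)) (x ^ p ^ t) m
  obtain ⟨j, hj⟩ := Nat.exists_eq_add_of_le' (show 1 ≤ t + r by omega)
  rw [hm, pow_mul] at he
  rw [hm, pow_mul, hd, sub_eq_iff_eq_add.mp (sub_eq_iff_eq_add.mp hf)]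
  rw [hj] at he ⊢
  exact ⟨p ^ j * (-e * v * x ^ (p ^ t - 1) + p * d) ^ 2 * f + (x ^ p ^ t) ^ (m - 1) * d * m + e * u,
    by linear_combination he - (p : ℤ) ^ (j + 1) * e * huv⟩

theorem lift_all {p k l : ℕ} (hp : p.Prime) (hk : 1 ≤ k) (hl : gm p k ≤ l) {x c : ℤ}
    (hx : ¬ (p : ℤ) ∣ x) (h : (p : ℤ) ^ gm p k ∣ x ^ k - c) :
    ∃ y : ℤ, ¬ (p : ℤ) ∣ y ∧ (p : ℤ) ^ l ∣ y ^ k - c := by
  induction l, hl using Nat.le_induction with
  | base => exact ⟨x, hx, h⟩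
  | succ l hl ih =>
    obtain ⟨y, h1, h2⟩ := ih
    exact lift_step hp hk hl h1 h2

theorem mn_lower {k s p : ℕ} (hk : 1 ≤ k) (h : LocOK k s) (hp : p.Prime) (n l : ℕ) :
    (p ^ l) ^ (s - 1) ≤ (p ^ gm p k) ^ (s - 1) * Mn k s n (p ^ l) := by
  obtain ⟨x, i, h1, h2⟩ := h p hp n
  have : NeZero (p ^ l) := ⟨pow_ne_zero _ hp.ne_zero⟩
  have hz : ∀ y : Fin s → ℤ, (p : ℤ) ^ l ∣ ∑ j, y j ^ k - n →
      ∑ j, ((y j : ZMod (p ^ l))) ^ k = (n : ZMod (p ^ l)) := fun y hy => by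
    have h3 := (ZMod.intCast_zmod_eq_zero_iff_dvd _ (p ^ l)).mpr (by exact_mod_cast hy)
    push_cast at h3
    exact sub_eq_zero.mp h3
  rcases le_total l (gm p k) with hl | hl
  · have : Nonempty {x : Fin s → ZMod (p ^ l) // ∑ i, x i ^ k = (n : ZMod (p ^ l))} :=
      ⟨⟨fun j => x j, hz x ((pow_dvd_pow _ hl).trans h2)⟩⟩
    exact (Nat.pow_le_pow_left (Nat.pow_le_pow_right hp.pos hl) _).trans
      (Nat.le_mul_of_pos_right _ Nat.card_pos)
  obtain ⟨r, hr⟩ := Nat.exists_eq_add_of_le hl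
  let y : ({j // j ≠ i} → Fin (p ^ r)) → Fin s → ℤ := fun t j =>
    if hj : j = i then 0 else x j + p ^ gm p k * (t ⟨j, hj⟩ : ℕ)
  have h3 : ∀ t, ∃ z : ℤ, (p : ℤ) ^ l ∣ ∑ j, Function.update (y t) i z j ^ k - n := fun t => by
    obtain ⟨z, -, hz⟩ := lift_all hp hk hl h1 (c := n - ∑ j ∈ univ.erase i, y t j ^ k) (by
      rw [← add_sum_erase _ _ (mem_univ i)] at h2
      have h3 := dvd_add h2 (dvd_sum (s := univ.erase i) (f := fun j => y t j ^ k - x j ^ k)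
        fun j hj => Dvd.dvd.trans (by simp [y, ne_of_mem_erase hj]) (sub_dvd_pow_sub_pow _ _ k))
      rw [sum_sub_distrib] at h3
      exact h3.trans (dvd_of_eq (by ring)))
    refine ⟨z, ?_⟩
    rw [← add_sum_erase _ _ (mem_univ i), Function.update_self, sum_congr rfl fun j hj => by
      rw [Function.update_of_ne (ne_of_mem_erase hj)]]
    convert hz using 1
    ring
  choose z hz' using h3
  have h4 := Nat.card_le_card_of_injective (β := {x : Fin s → ZMod (p ^ l) //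
      ∑ i, x i ^ k = (n : ZMod (p ^ l))})
    (fun t => ⟨fun j => (Function.update (y t) i (z t) j : ℤ), hz _ (hz' t)⟩) fun t t' h4 => by
      funext ⟨j, hj⟩
      have h5 := (ZMod.intCast_eq_intCast_iff_dvd_sub _ _ _).mp
        (congrFun (congrArg Subtype.val h4) j)
      simp only [Function.update_of_ne hj, y, dif_neg hj, add_sub_add_left_eq_sub, ← mul_sub, hr,
        Nat.cast_mul, Nat.cast_pow, pow_add] at h5
      have h6 := (mul_dvd_mul_iff_left (pow_ne_zero _ (Nat.cast_ne_zero.mpr hp.ne_zero))).mp h5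
      exact Fin.ext (Nat.ModEq.eq_of_lt_of_lt ((Nat.modEq_iff_dvd).mpr (by exact_mod_cast h6))
        (t _).2 (t' _).2)
  rw [Nat.card_fun, Nat.card_eq_fintype_card, Nat.card_eq_fintype_card, Fintype.card_fin,
    Fintype.card_subtype_compl, Fintype.card_fin, Fintype.card_subtype_eq] at h4
  calc (p ^ l) ^ (s - 1) = (p ^ gm p k) ^ (s - 1) * (p ^ r) ^ (s - 1) := by
        rw [hr, pow_add, mul_pow]
    _ ≤ _ := Nat.mul_le_mul_left _ h4

end Pool.Agent.MP_927be3_nt.W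

end PartLift

section PartSingB

open Finset Polynomial

namespace Pool.Agent.MP_927be3_nt.W

theorem singb_tail {N : ℕ} (hN : 1 ≤ N) (T : Finset ℕ) (hT : ∀ d ∈ T, N < d) {A : ℝ}
    (hA : 0 ≤ A) : ∑ d ∈ T, A / (d : ℝ) ^ 2 ≤ A / N := by
  have h1 : T ⊆ Ioc N (max N (T.sup id)) := fun d hd =>
    mem_Ioc.2 ⟨hT d hd, le_max_of_le_right (le_sup (f := id) hd)⟩
  have h2 := sum_Ioc_inv_sq_le_sub (α := ℝ) (k := N) (n := max N (T.sup id)) (by omega)
    (le_max_left _ _)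
  have h3 : ∑ d ∈ T, ((d : ℝ) ^ 2)⁻¹ ≤ (N : ℝ)⁻¹ :=
    (sum_le_sum_of_subset_of_nonneg h1 fun _ _ _ => by positivity).trans
      (h2.trans (sub_le_self _ (by positivity)))
  simp only [div_eq_mul_inv, ← mul_sum]
  exact mul_le_mul_of_nonneg_left h3 hA

theorem singb_one (k s n : ℕ) : Aq k s n 1 = 1 := by
  have : ee 0 = 1 := by simpa using ee_int 0
  simp [Aq, Sc, this]

theorem singb_re {k s n W : ℕ} (hs : 1 ≤ s) (hW : 1 ≤ W) :
    (∑ d ∈ W.divisors, Aq k s n d).re = (Mn k s n W : ℝ) / (W : ℝ) ^ (s - 1) := by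
  rw [aq_sum hs hW]
  have : (Mn k s n W : ℂ) / (W : ℂ) ^ (s - 1) = (((Mn k s n W : ℝ) / (W : ℝ) ^ (s - 1) : ℝ) : ℂ) := by
    push_cast
    rfl
  rw [this, Complex.ofReal_re]

theorem singb_prod (T : Finset ℕ) (f : ℕ → ℝ) (h : ∀ i ∈ T, 0 ≤ f i ∧ f i ≤ 1) :
    1 - ∑ i ∈ T, f i ≤ ∏ i ∈ T, (1 - f i) := by
  induction T using Finset.induction_on with
  | empty => simp
  | insert a T ha ih =>
    rw [sum_insert ha, prod_insert ha]
    have h1 := ih fun i hi => h i (mem_insert_of_mem hi)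
    have h2 := h a (mem_insert_self _ _)
    have h3 : 0 ≤ ∑ i ∈ T, f i := sum_nonneg fun i hi => (h i (mem_insert_of_mem hi)).1
    nlinarith [mul_le_mul_of_nonneg_left h1 (sub_nonneg.2 h2.2), mul_nonneg h2.1 h3]

theorem mn_big {k s : ℕ} (hk : 3 ≤ k) (hs : 3 * k ≤ s) : ∃ A : ℝ, 0 < A ∧
    ∀ p n l : ℕ, p.Prime →
      (1 - A / (p : ℝ) ^ 2) * ((p : ℝ) ^ l) ^ (s - 1) ≤ Mn k s n (p ^ l) := by
  obtain ⟨A, hA, h⟩ := aq_le hk hs
  refine ⟨2 * A, by positivity, fun p n l hp => ?_⟩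
  have hp2 : (2 : ℝ) ≤ p := by exact_mod_cast hp.two_le
  have h1 := singb_re (k := k) (n := n) (W := p ^ l) (by omega : 1 ≤ s) (Nat.pow_pos hp.pos)
  rw [Nat.sum_divisors_prime_pow hp, sum_range_succ', pow_zero, singb_one, Complex.add_re,
    Complex.one_re] at h1
  have h2 : ‖∑ i ∈ range l, Aq k s n (p ^ (i + 1))‖ ≤ 2 * A / (p : ℝ) ^ 2 := by
    refine (norm_sum_le _ _).trans ?_
    have h3 : ∀ i ∈ range l, ‖Aq k s n (p ^ (i + 1))‖ ≤ A / (p : ℝ) ^ 2 * (1 / 2) ^ i := by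
      intro i _
      refine (h n _ (Nat.pow_pos hp.pos)).trans ?_
      rw [one_div, inv_pow, ← div_eq_mul_inv, div_div]
      refine div_le_div_of_nonneg_left hA.le (by positivity) ?_
      push_cast
      rw [pow_succ' (p : ℝ) i, mul_pow]
      refine mul_le_mul_of_nonneg_left ?_ (by positivity)
      have h4 : (2 : ℝ) ^ i ≤ (p : ℝ) ^ i := by gcongr
      have h5 : (1 : ℝ) ≤ (p : ℝ) ^ i := one_le_pow₀ (by linarith)
      nlinarith
    refine (sum_le_sum h3).trans ?_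
    rw [← mul_sum]
    refine (mul_le_mul_of_nonneg_left (sum_geometric_two_le l) (by positivity)).trans (le_of_eq ?_)
    ring
  have h3 := (abs_le.1 ((Complex.abs_re_le_norm _).trans h2)).1
  rw [← le_div_iff₀ (by positivity)]
  push_cast at h1
  linarith

theorem mn_all {k s : ℕ} (hk : 3 ≤ k) (hs : 3 * k ≤ s) (h : LocOK k s) : ∃ c : ℝ, 0 < c ∧
    ∀ n W : ℕ, 1 ≤ W → c * (W : ℝ) ^ (s - 1) ≤ Mn k s n W := by
  obtain ⟨A, hA, h1⟩ := mn_big hk hs
  obtain ⟨N, hN⟩ := exists_nat_ge (2 * A + 1)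
  have hN1 : (1 : ℝ) ≤ N := by linarith
  have hN2 : 1 ≤ N := by exact_mod_cast hN1
  set ga : ℕ → ℝ := fun p => (((p : ℝ) ^ gm p k) ^ (s - 1))⁻¹ with hga
  set be : ℕ → ℝ := fun p => if p ≤ N then ga p else 1 - A / (p : ℝ) ^ 2 with hbe
  have hA2 : ∀ p : ℕ, ¬ p ≤ N → 0 ≤ A / (p : ℝ) ^ 2 ∧ A / (p : ℝ) ^ 2 ≤ 1 := by
    intro p hp
    have : (N : ℝ) ≤ p := by exact_mod_cast (not_le.1 hp).le
    refine ⟨by positivity, div_le_one_of_le₀ (by nlinarith) (by positivity)⟩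
  have h0 : ∀ p, 0 ≤ be p := by
    intro p
    simp only [hbe]
    split_ifs with hp
    · positivity
    · linarith [(hA2 p hp).2]
  have h2 : ∀ n W : ℕ, 1 ≤ W → (∏ p ∈ W.primeFactors, be p) * (W : ℝ) ^ (s - 1) ≤ Mn k s n W := by
    intro n W
    induction W using Nat.recOnPosPrimePosCoprime with
    | prime_pow p l hp hl =>
      intro _
      rw [Nat.primeFactors_prime_pow hl.ne' hp, prod_singleton]
      simp only [hbe]
      have hp0 : (0 : ℝ) < p := by exact_mod_cast hp.pos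
      push_cast
      split_ifs with hpN
      · rw [hga, inv_mul_le_iff₀ (by positivity)]
        exact_mod_cast mn_lower (by omega) h hp n l
      · exact h1 p n l hp
    | zero => omega
    | one =>
      intro _
      have : 1 ≤ Mn k s n 1 := by
        have : Nonempty {x : Fin s → ZMod 1 // ∑ i, x i ^ k = (n : ZMod 1)} :=
          ⟨⟨0, Subsingleton.elim _ _⟩⟩
        exact Nat.card_pos
      simpa using this
    | coprime a b ha hb hab iha ihb =>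
      intro _
      rw [hab.primeFactors_mul, prod_union hab.disjoint_primeFactors, mn_mul k s n hab]
      push_cast
      rw [mul_pow, mul_mul_mul_comm]
      exact mul_le_mul (iha ha.le) (ihb hb.le)
        (mul_nonneg (prod_nonneg fun p _ => h0 p) (by positivity)) (by positivity)
  have h3 : 0 < ∏ p ∈ Icc 1 N, ga p := prod_pos fun p hp => by
    have : (0 : ℝ) < p := by exact_mod_cast (mem_Icc.1 hp).1
    positivity
  refine ⟨(∏ p ∈ Icc 1 N, ga p) * (1 / 2), by positivity, fun n W hW => ?_⟩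
  refine (mul_le_mul_of_nonneg_right ?_ (by positivity)).trans (h2 n W hW)
  rw [hbe, prod_ite]
  refine mul_le_mul ?_ ?_ (by norm_num) (prod_nonneg fun p _ => by positivity)
  · refine prod_le_prod_of_subset_of_le_one (fun p hp => ?_) (fun p _ => by positivity)
      fun p hp _ => ?_
    · exact mem_Icc.2 ⟨(Nat.prime_of_mem_primeFactors (mem_filter.1 hp).1).pos, (mem_filter.1 hp).2⟩
    · have : (1 : ℝ) ≤ p := by exact_mod_cast (mem_Icc.1 hp).1
      exact inv_le_one_of_one_le₀ (one_le_pow₀ (one_le_pow₀ this))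
  · refine le_trans ?_ (singb_prod _ _ fun p hp => hA2 p (mem_filter.1 hp).2)
    have h4 := singb_tail hN2 (W.primeFactors.filter fun p => ¬ p ≤ N)
      (fun p hp => not_le.1 (mem_filter.1 hp).2) hA.le
    have h5 : A / N ≤ 1 / 2 := by
      rw [div_le_iff₀ (by positivity)]
      linarith
    linarith

theorem ss_lower {k s : ℕ} (hk : 3 ≤ k) (hs : 3 * k ≤ s) (h : LocOK k s) : ∃ c : ℝ, 0 < c ∧
    ∃ Q1 : ℕ, ∀ n Q0 : ℕ, Q1 ≤ Q0 → c ≤ (SS k s n Q0).re := by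
  obtain ⟨c, hc, h1⟩ := mn_all hk hs h
  obtain ⟨A, hA, h2⟩ := aq_le hk hs
  obtain ⟨N, hN⟩ := exists_nat_ge (2 * A / c)
  refine ⟨c / 2, by positivity, N + 1, fun n Q hQ => ?_⟩
  have hW : 1 ≤ Q.factorial := Nat.factorial_pos Q
  have h3 := singb_re (k := k) (n := n) (by omega : 1 ≤ s) hW
  have h4 : Icc 1 Q ⊆ Q.factorial.divisors := fun d hd =>
    Nat.mem_divisors.2 ⟨Nat.dvd_factorial (mem_Icc.1 hd).1 (mem_Icc.1 hd).2, by omega⟩
  rw [← sum_sdiff h4, Complex.add_re] at h3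
  have h5 : ∀ d ∈ Q.factorial.divisors \ Icc 1 Q, Q < d := by
    intro d hd
    have h6 := Nat.pos_of_mem_divisors (mem_sdiff.1 hd).1
    have h7 := (mem_sdiff.1 hd).2
    rw [mem_Icc] at h7
    omega
  have h6 := (Complex.re_le_norm _).trans ((norm_sum_le _ _).trans
    ((sum_le_sum fun d hd => h2 n d (by have := h5 d hd; omega)).trans
      (singb_tail (by omega) _ h5 hA.le)))
  have h7 := h1 n _ hW
  have hW' : (0 : ℝ) < Q.factorial := by exact_mod_cast hW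
  rw [← le_div_iff₀ (by positivity)] at h7
  have h8 : A / Q ≤ c / 2 := by
    have : (N : ℝ) + 1 ≤ Q := by exact_mod_cast hQ
    have h9 : (0 : ℝ) ≤ N := by positivity
    rw [div_le_iff₀ hc] at hN
    rw [div_le_iff₀ (by linarith)]
    nlinarith
  rw [SS]
  linarith

theorem ss_upper {k s : ℕ} (hk : 3 ≤ k) (hs : 3 * k ≤ s) : ∃ A : ℝ, 0 < A ∧
    ∀ n Q0 : ℕ, ‖SS k s n Q0‖ ≤ A := by
  obtain ⟨A, hA, h2⟩ := aq_le hk hs
  refine ⟨2 * A, by positivity, fun n Q => ?_⟩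
  refine (norm_sum_le _ _).trans ((sum_le_sum fun d hd => h2 n d (mem_Icc.1 hd).1).trans ?_)
  have h1 : Icc 1 Q ⊆ insert 1 (Ioc 1 Q) := fun d hd => by
    simp only [mem_insert, mem_Ioc, mem_Icc] at hd ⊢
    omega
  refine (sum_le_sum_of_subset_of_nonneg h1 fun _ _ _ => by positivity).trans ?_
  rw [sum_insert (by simp)]
  have := singb_tail le_rfl (Ioc 1 Q) (fun d hd => (mem_Ioc.1 hd).1) hA.le
  simp only [Nat.cast_one, one_pow, div_one] at this ⊢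
  linarith

end Pool.Agent.MP_927be3_nt.W

end PartSingB

section PartLoc

open Finset Polynomial

namespace Pool.Agent.MP_927be3_nt.W

theorem loc_card {p k : ℕ} [Fact p.Prime] (hk : 1 ≤ k) :
    p ≤ k * (#(Finset.univ.image fun y : ZMod p => y ^ k) - 1) + 1 := by
  classical
  set A := Finset.univ.image fun y : ZMod p => y ^ k with hA
  have h0 : (0 : ZMod p) ∈ A :=
    Finset.mem_image.2 ⟨0, Finset.mem_univ _, zero_pow (by omega)⟩
  have h1 : #(Finset.univ.erase (0 : ZMod p)) ≤ k * #(A.erase 0) := by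
    refine Finset.card_le_mul_card_image_of_maps_to (f := fun y : ZMod p => y ^ k) ?_ k ?_
    · intro y hy
      refine Finset.mem_erase.2 ⟨pow_ne_zero _ (Finset.mem_erase.1 hy).1, ?_⟩
      exact Finset.mem_image.2 ⟨y, Finset.mem_univ _, rfl⟩
    · intro b _
      refine le_trans (Finset.card_le_card ?_) (card_roots_le (p := p) (by omega : 0 < k) b)
      intro y hy
      exact Finset.mem_filter.2 ⟨Finset.mem_univ _, (Finset.mem_filter.1 hy).2⟩
  rw [Finset.card_erase_of_mem (Finset.mem_univ _), Finset.card_univ, ZMod.card,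
    Finset.card_erase_of_mem h0] at h1
  omega

theorem loc_sums {p k : ℕ} [Fact p.Prime] (i : ℕ) :
    ∃ T : Finset (ZMod p), (∀ c ∈ T, ∃ x : Fin i → ZMod p, ∑ j, x j ^ k = c) ∧
      min p (i * (#(Finset.univ.image fun y : ZMod p => y ^ k) - 1) + 1) ≤ #T := by
  classical
  induction i with
  | zero => exact ⟨{0}, fun c hc => ⟨Fin.elim0, by simp [Finset.mem_singleton.1 hc]⟩, by simp⟩
  | succ i ih =>
    obtain ⟨T, hT, hc⟩ := ih
    set A := Finset.univ.image fun y : ZMod p => y ^ k with hA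
    have hp : p.Prime := Fact.out
    have hAne : A.Nonempty := ⟨0 ^ k, Finset.mem_image.2 ⟨0, Finset.mem_univ _, rfl⟩⟩
    have hTne : T.Nonempty := by
      rw [← Finset.card_pos]
      have := hp.pos
      omega
    have hcd := ZMod.cauchy_davenport hp hAne hTne
    open Pointwise in
    refine ⟨A + T, fun c hc' => ?_, ?_⟩
    · obtain ⟨a, ha, t, ht, rfl⟩ := Finset.mem_add.1 hc'
      obtain ⟨y, -, rfl⟩ := Finset.mem_image.1 ha
      obtain ⟨x, rfl⟩ := hT t ht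
      exact ⟨Fin.cons y x, by simp [Fin.sum_univ_succ]⟩
    · have hA1 : 1 ≤ #A := hAne.card_pos
      have e : (i + 1) * (#A - 1) = i * (#A - 1) + (#A - 1) := by ring
      rw [e]
      omega

theorem loc_cd {p k : ℕ} [Fact p.Prime] (hk : 1 ≤ k) (c : ZMod p) :
    ∃ x : Fin k → ZMod p, ∑ j, x j ^ k = c := by
  classical
  obtain ⟨T, hT, hc⟩ := loc_sums (p := p) (k := k) k
  have h1 := loc_card (p := p) hk
  have h2 : T = Finset.univ := by
    apply Finset.eq_univ_of_card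
    have := Finset.card_le_univ T
    rw [ZMod.card] at this ⊢
    omega
  exact hT c (h2 ▸ Finset.mem_univ c)

theorem loc_pm {k s a b : ℕ} (hk : 1 ≤ k) (hab : a + b ≤ s) (h1 : 1 ≤ a + b) :
    ∃ (x : Fin s → ℤ) (i : Fin s), (x i = 1 ∨ x i = -1) ∧
      ∑ j, x j ^ k = a + b * (-1) ^ k := by
  let f : ℕ → ℤ := fun j => if j < a then 1 else if j < a + b then -1 else 0
  refine ⟨fun j => f j, ⟨0, by omega⟩, ?_, ?_⟩
  · by_cases h : 0 < a
    · left; simp [f, h]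
    · right
      have : 0 < a + b := by omega
      simp [f, h, this]
  · rw [Fin.sum_univ_eq_sum_range (fun j => f j ^ k) s]
    obtain ⟨c, rfl⟩ := Nat.exists_eq_add_of_le hab
    rw [Finset.sum_range_add, Finset.sum_range_add]
    have e1 : ∑ j ∈ range a, f j ^ k = a := by
      rw [Finset.sum_congr rfl (g := fun _ => (1 : ℤ))]
      · simp
      · intro j hj
        simp [f, Finset.mem_range.1 hj]
    have e2 : ∑ j ∈ range b, f (a + j) ^ k = b * (-1) ^ k := by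
      rw [Finset.sum_congr rfl (g := fun _ => (-1 : ℤ) ^ k)]
      · simp
      · intro j hj
        simp [f, Finset.mem_range.1 hj]
    have e3 : ∑ j ∈ range c, f (a + b + j) ^ k = 0 := by
      refine Finset.sum_eq_zero fun j _ => ?_
      have h2 : ¬ a + b + j < a := by omega
      have h3 : ¬ a + b + j < a + b := by omega
      simp only [f, if_neg h2, if_neg h3]
      exact zero_pow (by omega)
    rw [e1, e2, e3, add_zero]

theorem loc_unit {p : ℕ} (hp : p.Prime) {z : ℤ} (hz : z = 1 ∨ z = -1) : ¬ (p : ℤ) ∣ z := by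
  intro h
  have h1 : (p : ℤ) ∣ 1 := by
    rcases hz with rfl | rfl
    · exact h
    · exact (dvd_neg.1 h)
  have h2 : p ∣ 1 := by exact_mod_cast h1
  exact hp.one_lt.ne' (Nat.dvd_one.1 h2)

theorem loc_ones {p k s Q n : ℕ} (hp : p.Prime) (hk : 1 ≤ k) (hQ : 0 < Q) (hs : Q ≤ s) :
    ∃ (x : Fin s → ℤ) (i : Fin s), ¬ (p : ℤ) ∣ x i ∧ (Q : ℤ) ∣ ∑ j, x j ^ k - n := by
  have hr := Nat.mod_lt n hQ
  have hn : (n : ℤ) = Q * (n / Q : ℕ) + (n % Q : ℕ) := by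
    exact_mod_cast (Nat.div_add_mod n Q).symm
  by_cases h0 : n % Q = 0
  · obtain ⟨x, i, hi, hx⟩ := loc_pm (k := k) (s := s) (a := Q) (b := 0) hk (by omega) (by omega)
    refine ⟨x, i, loc_unit hp hi, ⟨1 - (n / Q : ℕ), ?_⟩⟩
    rw [hx, hn, h0]
    push_cast
    ring
  · obtain ⟨x, i, hi, hx⟩ :=
      loc_pm (k := k) (s := s) (a := n % Q) (b := 0) hk (by omega) (by omega)
    refine ⟨x, i, loc_unit hp hi, ⟨-(n / Q : ℕ), ?_⟩⟩
    rw [hx]
    generalize ((n % Q : ℕ) : ℤ) = r at hn ⊢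
    rw [hn]
    simp only [Nat.cast_zero]
    ring

theorem loc_odd {p k s Q n : ℕ} (hp : p.Prime) (hk : Odd k) (hQ : 0 < Q) (hs : Q ≤ 2 * s)
    (h2 : 2 ≤ s) :
    ∃ (x : Fin s → ℤ) (i : Fin s), ¬ (p : ℤ) ∣ x i ∧ (Q : ℤ) ∣ ∑ j, x j ^ k - n := by
  have hk1 : 1 ≤ k := hk.pos
  have hr := Nat.mod_lt n hQ
  have hn : (n : ℤ) = Q * (n / Q : ℕ) + (n % Q : ℕ) := by
    exact_mod_cast (Nat.div_add_mod n Q).symm
  by_cases h0 : n % Q = 0
  · obtain ⟨x, i, hi, hx⟩ := loc_pm (k := k) (s := s) (a := 1) (b := 1) hk1 (by omega) (by omega)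
    refine ⟨x, i, loc_unit hp hi, ⟨-(n / Q : ℕ), ?_⟩⟩
    rw [hx, hn, h0, hk.neg_one_pow]
    simp only [Nat.cast_zero, Nat.cast_one]
    ring
  · by_cases h1 : n % Q ≤ s
    · obtain ⟨x, i, hi, hx⟩ :=
        loc_pm (k := k) (s := s) (a := n % Q) (b := 0) hk1 (by omega) (by omega)
      refine ⟨x, i, loc_unit hp hi, ⟨-(n / Q : ℕ), ?_⟩⟩
      rw [hx]
      generalize ((n % Q : ℕ) : ℤ) = r at hn ⊢
      rw [hn]
      simp only [Nat.cast_zero]
      ring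
    · obtain ⟨x, i, hi, hx⟩ :=
        loc_pm (k := k) (s := s) (a := 0) (b := Q - n % Q) hk1 (by omega) (by omega)
      refine ⟨x, i, loc_unit hp hi, ⟨-(n / Q : ℕ) - 1, ?_⟩⟩
      rw [hx, hk.neg_one_pow, Nat.cast_sub hr.le]
      generalize ((n % Q : ℕ) : ℤ) = r at hn ⊢
      rw [hn]
      simp only [Nat.cast_zero]
      ring

theorem loc_prime {p k s n : ℕ} (hp : p.Prime) (hk : 1 ≤ k) (hs : k + 1 ≤ s) :
    ∃ (x : Fin s → ℤ) (i : Fin s), ¬ (p : ℤ) ∣ x i ∧ (p : ℤ) ∣ ∑ j, x j ^ k - n := by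
  have := Fact.mk hp
  obtain ⟨y, hy⟩ := loc_cd (p := p) hk ((n : ZMod p) - 1)
  let f : ℕ → ℤ := fun j =>
    if h : j < k then ((y ⟨j, h⟩).val : ℤ) else if j = k then 1 else 0
  refine ⟨fun j => f j, ⟨k, by omega⟩, loc_unit hp (Or.inl (by simp [f])), ?_⟩
  rw [Fin.sum_univ_eq_sum_range (fun j => f j ^ k) s]
  obtain ⟨c, rfl⟩ := Nat.exists_eq_add_of_le hs
  rw [Finset.sum_range_add, Finset.sum_range_succ]
  have e3 : ∑ j ∈ range c, f (k + 1 + j) ^ k = 0 := by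
    refine Finset.sum_eq_zero fun j _ => ?_
    have h2 : ¬ k + 1 + j < k := by omega
    have h3 : ¬ k + 1 + j = k := by omega
    simp only [f, dif_neg h2, if_neg h3]
    exact zero_pow (by omega)
  have e2 : f k = 1 := by simp [f]
  rw [e3, e2, ← Fin.sum_univ_eq_sum_range (fun j => f j ^ k) k,
    ← ZMod.intCast_zmod_eq_zero_iff_dvd]
  have e1 : ∀ j : Fin k, ((f j : ℤ) : ZMod p) = y j := by
    intro j
    simp [f, j.2]
  push_cast
  simp only [e1]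
  rw [hy]
  ring

theorem locOK {k s : ℕ} (hk : 1 ≤ k) (h1 : 4 * k ≤ s) (h2 : k ^ 2 ≤ 2 * s) : LocOK k s := by
  intro p hp n
  have := Fact.mk hp
  have hd : p ^ padicValNat p k ∣ k := pow_padicValNat_dvd
  have hle : p ^ padicValNat p k ≤ k := Nat.le_of_dvd (by omega) hd
  have hcast : (p : ℤ) ^ gm p k = ((p ^ gm p k : ℕ) : ℤ) := by push_cast; rfl
  have hpos : 0 < p ^ gm p k := pow_pos hp.pos _
  by_cases h2p : p = 2
  · rw [hcast]
    refine loc_ones hp hk hpos ?_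
    subst h2p
    simp only [gm, if_true, pow_add]
    omega
  · have hg : gm p k = padicValNat p k + 1 := by simp [gm, h2p]
    by_cases hv : padicValNat p k = 0
    · rw [hg, hv, zero_add, pow_one]
      exact loc_prime hp hk (by omega)
    · have hpp : p ≤ p ^ padicValNat p k := Nat.le_self_pow hv p
      rw [hcast]
      rcases Nat.even_or_odd k with he | ho
      · refine loc_ones hp hk hpos ?_
        have hco : Nat.Coprime 2 (p ^ padicValNat p k) :=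
          Nat.Coprime.pow_right _ ((Nat.coprime_primes Nat.prime_two hp).2 (Ne.symm h2p))
        have h3 : 2 * p ^ padicValNat p k ≤ k :=
          Nat.le_of_dvd (by omega) (hco.mul_dvd_of_dvd_of_dvd he.two_dvd hd)
        rw [hg, pow_succ]
        generalize p ^ padicValNat p k = u at *
        nlinarith
      · refine loc_odd hp ho hpos ?_ (by omega)
        rw [hg, pow_succ]
        generalize p ^ padicValNat p k = u at *
        nlinarith

end Pool.Agent.MP_927be3_nt.W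

end PartLoc

section PartCircle

open Finset Polynomial

namespace Pool.Agent.MP_927be3_nt.W

theorem circle_size {k s P q : ℕ} [NeZero q] (hk : 1 ≤ k) (hs : s ≤ P) (hG : Good k P q) :
    s * (P + 1) ^ k < q := by
  refine lt_of_lt_of_le ?_ (hG.le hk)
  have a1 : P + 1 ≤ 8 * k * (P + 1) := Nat.le_mul_of_pos_left _ (by omega)
  have a2 : (P + 1) ^ k ≤ (8 * k * (P + 1)) ^ k := Nat.pow_le_pow_left a1 _
  have a3 : 8 * k * (P + 1) ≤ (8 * k * (P + 1)) ^ k := Nat.le_self_pow (by omega) _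
  have a4 : 0 < (P + 1) ^ k := by positivity
  rw [two_mul, pow_add]
  calc s * (P + 1) ^ k < (P + 1) * (P + 1) ^ k := Nat.mul_lt_mul_of_pos_right (by omega) a4
    _ ≤ _ := Nat.mul_le_mul (by omega) a2

open Classical in
theorem circle_split {q : ℕ} [NeZero q] (F : ZMod q → ℂ) (G : ZMod q → ℝ) (hG : ∀ a, ‖F a‖ = G a)
    (C M : ZMod q → Prop) :
    ‖∑ a, F a - ∑ a with C a, F a‖ ≤ ∑ a with M a ∧ ¬ C a, G a + ∑ a with ¬ M a, G a := by
  rw [← sum_filter_add_sum_filter_not univ C F, add_sub_cancel_left]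
  refine (norm_sum_le _ _).trans ?_
  simp only [hG, sum_filter]
  rw [← sum_add_distrib]
  refine sum_le_sum fun a _ => ?_
  have h0 : 0 ≤ G a := hG a ▸ norm_nonneg _
  by_cases h1 : C a <;> by_cases h2 : M a <;> simp [h1, h2, h0]

theorem circle_fin {R q J Y c1 c2 A2 A3 : ℝ} {S : ℂ} (hq : 0 < q) (hY : 0 < Y) (hc1 : 0 < c1)
    (hc2 : 0 < c2) (h1 : c1 ≤ S.re) (h2 : ‖S‖ ≤ A2) (h3 : c2 * Y ≤ J) (h4 : J ≤ A3 * Y)
    (h : ‖(q : ℂ) * (R : ℂ) - S * ((q : ℂ) * (J : ℂ))‖ ≤ c1 * c2 / 2 * (q * Y)) :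
    c1 * c2 / 2 * Y ≤ R ∧ R ≤ (A2 * A3 + c1 * c2 / 2) * Y := by
  have a1 := (Complex.abs_re_le_norm _).trans h
  have a2 : ((q : ℂ) * (R : ℂ) - S * ((q : ℂ) * (J : ℂ))).re = q * (R - S.re * J) := by
    simp only [Complex.sub_re, Complex.mul_re, Complex.mul_im, Complex.ofReal_re,
      Complex.ofReal_im]
    ring
  rw [a2, abs_mul, abs_of_pos hq, show c1 * c2 / 2 * (q * Y) = q * (c1 * c2 / 2 * Y) by ring,
    mul_le_mul_iff_right₀ hq, abs_le] at a1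
  have hJ : 0 ≤ J := le_trans (by positivity) h3
  have a3 : S.re ≤ A2 := (Complex.re_le_norm S).trans h2
  have a4 : c1 * (c2 * Y) ≤ S.re * J := by gcongr; linarith
  have a5 : S.re * J ≤ A2 * (A3 * Y) := by gcongr; linarith
  constructor <;> nlinarith [a1.1, a1.2]

theorem circle {k s : ℕ} (hk : 3 ≤ k) (hs : 3 * k ≤ s) (hL : LocOK k s) (h : LB k s (cM k)) :
    RepOK k s := by
  classical
  have hk1 : 1 ≤ k := by omega
  obtain ⟨c1, hc1, Q1, hS1⟩ := ss_lower hk hs hL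
  obtain ⟨A2, hA2, hS2⟩ := ss_upper hk hs
  obtain ⟨c2, A3, hc2, hA3, hJ⟩ := sint (s := s) hk1 (by omega)
  obtain ⟨A4, hA4, hT⟩ := tail hk hs
  have hc0 : 0 < c1 * c2 := by positivity
  obtain ⟨N1, hN1⟩ := exists_nat_ge ((A2 * A3 + A4) / (c1 * c2 / 4))
  obtain ⟨Q0, hQ1, hQ2, hQ3⟩ : ∃ Q0 : ℕ, Q1 ≤ Q0 ∧ 1 ≤ Q0 ∧ N1 ≤ Q0 :=
    ⟨Q1 + 1 + N1, by omega, by omega, by omega⟩
  have hQR : (1 : ℝ) ≤ Q0 := by exact_mod_cast hQ2
  have hQ4 : (A2 * A3 + A4) / Q0 ≤ c1 * c2 / 4 := by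
    have : (N1 : ℝ) ≤ Q0 := by exact_mod_cast hQ3
    rw [div_le_iff₀ (by positivity)] at hN1
    rw [div_le_iff₀ (by positivity)]
    nlinarith
  obtain ⟨A1, hA1, P1, hC⟩ := core_main (s := s) hk1 (by omega) hQ2
  obtain ⟨P2, hM⟩ := minor_sum (show 0 < cM k by unfold cM; positivity) (by omega) h
    (show 0 < c1 * c2 / 8 by positivity)
  obtain ⟨N2, hN2⟩ := exists_nat_ge (A1 / (c1 * c2 / 8))
  refine ⟨c1 * c2 / 2, A2 * A3 + c1 * c2 / 2, by positivity, by positivity,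
    P1 + P2 + N2 + s + 3 * Q0, fun P n hP hn1 hn2 => ?_⟩
  obtain ⟨q, hq0, hG⟩ := exists_good k P
  have : NeZero q := ⟨hq0⟩
  have hP1 : 1 ≤ P := by omega
  have hPR : (1 : ℝ) ≤ P := by exact_mod_cast hP1
  have hqR : (0 : ℝ) < q := by exact_mod_cast Nat.pos_of_ne_zero hq0
  have hsz := circle_size hk1 (show s ≤ P by omega) hG
  have hs1 : (P + 1) ^ k ≤ s * (P + 1) ^ k := Nat.le_mul_of_pos_left _ (by omega)
  have hs2 : s * P ^ k ≤ s * (P + 1) ^ k :=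
    Nat.mul_le_mul_left _ (Nat.pow_le_pow_left (by omega) _)
  have hP4 : A1 / P ≤ c1 * c2 / 8 := by
    have : (N2 : ℝ) ≤ P := by exact_mod_cast (show N2 ≤ P by omega)
    rw [div_le_iff₀ (by positivity)] at hN2
    rw [div_le_iff₀ (by positivity)]
    nlinarith
  have hP5 : 3 * (Q0 : ℝ) ≤ (P : ℝ) ^ k := by
    have : 3 * Q0 ≤ P ^ k := le_trans (by omega) (Nat.le_self_pow (by omega) P)
    exact_mod_cast this
  obtain ⟨J, hJ1, hJ2, hJ3⟩ := hJ P n q hP1 hn1 hn2 hsz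
  have e0 := four_rep (k := k) (s := s) (P := P) (n := n) (q := q) (by omega) (by omega)
  have e1 := hC P q n (by omega) hG
  have e2 := hJ3 Q0 hQR hP5
  have e3 := hT Q0 P q hQ2 hP1 hG
  have e4 := hM P (by omega) q hG
  have e5 := circle_split (fun a : ZMod q => fw k P a ^ s * ch (-(a * (n : ZMod q))))
    (fun a => ‖fw k P a‖ ^ s) (fun a => by rw [norm_mul, norm_ch, mul_one, norm_pow])
    (Core k P Q0) (fun a => Maj k P (‖fw k P a‖ / cM k) a)
  rw [e0] at e5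
  set Y := (P : ℝ) ^ s / (P : ℝ) ^ k with hY
  have hY0 : 0 < Y := by positivity
  rw [mul_div_assoc, ← hY] at hJ1 hJ2
  rw [mul_div_assoc _ ((P : ℝ) ^ s), mul_div_assoc _ ((P : ℝ) ^ s), ← hY]
  refine circle_fin (S := SS k s n Q0) hqR hY0 hc1 hc2 (hS1 n Q0 hQ1) (hS2 n Q0) hJ1 hJ2 ?_
  set U := ∑ a : ZMod q with Core k P Q0 a, fw k P a ^ s * ch (-(a * (n : ZMod q))) with hU
  set W := ∑ β ∈ Icc (-(⌊(Q0 : ℝ) * q / (P : ℝ) ^ k⌋₊ : ℤ)) (⌊(Q0 : ℝ) * q / (P : ℝ) ^ k⌋₊ : ℤ),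
    vv k P (β : ZMod q) ^ s * ch (-((β : ZMod q) * (n : ZMod q))) with hW
  have f1 : A1 * q * (P : ℝ) ^ s / ((P : ℝ) ^ k * P) = A1 / P * (q * Y) := by
    rw [hY]; field_simp
  have f2 : A3 * q * (P : ℝ) ^ s / ((P : ℝ) ^ k * Q0) = A3 / Q0 * (q * Y) := by
    rw [hY]; field_simp
  have f3 : A4 * q * (P : ℝ) ^ s / ((P : ℝ) ^ k * Q0) = A4 / Q0 * (q * Y) := by
    rw [hY]; field_simp
  have f4 : c1 * c2 / 8 * q * (P : ℝ) ^ s / (P : ℝ) ^ k = c1 * c2 / 8 * (q * Y) := by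
    rw [hY]; field_simp
  rw [f1] at e1
  rw [f2] at e2
  rw [f3] at e3
  rw [f4] at e4
  have g1 : ‖SS k s n Q0 * (W - q * (J : ℂ))‖ ≤ A2 * (A3 / Q0 * (q * Y)) := by
    rw [norm_mul]
    exact mul_le_mul (hS2 n Q0) e2 (norm_nonneg _) hA2.le
  have g2 : (((q : ℝ) : ℂ)) * (((Rep k s P n : ℕ) : ℝ) : ℂ) -
      SS k s n Q0 * (((q : ℝ) : ℂ) * (J : ℂ)) =
      ((q : ℂ) * (Rep k s P n : ℂ) - U) + (U - SS k s n Q0 * W) +
        SS k s n Q0 * (W - q * (J : ℂ)) := by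
    push_cast
    ring
  rw [g2]
  refine (norm_add₃_le).trans ?_
  have hX : 0 < (q : ℝ) * Y := by positivity
  have g3 : A1 / P * (q * Y) ≤ c1 * c2 / 8 * (q * Y) := by gcongr
  have g4 : (A2 * A3 + A4) / Q0 * (q * Y) ≤ c1 * c2 / 4 * (q * Y) := by gcongr
  have g5 : (A2 * A3 + A4) / Q0 * (q * Y) = A2 * (A3 / Q0 * (q * Y)) + A4 / Q0 * (q * Y) := by
    ring
  linarith

end Pool.Agent.MP_927be3_nt.W

end PartCircle

section PartHolds

open Finset Polynomial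

namespace Pool.Agent.MP_927be3_nt.W

/-- the integer points of the sphere, as a finite set -/
noncomputable def holdsSet (k s P n : ℕ) : Finset (Fin s → ℤ) :=
  {m ∈ Fintype.piFinset (fun _ : Fin s => Icc (-(P : ℤ)) P) | ∑ i, (m i).natAbs ^ k = n}

theorem holds_cast {k s : ℕ} (m : Fin s → ℤ) :
    ((∑ i, (m i).natAbs ^ k : ℕ) : ℝ) = ∑ i, |(m i : ℝ)| ^ k := by
  push_cast
  simp only [Nat.cast_natAbs, Int.cast_abs]

theorem holds_coe {k s P n : ℕ} {r : ℝ} (hr : r ^ k = n) (hn : n < (P + 1) ^ k) :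
    S k s r = holdsSet k s P n := by
  ext m
  simp only [S, holdsSet, Set.mem_ofPred_eq, coe_filter, Fintype.mem_piFinset, mem_Icc]
  rw [hr, ← holds_cast, Nat.cast_inj]
  refine ⟨fun h => ⟨fun i => ?_, h⟩, fun h => h.2⟩
  have h1 : (m i).natAbs ^ k ≤ n := by
    rw [← h]
    exact single_le_sum (f := fun i => (m i).natAbs ^ k) (fun _ _ => Nat.zero_le _) (mem_univ i)
  have h2 : (m i).natAbs < P + 1 := lt_of_pow_lt_pow_left₀ k (Nat.zero_le _) (h1.trans_lt hn)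
  omega

theorem holds_lower (k s P n : ℕ) : Rep k s P n ≤ #(holdsSet k s P n) := by
  refine card_le_card_of_injOn (fun x i => (x i : ℤ)) (fun x hx => ?_) (fun x _ y _ h => ?_)
  · simp only [holdsSet, coe_filter, Fintype.mem_piFinset, mem_range, Set.mem_ofPred_eq, mem_Icc,
      Int.natAbs_natCast] at hx ⊢
    refine ⟨fun i => ?_, hx.2⟩
    have := hx.1 i
    omega
  · funext i
    exact Int.natCast_inj.1 (congrFun h i)

theorem holds_upper (k s P n : ℕ) : #(holdsSet k s P n) ≤ 2 ^ s * Rep k s P n := by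
  have := card_le_card_of_injOn (s := holdsSet k s P n)
    (t := (univ : Finset (Fin s → Bool)) ×ˢ
      {x ∈ Fintype.piFinset (fun _ : Fin s => range (P + 1)) | ∑ i, x i ^ k = n})
    (fun m => (fun i => decide (0 ≤ m i), fun i => (m i).natAbs)) (fun m hm => ?_)
    (fun m _ m' _ h => ?_)
  · simpa [Rep] using this
  · simp only [holdsSet, coe_filter, Fintype.mem_piFinset, Set.mem_ofPred_eq, mem_Icc] at hm
    simp only [coe_product, Set.mem_prod, coe_univ, Set.mem_univ, true_and, coe_filter,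
      Fintype.mem_piFinset, mem_range, Set.mem_ofPred_eq]
    refine ⟨fun i => ?_, hm.2⟩
    have := hm.1 i
    omega
  · funext i
    have h1 := congrFun (Prod.mk.inj h).1 i
    have h2 := congrFun (Prod.mk.inj h).2 i
    simp only [decide_eq_decide] at h1 h2
    omega

theorem holds_of_rep {k s : ℕ} (hk : 1 ≤ k) (h : RepOK k s) : Holds k s := by
  obtain ⟨c, A, hc, hA, P0, h⟩ := h
  refine ⟨c / 2 ^ s, max (c / 2 ^ s) (2 ^ s * 2 ^ k * A), P0 + 1, by positivity, le_max_left _ _,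
    fun r hr ⟨m, hm⟩ hr0 => ?_⟩
  obtain ⟨n, hn⟩ : ∃ n : ℕ, r ^ k = n := ⟨_, by rw [holds_cast]; exact hm.symm⟩
  obtain ⟨P, hP⟩ : ∃ P, P = ⌊r⌋₊ := ⟨_, rfl⟩
  have h1 : (P : ℝ) ≤ r := hP ▸ Nat.floor_le hr.le
  have h2 : r < P + 1 := hP ▸ Nat.lt_floor_add_one r
  have h3 : P0 + 1 ≤ P := hP ▸ Nat.le_floor (by exact_mod_cast hr0)
  have h4 : (1 : ℝ) ≤ P := by exact_mod_cast (by omega : 1 ≤ P)
  have h5 : r ≤ 2 * P := by linarith
  have h6 : (P : ℝ) ^ k ≤ r ^ k := pow_le_pow_left₀ (by positivity) h1 k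
  have h7 : P ^ k ≤ n := by
    rw [hn] at h6
    exact_mod_cast h6
  have h8 : n < (P + 1) ^ k := by
    have := pow_lt_pow_left₀ h2 hr.le (by omega : k ≠ 0)
    rw [hn] at this
    exact_mod_cast this
  obtain ⟨hlo, hhi⟩ := h P n (by omega) h7 h8
  have e1 : (Rep k s P n : ℝ) ≤ #(holdsSet k s P n) := by exact_mod_cast holds_lower k s P n
  have e2 : (#(holdsSet k s P n) : ℝ) ≤ 2 ^ s * Rep k s P n := by
    exact_mod_cast holds_upper k s P n
  rw [holds_coe hn h8, Set.ncard_coe_finset, zpow_sub₀ hr.ne', zpow_natCast, zpow_natCast]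
  have f1 : r ^ s ≤ 2 ^ s * (P : ℝ) ^ s := by
    rw [← mul_pow]
    exact pow_le_pow_left₀ hr.le h5 s
  have f2 : r ^ k ≤ 2 ^ k * (P : ℝ) ^ k := by
    rw [← mul_pow]
    exact pow_le_pow_left₀ hr.le h5 k
  have f3 : (P : ℝ) ^ s ≤ r ^ s := pow_le_pow_left₀ (by positivity) h1 s
  constructor
  · calc c / 2 ^ s * (r ^ s / r ^ k) ≤ c / 2 ^ s * (2 ^ s * (P : ℝ) ^ s / (P : ℝ) ^ k) := by
          gcongr
      _ = c * (P : ℝ) ^ s / (P : ℝ) ^ k := by field_simp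
      _ ≤ _ := hlo.trans e1
  · calc (#(holdsSet k s P n) : ℝ) ≤ 2 ^ s * (A * (P : ℝ) ^ s / (P : ℝ) ^ k) :=
          e2.trans (by gcongr)
      _ = 2 ^ s * 2 ^ k * A * ((P : ℝ) ^ s / (2 ^ k * (P : ℝ) ^ k)) := by field_simp
      _ ≤ 2 ^ s * 2 ^ k * A * (r ^ s / r ^ k) := by gcongr
      _ ≤ _ := mul_le_mul_of_nonneg_right (le_max_right _ _) (by positivity)

end Pool.Agent.MP_927be3_nt.W

end PartHolds

section PartFinA

open Finset Polynomial

namespace Pool.Agent.MP_927be3_nt.W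

theorem holds_of_lb {k s : ℕ} (hk : 3 ≤ k) (h1 : 4 * k ≤ s) (h2 : k ^ 2 ≤ 2 * s)
    (h : LB k s (cM k)) : Holds k s :=
  holds_of_rep (by omega) (circle hk (by omega) (locOK (by omega) h1 h2) h)

theorem fina_cM (k : ℕ) : 2 ≤ cM k := by
  have : (0 : ℝ) < 2 ^ k := by positivity
  unfold cM
  linarith

theorem fina_lb {k j m s t w : ℕ} (hk : 5 ≤ k) (hm : k = j + m) (hm1 : 1 ≤ m)
    (hst : s + t = k * (k + 1)) (ht : 1 ≤ t) (hM : Mom k w j) (hw : 2 * w ≤ j * (j + 1))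
    (h1 : 7 * t + 6 ≤ 3 * s) (h2 : t = 1 ∨ 2 * m * t + 3 * (2 * w) < 3 * s) : LB k s (cM k) := by
  have hK : 30 ≤ k * (k + 1) := by nlinarith
  have h3 : j * (j + 1) + 4 * m + 6 ≤ k * (k + 1) := by
    subst hm
    rcases hm1.eq_or_lt with rfl | h
    · nlinarith
    · nlinarith
  have h4 : 4 * m + 2 * w < s := by
    rcases le_or_gt t 5 with h | h
    · omega
    · have : 2 * m * 6 ≤ 2 * m * t := Nat.mul_le_mul_left _ h
      omega
  have h5 : 2 * m * t + 3 * (2 * w) < 3 * s := by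
    rcases h2 with rfl | h2
    · omega
    · exact h2
  refine lb_glue (by omega) hst ht (by omega) hM (by omega) (by omega) ?_ (fina_cM k)
  rw [show k - j = m by omega]
  exact mid_explicit (by omega) hst ht h4 h5 h1 (by omega)

theorem main1 (k j d : ℕ) (hk : 5 ≤ k) (hj1 : 1 ≤ j) (hj : j < k)
    (h1 : 7 * k * (k + 1) + 6 ≤ 10 * d)
    (h2 : 2 * ((k : ℤ) - j) * (k * (k + 1) - d) < 3 * (d - min (2 ^ j) (j * (j + 1)))) :
    Holds k d := by
  obtain ⟨w, hM, hw⟩ : ∃ w, Mom k w j ∧ 2 * w = min (2 ^ j) (j * (j + 1)) := by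
    rcases le_total (2 ^ j) (j * (j + 1)) with h | h
    · refine ⟨_, hua hj1 hj.le, ?_⟩
      rw [min_eq_left h, ← pow_succ', Nat.sub_add_cancel hj1]
    · exact ⟨_, jline hj1 hj.le, by rw [min_eq_right h, two_mul_tri]⟩
  obtain ⟨m, hm⟩ := Nat.exists_eq_add_of_le hj.le
  have hw' : 2 * w ≤ j * (j + 1) := hw ▸ min_le_right _ _
  have hK : 30 ≤ k * (k + 1) := by nlinarith
  rw [mul_assoc] at h1
  refine holds_of_lb (by omega) (by nlinarith) (by nlinarith) ?_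
  rcases le_or_gt (k * (k + 1)) d with h | h
  · exact lb_mono (fina_lb (s := k * (k + 1) - 1) (t := 1) hk hm (by omega) (by omega) le_rfl
      hM hw' (by omega) (Or.inl rfl)) (by omega)
  · obtain ⟨t, ht⟩ := Nat.exists_eq_add_of_le h.le
    refine fina_lb (t := t) hk hm (by omega) ht.symm (by omega) hM hw' (by omega) (Or.inr ?_)
    have e2 : ((k : ℤ) * (k + 1) - d) = t := by
      have : ((k * (k + 1) : ℕ) : ℤ) = (d + t : ℕ) := by rw [ht]
      push_cast at this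
      linarith
    have e3 : (k : ℤ) - j = m := by rw [hm]; push_cast; ring
    rw [← hw, e2, e3] at h2
    zify
    push_cast at h2
    linarith

end Pool.Agent.MP_927be3_nt.W

end PartFinA

section PartFinB

open Finset Polynomial

namespace Pool.Agent.MP_927be3_nt.W

theorem asym_params {e : ℝ} (he : 0 < e) (he1 : e ≤ 1) : ∃ (m b k0 : ℕ) (g : ℝ), 1 ≤ m ∧ 1 ≤ b ∧
    1 / 2 ≤ g ∧ g * (b + 1) < b ∧ ∀ k s t : ℕ, k0 ≤ k → s + t = k * (k + 1) →
      (t : ℝ) ≤ (4 - e) * k → m < k ∧ 2 * b + 1 ≤ k ∧ 3 ≤ k ∧ 2 * t + 4 < s ∧ 4 * k ≤ s ∧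
        k ^ 2 ≤ 2 * s ∧ (k - m) * (k - m + 1) < s ∧
        ((t : ℝ) + 2) * m < (1 + g) * ((s : ℝ) - ((k - m) * (k - m + 1) : ℕ)) ∧
        4 * (b : ℝ) ^ 2 * m < (1 - g) * ((s : ℝ) - ((k - m) * (k - m + 1) : ℕ)) ∧
        ((2 * b + 3) * g + 1) * t + 2 < (s : ℝ) := by
  obtain ⟨m, hm⟩ : ∃ m : ℕ, 16 < e * m := by
    obtain ⟨m, hm⟩ := exists_nat_gt (16 / e)
    exact ⟨m, by rwa [div_lt_iff₀' he] at hm⟩
  obtain ⟨b, hb⟩ : ∃ b : ℕ, 8 < e * b := by
    obtain ⟨b, hb⟩ := exists_nat_gt (8 / e)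
    exact ⟨b, by rwa [div_lt_iff₀' he] at hb⟩
  have m0 : (16 : ℝ) < m := by nlinarith [Nat.cast_nonneg (α := ℝ) m]
  have b0 : (8 : ℝ) < b := by nlinarith [Nat.cast_nonneg (α := ℝ) b]
  have m1 : 16 < m := by exact_mod_cast m0
  have b1 : 8 < b := by exact_mod_cast b0
  refine ⟨m, b, m * m + m + 4 * b ^ 3 + 8 * b + 20, 1 - e / 8, by omega, by omega, by linarith,
    by nlinarith, fun k s t hk hst ht => ?_⟩
  obtain ⟨j, rfl⟩ : ∃ j, k = j + m := ⟨k - m, by omega⟩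
  rw [Nat.add_sub_cancel]
  have t0 : (0 : ℝ) ≤ t := Nat.cast_nonneg t
  have j0 : (m : ℝ) * m + 4 * b ^ 3 + 8 * b + 20 ≤ j := by
    exact_mod_cast (by omega : m * m + 4 * b ^ 3 + 8 * b + 20 ≤ j)
  have t1 : t ≤ 4 * (j + m) := by
    have : (t : ℝ) ≤ 4 * ((j + m : ℕ) : ℝ) := ht.trans (by gcongr; linarith)
    exact_mod_cast this
  have k1 : 8 * b + 20 ≤ j + m := by omega
  have hs : (s : ℝ) - ((j * (j + 1) : ℕ) : ℝ) = m * (2 * j + m + 1) - t := by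
    have : (s : ℝ) + t = (j + m) * (j + m + 1) := by exact_mod_cast hst
    push_cast
    linarith
  have t2 : (t : ℝ) ≤ 4 * (j + m) := by exact_mod_cast t1
  have b3 : (0 : ℝ) ≤ b ^ 3 := by positivity
  have u0 : (m : ℝ) * j ≤ m * (2 * j + m + 1) - t := by nlinarith
  have k2 := Nat.mul_le_mul_left (j + m) k1
  refine ⟨by omega, by omega, by omega, by nlinarith, by nlinarith, by nlinarith, ?_, ?_, ?_, ?_⟩
  · have : (0 : ℝ) < (s : ℝ) - ((j * (j + 1) : ℕ) : ℝ) := by rw [hs]; nlinarith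
    exact_mod_cast sub_pos.1 this
  · rw [hs]
    push_cast at ht
    have a1 := mul_le_mul_of_nonneg_right ht (show (0 : ℝ) ≤ m + 2 by positivity)
    have a2 := mul_le_mul_of_nonneg_right hm.le (show (0 : ℝ) ≤ j + m by positivity)
    have a3 : 0 ≤ e * t := by positivity
    have a4 : 0 ≤ e * (j + m) := by positivity
    have a5 : 0 ≤ e * (m * (m - 1)) := mul_nonneg he.le (mul_nonneg (by linarith) (by linarith))
    nlinarith
  · rw [hs]
    have a1 : e * (4 * b ^ 3) ≤ e * j := by gcongr; nlinarith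
    have a2 : 8 * (b : ℝ) ^ 2 < e * b * b ^ 2 := by gcongr
    have a3 : 4 * (b : ℝ) ^ 2 < e / 8 * j := by nlinarith
    have a4 := mul_lt_mul_of_pos_right a3 (show (0 : ℝ) < m by linarith)
    have a5 := mul_le_mul_of_nonneg_left u0 (show 0 ≤ e / 8 by positivity)
    nlinarith
  · have a1 : (2 * b + 4) * t + 2 < s := by nlinarith
    have a2 : ((2 : ℝ) * b + 4) * t + 2 < s := by exact_mod_cast a1
    have a3 : 0 ≤ (2 * b + 3) * (e / 8) * t := by positivity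
    linarith

theorem main2 (ε : ℝ) (hε : 0 < ε) : ∃ k0 : ℕ, ∀ k d : ℕ, k0 ≤ k →
    (k : ℝ) ^ 2 - (3 - ε) * k ≤ d → Holds k d := by
  obtain ⟨m, b, k0, g, m1, b1, g1, g2, h⟩ := asym_params (lt_min hε one_pos) (min_le_right ε 1)
  refine ⟨k0 + 1, fun k d hk hd => ?_⟩
  have k1 : (1 : ℝ) ≤ k := by exact_mod_cast (by omega : 1 ≤ k)
  have k2 : 0 < k * (k + 1) := Nat.mul_pos (by omega) (by omega)
  obtain ⟨s, t, hs, hst, ht, ht'⟩ : ∃ s t : ℕ, s ≤ d ∧ s + t = k * (k + 1) ∧ 1 ≤ t ∧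
      (t : ℝ) ≤ (4 - min ε 1) * k := by
    rcases lt_or_ge d (k * (k + 1)) with h1 | h1
    · refine ⟨d, k * (k + 1) - d, le_rfl, by omega, by omega, ?_⟩
      rw [Nat.cast_sub h1.le]
      push_cast
      nlinarith [min_le_left ε 1]
    · refine ⟨k * (k + 1) - 1, 1, by omega, by omega, le_rfl, ?_⟩
      push_cast
      nlinarith [min_le_right ε 1]
  obtain ⟨a1, a2, a3, a4, a5, a6, a7, a8, a9, a10⟩ := h k s t (by omega) hst ht'
  have h1 := mid_gen b1 a2 hst ht a7 g1 g2 a8 a9 a10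
  have h2 : Mid k s t (2 * tri (k - m)) (k - (k - m)) := by
    rwa [two_mul_tri, Nat.sub_sub_self a1.le]
  have h3 : (2 : ℝ) ≤ cM k := by
    have : (0 : ℝ) < 2 ^ k := by positivity
    unfold cM
    linarith
  exact holds_of_lb a3 (a5.trans hs) (by omega) (lb_mono (lb_glue (by omega) hst ht a4
    (jline (by omega) (by omega)) (by rwa [two_mul_tri]) (by omega) h2 h3) hs)

end Pool.Agent.MP_927be3_nt.W

end PartFinB
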