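import Pool.Agent.MP_927be3_nt.Up.C

/-! Moments of Weyl sums: the dilation argument with one representative per class. -/

open Finset Polynomial

namespace Pool.Agent.MP_927be3_nt.W

theorem close_symm {e q H : ℕ} {γ γ' : Fin e → ZMod q} (h : Close H γ γ') : Close H γ' γ :=
  fun i => by simpa using (h i).neg

theorem deg_sum {τ : Type} (T : Finset τ) (R : τ → τ → Prop) [DecidableRel R]
    (hR : ∀ a b, R a b → R b a) (w : τ → ℝ) {D : ℝ}
    (hD : ∀ t ∈ T, (#{t' ∈ T | R t t'} : ℝ) ≤ D) :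
    ∑ t ∈ T, ∑ t' ∈ T, (if R t t' then w t * w t' else 0) ≤ D * ∑ t ∈ T, w t ^ 2 := by
  have h1 : ∑ t ∈ T, ∑ t' ∈ T, (if R t t' then w t ^ 2 / 2 else 0) ≤
      D / 2 * ∑ t ∈ T, w t ^ 2 := by
    rw [mul_sum]
    refine sum_le_sum fun t ht => ?_
    rw [← sum_filter, sum_const, nsmul_eq_mul]
    have := mul_le_mul_of_nonneg_right (hD t ht) (sq_nonneg (w t))
    linarith
  have h2 : ∑ t ∈ T, ∑ t' ∈ T, (if R t t' then w t * w t' else 0) ≤
      ∑ t ∈ T, ∑ t' ∈ T, ((if R t t' then w t ^ 2 / 2 else 0) +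
        (if R t' t then w t' ^ 2 / 2 else 0)) := by
    refine sum_le_sum fun t _ => sum_le_sum fun t' _ => ?_
    by_cases h : R t t'
    · rw [if_pos h, if_pos h, if_pos (hR _ _ h)]
      nlinarith [sq_nonneg (w t - w t')]
    · rw [if_neg h, if_neg h]
      split_ifs <;> positivity
  simp only [sum_add_distrib] at h2
  rw [sum_comm (f := fun t t' => if R t' t then w t' ^ 2 / 2 else 0)] at h2
  linarith

open Classical in
theorem mw0 {q e H : ℕ} [NeZero q] (he : 1 ≤ e) (hH : 1 ≤ H) (hq : 2 * tri e * H ^ e < q)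
    {τ : Type} (T : Finset τ) (γ : τ → Fin e → ZMod q) (ρ : ℤ → ℂ) (hρ : ∀ h, ‖ρ h‖ ≤ 1)
    {D : ℝ} (hD0 : 0 ≤ D) (hD : ∀ t ∈ T, (#{t' ∈ T | Close H (γ t) (γ t')} : ℝ) ≤ D) :
    ∑ t ∈ T, ‖∑ h ∈ Icc (-(H : ℤ)) H,
        ρ h * ch (∑ i, γ t i * (h : ZMod q) ^ ((i : ℕ) + 1))‖ ^ (2 * tri e) ≤
      (24 * tri e : ℝ) ^ e * (H : ℝ) ^ tri e * Jv e H * D := by
  have hK : 1 ≤ tri e := tri_pos he
  have hH0 : (0 : ℝ) < H := by exact_mod_cast hH
  have hN : ∀ i : Fin e, 0 < tri e * H ^ ((i : ℕ) + 1) := fun i => by positivity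
  obtain ⟨S, hS⟩ : ∃ S : τ → ℂ, ∀ t, S t = ∑ h ∈ Icc (-(H : ℤ)) H,
      ρ h * ch (∑ i, γ t i * (h : ZMod q) ^ ((i : ℕ) + 1)) := ⟨_, fun _ => rfl⟩
  simp only [← hS]
  obtain ⟨c, hc⟩ : ∃ c : τ → ℂ, ∀ t, c t = (starRingEnd ℂ) (S t ^ tri e) := ⟨_, fun _ => rfl⟩
  have c1 : ∀ t, ‖c t‖ ^ 2 = ‖S t‖ ^ (2 * tri e) := fun t => by
    rw [hc, Complex.norm_conj, norm_pow, ← pow_mul, mul_comm]
  have c2 : ∀ t, ((‖S t‖ ^ (2 * tri e) : ℝ) : ℂ) = c t * S t ^ tri e := fun t => by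
    rw [hc, mul_comm ((starRingEnd ℂ) _), Complex.mul_conj', norm_pow, ← Complex.ofReal_pow,
      ← pow_mul, mul_comm]
  have h2 : ∑ t ∈ T, ‖S t‖ ^ (2 * tri e) = ‖∑ t ∈ T,
      ∑ x ∈ Fintype.piFinset (fun _ : Fin (tri e) => Icc (-(H : ℤ)) H), c t * (∏ r, ρ (x r)) *
        ch (∑ i, γ t i * ((∑ r, x r ^ ((i : ℕ) + 1) : ℤ) : ZMod q))‖ := by
    have h3 : ∑ t ∈ T,
        ∑ x ∈ Fintype.piFinset (fun _ : Fin (tri e) => Icc (-(H : ℤ)) H), c t * (∏ r, ρ (x r)) *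
          ch (∑ i, γ t i * ((∑ r, x r ^ ((i : ℕ) + 1) : ℤ) : ZMod q)) =
        ((∑ t ∈ T, ‖S t‖ ^ (2 * tri e) : ℝ) : ℂ) := by
      rw [Complex.ofReal_sum]
      refine sum_congr rfl fun t _ => ?_
      rw [c2 t, hS t, mv_pow, mul_sum]
      exact sum_congr rfl fun x _ => mul_assoc _ _ _
    rw [h3, Complex.norm_real, Real.norm_of_nonneg (by positivity)]
  have h3 := dls T (Fintype.piFinset (fun _ : Fin (tri e) => Icc (-(H : ℤ)) H)) γ
    (fun x i => ∑ r, x r ^ ((i : ℕ) + 1)) c (fun x => ∏ r, ρ (x r))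
    (fun i => tri e * H ^ ((i : ℕ) + 1)) (fun i => q / (6 * (tri e * H ^ ((i : ℕ) + 1))))
    (fun x hx i => by
      refine (abs_sum_le_sum_abs _ _).trans ?_
      have h4 : ∀ r, |x r ^ ((i : ℕ) + 1)| ≤ (H : ℤ) ^ ((i : ℕ) + 1) := fun r => by
        rw [abs_pow]
        exact pow_le_pow_left₀ (abs_nonneg _)
          (abs_le.2 (mem_Icc.1 (Fintype.mem_piFinset.1 hx r))) _
      refine (sum_le_sum fun r _ => h4 r).trans (le_of_eq ?_)
      simp)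
    (fun i => by
      rw [mul_right_comm]
      exact Nat.mul_div_le _ _)
    (fun i => by
      refine lt_of_le_of_lt ?_ hq
      rw [mul_assoc]
      exact Nat.mul_le_mul_left _ (Nat.mul_le_mul_left _ (Nat.pow_le_pow_right hH i.2)))
    (fun i => by
      have h4 := Nat.mul_div_le q (6 * (tri e * H ^ ((i : ℕ) + 1)))
      have h5 := hN i
      have h6 := NeZero.pos q
      generalize q / (6 * (tri e * H ^ ((i : ℕ) + 1))) = D at h4 ⊢
      nlinarith)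
  rw [← h2] at h3
  have h4 : ∏ i : Fin e, (q : ℝ) / (2 * ((q / (6 * (tri e * H ^ ((i : ℕ) + 1))) : ℕ) : ℝ) + 1) ≤
      (6 * tri e : ℝ) ^ e * (H : ℝ) ^ tri e := by
    refine (prod_le_prod (fun i _ => by positivity) fun i _ => mv_div (hN i)).trans (le_of_eq ?_)
    rw [← mv_prod, ← Fin.prod_const, ← prod_mul_distrib]
    refine prod_congr rfl fun i _ => ?_
    push_cast
    ring
  have h5 : (∑ t ∈ T, ∑ t' ∈ T, if ∀ i, Small (γ t i - γ t' i)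
      (2 * ((q / (6 * (tri e * H ^ ((i : ℕ) + 1))) : ℕ) : ℝ)) then ‖c t‖ * ‖c t'‖ else 0) ≤
      D * ∑ t ∈ T, ‖S t‖ ^ (2 * tri e) := by
    have h8 := deg_sum T (fun t t' => Close H (γ t) (γ t')) (fun _ _ => close_symm)
      (fun t => ‖c t‖) hD
    simp only [c1] at h8
    refine le_trans (sum_le_sum fun t _ => sum_le_sum fun t' _ => ?_) h8
    split_ifs with a1 a2 a2
    · exact le_rfl
    · refine absurd (fun i => (a1 i).mono ?_) a2
      rw [le_div_iff₀ (by positivity)]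
      have h6 := Nat.mul_div_le q (6 * (tri e * H ^ ((i : ℕ) + 1)))
      generalize q / (6 * (tri e * H ^ ((i : ℕ) + 1))) = D at h6 ⊢
      have h7 : 2 * D * H ^ ((i : ℕ) + 1) ≤ q := by
        refine le_trans ?_ h6
        generalize H ^ ((i : ℕ) + 1) = Y
        nlinarith [Nat.mul_le_mul_left (D * Y) hK]
      exact_mod_cast h7
    · positivity
    · exact le_rfl
  have h6 : (∑ x ∈ Fintype.piFinset (fun _ : Fin (tri e) => Icc (-(H : ℤ)) H),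
      ∑ x' ∈ Fintype.piFinset (fun _ : Fin (tri e) => Icc (-(H : ℤ)) H),
        if (fun i : Fin e => ∑ r, x r ^ ((i : ℕ) + 1)) = (fun i : Fin e => ∑ r, x' r ^ ((i : ℕ) + 1))
          then ‖∏ r, ρ (x r)‖ * ‖∏ r, ρ (x' r)‖ else 0) ≤ (Jv e H : ℝ) := by
    have h7 : ∀ x : Fin (tri e) → ℤ, ‖∏ r, ρ (x r)‖ ≤ 1 := fun x => by
      rw [norm_prod]
      exact prod_le_one (fun r _ => norm_nonneg _) fun r _ => hρ _
    rw [← sum_product', Jv, Pairs, card_filter]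
    push_cast
    refine sum_le_sum fun z _ => ?_
    split_ifs with a1 a2 a2
    · exact mul_le_one₀ (h7 _) (norm_nonneg _) (h7 _)
    · exact absurd (fun i => congrFun a1 i) a2
    · exact zero_le_one
    · exact le_rfl
  have hX : 0 ≤ ∑ t ∈ T, ‖S t‖ ^ (2 * tri e) := by positivity
  have h7 : (∑ t ∈ T, ‖S t‖ ^ (2 * tri e)) ^ 2 ≤ 4 ^ e * ((6 * tri e : ℝ) ^ e * (H : ℝ) ^ tri e) *
      (D * ∑ t ∈ T, ‖S t‖ ^ (2 * tri e)) * (Jv e H : ℝ) := by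
    refine h3.trans (mul_le_mul (mul_le_mul (mul_le_mul_of_nonneg_left h4 (by positivity)) ?_ ?_
      (by positivity)) ?_ ?_ (by positivity))
    · convert h5
    · exact sum_nonneg fun _ _ => sum_nonneg fun _ _ => by split_ifs <;> positivity
    · convert h6
    · exact sum_nonneg fun _ _ => sum_nonneg fun _ _ => by split_ifs <;> positivity
  generalize ∑ t ∈ T, ‖S t‖ ^ (2 * tri e) = X at hX h7
  rcases hX.eq_or_lt with h0 | h0
  · rw [← h0]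
    positivity
  · refine le_of_mul_le_mul_left ?_ h0
    rw [show (24 * tri e : ℝ) = 4 * (6 * tri e) by ring, mul_pow 4]
    calc X * X = X ^ 2 := by ring
      _ ≤ _ := h7
      _ = _ := by ring

open Classical in
theorem mw {e : ℕ} (he : 1 ≤ e) {ε : ℝ} (hε : 0 < ε) : ∃ A : ℝ, 0 < A ∧
    ∀ (q H : ℕ) [NeZero q], 1 ≤ H → 2 * tri e * H ^ e < q →
      ∀ (τ : Type) (T : Finset τ) (γ : τ → Fin e → ZMod q) (lo hi : τ → ℤ) (D : ℝ), 0 ≤ D →
        (∀ t ∈ T, -(H : ℤ) ≤ lo t ∧ hi t ≤ H) →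
        (∀ t ∈ T, (#{t' ∈ T | Close H (γ t) (γ t')} : ℝ) ≤ D) →
        ∑ t ∈ T, ‖∑ h ∈ Icc (lo t) (hi t),
            ch (∑ i, γ t i * (h : ZMod q) ^ ((i : ℕ) + 1))‖ ^ (2 * tri e) ≤
          A * (H : ℝ) ^ ε * (H : ℝ) ^ (2 * tri e) * D := by
  have hK : 1 ≤ tri e := tri_pos he
  have hK0 : (0 : ℝ) < tri e := by exact_mod_cast hK
  obtain ⟨A, hA, h1⟩ := vmvt he (half_pos hε)
  obtain ⟨c, hc, h2⟩ := mv_log (K := 2 * tri e) (by omega) (half_pos hε)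
  refine ⟨c * (24 * tri e : ℝ) ^ e * A, by positivity, fun q H _ hH hq τ T γ lo hi D hD0 hT hD => ?_⟩
  have hH0 : (0 : ℝ) < H := by exact_mod_cast hH
  obtain ⟨W, w0, w1, w2⟩ := complete_sum H
  obtain ⟨G, hG⟩ : ∃ G : ZMod (2 * H + 1) → τ → ℝ, ∀ r t, G r t = ‖∑ h ∈ Icc (-(H : ℤ)) H,
      ch (r * (h : ZMod (2 * H + 1))) * ch (∑ i, γ t i * (h : ZMod q) ^ ((i : ℕ) + 1))‖ :=
    ⟨_, fun _ _ => rfl⟩
  have hG0 : ∀ r t, 0 ≤ G r t := fun r t => by rw [hG]; positivity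
  set B : ℝ := (24 * tri e : ℝ) ^ e * (H : ℝ) ^ tri e * Jv e H * D with hB
  have hB0 : 0 ≤ B := by positivity
  have h4 : ∀ r, ∑ t ∈ T, G r t ^ (2 * tri e) ≤ B := fun r => by
    simp only [hG]
    exact mw0 he hH hq T γ (fun h => ch (r * (h : ZMod (2 * H + 1)))) (fun h => (norm_ch _).le)
      hD0 hD
  set L : ℝ := ∑ r, W r with hL
  have hL0 : 0 ≤ L := sum_nonneg fun r _ => w0 r
  have h3 : ∀ t ∈ T, ‖∑ h ∈ Icc (lo t) (hi t),
      ch (∑ i, γ t i * (h : ZMod q) ^ ((i : ℕ) + 1))‖ ^ (2 * tri e) ≤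
        L ^ (2 * tri e - 1) * ∑ r, W r * G r t ^ (2 * tri e) := by
    intro t ht
    have a1 := w2 _ _ (fun h => ch (∑ i, γ t i * (h : ZMod q) ^ ((i : ℕ) + 1)))
      (hT t ht).1 (hT t ht).2
    simp only [← hG] at a1
    refine (pow_le_pow_left₀ (norm_nonneg _) a1 _).trans ?_
    rcases hL0.eq_or_lt with h0 | h0
    · have a2 : ∀ r, W r = 0 := fun r =>
        (sum_eq_zero_iff_of_nonneg fun r _ => w0 r).1 h0.symm r (mem_univ _)
      simp only [a2, zero_mul, sum_const_zero, mul_zero]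
      rw [zero_pow (by omega)]
    · have a2 := Real.pow_arith_mean_le_arith_mean_pow univ (fun r => W r / L) (fun r => G r t)
        (fun r _ => div_nonneg (w0 r) hL0) (by rw [← sum_div, div_self h0.ne'])
        (fun r _ => hG0 r t) (2 * tri e)
      have a3 : ∑ r, W r * G r t = L * ∑ r, W r / L * G r t := by
        rw [mul_sum]
        refine sum_congr rfl fun r _ => ?_
        field_simp
      have a4 : ∑ r, W r * G r t ^ (2 * tri e) = L * ∑ r, W r / L * G r t ^ (2 * tri e) := by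
        rw [mul_sum]
        refine sum_congr rfl fun r _ => ?_
        field_simp
      rw [a3, a4, mul_pow, ← mul_assoc, ← pow_succ, show 2 * tri e - 1 + 1 = 2 * tri e by omega]
      exact mul_le_mul_of_nonneg_left a2 (by positivity)
  refine (sum_le_sum h3).trans ?_
  rw [← mul_sum, sum_comm]
  have h5 : ∑ r, ∑ t ∈ T, W r * G r t ^ (2 * tri e) ≤ L * B := by
    rw [hL, sum_mul]
    refine sum_le_sum fun r _ => ?_
    rw [← mul_sum]
    exact mul_le_mul_of_nonneg_left (h4 r) (w0 r)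
  have h6 : (H : ℝ) ^ ε = (H : ℝ) ^ (ε / 2) * (H : ℝ) ^ (ε / 2) := by
    rw [← Real.rpow_add hH0, add_halves]
  have h7 := h1 H hH
  have h8 : L ^ (2 * tri e) ≤ c * (H : ℝ) ^ (ε / 2) :=
    (pow_le_pow_left₀ hL0 w1 _).trans (h2 H hH)
  calc _ ≤ L ^ (2 * tri e - 1) * (L * B) := mul_le_mul_of_nonneg_left h5 (by positivity)
    _ = L ^ (2 * tri e) * B := by
        rw [← mul_assoc, ← pow_succ, show 2 * tri e - 1 + 1 = 2 * tri e by omega]
    _ ≤ c * (H : ℝ) ^ (ε / 2) * ((24 * tri e : ℝ) ^ e * (H : ℝ) ^ tri e *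
        (A * (H : ℝ) ^ (ε / 2) * (H : ℝ) ^ tri e) * D) := by
        rw [hB]
        gcongr
    _ = _ := by
      rw [h6, two_mul (tri e), pow_add]
      ring

theorem close_off1 {k P M m x m' x' q : ℕ} [NeZero q] (hk : 2 ≤ k)
    (hM : 1 ≤ M) (hMP : M ≤ P) (hm : M ≤ m) (hm4 : m ≤ 4 * M) (hm' : m' ≤ 4 * M) (hx : x ≤ P)
    (hx' : x' ≤ P) (hc : Nat.Coprime x m) (hH : 36 * k.factorial * M ^ 2 < P / M)
    {a a' : ZMod q} (h : Close (P / M) (gam k a m x) (gam k a' m' x')) :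
    Small (((k.factorial * m : ℕ) : ZMod q) *
        (((m' : ℤ) * x - (x' : ℤ) * m : ℤ) : ZMod q) * a)
      (6 * k.factorial * 2 ^ k * q * (M : ℝ) ^ 2 / (P : ℝ) ^ (k - 1)) := by
  obtain ⟨hH1, hP⟩ := geom_H hM hMP
  have hHb : (36 * k.factorial * M ^ 2 : ℝ) < ((P / M : ℕ) : ℝ) := by exact_mod_cast hH
  generalize P / M = H at *
  have hq : (0 : ℝ) < q := by exact_mod_cast NeZero.pos q
  have hxr : (x : ℝ) ≤ 2 * H * M := le_trans (by exact_mod_cast hx) hP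
  have hxr' : (x' : ℝ) ≤ 2 * H * M := le_trans (by exact_mod_cast hx') hP
  have hmr : (m : ℝ) ≤ 4 * M := by exact_mod_cast hm4
  have hmr' : (m' : ℝ) ≤ 4 * M := by exact_mod_cast hm'
  have hMm : (M : ℝ) ≤ m := by exact_mod_cast hm
  have hM1 : (1 : ℝ) ≤ M := by exact_mod_cast hM
  have hP0 : (0 : ℝ) < P := by exact_mod_cast (by omega : 0 < P)
  have hH0 : (0 : ℝ) < H := by linarith
  have hm0 : (0 : ℝ) < m := by linarith
  have key := geom (((k.factorial * m : ℕ) : ZMod q) *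
        (((m' : ℤ) * x - (x' : ℤ) * m : ℤ) : ZMod q) * a) (k - 2) (hM.trans hm) hc
    (fun l => 6 * M * (k.factorial * q) / (H : ℝ) ^ (k - 1 - l)) (fun l hl => by
      obtain ⟨n, hn⟩ : ∃ n, k - 2 - l = n := ⟨_, rfl⟩
      have h1 := (close_fac h (l := l) (by omega)).mul (x' : ℤ)
      have h2 := (close_fac h (l := l + 1) (by omega)).mul (m' : ℤ)
      rw [show k - l = 1 + n + 1 by omega] at h1
      rw [show k - (l + 1) = 1 + n by omega] at h2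
      rw [hn, show k - 1 - l = 1 + n by omega]
      convert (h1.neg.add h2).mono ?_ using 1
      · push_cast
        ring
      · rw [Int.cast_natCast, Int.cast_natCast, Nat.abs_cast, Nat.abs_cast]
        exact geom_six hH1 (by positivity) hxr' hmr' _) (fun l hl => by
      obtain ⟨n, hn⟩ : ∃ n, k - 1 - l = 1 + n + 1 := ⟨k - 1 - l - 2, by omega⟩
      rw [hn, show k - 1 - (l + 1) = 1 + n by omega]
      refine lt_of_le_of_lt (geom_six hH1 (by positivity) hxr hmr _) ?_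
      rw [div_lt_iff₀ (by positivity)]
      have h1 : (H : ℝ) ≤ (H : ℝ) ^ (1 + n) := le_self_pow₀ hH1 (by omega)
      have h4 : (36 * k.factorial * M ^ 2 : ℝ) * q < (H : ℝ) ^ (1 + n) * q := by
        gcongr
        linarith
      nlinarith)
  refine key.mono ?_
  obtain ⟨n, rfl⟩ : ∃ n, k = n + 2 := ⟨k - 2, by omega⟩
  rw [show n + 2 - 1 - 0 = n + 1 by omega, show n + 2 - 2 = n by omega,
    show n + 2 - 1 = n + 1 by omega]
  have hf : (0 : ℝ) ≤ (n + 2).factorial := by positivity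
  generalize ((n + 2).factorial : ℝ) = F at *
  have h1 : (P : ℝ) ^ (n + 1) ≤ (2 * H * M) ^ (n + 1) := by gcongr
  have h2 : 6 * M * (F * q) / (H : ℝ) ^ (n + 1) / (m : ℝ) ^ n ≤
      6 * M * (F * q) / (H : ℝ) ^ (n + 1) / (M : ℝ) ^ n := by gcongr
  have h3 : 6 * M * (F * q) / (H : ℝ) ^ (n + 1) / (M : ℝ) ^ n =
      6 * F * 2 ^ (n + 1) * q * (M : ℝ) ^ 2 / (2 * H * M : ℝ) ^ (n + 1) := by
    rw [mul_pow, mul_pow]
    field_simp
    ring
  have h4 : (2 : ℝ) ^ (n + 1) ≤ 2 ^ (n + 2) :=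
    pow_le_pow_right₀ (by norm_num) (Nat.le_succ _)
  have h5 : (0 : ℝ) ≤ 2 ^ (n + 2) := by positivity
  refine h2.trans (h3.trans_le ?_)
  generalize (2 : ℝ) ^ (n + 2) = t at *
  gcongr

theorem close_diag2 {k P M m x q : ℕ} [NeZero q] (hk : 1 ≤ k) (hM : 1 ≤ M)
    (hMP : M ≤ P) (hm : M ≤ m) (hm4 : m ≤ 4 * M) (hx : x ≤ P) (hc : Nat.Coprime x m)
    (hH : 12 * k.factorial * M < P / M) {a0 a a' : ZMod q} {m0 x0 : ℕ}
    (h : Close (P / M) (gam k a0 m0 x0) (gam k a m x))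
    (h' : Close (P / M) (gam k a0 m0 x0) (gam k a' m x)) :
    Small (((k.factorial * m : ℕ) : ZMod q) * (a - a'))
      ((k.factorial * m : ℕ) * (2 * 2 ^ k * q / (P : ℝ) ^ k)) := by
  obtain ⟨hH1, hP⟩ := geom_H hM hMP
  have hHb : (12 * k.factorial * M : ℝ) < ((P / M : ℕ) : ℝ) := by exact_mod_cast hH
  generalize P / M = H at *
  have hq : (0 : ℝ) < q := by exact_mod_cast NeZero.pos q
  have hxr : (x : ℝ) ≤ 2 * H * M := le_trans (by exact_mod_cast hx) hP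
  have hmr : (m : ℝ) ≤ 4 * M := by exact_mod_cast hm4
  have hMm : (M : ℝ) ≤ m := by exact_mod_cast hm
  have hM1 : (1 : ℝ) ≤ M := by exact_mod_cast hM
  have hP0 : (0 : ℝ) < P := by exact_mod_cast (by omega : 0 < P)
  have hH0 : (0 : ℝ) < H := by linarith
  have hm0 : (0 : ℝ) < m := by linarith
  have key := geom (((k.factorial * m : ℕ) : ZMod q) * (a - a')) (k - 1) (hM.trans hm) hc
    (fun l => 2 * k.factorial * q / (H : ℝ) ^ (k - l)) (fun l hl => by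
      have h1 := (close_fac h (l := l) (by omega)).neg.add (close_fac h' (l := l) (by omega))
      convert h1 using 1
      · rw [show k - l = 1 + (k - 1 - l) by omega]
        push_cast
        ring
      · ring) (fun l hl => by
      obtain ⟨n, hn⟩ : ∃ n, k - l = 1 + n + 1 := ⟨k - l - 2, by omega⟩
      rw [hn, show k - (l + 1) = 1 + n by omega]
      refine lt_of_le_of_lt (geom_six hH1 (by positivity) hxr hmr _) ?_
      rw [div_lt_iff₀ (by positivity)]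
      have h1 : (H : ℝ) ≤ (H : ℝ) ^ (1 + n) := le_self_pow₀ hH1 (by omega)
      nlinarith)
  refine key.mono ?_
  have h1 : (P : ℝ) ^ k ≤ (2 * H * m) ^ k := by
    gcongr
    refine hP.trans ?_
    gcongr
  have h2 : (m : ℝ) ^ k = m * m ^ (k - 1) := by rw [← pow_succ']; congr 1; omega
  have h3 : (2 * k.factorial * q / (H : ℝ) ^ (k - 0)) / (m : ℝ) ^ (k - 1) =
      (k.factorial * m : ℕ) * (2 * 2 ^ k * q / (2 * H * m : ℝ) ^ k) := by
    rw [Nat.sub_zero, mul_pow, mul_pow, h2]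
    push_cast
    field_simp
  rw [h3]
  gcongr

open Classical in
/-- the determinants that can occur between close triples -/
noncomputable def Ds (k P M : ℕ) {q : ℕ} (a : ZMod q) (m : ℕ) : Finset ℤ :=
  (Icc (-(4 * M * P : ℤ)) (4 * M * P)).filter fun Δ =>
    Small (((k.factorial * m : ℕ) : ZMod q) * (Δ : ZMod q) * a)
      (6 * k.factorial * 2 ^ k * q * (M : ℝ) ^ 2 / (P : ℝ) ^ (k - 1))

theorem deg_pair {m x m' x' m'' x'' : ℕ} (hm : 1 ≤ m) (hc : Nat.Coprime x m)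
    (h1 : (m' : ℤ) * x - (x' : ℤ) * m = (m'' : ℤ) * x - (x'' : ℤ) * m) (h2 : m' / m = m'' / m) :
    m' = m'' ∧ x' = x'' := by
  have h3 : (m : ℤ) ∣ ((m' : ℤ) - m'') * x := ⟨(x' : ℤ) - x'', by linear_combination h1⟩
  have h4 : (m : ℤ) ∣ (m' : ℤ) - m'' :=
    (Nat.isCoprime_iff_coprime.2 hc.symm).dvd_of_dvd_mul_right h3
  have h5 : m'' % m = m' % m := (Nat.modEq_iff_dvd.2 h4)
  have h6 : m' = m'' := by
    rw [← Nat.div_add_mod m' m, ← Nat.div_add_mod m'' m, h2, h5]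
  subst h6
  refine ⟨rfl, ?_⟩
  have h7 : (x' : ℤ) * m = x'' * m := by linarith
  have h8 : (m : ℤ) ≠ 0 := by exact_mod_cast (by omega : m ≠ 0)
  exact_mod_cast mul_right_cancel₀ h8 h7

open Classical in
theorem deg_fib {k P M m x q : ℕ} [NeZero q] (hk : 1 ≤ k) (hM : 1 ≤ M) (h4 : 4 * M ≤ P)
    (hG : Good k P q) (hp : m.Prime) (hkm : k < m) (hm : M ≤ m) (hm4 : m ≤ 4 * M) (hx : x ≤ P)
    (hc : Nat.Coprime x m) (hH : 12 * k.factorial * M < P / M) {a0 : ZMod q} {m0 x0 : ℕ}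
    (F : Finset (ZMod q)) (hF : ∀ a ∈ F, Close (P / M) (gam k a0 m0 x0) (gam k a m x))
    (hi : ∀ a ∈ F, ∀ a' ∈ F, (m : ZMod q) * a = m * a' → a = a') :
    #F ≤ (2 * ⌊2 * 2 ^ k * q / (P : ℝ) ^ k⌋₊ + 1) * k.factorial := by
  rcases F.eq_empty_or_nonempty with rfl | ⟨a1, ha1⟩
  · simp
  set D : ℝ := 2 * 2 ^ k * q / (P : ℝ) ^ k with hD
  have hd : k.factorial * m ∣ q := by
    have := coreii_dvd (b := 1) hk hk hp.pos (by omega) hG
    rwa [pow_one] at this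
  have hco : Nat.Coprime k.factorial m := by
    refine Nat.Coprime.symm ?_
    rw [hp.coprime_iff_not_dvd, hp.dvd_factorial]
    omega
  have h1 : ∀ a ∈ F, ∃ (β : ℤ) (n1 n2 : ℕ), |(β : ℝ)| ≤ D ∧ n1 < k.factorial ∧
      a - a1 = (β : ZMod q) + (((q / k.factorial : ℕ) : ZMod q) * (n1 : ZMod q) +
        ((q / m : ℕ) : ZMod q) * (n2 : ZMod q)) := by
    intro a ha
    have h5 := close_diag2 hk hM (by omega) hm hm4 hx hc hH (hF a ha) (hF a1 ha1)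
    obtain ⟨β, n, hβ, -, he⟩ := small_div (Nat.one_le_iff_ne_zero.2 (by
      have := hp.pos
      positivity)) hd h5
    obtain ⟨n1, n2, hn1, -, hs⟩ := split_frac (q := q) (Nat.factorial_pos k) hp.pos hco hd n
    exact ⟨β, n1, n2, hβ, hn1, by rw [he, hs]⟩
  choose! β n1 n2 b1 b2 b3 using h1
  have h2 : #(Icc (-(⌊D⌋₊ : ℤ)) (⌊D⌋₊ : ℤ) ×ˢ range k.factorial) =
      (2 * ⌊D⌋₊ + 1) * k.factorial := by
    rw [card_product, card_range, Int.card_Icc]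
    congr 1
    omega
  rw [← h2]
  refine card_le_card_of_injOn (fun a => (β a, n1 a)) (fun a ha => ?_) fun a ha a' ha' h => ?_
  · have hβ' : (β a).natAbs ≤ ⌊D⌋₊ := by
      refine Nat.le_floor ?_
      rw [Nat.cast_natAbs, Int.cast_abs]
      exact b1 a ha
    simp only [coe_product, Set.mem_prod, coe_Icc, Set.mem_Icc, coe_range, Set.mem_Iio]
    exact ⟨by omega, b2 a ha⟩
  · obtain ⟨e1, e2⟩ := Prod.mk.inj h
    refine hi a ha a' ha' ?_
    have e3 := weyl_kill (q := q) (Dvd.dvd.trans (Dvd.intro_left _ rfl) hd)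
    have e4 := b3 a ha
    have e5 := b3 a' ha'
    rw [← e1, ← e2] at e5
    linear_combination (m : ZMod q) * e4 - (m : ZMod q) * e5 +
      ((n2 a : ZMod q) - (n2 a' : ZMod q)) * e3

open Classical in
theorem deg_le {k P M q : ℕ} [NeZero q] (hk : 2 ≤ k) (hM : 1 ≤ M) (h4 : 4 * M ≤ P)
    (hG : Good k P q) (hH : 36 * k.factorial * M ^ 2 < P / M) {Ms : Finset ℕ} (hMs : PrM k M Ms)
    (T : Finset (ZMod q × ℕ × ℕ))
    (hT : ∀ t ∈ T, t.2.1 ∈ Ms ∧ t.2.2 ≤ P ∧ Nat.Coprime t.2.2 t.2.1)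
    (hi : ∀ t ∈ T, ∀ t' ∈ T, t.2.1 = t'.2.1 → (t.2.1 : ZMod q) * t.1 = t.2.1 * t'.1 → t.1 = t'.1)
    {t : ZMod q × ℕ × ℕ} (ht : t ∈ T) :
    #{t' ∈ T | Close (P / M) (gam k t.1 t.2.1 t.2.2) (gam k t'.1 t'.2.1 t'.2.2)} ≤
      (2 * ⌊2 * 2 ^ k * q / (P : ℝ) ^ k⌋₊ + 1) * k.factorial * (#(Ds k P M t.1 t.2.1) * 5) := by
  obtain ⟨a, m, x⟩ := t
  obtain ⟨hm, hx, hc⟩ := hT _ ht
  simp only at hm hx hc ⊢
  obtain ⟨hp, -, hMm, hm4⟩ := hMs m hm
  have hH2 : 12 * k.factorial * M < P / M := by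
    refine lt_of_le_of_lt ?_ hH
    have : M ≤ M ^ 2 := Nat.le_self_pow (by omega) M
    exact Nat.mul_le_mul (Nat.mul_le_mul_right _ (by omega)) this
  rw [← card_range 5, ← card_product]
  refine card_le_mul_card_image_of_maps_to
    (f := fun t' : ZMod q × ℕ × ℕ => ((t'.2.1 : ℤ) * x - (t'.2.2 : ℤ) * m, t'.2.1 / m))
    (fun t' ht' => ?_) _ fun b _ => ?_
  · obtain ⟨ht', hcl⟩ := mem_filter.1 ht'
    obtain ⟨hm', hx', -⟩ := hT _ ht'
    obtain ⟨-, -, -, hm4'⟩ := hMs _ hm'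
    refine mem_product.2 ⟨mem_filter.2 ⟨?_,
      close_off1 hk hM (by omega) hMm hm4 hm4' hx hx' hc hH hcl⟩, mem_range.2 ?_⟩
    · have e1 : (t'.2.1 : ℤ) * x ≤ 4 * M * P := by exact_mod_cast Nat.mul_le_mul hm4' hx
      have e2 : (t'.2.2 : ℤ) * m ≤ 4 * M * P := by
        have := Nat.mul_le_mul hm4 hx'
        rw [mul_comm m t'.2.2] at this
        exact_mod_cast this
      have e3 : (0 : ℤ) ≤ (t'.2.1 : ℤ) * x := by positivity
      have e4 : (0 : ℤ) ≤ (t'.2.2 : ℤ) * m := by positivity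
      rw [mem_Icc]
      constructor <;> linarith
    · exact (Nat.div_lt_iff_lt_mul hp.pos).2 (by omega)
  · set U := {t' ∈ {t' ∈ T | Close (P / M) (gam k a m x) (gam k t'.1 t'.2.1 t'.2.2)} |
      ((t'.2.1 : ℤ) * x - (t'.2.2 : ℤ) * m, t'.2.1 / m) = b} with hU
    rcases U.eq_empty_or_nonempty with h0 | ⟨t0, ht0⟩
    · rw [h0]
      simp
    have hU1 : ∀ t' ∈ U, t' ∈ T ∧ Close (P / M) (gam k a m x) (gam k t'.1 t'.2.1 t'.2.2) ∧
        t'.2.1 = t0.2.1 ∧ t'.2.2 = t0.2.2 := by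
      intro t' ht'
      obtain ⟨e1, e2⟩ := mem_filter.1 ht'
      obtain ⟨-, e3⟩ := mem_filter.1 ht0
      obtain ⟨e4, e5⟩ := Prod.mk.inj (e2.trans e3.symm)
      exact ⟨(mem_filter.1 e1).1, (mem_filter.1 e1).2, deg_pair hp.pos hc e4 e5⟩
    obtain ⟨g1, g2, g3⟩ := hT _ (hU1 t0 ht0).1
    obtain ⟨g4, g5, g6, g7⟩ := hMs _ g1
    have hinj : Set.InjOn (fun t' : ZMod q × ℕ × ℕ => t'.1) U := by
      intro u hu v hv h
      obtain ⟨-, -, e1, e2⟩ := hU1 u hu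
      obtain ⟨-, -, e3, e4⟩ := hU1 v hv
      exact Prod.ext h (Prod.ext (e1.trans e3.symm) (e2.trans e4.symm))
    rw [← card_image_of_injOn hinj]
    refine deg_fib (a0 := a) (m0 := m) (x0 := x) (by omega) hM h4 hG g4 g5 g6 g7 g2 g3 hH2 _
      (fun a' ha' => ?_) fun a' ha' a'' ha'' h => ?_
    · obtain ⟨u, hu, rfl⟩ := mem_image.1 ha'
      obtain ⟨-, e0, e1, e2⟩ := hU1 u hu
      rwa [e1, e2] at e0
    · obtain ⟨u, hu, rfl⟩ := mem_image.1 ha'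
      obtain ⟨v, hv, rfl⟩ := mem_image.1 ha''
      obtain ⟨e0, -, e1, -⟩ := hU1 u hu
      obtain ⟨e2, -, e3, -⟩ := hU1 v hv
      exact hi u e0 v e2 (e1.trans e3.symm) (by rwa [e1])

theorem lat_aux (W : Finset (ℤ × ℤ)) {N ρ l : ℝ} {q : ℕ} (hq : 0 < q) (hN : 0 < N) (hρ : 0 < ρ)
    (hl : 0 < l) {d e : ℤ} (hd : |(d : ℝ)| = l * N) (he : |(e : ℝ)| ≤ l * ρ)
    (hW : ∀ w ∈ W, |(w.1 : ℝ)| ≤ N ∧ |(w.2 : ℝ)| ≤ ρ)
    (hv : ∀ w ∈ W, (q : ℤ) ∣ d * w.2 - e * w.1)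
    (hs : ∀ u ∈ W, ∀ v ∈ W, u ≠ v → l * N ≤ |(u.1 : ℝ) - v.1| ∨ l * ρ ≤ |(u.2 : ℝ) - v.2|) :
    (#W : ℝ) ≤ (2 * (2 * l * N * ρ / q) + 2) * (2 * (1 / l) + 2) := by
  have hq' : (0 : ℝ) < q := by exact_mod_cast hq
  have hd0 : 0 < |(d : ℝ)| := by rw [hd]; positivity
  have hd1 : (d : ℝ) ≠ 0 := abs_pos.1 hd0
  have h1 : #W ≤ #(Icc ⌊-(2 * l * N * ρ / q)⌋ ⌊2 * l * N * ρ / q⌋ ×ˢ Icc ⌊-(1 / l)⌋ ⌊1 / l⌋) := by
    refine card_le_card_of_injOn
      (fun w => ((d * w.2 - e * w.1) / q, ⌊(w.1 : ℝ) / d⌋)) (fun w hw => ?_) fun u hu v hv' h => ?_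
    · obtain ⟨j, hj⟩ := hv w hw
      obtain ⟨w1, w2⟩ := hW w hw
      have a1 : (d * w.2 - e * w.1) / q = j := by
        rw [hj]
        exact Int.mul_ediv_cancel_left _ (by exact_mod_cast hq.ne')
      have a2 : |(j : ℝ)| ≤ 2 * l * N * ρ / q := by
        rw [le_div_iff₀ hq']
        have b1 : (d : ℝ) * w.2 - e * w.1 = q * j := by exact_mod_cast hj
        have b2 : |(j : ℝ)| * q = |(d : ℝ) * w.2 - e * w.1| := by
          rw [b1, abs_mul, Nat.abs_cast, mul_comm]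
        rw [b2]
        refine (abs_sub _ _).trans ?_
        rw [abs_mul, abs_mul, hd]
        have b3 : l * N * |(w.2 : ℝ)| ≤ l * N * ρ := by gcongr
        have b4 : |(e : ℝ)| * |(w.1 : ℝ)| ≤ l * ρ * N := by gcongr
        linarith
      have a3 : |(w.1 : ℝ) / d| ≤ 1 / l := by
        rw [abs_div, hd, div_le_div_iff₀ (by positivity) hl]
        nlinarith
      have a4 := levi_mem a2
      rw [Int.floor_intCast] at a4
      simp only [coe_product, Set.mem_prod, mem_coe]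
      rw [a1]
      exact ⟨a4, levi_mem a3⟩
    · by_contra hne
      obtain ⟨e1, e2⟩ := Prod.mk.inj h
      have a1 : d * u.2 - e * u.1 = d * v.2 - e * v.1 := by
        rw [← Int.ediv_mul_cancel (hv u hu), ← Int.ediv_mul_cancel (hv v hv'), e1]
      have a2 : (d : ℝ) * ((u.2 : ℝ) - v.2) = e * ((u.1 : ℝ) - v.1) := by
        have : (d : ℝ) * u.2 - e * u.1 = d * v.2 - e * v.1 := by exact_mod_cast a1
        linarith
      have a3 : |(u.1 : ℝ) / d - (v.1 : ℝ) / d| < 1 := Int.abs_sub_lt_one_of_floor_eq_floor e2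
      rw [← sub_div, abs_div, div_lt_one hd0, hd] at a3
      rcases hs u hu v hv' hne with b | b
      · linarith
      · have a4 := congrArg abs a2
        rw [abs_mul, abs_mul, hd] at a4
        have a5 : |(e : ℝ)| * |(u.1 : ℝ) - v.1| ≤ l * ρ * |(u.1 : ℝ) - v.1| := by gcongr
        have a6 : l * ρ * |(u.1 : ℝ) - v.1| < l * ρ * (l * N) := by gcongr
        have a7 : l * N * (l * ρ) ≤ l * N * |(u.2 : ℝ) - v.2| := by gcongr
        linarith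
  rw [card_product] at h1
  have h2 : (#W : ℝ) ≤ (#(Icc ⌊-(2 * l * N * ρ / q)⌋ ⌊2 * l * N * ρ / q⌋) : ℝ) *
      #(Icc ⌊-(1 / l)⌋ ⌊1 / l⌋) := by exact_mod_cast h1
  exact h2.trans (mul_le_mul (levi_card (by positivity)) (levi_card (by positivity))
    (by positivity) (by positivity))

theorem lat_count (W : Finset (ℤ × ℤ)) {N ρ l0 : ℝ} {q : ℕ} (hq : 0 < q) (hN : 0 < N)
    (hρ : 0 < ρ) (hl : 0 < l0) (hW : ∀ w ∈ W, |(w.1 : ℝ)| ≤ N ∧ |(w.2 : ℝ)| ≤ ρ)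
    (hv : ∀ u ∈ W, ∀ v ∈ W, ∀ w ∈ W, (q : ℤ) ∣ (u.1 - v.1) * w.2 - (u.2 - v.2) * w.1)
    (hs : ∀ u ∈ W, ∀ v ∈ W, u ≠ v → l0 * N ≤ |(u.1 : ℝ) - v.1| ∨ l0 * ρ ≤ |(u.2 : ℝ) - v.2|) :
    (#W : ℝ) ≤ 24 * (N * ρ / q) + 4 / l0 + 4 := by
  have hq' : (0 : ℝ) < q := by exact_mod_cast hq
  rcases W.offDiag.eq_empty_or_nonempty with h0 | h0
  · have h1 : #W ≤ 1 := by
      refine card_le_one.2 fun u hu v hv' => ?_
      by_contra hne
      have : (u, v) ∈ W.offDiag := mem_offDiag.2 ⟨hu, hv', hne⟩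
      rw [h0] at this
      simp at this
    have h2 : (#W : ℝ) ≤ 1 := by exact_mod_cast h1
    have h3 : 0 ≤ 24 * (N * ρ / q) + 4 / l0 := by positivity
    linarith
  obtain ⟨ν, hν⟩ : ∃ ν : (ℤ × ℤ) × (ℤ × ℤ) → ℝ, ∀ z, ν z =
      max (|(z.1.1 : ℝ) - z.2.1| / N) (|(z.1.2 : ℝ) - z.2.2| / ρ) := ⟨_, fun _ => rfl⟩
  obtain ⟨⟨u, v⟩, huv, hmin⟩ := exists_min_image W.offDiag ν h0
  obtain ⟨hu, hv', hne⟩ := mem_offDiag.1 huv
  simp only at hu hv' hne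
  set l := ν (u, v) with hl'
  have a1 : |(u.1 : ℝ) - v.1| ≤ l * N := by
    rw [← div_le_iff₀ hN, hl', hν]
    exact le_max_left _ _
  have a2 : |(u.2 : ℝ) - v.2| ≤ l * ρ := by
    rw [← div_le_iff₀ hρ, hl', hν]
    exact le_max_right _ _
  have a3 : l0 ≤ l := by
    rcases hs u hu v hv' hne with b | b
    · exact le_of_mul_le_mul_right (b.trans a1) hN
    · exact le_of_mul_le_mul_right (b.trans a2) hρ
  have a4 : l ≤ 2 := by
    rw [hl', hν]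
    refine max_le ?_ ?_
    · rw [div_le_iff₀ hN]
      refine (abs_sub _ _).trans ?_
      linarith [(hW u hu).1, (hW v hv').1]
    · rw [div_le_iff₀ hρ]
      refine (abs_sub _ _).trans ?_
      linarith [(hW u hu).2, (hW v hv').2]
  have a5 : ∀ u' ∈ W, ∀ v' ∈ W, u' ≠ v' →
      l * N ≤ |(u'.1 : ℝ) - v'.1| ∨ l * ρ ≤ |(u'.2 : ℝ) - v'.2| := by
    intro u' hu' v' hv'' hne'
    have b := hmin (u', v') (mem_offDiag.2 ⟨hu', hv'', hne'⟩)
    rw [hν (u', v'), le_max_iff, le_div_iff₀ hN, le_div_iff₀ hρ] at b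
    exact b
  have hl0 : 0 < l := hl.trans_le a3
  have key : (#W : ℝ) ≤ (2 * (2 * l * N * ρ / q) + 2) * (2 * (1 / l) + 2) := by
    have b := hν (u, v)
    rw [← hl'] at b
    rcases max_choice (|(u.1 : ℝ) - v.1| / N) (|(u.2 : ℝ) - v.2| / ρ) with c | c
    · refine lat_aux W hq hN hρ hl0 (d := u.1 - v.1) (e := u.2 - v.2) ?_ ?_ hW
        (fun w hw => hv u hu v hv' w hw) a5
      · push_cast
        rw [b, c]
        field_simp
      · push_cast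
        exact a2
    · have b2 := lat_aux (W.map (Equiv.prodComm ℤ ℤ).toEmbedding) hq hρ hN hl0
        (d := u.2 - v.2) (e := u.1 - v.1) (by
          push_cast
          rw [b, c]
          field_simp) (by
          push_cast
          exact a1) (fun w hw => by
          obtain ⟨w', hw', rfl⟩ := mem_map.1 hw
          exact (hW w' hw').symm) (fun w hw => by
          obtain ⟨w', hw', rfl⟩ := mem_map.1 hw
          have := (hv u hu v hv' w' hw').neg_right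
          rw [neg_sub] at this
          exact this) (fun u' hu' v' hv'' hne' => by
          obtain ⟨u'', hu'', rfl⟩ := mem_map.1 hu'
          obtain ⟨v'', hv''', rfl⟩ := mem_map.1 hv''
          exact (a5 u'' hu'' v'' hv''' fun h => hne' (by rw [h])).symm)
      rw [card_map] at b2
      refine b2.trans (le_of_eq ?_)
      ring
  refine key.trans ?_
  have b1 : (2 * (2 * l * N * ρ / q) + 2) * (2 * (1 / l) + 2) =
      8 * (N * ρ / q) + 8 * l * (N * ρ / q) + 4 / l + 4 := by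
    field_simp
    ring
  have b2 : 8 * l * (N * ρ / q) ≤ 8 * 2 * (N * ρ / q) := by gcongr
  have b3 : 4 / l ≤ 4 / l0 := by gcongr
  linarith

open Classical in
theorem few_mult {k P q : ℕ} [NeZero q] (hP : 1 ≤ P) {Q X ρ : ℝ} {N : ℕ} (hN : 1 ≤ N) (hQ : 0 < Q)
    (hρ : 0 < ρ) (h1 : (N : ℝ) ≤ X) (h2 : ρ * (P : ℝ) ^ k ≤ X * q) {a : ZMod q}
    (ha : ¬ Maj k P Q a) :
    (#((Icc (-(N : ℤ)) N).filter fun n : ℤ => Small ((n : ZMod q) * a) ρ) : ℝ) ≤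
      24 * (N * ρ / q) + 4 * X / Q + 4 := by
  set Z := (Icc (-(N : ℤ)) N).filter fun n : ℤ => Small ((n : ZMod q) * a) ρ with hZ
  have hN0 : (0 : ℝ) < N := by exact_mod_cast hN
  have hX : 0 < X := hN0.trans_le h1
  have hP0 : (0 : ℝ) < P := by exact_mod_cast hP
  have h3 : ∀ n ∈ Z, ∃ e : ℤ, |(e : ℝ)| ≤ ρ ∧ (e : ZMod q) = (n : ZMod q) * a :=
    fun n hn => (mem_filter.1 hn).2
  choose! e e1 e2 using h3
  have hinj : Set.InjOn (fun n : ℤ => (n, e n)) Z := fun _ _ _ _ h => (Prod.mk.inj h).1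
  rw [← card_image_of_injOn hinj]
  refine (lat_count _ (l0 := Q / X) (NeZero.pos q) hN0 hρ (by positivity) (fun w hw => ?_)
    (fun u hu v hv w hw => ?_) fun u hu v hv hne => ?_).trans (le_of_eq ?_)
  · obtain ⟨n, hn, rfl⟩ := mem_image.1 hw
    refine ⟨?_, e1 n hn⟩
    have := abs_le.2 (mem_Icc.1 (mem_filter.1 hn).1)
    exact_mod_cast this
  · obtain ⟨n, hn, rfl⟩ := mem_image.1 hu
    obtain ⟨n', hn', rfl⟩ := mem_image.1 hv
    obtain ⟨n'', hn'', rfl⟩ := mem_image.1 hw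
    apply (ZMod.intCast_zmod_eq_zero_iff_dvd _ q).1
    push_cast
    rw [e2 n hn, e2 n' hn', e2 n'' hn'']
    ring
  · obtain ⟨n, hn, rfl⟩ := mem_image.1 hu
    obtain ⟨n', hn', rfl⟩ := mem_image.1 hv
    have hnn : n ≠ n' := fun h => hne (by rw [h])
    by_contra hc
    push Not at hc
    obtain ⟨c1, c2⟩ := hc
    simp only at c1 c2
    have c3 : Q / X * N ≤ Q := by
      rw [div_mul_eq_mul_div, div_le_iff₀ hX]
      gcongr
    have c4 : Q / X * ρ ≤ Q * q / (P : ℝ) ^ k := by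
      rw [div_mul_eq_mul_div, div_le_div_iff₀ hX (by positivity)]
      calc Q * ρ * (P : ℝ) ^ k = Q * (ρ * (P : ℝ) ^ k) := by ring
        _ ≤ Q * (X * q) := by gcongr
        _ = _ := by ring
    have c5 : Small (((n - n' : ℤ) : ZMod q) * a) (Q * q / (P : ℝ) ^ k) := by
      refine ⟨e n - e n', ?_, ?_⟩
      · push_cast
        linarith
      · push_cast
        rw [e2 n hn, e2 n' hn']
        ring
    refine ha ⟨(n - n').natAbs, Int.natAbs_pos.2 (sub_ne_zero.2 hnn), ?_, ?_⟩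
    · rw [Nat.cast_natAbs]
      push_cast
      linarith
    · rcases Int.natAbs_eq (n - n') with h | h
      · rw [h, Int.cast_natCast] at c5
        exact c5
      · have := c5.neg
        rw [h, Int.cast_neg, Int.cast_natCast, neg_mul, neg_neg] at this
        exact this
  · field_simp

open Classical in
theorem ds_sum {k : ℕ} (hk : 2 ≤ k) {ε : ℝ} (hε : 0 < ε) : ∃ A : ℝ, 1 ≤ A ∧
    ∀ (P M q : ℕ) [NeZero q], 1 ≤ M → 4 * M ≤ P → k.factorial ≤ P → ∀ Ms : Finset ℕ, PrM k M Ms →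
      ∀ Q : ℝ, 0 < Q → ∀ a : ZMod q, ¬ Maj k P Q a →
        ∑ m ∈ Ms, (#(Ds k P M a m) : ℝ) ≤ #Ms + A * (P : ℝ) ^ ε *
          (1 + (M : ℝ) ^ 4 * (P : ℝ) ^ 2 / (P : ℝ) ^ k + (M : ℝ) ^ 2 * P / Q) := by
  obtain ⟨C, hC, H1⟩ := bad_tau 4 hε
  set F : ℝ := (k.factorial : ℝ) with hF
  have hF1 : 1 ≤ F := by rw [hF]; exact_mod_cast k.factorial_pos
  have h2k : (4 : ℝ) ≤ 2 ^ k := by
    calc (4 : ℝ) = 2 ^ 2 := by norm_num
      _ ≤ _ := pow_le_pow_right₀ (by norm_num) hk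
  refine ⟨1 + C * (2304 * F ^ 2 * 2 ^ k), le_add_of_nonneg_right (by positivity), ?_⟩
  intro P M q _ hM h4 hkP Ms hMs Q hQ a ha
  have hP : 1 ≤ P := by omega
  have hP0 : (0 : ℝ) < P := by exact_mod_cast hP
  have hM0 : (0 : ℝ) < M := by exact_mod_cast hM
  have hq0 : (0 : ℝ) < q := by exact_mod_cast NeZero.pos q
  set ρ : ℝ := 6 * k.factorial * 2 ^ k * q * (M : ℝ) ^ 2 / (P : ℝ) ^ (k - 1) with hρ
  set N : ℕ := k.factorial * (4 * M) * (4 * M * P) with hN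
  have hN1 : 1 ≤ N := Nat.one_le_iff_ne_zero.2 (by rw [hN]; positivity)
  have hPk : (P : ℝ) ^ k = (P : ℝ) ^ (k - 1) * P := by rw [← pow_succ]; congr 1; omega
  have hNr : (N : ℝ) = 16 * F * (M : ℝ) ^ 2 * P := by rw [hN, hF]; push_cast; ring
  have h1 := few_mult (k := k) hP (X := 6 * F * 2 ^ k * (M : ℝ) ^ 2 * P) (ρ := ρ) hN1 hQ
    (by positivity) (by
      rw [hNr]
      have : 16 * (F * (M : ℝ) ^ 2 * P) ≤ (6 * 2 ^ k) * (F * (M : ℝ) ^ 2 * P) := by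
        gcongr
        linarith
      linarith) (by
      rw [hρ, hPk]
      refine le_of_eq ?_
      field_simp
      rfl) ha
  set Z := (Icc (-(N : ℤ)) N).filter fun n : ℤ => Small ((n : ZMod q) * a) ρ with hZ
  have h2 : ∀ m ∈ Ms, #(Ds k P M a m) ≤ 1 + #((Z.erase 0).filter fun n => (m : ℤ) ∣ n) := by
    intro m hm
    obtain ⟨hp, -, -, hm4⟩ := hMs m hm
    have b1 : #(Ds k P M a m) ≤ 1 + #((Ds k P M a m).erase 0) := by
      have := pred_card_le_card_erase (s := Ds k P M a m) (a := 0)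
      omega
    refine b1.trans (Nat.add_le_add_left ?_ 1)
    have hw : (0 : ℤ) < (k.factorial * m : ℕ) := by
      have := hp.pos
      positivity
    refine card_le_card_of_injOn (fun Δ => ((k.factorial * m : ℕ) : ℤ) * Δ) (fun Δ hΔ => ?_)
      fun u _ v _ h => mul_left_cancel₀ hw.ne' h
    obtain ⟨c1, c2⟩ := mem_erase.1 hΔ
    obtain ⟨c3, c4⟩ := mem_filter.1 c2
    refine mem_coe.2 (mem_filter.2 ⟨mem_erase.2 ⟨mul_ne_zero hw.ne' c1, mem_filter.2 ⟨?_, ?_⟩⟩,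
      ⟨k.factorial * Δ, by push_cast; ring⟩⟩)
    · rw [mem_Icc, ← abs_le] at c3 ⊢
      rw [abs_mul, abs_of_pos hw, hN]
      push_cast
      have : (m : ℤ) ≤ 4 * M := by exact_mod_cast hm4
      gcongr
    · rw [Int.cast_mul, Int.cast_natCast]
      exact c4
  have h3 : ∑ m ∈ Ms, (#((Z.erase 0).filter fun n => (m : ℤ) ∣ n) : ℝ) ≤
      #Z * (C * (P : ℝ) ^ ε) := by
    have b1 : ∑ m ∈ Ms, (#((Z.erase 0).filter fun n => (m : ℤ) ∣ n) : ℝ) =
        ∑ n ∈ Z.erase 0, (#(Ms.filter fun m : ℕ => (m : ℤ) ∣ n) : ℝ) := by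
      simp only [card_filter]
      push_cast
      exact sum_comm
    rw [b1]
    have b2 : ∀ n ∈ Z.erase 0, (#(Ms.filter fun m : ℕ => (m : ℤ) ∣ n) : ℝ) ≤ C * (P : ℝ) ^ ε := by
      intro n hn
      obtain ⟨c1, c2⟩ := mem_erase.1 hn
      have c3 : |n| ≤ (P : ℤ) ^ 4 := by
        refine (abs_le.2 (mem_Icc.1 (mem_filter.1 c2).1)).trans ?_
        have : N ≤ P ^ 4 := by
          calc N ≤ P * P * (P * P) := by
                rw [hN]
                gcongr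
            _ = _ := by ring
        exact_mod_cast this
      refine le_trans (le_of_eq ?_) (H1 P hP (Ms.map Nat.castEmbedding) n c1 c3)
      rw [filter_map, card_map]
      rfl
    refine (sum_le_card_nsmul _ _ _ b2).trans ?_
    rw [nsmul_eq_mul]
    gcongr
    exact erase_subset _ _
  have h4' : ∑ m ∈ Ms, (#(Ds k P M a m) : ℝ) ≤ #Ms + #Z * (C * (P : ℝ) ^ ε) := by
    have b1 : ∑ m ∈ Ms, (#(Ds k P M a m) : ℝ) ≤
        ∑ m ∈ Ms, (1 + (#((Z.erase 0).filter fun n => (m : ℤ) ∣ n) : ℝ)) :=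
      sum_le_sum fun m hm => by exact_mod_cast h2 m hm
    rw [sum_add_distrib, sum_const, nsmul_eq_mul, mul_one] at b1
    linarith
  refine h4'.trans (add_le_add_right ?_ _)
  have b1 : (N : ℝ) * ρ / q = 96 * F ^ 2 * 2 ^ k * ((M : ℝ) ^ 4 * (P : ℝ) ^ 2 / (P : ℝ) ^ k) := by
    rw [hNr, hρ, hPk, ← hF]
    field_simp
    ring
  have b2 : 4 * (6 * F * 2 ^ k * (M : ℝ) ^ 2 * P) / Q =
      24 * F * 2 ^ k * ((M : ℝ) ^ 2 * P / Q) := by ring
  rw [b1, b2] at h1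
  have u1 : 0 ≤ (M : ℝ) ^ 4 * (P : ℝ) ^ 2 / (P : ℝ) ^ k := by positivity
  have u2 : 0 ≤ (M : ℝ) ^ 2 * P / Q := by positivity
  generalize (M : ℝ) ^ 4 * (P : ℝ) ^ 2 / (P : ℝ) ^ k = s at *
  generalize (M : ℝ) ^ 2 * P / Q = t at *
  have b3 : (4 : ℝ) ≤ 2304 * F ^ 2 * 2 ^ k := by nlinarith
  have b4 : 24 * F * 2 ^ k ≤ 2304 * F ^ 2 * 2 ^ k :=
    mul_le_mul_of_nonneg_right (by nlinarith) (by positivity)
  have b5 : (#Z : ℝ) ≤ 2304 * F ^ 2 * 2 ^ k * (1 + s + t) := by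
    have := mul_le_mul_of_nonneg_right b4 u2
    nlinarith
  calc (#Z : ℝ) * (C * (P : ℝ) ^ ε) ≤ 2304 * F ^ 2 * 2 ^ k * (1 + s + t) * (C * (P : ℝ) ^ ε) := by
        gcongr
    _ = C * (2304 * F ^ 2 * 2 ^ k) * (P : ℝ) ^ ε * (1 + s + t) := by ring
    _ ≤ _ := by
        gcongr
        linarith

/-- the sum over the progression through `x` -/
noncomputable def pro (k P : ℕ) {q : ℕ} [NeZero q] (t : ZMod q × ℕ × ℕ) : ℝ :=
  ‖∑ h ∈ Icc (-((t.2.2 / t.2.1 : ℕ) : ℤ)) (((P - t.2.2) / t.2.1 : ℕ) : ℤ),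
    ch (∑ i, gam k t.1 t.2.1 t.2.2 i * (h : ZMod q) ^ ((i : ℕ) + 1))‖

theorem par_class {k P q m K : ℕ} [NeZero q] (hk : 1 ≤ k) (hK : 1 ≤ K) (hm : m.Prime) (hd : m ∣ q)
    (hmP : m ≤ P + 1) (r : ZMod q) (F : Finset (ZMod q))
    (hF : ∀ a ∈ F, (m : ZMod q) * a = m * r) {V : ℝ} (hV : 0 ≤ V)
    (hFV : ∀ a ∈ F, V ≤ ‖fc k P m a‖) :
    #F * V ^ (2 * K) * (P + 1) ≤ 2 * (k : ℝ) ^ K * (m : ℝ) ^ (2 * K) *
      ∑ x ∈ (range (P + 1)).filter (fun x => Nat.Coprime x m), pro k P (r, m, x) ^ (2 * K) := by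
  classical
  have : Fact m.Prime := ⟨hm⟩
  have hm0 : (0 : ℝ) < m := by exact_mod_cast hm.pos
  set Cs := (range m).filter (fun c => Nat.Coprime c m) with hCs
  obtain ⟨g, hg⟩ : ∃ g : ℕ → ℂ, ∀ c, g c =
      ∑ y ∈ (range (P + 1)).filter (fun y => y % m = c), ch (r * (y : ZMod q) ^ k) :=
    ⟨_, fun _ => rfl⟩
  obtain ⟨G, hG⟩ : ∃ G : ZMod m → ℂ, ∀ y, G y = if Nat.Coprime y.val m then g y.val else 0 :=
    ⟨_, fun _ => rfl⟩
  have hGc : ∀ c ∈ range m, G (c : ZMod m) = if Nat.Coprime c m then g c else 0 := fun c hc => by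
    rw [hG, ZMod.val_cast_of_lt (mem_range.1 hc)]
  have h1 : ∀ n : ℕ, fc k P m (r + ((q / m : ℕ) : ZMod q) * (n : ZMod q)) =
      ∑ y : ZMod m, ch ((n : ZMod m) * y ^ k) * G y := by
    intro n
    rw [← theta_sum, fc, step_fib hm.pos, sum_filter]
    refine sum_congr rfl fun c hc => ?_
    rw [hGc c hc]
    split_ifs with h
    · rw [hg, mul_sum]
      refine sum_congr rfl fun y hy => ?_
      rw [add_mul, ch_add, theta_chn hd, ← (mem_filter.1 hy).2, ZMod.natCast_mod, mul_comm]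
    · rw [mul_zero]
  have h2 : ∑ y : ZMod m, ‖G y‖ ^ 2 = ∑ c ∈ Cs, ‖g c‖ ^ 2 := by
    rw [← theta_sum, hCs, sum_filter]
    refine sum_congr rfl fun c hc => ?_
    rw [hGc c hc]
    split_ifs <;> simp
  have h3 : F ⊆ (range m).image fun n : ℕ => r + ((q / m : ℕ) : ZMod q) * (n : ZMod q) := by
    intro a ha
    obtain ⟨β, n, b1, b2, b3⟩ := small_div (d := a - r) (D := 0) hm.pos hd
      ⟨0, by simp, by rw [mul_sub, hF a ha]; simp⟩
    have b4 : β = 0 := by exact_mod_cast abs_nonpos_iff.1 b1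
    refine mem_image.2 ⟨n, mem_range.2 b2, ?_⟩
    rw [b4] at b3
    linear_combination -b3
  have h4 : #F * V ^ 2 ≤ k * (m * ∑ c ∈ Cs, ‖g c‖ ^ 2) := by
    calc #F * V ^ 2 ≤ ∑ a ∈ F, ‖fc k P m a‖ ^ 2 := by
          rw [← nsmul_eq_mul]
          exact card_nsmul_le_sum _ _ _ fun a ha => pow_le_pow_left₀ hV (hFV a ha) 2
      _ ≤ _ := sum_le_sum_of_subset_of_nonneg h3 fun _ _ _ => by positivity
      _ ≤ ∑ n ∈ range m, ‖fc k P m (r + ((q / m : ℕ) : ZMod q) * (n : ZMod q))‖ ^ 2 :=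
          sum_image_le_of_nonneg fun _ _ => by positivity
      _ = ∑ n : ZMod m, ‖∑ y : ZMod m, ch (n * y ^ k) * G y‖ ^ 2 := by
          rw [← theta_sum]
          exact sum_congr rfl fun n _ => by rw [h1]
      _ ≤ _ := by
          rw [← h2]
          exact theta_pow hk G
  have h5 : (∑ c ∈ Cs, ‖g c‖ ^ 2) ^ K ≤ (m : ℝ) ^ (K - 1) * ∑ c ∈ Cs, ‖g c‖ ^ (2 * K) := by
    have b1 := pow_sum_le_card_mul_sum_pow (s := Cs) (f := fun c => ‖g c‖ ^ 2)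
      (fun c _ => by positivity) (K - 1)
    rw [Nat.sub_add_cancel hK] at b1
    simp only [← pow_mul] at b1
    refine b1.trans ?_
    have b2 : (#Cs : ℝ) ≤ m := by
      exact_mod_cast (card_filter_le _ _).trans (card_range m).le
    gcongr
  have h6 : ((P : ℝ) + 1) / (2 * m) * ∑ c ∈ Cs, ‖g c‖ ^ (2 * K) ≤
      ∑ x ∈ (range (P + 1)).filter (fun x => Nat.Coprime x m), pro k P (r, m, x) ^ (2 * K) := by
    rw [step_fib hm.pos, mul_sum]
    refine sum_le_sum fun c hc => ?_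
    have b1 : ∀ y ∈ (range (P + 1)).filter (fun y => y % m = c),
        pro k P (r, m, y) ^ (2 * K) = ‖g c‖ ^ (2 * K) := by
      intro y hy
      obtain ⟨c1, c2⟩ := mem_filter.1 hy
      rw [pro]
      simp only
      rw [step_inner hm.pos (Nat.lt_succ_iff.1 (mem_range.1 c1)), c2, hg]
    rw [sum_congr rfl b1, sum_const, nsmul_eq_mul]
    exact mul_le_mul_of_nonneg_right
      (step_count hm.pos hmP (mem_range.1 (mem_filter.1 hc).1)) (by positivity)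
  have h7 : #F * V ^ (2 * K) ≤ (#F * V ^ 2) ^ K := by
    rw [mul_pow, ← pow_mul]
    refine mul_le_mul_of_nonneg_right ?_ (by positivity)
    exact_mod_cast Nat.le_self_pow (by omega) #F
  have h8 : #F * V ^ (2 * K) ≤ (k : ℝ) ^ K * (m : ℝ) ^ K *
      ((m : ℝ) ^ (K - 1) * ∑ c ∈ Cs, ‖g c‖ ^ (2 * K)) := by
    refine h7.trans ((pow_le_pow_left₀ (by positivity) h4 K).trans ?_)
    rw [mul_pow, mul_pow, ← mul_assoc]
    gcongr
  have h9 : (m : ℝ) ^ (2 * K) = (m : ℝ) ^ K * (m : ℝ) ^ (K - 1) * m := by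
    rw [← pow_add, ← pow_succ]
    congr 1
    omega
  calc #F * V ^ (2 * K) * (P + 1) ≤ (k : ℝ) ^ K * (m : ℝ) ^ K *
        ((m : ℝ) ^ (K - 1) * ∑ c ∈ Cs, ‖g c‖ ^ (2 * K)) * (P + 1) := by gcongr
    _ = 2 * (k : ℝ) ^ K * (m : ℝ) ^ (2 * K) *
        (((P : ℝ) + 1) / (2 * m) * ∑ c ∈ Cs, ‖g c‖ ^ (2 * K)) := by
        rw [h9]
        field_simp
    _ ≤ _ := mul_le_mul_of_nonneg_left h6 (by positivity)

theorem par_reps {k P q m K : ℕ} [NeZero q] (hk : 1 ≤ k) (hK : 1 ≤ K) (hm : m.Prime) (hd : m ∣ q)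
    (hmP : m ≤ P + 1) (S : Finset (ZMod q)) {V : ℝ} (hV : 0 ≤ V)
    (hSV : ∀ a ∈ S, V ≤ ‖fc k P m a‖) : ∃ R ⊆ S,
      (∀ a ∈ R, ∀ a' ∈ R, (m : ZMod q) * a = m * a' → a = a') ∧
      #S * V ^ (2 * K) * (P + 1) ≤ 2 * (k : ℝ) ^ K * (m : ℝ) ^ (2 * K) * ∑ r ∈ R,
        ∑ x ∈ (range (P + 1)).filter (fun x => Nat.Coprime x m), pro k P (r, m, x) ^ (2 * K) := by
  classical
  obtain ⟨R, h1, h2, h3⟩ := Finset.exists_subset_injOn_image_eq_of_surjOn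
    (f := fun a : ZMod q => (m : ZMod q) * a) (S : Set (ZMod q))
    (S.image fun a => (m : ZMod q) * a) (by rw [coe_image]; exact Set.surjOn_image _ _)
  refine ⟨R, h1, fun a ha a' ha' h => h2 ha ha' h, ?_⟩
  have h4 : #S ≤ ∑ r ∈ R, #(S.filter fun a => (m : ZMod q) * a = m * r) := by
    refine le_trans (card_le_card fun a ha => ?_) card_biUnion_le
    have b1 : (m : ZMod q) * a ∈ R.image fun a => (m : ZMod q) * a := by
      rw [h3]
      exact mem_image_of_mem _ ha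
    obtain ⟨r, hr, b2⟩ := mem_image.1 b1
    exact mem_biUnion.2 ⟨r, hr, mem_filter.2 ⟨ha, b2.symm⟩⟩
  have h5 : (#S : ℝ) ≤ ∑ r ∈ R, (#(S.filter fun a => (m : ZMod q) * a = m * r) : ℝ) := by
    exact_mod_cast h4
  calc #S * V ^ (2 * K) * (P + 1) ≤ (∑ r ∈ R, (#(S.filter fun a => (m : ZMod q) * a = m * r) : ℝ)) *
        V ^ (2 * K) * (P + 1) := by gcongr
    _ ≤ _ := by
        rw [sum_mul, sum_mul, mul_sum]
        exact sum_le_sum fun r _ => par_class hk hK hm hd hmP r _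
          (fun a ha => (mem_filter.1 ha).2) hV fun a ha => hSV a (mem_filter.1 ha).1

theorem markov_half {ι : Type} (s : Finset ι) (f : ι → ℝ) (hf : ∀ i, 0 ≤ f i) {B : ℝ} (hB : 0 < B)
    (h : ∑ i ∈ s, f i ≤ B) [DecidablePred fun i => f i * #s ≤ 2 * B] :
    (#s : ℝ) ≤ 2 * #(s.filter fun i => f i * #s ≤ 2 * B) := by
  have h1 : (#s : ℝ) = #(s.filter fun i => f i * #s ≤ 2 * B) +
      #(s.filter fun i => ¬ f i * #s ≤ 2 * B) := by
    exact_mod_cast (card_filter_add_card_filter_not (s := s) _).symm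
  have h2 : #(s.filter fun i => ¬ f i * #s ≤ 2 * B) * (2 * B) ≤ B * #s := by
    calc #(s.filter fun i => ¬ f i * #s ≤ 2 * B) * (2 * B)
        ≤ ∑ i ∈ s.filter fun i => ¬ f i * #s ≤ 2 * B, f i * #s := by
          rw [← nsmul_eq_mul]
          exact card_nsmul_le_sum _ _ _ fun i hi => (not_le.1 (mem_filter.1 hi).2).le
      _ ≤ ∑ i ∈ s, f i * #s := sum_le_sum_of_subset_of_nonneg (filter_subset _ _)
          fun i _ _ => mul_nonneg (hf i) (Nat.cast_nonneg _)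
      _ ≤ _ := by
          rw [← sum_mul]
          gcongr
  have h3 : 2 * (#(s.filter fun i => ¬ f i * #s ≤ 2 * B) : ℝ) ≤ #s := by
    refine le_of_mul_le_mul_left ?_ hB
    linarith
  linarith

theorem levelq_fin {s c Z V P M H X A e e' D κ : ℝ} {n : ℕ} (hc : 0 ≤ c) (hP : 1 ≤ P)
    (hκ : 0 ≤ κ) (hV : 0 < V) (hM : 0 ≤ M) (hH : 0 ≤ H) (he : 0 ≤ e') (hA : 0 ≤ A) (hD : 0 ≤ D)
    (hZ : 0 ≤ Z) (h1 : M * H ≤ P) (h9 : e' ≤ e) (h2 : s * c ≤ 2 * Z)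
    (h6 : X ≤ A * e' * H ^ n * D)
    (h7 : Z * (V / 2) ^ n * (P + 1) ≤ 2 * κ * (4 * M) ^ n * X) :
    s * c ^ 2 ≤ 4 * κ * 8 ^ n * A * e * (P / V) ^ n * (D * c / P) := by
  have h8 : (4 * M) ^ n * H ^ n ≤ (4 * P) ^ n := by
    rw [← mul_pow]
    exact pow_le_pow_left₀ (by positivity) (by linarith) _
  have he' : 0 ≤ e := he.trans h9
  have h10 : s * c * ((V / 2) ^ n * P) ≤ 4 * κ * A * e * (4 * P) ^ n * D := by
    calc s * c * ((V / 2) ^ n * P) ≤ (2 * Z) * ((V / 2) ^ n * (P + 1)) := by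
          gcongr
          linarith
      _ = 2 * (Z * (V / 2) ^ n * (P + 1)) := by ring
      _ ≤ 2 * (2 * κ * (4 * M) ^ n * (A * e * H ^ n * D)) := by
          refine mul_le_mul_of_nonneg_left (h7.trans (mul_le_mul_of_nonneg_left (h6.trans ?_)
            (by positivity))) (by norm_num)
          gcongr
      _ = 4 * κ * A * e * ((4 * M) ^ n * H ^ n) * D := by ring
      _ ≤ _ := by gcongr
  rw [← le_div_iff₀ (by positivity)] at h10
  calc s * c ^ 2 = s * c * c := by ring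
    _ ≤ 4 * κ * A * e * (4 * P) ^ n * D / ((V / 2) ^ n * P) * c := by gcongr
    _ = _ := by
        rw [show (8 : ℝ) = 4 * 2 by norm_num, mul_pow, mul_pow, div_pow, div_pow]
        field_simp

theorem levelQ {k : ℕ} (hk : 2 ≤ k) {ε : ℝ} (hε : 0 < ε) : ∃ A : ℝ, 0 < A ∧
    ∀ (P M q : ℕ) [NeZero q], 1 ≤ M → 4 * M ≤ P → Good k P q →
      36 * k.factorial * M ^ 2 < P / M → ∀ Ms : Finset ℕ, PrM k M Ms → Ms.Nonempty →
      ∀ V Q : ℝ, 2 * ((P : ℝ) / M + 1) ≤ V → 0 < Q →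
        (#(Lm k P q V Q) : ℝ) * (#Ms : ℝ) ^ 2 ≤ A * (P : ℝ) ^ ε * (P / V) ^ (2 * tri k) *
          (q / (P : ℝ) ^ (k + 1)) *
          (#Ms + (M : ℝ) ^ 4 * (P : ℝ) ^ 2 / (P : ℝ) ^ k + (M : ℝ) ^ 2 * P / Q) := by
  classical
  have hk1 : 1 ≤ k := by omega
  have hK : 1 ≤ tri k := tri_pos hk1
  obtain ⟨A1, hA1, H1⟩ := ds_sum hk (half_pos hε)
  obtain ⟨A2, hA2, H2⟩ := mw hk1 (half_pos hε)
  refine ⟨400 * (k : ℝ) ^ tri k * 8 ^ (2 * tri k) * A2 * (2 ^ k * k.factorial * A1),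
    by positivity, ?_⟩
  intro P M q _ hM h4 hG hH Ms hMs hne V Q hV hQ
  have hP : (1 : ℝ) ≤ P := by exact_mod_cast (by omega : 1 ≤ P)
  have hM' : (1 : ℝ) ≤ M := by exact_mod_cast hM
  have hV0 : 0 < V := lt_of_lt_of_le (by positivity) hV
  have hc : (1 : ℝ) ≤ #Ms := by exact_mod_cast hne.card_pos
  have hH1 : 1 ≤ P / M := Nat.div_pos (by omega) hM
  have hHP : P / M ≤ P := Nat.div_le_self _ _
  have hkP : k.factorial ≤ P := by
    refine le_trans ?_ (hH.le.trans hHP)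
    have : 1 ≤ M ^ 2 := Nat.one_le_pow _ _ hM
    nlinarith
  have hq : (P : ℝ) ^ k ≤ q := by
    have h1 := hG.le hk1
    have h2 : P ^ k ≤ (8 * k * (P + 1)) ^ (2 * k) :=
      (Nat.pow_le_pow_left (by nlinarith) k).trans (Nat.pow_le_pow_right (by positivity) (by omega))
    exact_mod_cast h2.trans h1
  have hPe : 1 ≤ (P : ℝ) ^ (ε / 2) := Real.one_le_rpow hP (half_pos hε).le
  set W : ℝ := #Ms + (M : ℝ) ^ 4 * (P : ℝ) ^ 2 / (P : ℝ) ^ k + (M : ℝ) ^ 2 * P / Q with hW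
  have u1 : 0 ≤ (M : ℝ) ^ 4 * (P : ℝ) ^ 2 / (P : ℝ) ^ k := by positivity
  have u2 : 0 ≤ (M : ℝ) ^ 2 * P / Q := by positivity
  have hW0 : 0 < W := by positivity
  set B : ℝ := 2 * (A1 * (P : ℝ) ^ (ε / 2)) * W with hB
  have hB0 : 0 < B := by positivity
  set S := Lm k P q V Q with hS
  have hS1 : ∀ a ∈ S, V ≤ ‖fw k P a‖ ∧ ¬ Maj k P Q a := fun a ha => (mem_filter.1 ha).2
  have h1 : ∀ a ∈ S, ∑ m ∈ Ms, (#(Ds k P M a m) : ℝ) ≤ B := by
    intro a ha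
    refine (H1 P M q hM h4 hkP Ms hMs Q hQ a (hS1 a ha).2).trans ?_
    have b1 : 1 ≤ A1 * (P : ℝ) ^ (ε / 2) := one_le_mul_of_one_le_of_one_le hA1 hPe
    have b2 : (#Ms : ℝ) ≤ A1 * (P : ℝ) ^ (ε / 2) * W :=
      le_trans (by linarith) (le_mul_of_one_le_left hW0.le b1)
    have b3 : A1 * (P : ℝ) ^ (ε / 2) *
        (1 + (M : ℝ) ^ 4 * (P : ℝ) ^ 2 / (P : ℝ) ^ k + (M : ℝ) ^ 2 * P / Q) ≤
          A1 * (P : ℝ) ^ (ε / 2) * W := by
      rw [hW]
      gcongr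
    linarith
  set Sm : ℕ → Finset (ZMod q) := fun m =>
    S.filter fun a => (#(Ds k P M a m) : ℝ) * #Ms ≤ 2 * B with hSm
  have h2 : (#S : ℝ) * #Ms ≤ 2 * ∑ m ∈ Ms, (#(Sm m) : ℝ) := by
    have b1 : ∑ m ∈ Ms, (#(Sm m) : ℝ) =
        ∑ a ∈ S, (#(Ms.filter fun m => (#(Ds k P M a m) : ℝ) * #Ms ≤ 2 * B) : ℝ) := by
      simp only [hSm, card_filter]
      push_cast
      exact sum_comm
    rw [b1, mul_sum, ← nsmul_eq_mul]
    exact card_nsmul_le_sum _ _ _ fun a ha =>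
      markov_half Ms (fun m => (#(Ds k P M a m) : ℝ)) (fun _ => by positivity) hB0 (h1 a ha)
  have h3 : ∀ m ∈ Ms, ∃ R ⊆ Sm m, (∀ a ∈ R, ∀ a' ∈ R, (m : ZMod q) * a = m * a' → a = a') ∧
      #(Sm m) * (V / 2) ^ (2 * tri k) * (P + 1) ≤ 2 * (k : ℝ) ^ tri k * (m : ℝ) ^ (2 * tri k) *
        ∑ r ∈ R, ∑ x ∈ (range (P + 1)).filter (fun x => Nat.Coprime x m),
          pro k P (r, m, x) ^ (2 * tri k) := by
    intro m hm
    obtain ⟨hp, -, hMm, hm4⟩ := hMs m hm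
    have hd : m ∣ q := by
      have := coreii_dvd (b := 1) hk1 hk1 hp.pos (by omega) hG
      rw [pow_one] at this
      exact Dvd.dvd.trans (Dvd.intro_left _ rfl) this
    refine par_reps hk1 hK hp hd (by omega) _ (by positivity) fun a ha => ?_
    have f1 := fw_le_fc k P hp a
    have f2 : (M : ℝ) ≤ m := by exact_mod_cast hMm
    have f3 : (P : ℝ) / m ≤ P / M := by gcongr
    have f4 := (hS1 a (mem_filter.1 ha).1).1
    linarith
  choose! R r1 r2 r3 using h3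
  set T := (Tr P (univ : Finset (ZMod q)) Ms).filter fun t => t.1 ∈ R t.2.1 with hT
  have hT1 : ∀ t ∈ T, t.2.1 ∈ Ms ∧ t.2.2 ≤ P ∧ Nat.Coprime t.2.2 t.2.1 ∧ t.1 ∈ R t.2.1 := by
    intro t ht
    simp only [hT, Tr, mem_filter, mem_product, mem_range] at ht
    exact ⟨ht.1.1.2.1, by omega, ht.1.2, ht.2⟩
  have h5 : ∑ t ∈ T, pro k P t ^ (2 * tri k) = ∑ m ∈ Ms, ∑ r ∈ R m,
      ∑ x ∈ (range (P + 1)).filter (fun x => Nat.Coprime x m), pro k P (r, m, x) ^ (2 * tri k) := by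
    rw [hT, sum_filter, step_tr, sum_comm]
    refine sum_congr rfl fun m _ => ?_
    rw [← univ_inter (R m), ← sum_ite_mem]
    refine sum_congr rfl fun a _ => ?_
    split_ifs <;> simp
  set D : ℝ := 5 * 2 ^ k * (q / (P : ℝ) ^ k) * k.factorial * (2 * B / #Ms * 5) with hD
  have hD0 : 0 ≤ D := by positivity
  have h6 := H2 q (P / M) hH1 (step_q hk1 hHP hG) _ T (fun t => gam k t.1 t.2.1 t.2.2)
    (fun t => -((t.2.2 / t.2.1 : ℕ) : ℤ)) (fun t => (((P - t.2.2) / t.2.1 : ℕ) : ℤ)) D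
    hD0 (fun t ht => by
      obtain ⟨hm, hx, -⟩ := hT1 t ht
      have a1 : t.2.2 / t.2.1 ≤ P / M := Nat.div_le_div hx (hMs _ hm).2.2.1 (by omega)
      have a2 : (P - t.2.2) / t.2.1 ≤ P / M :=
        Nat.div_le_div (by omega) (hMs _ hm).2.2.1 (by omega)
      exact ⟨neg_le_neg (by exact_mod_cast a1), by exact_mod_cast a2⟩) (fun t ht => by
      have a1 := deg_le hk hM h4 hG hH hMs T
        (fun t ht => ⟨(hT1 t ht).1, (hT1 t ht).2.1, (hT1 t ht).2.2.1⟩)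
        (fun t ht t' ht' e1 e2 => r2 _ (hT1 t ht).1 _ (hT1 t ht).2.2.2 _
          (by rw [e1]; exact (hT1 t' ht').2.2.2) e2) ht
      have a2 : (#(Ds k P M t.1 t.2.1) : ℝ) ≤ 2 * B / #Ms := by
        rw [le_div_iff₀ (by positivity)]
        exact (mem_filter.1 (r1 _ (hT1 t ht).1 (hT1 t ht).2.2.2)).2
      have a3 : (2 * ⌊2 * 2 ^ k * q / (P : ℝ) ^ k⌋₊ + 1 : ℝ) ≤ 5 * 2 ^ k * (q / (P : ℝ) ^ k) := by
        have b1 := Nat.floor_le (show 0 ≤ 2 * 2 ^ k * q / (P : ℝ) ^ k by positivity)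
        have b2 : 1 ≤ q / (P : ℝ) ^ k := (one_le_div (by positivity)).2 hq
        have b3 : (1 : ℝ) ≤ 2 ^ k * (q / (P : ℝ) ^ k) :=
          one_le_mul_of_one_le_of_one_le (one_le_pow₀ (by norm_num)) b2
        rw [mul_div_assoc] at b1 ⊢
        linarith
      refine le_trans (by exact_mod_cast a1) (?_ : (2 * ⌊2 * 2 ^ k * q / (P : ℝ) ^ k⌋₊ + 1 : ℝ) *
        k.factorial * (#(Ds k P M t.1 t.2.1) * 5) ≤ D)
      rw [hD]
      gcongr)
  replace h6 : ∑ t ∈ T, pro k P t ^ (2 * tri k) ≤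
    A2 * ((P / M : ℕ) : ℝ) ^ (ε / 2) * ((P / M : ℕ) : ℝ) ^ (2 * tri k) * D := h6
  have h7 : (∑ m ∈ Ms, (#(Sm m) : ℝ)) * (V / 2) ^ (2 * tri k) * (P + 1) ≤
      2 * (k : ℝ) ^ tri k * (4 * M : ℝ) ^ (2 * tri k) * ∑ t ∈ T, pro k P t ^ (2 * tri k) := by
    rw [h5, sum_mul, sum_mul, mul_sum]
    refine sum_le_sum fun m hm => (r3 m hm).trans ?_
    have b1 : (m : ℝ) ≤ 4 * M := by exact_mod_cast (hMs m hm).2.2.2
    have b2 : 0 ≤ ∑ r ∈ R m, ∑ x ∈ (range (P + 1)).filter (fun x => Nat.Coprime x m),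
        pro k P (r, m, x) ^ (2 * tri k) :=
      sum_nonneg fun _ _ => sum_nonneg fun _ _ => by rw [pow_mul]; positivity
    gcongr
  have h9 : ((P / M : ℕ) : ℝ) ^ (ε / 2) ≤ (P : ℝ) ^ (ε / 2) :=
    Real.rpow_le_rpow (by positivity) (by exact_mod_cast hHP) (half_pos hε).le
  have h11 : (P : ℝ) ^ ε = (P : ℝ) ^ (ε / 2) * (P : ℝ) ^ (ε / 2) := by
    rw [← Real.rpow_add (by positivity), add_halves]
  have h12 := levelq_fin (Nat.cast_nonneg _) hP (pow_nonneg (Nat.cast_nonneg _) _) hV0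
    (Nat.cast_nonneg _) (Nat.cast_nonneg _) (Real.rpow_nonneg (Nat.cast_nonneg _) _) hA2.le hD0
    (sum_nonneg fun _ _ => Nat.cast_nonneg _)
    (by exact_mod_cast Nat.mul_div_le P M) h9 h2 h6 h7
  refine h12.trans (le_of_eq ?_)
  rw [hD, hB, h11, pow_succ (P : ℝ) k]
  field_simp
  ring

theorem good_ge {k P q : ℕ} [NeZero q] (hk : 1 ≤ k) (hG : Good k P q) : (P : ℝ) ^ k ≤ q := by
  have h1 := hG.le hk
  have h2 : P ^ k ≤ (8 * k * (P + 1)) ^ (2 * k) :=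
    (Nat.pow_le_pow_left (by nlinarith) k).trans (Nat.pow_le_pow_right (by positivity) (by omega))
  exact_mod_cast h2.trans h1

open Classical in
theorem maj_sq {k : ℕ} (hk : 1 ≤ k) {ε : ℝ} (hε : 0 < ε) : ∃ A : ℝ, 0 < A ∧
    ∀ (P q : ℕ) [NeZero q], 1 ≤ P → Good k P q → ∀ Q : ℝ, 1 ≤ Q → Q ≤ (P : ℝ) ^ 2 →
      ∑ a : ZMod q with Maj k P Q a, ‖fw k P a‖ ^ 2 ≤
        A * (P : ℝ) ^ ε * (q / (P : ℝ) ^ k) * (Q * (Q * P + (P : ℝ) ^ 2)) := by
  obtain ⟨C, hC, H⟩ := bad_count hk hε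
  refine ⟨3 * C, by positivity, fun P q _ hP hG Q hQ hQP => ?_⟩
  have hP0 : (0 : ℝ) < P := by exact_mod_cast hP
  have hq := good_ge hk hG
  set D : ℝ := Q * q / (P : ℝ) ^ k with hD
  have hQD : Q ≤ D := by
    rw [hD, le_div_iff₀ (by positivity)]
    gcongr
  have hfl := Nat.floor_le (show 0 ≤ Q by linarith)
  have h1 := bad_union (Icc 1 ⌊Q⌋₊) (Maj k P (q := q) Q) (fun d a => Small ((d : ZMod q) * a) D)
    (fun a => ‖fw k P a‖ ^ 2) (fun _ => by positivity) fun a ⟨d, d1, d2, d3⟩ =>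
      ⟨d, mem_Icc.2 ⟨d1, Nat.le_floor d2⟩, d3⟩
  have h2 : ∀ d ∈ Icc 1 ⌊Q⌋₊, ∑ a : ZMod q with Small ((d : ZMod q) * a) D, ‖fw k P a‖ ^ 2 ≤
      3 * D * #((range (P + 1) ×ˢ range (P + 1)).filter fun z : ℕ × ℕ =>
          (d : ℤ) ∣ (z.1 : ℤ) ^ k - (z.2 : ℤ) ^ k) := by
    intro d hd
    obtain ⟨d1, d2⟩ := mem_Icc.1 hd
    have d3 : (d : ℝ) ≤ Q := le_trans (by exact_mod_cast d2) hfl
    have d4 : d ∣ q := by
      refine hG d d1 ?_
      have b1 : d ≤ P ^ 2 := by exact_mod_cast d3.trans hQP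
      exact b1.trans ((Nat.pow_le_pow_left (by nlinarith) 2).trans
        (Nat.pow_le_pow_right (by positivity) (by omega)))
    refine (arc_sq d1 d4 (by linarith)).trans ?_
    gcongr
    linarith
  have h3 := H P (⌊Q⌋₊ / P + 1) hP (Nat.le_add_left _ _) ((Icc 1 ⌊Q⌋₊).map Nat.castEmbedding) (by
    rw [card_map, Nat.card_Icc]
    have := Nat.lt_mul_div_succ ⌊Q⌋₊ (show 0 < P by omega)
    have h : P * (⌊Q⌋₊ / P + 1) ≤ 8 * (⌊Q⌋₊ / P + 1) * P := by nlinarith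
    omega)
  rw [sum_map] at h3
  have h4 : ((⌊Q⌋₊ / P + 1 : ℕ) : ℝ) * (P : ℝ) ^ 2 ≤ Q * P + (P : ℝ) ^ 2 := by
    have b1 : ((⌊Q⌋₊ / P : ℕ) : ℝ) * P ≤ Q :=
      le_trans (by exact_mod_cast Nat.div_mul_le_self _ _) hfl
    push_cast
    nlinarith
  refine h1.trans ((sum_le_sum h2).trans ?_)
  rw [← mul_sum]
  calc _ ≤ 3 * D * (C * ((⌊Q⌋₊ / P + 1 : ℕ) : ℝ) * (P : ℝ) ^ 2 * (P : ℝ) ^ ε) :=
        mul_le_mul_of_nonneg_left h3 (by positivity)
    _ = 3 * D * C * (P : ℝ) ^ ε * (((⌊Q⌋₊ / P + 1 : ℕ) : ℝ) * (P : ℝ) ^ 2) := by ring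
    _ ≤ 3 * D * C * (P : ℝ) ^ ε * (Q * P + (P : ℝ) ^ 2) := by gcongr
    _ = _ := by
        rw [hD]
        ring

theorem cub_M (B : ℕ) {P : ℕ} (hP : 343 * (B + 1) ^ 3 + 28 ^ 21 ≤ P) {y : ℝ} (hy : 1 ≤ y)
    (hyP : y ^ 7 ≤ P) : ∃ M : ℕ, B + 1 ≤ M ∧ 343 * M ^ 3 ≤ P ∧ 2 * y ^ 2 ≤ M := by
  have hex : ∃ M : ℕ, P < 343 * (M + 1) ^ 3 :=
    ⟨P, by nlinarith [Nat.le_self_pow (show 3 ≠ 0 by omega) (P + 1)]⟩
  have h1 := Nat.find_spec hex
  have h2 : B + 1 ≤ Nat.find hex := by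
    by_contra h
    have : (Nat.find hex + 1) ^ 3 ≤ (B + 1) ^ 3 := Nat.pow_le_pow_left (by omega) 3
    omega
  have h3 := Nat.find_min hex (m := Nat.find hex - 1) (by omega)
  rw [Nat.sub_add_cancel (by omega), not_lt] at h3
  refine ⟨_, h2, h3, ?_⟩
  generalize Nat.find hex = M at *
  have h4 : P ≤ (14 * M) ^ 3 := by
    have : (M + 1) ^ 3 ≤ (2 * M) ^ 3 := Nat.pow_le_pow_left (by omega) 3
    nlinarith
  have h5 : (P : ℝ) ≤ (14 * M) ^ 3 := by exact_mod_cast h4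
  have h6 : (28 : ℝ) ^ 21 ≤ P := by exact_mod_cast (Nat.le_add_left _ _).trans hP
  have h7 : ((28 * y ^ 2) ^ 3) ^ 7 ≤ (P : ℝ) ^ 7 := by
    calc ((28 * y ^ 2) ^ 3) ^ 7 = 28 ^ 21 * (y ^ 7) ^ 6 := by ring
      _ ≤ P * (P : ℝ) ^ 6 := by gcongr
      _ = _ := by ring
  have h8 := le_of_pow_le_pow_left₀ (by norm_num) (by positivity) h7
  have h9 := le_of_pow_le_pow_left₀ (n := 3) (by norm_num) (by positivity) (h8.trans h5)
  linarith

theorem cub_fin {s c M P y u E : ℝ} (hc : 1 ≤ c) (hy : 1 ≤ y) (hyP : y ^ 7 ≤ P) (hu : 1 ≤ u)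
    (hE : 0 ≤ E) (h1 : M ^ 3 ≤ P) (h2 : 2 * y ^ 2 ≤ M) (h3 : M ≤ u * c)
    (h : s * c ^ 2 ≤ E * (P / (2 * P / y ^ 2)) ^ 12 / P *
      (c + M ^ 4 * P ^ 2 / P ^ 3 + M ^ 2 * P / y ^ 9)) : s ≤ 3 * u ^ 2 * E * y ^ 15 := by
  have hy0 : 0 < y := by linarith
  have hP : 0 < P := lt_of_lt_of_le (by positivity) hyP
  have hM : 0 < M := lt_of_lt_of_le (by positivity) h2
  have b0 : y ^ 9 ≤ M * P := by
    calc y ^ 9 = y ^ 2 * y ^ 7 := by ring
      _ ≤ M * P := by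
          gcongr
          nlinarith [sq_nonneg y]
  have b4 : M ^ 2 ≤ u ^ 2 * c ^ 2 := by
    rw [← mul_pow]
    gcongr
  have b1 : c ≤ u ^ 2 * c ^ 2 * P / y ^ 9 := by
    rw [le_div_iff₀ (by positivity)]
    calc c * y ^ 9 ≤ c * (u * c * P) := by
          gcongr
          exact b0.trans (by gcongr)
      _ = u * 1 * c ^ 2 * P := by ring
      _ ≤ u * u * c ^ 2 * P := by gcongr
      _ = _ := by ring
  have b2 : M ^ 4 * P ^ 2 / P ^ 3 ≤ u ^ 2 * c ^ 2 * P / y ^ 9 := by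
    rw [div_le_div_iff₀ (by positivity) (by positivity)]
    calc M ^ 4 * P ^ 2 * y ^ 9 ≤ M ^ 4 * P ^ 2 * (M * P) := by gcongr
      _ = M ^ 2 * M ^ 3 * P ^ 3 := by ring
      _ ≤ u ^ 2 * c ^ 2 * P * P ^ 3 := by gcongr
  have b3 : M ^ 2 * P / y ^ 9 ≤ u ^ 2 * c ^ 2 * P / y ^ 9 := by gcongr
  have b5 : (P / (2 * P / y ^ 2)) ^ 12 ≤ y ^ 24 := by
    have : P / (2 * P / y ^ 2) = y ^ 2 / 2 := by field_simp
    rw [this, show y ^ 24 = (y ^ 2) ^ 12 by ring]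
    gcongr
    nlinarith [sq_nonneg y]
  refine le_of_mul_le_mul_right (h.trans ?_) (show 0 < c ^ 2 by positivity)
  calc _ ≤ E * y ^ 24 / P * (3 * (u ^ 2 * c ^ 2 * P / y ^ 9)) := by
        gcongr
        linarith
    _ = _ := by field_simp

open Classical in
theorem cub_level {ε : ℝ} (hε : 0 < ε) : ∃ A : ℝ, 0 < A ∧ ∃ P0 : ℕ, ∀ (P q : ℕ) [NeZero q],
    P0 ≤ P → Good 3 P q → ∀ y : ℝ, 1 ≤ y → y ^ 7 ≤ P →
      (#(Lv 3 P q (2 * P / y ^ 2)) : ℝ) ≤ A * (P : ℝ) ^ ε * (q / (P : ℝ) ^ 3) * y ^ 15 := by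
  have hε3 : 0 < ε / 3 := by positivity
  obtain ⟨A1, hA1, H1⟩ := levelQ (k := 3) (by norm_num) hε3
  obtain ⟨A2, hA2, H2⟩ := maj_sq (k := 3) (by norm_num) hε
  obtain ⟨A3, hA3, H3⟩ := primes_eps 3 hε3
  refine ⟨3 * A3 ^ 2 * A1 + A2, by positivity, 343 * (⌈A3⌉₊ + 1) ^ 3 + 28 ^ 21,
    fun P q _ hP hG y hy hyP => ?_⟩
  obtain ⟨M, m1, m2, m3⟩ := cub_M _ hP hy hyP
  have hM : 1 ≤ M := by omega
  have hM3 : M ≤ M ^ 3 := Nat.le_self_pow (by omega) M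
  have hP1 : 1 ≤ P := by omega
  have hP' : (1 : ℝ) ≤ P := by exact_mod_cast hP1
  have hM' : (1 : ℝ) ≤ M := by exact_mod_cast hM
  have hMP : (M : ℝ) ≤ P := by exact_mod_cast (by omega : M ≤ P)
  have hy0 : 0 < y := by linarith
  obtain ⟨Ms, s1, s2, s3⟩ := H3 M ((Nat.le_ceil A3).trans (by exact_mod_cast (by omega)))
  have h1 := H1 P M q hM (by omega) hG (by
    have b1 : 343 * M ^ 2 ≤ P / M := (Nat.le_div_iff_mul_le hM).2 (by
      calc 343 * M ^ 2 * M = 343 * M ^ 3 := by ring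
        _ ≤ P := m2)
    have b2 : 1 ≤ M ^ 2 := Nat.one_le_pow _ _ hM
    have b3 : Nat.factorial 3 = 6 := rfl
    rw [b3]
    omega) Ms s1 s2 (2 * P / y ^ 2) (y ^ 9) (by
    have b1 : (P : ℝ) / M ≤ P / (2 * y ^ 2) := by gcongr
    have b2 : 1 ≤ (P : ℝ) / (2 * y ^ 2) := (one_le_div (by positivity)).2 (m3.trans hMP)
    have b3 : 2 * (P : ℝ) / y ^ 2 = 4 * (P / (2 * y ^ 2)) := by
      field_simp
      ring
    linarith) (by positivity)
  have hE : 1 ≤ (P : ℝ) ^ (ε / 3) := Real.one_le_rpow hP' hε3.le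
  have h2 : (#(Lm 3 P q (2 * P / y ^ 2) (y ^ 9)) : ℝ) ≤ 3 * (A3 * (P : ℝ) ^ (ε / 3)) ^ 2 *
      (A1 * (P : ℝ) ^ (ε / 3) * (q / (P : ℝ) ^ 3)) * y ^ 15 := by
    refine cub_fin (c := #Ms) (M := M) (P := P) (by exact_mod_cast s2.card_pos) hy hyP
      (one_le_mul_of_one_le_of_one_le hA3 hE) (by positivity)
      (by exact_mod_cast (by omega : M ^ 3 ≤ P)) m3 (s3.trans ?_) (h1.trans (le_of_eq ?_))
    · gcongr
    · rw [show 2 * tri 3 = 12 from rfl]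
      ring
  have h3 := H2 P q hP1 hG (y ^ 9) (one_le_pow₀ hy) (by
    calc y ^ 9 ≤ y ^ 14 := pow_le_pow_right₀ hy (by norm_num)
      _ = (y ^ 7) ^ 2 := by ring
      _ ≤ _ := by gcongr)
  set U := (Lv 3 P q (2 * P / y ^ 2)).filter (Maj 3 P (y ^ 9)) with hU
  have h4 : #U * (2 * P / y ^ 2) ^ 2 ≤ ∑ a : ZMod q with Maj 3 P (y ^ 9) a, ‖fw 3 P a‖ ^ 2 := by
    refine le_trans ?_ (sum_le_sum_of_subset_of_nonneg (s := U)
      (fun a ha => mem_filter.2 ⟨mem_univ _, (mem_filter.1 ha).2⟩) fun _ _ _ => by positivity)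
    rw [← nsmul_eq_mul]
    exact card_nsmul_le_sum _ _ _ fun a ha =>
      pow_le_pow_left₀ (by positivity) (mem_filter.1 (mem_filter.1 ha).1).2 2
  have h5 : (#U : ℝ) ≤ A2 * (P : ℝ) ^ ε * (q / (P : ℝ) ^ 3) * y ^ 15 := by
    refine le_of_mul_le_mul_right ((h4.trans h3).trans ?_)
      (show 0 < (2 * P / y ^ 2) ^ 2 by positivity)
    rw [mul_assoc _ (y ^ 15)]
    refine mul_le_mul_of_nonneg_left ?_ (by positivity)
    have b1 : y ^ 15 * (2 * P / y ^ 2) ^ 2 = y ^ 9 * (4 * (y ^ 2 * (P : ℝ) ^ 2)) := by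
      field_simp
      ring
    have b2 : y ^ 9 * P ≤ y ^ 2 * (P : ℝ) ^ 2 := by
      calc y ^ 9 * P = y ^ 2 * (y ^ 7 * P) := by ring
        _ ≤ y ^ 2 * (P * P) := by gcongr
        _ = _ := by ring
    have b3 : (P : ℝ) ^ 2 ≤ y ^ 2 * (P : ℝ) ^ 2 :=
      le_mul_of_one_le_left (by positivity) (one_le_pow₀ hy)
    have b4 : 0 ≤ y ^ 2 * (P : ℝ) ^ 2 := by positivity
    rw [b1]
    exact mul_le_mul_of_nonneg_left (by linarith) (by positivity)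
  have h6 : (#(Lv 3 P q (2 * P / y ^ 2)) : ℝ) ≤ #(Lm 3 P q (2 * P / y ^ 2) (y ^ 9)) + #U := by
    have : Lv 3 P q (2 * P / y ^ 2) ⊆ Lm 3 P q (2 * P / y ^ 2) (y ^ 9) ∪ U := by
      intro a ha
      by_cases h : Maj 3 P (y ^ 9) a
      · exact mem_union_right _ (mem_filter.2 ⟨ha, h⟩)
      · exact mem_union_left _ (mem_filter.2 ⟨mem_univ _, (mem_filter.1 ha).2, h⟩)
    exact_mod_cast (card_le_card this).trans (card_union_le _ _)
  have h7 : (P : ℝ) ^ ε = ((P : ℝ) ^ (ε / 3)) ^ 3 := by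
    rw [← Real.rpow_mul_natCast (by positivity)]
    congr 1
    push_cast
    ring
  refine h6.trans ((add_le_add h2 h5).trans (le_of_eq ?_))
  rw [h7]
  ring

theorem cub_log {δ : ℝ} (hδ : 0 < δ) {P : ℕ} (hP : 1 ≤ P) :
    ((Nat.log 2 (P + 1) + 1 : ℕ) : ℝ) ≤ (3 + 2 / δ) * (P : ℝ) ^ δ := by
  have hP' : (1 : ℝ) ≤ P := by exact_mod_cast hP
  have h1 : 2 ^ Nat.log 2 (P + 1) ≤ 2 * P :=
    (Nat.pow_log_le_self 2 (by omega)).trans (by omega)
  have h2 : (2 : ℝ) ^ Nat.log 2 (P + 1) ≤ 2 * P := by exact_mod_cast h1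
  have h3 := Real.log_le_log (by positivity) h2
  rw [Real.log_pow, Real.log_mul (by norm_num) (by positivity)] at h3
  have h4 := Real.log_le_rpow_div (x := P) (by positivity) hδ
  have h5 := Real.log_two_gt_d9
  have h6 : (1 : ℝ) ≤ (P : ℝ) ^ δ := Real.one_le_rpow hP' hδ.le
  have h7 : (P : ℝ) ^ δ / δ = (2 / δ * (P : ℝ) ^ δ) / 2 := by field_simp
  rw [h7] at h4
  have h8 : (0 : ℝ) ≤ 2 / δ * (P : ℝ) ^ δ := by positivity
  push_cast
  have h9 : ((Nat.log 2 (P + 1) : ℝ) - 1) ≤ 2 / δ * (P : ℝ) ^ δ := by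
    by_contra hc
    push Not at hc
    nlinarith
  nlinarith

theorem cub_point {u V : ℝ} {P e : ℕ} (h0 : 0 ≤ u) (h1 : u ≤ P + 1) (hV : 1 ≤ V) :
    u ^ (e + 4) ≤ (2 * V) ^ e * u ^ 4 + ∑ i ∈ range (Nat.log 2 (P + 1) + 1),
      if V ≤ 2 ^ i ∧ 2 ^ i ≤ u then (2 * (2 : ℝ) ^ i) ^ (e + 4) else 0 := by
  have hnn : (0 : ℝ) ≤ ∑ i ∈ range (Nat.log 2 (P + 1) + 1),
      if V ≤ 2 ^ i ∧ 2 ^ i ≤ u then (2 * (2 : ℝ) ^ i) ^ (e + 4) else 0 :=
    sum_nonneg fun i _ => by split_ifs <;> positivity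
  rcases le_or_gt u (2 * V) with h | h
  · have : u ^ (e + 4) ≤ (2 * V) ^ e * u ^ 4 := by
      rw [pow_add]
      gcongr
    linarith
  · set N := ⌊u⌋₊ with hN
    have hN1 : 1 ≤ N := Nat.le_floor (by push_cast; linarith)
    have hN2 : N ≤ P + 1 := Nat.floor_le_of_le (by exact_mod_cast h1)
    have h1 : (2 : ℝ) ^ Nat.log 2 N ≤ u := by
      have : 2 ^ Nat.log 2 N ≤ N := Nat.pow_log_le_self 2 (by omega)
      have h' : (2 : ℝ) ^ Nat.log 2 N ≤ N := by exact_mod_cast this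
      exact h'.trans (Nat.floor_le h0)
    have h2 : u ≤ 2 * (2 : ℝ) ^ Nat.log 2 N := by
      have : N + 1 ≤ 2 ^ (Nat.log 2 N + 1) := Nat.lt_pow_succ_log_self (by norm_num) N
      have h' : (N : ℝ) + 1 ≤ 2 ^ (Nat.log 2 N + 1) := by exact_mod_cast this
      have h'' := Nat.lt_floor_add_one u
      rw [pow_succ] at h'
      linarith
    have hi : Nat.log 2 N ∈ range (Nat.log 2 (P + 1) + 1) :=
      mem_range.2 (Nat.lt_succ_of_le (Nat.log_mono_right hN2))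
    have h3 := single_le_sum (f := fun i => if V ≤ 2 ^ i ∧ 2 ^ i ≤ u then
      (2 * (2 : ℝ) ^ i) ^ (e + 4) else 0) (fun i _ => by split_ifs <;> positivity) hi
    rw [if_pos ⟨by linarith, h1⟩] at h3
    have h4 := pow_le_pow_left₀ h0 h2 (e + 4)
    have h5 : 0 ≤ (2 * V) ^ e * u ^ 4 := by positivity
    linarith

theorem cub_mom {e : ℕ} (he : e ≤ 3) {ε : ℝ} (hε : 0 < ε) : ∃ A : ℝ, 0 < A ∧ ∃ P0 : ℕ,
    ∀ (P q : ℕ) [NeZero q], P0 ≤ P → Good 3 P q → ∀ z : ℝ, 1 ≤ z → z ^ 7 = P →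
      ∑ a : ZMod q, ‖fw 3 P a‖ ^ (e + 4) ≤ A * (P : ℝ) ^ ε * q * z ^ (5 * e + 14) := by
  classical
  obtain ⟨A1, hA1, P0, H1⟩ := cub_level (half_pos hε)
  obtain ⟨A2, hA2, H2⟩ := hua (k := 3) (j := 2) (by norm_num) (by norm_num) ε hε
  refine ⟨4 ^ e * A2 + (3 + 2 / (ε / 2)) * (4 ^ (e + 4) * A1), by positivity, P0 + 2,
    fun P q _ hP hG z hz hzP => ?_⟩
  have hP1 : 1 ≤ P := by omega
  have hP' : (1 : ℝ) ≤ P := by exact_mod_cast hP1
  have hz0 : 0 < z := by linarith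
  have hq0 : (0 : ℝ) < q := by exact_mod_cast NeZero.pos q
  have h1 : ∑ a : ZMod q, ‖fw 3 P a‖ ^ 4 ≤ q * (A2 * (P : ℝ) ^ ε * z ^ 14) := by
    have b1 := four_mom (k := 3) (w := 2) (P := P) (q := q)
      (lt_of_le_of_lt (Nat.mul_le_mul_right _ (by omega)) (four_good (by norm_num) hP1 hG))
      (range (P + 1)) fun y hy => Nat.lt_succ_iff.1 (mem_range.1 hy)
    refine (le_of_eq b1).trans (mul_le_mul_of_nonneg_left ((H2 P hP1).trans (le_of_eq ?_)) hq0.le)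
    rw [show z ^ 14 = (z ^ 7) ^ 2 by ring, hzP]
    norm_num
    field_simp
  have h2 : ∀ i ∈ range (Nat.log 2 (P + 1) + 1), ∑ a : ZMod q,
      (if 2 * z ^ 5 ≤ 2 ^ i ∧ 2 ^ i ≤ ‖fw 3 P a‖ then (2 * (2 : ℝ) ^ i) ^ (e + 4) else 0) ≤
        4 ^ (e + 4) * A1 * (P : ℝ) ^ (ε / 2) * q * z ^ (5 * e + 14) := by
    intro i hi
    by_cases hz5 : 2 * z ^ 5 ≤ 2 ^ i
    swap
    · simp only [hz5, false_and, if_false, sum_const_zero]
      positivity
    have hi1 : 2 ^ i ≤ 2 * P :=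
      ((Nat.pow_le_pow_right (by norm_num) (Nat.le_of_lt_succ (mem_range.1 hi))).trans
        (Nat.pow_log_le_self 2 (by omega))).trans (by omega)
    have hi2 : (2 : ℝ) ^ i ≤ 2 * P := by exact_mod_cast hi1
    have hV0 : (0 : ℝ) < 2 ^ i := by positivity
    generalize (2 : ℝ) ^ i = V at *
    obtain ⟨y, hy0, hy⟩ : ∃ y : ℝ, 0 ≤ y ∧ y ^ 2 = 2 * P / V :=
      ⟨√(2 * P / V), Real.sqrt_nonneg _, Real.sq_sqrt (by positivity)⟩
    have y1 : 1 ≤ y := by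
      refine le_of_pow_le_pow_left₀ (n := 2) (by norm_num) hy0 ?_
      rw [hy, one_pow, one_le_div hV0]
      exact hi2
    have y2 : y ≤ z := by
      refine le_of_pow_le_pow_left₀ (n := 2) (by norm_num) hz0.le ?_
      rw [hy, div_le_iff₀ hV0, ← hzP]
      calc 2 * z ^ 7 = z ^ 2 * (2 * z ^ 5) := by ring
        _ ≤ _ := by gcongr
    have y3 : 2 * P / y ^ 2 = V := by
      rw [hy]
      field_simp
    have b1 := H1 P q (by omega) hG y y1 (by rw [← hzP]; gcongr)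
    rw [y3] at b1
    simp only [hz5, true_and]
    rw [← sum_filter, sum_const, nsmul_eq_mul]
    refine (mul_le_mul_of_nonneg_right b1 (by positivity)).trans ?_
    obtain ⟨w, hw⟩ : ∃ w, 2 * e + w = 7 := ⟨7 - 2 * e, by omega⟩
    have b2 : y ^ 15 * (2 * V) ^ (e + 4) = 4 ^ (e + 4) * (P : ℝ) ^ (e + 4) * y ^ w := by
      rw [← y3, show 15 = 2 * (e + 4) + w by omega, pow_add y, pow_mul, ← mul_pow 4, mul_right_comm,
        ← mul_pow]
      congr 2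
      field_simp
      ring
    have b3 : (P : ℝ) ^ (e + 4) * z ^ w = (P : ℝ) ^ 3 * z ^ (5 * e + 14) := by
      rw [← hzP, ← pow_mul, ← pow_mul, ← pow_add, ← pow_add]
      congr 1
      omega
    calc _ = A1 * (P : ℝ) ^ (ε / 2) * (q / (P : ℝ) ^ 3) * (y ^ 15 * (2 * V) ^ (e + 4)) := by ring
      _ ≤ A1 * (P : ℝ) ^ (ε / 2) * (q / (P : ℝ) ^ 3) *
          (4 ^ (e + 4) * ((P : ℝ) ^ (e + 4) * z ^ w)) := by
          rw [b2, mul_assoc (4 ^ (e + 4))]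
          gcongr
      _ = _ := by
          rw [b3]
          field_simp
  have h3 : (P : ℝ) ^ ε = (P : ℝ) ^ (ε / 2) * (P : ℝ) ^ (ε / 2) := by
    rw [← Real.rpow_add (by positivity), add_halves]
  have h4 : 1 ≤ 2 * z ^ 5 := by linarith [one_le_pow₀ (n := 5) hz]
  refine (sum_le_sum fun a _ => cub_point (norm_nonneg _) (norm_fw_le 3 P a) h4).trans ?_
  rw [sum_add_distrib, ← mul_sum, sum_comm, add_mul, add_mul, add_mul]
  refine add_le_add ((mul_le_mul_of_nonneg_left h1 (by positivity)).trans (le_of_eq ?_))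
    ((sum_le_card_nsmul _ _ _ h2).trans ?_)
  · rw [← mul_assoc 2, mul_pow, show (2 * 2 : ℝ) = 4 by norm_num]
    ring
  · rw [card_range, nsmul_eq_mul]
    refine (mul_le_mul_of_nonneg_right (cub_log (half_pos hε) hP1) (by positivity)).trans
      (le_of_eq ?_)
    rw [h3]
    ring

theorem fw_neg (k P : ℕ) {q : ℕ} [NeZero q] (a : ZMod q) : ‖fw k P (-a)‖ = ‖fw k P a‖ := by
  rw [← Complex.norm_conj (fw k P a), fw, fw, map_sum]
  congr 1
  exact sum_congr rfl fun x _ => by rw [neg_mul, ch_neg]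

theorem fw_scale {k P q q' : ℕ} [NeZero q] [NeZero q'] {c : ℤ} (hq : q = q' * c.natAbs) (d : ℕ) :
    ∑ a : ZMod q, ‖fw k P ((c : ZMod q) * a)‖ ^ d =
      c.natAbs * ∑ b : ZMod q', ‖fw k P b‖ ^ d := by
  have h1 : ∀ a : ZMod q, ‖fw k P ((c : ZMod q) * a)‖ = ‖fw k P ((c.natAbs : ZMod q) * a)‖ := by
    intro a
    rcases Int.natAbs_eq c with h | h
    · conv_lhs => rw [h, Int.cast_natCast]
    · conv_lhs => rw [h, Int.cast_neg, Int.cast_natCast, neg_mul, fw_neg]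
  have h2 : q / q' = c.natAbs := by
    rw [hq]
    exact Nat.mul_div_cancel_left _ (NeZero.pos q')
  have h3 : ∀ n : ℕ, fw k P ((c.natAbs : ZMod q) * (n : ZMod q)) = fw k P (n : ZMod q') := by
    intro n
    refine sum_congr rfl fun x _ => ?_
    rw [← h2, theta_chn ⟨_, hq⟩]
  simp only [h1]
  rw [← theta_sum, ← theta_sum]
  simp only [h3]
  have h4 := weyl_per (m := q') (fun n : ℕ => ((‖fw k P (n : ZMod q')‖ ^ d : ℝ) : ℂ))
    (fun x => by simp) c.natAbs 0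
  rw [add_zero, range_zero, sum_empty, add_zero, ← hq] at h4
  exact_mod_cast h4

theorem cub_prod {d : ℕ} (u : Fin (d + 1) → ℝ) (hu : ∀ i, 0 ≤ u i) :
    ∏ i, u i ≤ ∑ i, u i ^ (d + 1) := by
  obtain ⟨j, -, hj⟩ := exists_max_image univ u univ_nonempty
  calc ∏ i, u i ≤ ∏ _i : Fin (d + 1), u j := prod_le_prod (fun i _ => hu i) hj
    _ = u j ^ (d + 1) := by simp
    _ ≤ _ := single_le_sum (f := fun i => u i ^ (d + 1)) (fun i _ => pow_nonneg (hu i) _)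
        (mem_univ j)

theorem cub_four {k d P q : ℕ} [NeZero q] (c : Fin d → ℤ) (n : ℤ) :
    (q : ℝ) * #{x ∈ Fintype.piFinset (fun _ : Fin d => range (P + 1)) |
      ∑ i, c i * (x i : ℤ) ^ k = n} ≤ ∑ a : ZMod q, ∏ i, ‖fw k P ((c i : ZMod q) * a)‖ := by
  classical
  have h1 : ∑ a : ZMod q, (∏ i, fw k P ((c i : ZMod q) * a)) * ch (-(a * (n : ZMod q))) =
      q * (#{x ∈ Fintype.piFinset (fun _ : Fin d => range (P + 1)) |
        ((∑ i, c i * (x i : ℤ) ^ k - n : ℤ) : ZMod q) = 0} : ℂ) := by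
    simp only [fw, prod_univ_sum, sum_mul]
    rw [sum_comm, card_filter]
    push_cast
    rw [mul_sum]
    refine sum_congr rfl fun x _ => ?_
    have b1 : ∀ a : ZMod q, (∏ i, ch ((c i : ZMod q) * a * (x i : ZMod q) ^ k)) *
        ch (-(a * (n : ZMod q))) =
        ch (a * (∑ i, (c i : ZMod q) * (x i : ZMod q) ^ k - (n : ZMod q))) := by
      intro a
      rw [← ch_sum, ← ch_add, mul_sub, mul_sum, sub_eq_add_neg]
      congr 2
      exact sum_congr rfl fun i _ => by ring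
    simp only [b1]
    rw [ch_orth]
    split_ifs <;> simp
  have h2 := congrArg norm h1
  rw [norm_mul, Complex.norm_natCast, Complex.norm_natCast] at h2
  refine le_trans ?_ (h2.symm.le.trans ((norm_sum_le _ _).trans (le_of_eq ?_)))
  · refine mul_le_mul_of_nonneg_left ?_ (Nat.cast_nonneg _)
    refine Nat.cast_le.2 (card_le_card fun x hx => ?_)
    rw [mem_filter] at hx ⊢
    exact ⟨hx.1, by rw [hx.2, sub_self, Int.cast_zero]⟩
  · exact sum_congr rfl fun a _ => by rw [norm_mul, norm_ch, mul_one, norm_prod]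

theorem cub_sign {k d P : ℕ} (c : Fin d → ℤ) (n : ℤ) :
    {m : Fin d → ℤ | (∀ i, |m i| ≤ P) ∧ ∑ i, c i * |m i| ^ k = n}.ncard ≤
      2 ^ d * #{x ∈ Fintype.piFinset (fun _ : Fin d => range (P + 1)) |
        ∑ i, c i * (x i : ℤ) ^ k = n} := by
  have := Set.ncard_le_ncard_of_injOn
    (s := {m : Fin d → ℤ | (∀ i, |m i| ≤ P) ∧ ∑ i, c i * |m i| ^ k = n})
    (t := (((univ : Finset (Fin d → Bool)) ×ˢ
      {x ∈ Fintype.piFinset (fun _ : Fin d => range (P + 1)) | ∑ i, c i * (x i : ℤ) ^ k = n} :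
        Finset _) : Set _))
    (fun m => (fun i => decide (0 ≤ m i), fun i => (m i).natAbs)) (fun m hm => ?_)
    (fun m _ m' _ h => ?_) (finite_toSet _)
  · rw [Set.ncard_coe_finset] at this
    simpa using this
  · simp only [coe_product, Set.mem_prod, coe_univ, Set.mem_univ, true_and, coe_filter,
      Fintype.mem_piFinset, mem_range, Set.mem_ofPred_eq, Int.natCast_natAbs]
    refine ⟨fun i => ?_, hm.2⟩
    have := abs_le.1 (hm.1 i)
    omega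
  · funext i
    have h1 := congrFun (Prod.mk.inj h).1 i
    have h2 := congrFun (Prod.mk.inj h).2 i
    simp only [decide_eq_decide] at h1 h2
    omega

theorem cub_main (d : ℕ) (h4 : 4 ≤ d) (h7 : d ≤ 7) (ε : ℝ) (hε : 0 < ε) : ∃ C : ℝ,
    ∀ (P : ℕ) (c : Fin d → ℤ) (n : ℤ), 1 ≤ P → (∀ i, c i ≠ 0) →
      (({m : Fin d → ℤ | (∀ i, |m i| ≤ P) ∧ ∑ i, c i * |m i| ^ 3 = n}.ncard : ℕ) : ℝ) ≤
        C * (P : ℝ) ^ ((5 * (d : ℝ) - 6) / 7 + ε) := by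
  obtain ⟨e, rfl⟩ : ∃ e, d = e + 4 := ⟨d - 4, by omega⟩
  obtain ⟨A, hA, P0, H⟩ := cub_mom (e := e) (by omega) hε
  refine ⟨2 ^ (e + 4) * ((e + 4) * A + (P0 + 1) ^ (e + 4)), fun P c n hP hc => ?_⟩
  have hP' : (1 : ℝ) ≤ P := by exact_mod_cast hP
  have hX : 1 ≤ (P : ℝ) ^ ((5 * ((e + 4 : ℕ) : ℝ) - 6) / 7 + ε) := by
    refine Real.one_le_rpow hP' ?_
    push_cast
    have : (0 : ℝ) ≤ e := by positivity
    linarith
  refine (Nat.cast_le.2 (cub_sign c n)).trans ?_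
  rw [Nat.cast_mul, Nat.cast_pow, Nat.cast_ofNat, mul_assoc]
  refine mul_le_mul_of_nonneg_left ?_ (by positivity)
  rw [add_mul]
  rcases lt_or_ge P P0 with h | h
  · refine le_add_of_nonneg_of_le (by positivity) (le_trans ?_
      (le_mul_of_one_le_right (by positivity) hX))
    have b1 := card_filter_le (Fintype.piFinset (fun _ : Fin (e + 4) => range (P + 1)))
      fun x => ∑ i, c i * (x i : ℤ) ^ 3 = n
    rw [Fintype.card_piFinset_const, card_range] at b1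
    exact_mod_cast b1.trans (Nat.pow_le_pow_left (show P + 1 ≤ P0 + 1 by omega) _)
  refine le_add_of_le_of_nonneg ?_ (by positivity)
  obtain ⟨q0, hq0, hG⟩ := exists_good 3 P
  obtain ⟨q, hq⟩ : ∃ q, q = q0 * ∏ i, (c i).natAbs := ⟨_, rfl⟩
  have : NeZero q := ⟨hq ▸ mul_ne_zero hq0 (prod_ne_zero_iff.2 fun i _ =>
    Int.natAbs_ne_zero.2 (hc i))⟩
  have hq' : (0 : ℝ) < q := by exact_mod_cast NeZero.pos q
  have hz : ((P : ℝ) ^ (1 / 7 : ℝ)) ^ 7 = P := by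
    rw [← Real.rpow_mul_natCast (by positivity)]
    norm_num
  have h1 : ∀ i, ∑ a : ZMod q, ‖fw 3 P ((c i : ZMod q) * a)‖ ^ (e + 4) ≤
      q * (A * (P : ℝ) ^ ((5 * ((e + 4 : ℕ) : ℝ) - 6) / 7 + ε)) := by
    intro i
    obtain ⟨w, hw⟩ : (c i).natAbs ∣ ∏ j, (c j).natAbs :=
      dvd_prod_of_mem (fun j => (c j).natAbs) (mem_univ i)
    have b1 : q = q0 * w * (c i).natAbs := by rw [hq, hw]; ring
    have : NeZero (q0 * w) := ⟨fun h0 => NeZero.ne q (by rw [b1, h0, zero_mul])⟩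
    rw [fw_scale b1]
    have b2 := H P (q0 * w) h (fun t t1 t2 => (hG t t1 t2).mul_right w) _
      (Real.one_le_rpow hP' (by norm_num)) hz
    refine (mul_le_mul_of_nonneg_left b2 (Nat.cast_nonneg _)).trans (le_of_eq ?_)
    rw [← Real.rpow_mul_natCast (by positivity), Real.rpow_add (by positivity), b1,
      show (5 * ((e + 4 : ℕ) : ℝ) - 6) / 7 = 1 / 7 * ((5 * e + 14 : ℕ) : ℝ) by push_cast; ring]
    push_cast
    ring
  refine le_of_mul_le_mul_left ((cub_four c n).trans ?_) hq'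
  refine (sum_le_sum fun a _ => cub_prod _ fun i => norm_nonneg _).trans ?_
  rw [sum_comm]
  refine (sum_le_card_nsmul _ _ _ fun i _ => h1 i).trans (le_of_eq ?_)
  rw [card_univ, Fintype.card_fin, nsmul_eq_mul]
  push_cast
  ring

end Pool.Agent.MP_927be3_nt.W
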