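import Pool.Agent.MP_927be3_nt.Up.F

/-! Cubic Weyl sums: a multiplicative energy bound at medium heights. -/

open Finset Polynomial

namespace Pool.Agent.MP_927be3_nt.W


open Classical in
theorem mu0 {q e H : ℕ} [NeZero q] (he : 1 ≤ e) (hH : 1 ≤ H) (hq : 2 * tri e * H ^ e < q)
    {τ : Type} (T : Finset τ) (γ : τ → Fin e → ZMod q) (ρ : ℤ → ℂ) (hρ : ∀ h, ‖ρ h‖ ≤ 1) :
    (∑ t ∈ T, ‖∑ h ∈ Icc (-(H : ℤ)) H,
        ρ h * ch (∑ i, γ t i * (h : ZMod q) ^ ((i : ℕ) + 1))‖ ^ tri e) ^ 2 ≤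
      (24 * tri e : ℝ) ^ e * (H : ℝ) ^ tri e * Jv e H *
        #{z ∈ T ×ˢ T | Close H (γ z.1) (γ z.2)} := by
  have hK : 1 ≤ tri e := tri_pos he
  have hH0 : (0 : ℝ) < H := by exact_mod_cast hH
  have hN : ∀ i : Fin e, 0 < tri e * H ^ ((i : ℕ) + 1) := fun i => by positivity
  obtain ⟨S, hS⟩ : ∃ S : τ → ℂ, ∀ t, S t = ∑ h ∈ Icc (-(H : ℤ)) H,
      ρ h * ch (∑ i, γ t i * (h : ZMod q) ^ ((i : ℕ) + 1)) := ⟨_, fun _ => rfl⟩
  simp only [← hS]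
  choose c c1 c2 using fun t => Complex.exists_norm_eq_mul_self (S t ^ tri e)
  have h2 : ∑ t ∈ T, ‖S t‖ ^ tri e = ‖∑ t ∈ T,
      ∑ x ∈ Fintype.piFinset (fun _ : Fin (tri e) => Icc (-(H : ℤ)) H), c t * (∏ r, ρ (x r)) *
        ch (∑ i, γ t i * ((∑ r, x r ^ ((i : ℕ) + 1) : ℤ) : ZMod q))‖ := by
    have h3 : ∑ t ∈ T,
        ∑ x ∈ Fintype.piFinset (fun _ : Fin (tri e) => Icc (-(H : ℤ)) H), c t * (∏ r, ρ (x r)) *
          ch (∑ i, γ t i * ((∑ r, x r ^ ((i : ℕ) + 1) : ℤ) : ZMod q)) =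
        ((∑ t ∈ T, ‖S t‖ ^ tri e : ℝ) : ℂ) := by
      rw [Complex.ofReal_sum]
      refine sum_congr rfl fun t _ => ?_
      rw [← norm_pow, c2 t, hS t, mv_pow, mul_sum]
      exact sum_congr rfl fun x _ => mul_assoc _ _ _
    rw [h3, Complex.norm_real, Real.norm_of_nonneg (by positivity)]
  have h3 := dls T (Fintype.piFinset (fun _ : Fin (tri e) => Icc (-(H : ℤ)) H)) γ
    (fun x i => ∑ r, x r ^ ((i : ℕ) + 1)) c (fun x => ∏ r, ρ (x r))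
    (fun i => tri e * H ^ ((i : ℕ) + 1)) (fun i => q / (6 * (tri e * H ^ ((i : ℕ) + 1))))
    (fun x hx i => by
      refine (abs_sum_le_sum_abs _ _).trans ?_
      have h4 : ∀ r, |x r ^ ((i : ℕ) + 1)| ≤ (H : ℤ) ^ ((i : ℕ) + 1) := fun r => by
        rw [abs_pow]
        exact pow_le_pow_left₀ (abs_nonneg _)
          (abs_le.2 (mem_Icc.1 (Fintype.mem_piFinset.1 hx r))) _
      refine (sum_le_sum fun r _ => h4 r).trans (le_of_eq ?_)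
      simp)
    (fun i => by
      rw [mul_right_comm]
      exact Nat.mul_div_le _ _)
    (fun i => by
      refine lt_of_le_of_lt ?_ hq
      rw [mul_assoc]
      exact Nat.mul_le_mul_left _ (Nat.mul_le_mul_left _ (Nat.pow_le_pow_right hH i.2)))
    (fun i => by
      have h4 := Nat.mul_div_le q (6 * (tri e * H ^ ((i : ℕ) + 1)))
      have h5 := hN i
      have h6 := NeZero.pos q
      generalize q / (6 * (tri e * H ^ ((i : ℕ) + 1))) = D at h4 ⊢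
      nlinarith)
  rw [← h2] at h3
  have h4 : ∏ i : Fin e, (q : ℝ) / (2 * ((q / (6 * (tri e * H ^ ((i : ℕ) + 1))) : ℕ) : ℝ) + 1) ≤
      (6 * tri e : ℝ) ^ e * (H : ℝ) ^ tri e := by
    refine (prod_le_prod (fun i _ => by positivity) fun i _ => mv_div (hN i)).trans (le_of_eq ?_)
    rw [← mv_prod, ← Fin.prod_const, ← prod_mul_distrib]
    refine prod_congr rfl fun i _ => ?_
    push_cast
    ring
  have h5 : (∑ t ∈ T, ∑ t' ∈ T, if ∀ i, Small (γ t i - γ t' i)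
      (2 * ((q / (6 * (tri e * H ^ ((i : ℕ) + 1))) : ℕ) : ℝ)) then ‖c t‖ * ‖c t'‖ else 0) ≤
      (#{z ∈ T ×ˢ T | Close H (γ z.1) (γ z.2)} : ℝ) := by
    rw [← sum_product', card_filter]
    push_cast
    refine sum_le_sum fun z _ => ?_
    split_ifs with a1 a2 a2
    · rw [c1, c1, one_mul]
    · refine absurd (fun i => (a1 i).mono ?_) a2
      rw [le_div_iff₀ (by positivity)]
      have h6 := Nat.mul_div_le q (6 * (tri e * H ^ ((i : ℕ) + 1)))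
      generalize q / (6 * (tri e * H ^ ((i : ℕ) + 1))) = D at h6 ⊢
      have h7 : 2 * D * H ^ ((i : ℕ) + 1) ≤ q := by
        refine le_trans ?_ h6
        generalize H ^ ((i : ℕ) + 1) = Y
        nlinarith [Nat.mul_le_mul_left (D * Y) hK]
      exact_mod_cast h7
    · exact zero_le_one
    · exact le_rfl
  have h6 : (∑ x ∈ Fintype.piFinset (fun _ : Fin (tri e) => Icc (-(H : ℤ)) H),
      ∑ x' ∈ Fintype.piFinset (fun _ : Fin (tri e) => Icc (-(H : ℤ)) H),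
        if (fun i : Fin e => ∑ r, x r ^ ((i : ℕ) + 1)) = (fun i : Fin e => ∑ r, x' r ^ ((i : ℕ) + 1))
          then ‖∏ r, ρ (x r)‖ * ‖∏ r, ρ (x' r)‖ else 0) ≤ (Jv e H : ℝ) := by
    have h7 : ∀ x : Fin (tri e) → ℤ, ‖∏ r, ρ (x r)‖ ≤ 1 := fun x => by
      rw [norm_prod]
      exact prod_le_one (fun r _ => norm_nonneg _) fun r _ => hρ _
    rw [← sum_product', Jv, Pairs, card_filter]
    push_cast
    refine sum_le_sum fun z _ => ?_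
    split_ifs with a1 a2 a2
    · exact mul_le_one₀ (h7 _) (norm_nonneg _) (h7 _)
    · exact absurd (fun i => congrFun a1 i) a2
    · exact zero_le_one
    · exact le_rfl
  have h7 : (∑ t ∈ T, ‖S t‖ ^ tri e) ^ 2 ≤ 4 ^ e * ((6 * tri e : ℝ) ^ e * (H : ℝ) ^ tri e) *
      (#{z ∈ T ×ˢ T | Close H (γ z.1) (γ z.2)} : ℝ) * (Jv e H : ℝ) := by
    refine h3.trans (mul_le_mul (mul_le_mul (mul_le_mul_of_nonneg_left h4 (by positivity)) ?_ ?_
      (by positivity)) ?_ ?_ (by positivity))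
    · convert h5
    · exact sum_nonneg fun _ _ => sum_nonneg fun _ _ => by split_ifs <;> positivity
    · convert h6
    · exact sum_nonneg fun _ _ => sum_nonneg fun _ _ => by split_ifs <;> positivity
  refine h7.trans (le_of_eq ?_)
  rw [show (24 * tri e : ℝ) = 4 * (6 * tri e) by ring, mul_pow 4]
  ring

open Classical in
theorem mu {e : ℕ} (he : 1 ≤ e) {ε : ℝ} (hε : 0 < ε) : ∃ A : ℝ, 0 < A ∧
    ∀ (q H : ℕ) [NeZero q], 1 ≤ H → 2 * tri e * H ^ e < q →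
      ∀ (τ : Type) (T : Finset τ) (γ : τ → Fin e → ZMod q) (lo hi : τ → ℤ),
        (∀ t ∈ T, -(H : ℤ) ≤ lo t ∧ hi t ≤ H) →
        (∑ t ∈ T, ‖∑ h ∈ Icc (lo t) (hi t),
            ch (∑ i, γ t i * (h : ZMod q) ^ ((i : ℕ) + 1))‖ ^ tri e) ^ 2 ≤
          A * (H : ℝ) ^ ε * (H : ℝ) ^ (2 * tri e) * #{z ∈ T ×ˢ T | Close H (γ z.1) (γ z.2)} := by
  have hK : 1 ≤ tri e := tri_pos he
  have hK0 : (0 : ℝ) < tri e := by exact_mod_cast hK
  obtain ⟨A, hA, h1⟩ := vmvt he (half_pos hε)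
  obtain ⟨c, hc, h2⟩ := mv_log (K := 2 * tri e) (by omega) (half_pos hε)
  refine ⟨c * (24 * tri e : ℝ) ^ e * A, by positivity, fun q H _ hH hq τ T γ lo hi hT => ?_⟩
  have hH0 : (0 : ℝ) < H := by exact_mod_cast hH
  obtain ⟨W, w0, w1, w2⟩ := complete_sum H
  obtain ⟨G, hG⟩ : ∃ G : ZMod (2 * H + 1) → τ → ℝ, ∀ r t, G r t = ‖∑ h ∈ Icc (-(H : ℤ)) H,
      ch (r * (h : ZMod (2 * H + 1))) * ch (∑ i, γ t i * (h : ZMod q) ^ ((i : ℕ) + 1))‖ :=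
    ⟨_, fun _ _ => rfl⟩
  have hG0 : ∀ r t, 0 ≤ G r t := fun r t => by rw [hG]; positivity
  set D : ℝ := ((#{z ∈ T ×ˢ T | Close H (γ z.1) (γ z.2)} : ℕ) : ℝ) with hD
  set B : ℝ := (24 * tri e : ℝ) ^ e * (H : ℝ) ^ tri e * Jv e H * D with hB
  have hB0 : 0 ≤ B := by positivity
  have h4 : ∀ r, ∑ t ∈ T, G r t ^ tri e ≤ √B := fun r => by
    simp only [hG]
    exact Real.le_sqrt_of_sq_le
      (mu0 he hH hq T γ (fun h => ch (r * (h : ZMod (2 * H + 1)))) fun h => (norm_ch _).le)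
  set L : ℝ := ∑ r, W r with hL
  have hL0 : 0 ≤ L := sum_nonneg fun r _ => w0 r
  have h3 : ∀ t ∈ T, ‖∑ h ∈ Icc (lo t) (hi t),
      ch (∑ i, γ t i * (h : ZMod q) ^ ((i : ℕ) + 1))‖ ^ tri e ≤
        L ^ (tri e - 1) * ∑ r, W r * G r t ^ tri e := by
    intro t ht
    have a1 := w2 _ _ (fun h => ch (∑ i, γ t i * (h : ZMod q) ^ ((i : ℕ) + 1)))
      (hT t ht).1 (hT t ht).2
    simp only [← hG] at a1
    refine (pow_le_pow_left₀ (norm_nonneg _) a1 _).trans ?_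
    rcases hL0.eq_or_lt with h0 | h0
    · have a2 : ∀ r, W r = 0 := fun r =>
        (sum_eq_zero_iff_of_nonneg fun r _ => w0 r).1 h0.symm r (mem_univ _)
      simp only [a2, zero_mul, sum_const_zero, mul_zero]
      rw [zero_pow (by omega)]
    · have a2 := Real.pow_arith_mean_le_arith_mean_pow univ (fun r => W r / L) (fun r => G r t)
        (fun r _ => div_nonneg (w0 r) hL0) (by rw [← sum_div, div_self h0.ne'])
        (fun r _ => hG0 r t) (tri e)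
      have a3 : ∑ r, W r * G r t = L * ∑ r, W r / L * G r t := by
        rw [mul_sum]
        refine sum_congr rfl fun r _ => ?_
        field_simp
      have a4 : ∑ r, W r * G r t ^ tri e = L * ∑ r, W r / L * G r t ^ tri e := by
        rw [mul_sum]
        refine sum_congr rfl fun r _ => ?_
        field_simp
      rw [a3, a4, mul_pow, ← mul_assoc, ← pow_succ, show tri e - 1 + 1 = tri e by omega]
      exact mul_le_mul_of_nonneg_left a2 (by positivity)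
  have h5 : ∑ r, ∑ t ∈ T, W r * G r t ^ tri e ≤ L * √B := by
    rw [hL, sum_mul]
    refine sum_le_sum fun r _ => ?_
    rw [← mul_sum]
    exact mul_le_mul_of_nonneg_left (h4 r) (w0 r)
  have h9 := sum_le_sum h3
  rw [← mul_sum, sum_comm] at h9
  have h6 : (H : ℝ) ^ ε = (H : ℝ) ^ (ε / 2) * (H : ℝ) ^ (ε / 2) := by
    rw [← Real.rpow_add hH0, add_halves]
  have h7 := h1 H hH
  have h8 : L ^ (2 * tri e) ≤ c * (H : ℝ) ^ (ε / 2) :=
    (pow_le_pow_left₀ hL0 w1 _).trans (h2 H hH)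
  calc _ ≤ (L ^ (tri e - 1) * (L * √B)) ^ 2 := pow_le_pow_left₀ (by positivity)
        (h9.trans (mul_le_mul_of_nonneg_left h5 (by positivity))) 2
    _ = L ^ (2 * tri e) * B := by
        rw [← mul_assoc, ← pow_succ, show tri e - 1 + 1 = tri e by omega, mul_pow, ← pow_mul,
          Real.sq_sqrt hB0, mul_comm (tri e)]
    _ ≤ c * (H : ℝ) ^ (ε / 2) * ((24 * tri e : ℝ) ^ e * (H : ℝ) ^ tri e *
        (A * (H : ℝ) ^ (ε / 2) * (H : ℝ) ^ tri e) * D) := by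
        rw [hB]
        gcongr
    _ = _ := by
      rw [h6, two_mul (tri e), pow_add]
      ring


theorem frac_zero {q d : ℕ} [NeZero q] (hd : d ∣ q) (n : ℤ) :
    ((q / d : ℕ) : ZMod q) * (n : ZMod q) = 0 ↔ (d : ℤ) ∣ n := by
  obtain ⟨c, hc⟩ := hd
  have hq : q ≠ 0 := NeZero.ne q
  have hd0 : d ≠ 0 := fun h => hq (by rw [hc, h, zero_mul])
  have hc0 : (c : ℤ) ≠ 0 := fun h => hq (by rw [hc, show c = 0 by exact_mod_cast h, mul_zero])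
  have h1 : q / d = c := by rw [hc]; exact Nat.mul_div_cancel_left c (Nat.pos_of_ne_zero hd0)
  have h2 : (q : ℤ) = c * d := by rw [hc]; push_cast; ring
  rw [h1, ← Int.cast_natCast (R := ZMod q) c, ← Int.cast_mul, ZMod.intCast_zmod_eq_zero_iff_dvd,
    h2, mul_dvd_mul_iff_left hc0]

theorem int_eq_of_small {q : ℕ} {u v : ℤ} (h : (u : ZMod q) = v) (hs : |(u : ℝ)| + |(v : ℝ)| < q) :
    u = v := by
  have h1 := (ZMod.intCast_eq_intCast_iff_dvd_sub _ _ _).1 h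
  have h2 : |v - u| < (q : ℤ) := by
    have : |(v : ℝ) - u| < q := lt_of_le_of_lt (abs_sub _ _) (by linarith)
    exact_mod_cast this
  have := Int.eq_zero_of_abs_lt_dvd h1 h2
  omega

/-- `a / q` is `b / d + β / q` in lowest terms -/
def Rp {q : ℕ} (a : ZMod q) (d b : ℕ) (β : ℤ) : Prop :=
  1 ≤ d ∧ d ∣ q ∧ Nat.Coprime d b ∧ a - (β : ZMod q) = ((q / d : ℕ) : ZMod q) * (b : ZMod q)

theorem Rp.dvd_iff {q : ℕ} [NeZero q] {a : ZMod q} {d b : ℕ} {β : ℤ} (h : Rp a d b β) (n : ℤ) :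
    (n : ZMod q) * (a - β) = 0 ↔ (d : ℤ) ∣ n := by
  obtain ⟨-, h2, h3, h4⟩ := h
  rw [h4, show (n : ZMod q) * (((q / d : ℕ) : ZMod q) * (b : ZMod q)) =
    ((q / d : ℕ) : ZMod q) * ((n * b : ℤ) : ZMod q) by push_cast; ring, frac_zero h2]
  exact ⟨fun h => (Nat.isCoprime_iff_coprime.2 h3).dvd_of_dvd_mul_right h,
    fun h => h.mul_right _⟩

theorem Rp.small {q : ℕ} [NeZero q] {a : ZMod q} {d b : ℕ} {β : ℤ} (h : Rp a d b β) {n : ℤ} {ρ : ℝ}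
    (hs : Small ((n : ZMod q) * a) ρ) (hq : d * (|(n : ℝ) * β| + ρ) < q) :
    (d : ℤ) ∣ n ∧ |(n : ℝ) * β| ≤ ρ := by
  obtain ⟨e, e1, e2⟩ := hs
  have hd : (0 : ℝ) < d := by exact_mod_cast h.1
  have h1 := (h.dvd_iff d).2 dvd_rfl
  have h2 : (d : ℤ) * (n * β) = d * e := by
    refine int_eq_of_small (q := q) ?_ ?_
    · push_cast at h1 ⊢
      rw [e2]
      linear_combination -(n : ZMod q) * h1
    · push_cast
      rw [abs_mul, abs_mul (d : ℝ) e, Nat.abs_cast]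
      nlinarith
  have h3 : n * β = e := mul_left_cancel₀ (by exact_mod_cast hd.ne') h2
  refine ⟨(h.dvd_iff n).1 ?_, by rw [← h3] at e1; exact_mod_cast e1⟩
  rw [mul_sub, ← e2, ← h3]
  push_cast
  ring

theorem rp_exists {P q : ℕ} [NeZero q] {Q : ℝ} (hQ : ∀ d : ℕ, 1 ≤ d → (d : ℝ) ≤ Q → d ∣ q)
    {a : ZMod q} (h : Maj 3 P Q a) : ∃ (d b : ℕ) (β : ℤ), Rp a d b β ∧ (d : ℝ) ≤ Q ∧
      d * |(β : ℝ)| ≤ Q * (q / (P : ℝ) ^ 3) := by
  obtain ⟨w, w1, w2, w3⟩ := h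
  have hw : (0 : ℝ) < w := by exact_mod_cast w1
  have hd := hQ w w1 w2
  obtain ⟨β, n, b1, -, b3⟩ := small_div (D := Q * (q / (P : ℝ) ^ 3) / w) w1 hd
    (w3.mono (le_of_eq (by field_simp)))
  have hg : 0 < Nat.gcd w n := Nat.gcd_pos_of_pos_left _ w1
  have hc := Nat.coprime_div_gcd_div_gcd hg
  obtain ⟨d, hd1⟩ := Nat.gcd_dvd_left w n
  obtain ⟨b, hb1⟩ := Nat.gcd_dvd_right w n
  generalize Nat.gcd w n = g at *
  subst hd1 hb1
  rw [Nat.mul_div_cancel_left _ hg, Nat.mul_div_cancel_left _ hg] at hc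
  have hd0 : 0 < d := Nat.pos_of_mul_pos_left w1
  have hdw : (d : ℝ) ≤ (g * d : ℕ) := by exact_mod_cast Nat.le_mul_of_pos_left d hg
  refine ⟨d, b, β, ⟨hd0, (Dvd.intro_left _ rfl).trans hd, hc, ?_⟩, hdw.trans w2, ?_⟩
  · obtain ⟨c, rfl⟩ := hd
    rw [b3, Nat.mul_div_cancel_left _ w1, show g * d * c / d = c * g by
      rw [show g * d * c = d * (c * g) by ring, Nat.mul_div_cancel_left _ hd0]]
    push_cast
    ring
  · rw [le_div_iff₀ hw] at b1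
    refine le_trans ?_ b1
    rw [mul_comm]
    gcongr

/-- the relation between the two ends of a close pair -/
def Rel {q : ℕ} (D : ℝ) (d : ZMod q → ℕ) (β : ZMod q → ℤ) (a : ZMod q) (μ : ℕ × ℕ)
    (a' : ZMod q) : Prop :=
  ¬ μ.1 ∣ d a ∧ ¬ μ.2 ∣ d a' ∧ (μ.1 : ZMod q) ^ 3 * (a - β a) = (μ.2 : ZMod q) ^ 3 * (a' - β a') ∧
    |(β a : ℝ) * (μ.1 : ℝ) ^ 3 - (β a' : ℝ) * (μ.2 : ℝ) ^ 3| ≤ D

theorem Rel.symm {q : ℕ} {D : ℝ} {d : ZMod q → ℕ} {β : ZMod q → ℤ} {a a' : ZMod q} {μ : ℕ × ℕ}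
    (h : Rel D d β a μ a') : Rel D d β a' μ.swap a :=
  ⟨h.2.1, h.1, h.2.2.1.symm, by rw [abs_sub_comm]; exact h.2.2.2⟩

theorem cop_cube {m d : ℕ} (hp : m.Prime) (h : ¬ m ∣ d) : IsCoprime (d : ℤ) ((m : ℤ) ^ 3) :=
  (Nat.isCoprime_iff_coprime.2 ((hp.coprime_iff_not_dvd.2 h).symm)).pow_right

theorem Rel.dvd {q : ℕ} [NeZero q] {D : ℝ} {d b : ZMod q → ℕ} {β : ZMod q → ℤ} {a a' : ZMod q}
    {μ : ℕ × ℕ} (h : Rel D d β a μ a') (hp : μ.1.Prime) (ha : Rp a (d a) (b a) (β a))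
    (ha' : Rp a' (d a') (b a') (β a')) : d a ∣ d a' := by
  have h1 := (ha'.dvd_iff (d a')).2 dvd_rfl
  have h2 : (d a : ℤ) ∣ d a' * (μ.1 : ℤ) ^ 3 := by
    refine (ha.dvd_iff _).1 ?_
    push_cast at h1 ⊢
    linear_combination (d a' : ZMod q) * h.2.2.1 + (μ.2 : ZMod q) ^ 3 * h1
  exact_mod_cast (cop_cube hp h.1).dvd_of_dvd_mul_right h2

theorem Rel.eq {q : ℕ} [NeZero q] {D : ℝ} {d b : ZMod q → ℕ} {β : ZMod q → ℤ} {a a' : ZMod q}
    {μ : ℕ × ℕ} (h : Rel D d β a μ a') (hp : μ.1.Prime) (hp' : μ.2.Prime)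
    (ha : Rp a (d a) (b a) (β a)) (ha' : Rp a' (d a') (b a') (β a')) : d a = d a' :=
  Nat.dvd_antisymm (h.dvd hp ha ha') (h.symm.dvd hp' ha' ha)

theorem close_div {P M m x m' x' q : ℕ} [NeZero q] (hM : 1 ≤ M) (hMP : M ≤ P) (hp : m.Prime)
    (hm : M ≤ m) (hm4 : m ≤ 4 * M) (hm' : m' ≤ 4 * M) (hx : x ≤ P) (hx' : x' ≤ P)
    (hc : Nat.Coprime x m) (hH : 216 * M ^ 2 < P / M) {Q : ℝ} (hQ : 768 * Q * M ^ 2 < (P : ℝ) ^ 2)
    {a a' : ZMod q} {d b : ℕ} {β : ℤ} (ha : Rp a d b β) (h1 : (d : ℝ) ≤ 2 * Q)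
    (h2 : d * |(β : ℝ)| ≤ 2 * Q * (q / (P : ℝ) ^ 3)) (hmd : ¬ m ∣ d)
    (h : Close (P / M) (gam 3 a m x) (gam 3 a' m' x')) :
    (d : ℤ) ∣ 6 * ((m' : ℤ) * x - (x' : ℤ) * m) ∧
      |(6 * ((m' : ℝ) * x - (x' : ℝ) * m)) * β| * m ≤ 288 * q * (M : ℝ) ^ 2 / (P : ℝ) ^ 2 := by
  have hP : (0 : ℝ) < P := by exact_mod_cast (by omega : 0 < P)
  have hq : (0 : ℝ) < q := by exact_mod_cast NeZero.pos q
  have h3 := close_off1 (k := 3) (by norm_num) hM hMP hm hm4 hm' hx hx' hc hH h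
  have e1 : (m' : ℝ) * x ≤ 4 * M * P := by exact_mod_cast Nat.mul_le_mul hm' hx
  have e2 : (x' : ℝ) * m ≤ 4 * M * P := by
    have := Nat.mul_le_mul hm4 hx'
    rw [mul_comm m x'] at this
    exact_mod_cast this
  have e3 : (0 : ℝ) ≤ (m' : ℝ) * x := by positivity
  have e4 : (0 : ℝ) ≤ (x' : ℝ) * m := by positivity
  have e5 : |(m' : ℝ) * x - (x' : ℝ) * m| ≤ 4 * M * P := abs_le.2 ⟨by linarith, by linarith⟩
  have e6 : (m : ℝ) ≤ 4 * M := by exact_mod_cast hm4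
  have hQ0 : 0 ≤ Q := by
    have : (0 : ℝ) ≤ d := Nat.cast_nonneg d
    linarith
  have h4 := ha.small (n := 6 * ((m' : ℤ) * x - (x' : ℤ) * m) * m)
    (ρ := 288 * q * (M : ℝ) ^ 2 / (P : ℝ) ^ 2) (by
      convert h3 using 1
      · push_cast [Nat.factorial]
        ring
      · push_cast [Nat.factorial]
        ring) (by
      push_cast
      rw [mul_add, abs_mul, abs_mul, abs_mul, Nat.abs_cast, Nat.abs_ofNat]
      have f1 : d * (6 * |(m' : ℝ) * x - (x' : ℝ) * m| * m * |(β : ℝ)|) ≤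
          6 * (4 * M * P) * (4 * M) * (2 * Q * (q / (P : ℝ) ^ 3)) := by
        rw [mul_left_comm]
        gcongr
      have f2 : d * (288 * q * (M : ℝ) ^ 2 / (P : ℝ) ^ 2) ≤
          2 * Q * (288 * q * (M : ℝ) ^ 2 / (P : ℝ) ^ 2) := by gcongr
      refine lt_of_le_of_lt (add_le_add f1 f2) ?_
      have f3 : 6 * (4 * M * P) * (4 * M) * (2 * Q * (q / (P : ℝ) ^ 3)) +
          2 * Q * (288 * q * (M : ℝ) ^ 2 / (P : ℝ) ^ 2) = 768 * Q * M ^ 2 / (P : ℝ) ^ 2 * q := by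
        field_simp
        ring
      rw [f3]
      exact mul_lt_of_lt_one_left hq ((div_lt_one (by positivity)).2 hQ))
  refine ⟨(Nat.isCoprime_iff_coprime.2 ((hp.coprime_iff_not_dvd.2 hmd).symm)).dvd_of_dvd_mul_right
    h4.1, le_of_eq_of_le ?_ h4.2⟩
  push_cast
  rw [mul_right_comm _ (m : ℝ), abs_mul _ (m : ℝ), Nat.abs_cast]


theorem close_rel {P M m x m' x' q : ℕ} [NeZero q] (hM : 1 ≤ M) (hMP : M ≤ P)
    (hm4 : m ≤ 4 * M) (hm4' : m' ≤ 4 * M) (hx : x ≤ P) (hx' : x' ≤ P)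
    (hM4 : 9408 * (M : ℝ) ^ 4 < (P : ℝ) ^ 2) {d b : ZMod q → ℕ} {β : ZMod q → ℤ} {a a' : ZMod q}
    (ha : Rp a (d a) (b a) (β a)) (ha' : Rp a' (d a') (b a') (β a'))
    (hmd : ¬ m ∣ d a) (hmd' : ¬ m' ∣ d a') (h0 : (m' : ℤ) * x - (x' : ℤ) * m ≠ 0)
    (h1 : (d a : ℤ) ∣ 6 * ((m' : ℤ) * x - (x' : ℤ) * m))
    (h2 : |(6 * ((m' : ℝ) * x - (x' : ℝ) * m)) * β a| * m ≤ 288 * q * (M : ℝ) ^ 2 / (P : ℝ) ^ 2)
    (h1' : (d a' : ℤ) ∣ 6 * ((m : ℤ) * x' - (x : ℤ) * m'))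
    (h2' : |(6 * ((m : ℝ) * x' - (x : ℝ) * m')) * β a'| * m' ≤ 288 * q * (M : ℝ) ^ 2 / (P : ℝ) ^ 2)
    (h : Close (P / M) (gam 3 a m x) (gam 3 a' m' x')) :
    Rel (8 * (q / (P : ℝ) ^ 3) * M ^ 3) d β a (m, m') a' := by
  have hP : (0 : ℝ) < P := by exact_mod_cast (by omega : 0 < P)
  have hq : (0 : ℝ) < q := by exact_mod_cast NeZero.pos q
  have hM' : (0 : ℝ) < M := by exact_mod_cast hM
  obtain ⟨hH1, hH2⟩ := geom_H hM hMP
  obtain ⟨e, e1, e2⟩ := h 2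
  have e3 : |(e : ℝ)| ≤ 8 * (q / (P : ℝ) ^ 3) * M ^ 3 := by
    refine e1.trans ?_
    have f1 : (P : ℝ) ^ 3 ≤ (2 * (P / M : ℕ) * M) ^ 3 := by gcongr
    rw [show ((2 : Fin 3) : ℕ) + 1 = 3 from rfl, div_le_iff₀ (by positivity)]
    calc (q : ℝ) = q / (P : ℝ) ^ 3 * (P : ℝ) ^ 3 := by field_simp
      _ ≤ q / (P : ℝ) ^ 3 * (2 * (P / M : ℕ) * M) ^ 3 := by gcongr
      _ = _ := by ring
  have e4 : (e : ZMod q) = a * (m : ZMod q) ^ 3 - a' * (m' : ZMod q) ^ 3 := by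
    rw [e2]
    simp [gam]
  have g1 : (m' : ℝ) * x ≤ 4 * M * P := by exact_mod_cast Nat.mul_le_mul hm4' hx
  have g2 : (x' : ℝ) * m ≤ 4 * M * P := by
    have := Nat.mul_le_mul hm4 hx'
    rw [mul_comm m x'] at this
    exact_mod_cast this
  have g3 : (0 : ℝ) ≤ (m' : ℝ) * x := by positivity
  have g4 : (0 : ℝ) ≤ (x' : ℝ) * m := by positivity
  have g5 : |(m' : ℝ) * x - (x' : ℝ) * m| ≤ 4 * M * P := abs_le.2 ⟨by linarith, by linarith⟩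
  have g6 : (m : ℝ) ≤ 4 * M := by exact_mod_cast hm4
  have g7 : (m' : ℝ) ≤ 4 * M := by exact_mod_cast hm4'
  have k1 := (ha.dvd_iff _).2 h1
  have k2 := (ha'.dvd_iff _).2 h1'
  have key : 6 * ((m' : ℤ) * x - (x' : ℤ) * m) * e = 6 * ((m' : ℤ) * x - (x' : ℤ) * m) *
      (β a * (m : ℤ) ^ 3 - β a' * (m' : ℤ) ^ 3) := by
    refine int_eq_of_small (q := q) ?_ ?_
    · push_cast at k1 k2 ⊢
      rw [e4]
      linear_combination (m : ZMod q) ^ 3 * k1 + (m' : ZMod q) ^ 3 * k2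
    · push_cast
      have f1 : |6 * ((m' : ℝ) * x - (x' : ℝ) * m) * e| ≤
          6 * (4 * M * P) * (8 * (q / (P : ℝ) ^ 3) * M ^ 3) := by
        rw [abs_mul, abs_mul, Nat.abs_ofNat]
        gcongr
      have f2 : |6 * ((m' : ℝ) * x - (x' : ℝ) * m) * (β a * (m : ℝ) ^ 3)| ≤
          288 * q * (M : ℝ) ^ 2 / (P : ℝ) ^ 2 * (4 * M) ^ 2 := by
        rw [← mul_assoc, abs_mul _ ((m : ℝ) ^ 3), abs_of_nonneg (by positivity : 0 ≤ (m : ℝ) ^ 3),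
          pow_succ' (m : ℝ) 2, ← mul_assoc]
        gcongr
      have f3 : |6 * ((m' : ℝ) * x - (x' : ℝ) * m) * (β a' * (m' : ℝ) ^ 3)| ≤
          288 * q * (M : ℝ) ^ 2 / (P : ℝ) ^ 2 * (4 * M) ^ 2 := by
        rw [← abs_neg, show -(6 * ((m' : ℝ) * x - (x' : ℝ) * m) * (β a' * (m' : ℝ) ^ 3)) =
          6 * ((m : ℝ) * x' - (x : ℝ) * m') * β a' * (m' : ℝ) ^ 3 by ring,
          abs_mul _ ((m' : ℝ) ^ 3), abs_of_nonneg (by positivity : 0 ≤ (m' : ℝ) ^ 3),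
          pow_succ' (m' : ℝ) 2, ← mul_assoc]
        gcongr
      rw [mul_sub _ (β a * (m : ℝ) ^ 3)]
      refine lt_of_le_of_lt (add_le_add f1 ((abs_sub _ _).trans (add_le_add f2 f3))) ?_
      have f4 : 6 * (4 * M * P) * (8 * (q / (P : ℝ) ^ 3) * M ^ 3) +
          (288 * q * (M : ℝ) ^ 2 / (P : ℝ) ^ 2 * (4 * M) ^ 2 +
            288 * q * (M : ℝ) ^ 2 / (P : ℝ) ^ 2 * (4 * M) ^ 2) =
          9408 * (M : ℝ) ^ 4 / (P : ℝ) ^ 2 * q := by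
        field_simp
        ring
      rw [f4]
      exact mul_lt_of_lt_one_left hq ((div_lt_one (by positivity)).2 hM4)
  have key2 := mul_left_cancel₀ (mul_ne_zero (by norm_num) h0) key
  refine ⟨hmd, hmd', ?_, ?_⟩
  · rw [key2] at e4
    push_cast at e4
    simp only
    linear_combination -e4
  · rw [key2] at e3
    exact_mod_cast e3

theorem nz_card {G : ℝ} (hG : 0 ≤ G) :
    (#((Icc (-(⌊G⌋₊ : ℤ)) (⌊G⌋₊ : ℤ)).erase 0) : ℝ) ≤ 2 * G := by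
  rw [card_erase_of_mem (by simp), Int.card_Icc,
    show ((⌊G⌋₊ : ℤ) + 1 - -(⌊G⌋₊ : ℤ)).toNat - 1 = 2 * ⌊G⌋₊ by omega]
  push_cast
  linarith [Nat.floor_le hG]

theorem nz_mem {G : ℝ} {g : ℤ} (h0 : g ≠ 0) (h : |(g : ℝ)| ≤ G) :
    g ∈ (Icc (-(⌊G⌋₊ : ℤ)) (⌊G⌋₊ : ℤ)).erase 0 := by
  have h1 : g.natAbs ≤ ⌊G⌋₊ := Nat.le_floor (by rw [Nat.cast_natAbs, Int.cast_abs]; exact h)
  rw [mem_erase, mem_Icc]
  omega

theorem pair_card {P M m m' d : ℕ} (hM : 1 ≤ M) (hMP : M ≤ P) (hp : m.Prime) (hp' : m'.Prime)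
    (hm : M ≤ m) (hmd : ¬ m ∣ d) {G : ℝ} (hG : 0 ≤ G) (X : Finset (ℕ × ℕ))
    (hX : ∀ z ∈ X, z.1 ≤ P ∧ ∃ g : ℤ, g ≠ 0 ∧ |(g : ℝ)| ≤ G ∧
      6 * ((m' : ℤ) * z.1 - (z.2 : ℤ) * m) = d * g) : (#X : ℝ) ≤ 4 * G * P / M := by
  have hM' : (1 : ℝ) ≤ M := by exact_mod_cast hM
  have hMP' : (M : ℝ) ≤ P := by exact_mod_cast hMP
  have hm' : (M : ℝ) ≤ m := by exact_mod_cast hm
  have hm0 : (m : ℤ) ≠ 0 := by exact_mod_cast hp.ne_zero
  choose! h1 g g1 g2 g3 using hX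
  rcases eq_or_ne m' m with rfl | hne
  · have h2 : ∀ z ∈ X, ∃ g' : ℤ, g z = m' * g' := fun z hz =>
      (Nat.isCoprime_iff_coprime.2 (hp.coprime_iff_not_dvd.2 hmd)).dvd_of_dvd_mul_left
        ⟨6 * ((z.1 : ℤ) - z.2), by linear_combination -g3 z hz⟩
    choose! g' g4 using h2
    have h3 : #X ≤ #((Icc (-(⌊G / M⌋₊ : ℤ)) (⌊G / M⌋₊ : ℤ)).erase 0 ×ˢ range (P + 1)) := by
      refine card_le_card_of_injOn (fun z => (g' z, z.1)) (fun z hz => ?_) fun z hz w hw h => ?_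
      · refine mem_coe.2 (mem_product.2 ⟨nz_mem (fun h0 => g1 z hz ?_) ?_,
          mem_range.2 (Nat.lt_succ_of_le (h1 z hz))⟩)
        · simp only at h0
          rw [g4 z hz, h0, mul_zero]
        · have f1 := g2 z hz
          rw [g4 z hz, Int.cast_mul, abs_mul, Int.cast_natCast, Nat.abs_cast] at f1
          rw [le_div_iff₀ (by linarith)]
          nlinarith [abs_nonneg (g' z : ℝ)]
      · obtain ⟨e1, e2⟩ := Prod.mk.inj h
        have f1 := g3 z hz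
        have f2 := g3 w hw
        rw [g4 z hz, e1, e2] at f1
        rw [g4 w hw] at f2
        have f3 : (z.2 : ℤ) * m' = w.2 * m' := by linarith
        exact Prod.ext e2 (by exact_mod_cast mul_right_cancel₀ hm0 f3)
    rw [card_product, card_range] at h3
    have h4 := nz_card (G := G / M) (by positivity)
    calc (#X : ℝ) ≤ (#((Icc (-(⌊G / M⌋₊ : ℤ)) (⌊G / M⌋₊ : ℤ)).erase 0) : ℝ) * (P + 1) := by
          exact_mod_cast h3
      _ ≤ 2 * (G / M) * (2 * P) := by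
          gcongr
          linarith
      _ = _ := by ring
  · have h3 : #X ≤ #((Icc (-(⌊G⌋₊ : ℤ)) (⌊G⌋₊ : ℤ)).erase 0 ×ˢ range (P / M + 1)) := by
      refine card_le_card_of_injOn (fun z => (g z, z.1 / m)) (fun z hz => ?_) fun z hz w hw h => ?_
      · exact mem_coe.2 (mem_product.2 ⟨nz_mem (g1 z hz) (g2 z hz),
          mem_range.2 (Nat.lt_succ_of_le (Nat.div_le_div (h1 z hz) hm (by omega)))⟩)
      · obtain ⟨e1, e2⟩ := Prod.mk.inj h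
        have f1 := g3 z hz
        have f2 := g3 w hw
        rw [e1] at f1
        have f3 := deg_pair (m := m) (x := m') (m' := z.1) (x' := z.2) (m'' := w.1) (x'' := w.2)
          hp.pos ((Nat.coprime_primes hp' hp).2 hne) (by linarith) e2
        exact Prod.ext f3.1 f3.2
    rw [card_product, card_range] at h3
    have h4 := nz_card hG
    have h5 : ((P / M : ℕ) : ℝ) ≤ P / M := Nat.cast_div_le
    have h6 : (1 : ℝ) ≤ P / M := (one_le_div (by linarith)).2 hMP'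
    calc (#X : ℝ) ≤ (#((Icc (-(⌊G⌋₊ : ℤ)) (⌊G⌋₊ : ℤ)).erase 0) : ℝ) * ((P / M : ℕ) + 1) := by
          exact_mod_cast h3
      _ ≤ 2 * G * (2 * (P / M)) := by
          gcongr
          linarith
      _ = _ := by ring

theorem energy_split {α : Type} (S : Finset α) (K : α → α → ℝ) (h0 : ∀ a b, 0 ≤ K a b)
    (hs : ∀ a b, K a b = K b a) {t : ℝ} (ht : 0 < t) :
    ∑ a ∈ S, ∑ b ∈ S, K a b ≤ 2 * t * #S +
      (∑ a0 ∈ S, ∑ a3 ∈ S, ∑ z ∈ S ×ˢ S, K a0 z.1 * K z.1 z.2 * K z.2 a3) / t ^ 2 := by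
  classical
  obtain ⟨r, hr⟩ : ∃ r : α → ℝ, ∀ a, r a = ∑ b ∈ S, K a b := ⟨_, fun _ => rfl⟩
  have r0 : ∀ a, 0 ≤ r a := fun a => by rw [hr]; exact sum_nonneg fun b _ => h0 a b
  have h1 : ∀ a b, K a b ≤ (if r a ≤ t then K a b else 0) + (if r b ≤ t then K b a else 0) +
      r a * K a b * r b / t ^ 2 := by
    intro a b
    have f1 : 0 ≤ r a * K a b * r b / t ^ 2 := by
      have := r0 a
      have := r0 b
      have := h0 a b
      positivity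
    have f2 := h0 a b
    rw [hs b a]
    split_ifs with c1 c2 c2
    · linarith
    · linarith
    · linarith
    · rw [zero_add, zero_add, le_div_iff₀ (by positivity)]
      have := (not_le.1 c1).le
      have := (not_le.1 c2).le
      have := r0 a
      calc K a b * t ^ 2 = t * K a b * t := by ring
        _ ≤ _ := by gcongr
  have h2 : ∑ a ∈ S, ∑ b ∈ S, (if r a ≤ t then K a b else 0) ≤ t * #S := by
    rw [mul_comm, ← nsmul_eq_mul]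
    refine sum_le_card_nsmul _ _ _ fun a _ => ?_
    split_ifs with c
    · rwa [← hr]
    · simpa using ht.le
  have h3 : ∑ a ∈ S, ∑ b ∈ S, r a * K a b * r b =
      ∑ a0 ∈ S, ∑ a3 ∈ S, ∑ z ∈ S ×ˢ S, K a0 z.1 * K z.1 z.2 * K z.2 a3 := by
    rw [← sum_product', ← sum_product', sum_comm]
    refine sum_congr rfl fun z _ => ?_
    rw [hr, hr, sum_product, sum_mul, sum_mul]
    refine sum_congr rfl fun a _ => ?_
    rw [mul_sum, hs z.1 a]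
  refine (sum_le_sum fun a _ => sum_le_sum fun b _ => h1 a b).trans ?_
  simp only [sum_add_distrib, ← sum_div]
  rw [h3, sum_comm (f := fun a b => if r b ≤ t then K b a else 0)]
  linarith

open Classical in
theorem energy_path {α Λ : Type} (S : Finset α) (L : Finset Λ) (R : α → Λ → α → Prop) {c : ℝ}
    (hc : 0 ≤ c) (h1 : ∀ a ∈ S, ∀ μ ∈ L, (#{a' ∈ S | R a μ a'} : ℝ) ≤ c) {a0 : α} (ha : a0 ∈ S)
    (a3 : α) : ∑ z ∈ S ×ˢ S, (#{μ ∈ L | R a0 μ z.1} : ℝ) * #{μ ∈ L | R z.1 μ z.2} *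
        #{μ ∈ L | R z.2 μ a3} ≤
      c ^ 2 * #{μ ∈ L ×ˢ L ×ˢ L | ∃ a1 ∈ S, ∃ a2 ∈ S, R a0 μ.1 a1 ∧ R a1 μ.2.1 a2 ∧ R a2 μ.2.2 a3} := by
  have h2 : ∀ z : α × α, (#{μ ∈ L | R a0 μ z.1} : ℝ) * #{μ ∈ L | R z.1 μ z.2} *
      #{μ ∈ L | R z.2 μ a3} = ∑ μ ∈ L ×ˢ L ×ˢ L,
        if R a0 μ.1 z.1 ∧ R z.1 μ.2.1 z.2 ∧ R z.2 μ.2.2 a3 then (1 : ℝ) else 0 := by
    intro z
    rw [sum_boole, mul_assoc, ← Nat.cast_mul, ← Nat.cast_mul, ← card_product, ← card_product,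
      ← filter_product, ← filter_product]
  simp only [h2]
  rw [sum_comm, card_filter, Nat.cast_sum, mul_sum]
  refine sum_le_sum fun μ hμ => ?_
  obtain ⟨m1, m2⟩ := mem_product.1 hμ
  split_ifs with e
  · rw [Nat.cast_one, mul_one, sum_product]
    calc _ ≤ ∑ a1 ∈ S, if R a0 μ.1 a1 then c else 0 := by
          refine sum_le_sum fun a1 h => ?_
          split_ifs with e1
          · refine le_trans ?_ (h1 a1 h _ (mem_product.1 m2).1)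
            rw [← sum_boole]
            refine sum_le_sum fun a2 _ => ?_
            split_ifs with e2 e3 e3
            · exact le_rfl
            · exact absurd e2.2.1 e3
            · exact zero_le_one
            · exact le_rfl
          · simp [e1]
      _ ≤ _ := by
          rw [← sum_filter, sum_const, nsmul_eq_mul, sq]
          exact mul_le_mul_of_nonneg_right (h1 a0 ha _ m1) hc
  · rw [Nat.cast_zero, mul_zero]
    refine le_of_eq (sum_eq_zero fun z hz => if_neg fun h => e ?_)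
    exact ⟨z.1, (mem_product.1 hz).1, z.2, (mem_product.1 hz).2, h⟩

theorem amgm_card {ι κ : Type} [Fintype κ] [DecidableEq κ] (s : Finset ι) (f g : ι → κ) :
    2 * #{z ∈ s ×ˢ s | f z.1 = g z.2} ≤
      #{z ∈ s ×ˢ s | f z.1 = f z.2} + #{z ∈ s ×ˢ s | g z.1 = g z.2} := by
  have h1 : ∀ f g : ι → κ, #{z ∈ s ×ˢ s | f z.1 = g z.2} =
      ∑ r, #{x ∈ s | f x = r} * #{x ∈ s | g x = r} := by
    intro f g
    rw [card_eq_sum_card_fiberwise (f := fun z : ι × ι => f z.1) (t := univ)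
      fun _ _ => mem_coe.2 (mem_univ _)]
    refine sum_congr rfl fun r _ => ?_
    rw [← card_product, ← filter_product, filter_filter]
    refine congrArg card (filter_congr fun z _ => ?_)
    constructor
    · rintro ⟨a, b⟩
      exact ⟨b, a.symm.trans b⟩
    · rintro ⟨a, b⟩
      exact ⟨a.trans b.symm, a⟩
  rw [h1, h1, h1, mul_sum, ← sum_add_distrib]
  refine sum_le_sum fun r _ => ?_
  generalize #{x ∈ s | f x = r} = u
  generalize #{x ∈ s | g x = r} = v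
  nlinarith [two_mul_le_add_sq (u : ℤ) v]


/-- the number of pairs with congruent cubes -/
def rho (P d : ℕ) : ℕ := #((range (P + 1) ×ˢ range (P + 1)).filter fun z : ℕ × ℕ =>
  (d : ℤ) ∣ (z.1 : ℤ) ^ 3 - (z.2 : ℤ) ^ 3)

/-- a layer of points of height about `Q` with a good denominator -/
def Lay (P : ℕ) {q : ℕ} [NeZero q] (V Q : ℝ) (S : Finset (ZMod q)) (d b : ZMod q → ℕ)
    (β : ZMod q → ℤ) : Prop :=
  ∀ a ∈ S, Rp a (d a) (b a) (β a) ∧ V ≤ ‖fw 3 P a‖ ∧ (d a : ℝ) ≤ 2 * Q ∧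
    d a * |(β a : ℝ)| ≤ 2 * Q * (q / (P : ℝ) ^ 3) ∧
    (Q ≤ d a ∨ Q * (q / (P : ℝ) ^ 3) ≤ d a * |(β a : ℝ)|) ∧ rho P (d a) ≤ 4 * P

open Classical in
theorem rel_fib {q M : ℕ} [NeZero q] {u : ℝ} (hu : 1 ≤ u) {d b : ZMod q → ℕ} {β : ZMod q → ℤ}
    (S : Finset (ZMod q)) (hS : ∀ a ∈ S, Rp a (d a) (b a) (β a)) {a : ZMod q} (ha : a ∈ S)
    {μ : ℕ × ℕ} (hp : μ.1.Prime) (hp' : μ.2.Prime) (hM : M ≤ μ.2) :
    (#{a' ∈ S | Rel (8 * u * M ^ 3) d β a μ a'} : ℝ) ≤ 33 * u := by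
  rcases ({a' ∈ S | Rel (8 * u * M ^ 3) d β a μ a'}).eq_empty_or_nonempty with h | ⟨a1, h⟩
  · rw [h, card_empty, Nat.cast_zero]
    positivity
  obtain ⟨h1, h2⟩ := mem_filter.1 h
  have h3 := small_card a1 (D := 16 * u) (by positivity)
  refine le_trans ?_ (h3.trans (by linarith))
  refine Nat.cast_le.2 (card_le_card fun a' ha' => ?_)
  obtain ⟨h4, h5⟩ := mem_filter.1 ha'
  have e1 := h2.eq hp hp' (hS a ha) (hS a1 h1)
  have e2 := h5.eq hp hp' (hS a ha) (hS a' h4)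
  have e3 := (hS a1 h1).2.2.2
  have e4 := (hS a' h4).2.2.2
  rw [← e1] at e3
  rw [← e2] at e4
  have e5 : (d a : ℤ) ∣ ((b a1 : ℤ) - b a') * (μ.2 : ℤ) ^ 3 := by
    rw [← frac_zero (hS a ha).2.1]
    push_cast
    linear_combination h5.2.2.1 - h2.2.2.1 - (μ.2 : ZMod q) ^ 3 * e3 + (μ.2 : ZMod q) ^ 3 * e4
  have e6 := (frac_zero (hS a ha).2.1 _).2
    ((cop_cube hp' (by rw [e1]; exact h2.2.1)).dvd_of_dvd_mul_right e5)
  refine mem_filter.2 ⟨mem_univ _, β a1 - β a', ?_, ?_⟩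
  · have f1 := abs_le.1 h2.2.2.2
    have f2 := abs_le.1 h5.2.2.2
    have f3 : (M : ℝ) ^ 3 ≤ (μ.2 : ℝ) ^ 3 := by gcongr
    have f4 : (0 : ℝ) < (μ.2 : ℝ) ^ 3 := by
      have := hp'.pos
      positivity
    have f5 : u * (M : ℝ) ^ 3 ≤ u * (μ.2 : ℝ) ^ 3 := by gcongr
    push_cast
    rw [abs_le]
    constructor
    · refine le_of_mul_le_mul_right ?_ f4
      linarith [f1.1, f1.2, f2.1, f2.2]
    · refine le_of_mul_le_mul_right ?_ f4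
      linarith [f1.1, f1.2, f2.1, f2.2]
  · push_cast at e6 ⊢
    linear_combination e4 - e3 - e6

theorem prime_three {p a b c : ℕ} (hp : p.Prime) (ha : a.Prime) (hb : b.Prime) (hc : c.Prime)
    (h : p ∣ a * b * c) : p ∈ ({a, b, c} : Finset ℕ) := by
  simp only [mem_insert, mem_singleton]
  rcases (Nat.Prime.dvd_mul hp).1 h with h | h
  · rcases (Nat.Prime.dvd_mul hp).1 h with h | h
    · exact Or.inl ((Nat.prime_dvd_prime_iff_eq hp ha).1 h)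
    · exact Or.inr (Or.inl ((Nat.prime_dvd_prime_iff_eq hp hb).1 h))
  · exact Or.inr (Or.inr ((Nat.prime_dvd_prime_iff_eq hp hc).1 h))

theorem six_fib (F : Finset ((ℕ × ℕ) × (ℕ × ℕ) × (ℕ × ℕ))) (z : ℕ × ℕ)
    (hF : ∀ μ ∈ F, (μ.1.1.Prime ∧ μ.1.2.Prime) ∧ (μ.2.1.1.Prime ∧ μ.2.1.2.Prime) ∧
      (μ.2.2.1.Prime ∧ μ.2.2.2.Prime) ∧
      (μ.1.1 * μ.2.1.1 * μ.2.2.1, μ.1.2 * μ.2.1.2 * μ.2.2.2) = z) : #F ≤ 729 := by
  rcases F.eq_empty_or_nonempty with rfl | ⟨ν, hν⟩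
  · simp
  obtain ⟨⟨a1, a2⟩, ⟨a3, a4⟩, ⟨a5, a6⟩, a7⟩ := hF ν hν
  set A : Finset ℕ := {ν.1.1, ν.2.1.1, ν.2.2.1}
  set B : Finset ℕ := {ν.1.2, ν.2.1.2, ν.2.2.2}
  have hA : #A ≤ 3 := card_le_three
  have hB : #B ≤ 3 := card_le_three
  have h1 : F ⊆ (A ×ˢ B) ×ˢ (A ×ˢ B) ×ˢ (A ×ˢ B) := by
    intro μ hμ
    obtain ⟨⟨b1, b2⟩, ⟨b3, b4⟩, ⟨b5, b6⟩, b7⟩ := hF μ hμ
    obtain ⟨e1, e2⟩ := Prod.mk.inj (b7.trans a7.symm)
    simp only [mem_product]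
    refine ⟨⟨prime_three b1 a1 a3 a5 ?_, prime_three b2 a2 a4 a6 ?_⟩,
      ⟨prime_three b3 a1 a3 a5 ?_, prime_three b4 a2 a4 a6 ?_⟩,
      prime_three b5 a1 a3 a5 ?_, prime_three b6 a2 a4 a6 ?_⟩
    · exact e1 ▸ (dvd_mul_right _ _).mul_right _
    · exact e2 ▸ (dvd_mul_right _ _).mul_right _
    · exact e1 ▸ (dvd_mul_left _ _).mul_right _
    · exact e2 ▸ (dvd_mul_left _ _).mul_right _
    · exact e1 ▸ dvd_mul_left _ _
    · exact e2 ▸ dvd_mul_left _ _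
  have h2 : #(A ×ˢ B) ≤ 9 := by
    rw [card_product]
    exact Nat.mul_le_mul hA hB
  refine (card_le_card h1).trans ?_
  rw [card_product, card_product _ (A ×ˢ B)]
  exact Nat.mul_le_mul h2 (Nat.mul_le_mul h2 h2)

theorem rp_rho {P q : ℕ} [NeZero q] {a : ZMod q} {d b : ℕ} {β : ℤ} (h : Rp a d b β) :
    #{z ∈ range (P + 1) ×ˢ range (P + 1) |
      (z.1 : ZMod q) ^ 3 * (a - β) = (z.2 : ZMod q) ^ 3 * (a - β)} ≤ rho P d := by
  refine card_le_card fun z hz => mem_filter.2 ⟨(mem_filter.1 hz).1, (h.dvd_iff _).1 ?_⟩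
  push_cast
  linear_combination (mem_filter.1 hz).2

open Classical in
theorem rel_six {P q M : ℕ} [NeZero q] (hM : 64 * M ^ 3 ≤ P) {Ms : Finset ℕ} (hMs : PrM 3 M Ms)
    {D : ℝ} {d b : ZMod q → ℕ} {β : ZMod q → ℤ} (S : Finset (ZMod q))
    (hS : ∀ a ∈ S, Rp a (d a) (b a) (β a) ∧ rho P (d a) ≤ 4 * P) {a0 a3 : ZMod q} (h0 : a0 ∈ S)
    (h3 : a3 ∈ S) :
    #{μ ∈ (Ms ×ˢ Ms) ×ˢ (Ms ×ˢ Ms) ×ˢ (Ms ×ˢ Ms) | ∃ a1 ∈ S, ∃ a2 ∈ S,
      Rel D d β a0 μ.1 a1 ∧ Rel D d β a1 μ.2.1 a2 ∧ Rel D d β a2 μ.2.2 a3} ≤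
        if d a3 = d a0 then 729 * (4 * P) else 0 := by
  have hc : ∀ x ∈ Ms, ∀ y ∈ Ms, ∀ z ∈ Ms, x * y * z < P + 1 := fun x hx y hy z hz => by
    have := Nat.mul_le_mul (Nat.mul_le_mul (hMs x hx).2.2.2 (hMs y hy).2.2.2) (hMs z hz).2.2.2
    have h : 4 * M * (4 * M) * (4 * M) = 64 * M ^ 3 := by ring
    omega
  split_ifs with e
  · have h1 := amgm_card (range (P + 1)) (fun x : ℕ => (x : ZMod q) ^ 3 * (a0 - β a0))
      (fun x : ℕ => (x : ZMod q) ^ 3 * (a3 - β a3))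
    have h2 := rp_rho (P := P) (hS a0 h0).1
    have h4 := rp_rho (P := P) (hS a3 h3).1
    have h5 := (hS a0 h0).2
    have h6 := (hS a3 h3).2
    refine le_trans (card_le_mul_card_image_of_maps_to
      (t := {z ∈ range (P + 1) ×ˢ range (P + 1) |
        (z.1 : ZMod q) ^ 3 * (a0 - β a0) = (z.2 : ZMod q) ^ 3 * (a3 - β a3)})
      (f := fun μ : (ℕ × ℕ) × (ℕ × ℕ) × (ℕ × ℕ) =>
        (μ.1.1 * μ.2.1.1 * μ.2.2.1, μ.1.2 * μ.2.1.2 * μ.2.2.2)) (fun μ hμ => ?_) 729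
      fun z _ => six_fib _ z fun μ hμ => ?_) (Nat.mul_le_mul_left _ (by omega))
    · simp only [mem_filter, mem_product, mem_range] at hμ ⊢
      obtain ⟨⟨⟨b1, b2⟩, ⟨b3, b4⟩, b5, b6⟩, a1, -, a2, -, r1, r2, r3⟩ := hμ
      refine ⟨⟨hc _ b1 _ b3 _ b5, hc _ b2 _ b4 _ b6⟩, ?_⟩
      push_cast
      linear_combination ((μ.2.1.1 : ZMod q) * μ.2.2.1) ^ 3 * r1.2.2.1 +
        ((μ.1.2 : ZMod q) * μ.2.2.1) ^ 3 * r2.2.2.1 + ((μ.1.2 : ZMod q) * μ.2.1.2) ^ 3 * r3.2.2.1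
    · simp only [mem_filter, mem_product] at hμ
      obtain ⟨⟨⟨⟨b1, b2⟩, ⟨b3, b4⟩, b5, b6⟩, -⟩, b7⟩ := hμ
      exact ⟨⟨(hMs _ b1).1, (hMs _ b2).1⟩, ⟨(hMs _ b3).1, (hMs _ b4).1⟩,
        ⟨(hMs _ b5).1, (hMs _ b6).1⟩, b7⟩
  · rw [Nat.le_zero, card_eq_zero, filter_eq_empty_iff]
    rintro μ hμ ⟨a1, c1, a2, c2, r1, r2, r3⟩
    simp only [mem_product] at hμ
    obtain ⟨⟨b1, b2⟩, ⟨b3, b4⟩, b5, b6⟩ := hμ
    exact e ((r1.eq (hMs _ b1).1 (hMs _ b2).1 (hS _ h0).1 (hS _ c1).1).trans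
      ((r2.eq (hMs _ b3).1 (hMs _ b4).1 (hS _ c1).1 (hS _ c2).1).trans
        (r3.eq (hMs _ b5).1 (hMs _ b6).1 (hS _ c2).1 (hS _ h3).1))).symm

theorem Rp.arc {q : ℕ} [NeZero q] {a : ZMod q} {d b : ℕ} {β : ℤ} (h : Rp a d b β) {D : ℝ}
    (hD : d * |(β : ℝ)| ≤ D) : Small ((d : ZMod q) * a) D := by
  refine ⟨d * β, by push_cast; rwa [abs_mul, Nat.abs_cast], ?_⟩
  have h1 := (h.dvd_iff d).2 dvd_rfl
  push_cast at h1 ⊢
  linear_combination -h1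

open Classical in
theorem lay_arc {P q w : ℕ} [NeZero q] (hw : 1 ≤ w) (hd : w ∣ q) {D V : ℝ} (hV : 0 ≤ V)
    (hwD : (w : ℝ) ≤ D) (F : Finset (ZMod q))
    (hF : ∀ a ∈ F, V ≤ ‖fw 3 P a‖ ∧ Small ((w : ZMod q) * a) D) :
    #F * V ^ 2 ≤ 3 * D * rho P w := by
  have hD : 0 ≤ D := (Nat.cast_nonneg w).trans hwD
  calc #F * V ^ 2 ≤ ∑ a ∈ F, ‖fw 3 P a‖ ^ 2 := by
        rw [← nsmul_eq_mul]
        exact card_nsmul_le_sum _ _ _ fun a ha => pow_le_pow_left₀ hV (hF a ha).1 2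
    _ ≤ ∑ a : ZMod q with Small ((w : ZMod q) * a) D, ‖fw 3 P a‖ ^ 2 :=
        sum_le_sum_of_subset_of_nonneg (fun a ha => mem_filter.2 ⟨mem_univ _, (hF a ha).2⟩)
          fun _ _ _ => by positivity
    _ ≤ (2 * D + w) * rho P w := arc_sq hw hd hD
    _ ≤ _ := by
        gcongr
        linarith

theorem Lay.fib {P q : ℕ} [NeZero q] {V Q : ℝ} {S : Finset (ZMod q)} {d b : ZMod q → ℕ}
    {β : ZMod q → ℤ} (h : Lay P V Q S d b β) (hV : 0 ≤ V) (hQ : 0 ≤ Q) (hu : 1 ≤ q / (P : ℝ) ^ 3)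
    (w : ℕ) : #{a ∈ S | d a = w} * V ^ 2 ≤ 24 * Q * (q / (P : ℝ) ^ 3) * P := by
  rcases ({a ∈ S | d a = w}).eq_empty_or_nonempty with h0 | ⟨a0, h0⟩
  · rw [h0, card_empty, Nat.cast_zero, zero_mul]
    positivity
  obtain ⟨h1, rfl⟩ := mem_filter.1 h0
  obtain ⟨c1, -, c3, -, -, c6⟩ := h a0 h1
  have c7 : (rho P (d a0) : ℝ) ≤ 4 * P := by exact_mod_cast c6
  refine (lay_arc (P := P) (D := 2 * Q * (q / (P : ℝ) ^ 3)) c1.1 c1.2.1 hV
    (c3.trans (le_mul_of_one_le_right (by positivity) hu)) _ fun a ha => ?_).trans ?_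
  · obtain ⟨e1, e2⟩ := mem_filter.1 ha
    rw [← e2]
    exact ⟨(h a e1).2.1, (h a e1).1.arc (h a e1).2.2.2.1⟩
  · calc _ ≤ 3 * (2 * Q * (q / (P : ℝ) ^ 3)) * (4 * P) := by gcongr
      _ = _ := by ring

open Classical in
theorem Lay.energy {P q M : ℕ} [NeZero q] {V Q w : ℝ} {S : Finset (ZMod q)} {d b : ZMod q → ℕ}
    {β : ZMod q → ℤ} (h : Lay P V Q S d b β) (hV : 0 < V) (hQ : 0 ≤ Q) (hu : 1 ≤ q / (P : ℝ) ^ 3)
    (hM : 64 * M ^ 3 ≤ P) {Ms : Finset ℕ} (hMs : PrM 3 M Ms) (hw : 0 < w)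
    (hw3 : Q * (P / V) ^ 2 ≤ w ^ 3) :
    ∑ a ∈ S, ∑ a' ∈ S, (#{μ ∈ Ms ×ˢ Ms | Rel (8 * (q / (P : ℝ) ^ 3) * M ^ 3) d β a μ a'} : ℝ) ≤
      10 ^ 8 * (q / (P : ℝ) ^ 3) * w * #S := by
  set u : ℝ := q / (P : ℝ) ^ 3 with hu'
  have hu0 : 0 < u := by linarith
  have h1 := energy_split S
    (fun a a' => (#{μ ∈ Ms ×ˢ Ms | Rel (8 * u * M ^ 3) d β a μ a'} : ℝ)) (fun _ _ => by positivity)
    (fun a a' => by
      refine congrArg Nat.cast (card_bij' (fun μ _ => μ.swap) (fun μ _ => μ.swap) ?_ ?_ ?_ ?_)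
      · intro μ hμ
        obtain ⟨e1, e2⟩ := mem_filter.1 hμ
        exact mem_filter.2 ⟨mem_product.2 (mem_product.1 e1).symm, e2.symm⟩
      · intro μ hμ
        obtain ⟨e1, e2⟩ := mem_filter.1 hμ
        exact mem_filter.2 ⟨mem_product.2 (mem_product.1 e1).symm, e2.symm⟩
      · intro _ _
        rfl
      · intro _ _
        rfl) (t := u * w) (by positivity)
  have h2 : ∀ a0 ∈ S, ∑ a3 ∈ S, ∑ z ∈ S ×ˢ S,
      (#{μ ∈ Ms ×ˢ Ms | Rel (8 * u * M ^ 3) d β a0 μ z.1} : ℝ) *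
        #{μ ∈ Ms ×ˢ Ms | Rel (8 * u * M ^ 3) d β z.1 μ z.2} *
        #{μ ∈ Ms ×ˢ Ms | Rel (8 * u * M ^ 3) d β z.2 μ a3} ≤
      (33 * u) ^ 2 * (729 * 4 * (24 * u * w ^ 3)) := by
    intro a0 h0
    have b1 : ∀ a3 ∈ S, _ ≤ (33 * u) ^ 2 * if d a3 = d a0 then (729 * (4 * P) : ℝ) else 0 :=
      fun a3 h3 => (energy_path S (Ms ×ˢ Ms) (Rel (8 * u * M ^ 3) d β) (c := 33 * u) (by positivity)
        (fun a ha μ hμ => rel_fib hu S (fun a ha => (h a ha).1) ha (hMs _ (mem_product.1 hμ).1).1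
          (hMs _ (mem_product.1 hμ).2).1 (hMs _ (mem_product.1 hμ).2).2.2.1) h0 a3).trans
        (mul_le_mul_of_nonneg_left (by
          exact_mod_cast rel_six hM hMs S (fun a ha => ⟨(h a ha).1, (h a ha).2.2.2.2.2⟩) h0 h3)
          (by positivity))
    refine (sum_le_sum b1).trans ?_
    rw [← mul_sum, ← sum_filter, sum_const, nsmul_eq_mul]
    refine mul_le_mul_of_nonneg_left ?_ (by positivity)
    have b2 := h.fib hV.le hQ hu (d a0)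
    rw [← le_div_iff₀ (by positivity)] at b2
    calc _ ≤ 24 * Q * u * P / V ^ 2 * (729 * (4 * P)) := by gcongr
      _ = 729 * 4 * (24 * u * (Q * (P / V) ^ 2)) := by field_simp
      _ ≤ _ := by gcongr
  have h3 := sum_le_card_nsmul _ _ _ h2
  rw [nsmul_eq_mul] at h3
  refine h1.trans ?_
  calc _ ≤ 2 * (u * w) * #S + #S * ((33 * u) ^ 2 * (729 * 4 * (24 * u * w ^ 3))) / (u * w) ^ 2 := by
        gcongr
    _ = (2 + 33 ^ 2 * 729 * 4 * 24) * u * w * #S := by field_simp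
    _ ≤ _ := by
        gcongr
        norm_num


theorem close_g {P M m x m' x' q d : ℕ} (hM : 1 ≤ M) (hMP : M ≤ P) (hq : 0 < q)
    (hm : M ≤ m) (hm4 : m ≤ 4 * M) (hm' : m' ≤ 4 * M) (hx : x ≤ P) (hx' : x' ≤ P) {Q : ℝ}
    (hQ : 0 < Q) {β : ℤ} (h3 : Q ≤ d ∨ Q * (q / (P : ℝ) ^ 3) ≤ d * |(β : ℝ)|)
    (h0 : (m' : ℤ) * x - (x' : ℤ) * m ≠ 0) (h1 : (d : ℤ) ∣ 6 * ((m' : ℤ) * x - (x' : ℤ) * m))
    (h2 : |(6 * ((m' : ℝ) * x - (x' : ℝ) * m)) * β| * m ≤ 288 * q * (M : ℝ) ^ 2 / (P : ℝ) ^ 2) :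
    ∃ g : ℤ, g ≠ 0 ∧ |(g : ℝ)| ≤ 288 * M * P / Q ∧
      6 * ((m' : ℤ) * x - (x' : ℤ) * m) = d * g := by
  obtain ⟨g, hg⟩ := h1
  have hP : (0 : ℝ) < P := by exact_mod_cast (by omega : 0 < P)
  have hM' : (0 : ℝ) < M := by exact_mod_cast hM
  have hq' : (0 : ℝ) < q := by exact_mod_cast hq
  have hg' : 6 * ((m' : ℝ) * x - (x' : ℝ) * m) = d * g := by exact_mod_cast hg
  refine ⟨g, fun h => h0 (by rw [h] at hg; omega), ?_, hg⟩
  rw [le_div_iff₀ hQ]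
  rcases h3 with h3 | h3
  · have g1 : (m' : ℝ) * x ≤ 4 * M * P := by exact_mod_cast Nat.mul_le_mul hm' hx
    have g2 : (x' : ℝ) * m ≤ 4 * M * P := by
      have := Nat.mul_le_mul hm4 hx'
      rw [mul_comm m x'] at this
      exact_mod_cast this
    have g3 : (0 : ℝ) ≤ (m' : ℝ) * x := by positivity
    have g4 : (0 : ℝ) ≤ (x' : ℝ) * m := by positivity
    have g5 : |(d : ℝ) * g| ≤ 24 * M * P := abs_le.2 ⟨by linarith, by linarith⟩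
    rw [abs_mul, Nat.abs_cast] at g5
    have g6 : |(g : ℝ)| * Q ≤ |(g : ℝ)| * d := by gcongr
    nlinarith
  · rw [hg', abs_mul, abs_mul, Nat.abs_cast] at h2
    have g1 : (M : ℝ) ≤ m := by exact_mod_cast hm
    have g2 : |(g : ℝ)| * (Q * (q / (P : ℝ) ^ 3)) * M ≤ |(g : ℝ)| * (d * |(β : ℝ)|) * m := by gcongr
    refine le_of_mul_le_mul_right ?_ (show 0 < q / (P : ℝ) ^ 3 * M by positivity)
    calc _ = |(g : ℝ)| * (Q * (q / (P : ℝ) ^ 3)) * M := by ring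
      _ ≤ 288 * q * (M : ℝ) ^ 2 / (P : ℝ) ^ 2 := g2.trans (le_of_eq_of_le (by ring) h2)
      _ = _ := by field_simp

open Classical in
theorem close_count {P M q : ℕ} [NeZero q] (hM : 1 ≤ M) (hMP : 21952 * M ^ 3 ≤ P) (hG : Good 3 P q)
    {Ms : Finset ℕ} (hMs : PrM 3 M Ms) {V Q : ℝ} (hQ : 0 < Q) (hQM : 768 * Q * M ^ 2 < (P : ℝ) ^ 2)
    {S : Finset (ZMod q)} {d b : ZMod q → ℕ} {β : ZMod q → ℤ} (h : Lay P V Q S d b β)
    (T : Finset (ZMod q × ℕ × ℕ))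
    (hT : ∀ t ∈ T, t.2.1 ∈ Ms ∧ t.2.2 ≤ P ∧ Nat.Coprime t.2.2 t.2.1 ∧ t.1 ∈ S ∧ ¬ t.2.1 ∣ d t.1)
    (hi : ∀ t ∈ T, ∀ t' ∈ T, t.2.1 = t'.2.1 → (t.2.1 : ZMod q) * t.1 = t.2.1 * t'.1 → t.1 = t'.1) :
    (#{z ∈ T ×ˢ T | Close (P / M) (gam 3 z.1.1 z.1.2.1 z.1.2.2) (gam 3 z.2.1 z.2.2.1 z.2.2.2)} : ℝ) ≤
      200 * (q / (P : ℝ) ^ 3) * #T + 1152 * (P : ℝ) ^ 2 / Q * ∑ a ∈ S, ∑ a' ∈ S,
        (#{μ ∈ Ms ×ˢ Ms | Rel (8 * (q / (P : ℝ) ^ 3) * M ^ 3) d β a μ a'} : ℝ) := by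
  have hM3 : M ≤ M ^ 3 := Nat.le_self_pow (by omega) M
  have hM2 : M ≤ M ^ 2 := Nat.le_self_pow (by omega) M
  have hP : (0 : ℝ) < P := by exact_mod_cast (by omega : 0 < P)
  have hM' : (1 : ℝ) ≤ M := by exact_mod_cast hM
  have hu : 1 ≤ q / (P : ℝ) ^ 3 := (one_le_div (by positivity)).2 (good_ge (by norm_num) hG)
  have hH : 21952 * M ^ 2 ≤ P / M := (Nat.le_div_iff_mul_le hM).2 (by
    calc 21952 * M ^ 2 * M = 21952 * M ^ 3 := by ring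
      _ ≤ P := hMP)
  have hM4 : 9408 * (M : ℝ) ^ 4 < (P : ℝ) ^ 2 := by
    have b1 : 21952 * (M : ℝ) ^ 3 ≤ P := by exact_mod_cast hMP
    have b2 : (M : ℝ) ^ 4 ≤ (M : ℝ) ^ 6 := pow_le_pow_right₀ hM' (by norm_num)
    have b3 : (21952 * (M : ℝ) ^ 3) ^ 2 ≤ (P : ℝ) ^ 2 := by gcongr
    have b4 : 0 < (M : ℝ) ^ 4 := by positivity
    nlinarith
  set C := {z ∈ T ×ˢ T | Close (P / M) (gam 3 z.1.1 z.1.2.1 z.1.2.2) (gam 3 z.2.1 z.2.2.1 z.2.2.2)}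
    with hC
  have h1 : (#{z ∈ C | z.2.2 = z.1.2} : ℝ) ≤ 200 * (q / (P : ℝ) ^ 3) * #T := by
    rw [card_eq_sum_card_fiberwise (f := fun z => z.1) (t := T) fun z hz => mem_coe.2
      (mem_product.1 (mem_filter.1 (mem_filter.1 (mem_coe.1 hz)).1).1).1, Nat.cast_sum, mul_comm,
      ← nsmul_eq_mul]
    refine sum_le_card_nsmul _ _ _ fun t ht => ?_
    obtain ⟨g1, g2, g3, -⟩ := hT _ ht
    obtain ⟨g4, g5, g6, g7⟩ := hMs _ g1
    set U := {z ∈ {z ∈ C | z.2.2 = z.1.2} | z.1 = t} with hU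
    have hU1 : ∀ z ∈ U, z.1 = t ∧ z.2.2 = t.2 ∧ z.2 ∈ T ∧
        Close (P / M) (gam 3 t.1 t.2.1 t.2.2) (gam 3 z.2.1 t.2.1 t.2.2) := by
      intro z hz
      obtain ⟨e1, rfl⟩ := mem_filter.1 hz
      obtain ⟨e2, e3⟩ := mem_filter.1 e1
      obtain ⟨e4, e5⟩ := mem_filter.1 e2
      exact ⟨rfl, e3, (mem_product.1 e4).2, by rwa [e3] at e5⟩
    have hinj : Set.InjOn (fun z : (ZMod q × ℕ × ℕ) × ZMod q × ℕ × ℕ => z.2.1) U := by
      intro z hz w hw e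
      obtain ⟨e1, e2, -⟩ := hU1 z hz
      obtain ⟨e3, e4, -⟩ := hU1 w hw
      exact Prod.ext (e1.trans e3.symm) (Prod.ext e (e2.trans e4.symm))
    rw [← card_image_of_injOn hinj]
    have b1 := deg_fib (k := 3) (a0 := t.1) (m0 := t.2.1) (x0 := t.2.2) (by omega) hM (by omega) hG
      g4 g5 g6 g7 g2 g3 (by
        rw [show Nat.factorial 3 = 6 from rfl]
        omega) (U.image fun z => z.2.1) (fun a ha => by
        obtain ⟨z, hz, rfl⟩ := mem_image.1 ha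
        exact (hU1 z hz).2.2.2) fun a ha a' ha' e => by
        obtain ⟨z, hz, rfl⟩ := mem_image.1 ha
        obtain ⟨w, hw, rfl⟩ := mem_image.1 ha'
        obtain ⟨-, e1, e2, -⟩ := hU1 z hz
        obtain ⟨-, e3, e4, -⟩ := hU1 w hw
        exact hi _ e2 _ e4 (by rw [e1, e3]) (by rwa [e1])
    have b2 := Nat.floor_le (show 0 ≤ 2 * 2 ^ 3 * q / (P : ℝ) ^ 3 by positivity)
    refine (Nat.cast_le.2 b1).trans ?_
    rw [mul_div_assoc] at b2 ⊢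
    rw [show Nat.factorial 3 = 6 from rfl]
    push_cast
    linarith
  have hd : ∀ z ∈ C, _ ∧ _ := fun z hz => by
    obtain ⟨e1, e2⟩ := mem_filter.1 hz
    obtain ⟨g1, g2, g3, g4, g5⟩ := hT _ (mem_product.1 e1).1
    obtain ⟨k1, k2, k3, k4, k5⟩ := hT _ (mem_product.1 e1).2
    exact And.intro (close_div hM (by omega) (hMs _ g1).1 (hMs _ g1).2.2.1 (hMs _ g1).2.2.2
      (hMs _ k1).2.2.2 g2 k2 g3 (by omega) hQM (h _ g4).1 (h _ g4).2.2.1 (h _ g4).2.2.2.1 g5 e2)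
      (close_div hM (by omega) (hMs _ k1).1 (hMs _ k1).2.2.1 (hMs _ k1).2.2.2
      (hMs _ g1).2.2.2 k2 g2 k3 (by omega) hQM (h _ k4).1 (h _ k4).2.2.1 (h _ k4).2.2.2.1 k5
      (close_symm e2))
  have hne : ∀ z ∈ C, ¬ z.2.2 = z.1.2 →
      (z.2.2.1 : ℤ) * z.1.2.2 - (z.2.2.2 : ℤ) * z.1.2.1 ≠ 0 := fun z hz e e' => by
    obtain ⟨e1, -⟩ := mem_filter.1 hz
    obtain ⟨g1, -, g3, -⟩ := hT _ (mem_product.1 e1).1
    obtain ⟨k1, -⟩ := hT _ (mem_product.1 e1).2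
    have := coreii_eq (x' := z.2.2.2) (hMs _ g1).1 (hMs _ k1).1 g3 (by exact_mod_cast sub_eq_zero.1 e')
    exact e (Prod.ext this.1.symm this.2.symm)
  set W := {y ∈ (S ×ˢ S) ×ˢ (Ms ×ˢ Ms) |
    Rel (8 * (q / (P : ℝ) ^ 3) * M ^ 3) d β y.1.1 y.2 y.1.2} with hW
  have h2 : (#{z ∈ C | ¬ z.2.2 = z.1.2} : ℝ) ≤ 1152 * (P : ℝ) ^ 2 / Q * #W := by
    rw [card_eq_sum_card_fiberwise (f := fun z => ((z.1.1, z.2.1), (z.1.2.1, z.2.2.1))) (t := W)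
      fun z hz => ?_, Nat.cast_sum, mul_comm, ← nsmul_eq_mul]
    · refine sum_le_card_nsmul _ _ _ fun y hy => ?_
      obtain ⟨⟨a, a'⟩, m, m'⟩ := y
      obtain ⟨y1, y2⟩ := mem_filter.1 hy
      simp only [mem_product] at y1
      obtain ⟨⟨y3, -⟩, y4, y5⟩ := y1
      set U := {z ∈ {z ∈ C | ¬ z.2.2 = z.1.2} |
        ((z.1.1, z.2.1), (z.1.2.1, z.2.2.1)) = ((a, a'), (m, m'))} with hU
      have hinj : Set.InjOn (fun z : (ZMod q × ℕ × ℕ) × ZMod q × ℕ × ℕ => (z.1.2.2, z.2.2.2)) U := by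
        intro z hz w hw e
        have e1 := (mem_filter.1 hz).2.trans (mem_filter.1 hw).2.symm
        simp only [Prod.mk.injEq] at e e1
        exact Prod.ext (Prod.ext e1.1.1 (Prod.ext e1.2.1 e.1)) (Prod.ext e1.1.2 (Prod.ext e1.2.2 e.2))
      rw [← card_image_of_injOn hinj]
      refine (pair_card (P := P) (m' := m') (d := d a) (G := 288 * M * P / Q) hM (by omega) (hMs _ y4).1
        (hMs _ y5).1 (hMs _ y4).2.2.1 y2.1 (by positivity) _ fun v hv => ?_).trans (le_of_eq ?_)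
      · obtain ⟨z, hz, rfl⟩ := mem_image.1 hv
        obtain ⟨e1, e2⟩ := mem_filter.1 hz
        obtain ⟨e3, e4⟩ := mem_filter.1 e1
        simp only [Prod.mk.injEq] at e2
        obtain ⟨⟨rfl, rfl⟩, rfl, rfl⟩ := e2
        obtain ⟨-, g2, -⟩ := hT _ (mem_product.1 (mem_filter.1 e3).1).1
        obtain ⟨-, k2, -⟩ := hT _ (mem_product.1 (mem_filter.1 e3).1).2
        exact ⟨g2, close_g hM (by omega) (NeZero.pos q) (hMs _ y4).2.2.1 (hMs _ y4).2.2.2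
          (hMs _ y5).2.2.2 g2 k2 hQ (h _ y3).2.2.2.2.1 (hne z e3 e4) (hd z e3).1.1 (hd z e3).1.2⟩
      · field_simp
        ring
    · obtain ⟨e3, e4⟩ := mem_filter.1 (mem_coe.1 hz)
      obtain ⟨e1, e2⟩ := mem_filter.1 e3
      obtain ⟨g1, g2, g3, g4, g5⟩ := hT _ (mem_product.1 e1).1
      obtain ⟨k1, k2, k3, k4, k5⟩ := hT _ (mem_product.1 e1).2
      exact mem_coe.2 (mem_filter.2 ⟨mem_product.2 ⟨mem_product.2 ⟨g4, k4⟩, mem_product.2 ⟨g1, k1⟩⟩,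
        close_rel hM (by omega) (hMs _ g1).2.2.2 (hMs _ k1).2.2.2 g2 k2 hM4 (h _ g4).1 (h _ k4).1
          g5 k5 (hne z e3 e4) (hd z e3).1.1 (hd z e3).1.2 (hd z e3).2.1 (hd z e3).2.2 e2⟩)
  have h3 : (#W : ℝ) = ∑ a ∈ S, ∑ a' ∈ S,
      (#{μ ∈ Ms ×ˢ Ms | Rel (8 * (q / (P : ℝ) ^ 3) * M ^ 3) d β a μ a'} : ℝ) := by
    rw [hW, huab_card, sum_product]
    push_cast
    rfl
  rw [← h3, ← card_filter_add_card_filter_not (s := C) (fun z => z.2.2 = z.1.2), Nat.cast_add]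
  exact add_le_add h1 h2

theorem few_div {M d : ℕ} {Ms : Finset ℕ} (hM : 1 ≤ M) (hMs : PrM 3 M Ms) (hd : 1 ≤ d)
    (h : d < M ^ 8) : #{m ∈ Ms | m ∣ d} ≤ 7 := by
  by_contra hc
  have h1 := Finset.prod_primes_dvd (s := {m ∈ Ms | m ∣ d}) d
    (fun m hm => (hMs m (mem_filter.1 hm).1).1.prime) fun m hm => (mem_filter.1 hm).2
  have h2 := Nat.le_of_dvd hd h1
  have h3 := Finset.pow_card_le_prod {m ∈ Ms | m ∣ d} (fun m => m) M
    fun m hm => (hMs m (mem_filter.1 hm).1).2.2.1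
  have h4 : M ^ 8 ≤ M ^ #{m ∈ Ms | m ∣ d} := Nat.pow_le_pow_right hM (by omega)
  omega

theorem lay_fin {s c Z V P M H X A e N u r : ℝ} (hs : 0 ≤ s) (hc : 0 ≤ c) (hP : 1 ≤ P) (hV : 0 < V)
    (hM : 0 ≤ M) (hH : 0 ≤ H) (he : 0 ≤ e) (hA : 0 ≤ A) (hu : 0 ≤ u) (hr : 0 ≤ r) (hZ : 0 ≤ Z)
    (h1 : M * H ≤ P) (h2 : s * c ≤ 2 * Z) (h6 : X ^ 2 ≤ A * e * H ^ 12 * N)
    (h7 : Z * (V / 2) ^ 6 * (P + 1) ≤ 54 * (4 * M) ^ 6 * X)
    (h8 : N ≤ 10 ^ 12 * u * s * P ^ 2 * (c / P + r)) :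
    s * c ^ 2 ≤ 10 ^ 27 * A * e * (P / V) ^ 12 * u * (c / P + r) := by
  rcases hs.eq_or_lt with rfl | hs
  · rw [zero_mul]
    positivity
  have b1 : s * c * V ^ 6 * P ≤ 3 * 10 ^ 7 * M ^ 6 * X := by
    have f1 : 0 ≤ M ^ 6 * X := by
      have : 0 ≤ Z * (V / 2) ^ 6 * (P + 1) := by positivity
      nlinarith
    calc s * c * V ^ 6 * P ≤ 2 * Z * V ^ 6 * (P + 1) := by
          gcongr
          linarith
      _ = 128 * (Z * (V / 2) ^ 6 * (P + 1)) := by ring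
      _ ≤ 128 * (54 * (4 * M) ^ 6 * X) := by gcongr
      _ ≤ _ := by nlinarith
  have b2 : (s * c * V ^ 6 * P) ^ 2 ≤ 10 ^ 27 * A * e * P ^ 12 * u * s * P ^ 2 * (c / P + r) := by
    calc _ ≤ (3 * 10 ^ 7 * M ^ 6 * X) ^ 2 := by gcongr
      _ = 9 * 10 ^ 14 * M ^ 12 * X ^ 2 := by ring
      _ ≤ 10 ^ 15 * M ^ 12 * (A * e * H ^ 12 * (10 ^ 12 * u * s * P ^ 2 * (c / P + r))) := by
          gcongr
          · norm_num
          · exact h6.trans (by gcongr)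
      _ = 10 ^ 27 * A * e * (M * H) ^ 12 * u * s * P ^ 2 * (c / P + r) := by ring
      _ ≤ _ := by gcongr
  refine le_of_mul_le_mul_right ?_ (show 0 < s * V ^ 12 * P ^ 2 by positivity)
  refine le_of_eq_of_le (by ring) (b2.trans (le_of_eq ?_))
  field_simp

theorem lay_num {u P s c Q w T E : ℝ} (hu : 0 ≤ u) (hP : 1 ≤ P) (hs : 0 ≤ s) (hc : 0 ≤ c)
    (hQ : 0 < Q) (hw : 0 < w) (h1 : T ≤ s * (c * (P + 1))) (h2 : E ≤ 10 ^ 8 * u * w * s) :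
    200 * u * T + 1152 * P ^ 2 / Q * E ≤ 10 ^ 12 * u * s * P ^ 2 * (c / P + w / Q) := by
  have h3 : T ≤ s * (c * (10 * P)) := h1.trans (by gcongr; linarith)
  calc _ ≤ 10 ^ 11 * u * (s * (c * (10 * P))) + 10 ^ 4 * P ^ 2 / Q * (10 ^ 8 * u * w * s) := by
        refine add_le_add ((mul_le_mul_of_nonneg_left h3 (by positivity)).trans ?_)
          ((mul_le_mul_of_nonneg_left h2 (by positivity)).trans ?_)
        · gcongr
          norm_num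
        · gcongr
          norm_num
    _ = _ := by field_simp

theorem lay_level {ε : ℝ} (hε : 0 < ε) : ∃ A : ℝ, 0 < A ∧
    ∀ (P M q : ℕ) [NeZero q], 1 ≤ M → 21952 * M ^ 3 ≤ P → Good 3 P q →
      ∀ Ms : Finset ℕ, PrM 3 M Ms → 14 ≤ #Ms → ∀ V Q w : ℝ, 2 * ((P : ℝ) / M + 1) ≤ V → 0 < Q →
        768 * Q * M ^ 2 < (P : ℝ) ^ 2 → 2 * Q < (M : ℝ) ^ 8 → 0 < w → Q * (P / V) ^ 2 ≤ w ^ 3 →
        ∀ (S : Finset (ZMod q)) (d b : ZMod q → ℕ) (β : ZMod q → ℤ), Lay P V Q S d b β →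
          (#S : ℝ) * (#Ms : ℝ) ^ 2 ≤
            A * (P : ℝ) ^ ε * (P / V) ^ 12 * (q / (P : ℝ) ^ 3) * (#Ms / P + w / Q) := by
  classical
  obtain ⟨A2, hA2, H2⟩ := mu (e := 3) (by norm_num) hε
  refine ⟨10 ^ 27 * A2, by positivity, ?_⟩
  intro P M q _ hM hMP hG Ms hMs h14 V Q w hV hQ hQM hQ8 hw hw3 S d b β hS
  have hM3 : M ≤ M ^ 3 := Nat.le_self_pow (by omega) M
  have hP : (1 : ℝ) ≤ P := by exact_mod_cast (by omega : 1 ≤ P)
  have hM' : (1 : ℝ) ≤ M := by exact_mod_cast hM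
  have hV0 : 0 < V := lt_of_lt_of_le (by positivity) hV
  have hH1 : 1 ≤ P / M := Nat.div_pos (by omega) hM
  have hHP : P / M ≤ P := Nat.div_le_self _ _
  have hu : 1 ≤ q / (P : ℝ) ^ 3 := (one_le_div (by positivity)).2 (good_ge (by norm_num) hG)
  set Sm : ℕ → Finset (ZMod q) := fun m => S.filter fun a => ¬ m ∣ d a with hSm
  have h2 : (#S : ℝ) * #Ms ≤ 2 * ∑ m ∈ Ms, (#(Sm m) : ℝ) := by
    have b1 : ∑ m ∈ Ms, (#(Sm m) : ℝ) = ∑ a ∈ S, (#(Ms.filter fun m => ¬ m ∣ d a) : ℝ) := by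
      simp only [hSm, card_filter]
      push_cast
      exact sum_comm
    rw [b1, mul_sum, ← nsmul_eq_mul]
    refine card_nsmul_le_sum _ _ _ fun a ha => ?_
    have b2 := few_div hM hMs (hS a ha).1.1
      (by exact_mod_cast lt_of_le_of_lt (hS a ha).2.2.1 hQ8)
    have b3 := card_filter_add_card_filter_not (s := Ms) fun m => m ∣ d a
    have b4 : #Ms ≤ 2 * #(Ms.filter fun m => ¬ m ∣ d a) := by omega
    exact_mod_cast b4
  have h3 : ∀ m ∈ Ms, ∃ R ⊆ Sm m, (∀ a ∈ R, ∀ a' ∈ R, (m : ZMod q) * a = m * a' → a = a') ∧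
      #(Sm m) * (V / 2) ^ (2 * 3) * (P + 1) ≤ 2 * ((3 : ℕ) : ℝ) ^ 3 * (m : ℝ) ^ (2 * 3) *
        ∑ r ∈ R, ∑ x ∈ (range (P + 1)).filter (fun x => Nat.Coprime x m),
          pro 3 P (r, m, x) ^ (2 * 3) := by
    intro m hm
    obtain ⟨hp, -, hMm, hm4⟩ := hMs m hm
    have hd : m ∣ q := by
      have := coreii_dvd (k := 3) (b := 1) (by omega) (by omega) hp.pos (by omega) hG
      rw [pow_one] at this
      exact Dvd.dvd.trans (Dvd.intro_left _ rfl) this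
    refine par_reps (by omega) (by omega) hp hd (by omega) _ (by positivity) fun a ha => ?_
    have f1 := fw_le_fc 3 P hp a
    have f2 : (M : ℝ) ≤ m := by exact_mod_cast hMm
    have f3 : (P : ℝ) / m ≤ P / M := by gcongr
    have f4 := (hS a (mem_filter.1 ha).1).2.1
    linarith
  choose! R r1 r2 r3 using h3
  set T := (Tr P S Ms).filter fun t => t.1 ∈ R t.2.1 with hT
  have hT1 : ∀ t ∈ T, t.2.1 ∈ Ms ∧ t.2.2 ≤ P ∧ Nat.Coprime t.2.2 t.2.1 ∧ t.1 ∈ R t.2.1 := by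
    intro t ht
    simp only [hT, Tr, mem_filter, mem_product, mem_range] at ht
    exact ⟨ht.1.1.2.1, by omega, ht.1.2, ht.2⟩
  have h5 : ∑ t ∈ T, pro 3 P t ^ 6 = ∑ m ∈ Ms, ∑ r ∈ R m,
      ∑ x ∈ (range (P + 1)).filter (fun x => Nat.Coprime x m), pro 3 P (r, m, x) ^ 6 := by
    rw [hT, sum_filter, step_tr, sum_comm]
    refine sum_congr rfl fun m hm => ?_
    rw [← inter_eq_right.2 ((r1 m hm).trans (filter_subset _ _)), ← sum_ite_mem]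
    refine sum_congr rfl fun a _ => ?_
    split_ifs <;> simp
  have h6 := H2 q (P / M) hH1 (step_q (by omega) hHP hG) _ T (fun t => gam 3 t.1 t.2.1 t.2.2)
    (fun t => -((t.2.2 / t.2.1 : ℕ) : ℤ)) (fun t => (((P - t.2.2) / t.2.1 : ℕ) : ℤ))
    (fun t ht => by
      obtain ⟨hm, hx, -⟩ := hT1 t ht
      have a1 : t.2.2 / t.2.1 ≤ P / M := Nat.div_le_div hx (hMs _ hm).2.2.1 (by omega)
      have a2 : (P - t.2.2) / t.2.1 ≤ P / M :=
        Nat.div_le_div (by omega) (hMs _ hm).2.2.1 (by omega)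
      exact ⟨neg_le_neg (by exact_mod_cast a1), by exact_mod_cast a2⟩)
  have h9 : ((P / M : ℕ) : ℝ) ^ ε ≤ (P : ℝ) ^ ε :=
    Real.rpow_le_rpow (by positivity) (by exact_mod_cast hHP) hε.le
  replace h6 : (∑ t ∈ T, pro 3 P t ^ 6) ^ 2 ≤ A2 * (P : ℝ) ^ ε * ((P / M : ℕ) : ℝ) ^ 12 *
      #{z ∈ T ×ˢ T | Close (P / M) (gam 3 z.1.1 z.1.2.1 z.1.2.2) (gam 3 z.2.1 z.2.2.1 z.2.2.2)} :=
    le_trans h6 (by
      rw [show 2 * tri 3 = 12 from rfl]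
      gcongr)
  have h7 : (∑ m ∈ Ms, (#(Sm m) : ℝ)) * (V / 2) ^ 6 * (P + 1) ≤
      54 * (4 * M : ℝ) ^ 6 * ∑ t ∈ T, pro 3 P t ^ 6 := by
    rw [h5, sum_mul, sum_mul, mul_sum]
    refine sum_le_sum fun m hm => (r3 m hm).trans ?_
    have b1 : (m : ℝ) ≤ 4 * M := by exact_mod_cast (hMs m hm).2.2.2
    have b2 : 0 ≤ ∑ r ∈ R m, ∑ x ∈ (range (P + 1)).filter (fun x => Nat.Coprime x m),
        pro 3 P (r, m, x) ^ 6 := sum_nonneg fun _ _ => sum_nonneg fun _ _ => by positivity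
    rw [show 2 * ((3 : ℕ) : ℝ) ^ 3 = 54 by norm_num]
    gcongr
  have h8 := close_count hM hMP hG hMs hQ hQM hS T (fun t ht => by
    obtain ⟨a1, a2, a3, a4⟩ := hT1 t ht
    exact ⟨a1, a2, a3, mem_filter.1 (r1 _ a1 a4)⟩)
    fun t ht t' ht' e1 e2 => r2 _ (hT1 t ht).1 _ (hT1 t ht).2.2.2 _
      (by rw [e1]; exact (hT1 t' ht').2.2.2) e2
  have h10 := hS.energy hV0 hQ.le hu (by omega) hMs hw hw3
  have h11 : (#T : ℝ) ≤ #S * (#Ms * (P + 1)) := by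
    have := (card_filter_le (Tr P S Ms) fun t => t.1 ∈ R t.2.1).trans (card_filter_le _ _)
    rw [card_product, card_product, card_range] at this
    exact_mod_cast this
  refine lay_fin (Nat.cast_nonneg _) (Nat.cast_nonneg _) hP hV0 (Nat.cast_nonneg _)
    (Nat.cast_nonneg _) (by positivity) hA2.le (by positivity) (by positivity)
    (sum_nonneg fun _ _ => Nat.cast_nonneg _) (by exact_mod_cast Nat.mul_div_le P M) h2 h6 h7
    (h8.trans ?_)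
  exact lay_num (by positivity) hP (Nat.cast_nonneg _) (Nat.cast_nonneg _) hQ hw h11 h10


theorem bad_rho {ε : ℝ} (hε : 0 < ε) : ∃ C : ℝ, 0 < C ∧ ∀ P : ℕ, 1 ≤ P → ∀ T : Finset ℕ,
    (∀ d ∈ T, 4 * P < rho P d) → ∑ d ∈ T, (rho P d : ℝ) ≤ C * (P : ℝ) ^ ε * (P : ℝ) ^ 2 := by
  obtain ⟨C, hC, H⟩ := bad_tau 3 hε
  refine ⟨8 * C, by positivity, fun P hP T hT => ?_⟩
  have hP1 : (1 : ℝ) ≤ P := by exact_mod_cast hP
  have h1 : ∑ d ∈ T, (rho P d : ℝ) = ∑ z ∈ range (P + 1) ×ˢ range (P + 1),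
      (#(T.filter fun d : ℕ => (d : ℤ) ∣ (z.1 : ℤ) ^ 3 - (z.2 : ℤ) ^ 3) : ℝ) := by
    simp_rw [rho, card_filter]
    push_cast
    exact sum_comm
  have h2 : ∀ z ∈ range (P + 1) ×ˢ range (P + 1),
      (#(T.filter fun d : ℕ => (d : ℤ) ∣ (z.1 : ℤ) ^ 3 - (z.2 : ℤ) ^ 3) : ℝ) ≤
        (if z.1 = z.2 then (#T : ℝ) else 0) + C * (P : ℝ) ^ ε := by
    rintro ⟨x, y⟩ hz
    obtain ⟨hx, hy⟩ := mem_product.1 hz
    rw [mem_range] at hx hy
    split_ifs with h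
    · have : (#(T.filter fun d : ℕ => (d : ℤ) ∣ (x : ℤ) ^ 3 - (y : ℤ) ^ 3) : ℝ) ≤ #T := by
        exact_mod_cast card_filter_le _ _
      have : 0 ≤ C * (P : ℝ) ^ ε := by positivity
      linarith
    · rw [zero_add]
      refine le_trans (le_of_eq ?_) (H P hP (T.map Nat.castEmbedding) ((x : ℤ) ^ 3 - (y : ℤ) ^ 3)
        (fun h0 => h ?_) ?_)
      · rw [filter_map, card_map]
        rfl
      · have : x ^ 3 = y ^ 3 := by exact_mod_cast sub_eq_zero.1 h0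
        exact Nat.pow_left_injective (by omega) this
      · have a1 : (x : ℤ) ^ 3 ≤ (P : ℤ) ^ 3 := pow_le_pow_left₀ (by positivity) (by omega) _
        have a2 : (y : ℤ) ^ 3 ≤ (P : ℤ) ^ 3 := pow_le_pow_left₀ (by positivity) (by omega) _
        have a3 : (0 : ℤ) ≤ (x : ℤ) ^ 3 := by positivity
        have a4 : (0 : ℤ) ≤ (y : ℤ) ^ 3 := by positivity
        rw [abs_le]
        constructor <;> linarith
  have h3 := h1.le.trans (sum_le_sum h2)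
  rw [sum_add_distrib, sum_product, sum_const, card_product, card_range, nsmul_eq_mul,
    sum_congr (s₁ := range (P + 1)) rfl (g := fun _ => (#T : ℝ)) fun x hx => by
      rw [sum_ite_eq, if_pos hx], sum_const,
    card_range, nsmul_eq_mul] at h3
  have h4 : #T * (4 * P : ℝ) ≤ ∑ d ∈ T, (rho P d : ℝ) := by
    rw [← nsmul_eq_mul]
    exact card_nsmul_le_sum _ _ _ fun d hd => by exact_mod_cast (hT d hd).le
  push_cast at h3
  have b1 : ((P : ℝ) + 1) * #T ≤ (2 * P) * #T := by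
    gcongr
    linarith
  have b2 : ((P : ℝ) + 1) * (P + 1) * (C * (P : ℝ) ^ ε) ≤ (2 * P) * (2 * P) * (C * (P : ℝ) ^ ε) := by
    gcongr <;> linarith
  linarith

theorem Lay.simple {P q : ℕ} [NeZero q] {V Q : ℝ} {S : Finset (ZMod q)} {d b : ZMod q → ℕ}
    {β : ZMod q → ℤ} (h : Lay P V Q S d b β) (hV : 0 ≤ V) (hQ : 0 ≤ Q) (hu : 1 ≤ q / (P : ℝ) ^ 3) :
    #S * V ^ 2 ≤ 48 * Q ^ 2 * (q / (P : ℝ) ^ 3) * P := by
  rw [card_eq_sum_card_fiberwise (f := d) (t := Icc 1 ⌊2 * Q⌋₊) fun a ha => mem_coe.2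
    (mem_Icc.2 ⟨(h a ha).1.1, Nat.le_floor (h a ha).2.2.1⟩), Nat.cast_sum, sum_mul]
  refine (sum_le_card_nsmul _ _ _ fun w _ => h.fib hV hQ hu w).trans ?_
  rw [Nat.card_Icc, Nat.add_sub_cancel, nsmul_eq_mul]
  have := Nat.floor_le (show 0 ≤ 2 * Q by positivity)
  calc _ ≤ 2 * Q * (24 * Q * (q / (P : ℝ) ^ 3) * P) := by gcongr
    _ = _ := by ring

theorem cube_M (B : ℕ) {P : ℕ} (hP : 21952 * (B + 1) ^ 3 + 112 ^ 24 ≤ P) {y : ℝ} (hy : 1 ≤ y)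
    (hyP : y ^ 24 ≤ P) : ∃ M : ℕ, B + 1 ≤ M ∧ 21952 * M ^ 3 ≤ P ∧ (P : ℝ) ≤ (56 * M) ^ 3 ∧
      2 * y ^ 7 ≤ M := by
  have hex : ∃ M : ℕ, P < 21952 * (M + 1) ^ 3 :=
    ⟨P, by nlinarith [Nat.le_self_pow (show 3 ≠ 0 by omega) (P + 1)]⟩
  have h1 := Nat.find_spec hex
  have h2 : B + 1 ≤ Nat.find hex := by
    by_contra h
    have : (Nat.find hex + 1) ^ 3 ≤ (B + 1) ^ 3 := Nat.pow_le_pow_left (by omega) 3
    omega
  have h3 := Nat.find_min hex (m := Nat.find hex - 1) (by omega)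
  rw [Nat.sub_add_cancel (by omega), not_lt] at h3
  generalize Nat.find hex = M at *
  have h4 : P ≤ (56 * M) ^ 3 := by
    have : (M + 1) ^ 3 ≤ (2 * M) ^ 3 := Nat.pow_le_pow_left (by omega) 3
    nlinarith
  have h5 : (P : ℝ) ≤ (56 * M) ^ 3 := by exact_mod_cast h4
  refine ⟨_, h2, h3, h5, ?_⟩
  have h6 : (112 : ℝ) ^ 24 ≤ P := by exact_mod_cast (Nat.le_add_left _ _).trans hP
  have h7 : ((112 * y ^ 7) ^ 3) ^ 8 ≤ (P : ℝ) ^ 8 := by
    calc ((112 * y ^ 7) ^ 3) ^ 8 = 112 ^ 24 * (y ^ 24) ^ 7 := by ring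
      _ ≤ P * (P : ℝ) ^ 7 := by gcongr
      _ = _ := by ring
  have h8 := le_of_pow_le_pow_left₀ (by norm_num) (by positivity) h7
  have h9 := le_of_pow_le_pow_left₀ (n := 3) (by norm_num) (by positivity) (h8.trans h5)
  linarith

theorem cube_fin {s c M P y v E : ℝ} (hc : 1 ≤ c) (hy : 1 ≤ y) (hyP : y ^ 24 ≤ P) (hv : 1 ≤ v)
    (hE : 0 ≤ E) (hM : 0 ≤ M) (h1 : P ≤ (56 * M) ^ 3) (h3 : M ≤ v * c)
    (h : s * c ^ 2 ≤ E * (P / (2 * P / y ^ 7)) ^ 12 * (c / P + 3136 * M ^ 2 / y ^ 32)) :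
    s ≤ v ^ 2 * E * y ^ 52 := by
  have hy0 : 0 < y := by linarith
  have hP : 0 < P := lt_of_lt_of_le (by positivity) hyP
  have b0 : y ^ 8 ≤ 56 * M := le_of_pow_le_pow_left₀ (n := 3) (by norm_num) (by positivity)
    (le_of_eq_of_le (by ring) (hyP.trans h1))
  have b4 : M ^ 2 ≤ v ^ 2 * c ^ 2 := by
    rw [← mul_pow]
    gcongr
  have b1 : c / P ≤ 56 * (v ^ 2 * c ^ 2) / y ^ 32 := by
    rw [div_le_div_iff₀ hP (by positivity)]
    calc c * y ^ 32 = c * y ^ 8 * y ^ 24 := by ring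
      _ ≤ c * (56 * (v * c)) * P := by
          gcongr
          linarith
      _ = 56 * (v * 1 * c ^ 2) * P := by ring
      _ ≤ 56 * (v * v * c ^ 2) * P := by gcongr
      _ = _ := by ring
  have b2 : 3136 * M ^ 2 / y ^ 32 ≤ 3136 * (v ^ 2 * c ^ 2) / y ^ 32 := by gcongr
  have b5 : P / (2 * P / y ^ 7) = y ^ 7 / 2 := by field_simp
  rw [b5] at h
  refine le_of_mul_le_mul_right (h.trans ?_) (show 0 < c ^ 2 by positivity)
  calc _ ≤ E * (y ^ 7 / 2) ^ 12 * (4096 * (v ^ 2 * c ^ 2 / y ^ 32)) := by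
        refine mul_le_mul_of_nonneg_left ((add_le_add b1 b2).trans ?_) (by positivity)
        have : 0 ≤ v ^ 2 * c ^ 2 / y ^ 32 := by positivity
        rw [mul_div_assoc, mul_div_assoc 3136]
        linarith
    _ = _ := by
        field_simp
        norm_num

theorem cube_QM {M P y Q : ℝ} (hy : 1 ≤ y) (hyP : y ^ 24 ≤ P) (hM : 0 ≤ M)
    (h1 : 21952 * M ^ 3 ≤ P) (hQ0 : 0 ≤ Q) (hQ : Q ≤ y ^ 32) : 784 * (Q * M ^ 2) ≤ P ^ 2 := by
  have hP : 0 ≤ P := le_trans (by positivity) hyP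
  refine le_of_pow_le_pow_left₀ (n := 3) (by norm_num) (by positivity) ?_
  calc (784 * (Q * M ^ 2)) ^ 3 ≤ (784 * (y ^ 32 * M ^ 2)) ^ 3 := by gcongr
    _ = (y ^ 24) ^ 4 * (21952 * M ^ 3) ^ 2 := by ring
    _ ≤ P ^ 4 * P ^ 2 := by gcongr
    _ = _ := by ring

theorem cube_w {M P y Q : ℝ} (hy : 1 ≤ y) (hyP : y ^ 24 ≤ P) (h1 : P ≤ (56 * M) ^ 3) (hQ0 : 0 ≤ Q)
    (hQ : P * y ^ 38 ≤ Q ^ 2) :
    Q * (P / (2 * P / y ^ 7)) ^ 2 ≤ (3136 * Q * M ^ 2 / y ^ 32) ^ 3 := by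
  have hy0 : 0 < y := by linarith
  have hP : 0 < P := lt_of_lt_of_le (by positivity) hyP
  have b5 : P / (2 * P / y ^ 7) = y ^ 7 / 2 := by field_simp
  rw [b5, div_pow _ (y ^ 32), le_div_iff₀ (by positivity)]
  calc Q * (y ^ 7 / 2) ^ 2 * (y ^ 32) ^ 3 ≤ Q * (y ^ 7) ^ 2 * (y ^ 32) ^ 3 := by
        gcongr
        exact half_le_self (by positivity)
    _ = Q * (y ^ 24 * y ^ 38) * (y ^ 24) ^ 2 := by ring
    _ ≤ Q * (P * y ^ 38) * P ^ 2 := by gcongr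
    _ ≤ Q * Q ^ 2 * ((56 * M) ^ 3) ^ 2 := by gcongr
    _ = _ := by ring

theorem cube_parts {ε : ℝ} (hε : 0 < ε) : ∃ A : ℝ, 0 < A ∧ ∃ P0 : ℕ, ∀ (P q : ℕ) [NeZero q],
    P0 ≤ P → Good 3 P q → ∀ y : ℝ, 1 ≤ y → y ^ 24 ≤ P →
      (#(Lm 3 P q (2 * P / y ^ 7) (y ^ 32)) : ℝ) ≤ A * (P : ℝ) ^ ε * (q / (P : ℝ) ^ 3) * y ^ 52 ∧
      ∀ Q : ℝ, 1 ≤ Q → Q ≤ y ^ 32 → ∀ (S : Finset (ZMod q)) (d b : ZMod q → ℕ) (β : ZMod q → ℤ),
        Lay P (2 * P / y ^ 7) Q S d b β → (#S : ℝ) ≤ A * (P : ℝ) ^ ε * (q / (P : ℝ) ^ 3) * y ^ 52 := by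
  have hε3 : 0 < ε / 3 := by positivity
  obtain ⟨A1, hA1, H1⟩ := levelQ (k := 3) (by norm_num) hε3
  obtain ⟨A2, hA2, H2⟩ := lay_level hε3
  obtain ⟨A3, hA3, H3⟩ := primes_eps 3 (lt_min hε3 (show (0 : ℝ) < 1 / 2 by norm_num))
  refine ⟨A3 ^ 2 * (A1 + A2) + 12, by positivity, 21952 * (⌈169 * A3 ^ 2⌉₊ + 1) ^ 3 + 112 ^ 24,
    fun P q _ hP hG y hy hyP => ?_⟩
  obtain ⟨M, m1, m2, m4, m3⟩ := cube_M _ hP hy hyP
  have hM : 1 ≤ M := by omega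
  have hM3 : M ≤ M ^ 3 := Nat.le_self_pow (by omega) M
  have hP' : (1 : ℝ) ≤ P := by exact_mod_cast (by omega : 1 ≤ P)
  have hM' : (1 : ℝ) ≤ M := by exact_mod_cast hM
  have hMP : (M : ℝ) ≤ P := by exact_mod_cast (by omega : M ≤ P)
  have m2' : 21952 * (M : ℝ) ^ 3 ≤ P := by exact_mod_cast m2
  have hy0 : 0 < y := by linarith
  have hMA : 169 * A3 ^ 2 < M := lt_of_le_of_lt (Nat.le_ceil _) (by exact_mod_cast (by omega))
  have hA4 : A3 ≤ A3 ^ 2 := le_self_pow₀ hA3 (by norm_num)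
  obtain ⟨Ms, s1, s2, s3⟩ := H3 M (by linarith)
  have hu : 1 ≤ q / (P : ℝ) ^ 3 := (one_le_div (by positivity)).2 (good_ge (by norm_num) hG)
  have hE : 1 ≤ (P : ℝ) ^ (ε / 3) := Real.one_le_rpow hP' hε3.le
  have hv : (M : ℝ) ≤ A3 * (P : ℝ) ^ (ε / 3) * #Ms := by
    refine s3.trans ?_
    have := (Real.rpow_le_rpow_of_exponent_le hM' (min_le_left (ε / 3) (1 / 2))).trans
      (Real.rpow_le_rpow (by positivity) hMP hε3.le)
    gcongr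
  have h14 : 14 ≤ #Ms := by
    by_contra hc
    have b1 : (#Ms : ℝ) ≤ 13 := by exact_mod_cast (by omega : #Ms ≤ 13)
    have b2 := Real.rpow_le_rpow_of_exponent_le hM' (min_le_right (ε / 3) (1 / 2))
    rw [← Real.sqrt_eq_rpow] at b2
    have b3 : (M : ℝ) ≤ A3 * √M * 13 := s3.trans (by gcongr)
    have b4 : (M : ℝ) ^ 2 ≤ (A3 * √M * 13) ^ 2 := by gcongr
    rw [mul_pow, mul_pow, Real.sq_sqrt (by positivity)] at b4
    nlinarith
  have hV : 2 * ((P : ℝ) / M + 1) ≤ 2 * P / y ^ 7 := by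
    have b1 : (P : ℝ) / M ≤ P / (2 * y ^ 7) := by gcongr
    have b2 : 1 ≤ (P : ℝ) / (2 * y ^ 7) := (one_le_div (by positivity)).2 (m3.trans hMP)
    have b3 : 2 * (P : ℝ) / y ^ 7 = 4 * (P / (2 * y ^ 7)) := by
      field_simp
      ring
    linarith
  have h7 : (P : ℝ) ^ ε = ((P : ℝ) ^ (ε / 3)) ^ 3 := by
    rw [← Real.rpow_mul_natCast (by positivity)]
    congr 1
    push_cast
    ring
  have fin : ∀ s A : ℝ, 0 ≤ A → A ≤ A1 + A2 → s * (#Ms : ℝ) ^ 2 ≤ A * (P : ℝ) ^ (ε / 3) *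
      (q / (P : ℝ) ^ 3) * (P / (2 * P / y ^ 7)) ^ 12 * (#Ms / P + 3136 * M ^ 2 / y ^ 32) →
      s ≤ (A3 ^ 2 * (A1 + A2) + 12) * (P : ℝ) ^ ε * (q / (P : ℝ) ^ 3) * y ^ 52 := by
    intro s A a0 a1 a2
    refine (cube_fin (by exact_mod_cast s2.card_pos) hy hyP (one_le_mul_of_one_le_of_one_le hA3 hE)
      (by positivity) (by positivity) m4 hv a2).trans ?_
    calc _ = A3 ^ 2 * A * (P : ℝ) ^ ε * (q / (P : ℝ) ^ 3) * y ^ 52 := by
          rw [h7]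
          ring
      _ ≤ _ := by
          gcongr
          exact le_add_of_le_of_nonneg (by gcongr) (by norm_num)
  refine ⟨fin _ A1 hA1.le (by linarith) ((H1 P M q hM (by omega) hG (by
    have b1 : 21952 * M ^ 2 ≤ P / M := (Nat.le_div_iff_mul_le hM).2 (by
      calc 21952 * M ^ 2 * M = 21952 * M ^ 3 := by ring
        _ ≤ P := m2)
    have b2 : 1 ≤ M ^ 2 := Nat.one_le_pow _ _ hM
    rw [show Nat.factorial 3 = 6 from rfl]
    omega) Ms s1 s2 _ (y ^ 32) hV (by positivity)).trans ?_), fun Q q1 q2 S d b β hS => ?_⟩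
  · have b1 := cube_QM hy hyP (by positivity) m2' (by positivity) le_rfl
    have b2 : (M : ℝ) ^ 4 / (P : ℝ) ^ 2 ≤ M ^ 2 / y ^ 32 := by
      rw [div_le_div_iff₀ (by positivity) (by positivity)]
      have : 0 ≤ y ^ 32 * (M : ℝ) ^ 2 := by positivity
      calc (M : ℝ) ^ 4 * y ^ 32 = M ^ 2 * (y ^ 32 * M ^ 2) := by ring
        _ ≤ _ := mul_le_mul_of_nonneg_left (by linarith) (by positivity)
    have b3 : 0 ≤ (M : ℝ) ^ 2 / y ^ 32 := by positivity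
    rw [show 2 * tri 3 = 12 from rfl]
    calc _ = A1 * (P : ℝ) ^ (ε / 3) * (q / (P : ℝ) ^ 3) * (P / (2 * P / y ^ 7)) ^ 12 *
          (#Ms / P + M ^ 4 / (P : ℝ) ^ 2 + M ^ 2 / y ^ 32) := by
          generalize (P / (2 * P / y ^ 7) : ℝ) ^ 12 = X
          field_simp
      _ ≤ _ := by
          refine mul_le_mul_of_nonneg_left ?_ (by positivity)
          rw [mul_div_assoc]
          linarith
  rcases le_total (Q ^ 2) (P * y ^ 38) with c | c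
  · have b1 := hS.simple (by positivity) (by linarith) hu
    have b2 : (#S : ℝ) ≤ 12 * (q / (P : ℝ) ^ 3) * y ^ 52 := by
      refine le_of_mul_le_mul_right (b1.trans ?_) (show 0 < (2 * P / y ^ 7) ^ 2 by positivity)
      calc _ ≤ 48 * (P * y ^ 38) * (q / (P : ℝ) ^ 3) * P := by gcongr
        _ = _ := by
            field_simp
            ring
    refine b2.trans ?_
    have b3 : 1 ≤ (P : ℝ) ^ ε := Real.one_le_rpow hP' hε.le
    gcongr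
    exact le_trans (le_add_of_nonneg_left (by positivity)) (le_mul_of_one_le_right (by positivity) b3)
  · refine fin _ A2 hA2.le (by linarith) ((H2 P M q hM m2 hG Ms s1 h14 _ Q
      (3136 * Q * M ^ 2 / y ^ 32) hV (by linarith) ?_ ?_ (by positivity)
      (cube_w hy hyP m4 (by linarith) c) S d b β hS).trans (le_of_eq ?_))
    · have b1 := cube_QM hy hyP (by positivity) m2' (by linarith) q2
      have b2 : 0 < Q * (M : ℝ) ^ 2 := by positivity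
      linarith
    · have b0 : y ^ 8 ≤ 56 * M := le_of_pow_le_pow_left₀ (n := 3) (by norm_num) (by positivity)
        (le_of_eq_of_le (by ring) (hyP.trans m4))
      have b1 : (y ^ 8) ^ 4 ≤ (56 * M) ^ 4 := by gcongr
      have b2 : (169 : ℝ) ^ 4 ≤ (M : ℝ) ^ 4 := by
        gcongr
        linarith
      have b3 : (0 : ℝ) < (M : ℝ) ^ 4 := by positivity
      calc 2 * Q ≤ 2 * (56 * M) ^ 4 := by
            gcongr
            exact q2.trans (le_of_eq_of_le (by ring) b1)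
        _ < 169 ^ 4 * M ^ 4 := by linarith
        _ ≤ M ^ 4 * M ^ 4 := by gcongr
        _ = _ := by ring
    · generalize (P / (2 * P / y ^ 7) : ℝ) ^ 12 = X
      field_simp


theorem log_floor {h : ℝ} (h1 : 1 ≤ h) :
    (2 : ℝ) ^ Nat.log 2 ⌊h⌋₊ ≤ h ∧ h ≤ 2 * (2 : ℝ) ^ Nat.log 2 ⌊h⌋₊ := by
  have hN1 : 1 ≤ ⌊h⌋₊ := Nat.le_floor (by exact_mod_cast h1)
  constructor
  · have h' : (2 : ℝ) ^ Nat.log 2 ⌊h⌋₊ ≤ ⌊h⌋₊ := by
      exact_mod_cast Nat.pow_log_le_self 2 (show ⌊h⌋₊ ≠ 0 by omega)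
    exact h'.trans (Nat.floor_le (by linarith))
  · have : ⌊h⌋₊ + 1 ≤ 2 ^ (Nat.log 2 ⌊h⌋₊ + 1) := Nat.lt_pow_succ_log_self (by norm_num) _
    have h' : (⌊h⌋₊ : ℝ) + 1 ≤ 2 ^ (Nat.log 2 ⌊h⌋₊ + 1) := by exact_mod_cast this
    have h'' := Nat.lt_floor_add_one h
    rw [pow_succ] at h'
    linarith

open Classical in
theorem cube_level {ε : ℝ} (hε : 0 < ε) : ∃ A : ℝ, 0 < A ∧ ∃ P0 : ℕ, ∀ (P q : ℕ) [NeZero q],
    P0 ≤ P → Good 3 P q → ∀ y : ℝ, 1 ≤ y → y ^ 24 ≤ P →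
      (#(Lv 3 P q (2 * P / y ^ 7)) : ℝ) ≤ A * (P : ℝ) ^ ε * (q / (P : ℝ) ^ 3) * y ^ 52 := by
  obtain ⟨A1, hA1, P0, H1⟩ := cube_parts (half_pos hε)
  obtain ⟨A2, hA2, H2⟩ := bad_rho hε
  refine ⟨A1 + A2 + (3 + 2 / (ε / 4)) * A1, by positivity, P0 + 1, fun P q _ hP hG y hy hyP => ?_⟩
  obtain ⟨h1, h2⟩ := H1 P q (by omega) hG y hy hyP
  have hP1 : 1 ≤ P := by omega
  have hP' : (1 : ℝ) ≤ P := by exact_mod_cast hP1
  have hy0 : 0 < y := by linarith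
  have hu : 1 ≤ q / (P : ℝ) ^ 3 := (one_le_div (by positivity)).2 (good_ge (by norm_num) hG)
  have hy2 : y ^ 32 ≤ (P : ℝ) ^ 2 := by
    calc y ^ 32 ≤ y ^ 48 := pow_le_pow_right₀ hy (by norm_num)
      _ = (y ^ 24) ^ 2 := by ring
      _ ≤ _ := by gcongr
  set U := (Lv 3 P q (2 * P / y ^ 7)).filter (Maj 3 P (y ^ 32)) with hU
  have hU1 : ∀ a ∈ U, 2 * P / y ^ 7 ≤ ‖fw 3 P a‖ := fun a ha => (mem_filter.1 (mem_filter.1 ha).1).2
  have h3 : ∀ a ∈ U, _ := fun a ha => rp_exists (fun d d1 d2 => hG d d1 (by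
    have b1 : d ≤ P ^ 2 := by exact_mod_cast d2.trans hy2
    exact b1.trans ((Nat.pow_le_pow_left (by omega) 2).trans
      (Nat.pow_le_pow_right (by positivity) (by omega))))) (mem_filter.1 ha).2
  choose! d b β r1 r2 r3 using h3
  set u : ℝ := q / (P : ℝ) ^ 3 with hu'
  have hu0 : 0 < u := by linarith
  have h4 : (#{a ∈ U | ¬ rho P (d a) ≤ 4 * P} : ℝ) ≤ A2 * (P : ℝ) ^ ε * u * y ^ 52 := by
    set B := {a ∈ U | ¬ rho P (d a) ≤ 4 * P} with hB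
    refine le_of_mul_le_mul_right ?_ (show 0 < (2 * P / y ^ 7) ^ 2 by positivity)
    rw [card_eq_sum_card_image d B, Nat.cast_sum, sum_mul]
    have b1 : ∀ w ∈ B.image d, #{a ∈ B | d a = w} * (2 * P / y ^ 7) ^ 2 ≤
        3 * (y ^ 32 * u) * rho P w := by
      intro w hw
      obtain ⟨a0, h0, rfl⟩ := mem_image.1 hw
      have c0 := (mem_filter.1 h0).1
      refine lay_arc (r1 a0 c0).1 (r1 a0 c0).2.1 (by positivity)
        ((r2 a0 c0).trans (le_mul_of_one_le_right (by positivity) hu)) _ fun a ha => ?_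
      obtain ⟨e1, e2⟩ := mem_filter.1 ha
      have c1 := (mem_filter.1 e1).1
      rw [← e2]
      exact ⟨hU1 a c1, (r1 a c1).arc (r3 a c1)⟩
    refine (sum_le_sum b1).trans ?_
    rw [← mul_sum]
    have b2 := H2 P hP1 (B.image d) fun w hw => by
      obtain ⟨a0, h0, rfl⟩ := mem_image.1 hw
      exact not_le.1 (mem_filter.1 h0).2
    have b3 : y ^ 32 ≤ y ^ 38 := pow_le_pow_right₀ hy (by norm_num)
    calc _ ≤ 4 * (y ^ 38 * u) * (A2 * (P : ℝ) ^ ε * (P : ℝ) ^ 2) := by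
          gcongr
          norm_num
      _ = _ := by
          field_simp
          ring
  obtain ⟨ht, hht⟩ : ∃ ht : ZMod q → ℝ, ∀ a, ht a = max (d a : ℝ) (d a * |(β a : ℝ)| / u) :=
    ⟨_, fun _ => rfl⟩
  have t1 : ∀ a ∈ U, 1 ≤ ht a ∧ ht a ≤ y ^ 32 := fun a ha => by
    rw [hht]
    exact ⟨le_max_of_le_left (by exact_mod_cast (r1 a ha).1),
      max_le (r2 a ha) ((div_le_iff₀ hu0).2 (r3 a ha))⟩
  have h5 : (#{a ∈ U | rho P (d a) ≤ 4 * P} : ℝ) ≤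
      (3 + 2 / (ε / 4)) * A1 * (P : ℝ) ^ ε * u * y ^ 52 := by
    set G := {a ∈ U | rho P (d a) ≤ 4 * P} with hG'
    rw [card_eq_sum_card_fiberwise (f := fun a => Nat.log 2 ⌊ht a⌋₊)
      (t := range (Nat.log 2 (P ^ 2 + 1) + 1)) fun a ha => mem_coe.2 (mem_range.2
        (Nat.lt_succ_of_le (Nat.log_mono_right (Nat.floor_le_of_le (by
          push_cast
          linarith [(t1 a (mem_filter.1 ha).1).2]))))), Nat.cast_sum]
    refine (sum_le_card_nsmul _ _ (A1 * (P : ℝ) ^ (ε / 2) * u * y ^ 52) fun i _ => ?_).trans ?_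
    · rcases ({a ∈ G | Nat.log 2 ⌊ht a⌋₊ = i}).eq_empty_or_nonempty with h0 | ⟨a0, h0⟩
      · rw [h0, card_empty, Nat.cast_zero]
        positivity
      have c0 := t1 a0 (mem_filter.1 (mem_filter.1 h0).1).1
      refine h2 (2 ^ i) (one_le_pow₀ (by norm_num))
        (by rw [← (mem_filter.1 h0).2]; exact (log_floor c0.1).1.trans c0.2) _ d b β fun a ha => ?_
      obtain ⟨e1, e2⟩ := mem_filter.1 ha
      obtain ⟨e3, e4⟩ := mem_filter.1 e1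
      obtain ⟨e5, e6⟩ := log_floor (t1 a e3).1
      rw [e2, hht] at e5 e6
      refine ⟨r1 a e3, hU1 a e3, (le_max_left _ _).trans e6,
        (div_le_iff₀ hu0).1 ((le_max_right _ _).trans e6), ?_, e4⟩
      exact (le_max_iff.1 e5).imp_right fun e => (le_div_iff₀ hu0).1 e
    · rw [card_range, nsmul_eq_mul]
      refine (mul_le_mul_of_nonneg_right (cub_log (δ := ε / 4) (by positivity)
        (Nat.one_le_pow _ _ hP1)) (by positivity)).trans (le_of_eq ?_)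
      rw [Nat.cast_pow, ← Real.rpow_natCast_mul (by positivity), show (P : ℝ) ^ ε =
        (P : ℝ) ^ (((2 : ℕ) : ℝ) * (ε / 4)) * (P : ℝ) ^ (ε / 2) by
          rw [← Real.rpow_add (by positivity)]
          congr 1
          push_cast
          ring]
      ring
  have h6 : (#(Lv 3 P q (2 * P / y ^ 7)) : ℝ) ≤ #(Lm 3 P q (2 * P / y ^ 7) (y ^ 32)) + #U := by
    have : Lv 3 P q (2 * P / y ^ 7) ⊆ Lm 3 P q (2 * P / y ^ 7) (y ^ 32) ∪ U := by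
      intro a ha
      by_cases h : Maj 3 P (y ^ 32) a
      · exact mem_union_right _ (mem_filter.2 ⟨ha, h⟩)
      · exact mem_union_left _ (mem_filter.2 ⟨mem_univ _, (mem_filter.1 ha).2, h⟩)
    exact_mod_cast (card_le_card this).trans (card_union_le _ _)
  rw [← card_filter_add_card_filter_not (s := U) (fun a => rho P (d a) ≤ 4 * P), Nat.cast_add] at h6
  have h7 : (P : ℝ) ^ (ε / 2) ≤ (P : ℝ) ^ ε := Real.rpow_le_rpow_of_exponent_le hP' (by linarith)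
  have h8 : A1 * (P : ℝ) ^ (ε / 2) * u * y ^ 52 ≤ A1 * (P : ℝ) ^ ε * u * y ^ 52 := by gcongr
  linarith

theorem cube_mom {e : ℕ} (he : e ≤ 3) {ε : ℝ} (hε : 0 < ε) : ∃ A : ℝ, 0 < A ∧ ∃ P0 : ℕ,
    ∀ (P q : ℕ) [NeZero q], P0 ≤ P → Good 3 P q → ∀ z : ℝ, 1 ≤ z → z ^ 24 = P →
      ∑ a : ZMod q, ‖fw 3 P a‖ ^ (e + 4) ≤ A * (P : ℝ) ^ ε * q * z ^ (17 * e + 48) := by
  classical
  obtain ⟨A1, hA1, P0, H1⟩ := cube_level (half_pos hε)
  obtain ⟨A2, hA2, H2⟩ := hua (k := 3) (j := 2) (by norm_num) (by norm_num) ε hε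
  refine ⟨4 ^ e * A2 + (3 + 2 / (ε / 2)) * (4 ^ (e + 4) * A1), by positivity, P0 + 2,
    fun P q _ hP hG z hz hzP => ?_⟩
  have hP1 : 1 ≤ P := by omega
  have hP' : (1 : ℝ) ≤ P := by exact_mod_cast hP1
  have hz0 : 0 < z := by linarith
  have hq0 : (0 : ℝ) < q := by exact_mod_cast NeZero.pos q
  have h1 : ∑ a : ZMod q, ‖fw 3 P a‖ ^ 4 ≤ q * (A2 * (P : ℝ) ^ ε * z ^ 48) := by
    have b1 := four_mom (k := 3) (w := 2) (P := P) (q := q)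
      (lt_of_le_of_lt (Nat.mul_le_mul_right _ (by omega)) (four_good (by norm_num) hP1 hG))
      (range (P + 1)) fun y hy => Nat.lt_succ_iff.1 (mem_range.1 hy)
    refine (le_of_eq b1).trans (mul_le_mul_of_nonneg_left ((H2 P hP1).trans (le_of_eq ?_)) hq0.le)
    rw [show z ^ 48 = (z ^ 24) ^ 2 by ring, hzP]
    norm_num
    field_simp
  have h2 : ∀ i ∈ range (Nat.log 2 (P + 1) + 1), ∑ a : ZMod q,
      (if 2 * z ^ 17 ≤ 2 ^ i ∧ 2 ^ i ≤ ‖fw 3 P a‖ then (2 * (2 : ℝ) ^ i) ^ (e + 4) else 0) ≤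
        4 ^ (e + 4) * A1 * (P : ℝ) ^ (ε / 2) * q * z ^ (17 * e + 48) := by
    intro i hi
    by_cases hz5 : 2 * z ^ 17 ≤ 2 ^ i
    swap
    · simp only [hz5, false_and, if_false, sum_const_zero]
      positivity
    have hi1 : 2 ^ i ≤ 2 * P :=
      ((Nat.pow_le_pow_right (by norm_num) (Nat.le_of_lt_succ (mem_range.1 hi))).trans
        (Nat.pow_log_le_self 2 (by omega))).trans (by omega)
    have hi2 : (2 : ℝ) ^ i ≤ 2 * P := by exact_mod_cast hi1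
    have hV0 : (0 : ℝ) < 2 ^ i := by positivity
    generalize (2 : ℝ) ^ i = V at *
    obtain ⟨y, hy0, hy⟩ : ∃ y : ℝ, 0 ≤ y ∧ y ^ 7 = 2 * P / V :=
      ⟨(2 * P / V) ^ (((7 : ℕ) : ℝ)⁻¹), by positivity,
        Real.rpow_inv_natCast_pow (by positivity) (by norm_num)⟩
    have y1 : 1 ≤ y := by
      refine le_of_pow_le_pow_left₀ (n := 7) (by norm_num) hy0 ?_
      rw [hy, one_pow, one_le_div hV0]
      exact hi2
    have y2 : y ≤ z := by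
      refine le_of_pow_le_pow_left₀ (n := 7) (by norm_num) hz0.le ?_
      rw [hy, div_le_iff₀ hV0, ← hzP]
      calc 2 * z ^ 24 = z ^ 7 * (2 * z ^ 17) := by ring
        _ ≤ _ := by gcongr
    have y3 : 2 * P / y ^ 7 = V := by
      rw [hy]
      field_simp
    have b1 := H1 P q (by omega) hG y y1 (by rw [← hzP]; gcongr)
    rw [y3] at b1
    simp only [hz5, true_and]
    rw [← sum_filter, sum_const, nsmul_eq_mul]
    refine (mul_le_mul_of_nonneg_right b1 (by positivity)).trans ?_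
    obtain ⟨w, hw⟩ : ∃ w, 7 * e + w = 24 := ⟨24 - 7 * e, by omega⟩
    have b2 : y ^ 52 * (2 * V) ^ (e + 4) = 4 ^ (e + 4) * (P : ℝ) ^ (e + 4) * y ^ w := by
      rw [← y3, show 52 = 7 * (e + 4) + w by omega, pow_add y, pow_mul, ← mul_pow 4, mul_right_comm,
        ← mul_pow]
      congr 2
      field_simp
      ring
    have b3 : (P : ℝ) ^ (e + 4) * z ^ w = (P : ℝ) ^ 3 * z ^ (17 * e + 48) := by
      rw [← hzP, ← pow_mul, ← pow_mul, ← pow_add, ← pow_add]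
      congr 1
      omega
    calc _ = A1 * (P : ℝ) ^ (ε / 2) * (q / (P : ℝ) ^ 3) * (y ^ 52 * (2 * V) ^ (e + 4)) := by ring
      _ ≤ A1 * (P : ℝ) ^ (ε / 2) * (q / (P : ℝ) ^ 3) *
          (4 ^ (e + 4) * ((P : ℝ) ^ (e + 4) * z ^ w)) := by
          rw [b2, mul_assoc (4 ^ (e + 4))]
          gcongr
      _ = _ := by
          rw [b3]
          field_simp
  have h3 : (P : ℝ) ^ ε = (P : ℝ) ^ (ε / 2) * (P : ℝ) ^ (ε / 2) := by
    rw [← Real.rpow_add (by positivity), add_halves]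
  have h4 : 1 ≤ 2 * z ^ 17 := by linarith [one_le_pow₀ (n := 17) hz]
  refine (sum_le_sum fun a _ => cub_point (norm_nonneg _) (norm_fw_le 3 P a) h4).trans ?_
  rw [sum_add_distrib, ← mul_sum, sum_comm, add_mul, add_mul, add_mul]
  refine add_le_add ((mul_le_mul_of_nonneg_left h1 (by positivity)).trans (le_of_eq ?_))
    ((sum_le_card_nsmul _ _ _ h2).trans ?_)
  · rw [← mul_assoc 2, mul_pow, show (2 * 2 : ℝ) = 4 by norm_num]
    ring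
  · rw [card_range, nsmul_eq_mul]
    refine (mul_le_mul_of_nonneg_right (cub_log (half_pos hε) hP1) (by positivity)).trans
      (le_of_eq ?_)
    rw [h3]
    ring

theorem cube_main (d : ℕ) (h4 : 4 ≤ d) (h7 : d ≤ 7) (ε : ℝ) (hε : 0 < ε) : ∃ C : ℝ,
    ∀ (P : ℕ) (c : Fin d → ℤ) (n : ℤ), 1 ≤ P → (∀ i, c i ≠ 0) →
      (({m : Fin d → ℤ | (∀ i, |m i| ≤ P) ∧ ∑ i, c i * |m i| ^ 3 = n}.ncard : ℕ) : ℝ) ≤
        C * (P : ℝ) ^ ((17 * (d : ℝ) - 20) / 24 + ε) := by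
  obtain ⟨e, rfl⟩ : ∃ e, d = e + 4 := ⟨d - 4, by omega⟩
  obtain ⟨A, hA, P0, H⟩ := cube_mom (e := e) (by omega) hε
  refine ⟨2 ^ (e + 4) * ((e + 4) * A + (P0 + 1) ^ (e + 4)), fun P c n hP hc => ?_⟩
  have hP' : (1 : ℝ) ≤ P := by exact_mod_cast hP
  have hX : 1 ≤ (P : ℝ) ^ ((17 * ((e + 4 : ℕ) : ℝ) - 20) / 24 + ε) := by
    refine Real.one_le_rpow hP' ?_
    push_cast
    have : (0 : ℝ) ≤ e := by positivity
    linarith
  refine (Nat.cast_le.2 (cub_sign c n)).trans ?_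
  rw [Nat.cast_mul, Nat.cast_pow, Nat.cast_ofNat, mul_assoc]
  refine mul_le_mul_of_nonneg_left ?_ (by positivity)
  rw [add_mul]
  rcases lt_or_ge P P0 with h | h
  · refine le_add_of_nonneg_of_le (by positivity) (le_trans ?_
      (le_mul_of_one_le_right (by positivity) hX))
    have b1 := card_filter_le (Fintype.piFinset (fun _ : Fin (e + 4) => range (P + 1)))
      fun x => ∑ i, c i * (x i : ℤ) ^ 3 = n
    rw [Fintype.card_piFinset_const, card_range] at b1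
    exact_mod_cast b1.trans (Nat.pow_le_pow_left (show P + 1 ≤ P0 + 1 by omega) _)
  refine le_add_of_le_of_nonneg ?_ (by positivity)
  obtain ⟨q0, hq0, hG⟩ := exists_good 3 P
  obtain ⟨q, hq⟩ : ∃ q, q = q0 * ∏ i, (c i).natAbs := ⟨_, rfl⟩
  have : NeZero q := ⟨hq ▸ mul_ne_zero hq0 (prod_ne_zero_iff.2 fun i _ =>
    Int.natAbs_ne_zero.2 (hc i))⟩
  have hq' : (0 : ℝ) < q := by exact_mod_cast NeZero.pos q
  have hz : ((P : ℝ) ^ (1 / 24 : ℝ)) ^ 24 = P := by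
    rw [← Real.rpow_mul_natCast (by positivity)]
    norm_num
  have h1 : ∀ i, ∑ a : ZMod q, ‖fw 3 P ((c i : ZMod q) * a)‖ ^ (e + 4) ≤
      q * (A * (P : ℝ) ^ ((17 * ((e + 4 : ℕ) : ℝ) - 20) / 24 + ε)) := by
    intro i
    obtain ⟨w, hw⟩ : (c i).natAbs ∣ ∏ j, (c j).natAbs :=
      dvd_prod_of_mem (fun j => (c j).natAbs) (mem_univ i)
    have b1 : q = q0 * w * (c i).natAbs := by rw [hq, hw]; ring
    have : NeZero (q0 * w) := ⟨fun h0 => NeZero.ne q (by rw [b1, h0, zero_mul])⟩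
    rw [fw_scale b1]
    have b2 := H P (q0 * w) h (fun t t1 t2 => (hG t t1 t2).mul_right w) _
      (Real.one_le_rpow hP' (by norm_num)) hz
    refine (mul_le_mul_of_nonneg_left b2 (Nat.cast_nonneg _)).trans (le_of_eq ?_)
    rw [← Real.rpow_mul_natCast (by positivity), Real.rpow_add (by positivity), b1,
      show (17 * ((e + 4 : ℕ) : ℝ) - 20) / 24 = 1 / 24 * ((17 * e + 48 : ℕ) : ℝ) by push_cast; ring]
    push_cast
    ring
  refine le_of_mul_le_mul_left ((cub_four c n).trans ?_) hq'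
  refine (sum_le_sum fun a _ => cub_prod _ fun i => norm_nonneg _).trans ?_
  rw [sum_comm]
  refine (sum_le_card_nsmul _ _ _ fun i _ => h1 i).trans (le_of_eq ?_)
  rw [card_univ, Fintype.card_fin, nsmul_eq_mul]
  push_cast
  ring

end Pool.Agent.MP_927be3_nt.W
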