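import Pool.Agent.MP_927be3_nt.Up.E

/-! Parameters growing with `k`: the upper bound `k ^ 2 - 3 k + 12 √k`. -/

open Finset Polynomial

namespace Pool.Agent.MP_927be3_nt.W

open Classical in
theorem weyl_close2 {k e P q m H : ℕ} [NeZero q] (he : 1 ≤ e) (hek : e < k) (hm : m.Prime)
    (hkm : k < m) (hd : m ^ (e + 1) ∣ q) (hH : 1 ≤ H) (hHm : H ^ e ≤ m) (hmP : m ≤ P) {n : ℤ}
    (hn : ¬ (m : ℤ) ∣ n) (T : Finset ℕ) (hT : T ⊆ range (P + 1)) :
    (#{z ∈ T ×ˢ T | Close H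
        (fun i : Fin e => gam k (((q / m ^ (e + 1) : ℕ) : ZMod q) * (n : ZMod q)) m z.1
          (Fin.castLE hek.le i))
        (fun i : Fin e => gam k (((q / m ^ (e + 1) : ℕ) : ZMod q) * (n : ZMod q)) m z.2
          (Fin.castLE hek.le i))} : ℝ) ≤ (P + 1) * (6 * k * P / (H : ℝ) ^ e) := by
  obtain ⟨d, rfl⟩ : ∃ d, e = d + 1 := ⟨e - 1, by omega⟩
  have hd1 : m ∣ q := (dvd_pow_self m (by omega)).trans hd
  have hu : ¬ (m : ℤ) ∣ (k.choose (d + 1) : ℤ) * n := by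
    intro h
    rcases (Nat.prime_iff_prime_int.1 hm).dvd_or_dvd h with h | h
    · have h1 : m ∣ k.choose (d + 1) := by exact_mod_cast h
      have h2 : m ∣ k.factorial := by
        rw [← Nat.choose_mul_factorial_mul_factorial hek.le, mul_assoc]
        exact h1.mul_right _
      have := (hm.dvd_factorial).1 h2
      omega
    · exact hn h
  have hqm : q / m ^ (d + 1 + 1) * m ^ (d + 1) = q / m := by
    obtain ⟨c, hc⟩ := hd
    have h0 : 0 < m := hm.pos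
    rw [hc, Nat.mul_div_cancel_left _ (by positivity), pow_succ' m (d + 1), mul_assoc,
      Nat.mul_div_cancel_left _ h0, mul_comm]
  have hqm' : ((q / m ^ (d + 1 + 1) : ℕ) : ZMod q) * (m : ZMod q) ^ (d + 1) =
      ((q / m : ℕ) : ZMod q) := by
    rw [← hqm]
    push_cast
    rfl
  have hHR : (1 : ℝ) ≤ H := by exact_mod_cast hH
  rw [card_filter, sum_product]
  push_cast
  refine (sum_le_card_nsmul _ _ (6 * k * P / (H : ℝ) ^ (d + 1) : ℝ) fun x _ => ?_).trans ?_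
  · have h0 := weyl_cnt (x := x) (j := k - (d + 1)) (by omega) (Nat.sub_le _ _) hm hd1
      (Nat.one_le_pow _ _ hH) hHm hmP hu
    rw [Nat.cast_pow] at h0
    refine le_trans ?_ h0
    rw [sum_boole]
    refine Nat.cast_le.2 (card_le_card fun x' hx' => ?_)
    obtain ⟨h1, h2⟩ := mem_filter.1 hx'
    refine mem_filter.2 ⟨hT h1, ?_⟩
    have h3 := h2 (Fin.last d)
    simp only [gam, Fin.val_castLE, Fin.val_last] at h3
    convert h3 using 1
    push_cast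
    rw [← hqm']
    ring
  · rw [nsmul_eq_mul]
    have h1 : (#T : ℝ) ≤ P + 1 := by
      have := card_le_card hT
      rw [card_range] at this
      exact_mod_cast this
    gcongr

theorem weyl_fc2 {k e : ℕ} (he : 1 ≤ e) (hek : e < k) : ∃ A : ℝ, 0 < A ∧
    ∀ (P M m q : ℕ) [NeZero q], 1 ≤ M → 4 * M ≤ P → (P / M) ^ e ≤ M → Good k P q → m.Prime → k < m →
      M ≤ m → m ≤ 4 * M → ∀ n : ℤ, ¬ (m : ℤ) ∣ n →
        ‖fc k P m (((q / m ^ (e + 1) : ℕ) : ZMod q) * (n : ZMod q))‖ ^ (2 * tri e) *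
          ((P / M : ℕ) : ℝ) ^ ((e : ℝ) / 2) ≤ A * (8 * (P : ℝ)) ^ (2 * tri e) := by
  classical
  obtain ⟨A, hA, hmv⟩ := mv he (ε := 1 / 2) (by norm_num)
  have hk : 1 ≤ k := by omega
  refine ⟨6 * k * A, by positivity, fun P M m q _ hM h4 hPM hG hm hkm hMm hm4 n hn => ?_⟩
  set H := P / M with hHdef
  set a := ((q / m ^ (e + 1) : ℕ) : ZMod q) * (n : ZMod q) with ha
  have hH : 1 ≤ H := (Nat.le_div_iff_mul_le hM).2 (by omega)
  have hHP : H ≤ P := Nat.div_le_self _ _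
  have hMH : M * H ≤ P := Nat.mul_div_le _ _
  have hmP : m ≤ P := hm4.trans h4
  have hbig : k * k * P ^ k < (8 * k * (P + 1)) ^ (2 * k) := by
    rw [mul_pow]
    have h1 : k * k ≤ (8 * k) ^ (2 * k) :=
      calc k * k ≤ (8 * k) ^ 2 := by nlinarith
        _ ≤ _ := Nat.pow_le_pow_right (by omega) (by omega)
    have h2 : P ^ k < (P + 1) ^ (2 * k) :=
      calc P ^ k < (P + 1) ^ k := Nat.pow_lt_pow_left (by omega) (by omega)
        _ ≤ _ := Nat.pow_le_pow_right (by omega) (by omega)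
    exact Nat.mul_lt_mul_of_le_of_lt h1 h2 (by positivity)
  have hd : m ^ (e + 1) ∣ q := by
    refine hG _ (pow_pos hm.pos _) (le_trans ?_ hbig.le)
    calc m ^ (e + 1) ≤ P ^ (e + 1) := Nat.pow_le_pow_left hmP _
      _ ≤ P ^ k := Nat.pow_le_pow_right (by omega) hek
      _ ≤ _ := Nat.le_mul_of_pos_left _ (by positivity)
  have hq : 2 * tri e * H ^ e < q := by
    refine lt_of_le_of_lt ?_ (hbig.trans_le (hG.le hk))
    rw [two_mul_tri]
    exact Nat.mul_le_mul (Nat.mul_le_mul hek.le hek)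
      ((Nat.pow_le_pow_left hHP _).trans (Nat.pow_le_pow_right (by omega) hek.le))
  set T := (range (P + 1)).filter (fun x => Nat.Coprime x m) with hT
  have hTs : T ⊆ range (P + 1) := filter_subset _ _
  have h1 := hmv q H hH hq ℕ T (fun x i => gam k a m x (Fin.castLE hek.le i))
    (fun x => -((x / m : ℕ) : ℤ)) (fun x => (((P - x) / m : ℕ) : ℤ)) (fun x hx => by
      have h0 : x ≤ P := Nat.lt_succ_iff.1 (mem_range.1 (hTs hx))
      have h2 : x / m ≤ H := Nat.div_le_div h0 hMm (by omega)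
      have h3 : (P - x) / m ≤ H := Nat.div_le_div (Nat.sub_le _ _) hMm (by omega)
      constructor <;> omega)
  have h2 := step1 (k := k) (P := P) hm.one_le (by omega) a
  simp only [ha, weyl_gam hek hd] at h2
  have h3 := weyl_close2 he hek hm hkm hd hH (hPM.trans hMm) hmP hn T hTs
  have h4' : (#T : ℝ) ≤ P + 1 := by
    have := card_le_card hTs
    rw [card_range] at this
    exact_mod_cast this
  obtain ⟨K, hK⟩ : ∃ K, 2 * tri e = K + 2 := ⟨2 * tri e - 2, by have := tri_pos he; omega⟩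
  have hHR : (0 : ℝ) < H := by exact_mod_cast hH
  have hmR : (0 : ℝ) < m := by exact_mod_cast hm.pos
  have h5 : (((P : ℝ) + 1) / (2 * m) * ‖fc k P m a‖) ^ (2 * tri e) ≤
      A * (H : ℝ) ^ (1 / 2 : ℝ) * (H : ℝ) ^ (2 * tri e) * ((P : ℝ) + 1) ^ (2 * tri e - 2) *
        ((P + 1) * (6 * k * P / (H : ℝ) ^ e)) := by
    refine (pow_le_pow_left₀ (by positivity) h2 _).trans (h1.trans ?_)
    gcongr
  set s := (H : ℝ) ^ (1 / 2 : ℝ) with hs
  have hs0 : 0 < s := Real.rpow_pos_of_pos hHR _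
  set s' := (H : ℝ) ^ ((e : ℝ) / 2) with hs'
  have hs0' : 0 < s' := Real.rpow_pos_of_pos hHR _
  have hss : s * s' / (H : ℝ) ^ e ≤ 1 := by
    rw [div_le_one (by positivity), hs, hs', ← Real.rpow_add hHR, ← Real.rpow_natCast]
    have : (1 : ℝ) ≤ e := by exact_mod_cast he
    exact Real.rpow_le_rpow_of_exponent_le (by exact_mod_cast hH) (by linarith)
  rw [hK] at h5 ⊢
  rw [Nat.add_sub_cancel, mul_pow, div_pow, div_mul_eq_mul_div,
    div_le_iff₀ (by positivity)] at h5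
  have h6 : 2 * (m : ℝ) * H ≤ 8 * P := by
    have : 2 * m * H ≤ 8 * P := by nlinarith
    exact_mod_cast this
  have h7 : (H : ℝ) ^ (K + 2) * (2 * (m : ℝ)) ^ (K + 2) ≤ (8 * (P : ℝ)) ^ (K + 2) := by
    rw [← mul_pow]
    exact pow_le_pow_left₀ (by positivity) (by linarith) _
  refine le_of_mul_le_mul_left ?_ (by positivity : (0 : ℝ) < ((P : ℝ) + 1) ^ (K + 2))
  calc ((P : ℝ) + 1) ^ (K + 2) * (‖fc k P m a‖ ^ (K + 2) * s')
      = ((P : ℝ) + 1) ^ (K + 2) * ‖fc k P m a‖ ^ (K + 2) * s' := by ring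
    _ ≤ A * s * (H : ℝ) ^ (K + 2) * ((P : ℝ) + 1) ^ K * ((P + 1) * (6 * k * P / (H : ℝ) ^ e)) *
        (2 * (m : ℝ)) ^ (K + 2) * s' := by gcongr
    _ = 6 * k * A * ((H : ℝ) ^ (K + 2) * (2 * (m : ℝ)) ^ (K + 2)) *
        (((P : ℝ) + 1) ^ (K + 1) * P) * (s * s' / (H : ℝ) ^ e) := by ring
    _ ≤ 6 * k * A * (8 * (P : ℝ)) ^ (K + 2) * (((P : ℝ) + 1) ^ (K + 1) * (P + 1)) *
        1 := by gcongr; linarith
    _ = _ := by ring

theorem weyl_hi2 {k e : ℕ} (he : 1 ≤ e) (hek : e < k) : ∃ A : ℝ, 0 < A ∧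
    ∀ (P M m q : ℕ) [NeZero q], 1 ≤ M → 4 * M ≤ P → P ≤ M ^ 2 → (P / M) ^ e ≤ M → Good k P q → m.Prime → k < m →
      M ≤ m → m ≤ 4 * M → ∀ n : ℤ, ¬ (m : ℤ) ∣ n →
        ‖fw k P (((q / m ^ (e + 1) : ℕ) : ZMod q) * (n : ZMod q))‖ ≤
          A * P / ((P : ℝ) / M) ^ (1 / (2 * ((e : ℝ) + 1))) := by
  obtain ⟨A, hA, hfc⟩ := weyl_fc2 he hek
  refine ⟨8 * (2 ^ e * A + 1) + 2, by positivity,
    fun P M m q _ hM h4 hPM hPe hG hm hkm hMm hm4 n hn => ?_⟩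
  have h1 := hfc P M m q hM h4 hPe hG hm hkm hMm hm4 n hn
  have h2 := fw_le_fc k P hm (((q / m ^ (e + 1) : ℕ) : ZMod q) * (n : ZMod q))
  set F := ‖fc k P m (((q / m ^ (e + 1) : ℕ) : ZMod q) * (n : ZMod q))‖ with hF
  have hF0 : 0 ≤ F := norm_nonneg _
  have hMR : (0 : ℝ) < M := by exact_mod_cast hM
  have hH : 1 ≤ P / M := (Nat.le_div_iff_mul_le hM).2 (by omega)
  have hHR : (1 : ℝ) ≤ ((P / M : ℕ) : ℝ) := by exact_mod_cast hH
  set R := (P : ℝ) / M with hR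
  have hR1 : 1 ≤ R := hHR.trans Nat.cast_div_le
  have hR2 : R ≤ 4 * ((P / M : ℕ) : ℝ) := by
    rw [hR, div_le_iff₀ hMR]
    have h3 : P ≤ 4 * (P / M) * M := by
      have := Nat.lt_mul_div_succ P hM
      nlinarith
    exact_mod_cast h3
  have hR3 : R * R ≤ P := by
    rw [hR, div_mul_div_comm, div_le_iff₀ (by positivity)]
    have h3 : P * P ≤ P * (M * M) := Nat.mul_le_mul_left _ (by nlinarith)
    exact_mod_cast h3
  set θ : ℝ := 1 / (2 * ((e : ℝ) + 1)) with hθ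
  have he0 : (0 : ℝ) ≤ e := Nat.cast_nonneg _
  have hθ1 : θ ≤ 1 := by
    rw [hθ, div_le_one (by positivity)]
    nlinarith
  have hθ2 : θ * ((2 * tri e : ℕ) : ℝ) = (e : ℝ) / 2 := by
    rw [two_mul_tri, hθ]
    push_cast
    field_simp
  have hρ : 0 < R ^ θ := Real.rpow_pos_of_pos (by linarith) _
  have h5 : R ^ θ ≤ R := by
    conv_rhs => rw [← Real.rpow_one R]
    exact Real.rpow_le_rpow_of_exponent_le hR1 hθ1
  have h6 : (R ^ θ) ^ (2 * tri e) ≤ 2 ^ e * ((P / M : ℕ) : ℝ) ^ ((e : ℝ) / 2) := by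
    rw [← Real.rpow_mul_natCast (by linarith), hθ2]
    calc _ ≤ (4 * ((P / M : ℕ) : ℝ)) ^ ((e : ℝ) / 2) :=
        Real.rpow_le_rpow (by linarith) hR2 (by positivity)
      _ = _ := by
        rw [Real.mul_rpow (by norm_num) (by linarith), show (4 : ℝ) = 2 ^ (2 : ℝ) by norm_num,
          ← Real.rpow_mul (by norm_num), show 2 * ((e : ℝ) / 2) = e by ring, Real.rpow_natCast]
  have hK : 2 * tri e ≠ 0 := by have := tri_pos he; omega
  have h7 : F * R ^ θ ≤ (2 ^ e * A + 1) * (8 * P) := by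
    refine (pow_le_pow_iff_left₀ (by positivity) (by positivity) hK).1 ?_
    rw [mul_pow, mul_pow (2 ^ e * A + 1)]
    have h0 : (0 : ℝ) < 2 ^ e * A := by positivity
    calc _ ≤ F ^ (2 * tri e) * (2 ^ e * ((P / M : ℕ) : ℝ) ^ ((e : ℝ) / 2)) := by gcongr
      _ = 2 ^ e * (F ^ (2 * tri e) * ((P / M : ℕ) : ℝ) ^ ((e : ℝ) / 2)) := by ring
      _ ≤ 2 ^ e * (A * (8 * (P : ℝ)) ^ (2 * tri e)) := by gcongr
      _ = 2 ^ e * A * (8 * (P : ℝ)) ^ (2 * tri e) := by ring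
      _ ≤ (2 ^ e * A + 1) * (8 * (P : ℝ)) ^ (2 * tri e) := by gcongr; linarith
      _ ≤ _ := by
        gcongr
        exact le_self_pow₀ (by linarith) hK
  have h8 : (P : ℝ) / m ≤ R := by
    rw [hR]
    gcongr
  rw [le_div_iff₀ hρ]
  calc _ ≤ (F + (R + R)) * R ^ θ := by gcongr; linarith
    _ = F * R ^ θ + 2 * (R * R ^ θ) := by ring
    _ ≤ (2 ^ e * A + 1) * (8 * P) + 2 * (R * R) := by gcongr
    _ ≤ _ := by linarith

theorem thetab_all2 {k : ℕ} (hk : 1 ≤ k) (e : ℕ) (hek : e < k) : ∃ A : ℝ, 0 < A ∧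
    ∀ (P M m q : ℕ) [NeZero q], 1 ≤ M → 4 * M ≤ P → P ≤ M ^ 2 → (P / M) ^ e ≤ M → Good k P q →
      m.Prime → k < m → M ≤ m → m ≤ 4 * M → ∀ n : ℤ, ¬ (m : ℤ) ∣ n →
        ‖fw k P (((q / m ^ (e + 1) : ℕ) : ZMod q) * (n : ZMod q))‖ ≤
          A * P / ((P : ℝ) / M) ^ (1 / (2 * ((e : ℝ) + 1))) := by
  rcases Nat.eq_zero_or_pos e with rfl | he
  · obtain ⟨A, hA, h⟩ := thetab_all hk 0 hek
    refine ⟨A, hA, fun P M m q _ hM h4 hP _ hG hm hkm hMm hm4 n hn => ?_⟩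
    have := h P M m q hM h4 hP hG hm hkm hMm hm4 n hn
    rwa [show (((0 : ℕ) : ℝ) + 1) ^ 2 = ((0 : ℕ) : ℝ) + 1 by norm_num] at this
  · exact weyl_hi2 he hek

theorem weyl_level2 {k b : ℕ} (hb : 1 ≤ b) (hbk : b ≤ k) : ∃ A : ℝ, 0 < A ∧
    ∀ (P M m q : ℕ) [NeZero q], 1 ≤ M → 4 * M ≤ P → P ≤ M ^ 2 → (P / M) ^ (b - 1) ≤ M →
      Good k P q → m.Prime → k < m →
      M ≤ m → m ≤ 4 * M → ∀ n : ℤ, ¬ (m : ℤ) ^ b ∣ n →
        ‖fw k P (((q / m ^ b : ℕ) : ZMod q) * (n : ZMod q))‖ ≤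
          A * P / ((P : ℝ) / M) ^ (1 / (2 * (b : ℝ))) := by
  have hk : 1 ≤ k := hb.trans hbk
  choose A hA0 hA using fun e : Fin k => thetab_all2 hk e e.2
  have hne : (univ : Finset (Fin k)).Nonempty := ⟨⟨0, hk⟩, mem_univ _⟩
  refine ⟨∑ e, A e, sum_pos (fun e _ => hA0 e) hne, ?_⟩
  intro P M m q _ hM h4 hP hPe hG hm hkm hMm hm4 n hn
  obtain ⟨v, hv, n', hn', rfl⟩ := thetab_fac m b hn
  have hd := thetab_dvd hb hbk h4 hG hm hm4
  have he : b - v - 1 < k := by omega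
  have h := hA ⟨b - v - 1, he⟩ P M m q hM h4 hP
    ((Nat.pow_le_pow_right (Nat.div_pos (by omega) hM) (show b - v - 1 ≤ b - 1 by omega)).trans hPe)
    hG hm hkm hMm hm4 n' hn'
  have he1 : b - v - 1 + 1 = b - v := by omega
  simp only [he1] at h
  have h1 : ((q / m ^ b : ℕ) : ZMod q) * (((m : ℤ) ^ v * n' : ℤ) : ZMod q) =
      ((q / m ^ (b - v) : ℕ) : ZMod q) * (n' : ZMod q) := by
    rw [← thetab_div hm.pos hd hv.le]
    push_cast
    ring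
  rw [h1]
  refine h.trans ?_
  have hM0 : (0 : ℝ) < M := by exact_mod_cast hM
  have h4' : 4 * (M : ℝ) ≤ P := by exact_mod_cast h4
  have hZ1 : 1 ≤ (P : ℝ) / M := by rw [le_div_iff₀ hM0]; linarith
  have hAe : A ⟨b - v - 1, he⟩ ≤ ∑ e, A e :=
    single_le_sum (fun e _ => (hA0 e).le) (mem_univ _)
  have hb' : ((b - v - 1 : ℕ) : ℝ) + 1 ≤ b := by
    have : b - v - 1 + 1 ≤ b := by omega
    exact_mod_cast this
  have hexp : (1 / (2 * (b : ℝ)) : ℝ) ≤ 1 / (2 * (((b - v - 1 : ℕ) : ℝ) + 1)) := by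
    gcongr
  have hr := Real.rpow_le_rpow_of_exponent_le hZ1 hexp
  have hr0 : 0 < ((P : ℝ) / M) ^ (1 / (2 * (b : ℝ)) : ℝ) :=
    Real.rpow_pos_of_pos (by linarith) _
  have hA1 := (hA0 ⟨b - v - 1, he⟩).le
  have hA2 : 0 ≤ ∑ e, A e := hA1.trans hAe
  gcongr

theorem thetab2 {k b : ℕ} (hb : 1 ≤ b) (hbk : b ≤ k) : ∃ A : ℝ, 0 < A ∧
    ∀ (P M q : ℕ) [NeZero q], 1 ≤ M → 4 * M ≤ P → P ≤ M ^ 2 → (P / M) ^ (b - 1) ≤ M →
      Good k P q →
      ∀ Ms : Finset ℕ, PrM k M Ms → ∀ V : ℝ, 0 < V →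
        A * (P / V) ^ 2 ≤ ((P : ℝ) / M) ^ (1 / (2 * (b : ℝ))) →
        ∀ a : ZMod q, (Th k b P Ms V a : ℝ) ≤ 8 * #Ms * (P / V) ^ 2 := by
  obtain ⟨A, hA0, hA⟩ := weyl_level2 hb hbk
  refine ⟨4 * A, by positivity, ?_⟩
  intro P M q _ hM h4 hP hPe hG Ms hMs V hV hAV a
  have hP1 : (1 : ℝ) ≤ P := by
    have : 1 ≤ P := by omega
    exact_mod_cast this
  have key : ∀ m ∈ Ms, (#((range (m ^ b)).filter fun n : ℕ =>
      V ≤ ‖fw k P (a + ((q / m ^ b : ℕ) : ZMod q) * (n : ZMod q))‖) : ℝ) ≤ 8 * (P / V) ^ 2 := by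
    intro m hm
    obtain ⟨hp, hkm, hMm, hm4⟩ := hMs m hm
    refine (thetab_hm (k := k) (P := P) _
      (fun n : ℕ => a + ((q / m ^ b : ℕ) : ZMod q) * (n : ZMod q)) hV
      (fun i hi => (mem_filter.1 hi).2) ?_).trans ?_
    · intro i hi j hj hij
      have hi' := mem_range.1 (mem_filter.1 hi).1
      have hj' := mem_range.1 (mem_filter.1 hj).1
      have hnd : ¬ (m : ℤ) ^ b ∣ (i : ℤ) - j := by
        intro hd
        have h0 : (i : ℤ) - j = 0 := by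
          refine Int.eq_zero_of_abs_lt_dvd hd ?_
          have hi2 : (i : ℤ) < (m : ℤ) ^ b := by exact_mod_cast hi'
          have hj2 : (j : ℤ) < (m : ℤ) ^ b := by exact_mod_cast hj'
          rw [abs_lt]
          constructor <;> omega
        omega
      have h := hA P M m q hM h4 hP hPe hG hp hkm hMm hm4 _ hnd
      have e : a + ((q / m ^ b : ℕ) : ZMod q) * (i : ZMod q) -
          (a + ((q / m ^ b : ℕ) : ZMod q) * (j : ZMod q)) =
          ((q / m ^ b : ℕ) : ZMod q) * (((i : ℤ) - j : ℤ) : ZMod q) := by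
        rw [Int.cast_sub, Int.cast_natCast, Int.cast_natCast]
        ring
      rw [e]
      refine h.trans ?_
      have h0 : 0 < 4 * A * ((P : ℝ) / V) ^ 2 := by positivity
      calc _ ≤ A * P / (4 * A * ((P : ℝ) / V) ^ 2) := by gcongr
        _ = V ^ 2 / (2 * (2 * (P : ℝ))) := by field_simp; ring
        _ ≤ _ := by gcongr; linarith
    · rw [div_pow, ← mul_div_assoc]
      gcongr ?_ / _
      nlinarith
  rw [Th]
  push_cast
  calc _ ≤ ∑ _m ∈ Ms, 8 * ((P : ℝ) / V) ^ 2 := sum_le_sum key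
    _ = _ := by rw [sum_const, nsmul_eq_mul]; ring

theorem levelIIc {k b : ℕ} (hb : 1 ≤ b) (hbk : 2 * b + 1 ≤ k) {ε : ℝ} (hε : 0 < ε) :
    ∃ A : ℝ, 0 < A ∧ ∀ (P q : ℕ) [NeZero q], Good k P q → ∀ V M : ℝ, 0 < V → V ≤ P + 1 →
      A ≤ M → (P : ℝ) ≤ M ^ 2 → (P / M) ^ (b - 1) ≤ M → A * M ^ (b + 1) ≤ (P : ℝ) ^ b →
      A * (P / V) ^ 2 ≤ (P / M) ^ (1 / (2 * (b : ℝ))) →
      (#(Lv k P q V) : ℝ) ≤ A * (P : ℝ) ^ ε * q *
        ((P / V) ^ (2 * tri k + 2) / (M * (P : ℝ) ^ (k + 1)) +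
          M ^ (2 * b + 3) * (P / V) ^ 2 * P / (P : ℝ) ^ k) := by
  obtain ⟨A0, hA0, H0⟩ := levii_gen hb hbk hε
  obtain ⟨At, hAt, Ht⟩ := thetab2 (k := k) hb (by omega)
  have hf : (1 : ℝ) ≤ k.factorial := by exact_mod_cast Nat.factorial_pos k
  have p8 : (0 : ℝ) < 8 ^ b := by positivity
  have p4 : (0 : ℝ) < 12 * k.factorial * 4 ^ b := by positivity
  set A : ℝ := 8 * A0 + 2 * At + 8 ^ b + 12 * k.factorial * 4 ^ b with hA
  refine ⟨A, by linarith, ?_⟩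
  intro P q _ hG V M hV _ hM hP hPe hb1 hY
  have hM1 : 1 ≤ M := by linarith
  obtain ⟨m1, m2, m3⟩ := levii_ceil hM1
  set N := ⌈M⌉₊ with hN
  have hY0 : 0 ≤ ((P : ℝ) / V) ^ 2 := by positivity
  have hMb : 0 < M ^ b := by positivity
  have h1 : 8 * M ≤ P := by
    refine le_of_pow_le_pow_left₀ (n := b) (by omega) (by positivity) ?_
    refine le_trans ?_ hb1
    rw [mul_pow, pow_succ]
    have e1 : (8 : ℝ) ^ b ≤ A := by linarith
    have e2 : M ^ b ≤ M ^ b * M := le_mul_of_one_le_right hMb.le hM1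
    gcongr
  have h2 : 4 * N ≤ P := by
    have : (4 : ℝ) * N ≤ P := by linarith
    exact_mod_cast this
  have h3 : P ≤ N ^ 2 := by
    have : (P : ℝ) ≤ (N : ℝ) ^ 2 := hP.trans (pow_le_pow_left₀ (by linarith) m2 2)
    exact_mod_cast this
  have h3' : (P / N) ^ (b - 1) ≤ N := by
    have e1 : ((P / N : ℕ) : ℝ) ≤ P / M :=
      Nat.cast_div_le.trans (div_le_div_of_nonneg_left (by positivity) (by linarith) m2)
    have e2 := (pow_le_pow_left₀ (by positivity) e1 (b - 1)).trans (hPe.trans m2)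
    exact_mod_cast e2
  have h4 : 6 * k.factorial * N < (P / N) ^ b := by
    have e1 : 1 ≤ P / N := (Nat.le_div_iff_mul_le m1).2 (by omega)
    have e2 : P ≤ 2 * (P / N) * N := by
      have := Nat.lt_mul_div_succ P m1
      have := Nat.mul_le_mul_left N e1
      linarith
    have e3 : (P : ℝ) ≤ 4 * M * (P / N : ℕ) := by
      have f1 : (P : ℝ) ≤ 2 * (P / N : ℕ) * N := by exact_mod_cast e2
      have f2 := mul_le_mul_of_nonneg_left m3 (by positivity : (0 : ℝ) ≤ (P / N : ℕ))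
      linarith
    have e4 := hb1.trans (pow_le_pow_left₀ (by positivity) e3 b)
    rw [mul_pow, mul_pow, pow_succ] at e4
    have e5 : A * M ≤ 4 ^ b * ((P / N : ℕ) : ℝ) ^ b := by
      refine le_of_mul_le_mul_left ?_ hMb
      linarith
    have e6 : 12 * k.factorial * 4 ^ b * M < A * M := by
      refine mul_lt_mul_of_pos_right ?_ (by linarith)
      linarith
    have e7 : 12 * k.factorial * M < ((P / N : ℕ) : ℝ) ^ b := by
      refine lt_of_mul_lt_mul_left (a := (4 : ℝ) ^ b) ?_ (by positivity)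
      linarith
    have e8 : 6 * (k.factorial : ℝ) * N < ((P / N : ℕ) : ℝ) ^ b := by
      have := mul_le_mul_of_nonneg_left m3 (by linarith : (0 : ℝ) ≤ k.factorial)
      linarith
    exact_mod_cast e8
  set r : ℝ := 1 / (2 * (b : ℝ)) with hr
  have hb' : (1 : ℝ) ≤ b := by exact_mod_cast hb
  have r0 : 0 ≤ r := by positivity
  have r1 : r ≤ 1 := by
    rw [hr, div_le_one (by positivity)]
    linarith
  have z1 : (1 : ℝ) ≤ P / M := by
    rw [le_div_iff₀ (by linarith)]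
    linarith
  have h5 : A * ((P : ℝ) / V) ^ 2 ≤ M := by
    refine hY.trans ((Real.rpow_le_self_of_one_le z1 r1).trans ?_)
    rw [div_le_iff₀ (by linarith)]
    linarith
  have h6 : At * ((P : ℝ) / V) ^ 2 ≤ ((P : ℝ) / N) ^ r := by
    have e1 : (P : ℝ) / M ≤ 2 * (P / N) := by
      rw [← mul_div_assoc, div_le_div_iff₀ (by linarith) (by linarith)]
      have := mul_le_mul_of_nonneg_left m3 (by positivity : (0 : ℝ) ≤ P)
      linarith
    have e2 := Real.rpow_le_rpow (by linarith) e1 r0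
    rw [Real.mul_rpow (by norm_num) (by positivity)] at e2
    have e3 : (2 : ℝ) ^ r ≤ 2 := Real.rpow_le_self_of_one_le (by norm_num) r1
    have e4 : 0 ≤ ((P : ℝ) / N) ^ r := by positivity
    have e5 := mul_le_mul_of_nonneg_right (by linarith : 2 * At ≤ A) hY0
    have e6 := mul_le_mul_of_nonneg_right e3 e4
    linarith
  have h7 := H0 P q hG V M (8 * (P / V) ^ 2) hV (by linarith) (by positivity)
    ((mul_le_mul_of_nonneg_right (by linarith) hY0).trans h5) h2 h4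
    fun Ms hMs a => by
      have := Ht P _ q m1 h2 h3 h3' hG Ms hMs V hV h6 a
      have := mul_nonneg (by linarith : 0 ≤ M) hY0
      linarith
  refine h7.trans ?_
  have t1 : 0 ≤ M ^ (2 * b + 3) * (P / V) ^ 2 * P / (P : ℝ) ^ k := by positivity
  calc A0 * (P : ℝ) ^ ε * q * ((P / V) ^ (2 * tri k) * (8 * (P / V) ^ 2) / (M * (P : ℝ) ^ (k + 1)) +
        M ^ (2 * b + 3) * (P / V) ^ 2 * P / (P : ℝ) ^ k)
      ≤ A0 * (P : ℝ) ^ ε * q * ((P / V) ^ (2 * tri k) * (8 * (P / V) ^ 2) /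
          (M * (P : ℝ) ^ (k + 1)) + 8 * (M ^ (2 * b + 3) * (P / V) ^ 2 * P / (P : ℝ) ^ k)) := by
        gcongr
        linarith
    _ = (8 * A0) * (P : ℝ) ^ ε * q * ((P / V) ^ (2 * tri k + 2) / (M * (P : ℝ) ^ (k + 1)) +
        M ^ (2 * b + 3) * (P / V) ^ 2 * P / (P : ℝ) ^ k) := by ring
    _ ≤ _ := by
      gcongr
      linarith

theorem mid_gen2 {k s t u m b : ℕ} {g : ℝ} (hb : 1 ≤ b) (hbk : 2 * b + 1 ≤ k)
    (hst : s + t = k * (k + 1)) (ht : 1 ≤ t) (hu : u < s) (hg1 : 1 / 2 ≤ g)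
    (hg2 : g * (b + 1) < b) (hg3 : (b : ℝ) - 1 ≤ g * b) (h1 : ((t : ℝ) + 2) * m < (1 + g) * ((s : ℝ) - u))
    (h2 : 4 * (b : ℝ) * m < (1 - g) * ((s : ℝ) - u))
    (h3 : ((2 * b + 3) * g + 1) * t + 2 < (s : ℝ)) : Mid k s t u m := by
  have hb0 : (0 : ℝ) < b := by exact_mod_cast hb
  have ht0 : (0 : ℝ) < t := by exact_mod_cast ht
  have hD : (0 : ℝ) < (s : ℝ) - u := sub_pos.2 (by exact_mod_cast hu)
  have h2' : 2 * (m : ℝ) < ((s : ℝ) - u) * ((1 - g) * (1 / (2 * (b : ℝ)))) := by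
    rw [mul_one_div, ← mul_div_assoc, lt_div_iff₀ (by positivity)]
    linarith
  have h3' : ((2 * b + 3) * g + 1) * t < (s : ℝ) - 2 := by linarith
  have hs2 : (0 : ℝ) < (s : ℝ) - 2 := lt_trans (by positivity) h3'
  obtain ⟨η, ⟨⟨⟨⟨e1, e2⟩, e3⟩, e4⟩, e5⟩, hη⟩ :=
    ((((((midb_ev 1 (show (0 : ℝ) < g by linarith)).and (midb_ev 1 hg2)).and
      (midb_ev ((s : ℝ) - u + 2) h2')).and (midb_ev ((t : ℝ) + 2 + 2 * ((s : ℝ) - u)) h1)).and
      (midb_ev (2 * (t : ℝ) + ((s : ℝ) - 2)) h3')).and self_mem_nhdsWithin).exists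
  have hη : 0 < η := hη
  obtain ⟨A, hA, hL⟩ := levelIIc hb hbk hη
  obtain ⟨P0, hP0⟩ := midb_big A hη
  refine ⟨η, 2 * A, hη, by positivity, P0, fun P hP q _ hG V hV1 hV2 c1 c2 => ?_⟩
  obtain ⟨hP2, hAP⟩ := hP0 P hP
  have hP1 : (1 : ℝ) < P := by exact_mod_cast hP2
  have hPp : (0 : ℝ) < P := by linarith
  have hV0 : 0 < V := by linarith
  have hY0 : 0 < (P : ℝ) / V := by positivity
  obtain ⟨σ, hσ⟩ : ∃ σ : ℝ, (P : ℝ) ^ σ = P / V := ⟨_, Real.rpow_logb hPp hP1.ne' hY0⟩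
  have hpw : ∀ (x : ℝ) (n : ℕ), ((P : ℝ) ^ x) ^ n = (P : ℝ) ^ (x * n) := fun x n => by
    rw [Real.rpow_mul hPp.le, Real.rpow_natCast]
  have hle : ∀ x y : ℝ, x ≤ y → (P : ℝ) ^ x ≤ (P : ℝ) ^ y := fun x y h =>
    Real.rpow_le_rpow_of_exponent_le hP1.le h
  have hA' : ∀ x y : ℝ, η + x ≤ y → A * (P : ℝ) ^ x ≤ (P : ℝ) ^ y := fun x y h => by
    refine le_trans ?_ (hle _ _ h)
    rw [Real.rpow_add hPp]
    exact mul_le_mul_of_nonneg_right hAP (by positivity)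
  rw [← hσ, hpw, Real.rpow_le_rpow_left_iff hP1] at c1 c2
  rw [Nat.cast_sub hu.le] at c2
  have d1 : η + σ * (2 : ℕ) ≤ (1 - g) * (1 / (2 * (b : ℝ))) := by
    refine le_of_mul_le_mul_left ?_ hD
    push_cast
    linarith
  have d2 : ((t : ℝ) + 2) * σ + 2 * η ≤ 1 + g := by
    refine le_of_mul_le_mul_left ?_ hD
    have := mul_le_mul_of_nonneg_left c2 (by positivity : (0 : ℝ) ≤ (t : ℝ) + 2)
    linarith
  have d3 : (2 * b + 3) * g + 1 + 2 * η ≤ ((s : ℝ) - 2) * σ := by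
    refine le_of_mul_le_mul_left ?_ ht0
    have := mul_le_mul_of_nonneg_left c1 hs2.le
    linarith
  have hst' : ((2 * tri k + 2 : ℕ) : ℝ) = (s : ℝ) + t + 2 := by
    rw [two_mul_tri, ← hst]
    push_cast
    ring
  have key := hL P q hG V ((P : ℝ) ^ g) hV0 hV2 (hAP.trans (hle _ _ (by linarith)))
    (by
      rw [hpw]
      refine le_trans (le_of_eq (Real.rpow_one _).symm) (hle _ _ ?_)
      push_cast
      linarith)
    (by
      have : (P : ℝ) / (P : ℝ) ^ g = (P : ℝ) ^ (1 - g) := by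
        rw [Real.rpow_sub hPp, Real.rpow_one]
      rw [this, hpw]
      refine hle _ _ ?_
      rw [Nat.cast_sub hb]
      push_cast
      linarith)
    (by
      rw [hpw, ← Real.rpow_natCast (P : ℝ) b]
      refine hA' _ _ ?_
      push_cast
      linarith)
    (by
      have : (P : ℝ) / (P : ℝ) ^ g = (P : ℝ) ^ (1 - g) := by
        rw [Real.rpow_sub hPp, Real.rpow_one]
      rw [← hσ, hpw, this, ← Real.rpow_mul hPp.le]
      exact hA' _ _ d1)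
  have hR : ((P : ℝ) / V) ^ s / ((P : ℝ) ^ k * (P : ℝ) ^ η) = (P : ℝ) ^ (σ * s - (k + η)) := by
    rw [← hσ, hpw, Real.rpow_sub hPp, Real.rpow_add hPp, Real.rpow_natCast]
  have t1 : (P : ℝ) ^ η * (((P : ℝ) / V) ^ (2 * tri k + 2) / ((P : ℝ) ^ g * (P : ℝ) ^ (k + 1))) ≤
      ((P : ℝ) / V) ^ s / ((P : ℝ) ^ k * (P : ℝ) ^ η) := by
    rw [hR, ← hσ, hpw, ← Real.rpow_natCast (P : ℝ) (k + 1), ← Real.rpow_add hPp,
      ← Real.rpow_sub hPp, ← Real.rpow_add hPp, hst']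
    refine hle _ _ ?_
    push_cast
    linarith
  have t2 : (P : ℝ) ^ η * (((P : ℝ) ^ g) ^ (2 * b + 3) * ((P : ℝ) / V) ^ 2 * P / (P : ℝ) ^ k) ≤
      ((P : ℝ) / V) ^ s / ((P : ℝ) ^ k * (P : ℝ) ^ η) := by
    rw [hR, ← hσ, hpw, hpw, ← Real.rpow_natCast (P : ℝ) k, ← Real.rpow_add hPp,
      ← Real.rpow_add_one hPp.ne', ← Real.rpow_sub hPp, ← Real.rpow_add hPp]
    refine hle _ _ ?_
    push_cast
    linarith
  refine key.trans ?_
  have hq : (0 : ℝ) ≤ A * q := by positivity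
  have := mul_le_mul_of_nonneg_left (add_le_add t1 t2) hq
  calc _ = _ := by ring
    _ ≤ _ := this
    _ = _ := by ring


theorem root_small : ∀ r ∈ Icc 2 4, ∀ k ∈ Icc 5 24, k < (r + 1) ^ 2 → ∃ j ∈ Ico 1 k,
    7 * k * (k + 1) + 6 + 30 * k ≤ 10 * (k ^ 2 + 12 * r) ∧
      2 * (k - j) * (k * (k + 1)) + 3 * (j * (j + 1)) + (2 * (k - j) + 3) * (3 * k) <
        (2 * (k - j) + 3) * (k ^ 2 + 12 * r) := by
  decide +kernel

theorem root_params {r b k s t : ℕ} (hr : 5 ≤ r) (b1 : r ≤ 2 * b) (b2 : 2 * b ≤ r + 1)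
    (h1 : r ^ 2 ≤ k) (h2 : k < (r + 1) ^ 2) (hst : s + t = k * (k + 1))
    (ht : t + 12 * r ≤ 4 * k) :
    2 * r < k ∧ 2 * b + 1 ≤ k ∧ 2 * t + 4 < s ∧ 4 * k ≤ s ∧
        k ^ 2 ≤ 2 * s ∧ (k - 2 * r) * (k - 2 * r + 1) < s ∧
        ((t : ℝ) + 2) * (2 * r : ℕ) <
          (1 + (1 - 1 / b)) * ((s : ℝ) - ((k - 2 * r) * (k - 2 * r + 1) : ℕ)) ∧
        4 * (b : ℝ) * (2 * r : ℕ) <
          (1 - (1 - 1 / b)) * ((s : ℝ) - ((k - 2 * r) * (k - 2 * r + 1) : ℕ)) ∧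
        ((2 * b + 3) * (1 - 1 / b) + 1) * t + 2 < (s : ℝ) := by
  have k5 : 5 * r ≤ k := le_trans (by nlinarith) h1
  obtain ⟨j, rfl⟩ : ∃ j, k = j + 2 * r := ⟨k - 2 * r, by omega⟩
  rw [Nat.add_sub_cancel]
  have hs : (s : ℝ) - ((j * (j + 1) : ℕ) : ℝ) = 2 * r * (2 * j + 2 * r + 1) - t := by
    have : (s : ℝ) + t = (j + 2 * r) * (j + 2 * r + 1) := by exact_mod_cast hst
    push_cast
    linarith
  have rR : (5 : ℝ) ≤ r := by exact_mod_cast hr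
  have c1 : (r : ℝ) ≤ 2 * b := by exact_mod_cast b1
  have c2 : 2 * (b : ℝ) ≤ r + 1 := by exact_mod_cast b2
  have b3 : (3 : ℝ) ≤ b := by exact_mod_cast (by omega : 3 ≤ b)
  have t0 : (0 : ℝ) ≤ t := Nat.cast_nonneg t
  have t1 : (t : ℝ) + 12 * r ≤ 4 * (j + 2 * r) := by exact_mod_cast ht
  have k1 : (r : ℝ) ^ 2 ≤ j + 2 * r := by exact_mod_cast h1
  have k2 : (j : ℝ) ≤ (r : ℝ) ^ 2 := by
    have : j ≤ r ^ 2 := by nlinarith
    exact_mod_cast this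
  have j0 : 3 * (r : ℝ) ≤ j := by exact_mod_cast (by omega : 3 * r ≤ j)
  have g0 : (0 : ℝ) < 1 / b := by positivity
  have g1 : 1 / (b : ℝ) * b = 1 := by field_simp
  have g2 : 1 / (b : ℝ) * r ≤ 2 := by nlinarith
  have g3 : 1 / (b : ℝ) ≤ 1 / 3 := by gcongr
  have u0 : 8 * (r : ℝ) * b ^ 2 < 2 * r * (2 * j + 2 * r + 1) - t := by
    have e1 : 4 * (b : ℝ) ^ 2 ≤ (r + 1) ^ 2 := by nlinarith
    have e2 := mul_le_mul_of_nonneg_left e1 (show (0 : ℝ) ≤ 2 * r by positivity)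
    have e3 := mul_le_mul_of_nonneg_left k1 (show (0 : ℝ) ≤ r - 1 by linarith)
    have e4 : (0 : ℝ) < r * ((r - 5) * (r - 1) + 1) := by
      have : (0 : ℝ) ≤ (r - 5) * (r - 1) := mul_nonneg (by linarith) (by linarith)
      positivity
    nlinarith
  refine ⟨by omega, by omega, by nlinarith, by nlinarith, by nlinarith, ?_, ?_, ?_, ?_⟩
  · have : (0 : ℝ) < (s : ℝ) - ((j * (j + 1) : ℕ) : ℝ) := by
      rw [hs]
      exact lt_of_le_of_lt (by positivity) u0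
    exact_mod_cast sub_pos.1 this
  · rw [hs]
    push_cast
    set γ : ℝ := 1 / b with hγ
    have e1 := mul_le_mul_of_nonneg_left t1 (show (0 : ℝ) ≤ 2 * r + 2 - γ by linarith)
    have e2 : γ * ((r - 1) * j) ≤ γ * ((r - 1) * r ^ 2) :=
      mul_le_mul_of_nonneg_left (mul_le_mul_of_nonneg_left k2 (by linarith)) g0.le
    have e3 := mul_le_mul_of_nonneg_left g2 (show (0 : ℝ) ≤ 4 * r ^ 2 + 6 by positivity)
    nlinarith
  · rw [hs]
    push_cast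
    have e1 := mul_lt_mul_of_pos_left u0 g0
    have e2 : 1 / (b : ℝ) * (8 * r * b ^ 2) = 8 * r * b := by field_simp
    linarith
  · have a2 : ((2 : ℝ) * b + 2) * t + 2 < s := by
      have e0 : (s : ℝ) + t = (j + 2 * r) * (j + 2 * r + 1) := by exact_mod_cast hst
      have e1 := mul_le_mul_of_nonneg_right c2 t0
      have e2 := mul_le_mul_of_nonneg_left t1 (show (0 : ℝ) ≤ r + 4 by positivity)
      nlinarith [sq_nonneg (2 * ((j : ℝ) + 2 * r) - 4 * r - 15)]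
    have a3 : 0 ≤ 1 / (b : ℝ) * t := by positivity
    have a4 : 1 / (b : ℝ) * b * t = t := by rw [g1, one_mul]
    nlinarith

theorem main3 (k d : ℕ) (hk : 5 ≤ k) (hd : (k : ℝ) ^ 2 - 3 * k + 12 * √k ≤ d) : Holds k d := by
  obtain ⟨r, h1, h2⟩ : ∃ r : ℕ, r ^ 2 ≤ k ∧ k < (r + 1) ^ 2 :=
    ⟨k.sqrt, Nat.sqrt_le' k, Nat.lt_succ_sqrt' k⟩
  have hr : (r : ℝ) ≤ √k := Real.le_sqrt_of_sq_le (by exact_mod_cast h1)
  have hd' : k ^ 2 + 12 * r ≤ d + 3 * k := by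
    have : (k : ℝ) ^ 2 + 12 * r ≤ d + 3 * k := by linarith
    exact_mod_cast this
  rcases lt_or_ge k 25 with h | h
  · have r2 : 2 ≤ r := by
      by_contra hc
      have : (r + 1) ^ 2 ≤ 2 ^ 2 := Nat.pow_le_pow_left (by omega) 2
      omega
    have r4 : r ≤ 4 := by nlinarith
    obtain ⟨j, hj, a1, a2⟩ := root_small r (mem_Icc.2 ⟨r2, r4⟩) k (mem_Icc.2 ⟨hk, by omega⟩) h2
    obtain ⟨j1, j2⟩ := mem_Ico.1 hj
    refine main1 k j d hk j1 j2 (by omega) ?_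
    have a3 := a2.trans_le (Nat.mul_le_mul_left _ hd')
    have a4 : ((min (2 ^ j) (j * (j + 1)) : ℕ) : ℤ) ≤ j * (j + 1) := by
      exact_mod_cast min_le_right _ _
    zify [j2.le] at a3
    nlinarith
  have r5 : 5 ≤ r := by
    by_contra hc
    have : (r + 1) ^ 2 ≤ 5 ^ 2 := Nat.pow_le_pow_left (by omega) 2
    omega
  have k5 : 5 * r ≤ k := le_trans (by nlinarith) h1
  obtain ⟨s, t, hs, hst, ht, ht'⟩ : ∃ s t : ℕ, s ≤ d ∧ s + t = k * (k + 1) ∧ 1 ≤ t ∧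
      t + 12 * r ≤ 4 * k := by
    have e : k * (k + 1) = k ^ 2 + k := by ring
    have e' : 3 * k ≤ k ^ 2 := by nlinarith
    exact ⟨k ^ 2 + 12 * r - 3 * k, 4 * k - 12 * r, by omega, by omega, by omega, by omega⟩
  obtain ⟨b, b1, b2⟩ : ∃ b, r ≤ 2 * b ∧ 2 * b ≤ r + 1 := ⟨(r + 1) / 2, by omega, by omega⟩
  obtain ⟨a1, a2, a4, a5, a6, a7, a8, a9, a10⟩ := root_params r5 b1 b2 h1 h2 hst ht'
  have bR : (3 : ℝ) ≤ b := by exact_mod_cast (by omega : 3 ≤ b)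
  have g0 : 1 / (b : ℝ) * b = 1 := by field_simp
  have g1 : (1 : ℝ) / 2 ≤ 1 - 1 / b := by
    have : 1 / (b : ℝ) ≤ 1 / 3 := by gcongr
    linarith
  have g2 : (1 - 1 / (b : ℝ)) * (b + 1) < b := by
    have : (0 : ℝ) < 1 / b := by positivity
    nlinarith
  have i1 := mid_gen2 (by omega) a2 hst ht a7 g1 g2 (by nlinarith) a8 a9 a10
  have i2 : Mid k s t (2 * tri (k - 2 * r)) (k - (k - 2 * r)) := by
    rwa [two_mul_tri, Nat.sub_sub_self a1.le]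
  exact holds_of_lb (by omega) (a5.trans hs) (by omega) (lb_mono (lb_glue (by omega) hst ht a4
    (jline (by omega) (by omega)) (by rwa [two_mul_tri]) (by omega) i2 (fina_cM k)) hs)

end Pool.Agent.MP_927be3_nt.W
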